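import Pool.Agent.LenSpec.Stmt

/-!
RZ: one polynomial, by an ultrapower argument.
-/

namespace Pool.Agent.LenSpec

open Polynomial

/-- two enumerations of the same multiset differ by a permutation -/
theorem rz_perm {α : Type} {ι : Type} [Fintype ι] (f g : ι → α)
    (h : Finset.univ.val.map f = Finset.univ.val.map g) :
    ∃ σ : Equiv.Perm ι, ∀ i, f i = g (σ i) := by
  classical
  have hc : ∀ a, Fintype.card {i // f i = a} = Fintype.card {i // g i = a} := by
    intro a
    have h1 := congrArg (Multiset.count a) h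
    rw [Multiset.count_map, Multiset.count_map] at h1
    rw [Fintype.card_subtype, Fintype.card_subtype]
    have e1 : (Finset.univ.filter (fun i => f i = a)).card =
        Multiset.card (Multiset.filter (fun i => a = f i) Finset.univ.val) := by
      rw [← Finset.card_val, Finset.filter_val]
      congr 1
      exact Multiset.filter_congr (fun x _ => eq_comm)
    have e2 : (Finset.univ.filter (fun i => g i = a)).card =
        Multiset.card (Multiset.filter (fun i => a = g i) Finset.univ.val) := by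
      rw [← Finset.card_val, Finset.filter_val]
      congr 1
      exact Multiset.filter_congr (fun x _ => eq_comm)
    rw [e1, e2, h1]
  let e : ∀ a, {i // f i = a} ≃ {i // g i = a} := fun a => Fintype.equivOfCardEq (hc a)
  refine ⟨Equiv.ofFiberEquiv e, ?_⟩
  intro i
  exact (Equiv.ofFiberEquiv_map e i).symm

theorem rz_perm_map {α : Type} {ι : Type} [Fintype ι] (g : ι → α) (σ : Equiv.Perm ι) :
    Finset.univ.val.map (fun i => g (σ i)) = Finset.univ.val.map g := by
  have := Multiset.map_univ_val_equiv σ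
  calc Finset.univ.val.map (fun i => g (σ i)) = (Finset.univ.val.map σ).map g := by
        rw [Multiset.map_map]
        rfl
    _ = Finset.univ.val.map g := by rw [this]

/-- a sequence in a finite type is constant along an ultrafilter -/
theorem rz_const {α : Type} [Finite α] (u : ℕ → α) :
    ∃ a, ∀ᶠ j in (Filter.hyperfilter ℕ : Filter ℕ), u j = a := by
  obtain ⟨a, ha⟩ := Ultrafilter.eq_pure_of_finite ((Filter.hyperfilter ℕ).map u)
  refine ⟨a, ?_⟩
  have h1 : {a} ∈ (Filter.hyperfilter ℕ).map u := by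
    rw [ha]
    exact Ultrafilter.mem_pure.2 rfl
  exact h1

theorem rz_germ_eq {x y : ℕ → ℂ} :
    (x : HC) = (y : HC) ↔ ∀ᶠ j in (Filter.hyperfilter ℕ : Filter ℕ), x j = y j :=
  Filter.Germ.coe_eq

theorem rz_aeval [CharZero HC] {ι : Type} (x : ℕ → ι → ℂ) (p : MvPolynomial ι ℚ) (X : ι → HC)
    (hX : ∀ i, X i = ((fun j => x j i : ℕ → ℂ) : HC)) :
    MvPolynomial.aeval X p = ((fun j => MvPolynomial.aeval (x j) p : ℕ → ℂ) : HC) := by
  have h0 : X = fun i => ((fun j => x j i : ℕ → ℂ) : HC) := funext hX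
  subst h0
  induction p using MvPolynomial.induction_on with
  | C a =>
    rw [MvPolynomial.aeval_C]
    simp only [MvPolynomial.aeval_C]
    rw [eq_ratCast]
    simp only [eq_ratCast]
    have h := map_ratCast ((Filter.Germ.coeRingHom (Filter.hyperfilter ℕ : Filter ℕ)).comp
      (Pi.constRingHom ℕ ℂ) : ℂ →+* HC) a
    rw [← h]
    rfl
  | add p q hp hq =>
    rw [map_add, hp, hq]
    simp only [map_add]
    rfl
  | mul_X p i hp =>
    rw [map_mul, hp]
    simp only [map_mul, MvPolynomial.aeval_X]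
    rfl

/-- the germ family enumerates the same multiset as another germ family if and only if this is
so for almost all indices -/
theorem rz_back {ι : Type} [Fintype ι] (m m' : ℕ → ι → ℂ)
    (h : Finset.univ.val.map (fun i => ((fun j => m j i : ℕ → ℂ) : HC)) =
      Finset.univ.val.map (fun i => ((fun j => m' j i : ℕ → ℂ) : HC))) :
    ∀ᶠ j in (Filter.hyperfilter ℕ : Filter ℕ),
      Finset.univ.val.map (m j) = Finset.univ.val.map (m' j) := by
  obtain ⟨σ, hσ⟩ := rz_perm _ _ h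
  have h1 : ∀ i, ∀ᶠ j in (Filter.hyperfilter ℕ : Filter ℕ), m j i = m' j (σ i) := by
    intro i
    exact rz_germ_eq.1 (hσ i)
  have h2 := Filter.eventually_all.2 h1
  filter_upwards [h2] with j hj
  rw [← rz_perm_map (m' j) σ]
  exact congrArg (fun φ => Finset.univ.val.map φ) (funext hj)

theorem rz_norm {x y : ℂ} (h : ‖x‖ = ‖y‖) : x * starRingEnd ℂ x = y * starRingEnd ℂ y := by
  rw [Complex.mul_conj, Complex.mul_conj, Complex.normSq_eq_norm_sq, Complex.normSq_eq_norm_sq, h]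

theorem rz_spec (c : Cj HC)
    (hc : ∀ z : ℕ → ℂ, c.σ (z : HC) = ((fun j => starRingEnd ℂ (z j) : ℕ → ℂ) : HC))
    (hU3 : U3S) {d n : ℕ} (hd : 2 ≤ d) (hn : 1 ≤ n) (f g : ℕ → RatMap ℂ d) (F G : RatMap HC d)
    (hF : ∀ i, F.coef i = ((fun j => (f j).coef i : ℕ → ℂ) : HC))
    (hG : ∀ i, G.coef i = ((fun j => (g j).coef i : ℕ → ℂ) : HC))
    (h : ∀ j, (f j).lenSpec n = (g j).lenSpec n) : c.spec F n = c.spec G n := by
  obtain ⟨m, hm, hmF⟩ := hU3 d n f F hd hn hF
  obtain ⟨m', hm', hmG⟩ := hU3 d n g G hd hn hG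
  have h1 : ∀ j, ∃ σ : Equiv.Perm (Fin (d ^ n + 1)), ∀ i, ‖m j i‖ = ‖m' j (σ i)‖ := by
    intro j
    have h2 := h j
    unfold RatMap.lenSpec at h2
    rw [hm j, hm' j, Multiset.map_map, Multiset.map_map] at h2
    exact rz_perm _ _ h2
  choose σ hσ using h1
  obtain ⟨τ, hτ⟩ := rz_const σ
  unfold Cj.spec
  rw [hmF, hmG, Multiset.map_map, Multiset.map_map]
  rw [← rz_perm_map (c.nrm ∘ fun i => ((fun j => m' j i : ℕ → ℂ) : HC)) τ]
  congr 1
  funext i
  simp only [Function.comp_apply, Cj.nrm]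
  rw [hc, hc]
  change (((fun j => m j i * starRingEnd ℂ (m j i)) : ℕ → ℂ) : HC) =
    (((fun j => m' j (τ i) * starRingEnd ℂ (m' j (τ i))) : ℕ → ℂ) : HC)
  rw [rz_germ_eq]
  filter_upwards [hτ] with j hj
  rw [← hj]
  exact rz_norm (hσ j i)

theorem rz_ne (hU3 : U3S) {d : ℕ} (hd : 2 ≤ d) (N : ℕ) (f g : ℕ → RatMap ℂ d)
    (F G : RatMap HC d)
    (hF : ∀ i, F.coef i = ((fun j => (f j).coef i : ℕ → ℂ) : HC))
    (hG : ∀ i, G.coef i = ((fun j => (g j).coef i : ℕ → ℂ) : HC))
    (h : ∀ j, ∃ n, 1 ≤ n ∧ n ≤ N ∧ (g j).multSpec n ≠ (f j).multSpec n) :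
    ¬ ∀ n, 1 ≤ n → G.multSpec n = F.multSpec n := by
  intro hcon
  choose n hn1 hnN hne using h
  obtain ⟨a, ha⟩ := rz_const (fun j => (⟨n j, Nat.lt_succ_of_le (hnN j)⟩ : Fin (N + 1)))
  have ha1 : 1 ≤ (a : ℕ) := by
    obtain ⟨j, hj⟩ := ha.exists
    rw [← hj]
    exact hn1 j
  obtain ⟨m, hm, hmF⟩ := hU3 d a f F hd ha1 hF
  obtain ⟨m', hm', hmG⟩ := hU3 d a g G hd ha1 hG
  have h1 := hcon a ha1
  rw [hmF, hmG] at h1
  have h2 := rz_back m' m h1
  obtain ⟨j, hj1, hj2⟩ := (h2.and ha).exists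
  apply hne j
  have h3 : n j = (a : ℕ) := congrArg Fin.val hj2
  rw [h3, hm' j, hm j, hj1]

theorem rz_holds (hMain : MainS) (hU1 : U1S) (hU2 : U2S) (hU3 : U3S) (hNO : NOS)
    (hE3 : E3S) : RZS := by
  intro d hd
  by_contra hcon
  push Not at hcon
  obtain ⟨hU1a, hU1b, hU1c, ⟨hU1d⟩, c, hc⟩ := hU1
  obtain ⟨N, hN⟩ := hNO d hd
  -- enumerate the nonzero polynomials
  have : Countable (MvPolynomial (CI d ⊕ CI d) ℚ) := by
    rw [← Cardinal.mk_le_aleph0_iff]
    refine le_trans (MvPolynomial.cardinalMk_le_max) ?_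
    simp
  have : Nonempty {W : MvPolynomial (CI d ⊕ CI d) ℚ // W ≠ 0} := ⟨⟨1, one_ne_zero⟩⟩
  obtain ⟨e, he⟩ := exists_surjective_nat {W : MvPolynomial (CI d ⊕ CI d) ℚ // W ≠ 0}
  have hprod : ∀ j : ℕ, ∏ i ∈ Finset.range (j + 1), (e i).1 ≠ 0 := by
    intro j
    rw [Finset.prod_ne_zero_iff]
    intro i _
    exact (e i).2
  choose f hf g hg hbad1 hbad2 using fun j => hcon _ (hprod j)
  have hfi : ∀ i j, i ≤ j → MvPolynomial.aeval (f j).coefs (e i).1 ≠ 0 := by
    intro i j hij h0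
    apply hf j
    rw [map_prod]
    exact Finset.prod_eq_zero (Finset.mem_range.2 (Nat.lt_succ_of_le hij)) h0
  obtain ⟨F, hF⟩ := hU2 d f
  obtain ⟨G, hG⟩ := hU2 d g
  have hcoefs : ∀ i, c.coefs F i = ((fun j => (f j).coefs i : ℕ → ℂ) : HC) := by
    rintro (i | i)
    · exact hF i
    · change c.σ (F.coef i) = _
      rw [hF i, hc]
      rfl
  have hgen : Gen c F := by
    refine ⟨hd, ?_⟩
    rw [algebraicIndependent_iff]
    intro p hp
    by_contra hp0
    obtain ⟨i, hi⟩ := he ⟨p, hp0⟩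
    rw [rz_aeval (fun j => (f j).coefs) p _ hcoefs] at hp
    have h1 : ∀ᶠ j in (Filter.hyperfilter ℕ : Filter ℕ),
        MvPolynomial.aeval (f j).coefs p = 0 := by
      have h2 : ((fun j => MvPolynomial.aeval (f j).coefs p : ℕ → ℂ) : HC) =
          ((fun _ => 0 : ℕ → ℂ) : HC) := hp
      exact rz_germ_eq.1 h2
    have h2 : ∀ᶠ j in (Filter.hyperfilter ℕ : Filter ℕ), i ≤ j := by
      have h3 : ∀ᶠ j in Filter.cofinite, i ≤ j := by
        rw [Nat.cofinite_eq_atTop]
        exact Filter.eventually_ge_atTop i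
      exact Filter.hyperfilter_le_cofinite h3
    obtain ⟨j, hj1, hj2⟩ := (h1.and h2).exists
    apply hfi i j hj2
    rw [hi]
    exact hj1
  have hspec : ∀ n, 1 ≤ n → c.spec F n = c.spec G n := by
    intro n hn
    exact rz_spec c hc hU3 hd hn f g F G hF hG (fun j => hg j n hn)
  have hNbad : ∀ f g : RatMap ℂ d, (∃ n, 1 ≤ n ∧ g.multSpec n ≠ f.multSpec n) →
      ∃ n, 1 ≤ n ∧ n ≤ N ∧ g.multSpec n ≠ f.multSpec n := by
    intro f g ⟨n, hn, hne⟩
    by_contra hall
    push Not at hall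
    exact hne (hN g f hall n hn)
  rcases hMain HC hU1d c d F hgen G hspec with h | h
  · exact rz_ne hU3 hd N f g F G hF hG (fun j => hNbad _ _ (hbad1 j)) h
  · refine rz_ne hU3 hd N (fun j => (f j).conj) g (c.conj F) G ?_ hG
      (fun j => hNbad _ _ (hbad2 j)) h
    intro i
    rw [(hE3 HC c d F).2.2.2.2.1 i, hF i, hc]
    have : ∀ j, (f j).conj.coef i = starRingEnd ℂ ((f j).coef i) := by
      intro j
      rcases i with i | i
      · change ((f j).num.map (starRingEnd ℂ)).coeff i = _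
        rw [coeff_map]
        rfl
      · change ((f j).den.map (starRingEnd ℂ)).coeff i = _
        rw [coeff_map]
        rfl
    simp only [this]

end Pool.Agent.LenSpec
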