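import Pool.Agent.LenSpec.Stmt

/-!
U1: the ultrapower of `ℂ`.
-/

namespace Pool.Agent.LenSpec

open Polynomial Filter

/-- the quotient map -/
noncomputable def qH : (ℕ → ℂ) →+* HC := Filter.Germ.coeRingHom (hyperfilter ℕ : Filter ℕ)

theorem qH_apply (a : ℕ → ℂ) : qH a = (a : HC) := rfl

theorem qH_surj (x : HC) : ∃ a : ℕ → ℂ, qH a = x := by
  refine Filter.Germ.inductionOn x (fun f => ⟨f, rfl⟩)

theorem qH_eq (a b : ℕ → ℂ) : qH a = qH b ↔ ∀ᶠ j in (hyperfilter ℕ : Filter ℕ), a j = b j := by
  rw [qH_apply, qH_apply]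
  exact Filter.Germ.coe_eq

theorem qH_zero_iff (a : ℕ → ℂ) : qH a = 0 ↔ ∀ᶠ j in (hyperfilter ℕ : Filter ℕ), a j = 0 := by
  rw [← map_zero qH, qH_eq]
  simp

theorem qH_div (a b : ℕ → ℂ) : qH (a / b) = qH a / qH b := by
  rw [qH_apply, qH_apply, qH_apply]
  exact Filter.Germ.coe_div a b

theorem qH_ne_iff (a : ℕ → ℂ) : qH a ≠ 0 ↔ ∀ᶠ j in (hyperfilter ℕ : Filter ℕ), a j ≠ 0 := by
  rw [Ne, qH_zero_iff, ← Ultrafilter.eventually_not]

/-- evaluation at `j` -/
noncomputable def eH (j : ℕ) : (ℕ → ℂ) →+* ℂ := Pi.evalRingHom (fun _ => ℂ) j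

theorem eH_apply (j : ℕ) (a : ℕ → ℂ) : eH j a = a j := rfl

/-- polynomials that agree almost everywhere -/
theorem qH_map_congr (p p' : (ℕ → ℂ)[X])
    (h : ∀ᶠ j in (hyperfilter ℕ : Filter ℕ), p.map (eH j) = p'.map (eH j)) :
    p.map qH = p'.map qH := by
  ext i
  rw [coeff_map, coeff_map, qH_eq]
  filter_upwards [h] with j hj
  have := congrArg (fun q => q.coeff i) hj
  simpa [coeff_map, eH_apply] using this

theorem qH_map_natDegree (p : (ℕ → ℂ)[X]) :
    ∀ᶠ j in (hyperfilter ℕ : Filter ℕ), ∀ i, ((p.map (eH j)).coeff i = 0 ↔ (p.map qH).coeff i = 0) := by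
  have h1 : ∀ i ∈ Finset.range (p.natDegree + 1), ∀ᶠ j in (hyperfilter ℕ : Filter ℕ),
      ((p.map (eH j)).coeff i = 0 ↔ (p.map qH).coeff i = 0) := by
    intro i _
    simp only [coeff_map, eH_apply]
    by_cases h : qH (p.coeff i) = 0
    · have h2 := h
      rw [qH_zero_iff] at h2
      filter_upwards [h2] with j hj
      simp [hj, h]
    · have h2 : qH (p.coeff i) ≠ 0 := h
      rw [qH_ne_iff] at h2
      filter_upwards [h2] with j hj
      simp [hj, h]
  have h3 := (Filter.eventually_all_finset (Finset.range (p.natDegree + 1))).2 h1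
  filter_upwards [h3] with j hj i
  by_cases hi : i ∈ Finset.range (p.natDegree + 1)
  · exact hj i hi
  · have : p.coeff i = 0 := by
      apply coeff_eq_zero_of_natDegree_lt
      simp at hi
      omega
    simp [coeff_map, this]

theorem qH_natDegree (p : (ℕ → ℂ)[X]) :
    ∀ᶠ j in (hyperfilter ℕ : Filter ℕ), (p.map (eH j)).natDegree = (p.map qH).natDegree := by
  filter_upwards [qH_map_natDegree p] with j hj
  apply le_antisymm
  · rw [natDegree_le_iff_coeff_eq_zero]
    intro N hN
    rw [hj]
    exact coeff_eq_zero_of_natDegree_lt hN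
  · rw [natDegree_le_iff_coeff_eq_zero]
    intro N hN
    rw [← hj]
    exact coeff_eq_zero_of_natDegree_lt hN

/-- evaluation -/
theorem qH_eval (p : (ℕ → ℂ)[X]) (z : ℕ → ℂ) :
    (p.map qH).eval (qH z) = qH (fun j => (p.map (eH j)).eval (z j)) := by
  rw [eval_map, eval₂_hom]
  congr 1
  funext j
  have : (p.map (eH j)).eval (z j) = eH j (p.eval z) := by
    rw [eval_map, ← eH_apply j z, eval₂_hom]
  rw [this, eH_apply]

/-- lift of a polynomial -/
theorem qH_lift (p : HC[X]) : ∃ P : (ℕ → ℂ)[X], P.map qH = p := by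
  have h : Function.Surjective (Polynomial.map qH) := Polynomial.map_surjective qH qH_surj
  exact h p

theorem U1_alg : IsAlgClosed HC := by
  apply IsAlgClosed.of_exists_root
  intro p hp hirr
  obtain ⟨P, rfl⟩ := qH_lift p
  have hdeg : 0 < (P.map qH).natDegree := hirr.natDegree_pos
  have h1 := qH_natDegree P
  have h2 : ∀ j, ∃ z : ℂ, 0 < (P.map (eH j)).natDegree → (P.map (eH j)).eval z = 0 := by
    intro j
    by_cases h : 0 < (P.map (eH j)).natDegree
    · have h3 : (P.map (eH j)).degree ≠ 0 := by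
        intro h4
        have := natDegree_eq_of_degree_eq_some (n := 0) h4
        omega
      obtain ⟨z, hz⟩ := IsAlgClosed.exists_root (P.map (eH j)) h3
      exact ⟨z, fun _ => hz⟩
    · exact ⟨0, fun h' => absurd h' h⟩
  choose z hz using h2
  refine ⟨qH z, ?_⟩
  rw [qH_eval, qH_zero_iff]
  filter_upwards [h1] with j hj
  apply hz
  rw [hj]
  exact hdeg

theorem U1_const_inj : Function.Injective (fun c : ℂ => (qH (fun _ => c) : HC)) := by
  intro a b h
  have h1 : qH (fun _ => a) = qH (fun _ => b) := h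
  rw [qH_eq] at h1
  obtain ⟨j, hj⟩ := h1.exists
  exact hj

theorem U1_char : CharZero HC := by
  refine ⟨?_⟩
  intro m n h
  have h1 : qH (m : ℕ → ℂ) = qH (n : ℕ → ℂ) := by
    rw [map_natCast, map_natCast]
    exact h
  rw [qH_eq] at h1
  obtain ⟨j, hj⟩ := h1.exists
  simpa using hj

theorem U1_unc : Uncountable HC := by
  have : Uncountable ℂ := by
    rw [← Cardinal.aleph0_lt_mk_iff, Cardinal.mk_complex]
    exact Cardinal.aleph0_lt_continuum
  exact U1_const_inj.uncountable

theorem U1_card : Cardinal.mk HC = Cardinal.mk ℂ := by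
  apply le_antisymm
  · have h1 : Cardinal.mk HC ≤ Cardinal.mk (ℕ → ℂ) := Cardinal.mk_le_of_surjective
      (f := (qH : (ℕ → ℂ) → HC)) qH_surj
    refine h1.trans ?_
    rw [← Cardinal.power_def, Cardinal.mk_complex, Cardinal.mk_nat]
    rw [Cardinal.continuum_power_aleph0]
  · exact Cardinal.mk_le_of_injective U1_const_inj

theorem U1_emb : Nonempty (HC →+* ℂ) := by
  have := U1_alg
  have := U1_char
  have h1 : Nonempty (HC ≃ ℂ) := Cardinal.eq.1 U1_card
  have h2 : Cardinal.aleph0 < Cardinal.mk HC := by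
    rw [U1_card, Cardinal.mk_complex]
    exact Cardinal.aleph0_lt_continuum
  obtain ⟨e⟩ := IsAlgClosed.ringEquiv_of_equiv_of_charZero h2 h1
  exact ⟨e.toRingHom⟩

/-- conjugation -/
noncomputable def sH : HC →+* HC where
  toFun := Filter.Germ.map (starRingEnd ℂ)
  map_one' := by
    have : (1 : HC) = ((1 : ℕ → ℂ) : HC) := rfl
    rw [this, Filter.Germ.map_coe]
    congr 1
    funext j
    simp
  map_zero' := by
    have : (0 : HC) = ((0 : ℕ → ℂ) : HC) := rfl
    rw [this, Filter.Germ.map_coe]
    congr 1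
    funext j
    simp
  map_mul' := by
    intro x y
    refine Filter.Germ.inductionOn₂ x y (fun f g => ?_)
    rw [← Filter.Germ.coe_mul, Filter.Germ.map_coe, Filter.Germ.map_coe, Filter.Germ.map_coe,
      ← Filter.Germ.coe_mul]
    congr 1
    funext j
    simp
  map_add' := by
    intro x y
    refine Filter.Germ.inductionOn₂ x y (fun f g => ?_)
    rw [← Filter.Germ.coe_add, Filter.Germ.map_coe, Filter.Germ.map_coe, Filter.Germ.map_coe,
      ← Filter.Germ.coe_add]
    congr 1
    funext j
    simp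

theorem sH_coe (z : ℕ → ℂ) : sH (z : HC) = ((fun j => starRingEnd ℂ (z j) : ℕ → ℂ) : HC) := rfl

/-- real part -/
noncomputable def reH : (ℕ → ℂ) →+ (ℕ → ℝ) where
  toFun := fun z j => (z j).re
  map_zero' := by funext j; simp
  map_add' := by intro x y; funext j; simp

theorem U1_pos_aux (s : Multiset (ℕ → ℂ))
    (h : qH ((s.map (fun y => (fun j => ((Complex.normSq (y j) : ℝ) : ℂ)))).sum) = 0) :
    ∀ y ∈ s, qH y = 0 := by
  rw [qH_zero_iff] at h
  intro y hy
  rw [qH_zero_iff]
  filter_upwards [h] with j hj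
  have h1 : ((s.map (fun y => (fun j => ((Complex.normSq (y j) : ℝ) : ℂ)))).sum) j =
      (((s.map (fun y => Complex.normSq (y j))).sum : ℝ) : ℂ) := by
    rw [← eH_apply j (Multiset.sum _), map_multiset_sum, ← Complex.ofRealHom_eq_coe,
      map_multiset_sum, Multiset.map_map, Multiset.map_map]
    rfl
  rw [h1] at hj
  have h2 : (s.map (fun y => Complex.normSq (y j))).sum = 0 := by exact_mod_cast hj
  have h3 : ∀ x ∈ s.map (fun y => Complex.normSq (y j)), 0 ≤ x := by
    intro x hx
    rw [Multiset.mem_map] at hx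
    obtain ⟨y, _, rfl⟩ := hx
    exact Complex.normSq_nonneg _
  have h4 : Complex.normSq (y j) = 0 := by
    have h5 := Multiset.single_le_sum h3 (Complex.normSq (y j))
      (Multiset.mem_map_of_mem (fun y : ℕ → ℂ => Complex.normSq (y j)) hy)
    rw [h2] at h5
    exact le_antisymm h5 (Complex.normSq_nonneg _)
  exact Complex.normSq_eq_zero.1 h4

/-- the conjugation on the ultrapower -/
noncomputable def cH : Cj HC where
  σ := sH
  invol := by
    intro x
    refine Filter.Germ.inductionOn x (fun f => ?_)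
    rw [sH_coe, sH_coe]
    congr 1
    funext j
    simp
  pos := by
    intro s hs y hy
    -- choose representatives
    choose r hr using qH_surj
    have h1 : s = (s.map r).map qH := by
      rw [Multiset.map_map]
      conv_lhs => rw [← Multiset.map_id s]
      apply Multiset.map_congr rfl
      intro x _
      simp [hr]
    have h2 : qH (((s.map r).map (fun y => (fun j => ((Complex.normSq (y j) : ℝ) : ℂ)))).sum)
        = 0 := by
      rw [map_multiset_sum, Multiset.map_map, Multiset.map_map, ← hs]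
      congr 1
      apply Multiset.map_congr rfl
      intro x _
      simp only [Function.comp_apply]
      have h5 : qH (r x) * sH (qH (r x)) =
          qH (fun j => r x j * starRingEnd ℂ (r x j)) := rfl
      conv_rhs => rw [← hr x]
      rw [h5]
      congr 1
      funext j
      simp [Complex.mul_conj]
    have h3 := U1_pos_aux (s.map r) h2 (r y) (Multiset.mem_map_of_mem r hy)
    rw [hr] at h3
    exact h3

theorem U1 : U1S :=
  ⟨U1_alg, U1_char, U1_unc, U1_emb, cH, fun z => sH_coe z⟩

end Pool.Agent.LenSpec
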