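import Pool.Agent.LenSpec.Stmt

/-!
E3, E4: the conjugate map.
-/

namespace Pool.Agent.LenSpec

open Polynomial

section map

variable {K L : Type} [Field K] [Field L] (φ : K →+* L)

theorem e3_homComp_map (d : ℕ) (P A B : K[X]) :
    (homComp d P A B).map φ = homComp d (P.map φ) (A.map φ) (B.map φ) := by
  simp [homComp, Polynomial.map_sum]

theorem e3_iter_map (d : ℕ) (P Q : K[X]) (n : ℕ) :
    iter d (P.map φ) (Q.map φ) n = ((iter d P Q n).1.map φ, (iter d P Q n).2.map φ) := by
  induction n with
  | zero => simp [iter]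
  | succ n ih =>
    show (homComp d (P.map φ) (iter d (P.map φ) (Q.map φ) n).1
      (iter d (P.map φ) (Q.map φ) n).2, homComp d (Q.map φ) (iter d (P.map φ) (Q.map φ) n).1
      (iter d (P.map φ) (Q.map φ) n).2) = _
    rw [ih]
    show _ = ((homComp d P (iter d P Q n).1 (iter d P Q n).2).map φ,
      (homComp d Q (iter d P Q n).1 (iter d P Q n).2).map φ)
    rw [e3_homComp_map, e3_homComp_map]

theorem e3_eval (P : K[X]) (z : K) : (P.map φ).eval (φ z) = φ (P.eval z) := by
  rw [eval_map, eval₂_hom]

theorem e3_derivAt_map (A B : K[X]) (z : K) :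
    derivAt (A.map φ) (B.map φ) (φ z) = φ (derivAt A B z) := by
  unfold derivAt
  rw [derivative_map, derivative_map, e3_eval, e3_eval, e3_eval, e3_eval, map_div₀, map_sub,
    map_mul, map_mul, map_pow]

theorem e3_multInf_map (A B : K[X]) : multInf (A.map φ) (B.map φ) = φ (multInf A B) := by
  unfold multInf
  rw [natDegree_map, natDegree_map, leadingCoeff_map, leadingCoeff_map]
  split_ifs
  · rw [map_div₀]
  · rw [map_zero]

theorem e3_ev_map (P Q : K[X]) (z : K) : ev (P.map φ) (Q.map φ) (φ z) = φ (ev P Q z) := by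
  unfold ev
  rw [e3_eval, e3_eval, map_div₀]

theorem e3_ev_iter_map (P Q : K[X]) (z : K) (k : ℕ) :
    (ev (P.map φ) (Q.map φ))^[k] (φ z) = φ ((ev P Q)^[k] z) := by
  induction k with
  | zero => rfl
  | succ k ih => rw [Function.iterate_succ_apply', ih, e3_ev_map, Function.iterate_succ_apply']

theorem e3_per_map (P Q : K[X]) (n : ℕ) (z : K) :
    Per (P.map φ) (Q.map φ) n (φ z) ↔ Per P Q n z := by
  unfold Per
  refine and_congr ⟨fun h k => ?_, fun h k => ?_⟩ ?_
  · have h1 := h k
    rw [e3_ev_iter_map, e3_eval] at h1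
    intro h2
    exact h1 (by rw [h2, map_zero])
  · rw [e3_ev_iter_map, e3_eval]
    exact (map_ne_zero φ).2 (h k)
  · rw [e3_ev_iter_map]
    exact φ.injective.eq_iff

theorem e3_perX_map (P Q : K[X]) (n : ℕ) (z : K) :
    PerX (P.map φ) (Q.map φ) n (φ z) ↔ PerX P Q n z := by
  unfold PerX
  refine and_congr (e3_per_map φ P Q n z) (forall_congr' fun m => ?_)
  rw [e3_ev_iter_map, Ne, φ.injective.eq_iff]

theorem e3_mult_map (P Q : K[X]) (n : ℕ) (z : K) :
    mult (P.map φ) (Q.map φ) n (φ z) = φ (mult P Q n z) := by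
  unfold mult
  rw [map_prod]
  refine Finset.prod_congr rfl fun k _ => ?_
  rw [e3_ev_iter_map, e3_derivAt_map]

end map

section inv

variable {K : Type} [Field K] (c : Cj K)

theorem e3_map_map (P : K[X]) : (P.map c.σ).map c.σ = P := by
  rw [Polynomial.map_map]
  have h : c.σ.comp c.σ = RingHom.id K := RingHom.ext fun x => c.invol x
  rw [h, Polynomial.map_id]

theorem e3_roots_map (P : K[X]) : (P.map c.σ).roots = P.roots.map c.σ := by
  have h1 : ∀ R : K[X], R.roots.map c.σ ≤ (R.map c.σ).roots := fun R =>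
    map_roots_le_of_injective R c.σ.injective
  refine (Multiset.eq_of_le_of_card_le (h1 P) ?_).symm
  have h2 := Multiset.card_le_card (h1 (P.map c.σ))
  rw [Multiset.card_map, e3_map_map] at h2
  rw [Multiset.card_map]
  exact h2

theorem e3_fixMult_map (D : ℕ) (A B : K[X]) :
    fixMult D (A.map c.σ) (B.map c.σ) = (fixMult D A B).map c.σ := by
  unfold fixMult
  have h : A.map c.σ - X * B.map c.σ = (A - X * B).map c.σ := by
    rw [Polynomial.map_sub, Polynomial.map_mul, map_X]
  rw [h, e3_roots_map, natDegree_map, e3_multInf_map, Multiset.map_add, Multiset.map_map,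
    Multiset.map_map, Multiset.map_replicate]
  congr 1
  refine Multiset.map_congr rfl fun z _ => ?_
  exact e3_derivAt_map c.σ A B z

theorem e3_conj_num {d : ℕ} (f : RatMap K d) : (c.conj f).num = f.num.map c.σ := rfl

theorem e3_conj_den {d : ℕ} (f : RatMap K d) : (c.conj f).den = f.den.map c.σ := rfl

theorem e3_nrm (x : K) : c.nrm (c.σ x) = c.nrm x := by
  unfold Cj.nrm
  rw [c.invol, mul_comm]

theorem e3_ext {d : ℕ} {f g : RatMap K d} (h1 : f.num = g.num) (h2 : f.den = g.den) :
    f = g := by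
  cases f
  cases g
  cases h1
  cases h2
  rfl

theorem e3_coef {d : ℕ} (f : RatMap K d) (i : CI d) : (c.conj f).coef i = c.σ (f.coef i) := by
  rcases i with i | i
  · show (f.num.map c.σ).coeff i = c.σ (f.num.coeff i)
    rw [coeff_map]
  · show (f.den.map c.σ).coeff i = c.σ (f.den.coeff i)
    rw [coeff_map]

end inv

theorem E3_holds : E3S := by
  intro K _ c d f
  have hm : ∀ n, (c.conj f).multSpec n = (f.multSpec n).map c.σ := by
    intro n
    unfold RatMap.multSpec
    rw [e3_conj_num, e3_conj_den, e3_iter_map]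
    exact e3_fixMult_map c _ _ _
  refine ⟨hm, ?_, fun n z => e3_perX_map c.σ _ _ n z, fun n z => e3_mult_map c.σ _ _ n z,
    e3_coef c f, ?_⟩
  · intro n
    unfold Cj.spec
    rw [hm, Multiset.map_map]
    refine Multiset.map_congr rfl fun x _ => ?_
    exact e3_nrm c x
  · refine e3_ext ?_ ?_
    · rw [e3_conj_num, e3_conj_num, e3_map_map]
    · rw [e3_conj_den, e3_conj_den, e3_map_map]

theorem E4_holds : E4S := by
  intro K _ _ c d f hf
  refine ⟨hf.two_le, ?_⟩
  have h : c.coefs (c.conj f) = c.coefs f ∘ Sum.swap := by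
    funext i
    rcases i with i | i
    · show (c.conj f).coef i = c.σ (f.coef i)
      exact e3_coef c f i
    · show c.σ ((c.conj f).coef i) = f.coef i
      rw [e3_coef, c.invol]
  rw [h]
  exact hf.indep.comp Sum.swap Sum.swap_leftInverse.injective

end Pool.Agent.LenSpec
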