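import Pool.Agent.LenSpec.Defs

/-!
Calculus of reductions at a place.
-/

namespace Pool.Agent.LenSpec

open Polynomial

namespace Pl

variable {K κ : Type} [Field K] [Field κ] {p : Pl K κ}

theorem Red.mem {x : K} {y : κ} (h : p.Red x y) : x ∈ p.O := h.1

theorem red_rs {x : K} (h : x ∈ p.O) : p.Red x (p.rs x) := by
  refine ⟨h, ?_⟩
  simp only [rs, dif_pos h]

theorem Red.rs_eq {x : K} {y : κ} (h : p.Red x y) : p.rs x = y := by
  obtain ⟨h1, h2⟩ := h
  simp only [rs, dif_pos h1]
  exact h2

theorem Red.unique {x : K} {y y' : κ} (h : p.Red x y) (h' : p.Red x y') : y = y' := by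
  rw [← h.rs_eq, h'.rs_eq]

theorem Red.add {x x' : K} {y y' : κ} (h : p.Red x y) (h' : p.Red x' y') :
    p.Red (x + x') (y + y') := by
  obtain ⟨h1, h2⟩ := h
  obtain ⟨h1', h2'⟩ := h'
  refine ⟨p.O.add_mem h1 h1', ?_⟩
  rw [← h2, ← h2', ← map_add]
  rfl

theorem Red.mul {x x' : K} {y y' : κ} (h : p.Red x y) (h' : p.Red x' y') :
    p.Red (x * x') (y * y') := by
  obtain ⟨h1, h2⟩ := h
  obtain ⟨h1', h2'⟩ := h'
  refine ⟨p.O.mul_mem h1 h1', ?_⟩
  rw [← h2, ← h2', ← map_mul]
  rfl

theorem Red.neg {x : K} {y : κ} (h : p.Red x y) : p.Red (-x) (-y) := by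
  obtain ⟨h1, h2⟩ := h
  refine ⟨p.O.neg_mem h1, ?_⟩
  rw [← h2, ← map_neg]
  rfl

theorem Red.sub {x x' : K} {y y' : κ} (h : p.Red x y) (h' : p.Red x' y') :
    p.Red (x - x') (y - y') := by
  rw [sub_eq_add_neg, sub_eq_add_neg]
  exact h.add h'.neg

theorem red_zero : p.Red 0 0 := ⟨p.O.zero_mem, map_zero p.res⟩

theorem red_one : p.Red 1 1 := ⟨p.O.one_mem, map_one p.res⟩

theorem red_natCast (n : ℕ) : p.Red (n : K) (n : κ) := by
  refine ⟨natCast_mem p.O n, ?_⟩
  have : (⟨(n : K), natCast_mem p.O n⟩ : p.O) = (n : p.O) := by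
    ext
    simp
  rw [this, map_natCast]

theorem Red.pow {x : K} {y : κ} (h : p.Red x y) (n : ℕ) : p.Red (x ^ n) (y ^ n) := by
  induction n with
  | zero =>
    rw [pow_zero, pow_zero]
    exact red_one
  | succ n ih =>
    rw [pow_succ, pow_succ]
    exact ih.mul h

theorem red_sum {ι : Type*} (s : Finset ι) {x : ι → K} {y : ι → κ}
    (h : ∀ i ∈ s, p.Red (x i) (y i)) : p.Red (∑ i ∈ s, x i) (∑ i ∈ s, y i) := by
  classical
  induction s using Finset.induction_on with
  | empty => simpa using red_zero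
  | insert a s ha ih =>
    rw [Finset.sum_insert ha, Finset.sum_insert ha]
    exact (h a (Finset.mem_insert_self a s)).add
      (ih (fun i hi => h i (Finset.mem_insert_of_mem hi)))

theorem red_prod {ι : Type*} (s : Finset ι) {x : ι → K} {y : ι → κ}
    (h : ∀ i ∈ s, p.Red (x i) (y i)) : p.Red (∏ i ∈ s, x i) (∏ i ∈ s, y i) := by
  classical
  induction s using Finset.induction_on with
  | empty => simpa using red_one
  | insert a s ha ih =>
    rw [Finset.prod_insert ha, Finset.prod_insert ha]
    exact (h a (Finset.mem_insert_self a s)).mul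
      (ih (fun i hi => h i (Finset.mem_insert_of_mem hi)))

theorem mem_or_inv (p : Pl K κ) (x : K) : x ∈ p.O ∨ p.Red x⁻¹ 0 := p.dich x

theorem Red.ne_zero {x : K} {y : κ} (h : p.Red x y) (hy : y ≠ 0) : x ≠ 0 := by
  rintro rfl
  exact hy (h.unique red_zero)

theorem Red.inv {x : K} {y : κ} (h : p.Red x y) (hy : y ≠ 0) : p.Red x⁻¹ y⁻¹ := by
  have hx : x ≠ 0 := h.ne_zero hy
  have hmem : x⁻¹ ∈ p.O := by
    rcases p.mem_or_inv x⁻¹ with h1 | h1
    · exact h1
    · rw [inv_inv] at h1
      exact absurd (h.unique h1) hy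
  have h2 : p.Red x⁻¹ (p.rs x⁻¹) := red_rs hmem
  have h3 := h.mul h2
  rw [mul_inv_cancel₀ hx] at h3
  have h4 : y * p.rs x⁻¹ = 1 := h3.unique red_one
  rw [eq_inv_of_mul_eq_one_right h4] at h2
  exact h2

theorem Red.div {x x' : K} {y y' : κ} (h : p.Red x y) (h' : p.Red x' y') (hy' : y' ≠ 0) :
    p.Red (x / x') (y / y') := by
  rw [div_eq_mul_inv, div_eq_mul_inv]
  exact h.mul (h'.inv hy')

theorem not_mem_inv {x : K} (h : x ∉ p.O) : p.Red x⁻¹ 0 := by
  rcases p.mem_or_inv x with h1 | h1
  · exact absurd h1 h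
  · exact h1

theorem Red.eq {x x' : K} {y y' : κ} (h : p.Red x y) (hx : x = x') (hy : y = y') :
    p.Red x' y' := by
  rw [← hx, ← hy]
  exact h

/-- among finitely many elements, not all zero, one divides all the others -/
theorem exists_dvd_all (p : Pl K κ) {ι : Type*} (s : Finset ι) (x : ι → K)
    (h : ∃ i ∈ s, x i ≠ 0) :
    ∃ i ∈ s, x i ≠ 0 ∧ ∀ j ∈ s, x j / x i ∈ p.O := by
  classical
  induction s using Finset.induction_on with
  | empty =>
    obtain ⟨i, hi, -⟩ := h
    simp at hi
  | insert a s ha ih =>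
    by_cases hs : ∃ i ∈ s, x i ≠ 0
    · obtain ⟨i, hi, hi0, hd⟩ := ih hs
      by_cases hai : x a / x i ∈ p.O
      · refine ⟨i, Finset.mem_insert_of_mem hi, hi0, ?_⟩
        intro j hj
        rcases Finset.mem_insert.1 hj with rfl | hj
        · exact hai
        · exact hd j hj
      · have ha0 : x a ≠ 0 := by
          intro h0
          apply hai
          rw [h0, zero_div]
          exact p.O.zero_mem
        have hinv : x i / x a ∈ p.O := by
          have := (not_mem_inv hai).mem
          rwa [inv_div] at this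
        refine ⟨a, Finset.mem_insert_self a s, ha0, ?_⟩
        intro j hj
        rcases Finset.mem_insert.1 hj with rfl | hj
        · rw [div_self ha0]
          exact p.O.one_mem
        · have := p.O.mul_mem (hd j hj) hinv
          rwa [div_mul_div_cancel₀ hi0] at this
    · push Not at hs
      obtain ⟨i, hi, hi0⟩ := h
      rcases Finset.mem_insert.1 hi with rfl | hi'
      · refine ⟨i, hi, hi0, ?_⟩
        intro j hj
        rcases Finset.mem_insert.1 hj with rfl | hj
        · rw [div_self hi0]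
          exact p.O.one_mem
        · rw [hs j hj, zero_div]
          exact p.O.zero_mem
      · exact absurd (hs i hi') hi0

/-! ### Polynomials -/

theorem RedP.eval {P : K[X]} {V : κ[X]} (h : p.RedP P V) {z : K} {y : κ} (hz : p.Red z y) :
    p.Red (P.eval z) (V.eval y) := by
  have hP : P.natDegree < max P.natDegree V.natDegree + 1 := by omega
  have hV : V.natDegree < max P.natDegree V.natDegree + 1 := by omega
  rw [eval_eq_sum_range' hP, eval_eq_sum_range' hV]
  exact red_sum _ (fun i _ => (h i).mul (hz.pow i))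

theorem RedP.derivative {P : K[X]} {V : κ[X]} (h : p.RedP P V) :
    p.RedP (derivative P) (derivative V) := by
  intro i
  rw [coeff_derivative, coeff_derivative]
  have := (h (i + 1)).mul (red_natCast (p := p) (i + 1))
  push_cast at this
  exact this

theorem RedP.add {P P' : K[X]} {V V' : κ[X]} (h : p.RedP P V) (h' : p.RedP P' V') :
    p.RedP (P + P') (V + V') := by
  intro i
  rw [coeff_add, coeff_add]
  exact (h i).add (h' i)

theorem RedP.sub {P P' : K[X]} {V V' : κ[X]} (h : p.RedP P V) (h' : p.RedP P' V') :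
    p.RedP (P - P') (V - V') := by
  intro i
  rw [coeff_sub, coeff_sub]
  exact (h i).sub (h' i)

theorem RedP.mul {P P' : K[X]} {V V' : κ[X]} (h : p.RedP P V) (h' : p.RedP P' V') :
    p.RedP (P * P') (V * V') := by
  intro i
  rw [coeff_mul, coeff_mul]
  exact red_sum _ (fun x _ => (h x.1).mul (h' x.2))

theorem redP_C {x : K} {y : κ} (h : p.Red x y) : p.RedP (C x) (C y) := by
  intro i
  rw [coeff_C, coeff_C]
  split_ifs
  · exact h
  · exact red_zero

theorem redP_X : p.RedP X X := by
  intro i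
  rw [coeff_X, coeff_X]
  split_ifs
  · exact red_one
  · exact red_zero

theorem redP_one : p.RedP 1 1 := by
  have := redP_C (red_one (p := p))
  rwa [map_one, map_one] at this

theorem redP_zero : p.RedP 0 0 := by
  intro i
  rw [coeff_zero, coeff_zero]
  exact red_zero

theorem RedP.pow {P : K[X]} {V : κ[X]} (h : p.RedP P V) (n : ℕ) : p.RedP (P ^ n) (V ^ n) := by
  induction n with
  | zero =>
    rw [pow_zero, pow_zero]
    exact redP_one
  | succ n ih =>
    rw [pow_succ, pow_succ]
    exact ih.mul h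

theorem redP_sum {ι : Type*} (s : Finset ι) {x : ι → K[X]} {y : ι → κ[X]}
    (h : ∀ i ∈ s, p.RedP (x i) (y i)) : p.RedP (∑ i ∈ s, x i) (∑ i ∈ s, y i) := by
  intro j
  rw [finset_sum_coeff, finset_sum_coeff]
  exact red_sum _ (fun i hi => h i hi j)

theorem redP_prod {ι : Type*} (s : Finset ι) {x : ι → K[X]} {y : ι → κ[X]}
    (h : ∀ i ∈ s, p.RedP (x i) (y i)) : p.RedP (∏ i ∈ s, x i) (∏ i ∈ s, y i) := by
  classical
  induction s using Finset.induction_on with
  | empty => simpa using redP_one
  | insert a s ha ih =>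
    rw [Finset.prod_insert ha, Finset.prod_insert ha]
    exact (h a (Finset.mem_insert_self a s)).mul
      (ih (fun i hi => h i (Finset.mem_insert_of_mem hi)))

end Pl

end Pool.Agent.LenSpec
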