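import Pool.Agent.LenSpec.Stmt
import Pool.Agent.LenSpec.PlBasic

/-!
The dichotomy.
-/

namespace Pool.Agent.LenSpec

open Polynomial

namespace W1

variable {K L : Type} [Field K] [Field L]

theorem ev_map (φ : K →+* L) (P Q : K[X]) (z : K) :
    ev (P.map φ) (Q.map φ) (φ z) = φ (ev P Q z) := by
  unfold ev
  rw [eval_map_apply, eval_map_apply, map_div₀]

theorem ev_iter_map (φ : K →+* L) (P Q : K[X]) (z : K) (k : ℕ) :
    (ev (P.map φ) (Q.map φ))^[k] (φ z) = φ ((ev P Q)^[k] z) := by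
  induction k with
  | zero => rfl
  | succ k ih => rw [Function.iterate_succ_apply', Function.iterate_succ_apply', ih, ev_map]

theorem derivAt_map (φ : K →+* L) (P Q : K[X]) (z : K) :
    derivAt (P.map φ) (Q.map φ) (φ z) = φ (derivAt P Q z) := by
  unfold derivAt
  rw [derivative_map, derivative_map, eval_map_apply, eval_map_apply, eval_map_apply,
    eval_map_apply, map_div₀, map_sub, map_mul, map_mul, map_pow]

theorem mult_map (φ : K →+* L) (P Q : K[X]) (n : ℕ) (z : K) :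
    mult (P.map φ) (Q.map φ) n (φ z) = φ (mult P Q n z) := by
  unfold mult
  rw [map_prod]
  apply Finset.prod_congr rfl
  intro k _
  rw [ev_iter_map, derivAt_map]

theorem per_map (φ : K →+* L) (P Q : K[X]) (n : ℕ) (z : K) (h : PerX P Q n z) :
    PerX (P.map φ) (Q.map φ) n (φ z) := by
  obtain ⟨⟨h1, h2⟩, h3⟩ := h
  refine ⟨⟨?_, ?_⟩, ?_⟩
  · intro k
    rw [ev_iter_map, eval_map_apply]
    exact fun h0 => h1 k ((map_eq_zero φ).mp h0)
  · rw [ev_iter_map, h2]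
  · intro m hm hmn
    rw [ev_iter_map]
    exact fun h0 => h3 m hm hmn (φ.injective h0)

theorem map_eq_self {P : K[X]} {d : ℕ} (hP : P.natDegree ≤ d) (φ : K →+* K)
    (h : ∀ i : Fin (d + 1), φ (P.coeff i) = P.coeff i) : P.map φ = P := by
  ext i
  rw [coeff_map]
  rcases Nat.lt_or_ge d i with hi | hi
  · rw [coeff_eq_zero_of_natDegree_lt (by omega), map_zero]
  · exact h ⟨i, by omega⟩

theorem fix_num {d : ℕ} (f : RatMap K d) (φ : K →+* K) (h : ∀ i, φ (f.coef i) = f.coef i) :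
    f.num.map φ = f.num := map_eq_self f.num_le φ (fun i => h (Sum.inl i))

theorem fix_den {d : ℕ} (f : RatMap K d) (φ : K →+* K) (h : ∀ i, φ (f.coef i) = f.coef i) :
    f.den.map φ = f.den := map_eq_self f.den_le φ (fun i => h (Sum.inr i))

theorem fix_per {d : ℕ} (f : RatMap K d) (φ : K →+* K) (h : ∀ i, φ (f.coef i) = f.coef i)
    {n : ℕ} {z : K} (hz : PerX f.num f.den n z) : PerX f.num f.den n (φ z) := by
  have h1 := per_map φ f.num f.den n z hz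
  rwa [fix_num f φ h, fix_den f φ h] at h1

theorem fix_mult {d : ℕ} (f : RatMap K d) (φ : K →+* K) (h : ∀ i, φ (f.coef i) = f.coef i)
    (n : ℕ) (z : K) : mult f.num f.den n (φ z) = φ (mult f.num f.den n z) := by
  have h1 := mult_map φ f.num f.den n z
  rwa [fix_num f φ h, fix_den f φ h] at h1

theorem fix_XS {d : ℕ} (f : RatMap K d) (φ : K →+* K) (h : ∀ i, φ (f.coef i) = f.coef i)
    {n : ℕ} {x : K} (hx : x ∈ XS f.num f.den n) : φ x ∈ XS f.num f.den n := by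
  obtain ⟨z, hz, rfl⟩ := hx
  exact ⟨φ z, fix_per f φ h hz, fix_mult f φ h n z⟩

theorem mem_of_alg [CharZero K] {F : IntermediateField ℚ K} [IsAlgClosed F] {S : Set K}
    (hS : ∀ s ∈ S, s ∈ F) {x : K} (hx : IsAlgebraic (IntermediateField.adjoin ℚ S) x) :
    x ∈ F := by
  have hle : IntermediateField.adjoin ℚ S ≤ F := IntermediateField.adjoin_le_iff.mpr hS
  have hx' : IsAlgebraic F x := by
    obtain ⟨p, hp, hpx⟩ := hx
    refine ⟨p.map (IntermediateField.inclusion hle).toRingHom, ?_, ?_⟩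
    · exact (Polynomial.map_ne_zero_iff (IntermediateField.inclusion hle).toRingHom.injective).mpr hp
    · rw [aeval_def, eval₂_map]
      exact hpx
  have h1 : (minpoly F x).degree = 1 :=
    IsAlgClosed.degree_eq_one_of_irreducible F (minpoly.irreducible hx'.isIntegral)
  obtain ⟨y, hy⟩ := minpoly.mem_range_of_degree_eq_one F x h1
  rw [← hy]
  exact y.2

end W1

open W1 in
theorem W1_holds (hRect : RectS) (hOP : OPS) (hE1 : E1S) (hE3 : E3S) (hG1 : G1S) (hG2 : G2S)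
    (hG3 : G3S) (hFG : FGS) (hB5 : B5S) (hA5 : A5S) : W1S := by
  intro K _ _ _ ψ c d f g hgen hg hspec
  classical
  have hd := hgen.two_le
  obtain ⟨hf, hne⟩ := hFG K c d f hgen
  obtain ⟨F, hFcl, hFσ, hOP1, hOP2, hOP3⟩ := hOP K ψ c d f hgen
  obtain ⟨hE3a, hE3b, hE3c, hE3d, hE3e, hE3f⟩ := hE3 K c d f
  obtain ⟨hE3a', hE3b', hE3c', hE3d', hE3e', hE3f'⟩ := hE3 K c d g
  obtain ⟨n₀, hn₀⟩ := hOP3 (Finset.univ.image (c.coefs g))
  refine ⟨n₀, ?_⟩
  intro n hn hnn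
  have hn1 : 1 ≤ n := hn.one_lt.le
  have hn2 : 2 ≤ n := hn.two_le
  have htau := hn₀ n hn hnn
  -- the sets
  obtain ⟨hfin_card, hXfin, _, hXeq⟩ := hG3 K d n f hf hn1
  obtain ⟨hgin_card, hUfin, hUle, _⟩ := hG3 K d n g hg hn1
  have hXcard := hXeq (hOP2 n hn2)
  have hfc := hfin_card hn
  have hgc := hgin_card hn
  set X := hXfin.toFinset with hX
  set U := hUfin.toFinset with hU
  have hmemX : ∀ x, x ∈ X ↔ x ∈ XS f.num f.den n := fun x => by rw [hX, Set.Finite.mem_toFinset]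
  have hmemU : ∀ x, x ∈ U ↔ x ∈ XS g.num g.den n := fun x => by rw [hU, Set.Finite.mem_toFinset]
  have hXn : X.card = (XS f.num f.den n).ncard := by
    rw [hX, Set.ncard_eq_toFinset_card _ hXfin]
  have hUn : U.card = (XS g.num g.den n).ncard := by
    rw [hU, Set.ncard_eq_toFinset_card _ hUfin]
  have hUX : U.card ≤ X.card := by
    rw [hXn, hUn]
    have h1 : n * (XS g.num g.den n).ncard ≤ n * (XS f.num f.den n).ncard := by
      rw [hXcard]
      refine hUle.trans ?_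
      omega
    exact Nat.le_of_mul_le_mul_left h1 (by omega)
  have hσinj : Function.Injective c.σ := c.σ.injective
  have hcY : (X.image c.σ).card = X.card := Finset.card_image_of_injective _ hσinj
  have hcV : (U.image c.σ).card = U.card := Finset.card_image_of_injective _ hσinj
  -- elements of X are in the multiplier spectrum
  have hmultspec : ∀ x ∈ XS f.num f.den n, x ∈ f.multSpec n := by
    rintro x ⟨z, hz, rfl⟩
    obtain ⟨_, _, _, h1, h2⟩ := hG1 K d n f hf hn1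
    rw [h2]
    exact Multiset.mem_map_of_mem _ ((h1 z).mpr hz.1)
  have hXne : ∀ x ∈ X, x ≠ 0 := by
    intro x hx
    exact (hne n hn1 x (hmultspec x ((hmemX x).mp hx))).2
  have hσF : ∀ x ∈ X, c.σ x ∈ F := by
    intro x hx
    have h1 := hmultspec x ((hmemX x).mp hx)
    have h2 : c.σ x ∈ (c.conj f).multSpec n := by
      rw [hE3a]
      exact Multiset.mem_map_of_mem _ h1
    have h3 := hB5 K d n (c.conj f) _ h2
    apply mem_of_alg _ h3
    rintro s ⟨i, rfl⟩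
    rw [hE3e]
    exact hFσ i
  have hXnonempty : X.Nonempty := by
    have h1 : d < d ^ n := by
      calc d = d ^ 1 := (pow_one d).symm
        _ < d ^ n := Nat.pow_lt_pow_right (by omega) (by omega)
    have h2 : 0 < (perF d f.num f.den n).card := by omega
    obtain ⟨z, hz⟩ := Finset.card_pos.mp h2
    have h3 := ((hG2 K d n f hf hn1).1 z).mp hz
    exact ⟨mult f.num f.den n z, (hmemX _).mpr ⟨z, h3, rfl⟩⟩
  have hσσ := c.invol
  -- products
  have hprod : ∀ x ∈ X, ∀ y ∈ X.image c.σ, ∃ u ∈ U, ∃ v ∈ U.image c.σ, x * y = u * v := by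
    intro x hx y hy
    obtain ⟨x₁, hx₁, rfl⟩ := Finset.mem_image.mp hy
    have hσx₁ := hσF x₁ hx₁
    obtain ⟨z, hz, rfl⟩ := (hmemX x).mp hx
    obtain ⟨z₁, hz₁, hz₁x⟩ := (hmemX x₁).mp hx₁
    have h1 := hE1 K c d f g hf hg hspec n hn1
    have h2 : c.nrm x₁ ∈ (MX d f.num f.den n).map c.nrm := by
      apply Multiset.mem_map_of_mem
      unfold MX
      rw [Multiset.mem_map]
      exact ⟨z₁, ((hG2 K d n f hf hn1).1 z₁).mpr hz₁, hz₁x⟩
    rw [h1, Multiset.mem_map] at h2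
    obtain ⟨u₁, hu₁, hnu⟩ := h2
    unfold MX at hu₁
    rw [Multiset.mem_map] at hu₁
    obtain ⟨w₁, hw₁, hw₁u⟩ := hu₁
    have hw₁p := ((hG2 K d n g hg hn1).1 w₁).mp hw₁
    obtain ⟨τ, k, hτF, hτf, hτG, hτz⟩ := htau z z₁ hz hz₁
    have hτx : τ x₁ = mult f.num f.den n z := by
      rw [← hz₁x]
      have h3 := fix_mult f (τ : K →+* K) (fun i => hτf i) n z₁
      have h4 : (τ : K →+* K) (mult f.num f.den n z₁) = τ (mult f.num f.den n z₁) := rfl
      rw [← h4, ← h3]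
      have h5 : (τ : K →+* K) z₁ = τ z₁ := rfl
      rw [h5, hτz]
      exact (hA5 K f.num f.den n z hn1 hz).2.1 k
    have hτg : ∀ i, (τ : K →+* K) (g.coef i) = g.coef i := by
      intro i
      exact hτG _ (Finset.mem_image.mpr ⟨Sum.inl i, Finset.mem_univ _, rfl⟩)
    have hτg' : ∀ i, (τ : K →+* K) ((c.conj g).coef i) = (c.conj g).coef i := by
      intro i
      rw [hE3e']
      exact hτG _ (Finset.mem_image.mpr ⟨Sum.inr i, Finset.mem_univ _, rfl⟩)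
    have hu₁X : u₁ ∈ XS g.num g.den n := ⟨w₁, hw₁p, hw₁u⟩
    have hσu₁X : c.σ u₁ ∈ XS (c.conj g).num (c.conj g).den n := by
      refine ⟨c.σ w₁, (hE3c' n w₁).mpr hw₁p, ?_⟩
      rw [hE3d', hw₁u]
    have h6 : τ u₁ ∈ XS g.num g.den n := fix_XS g (τ : K →+* K) hτg hu₁X
    have h7 : τ (c.σ u₁) ∈ XS (c.conj g).num (c.conj g).den n :=
      fix_XS (c.conj g) (τ : K →+* K) hτg' hσu₁X
    refine ⟨τ u₁, (hmemU _).mpr h6, τ (c.σ u₁), ?_, ?_⟩
    · obtain ⟨w, hw, hwv⟩ := h7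
      rw [Finset.mem_image]
      refine ⟨c.σ (τ (c.σ u₁)), (hmemU _).mpr ⟨c.σ w, ?_, ?_⟩, hσσ _⟩
      · apply (hE3c' n (c.σ w)).mp
        rwa [hσσ]
      · apply hσinj
        rw [hσσ, ← hE3d', hσσ, hwv]
    · rw [← map_mul]
      have h8 : u₁ * c.σ u₁ = x₁ * c.σ x₁ := hnu
      rw [h8, map_mul, hτx, hτF _ hσx₁]
  have hmult : ∀ x₁ ∈ X, ∀ x₂ ∈ X, ∀ x₃ ∈ X, ∀ x₄ ∈ X, ∀ κ ∈ F, x₁ * x₂ = κ * (x₃ * x₄) →
      (x₁ = x₃ ∧ x₂ = x₄) ∨ (x₁ = x₄ ∧ x₂ = x₃) := by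
    intro x₁ h₁ x₂ h₂ x₃ h₃ x₄ h₄ κ hκ h
    exact hOP1 n hn2 x₁ ((hmemX _).mp h₁) x₂ ((hmemX _).mp h₂) x₃ ((hmemX _).mp h₃) x₄
      ((hmemX _).mp h₄) κ hκ h
  have hYne : ∀ y ∈ X.image c.σ, y ≠ 0 := by
    intro y hy
    obtain ⟨x, hx, rfl⟩ := Finset.mem_image.mp hy
    exact fun h0 => hXne x hx ((map_eq_zero c.σ).mp h0)
  have hYF : ∀ y ∈ X.image c.σ, y ∈ F := by
    intro y hy
    obtain ⟨x, hx, rfl⟩ := Finset.mem_image.mp hy
    exact hσF x hx
  obtain ⟨e, he, hcase⟩ := hRect K X (X.image c.σ) U (U.image c.σ) hcY.symm hUX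
    (by rw [hcY, hcV]; exact hUX) hXne hYne hXnonempty (hXnonempty.image _) hprod
    (by
      intro x₁ h₁ x₂ h₂ x₃ h₃ x₄ h₄ y₁ k₁ y₂ k₂ y₃ k₃ y₄ k₄ h
      have hy₁ := hYne y₁ k₁
      have hy₂ := hYne y₂ k₂
      apply hmult x₁ h₁ x₂ h₂ x₃ h₃ x₄ h₄ ((y₃ * y₄) / (y₁ * y₂))
      · exact F.div_mem (F.mul_mem (hYF _ k₃) (hYF _ k₄)) (F.mul_mem (hYF _ k₁) (hYF _ k₂))
      · field_simp
        linear_combination h)
    (by
      intro y₁ k₁ y₂ k₂ y₃ k₃ y₄ k₄ h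
      obtain ⟨x₁, h₁, rfl⟩ := Finset.mem_image.mp k₁
      obtain ⟨x₂, h₂, rfl⟩ := Finset.mem_image.mp k₂
      obtain ⟨x₃, h₃, rfl⟩ := Finset.mem_image.mp k₃
      obtain ⟨x₄, h₄, rfl⟩ := Finset.mem_image.mp k₄
      rw [← map_mul, ← map_mul] at h
      have h5 := hσinj h
      rcases hmult x₁ h₁ x₂ h₂ x₃ h₃ x₄ h₄ 1 F.one_mem (by rw [h5, one_mul]) with h6 | h6
      · left
        rw [h6.1, h6.2]
        exact ⟨rfl, rfl⟩
      · right
        rw [h6.1, h6.2]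
        exact ⟨rfl, rfl⟩)
  rcases hcase with ⟨h1, _⟩ | ⟨_, h2⟩
  · left
    intro x hx x' hx'
    obtain ⟨u, hu, hxu⟩ := (h1 x).mp ((hmemX x).mpr hx)
    obtain ⟨u', hu', hxu'⟩ := (h1 x').mp ((hmemX x').mpr hx')
    refine ⟨u, (hmemU u).mp hu, u', (hmemU u').mp hu', ?_⟩
    rw [hxu, hxu']
    ring
  · right
    have hYc : ∀ x ∈ XS (c.conj f).num (c.conj f).den n, x ∈ X.image c.σ := by
      rintro x ⟨z, hz, rfl⟩
      rw [Finset.mem_image]
      refine ⟨c.σ (mult (c.conj f).num (c.conj f).den n z), (hmemX _).mpr ⟨c.σ z, ?_, ?_⟩, hσσ _⟩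
      · apply (hE3c n (c.σ z)).mp
        rwa [hσσ]
      · apply hσinj
        rw [hσσ, ← hE3d, hσσ]
    intro x hx x' hx'
    refine ⟨e * x, (hmemU _).mp ((h2 _).mpr ⟨x, hYc x hx, rfl⟩), e * x',
      (hmemU _).mp ((h2 _).mpr ⟨x', hYc x' hx', rfl⟩), ?_⟩
    ring

end Pool.Agent.LenSpec
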