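import Pool.Agent.LenSpec.Stmt

/-!
J1: the coding of the periodic points of `z ^ d + t` near `t = ∞`.
-/

namespace Pool.Agent.LenSpec

open Polynomial

/-! ### the common initial segment -/

theorem J1_lt_pre {n d : ℕ} (a b : Fin n → Fin d) (i : Fin n) :
    (i : ℕ) < pre a b ↔ ∀ j, j ≤ i → a j = b j := by
  constructor
  · intro h
    by_contra hne
    have hsub : (Finset.univ.filter (fun i => ∀ j, j ≤ i → a j = b j)) ⊆ Finset.Iio i := by
      intro k hk
      rw [Finset.mem_filter] at hk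
      rw [Finset.mem_Iio]
      by_contra hki
      exact hne (fun j hj => hk.2 j (hj.trans (not_lt.mp hki)))
    have h1 := Finset.card_le_card hsub
    rw [Fin.card_Iio] at h1
    unfold pre at h
    omega
  · intro h
    have hsub : Finset.Iic i ⊆ (Finset.univ.filter (fun i => ∀ j, j ≤ i → a j = b j)) := by
      intro k hk
      rw [Finset.mem_Iic] at hk
      rw [Finset.mem_filter]
      exact ⟨Finset.mem_univ _, fun j hj => h j (hj.trans hk)⟩
    have h1 := Finset.card_le_card hsub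
    rw [Fin.card_Iic] at h1
    unfold pre
    omega

theorem J1_pre_le {n d : ℕ} (a b : Fin n → Fin d) : pre a b ≤ n := by
  have h := Finset.card_filter_le (Finset.univ : Finset (Fin n)) (fun i => ∀ j, j ≤ i → a j = b j)
  rw [Finset.card_univ, Fintype.card_fin] at h
  exact h

theorem J1_eq_of_lt_pre {n d : ℕ} (a b : Fin n → Fin d) (i : Fin n) (h : (i : ℕ) < pre a b) :
    a i = b i := (J1_lt_pre a b i).mp h i le_rfl

theorem J1_ne_at_pre {n d : ℕ} (a b : Fin n → Fin d) (h : pre a b < n) :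
    a ⟨pre a b, h⟩ ≠ b ⟨pre a b, h⟩ := by
  intro he
  have h1 : ((⟨pre a b, h⟩ : Fin n) : ℕ) < pre a b := by
    rw [J1_lt_pre]
    intro j hj
    rcases lt_or_eq_of_le hj with hj | hj
    · exact J1_eq_of_lt_pre a b j (by simpa [Fin.lt_def] using hj)
    · rw [hj]
      exact he
  simp at h1

/-! ### the polynomial `T ^ n (X) - X` -/

section polyring

variable {R : Type} [CommRing R]

/-- the iterates of `X ^ d + t` -/
noncomputable def J1q (d : ℕ) (t : R) : ℕ → R[X]
  | 0 => X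
  | n + 1 => (J1q d t n) ^ d + C t

theorem J1q_map {R' : Type} [CommRing R'] (f : R →+* R') (d : ℕ) (t : R) (n : ℕ) :
    (J1q d t n).map f = J1q d (f t) n := by
  induction n with
  | zero => simp [J1q]
  | succ n ih => simp [J1q, ih]

theorem J1q_monic [Nontrivial R] (d : ℕ) (hd : 1 ≤ d) (t : R) (n : ℕ) :
    (J1q d t n).Monic ∧ (J1q d t n).natDegree = d ^ n := by
  induction n with
  | zero => simp [J1q]
  | succ n ih =>
    have h1 : (J1q d t n ^ d).Monic := ih.1.pow d
    have h2 : (J1q d t n ^ d).natDegree = d ^ (n + 1) := by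
      rw [ih.1.natDegree_pow, ih.2, pow_succ, mul_comm]
    have h3 : 0 < d ^ (n + 1) := by positivity
    constructor
    · rw [J1q]
      apply h1.add_of_left
      refine lt_of_le_of_lt degree_C_le ?_
      rw [← natDegree_pos_iff_degree_pos, h2]
      exact h3
    · rw [J1q, natDegree_add_C, h2]

theorem J1q_sub_natDegree [Nontrivial R] (d : ℕ) (hd : 2 ≤ d) (t : R) (n : ℕ) (hn : 1 ≤ n) :
    (J1q d t n - X).natDegree = d ^ n := by
  have h := J1q_monic d (by omega) t n
  rw [natDegree_sub_eq_left_of_natDegree_lt, h.2]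
  rw [natDegree_X, h.2]
  exact Nat.one_lt_pow (by omega) (by omega)

theorem J1q_sub_monic [Nontrivial R] (d : ℕ) (hd : 2 ≤ d) (t : R) (n : ℕ) (hn : 1 ≤ n) :
    (J1q d t n - X).Monic := by
  have h := J1q_monic d (by omega) t n
  apply h.1.sub_of_left
  have h1 : (X : R[X]).natDegree < (J1q d t n).natDegree := by
    rw [natDegree_X, h.2]
    exact Nat.one_lt_pow (by omega) (by omega)
  exact degree_lt_degree h1

end polyring

section poly

variable {Ω : Type} [Field Ω]

theorem J1q_eval (d : ℕ) (t : Ω) (n : ℕ) (z : Ω) : (J1q d t n).eval z = (T d t)^[n] z := by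
  induction n with
  | zero => simp [J1q]
  | succ n ih =>
    rw [Function.iterate_succ_apply', J1q, eval_add, eval_pow, eval_C, ih]
    rfl

theorem J1q_deriv (d : ℕ) (t : Ω) (n : ℕ) (z : Ω) :
    (derivative (J1q d t n)).eval z = Tm d t n z := by
  induction n with
  | zero => simp [J1q, Tm]
  | succ n ih =>
    rw [J1q, derivative_add, derivative_C, add_zero, derivative_pow, eval_mul, eval_mul, eval_pow,
      ih, J1q_eval, Tm, Tm, Finset.prod_range_succ]
    simp
    ring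

end poly

/-! ### the valuation of the periodic points -/

section val

variable {Ω Γ : Type} [Field Ω] [LinearOrderedCommGroupWithZero Γ] {v : Valuation Ω Γ} {t : Ω}
  {d n : ℕ}

theorem J1_grow (γ : Γ) (hγ : 1 < γ) (hd : 2 ≤ d) (ht : γ ^ d = v t) (z : Ω) (hz : γ < v z) :
    γ < v (T d t z) ∧ v z < v (T d t z) := by
  have hz1 : 1 < v z := hγ.trans hz
  have h1 : v t < v (z ^ d) := by
    rw [← ht, map_pow]
    exact pow_lt_pow_left₀ hz zero_le (by omega)
  have h2 : v (T d t z) = v z ^ d := by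
    rw [T, Valuation.map_add_eq_of_lt_left v h1, map_pow]
  have h3 : v z < v z ^ d := by
    calc v z = v z ^ 1 := (pow_one _).symm
      _ < v z ^ d := pow_lt_pow_right₀ hz1 (by omega)
  rw [h2]
  exact ⟨hz.trans h3, h3⟩

theorem J1_grow_iter (γ : Γ) (hγ : 1 < γ) (hd : 2 ≤ d) (ht : γ ^ d = v t) (z : Ω) (hz : γ < v z)
    (m : ℕ) : γ < v ((T d t)^[m + 1] z) ∧ v z < v ((T d t)^[m + 1] z) := by
  induction m with
  | zero =>
    simpa using J1_grow γ hγ hd ht z hz
  | succ m ih =>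
    rw [Function.iterate_succ_apply']
    have h := J1_grow γ hγ hd ht _ ih.1
    exact ⟨h.1, ih.2.trans h.2⟩

theorem J1_iter_per {z : Ω} (hz : (T d t)^[n] z = z) (k : ℕ) :
    (T d t)^[n] ((T d t)^[k] z) = (T d t)^[k] z := by
  rw [← Function.iterate_add_apply, add_comm, Function.iterate_add_apply, hz]

theorem J1_not_gt (γ : Γ) (hγ : 1 < γ) (hd : 2 ≤ d) (hn : 1 ≤ n) (ht : γ ^ d = v t) (z : Ω)
    (hz : (T d t)^[n] z = z) : v z ≤ γ := by
  by_contra h
  rw [not_le] at h
  obtain ⟨m, rfl⟩ : ∃ m, n = m + 1 := ⟨n - 1, by omega⟩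
  have h1 := (J1_grow_iter γ hγ hd ht z h m).2
  rw [hz] at h1
  exact lt_irrefl _ h1

theorem J1_val (γ : Γ) (hγ : 1 < γ) (hd : 2 ≤ d) (hn : 1 ≤ n) (ht : γ ^ d = v t) (z : Ω)
    (hz : (T d t)^[n] z = z) : v z = γ := by
  apply le_antisymm (J1_not_gt γ hγ hd hn ht z hz)
  by_contra h
  rw [not_le] at h
  have h1 : v (z ^ d) < v t := by
    rw [← ht, map_pow]
    exact pow_lt_pow_left₀ h zero_le (by omega)
  have h2 : v (T d t z) = γ ^ d := by
    rw [T, Valuation.map_add_eq_of_lt_right v h1, ht]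
  have h3 := J1_not_gt γ hγ hd hn ht (T d t z) (J1_iter_per hz 1)
  rw [h2] at h3
  have h4 : γ < γ ^ d := by
    calc γ = γ ^ 1 := (pow_one _).symm
      _ < γ ^ d := pow_lt_pow_right₀ hγ (by omega)
  exact absurd h3 (not_le.mpr h4)

/-- data of the proof -/
structure J1D (v : Valuation Ω Γ) (t : Ω) (d : ℕ) where
  /-- a root of `- t` -/
  τ : Ω
  /-- a primitive root of unity -/
  ω : Ω
  hd : 2 ≤ d
  τ_pow : τ ^ d = - t
  τ_gt : 1 < v τ
  prim : IsPrimitiveRoot ω d
  ω_val : ∀ i, v (ω ^ i) = 1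
  ω_sub : ∀ i j : Fin d, i ≠ j → v (ω ^ (i : ℕ) - ω ^ (j : ℕ)) = 1
  d_val : v (d : Ω) = 1

theorem J1_data {F : Type} [Field F] [IsAlgClosed F] [CharZero F] [IsAlgClosed Ω] [Algebra F Ω]
    (v : Valuation Ω Γ) (t : Ω) (d : ℕ)
    (hF : ∀ a : F, a ≠ 0 → v (algebraMap F Ω a) = 1) (ht : 1 < v t) (hd : 2 ≤ d) :
    Nonempty (J1D v t d) := by
  obtain ⟨τ, hτ⟩ := IsAlgClosed.exists_pow_nat_eq (-t) (show 0 < d by omega)
  have hd0 : (d : F) ≠ 0 := by
    rw [Nat.cast_ne_zero]
    omega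
  have : NeZero (d : F) := ⟨hd0⟩
  obtain ⟨ζ, hζ⟩ := HasEnoughRootsOfUnity.exists_primitiveRoot F d
  refine ⟨⟨τ, algebraMap F Ω ζ, hd, hτ, ?_, ?_, ?_, ?_, ?_⟩⟩
  · by_contra h
    rw [not_lt] at h
    have h1 : v τ ^ d ≤ 1 := pow_le_one' h d
    rw [← map_pow, hτ, Valuation.map_neg] at h1
    exact absurd ht (not_lt.mpr h1)
  · exact hζ.map_of_injective (algebraMap F Ω).injective
  · intro i
    rw [← map_pow]
    apply hF
    exact pow_ne_zero _ (hζ.ne_zero (by omega))
  · intro i j hij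
    rw [← map_pow, ← map_pow, ← map_sub]
    apply hF
    rw [sub_ne_zero]
    intro he
    exact hij (Fin.ext (hζ.pow_inj i.2 j.2 he))
  · have := hF (d : F) hd0
    rwa [map_natCast] at this

namespace J1D

variable (D : J1D v t d)

include D

theorem gam_pow : v D.τ ^ d = v t := by
  rw [← map_pow, D.τ_pow, Valuation.map_neg]

theorem tau_ne : D.τ ≠ 0 := by
  intro h
  have := D.τ_gt
  rw [h, map_zero] at this
  exact absurd this (not_lt.mpr zero_le)

theorem t_ne : t ≠ 0 := by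
  intro h
  have h1 := D.gam_pow
  have h2 : v t = 0 := by rw [h, map_zero]
  rw [h2] at h1
  have h3 := D.hd
  have h4 : v D.τ = 0 := (pow_eq_zero_iff (by omega)).mp h1
  exact D.tau_ne ((Valuation.zero_iff v).mp h4)

theorem val {z : Ω} (hn : 1 ≤ n) (hz : (T d t)^[n] z = z) : v z = v D.τ :=
  J1_val (v D.τ) D.τ_gt D.hd hn D.gam_pow z hz

/-- `z / τ` is close to a root of unity -/
theorem exists_sym {z : Ω} (hn : 1 ≤ n) (hz : (T d t)^[n] z = z) :
    ∃ i : Fin d, v (z / D.τ - D.ω ^ (i : ℕ)) < 1 := by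
  have hd := D.hd
  have h1 : (z / D.τ) ^ d - 1 = - (T d t z / t) := by
    rw [div_pow, D.τ_pow, T]
    have := D.t_ne
    field_simp
    ring
  have h2 : v (T d t z) = v D.τ := D.val hn (J1_iter_per hz 1)
  have h3 : v ((z / D.τ) ^ d - 1) < 1 := by
    rw [h1, Valuation.map_neg, map_div₀, h2, ← D.gam_pow]
    have h4 : v D.τ < v D.τ ^ d := by
      calc v D.τ = v D.τ ^ 1 := (pow_one _).symm
        _ < v D.τ ^ d := pow_lt_pow_right₀ D.τ_gt (by omega)
    have h5 : (0 : Γ) < v D.τ ^ d := lt_of_le_of_lt zero_le h4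
    rw [div_lt_one₀ h5]
    exact h4
  by_contra hne
  push Not at hne
  have h4 : (z / D.τ) ^ d - 1 = ∏ ζ ∈ nthRootsFinset d (1 : Ω), (z / D.τ - ζ * 1) := by
    rw [← D.prim.pow_sub_pow_eq_prod_sub_mul (z / D.τ) 1 (by omega), one_pow]
  rw [h4, map_prod] at h3
  have h5 : (1 : Γ) ≤ ∏ ζ ∈ nthRootsFinset d (1 : Ω), v (z / D.τ - ζ * 1) := by
    apply Finset.prod_induction _ (fun g : Γ => 1 ≤ g)
    · intro a b ha hb
      exact one_le_mul ha hb
    · exact le_rfl
    · intro ζ hζ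
      rw [mem_nthRootsFinset (by omega)] at hζ
      have : NeZero d := ⟨by omega⟩
      obtain ⟨i, hi, rfl⟩ := D.prim.eq_pow_of_pow_eq_one hζ
      rw [mul_one]
      exact hne ⟨i, hi⟩
  exact absurd h3 (not_lt.mpr h5)

open Classical in
/-- the symbol of a point -/
noncomputable def sym (z : Ω) : Fin d :=
  if h : ∃ i : Fin d, v (z / D.τ - D.ω ^ (i : ℕ)) < 1 then h.choose
  else ⟨0, by have := D.hd; omega⟩

theorem sym_spec {z : Ω} (hn : 1 ≤ n) (hz : (T d t)^[n] z = z) :
    v (z / D.τ - D.ω ^ (D.sym z : ℕ)) < 1 := by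
  have h := D.exists_sym hn hz
  rw [sym, dif_pos h]
  exact h.choose_spec

theorem val_sub_of_ne {x y : Ω} (hn : 1 ≤ n) (hx : (T d t)^[n] x = x) (hy : (T d t)^[n] y = y)
    (h : D.sym x ≠ D.sym y) : v (x - y) = v D.τ := by
  have h1 := D.sym_spec hn hx
  have h2 := D.sym_spec hn hy
  have h3 := D.ω_sub _ _ h
  have h4 : x - y = D.τ * (((x / D.τ - D.ω ^ (D.sym x : ℕ)) - (y / D.τ - D.ω ^ (D.sym y : ℕ))) +
      (D.ω ^ (D.sym x : ℕ) - D.ω ^ (D.sym y : ℕ))) := by
    have := D.tau_ne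
    field_simp
    ring
  have h5 : v ((x / D.τ - D.ω ^ (D.sym x : ℕ)) - (y / D.τ - D.ω ^ (D.sym y : ℕ))) <
      v (D.ω ^ (D.sym x : ℕ) - D.ω ^ (D.sym y : ℕ)) := by
    rw [h3, sub_eq_add_neg]
    apply Valuation.map_add_lt v h1
    rw [Valuation.map_neg]
    exact h2
  rw [h4, map_mul, Valuation.map_add_eq_of_lt_right v h5, h3, mul_one]

/-- a factor of `x ^ d - y ^ d` -/
theorem val_factor {x y : Ω} (hn : 1 ≤ n) (hx : (T d t)^[n] x = x) (hy : (T d t)^[n] y = y)
    (h : D.sym x = D.sym y) (i : ℕ) (hi : i < d) (hi0 : i ≠ 0) :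
    v (x - D.ω ^ i * y) = v D.τ := by
  have hd := D.hd
  have h1 := D.sym_spec hn hx
  have h2 := D.sym_spec hn hy
  rw [← h] at h2
  have h3 := D.ω_sub ⟨0, by omega⟩ ⟨i, hi⟩ (by
    intro he
    rw [Fin.mk.injEq] at he
    exact hi0 he.symm)
  simp only [pow_zero] at h3
  have h4 : x - D.ω ^ i * y = D.τ * (((x / D.τ - D.ω ^ (D.sym x : ℕ)) -
      D.ω ^ i * (y / D.τ - D.ω ^ (D.sym x : ℕ))) + D.ω ^ (D.sym x : ℕ) * (1 - D.ω ^ i)) := by
    have := D.tau_ne
    field_simp
    ring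
  have h6 : v (D.ω ^ (D.sym x : ℕ) * (1 - D.ω ^ i)) = 1 := by
    rw [map_mul, D.ω_val, h3, mul_one]
  have h5 : v ((x / D.τ - D.ω ^ (D.sym x : ℕ)) - D.ω ^ i * (y / D.τ - D.ω ^ (D.sym x : ℕ))) <
      v (D.ω ^ (D.sym x : ℕ) * (1 - D.ω ^ i)) := by
    rw [h6, sub_eq_add_neg]
    apply Valuation.map_add_lt v h1
    rw [Valuation.map_neg, map_mul, D.ω_val, one_mul]
    exact h2
  rw [h4, map_mul, Valuation.map_add_eq_of_lt_right v h5, h6, mul_one]

theorem val_sub_of_eq {x y : Ω} (hn : 1 ≤ n) (hx : (T d t)^[n] x = x) (hy : (T d t)^[n] y = y)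
    (h : D.sym x = D.sym y) : v (T d t x - T d t y) = v (x - y) * v D.τ ^ (d - 1) := by
  classical
  have : NeZero d := ⟨by have := D.hd; omega⟩
  have hd := D.hd
  have h1 : T d t x - T d t y = ∏ ζ ∈ nthRootsFinset d (1 : Ω), (x - ζ * y) := by
    rw [← D.prim.pow_sub_pow_eq_prod_sub_mul x y (by omega), T, T]
    ring
  have h2 : (1 : Ω) ∈ nthRootsFinset d (1 : Ω) := by
    rw [mem_nthRootsFinset (by omega), one_pow]
  rw [h1, ← Finset.mul_prod_erase _ _ h2, one_mul, map_mul, map_prod]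
  congr 1
  rw [Finset.prod_eq_pow_card (b := v D.τ)]
  · rw [Finset.card_erase_of_mem h2, D.prim.card_nthRootsFinset]
  · intro ζ hζ
    rw [Finset.mem_erase, mem_nthRootsFinset (by omega)] at hζ
    obtain ⟨i, hi, rfl⟩ := D.prim.eq_pow_of_pow_eq_one hζ.2
    apply D.val_factor hn hx hy h i hi
    rintro rfl
    exact hζ.1 (pow_zero _)

/-- the code of a point -/
noncomputable def code (n : ℕ) (z : Ω) : Fin n → Fin d := fun i => D.sym ((T d t)^[(i : ℕ)] z)

theorem val_iter {x y : Ω} (hn : 1 ≤ n) (hx : (T d t)^[n] x = x) (hy : (T d t)^[n] y = y)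
    (k : ℕ) (hk : k ≤ pre (D.code n x) (D.code n y)) :
    v ((T d t)^[k] x - (T d t)^[k] y) = v (x - y) * v D.τ ^ ((d - 1) * k) := by
  induction k with
  | zero => simp
  | succ k ih =>
    have h1 := ih (by omega)
    have h2 := J1_pre_le (D.code n x) (D.code n y)
    have h3 : k < n := by omega
    have h4 := J1_eq_of_lt_pre (D.code n x) (D.code n y) ⟨k, h3⟩ (by
      change k < _
      omega)
    have h5 := D.val_sub_of_eq hn (J1_iter_per hx k) (J1_iter_per hy k) h4
    rw [Function.iterate_succ_apply', Function.iterate_succ_apply', h5, h1, mul_assoc, ← pow_add]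
    congr 2

theorem main_dist {x y : Ω} (hn : 1 ≤ n) (hx : (T d t)^[n] x = x) (hy : (T d t)^[n] y = y)
    (hxy : x ≠ y) :
    pre (D.code n x) (D.code n y) < n ∧
    v (x - y) * v D.τ ^ ((d - 1) * pre (D.code n x) (D.code n y)) = v D.τ := by
  have hd := D.hd
  have h1 := D.val_iter hn hx hy _ le_rfl
  have h2 := J1_pre_le (D.code n x) (D.code n y)
  have h0 : v (x - y) ≠ 0 := by
    rw [Valuation.ne_zero_iff, sub_ne_zero]
    exact hxy
  have h3 : pre (D.code n x) (D.code n y) < n := by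
    rcases lt_or_eq_of_le h2 with h | h
    · exact h
    · exfalso
      rw [h, hx, hy] at h1
      have h4 : (1 : Γ) < v D.τ ^ ((d - 1) * n) :=
        one_lt_pow₀ D.τ_gt (by
          have : 0 < (d - 1) * n := by
            apply Nat.mul_pos <;> omega
          omega)
      have h5 : v D.τ ^ ((d - 1) * n) = 1 := by
        have h6 : v (x - y) * v D.τ ^ ((d - 1) * n) = v (x - y) * 1 := by
          rw [mul_one]
          exact h1.symm
        exact mul_left_cancel₀ h0 h6
      rw [h5] at h4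
      exact lt_irrefl _ h4
  refine ⟨h3, ?_⟩
  rw [← h1]
  apply D.val_sub_of_ne hn (J1_iter_per hx _) (J1_iter_per hy _)
  exact J1_ne_at_pre (D.code n x) (D.code n y) h3

theorem code_inj {x y : Ω} (hn : 1 ≤ n) (hx : (T d t)^[n] x = x) (hy : (T d t)^[n] y = y)
    (h : D.code n x = D.code n y) : x = y := by
  by_contra hne
  have h1 := (D.main_dist hn hx hy hne).1
  exact J1_ne_at_pre (D.code n x) (D.code n y) h1 (congrFun h _)

theorem val_Tm {z : Ω} (hn : 1 ≤ n) (hz : (T d t)^[n] z = z) :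
    v (Tm d t n z) = v D.τ ^ ((d - 1) * n) := by
  rw [Tm, map_prod]
  rw [Finset.prod_eq_pow_card (b := v D.τ ^ (d - 1))]
  · rw [Finset.card_range, ← pow_mul]
  · intro k _
    rw [map_mul, D.d_val, one_mul, map_pow, D.val hn (J1_iter_per hz k)]

theorem fixed_iff {z : Ω} (hn : 1 ≤ n) (hz : (T d t)^[n] z = z) :
    T d t z = z ↔ ∀ i j, D.code n z i = D.code n z j := by
  constructor
  · intro h i j
    have h1 : ∀ k, (T d t)^[k] z = z := fun k => Function.iterate_fixed h k
    simp only [code]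
    rw [h1, h1]
  · intro h
    apply D.code_inj hn (J1_iter_per hz 1) hz
    funext i
    have h0 : ∀ k : ℕ, D.sym ((T d t)^[k % n] z) = D.sym z := by
      intro k
      have h1 := h ⟨k % n, Nat.mod_lt _ (by omega)⟩ ⟨0, by omega⟩
      simpa [code] using h1
    have h2 : (T d t)^[(i : ℕ)] (T d t z) = (T d t)^[((i : ℕ) + 1) % n] z := by
      rw [← Function.iterate_succ_apply]
      rcases Nat.lt_or_ge ((i : ℕ) + 1) n with h3 | h3
      · rw [Nat.mod_eq_of_lt h3]
      · have h4 : (i : ℕ) + 1 = n := by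
          have := i.2
          omega
        have h5 : (i : ℕ).succ = n := h4
        rw [h5, h4, Nat.mod_self, hz]
        rfl
    have h3 : D.sym ((T d t)^[(i : ℕ)] z) = D.sym z := by
      have := h0 i
      rwa [Nat.mod_eq_of_lt i.2] at this
    change D.sym ((T d t)^[(i : ℕ)] (T d t z)) = D.sym ((T d t)^[(i : ℕ)] z)
    rw [h2, h0, h3]

theorem roots_nodup (hn : 1 ≤ n) : (J1q d t n - X).roots.Nodup := by
  classical
  have hd := D.hd
  have hne : J1q d t n - X ≠ 0 := (J1q_sub_monic d hd t n hn).ne_zero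
  rw [Multiset.nodup_iff_count_le_one]
  intro z
  rw [count_roots]
  by_contra h
  rw [not_le, one_lt_rootMultiplicity_iff_isRoot hne] at h
  obtain ⟨h1, h2⟩ := h
  rw [IsRoot.def, eval_sub, eval_X, J1q_eval, sub_eq_zero] at h1
  rw [IsRoot.def, derivative_sub, derivative_X, eval_sub, eval_one, J1q_deriv,
    sub_eq_zero] at h2
  have h3 := D.val_Tm hn h1
  rw [h2, map_one] at h3
  have h4 : (1 : Γ) < v D.τ ^ ((d - 1) * n) :=
    one_lt_pow₀ D.τ_gt (by
      have : 0 < (d - 1) * n := by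
        apply Nat.mul_pos <;> omega
      omega)
  rw [← h3] at h4
  exact lt_irrefl _ h4

/-- the number of solutions -/
theorem card_roots [IsAlgClosed Ω] (hn : 1 ≤ n) :
    ∃ S : Finset Ω, S.card = d ^ n ∧ (∀ z, z ∈ S ↔ (T d t)^[n] z = z) ∧
      J1q d t n - X = ∏ z ∈ S, (X - C z) := by
  classical
  have hd := D.hd
  have hdeg := J1q_sub_natDegree d hd t n hn
  have hne : J1q d t n - X ≠ 0 := (J1q_sub_monic d hd t n hn).ne_zero
  have hnd := D.roots_nodup (n := n) hn
  have hcard : Multiset.card (J1q d t n - X).roots = (J1q d t n - X).natDegree :=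
    (IsAlgClosed.splits _).natDegree_eq_card_roots.symm
  refine ⟨(J1q d t n - X).roots.toFinset, ?_, ?_, ?_⟩
  · rw [Multiset.toFinset_card_of_nodup hnd, ← hdeg]
    exact hcard
  · intro z
    rw [Multiset.mem_toFinset, mem_roots hne, IsRoot.def, eval_sub, eval_X, J1q_eval, sub_eq_zero]
  · have h1 := prod_multiset_X_sub_C_of_monic_of_roots_card_eq (J1q_sub_monic d hd t n hn) hcard
    rw [Finset.prod_eq_multiset_prod, Multiset.toFinset_val, hnd.dedup, h1]

theorem bijOn [IsAlgClosed Ω] (hn : 1 ≤ n) :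
    Set.BijOn (D.code n) {z | (T d t)^[n] z = z} Set.univ := by
  refine ⟨fun _ _ => Set.mem_univ _, ?_, ?_⟩
  · intro x hx y hy h
    exact D.code_inj hn hx hy h
  · intro w _
    obtain ⟨S, hS1, hS2, _⟩ := D.card_roots (n := n) hn
    have h1 : Set.InjOn (D.code n) (S : Set Ω) := by
      intro x hx y hy h
      exact D.code_inj hn ((hS2 x).mp hx) ((hS2 y).mp hy) h
    have h2 : (S.image (D.code n)) = Finset.univ := by
      apply Finset.eq_univ_of_card
      rw [Finset.card_image_of_injOn h1, hS1]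
      simp
    have h3 : w ∈ S.image (D.code n) := by
      rw [h2]
      exact Finset.mem_univ _
    rw [Finset.mem_image] at h3
    obtain ⟨z, hz, hzw⟩ := h3
    exact ⟨z, (hS2 z).mp hz, hzw⟩

end J1D

end val

theorem J1_holds : J1S := by
  intro F Ω Γ _ _ _ _ _ _ _ v t d n hF ht hd hn
  obtain ⟨D⟩ := J1_data v t d hF ht hd
  refine ⟨v D.τ, D.code n, D.τ_gt, D.gam_pow, D.bijOn hn, ?_, ?_, ?_⟩
  · intro x y hx hy hxy
    exact (D.main_dist hn hx hy hxy).2
  · intro z hz
    exact D.fixed_iff hn hz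
  · intro z hz
    exact D.val_Tm hn hz

end Pool.Agent.LenSpec
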