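import Pool.Agent.LenSpec.Stmt
import Pool.Agent.LenSpec.PlBasic
import Pool.Agent.LenSpec.J1

/-!
L7: transitivity for `z ^ d + t`.
-/

namespace Pool.Agent.LenSpec

open Polynomial

/-! ### coefficients in a subfield -/

theorem L7_div {F Ω : Type} [Field F] [Field Ω] [Algebra F Ω] (E : IntermediateField F Ω)
    (p q r : Polynomial Ω) (hp : ∀ i, p.coeff i ∈ E) (hq : ∀ i, q.coeff i ∈ E) (hqm : q.Monic)
    (h : p = q * r) : ∀ i, r.coeff i ∈ E := by
  have h1 : ∀ u : Polynomial Ω, (∀ i, u.coeff i ∈ E) →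
      ∃ u' : Polynomial E, u'.map (algebraMap E Ω) = u := by
    intro u hu
    have : u ∈ lifts (algebraMap E Ω) := by
      rw [lifts_iff_coeff_lifts]
      intro n
      exact ⟨⟨u.coeff n, hu n⟩, rfl⟩
    rwa [mem_lifts] at this
  obtain ⟨p', hp'⟩ := h1 p hp
  obtain ⟨q', hq'⟩ := h1 q hq
  have hqm' : q'.Monic := by
    rw [← hq'] at hqm
    exact (Polynomial.monic_map_iff).mp hqm
  have h2 : r = (p' /ₘ q').map (algebraMap E Ω) := by
    rw [map_divByMonic _ hqm', hp', hq', h, mul_divByMonic_cancel_left r hqm]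
  intro i
  rw [h2, coeff_map]
  exact ((p' /ₘ q').coeff i).2

theorem L7_mul {F Ω : Type} [Field F] [Field Ω] [Algebra F Ω] (E : IntermediateField F Ω)
    (p q : Polynomial Ω) (hp : ∀ i, p.coeff i ∈ E) (hq : ∀ i, q.coeff i ∈ E) :
    ∀ i, (p * q).coeff i ∈ E := by
  intro i
  rw [coeff_mul]
  exact sum_mem (fun x _ => mul_mem (hp _) (hq _))

theorem L7_prod {F Ω : Type} [Field F] [Field Ω] [Algebra F Ω] (E : IntermediateField F Ω)
    (S : Finset Ω) (hS : ∀ z ∈ S, z ∈ E) : ∀ i, (∏ z ∈ S, (X - C z)).coeff i ∈ E := by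
  classical
  induction S using Finset.induction_on with
  | empty =>
    intro i
    rw [Finset.prod_empty, coeff_one]
    split_ifs
    · exact one_mem _
    · exact zero_mem _
  | insert a s ha ih =>
    rw [Finset.prod_insert ha]
    apply L7_mul
    · intro i
      rw [coeff_sub, coeff_X, coeff_C]
      apply sub_mem
      · split_ifs
        · exact one_mem _
        · exact zero_mem _
      · split_ifs
        · exact hS a (Finset.mem_insert_self _ _)
        · exact zero_mem _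
    · exact ih (fun z hz => hS z (Finset.mem_insert_of_mem hz))

theorem L7_perPoly {F Ω : Type} [Field F] [Field Ω] [Algebra F Ω] (E : IntermediateField F Ω)
    (t : Ω) (ht : t ∈ E) (d n : ℕ) : ∀ i, (J1q d t n - X).coeff i ∈ E := by
  intro i
  have h1 : J1q d t n = (J1q d (⟨t, ht⟩ : E) n).map (algebraMap E Ω) := by
    rw [J1q_map]
    rfl
  rw [coeff_sub, h1, coeff_map, coeff_X]
  apply sub_mem
  · exact ((J1q d (⟨t, ht⟩ : E) n).coeff i).2
  · split_ifs
    · exact one_mem _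
    · exact zero_mem _

/-! ### integrality -/

theorem L7_int {F Ω : Type} [Field F] [Field Ω] [Algebra F Ω] (t z : Ω) (d n : ℕ) (hd : 2 ≤ d)
    (hn : 1 ≤ n) (hz : (T d t)^[n] z = z) : IntT F t z := by
  have ht : t ∈ Algebra.adjoin F ({t} : Set Ω) := Algebra.subset_adjoin (Set.mem_singleton _)
  refine ⟨J1q d (⟨t, ht⟩ : Algebra.adjoin F ({t} : Set Ω)) n - X, J1q_sub_monic d hd _ n hn, ?_⟩
  rw [← eval_map, Polynomial.map_sub, J1q_map, map_X, eval_sub, eval_X]
  have h1 : algebraMap (Algebra.adjoin F ({t} : Set Ω)) Ω ⟨t, ht⟩ = t := rfl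
  rw [h1, J1q_eval, hz, sub_self]

/-! ### exact period -/

theorem L7_exact {F : Type} [Field F] {d n : ℕ} {t z : F} (hn : n.Prime)
    (hz : (T d t)^[n] z = z) (hz1 : T d t z ≠ z) : ∀ m, 0 < m → m < n → (T d t)^[m] z ≠ z := by
  have h1 : Function.IsPeriodicPt (T d t) n z := hz
  have h2 := h1.minimalPeriod_dvd
  rcases (Nat.dvd_prime hn).mp h2 with h3 | h3
  · rw [Function.minimalPeriod_eq_one_iff_isFixedPt] at h3
    exact absurd h3 hz1
  · intro m hm hmn h4
    have h5 : Function.IsPeriodicPt (T d t) m z := h4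
    have h6 := h5.minimalPeriod_le hm
    omega

theorem L7_bound1 (hQ : QD2S) {F : Type} [Field F] (φ : F →+* ℂ) (d : ℕ) (hd : 2 ≤ d) (t₀ : F) :
    ∃ N, ∀ n, n.Prime →
      (∃ z, (T d t₀)^[n] z = z ∧ T d t₀ z ≠ z ∧ Tm d t₀ n z = 1) → n ≤ N := by
  by_cases h : ∃ n, n.Prime ∧ ∃ z, (T d t₀)^[n] z = z ∧ T d t₀ z ≠ z ∧ Tm d t₀ n z = 1
  · obtain ⟨n, hn, z, hz1, hz2, hz3⟩ := h
    refine ⟨n, fun m hm ⟨w, hw1, hw2, hw3⟩ => ?_⟩
    have h1 := (hQ F φ d n m t₀ z w hd hn.one_lt.le hm.one_lt.le hz1 (L7_exact hn hz1 hz2) hz3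
      hw1 (L7_exact hm hw1 hw2) hw3).1
    omega
  · refine ⟨0, fun m hm hw => ?_⟩
    exact absurd ⟨m, hm, hw⟩ h

theorem L7_bound2 {F : Type} [Field F] (d : ℕ) (hd : 2 ≤ d) (t₀ : F) :
    ∃ N, ∀ n, n.Prime →
      (∃ z, T d t₀ z = z ∧ ((d : F) * z ^ (d - 1)) ^ n = 1 ∧ (d : F) * z ^ (d - 1) ≠ 1) →
      n ≤ N := by
  classical
  have hne : J1q d t₀ 1 - X ≠ 0 := (J1q_sub_monic d hd t₀ 1 le_rfl).ne_zero
  refine ⟨(J1q d t₀ 1 - X).roots.toFinset.sup (fun z => orderOf ((d : F) * z ^ (d - 1))), ?_⟩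
  rintro n hn ⟨z, hz1, hz2, hz3⟩
  have h1 : z ∈ (J1q d t₀ 1 - X).roots.toFinset := by
    rw [Multiset.mem_toFinset, mem_roots hne, IsRoot.def, eval_sub, eval_X, J1q_eval, sub_eq_zero]
    exact hz1
  have h2 : orderOf ((d : F) * z ^ (d - 1)) = n := by
    rcases (Nat.dvd_prime hn).mp (orderOf_dvd_of_pow_eq_one hz2) with h3 | h3
    · rw [orderOf_eq_one_iff] at h3
      exact absurd h3 hz3
    · exact h3
  calc n = orderOf ((d : F) * z ^ (d - 1)) := h2.symm
    _ ≤ _ := Finset.le_sup (f := fun z => orderOf ((d : F) * z ^ (d - 1))) h1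

/-! ### automorphisms -/

theorem L7_tau {F Ω : Type} [Field F] [Field Ω] [Algebra F Ω] (t : Ω) (d : ℕ) (τ : Ω ≃ₐ[F] Ω)
    (hτ : τ t = t) (n : ℕ) (z : Ω) : τ ((T d t)^[n] z) = (T d t)^[n] (τ z) := by
  induction n generalizing z with
  | zero => rfl
  | succ n ih =>
    rw [Function.iterate_succ_apply, Function.iterate_succ_apply, ih]
    congr 1
    rw [T, T, map_add, map_pow, hτ]

theorem L7_holds (hJ0 : J0S) (hJ2 : J2S) (hL1 : L1S) (hL3 : L3S) (hL4 : L4S) (hL5 : L5S)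
    (hL6 : L6S) (hQ : QD2S) : L7S := by
  classical
  intro F Ω _ _ _ φ _ _ _ t d ht halg hd S
  obtain ⟨Γ, _, v, hv1, hvt⟩ := hJ0 F Ω t ht
  obtain ⟨D⟩ := J1_data (F := F) v t d hv1 hvt hd
  obtain ⟨Sf, _, hSf, hSfp⟩ := D.card_roots (n := 1) le_rfl
  obtain ⟨Bad, hBad⟩ := hL3 F Ω t ht halg (S ∪ Sf)
  choose N1 hN1 using fun t₀ : F => L7_bound1 hQ φ d hd t₀
  choose N2 hN2 using fun t₀ : F => L7_bound2 d hd t₀
  refine ⟨Bad.sup (fun t₀ => max (N1 t₀) (N2 t₀)) + 1, ?_⟩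
  intro n hn hn₀ A hA hAE hAne z hz1 hz2
  have hn1 : 1 ≤ n := hn.one_lt.le
  by_contra hzA
  obtain ⟨P, _, hP, hPp⟩ := D.card_roots (n := n) hn1
  have hSf' : ∀ z, z ∈ Sf ↔ T d t z = z := fun z => hSf z
  have hSfP : Sf ⊆ P := by
    intro w hw
    rw [hP]
    exact Function.iterate_fixed ((hSf' w).mp hw) n
  set B : Finset Ω := (P \ Sf) \ A with hB
  have hAB : Disjoint A B := Finset.disjoint_sdiff
  have hmem : ∀ z, (z ∈ A ∨ z ∈ B) ↔ ((T d t)^[n] z = z ∧ T d t z ≠ z) := by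
    intro w
    constructor
    · rintro (h | h)
      · exact ⟨(hA w h).1, (hA w h).2.1⟩
      · rw [hB, Finset.mem_sdiff, Finset.mem_sdiff, hP, hSf'] at h
        exact h.1
    · intro h
      by_cases hwA : w ∈ A
      · exact Or.inl hwA
      · right
        rw [hB, Finset.mem_sdiff, Finset.mem_sdiff, hP, hSf']
        exact ⟨h, hwA⟩
  have hzB : z ∈ B := by
    rcases (hmem z).mpr ⟨hz1, hz2⟩ with h | h
    · exact absurd h hzA
    · exact h
  have hAint : ∀ x ∈ A, IntT F t x := fun x hx =>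
    L7_int t x d n hd hn1 ((hmem x).mp (Or.inl hx)).1
  have hBint : ∀ x ∈ B, IntT F t x := fun x hx =>
    L7_int t x d n hd hn1 ((hmem x).mp (Or.inr hx)).1
  -- the coefficients
  set E := IntermediateField.adjoin F (insert t ((S ∪ Sf : Finset Ω) : Set Ω)) with hE
  have htE : t ∈ E := IntermediateField.subset_adjoin _ _ (Set.mem_insert _ _)
  have hAE' : ∀ i, (∏ z ∈ A, (X - C z)).coeff i ∈ E := by
    intro i
    have h1 : IntermediateField.adjoin F (insert t (S : Set Ω)) ≤ E := by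
      apply IntermediateField.adjoin.mono
      apply Set.insert_subset_insert
      intro w hw
      simp only [Finset.coe_union, Set.mem_union]
      exact Or.inl hw
    exact h1 (hAE i)
  have hSfE : ∀ i, (∏ z ∈ Sf, (X - C z)).coeff i ∈ E := by
    apply L7_prod
    intro w hw
    apply IntermediateField.subset_adjoin
    right
    simp only [Finset.coe_union, Set.mem_union]
    exact Or.inr hw
  have hBE : ∀ i, (∏ z ∈ B, (X - C z)).coeff i ∈ E := by
    apply L7_div E (J1q d t n - X) ((∏ z ∈ Sf, (X - C z)) * (∏ z ∈ A, (X - C z)))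
      (∏ z ∈ B, (X - C z)) (L7_perPoly E t htE d n) (L7_mul E _ _ hSfE hAE')
    · exact (monic_prod_of_monic _ _ (fun z _ => monic_X_sub_C z)).mul
        (monic_prod_of_monic _ _ (fun z _ => monic_X_sub_C z))
    · rw [hPp]
      have hAP : A ⊆ P \ Sf := by
        intro w hw
        rw [Finset.mem_sdiff, hP, hSf']
        exact (hmem w).mp (Or.inl hw)
      rw [← Finset.prod_sdiff hSfP, ← Finset.prod_sdiff hAP]
      ring
  -- the resultant
  set ρ : Ω := ∏ x ∈ A, ∏ y ∈ B, (x - y) with hρ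
  have hρint : IntT F t ρ := by
    apply IsIntegral.prod
    intro x hx
    apply IsIntegral.prod
    intro y hy
    exact (hAint x hx).sub (hBint y hy)
  have hconj : ∀ τ : Ω ≃ₐ[F] Ω, τ t = t → 1 < v (τ ρ) := by
    intro τ hτ
    have h1 : τ ρ = ∏ x ∈ A.image τ, ∏ y ∈ B.image τ, (x - y) := by
      rw [hρ, map_prod, Finset.prod_image (fun x _ y _ h => τ.injective h)]
      apply Finset.prod_congr rfl
      intro x _
      rw [map_prod, Finset.prod_image (fun x _ y _ h => τ.injective h)]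
      apply Finset.prod_congr rfl
      intro y _
      rw [map_sub]
    have hper : ∀ w, ((T d t)^[n] (τ w) = τ w ∧ T d t (τ w) ≠ τ w) ↔
        ((T d t)^[n] w = w ∧ T d t w ≠ w) := by
      intro w
      have h2 : (T d t)^[n] (τ w) = τ ((T d t)^[n] w) := (L7_tau t d τ hτ n w).symm
      have h3 : T d t (τ w) = τ (T d t w) := (L7_tau t d τ hτ 1 w).symm
      rw [h2, h3, ne_eq, ne_eq, τ.injective.eq_iff, τ.injective.eq_iff]
    rw [h1]
    apply hJ2 F Ω Γ v t d n hv1 hvt hd hn1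
    · rw [Finset.disjoint_left]
      intro w hw1 hw2
      rw [Finset.mem_image] at hw1 hw2
      obtain ⟨x, hx, hxw⟩ := hw1
      obtain ⟨y, hy, hyw⟩ := hw2
      have h4 : x = y := τ.injective (hxw.trans hyw.symm)
      rw [← h4] at hy
      exact (Finset.disjoint_left.mp hAB) hx hy
    · intro w
      rw [Finset.mem_image, Finset.mem_image]
      constructor
      · rintro (⟨x, hx, rfl⟩ | ⟨x, hx, rfl⟩)
        · exact (hper x).mpr ((hmem x).mp (Or.inl hx))
        · exact (hper x).mpr ((hmem x).mp (Or.inr hx))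
      · intro h
        obtain ⟨x, rfl⟩ := τ.surjective w
        rcases (hmem x).mpr ((hper x).mp h) with h4 | h4
        · exact Or.inl ⟨x, h4, rfl⟩
        · exact Or.inr ⟨x, h4, rfl⟩
    · exact hAne.image _
    · exact ⟨τ z, Finset.mem_image_of_mem _ hzB⟩
  obtain ⟨p, hp, hpρ⟩ := hL1 F Ω Γ v t ρ ht halg hv1 hvt hρint hconj
  -- two points that collide
  obtain ⟨x, hx, y, hy, hxy⟩ : ∃ x ∈ A, ∃ y ∈ B, p.rs x = p.rs y := by
    have h1 : p.Red ρ (∏ x ∈ A, ∏ y ∈ B, (p.rs x - p.rs y)) := by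
      apply Pl.red_prod
      intro x hx
      apply Pl.red_prod
      intro y hy
      exact (Pl.red_rs (hp.int x (hAint x hx))).sub (Pl.red_rs (hp.int y (hBint y hy)))
    have h2 := h1.unique hpρ
    rw [Finset.prod_eq_zero_iff] at h2
    obtain ⟨x, hx, h3⟩ := h2
    rw [Finset.prod_eq_zero_iff] at h3
    obtain ⟨y, hy, h4⟩ := h3
    exact ⟨x, hx, y, hy, sub_eq_zero.mp h4⟩
  have htint : IntT F t t := by
    have ht' : t ∈ Algebra.adjoin F ({t} : Set Ω) := Algebra.subset_adjoin (Set.mem_singleton _)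
    exact (isIntegral_algebraMap (R := Algebra.adjoin F ({t} : Set Ω)) (A := Ω) (x := ⟨t, ht'⟩))
  have ht₀ : p.Red t (p.rs t) := Pl.red_rs (hp.int t htint)
  have hxne : x ≠ y := by
    rintro rfl
    exact (Finset.disjoint_left.mp hAB) hx hy
  have hxper := (hmem x).mp (Or.inl hx)
  have hyper := (hmem y).mp (Or.inr hy)
  have hL4' := hL4 F Ω t p (p.rs t) d n ht hp ht₀ hd
  have h5 := hL4'.2.1 x y hn1 hxne hxper.1 hyper.1 hxy
  by_cases hbad : p.rs t ∈ Bad
  · have hsup := Finset.le_sup (f := fun t₀ => max (N1 t₀) (N2 t₀)) hbad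
    have hsup' : max (N1 (p.rs t)) (N2 (p.rs t)) ≤ Bad.sup (fun t₀ => max (N1 t₀) (N2 t₀)) := hsup
    by_cases hfix : T d (p.rs t) (p.rs x) = p.rs x
    · have h6 := hL4'.2.2 x hn hxper.1 hxper.2 hfix
      have h7 := hN2 (p.rs t) n hn ⟨p.rs x, hfix, h6⟩
      have h8 := le_max_right (N1 (p.rs t)) (N2 (p.rs t))
      omega
    · have h7 := hN1 (p.rs t) n hn ⟨p.rs x, h5.1, hfix, h5.2⟩
      have h8 := le_max_left (N1 (p.rs t)) (N2 (p.rs t))
      omega
  · obtain ⟨b, hb1, hb2, hb3⟩ := hBad p hp (p.rs t) ht₀ hbad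
    by_cases hfix : T d (p.rs t) (p.rs x) = p.rs x
    · refine hL6 F Ω t p (p.rs t) d n ((S ∪ Sf : Finset Ω) : Set Ω) A B b ht hp ht₀ hd hn hAB hmem
        hAE' hBE ?_ hb1 hb2 hb3 x hx y hy hxy hfix
      intro w hw
      simp only [Finset.coe_union, Set.mem_union]
      exact Or.inr ((hSf' w).mpr hw)
    · exact hL5 F Ω φ t p (p.rs t) d n ((S ∪ Sf : Finset Ω) : Set Ω) A B b ht hp ht₀ hd hn hAB
        hmem hAE' hBE hb1 hb2 hb3 x hx y hy hxy hfix

end Pool.Agent.LenSpec
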