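import Pool.Agent.LenSpec.Stmt
import Pool.Agent.LenSpec.PlBasic

/-!
FG: the generic map is in general position.
-/

namespace Pool.Agent.LenSpec

open Polynomial

theorem fg_pow_ne_one {κ : Type} [Field κ] [CharZero κ] (e : ℤ) (n : ℕ) (he : 2 ≤ e.natAbs)
    (hn : 1 ≤ n) : (e : κ) ^ n ≠ 1 := by
  intro h
  have h1 : e ^ n = 1 := by exact_mod_cast h
  have h2 := congrArg Int.natAbs h1
  rw [Int.natAbs_pow, Int.natAbs_one] at h2
  have h3 : 1 < e.natAbs ^ n := Nat.one_lt_pow (by omega) (by omega)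
  omega

/-- a power of an element that reduces, with its conjugate, to an integer `e`, `|e| ≥ 2` -/
theorem fg_key {K κ : Type} [Field K] [Field κ] [CharZero κ] (c : Cj K) (p : Pl K κ) (x : K)
    (e : ℤ) (he : 2 ≤ e.natAbs) (h1 : p.Red x (e : κ)) (h2 : p.Red (c.σ x) (e : κ)) (n : ℕ)
    (hn : 1 ≤ n) : x ^ n ≠ 1 ∧ c.nrm (x ^ n) ≠ 1 ∧ x ^ n ≠ 0 := by
  have hp := h1.pow n
  refine ⟨?_, ?_, ?_⟩
  · intro h
    rw [h] at hp
    exact fg_pow_ne_one e n he hn (hp.unique Pl.red_one)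
  · intro h
    have h3 : p.Red (x * c.σ x) ((e : κ) * (e : κ)) := h1.mul h2
    have h4 := h3.pow n
    have h5 : (x * c.σ x) ^ n = c.nrm (x ^ n) := by
      unfold Cj.nrm
      rw [map_pow, mul_pow]
    rw [h5, h] at h4
    have h6 : ((e : κ) * (e : κ)) ^ n = 1 := h4.unique Pl.red_one
    have h7 : (((e * e : ℤ)) : κ) ^ n = 1 := by
      push_cast
      exact h6
    refine fg_pow_ne_one (e * e) n ?_ hn h7
    rw [Int.natAbs_mul]
    nlinarith
  · intro h
    rw [h] at hp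
    have h3 : (e : κ) ^ n = 0 := hp.unique Pl.red_zero
    have h4 : (e : κ) ≠ 0 := by
      have : e ≠ 0 := by
        rintro rfl
        simp at he
      exact_mod_cast this
    exact pow_ne_zero n h4 h3

theorem FG_holds (hFN : FNS) (hZ3 : Z3S) (hA6 : A6S) (hG1 : G1S) : FGS := by
  intro K _ _ _ c d f hf
  have hd2 := hf.two_le
  have hind : AlgebraicIndependent ℚ f.coef := hf.indep.comp Sum.inl Sum.inl_injective
  have hno : NoInf d f.num f.den := hFN K d f (by omega) hind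
  obtain ⟨⟨κ, iκ, i0, p, -, hp⟩, ⟨κ', iκ', i0', p', -, hp'⟩⟩ := hZ3 K c d f hf
  have key : ∀ n z, 1 ≤ n → Per f.num f.den n z →
      mult f.num f.den n z ≠ 1 ∧ c.nrm (mult f.num f.den n z) ≠ 1 ∧
      mult f.num f.den n z ≠ 0 := by
    intro n z hn hz
    obtain ⟨m, ⟨q, hq⟩, hm1, hmX, hmult⟩ := hA6 K f.num f.den n z hn hz
    have hm0 : 0 < m := hm1
    have hnm : n / m = q := by
      rw [hq, Nat.mul_div_cancel_left q hm0]
    have hq1 : 1 ≤ q := by
      rcases Nat.eq_zero_or_pos q with h0 | h0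
      · rw [h0, mul_zero] at hq
        omega
      · exact h0
    rw [hmult, hnm]
    rcases hm1.lt_or_eq with hm2 | hm2
    · obtain ⟨h1, h2⟩ := hp m z hm2 hmX
      refine fg_key c p _ ((d : ℤ) ^ m) ?_ ?_ ?_ q hq1
      · rw [Int.natAbs_pow, Int.natAbs_natCast]
        calc 2 ≤ d := hd2
          _ = d ^ 1 := (pow_one d).symm
          _ ≤ d ^ m := Nat.pow_le_pow_right (by omega) hm1
      · exact h1.eq rfl (by push_cast; rfl)
      · exact h2.eq rfl (by push_cast; rfl)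
    · subst hm2
      obtain ⟨h1, h2⟩ := hp' z hmX
      refine fg_key c p' _ (-(d : ℤ)) ?_ ?_ ?_ q hq1
      · rw [Int.natAbs_neg, Int.natAbs_natCast]
        exact hd2
      · exact h1.eq rfl (by push_cast; rfl)
      · exact h2.eq rfl (by push_cast; rfl)
  have hgood : Good f := ⟨hd2, hno, fun n z hn hz => (key n z hn hz).1⟩
  refine ⟨hgood, ?_⟩
  intro n hn x hx
  obtain ⟨-, -, -, hroots, hspec⟩ := hG1 K d n f hgood hn
  rw [hspec, Multiset.mem_map] at hx
  obtain ⟨z, hz, rfl⟩ := hx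
  exact (key n z hn ((hroots z).1 hz)).2

end Pool.Agent.LenSpec
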