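import Pool.Agent.LenSpec.Stmt
import Pool.Agent.LenSpec.PlBasic

/-!
Module Z3: the two special places of the generic map.
-/

namespace Pool.Agent.LenSpec

open Polynomial

namespace Z3

/-- a place at which `f` and its conjugate reduce to `z ^ m / z ^ m'` -/
theorem exists_place {K : Type} [Field K] [IsAlgClosed K] [CharZero K] (hV1 : V1S) (c : Cj K)
    {d : ℕ} (f : RatMap K d) (hf : Gen c f) (m m' : ℕ) :
    ∃ (κ : Type) (_ : Field κ) (_ : CharZero κ) (p : Pl K κ),
      (∀ x, IsAlgebraic ℚ x → x ∈ p.O) ∧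
      (∀ j : Fin (d + 1), p.Red (f.num.coeff j) (if (j : ℕ) = m then 1 else 0)) ∧
      (∀ j : Fin (d + 1), p.Red (f.den.coeff j) (if (j : ℕ) = m' then 1 else 0)) ∧
      (∀ j : Fin (d + 1), p.Red (c.σ (f.num.coeff j)) (if (j : ℕ) = m then 1 else 0)) ∧
      (∀ j : Fin (d + 1), p.Red (c.σ (f.den.coeff j)) (if (j : ℕ) = m' then 1 else 0)) := by
  let e : CI d → K := Sum.elim (fun j => if (j : ℕ) = m then 1 else 0)
    (fun j => if (j : ℕ) = m' then 1 else 0)
  have hite : ∀ (q : Prop) [Decidable q], (if q then (1 : K) else 0) ∈ algebraicClosure ℚ K := by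
    intro q _
    split_ifs
    · exact one_mem _
    · exact zero_mem _
  obtain ⟨κ, _, _, p, -, hk, hx⟩ := hV1 K (algebraicClosure ℚ K) (CI d ⊕ CI d) (c.coefs f)
    (Sum.elim e e) hf.indep.algebraicClosure (by
      rintro ((i | i) | (i | i)) <;> exact hite _)
  have h01 : ∀ (q : Prop) [Decidable q],
      p.Red (if q then (1 : K) else 0) (if q then (1 : κ) else 0) := by
    intro q _
    split_ifs
    · exact Pl.red_one
    · exact Pl.red_zero
  refine ⟨κ, inferInstance, inferInstance, p, ?_, ?_, ?_, ?_, ?_⟩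
  · intro x hx
    exact hk x (mem_algebraicClosure_iff.2 hx)
  · intro j
    exact ((hx (Sum.inl (Sum.inl j))).add (h01 ((j : ℕ) = m))).eq
      (by simp [Cj.coefs, RatMap.coef, e]) (by rw [zero_add])
  · intro j
    exact ((hx (Sum.inl (Sum.inr j))).add (h01 ((j : ℕ) = m'))).eq
      (by simp [Cj.coefs, RatMap.coef, e]) (by rw [zero_add])
  · intro j
    exact ((hx (Sum.inr (Sum.inl j))).add (h01 ((j : ℕ) = m))).eq
      (by simp [Cj.coefs, RatMap.coef, e]) (by rw [zero_add])
  · intro j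
    exact ((hx (Sum.inr (Sum.inr j))).add (h01 ((j : ℕ) = m'))).eq
      (by simp [Cj.coefs, RatMap.coef, e]) (by rw [zero_add])

theorem redP_of {K κ : Type} [Field K] [Field κ] (p : Pl K κ) (d m : ℕ) (hm : m ≤ d)
    (P : K[X]) (hP : P.natDegree ≤ d)
    (h : ∀ j : Fin (d + 1), p.Red (P.coeff j) (if (j : ℕ) = m then 1 else 0)) :
    p.RedP P (X ^ m) := by
  intro j
  rw [coeff_X_pow]
  by_cases hj : j < d + 1
  · exact h ⟨j, hj⟩
  · rw [coeff_eq_zero_of_natDegree_lt (by omega), if_neg (by omega)]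
    exact Pl.red_zero

end Z3

open Z3 in
theorem Z3_holds (hV1 : V1S) (hZ1 : Z1S) (hZ2 : Z2S) (hE3 : E3S) : Z3S := by
  intro K _ _ _ c d f hf
  obtain ⟨-, -, hPer, hMul, hcoef, -⟩ := hE3 K c d f
  have hd := hf.two_le
  have hcn : ∀ j : Fin (d + 1), (c.conj f).num.coeff j = c.σ (f.num.coeff j) :=
    fun j => hcoef (Sum.inl j)
  have hcd : ∀ j : Fin (d + 1), (c.conj f).den.coeff j = c.σ (f.den.coeff j) :=
    fun j => hcoef (Sum.inr j)
  constructor
  · obtain ⟨κ, _, _, p, hp, h1, h2, h3, h4⟩ := exists_place hV1 c f hf d 0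
    refine ⟨κ, inferInstance, inferInstance, p, hp, ?_⟩
    intro n z hn hz
    have a1 : p.RedP f.num (X ^ d) := redP_of p d d le_rfl _ f.num_le h1
    have a2 : p.RedP f.den 1 := by
      rw [← pow_zero X]
      exact redP_of p d 0 (Nat.zero_le d) _ f.den_le h2
    have b1 : p.RedP (c.conj f).num (X ^ d) :=
      redP_of p d d le_rfl _ (c.conj f).num_le fun j => by
        rw [hcn j]
        exact h3 j
    have b2 : p.RedP (c.conj f).den 1 := by
      rw [← pow_zero X]
      exact redP_of p d 0 (Nat.zero_le d) _ (c.conj f).den_le fun j => by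
        rw [hcd j]
        exact h4 j
    refine ⟨(hZ1 K κ p d n f hd hn a1 a2 z hz).2.2.2, ?_⟩
    rw [← hMul n z]
    exact (hZ1 K κ p d n (c.conj f) hd hn b1 b2 (c.σ z) ((hPer n z).2 hz)).2.2.2
  · obtain ⟨κ, _, _, p, hp, h1, h2, h3, h4⟩ := exists_place hV1 c f hf 0 d
    refine ⟨κ, inferInstance, inferInstance, p, hp, ?_⟩
    intro z hz
    have a1 : p.RedP f.num 1 := by
      rw [← pow_zero X]
      exact redP_of p d 0 (Nat.zero_le d) _ f.num_le h1
    have a2 : p.RedP f.den (X ^ d) := redP_of p d d le_rfl _ f.den_le h2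
    have b1 : p.RedP (c.conj f).num 1 := by
      rw [← pow_zero X]
      exact redP_of p d 0 (Nat.zero_le d) _ (c.conj f).num_le fun j => by
        rw [hcn j]
        exact h3 j
    have b2 : p.RedP (c.conj f).den (X ^ d) :=
      redP_of p d d le_rfl _ (c.conj f).den_le fun j => by
        rw [hcd j]
        exact h4 j
    refine ⟨hZ2 K κ p d f hd a1 a2 z hz, ?_⟩
    rw [← hMul 1 z]
    exact hZ2 K κ p d (c.conj f) hd b1 b2 (c.σ z) ((hPer 1 z).2 hz)

end Pool.Agent.LenSpec
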