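import Pool.Agent.LenSpec.Stmt
import Pool.Agent.LenSpec.PlBasic

/-!
Unramified specialisations (discriminant).
-/

namespace Pool.Agent.LenSpec

open Polynomial

namespace L3

variable {F Ω : Type} [Field F] [Field Ω] [Algebra F Ω] {t : Ω}

/-- evaluation of the polynomials in `t` at `t₀` -/
noncomputable def rho (h : Transcendental F t) (t₀ : F) :
    Algebra.adjoin F ({t} : Set Ω) →+* F :=
  (evalRingHom t₀).comp
    ((Polynomial.algEquivOfTranscendental F t h).symm : _ →+* F[X])

theorem coe_equiv (h : Transcendental F t) (q : F[X]) :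
    ((Polynomial.algEquivOfTranscendental F t h q : Algebra.adjoin F ({t} : Set Ω)) : Ω)
      = aeval t q := by
  simp

theorem rho_equiv (h : Transcendental F t) (t₀ : F) (q : F[X]) :
    rho h t₀ (Polynomial.algEquivOfTranscendental F t h q) = q.eval t₀ := by
  simp [rho]

theorem int_coe (a : Algebra.adjoin F ({t} : Set Ω)) : IntT F t (a : Ω) := by
  have := isIntegral_algebraMap (R := Algebra.adjoin F ({t} : Set Ω)) (A := Ω) (x := a)
  exact this

theorem int_const (a : F) : IntT F t (algebraMap F Ω a) := by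
  have := int_coe (t := t) (algebraMap F (Algebra.adjoin F ({t} : Set Ω)) a)
  exact this

theorem int_t : IntT F t t := by
  have := int_coe (F := F) (t := t) ⟨t, Algebra.self_mem_adjoin_singleton F t⟩
  exact this

theorem dev_base (h : Transcendental F t) (t₀ : F) (a : Algebra.adjoin F ({t} : Set Ω)) :
    ∃ r : Algebra.adjoin F ({t} : Set Ω),
      (a : Ω) = algebraMap F Ω (rho h t₀ a) + (t - algebraMap F Ω t₀) * r := by
  obtain ⟨q, rfl⟩ := (Polynomial.algEquivOfTranscendental F t h).surjective a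
  have h1 : (X - C t₀) ∣ q - C (q.eval t₀) := by
    rw [dvd_iff_isRoot]
    simp
  obtain ⟨q₁, h2⟩ := h1
  refine ⟨Polynomial.algEquivOfTranscendental F t h q₁, ?_⟩
  rw [rho_equiv, coe_equiv, coe_equiv]
  have h3 : q = C (q.eval t₀) + (X - C t₀) * q₁ := by rw [← h2]; ring
  have h4 := congrArg (aeval t) h3
  rw [map_add, map_mul, map_sub, aeval_X, aeval_C, aeval_C] at h4
  exact h4

theorem int_aeval {θ : Ω} (hθ : IntT F t θ) (G : (Algebra.adjoin F ({t} : Set Ω))[X]) :
    IntT F t (aeval θ G) := by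
  rw [aeval_eq_sum_range]
  apply IsIntegral.sum
  intro i _
  rw [Algebra.smul_def]
  exact (isIntegral_algebraMap).mul (IsIntegral.pow hθ i)

theorem int_aevalF {θ : Ω} (hθ : IntT F t θ) (G : F[X]) : IntT F t (aeval θ G) := by
  rw [aeval_eq_sum_range]
  apply IsIntegral.sum
  intro i _
  rw [Algebra.smul_def]
  exact (int_const _).mul (IsIntegral.pow hθ i)

theorem dev (h : Transcendental F t) (t₀ : F) {θ : Ω} (hθ : IntT F t θ)
    (G : (Algebra.adjoin F ({t} : Set Ω))[X]) :
    ∃ r : Ω, IntT F t r ∧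
      aeval θ G = aeval θ (G.map (rho h t₀)) + (t - algebraMap F Ω t₀) * r := by
  induction G using Polynomial.induction_on' with
  | add p q hp hq =>
    obtain ⟨r, hr, h1⟩ := hp
    obtain ⟨s, hs, h2⟩ := hq
    refine ⟨r + s, hr.add hs, ?_⟩
    rw [map_add, h1, h2, Polynomial.map_add, map_add]
    ring
  | monomial n a =>
    obtain ⟨r, hr⟩ := dev_base h t₀ a
    refine ⟨r * θ ^ n, (int_coe r).mul (IsIntegral.pow hθ n), ?_⟩
    rw [map_monomial, aeval_monomial, aeval_monomial]
    have h1 : algebraMap (Algebra.adjoin F ({t} : Set Ω)) Ω a = (a : Ω) := rfl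
    rw [h1, hr]
    ring

theorem red_coe (h : Transcendental F t) {p : Pl Ω F} (hp : SpPl t p) {t₀ : F}
    (ht : p.Red t t₀) (a : Algebra.adjoin F ({t} : Set Ω)) : p.Red (a : Ω) (rho h t₀ a) := by
  obtain ⟨r, hr⟩ := dev_base h t₀ a
  have h1 : p.Red (r : Ω) (p.rs r) := Pl.red_rs (hp.int _ (int_coe r))
  have h2 := (hp.const (rho h t₀ a)).add ((ht.sub (hp.const t₀)).mul h1)
  rw [← hr, sub_self, zero_mul, add_zero] at h2
  exact h2

theorem red_aevalF {p : Pl Ω F} (hp : SpPl t p) {θ : Ω} (hθ : IntT F t θ) (G : F[X]) :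
    p.Red (aeval θ G) (G.eval (p.rs θ)) := by
  rw [aeval_eq_sum_range, eval_eq_sum_range]
  apply Pl.red_sum
  intro i _
  rw [Algebra.smul_def]
  exact (hp.const _).mul ((Pl.red_rs (hp.int _ hθ)).pow i)

theorem red_aeval (h : Transcendental F t) {p : Pl Ω F} (hp : SpPl t p) {t₀ : F}
    (ht : p.Red t t₀) {θ : Ω} (hθ : IntT F t θ) (G : (Algebra.adjoin F ({t} : Set Ω))[X]) :
    p.Red (aeval θ G) ((G.map (rho h t₀)).eval (p.rs θ)) := by
  obtain ⟨r, hr, h1⟩ := dev h t₀ hθ G
  have h2 : p.Red r (p.rs r) := Pl.red_rs (hp.int _ hr)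
  have h3 := (red_aevalF hp hθ (G.map (rho h t₀))).add ((ht.sub (hp.const t₀)).mul h2)
  rw [← h1, sub_self, zero_mul, add_zero] at h3
  exact h3

open IntermediateField.algebraAdjoinAdjoin in
/-- the field theory -/
theorem field [CharZero F] (h : Transcendental F t) (halg : AlgT F t) (S : Finset Ω) :
    ∃ (θ : Ω) (Δ : Algebra.adjoin F ({t} : Set Ω)) (m : (Algebra.adjoin F ({t} : Set Ω))[X]),
      IntT F t θ ∧ Δ ≠ 0 ∧ aeval θ m = 0 ∧ aeval θ (derivative m) ≠ 0 ∧
      ∀ a ∈ IntermediateField.adjoin F (insert t (S : Set Ω)), IntT F t a →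
        ∃ g : (Algebra.adjoin F ({t} : Set Ω))[X], aeval θ g = Δ * a := by
  classical
  set A := Algebra.adjoin F ({t} : Set Ω) with hA
  set k := IntermediateField.adjoin F ({t} : Set Ω) with hk
  have hic : IsIntegrallyClosed A :=
    IsIntegrallyClosed.of_equiv (Polynomial.algEquivOfTranscendental F t h).toRingEquiv
  have hcz : CharZero Ω := charZero_of_injective_algebraMap (algebraMap F Ω).injective
  have hczk : CharZero k := by infer_instance
  let Y : IntermediateField k Ω := IntermediateField.adjoin k (S : Set Ω)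
  have htow : IsScalarTower A Y Ω := IsScalarTower.of_algebraMap_eq (fun _ => rfl)
  have hfin : FiniteDimensional k Y := by
    apply IntermediateField.finiteDimensional_adjoin
    intro x _
    exact (halg x).isIntegral
  obtain ⟨α, hα⟩ := Field.exists_primitive_element k Y
  have hαalg : IsAlgebraic A α := by
    have h1 : IsAlgebraic k α := Algebra.IsAlgebraic.isAlgebraic α
    exact (IsFractionRing.isAlgebraic_iff A k Y).mpr h1
  obtain ⟨c, hc, hint⟩ := hαalg.exists_integral_multiple
  set β : Y := c • α with hβ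
  have hck : (algebraMap A k c) ≠ 0 := by
    intro h0
    exact hc ((FaithfulSMul.algebraMap_injective A k) (by rw [h0, map_zero]))
  have hβ2 : β = (algebraMap A k c) • α := by
    rw [hβ, algebraMap_smul]
  have hβtop : IntermediateField.adjoin k {β} = ⊤ := by
    rw [eq_top_iff, ← hα, IntermediateField.adjoin_simple_le_iff]
    have h1 : α = (algebraMap A k c)⁻¹ • β := by
      rw [hβ2, smul_smul, inv_mul_cancel₀ hck, one_smul]
    rw [h1]
    exact IntermediateField.smul_mem _ (IntermediateField.mem_adjoin_simple_self k β)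
  have hβint : IsIntegral k β := Algebra.IsIntegral.isIntegral β
  have hβalg : Algebra.adjoin k {β} = ⊤ := by
    have h1 := IntermediateField.adjoin_simple_toSubalgebra_of_isAlgebraic (F := k) (α := β)
      hβint.isAlgebraic
    rw [← h1, hβtop, IntermediateField.top_toSubalgebra]
  let PB : PowerBasis k Y := PowerBasis.ofAdjoinEqTop hβint hβalg
  have hgen : PB.gen = β := PowerBasis.ofAdjoinEqTop_gen hβint hβalg
  have hPint : IsIntegral A PB.gen := by rw [hgen]; exact hint
  have hdiscr_ne : Algebra.discr k PB.basis ≠ 0 := by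
    exact Algebra.discr_not_zero_of_basis k PB.basis
  have hdiscr_int : IsIntegral A (Algebra.discr k PB.basis) := by
    apply Algebra.discr_isIntegral
    intro i
    rw [PB.basis_eq_pow]
    exact hPint.pow _
  obtain ⟨Δ, hΔ⟩ := (IsIntegrallyClosed.isIntegral_iff (R := A) (K := k)).mp hdiscr_int
  refine ⟨(β : Ω), Δ, minpoly A β, ?_, ?_, ?_, ?_, ?_⟩
  · exact hint.map (IsScalarTower.toAlgHom A Y Ω)
  · rintro rfl
    exact hdiscr_ne (by rw [← hΔ, map_zero])
  · have h1 : aeval (β : Ω) (minpoly A β) = algebraMap Y Ω (aeval β (minpoly A β)) :=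
      (aeval_algebraMap_apply Ω β (minpoly A β))
    rw [h1, minpoly.aeval, map_zero]
  · have h1 : minpoly k β = (minpoly A β).map (algebraMap A k) :=
      minpoly.isIntegrallyClosed_eq_field_fractions' k hint
    have h2 : (minpoly k β).Separable := (minpoly.irreducible hβint).separable
    have h3 := h2.aeval_derivative_ne_zero (x := β) (minpoly.aeval k β)
    rw [h1, derivative_map, aeval_map_algebraMap] at h3
    intro h4
    apply h3
    have h5 : aeval (β : Ω) (derivative (minpoly A β))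
        = algebraMap Y Ω (aeval β (derivative (minpoly A β))) :=
      (aeval_algebraMap_apply Ω β (derivative (minpoly A β)))
    rw [h5] at h4
    exact (map_eq_zero_iff _ (algebraMap Y Ω).injective).mp h4
  · intro a ha haint
    have haY : a ∈ Y := by
      have h1 : (insert t (S : Set Ω)) = ({t} : Set Ω) ∪ S := Set.insert_eq t _
      rw [h1, ← IntermediateField.adjoin_adjoin_left] at ha
      exact ha
    have h1 : IsIntegral A (⟨a, haY⟩ : Y) := by
      have h2 : IsIntegral A ((IsScalarTower.toAlgHom A Y Ω) ⟨a, haY⟩) := haint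
      exact (isIntegral_algHom_iff (IsScalarTower.toAlgHom A Y Ω)
        (algebraMap Y Ω).injective).mp h2
    have h2 := Algebra.discr_mul_isIntegral_mem_adjoin k hPint h1
    rw [hgen, Algebra.adjoin_singleton_eq_range_aeval A β] at h2
    obtain ⟨g, hg⟩ := h2
    refine ⟨g, ?_⟩
    have h3 : aeval (β : Ω) g = algebraMap Y Ω (aeval β g) := aeval_algebraMap_apply Ω β g
    have h4 : aeval β g = Algebra.discr k PB.basis • (⟨a, haY⟩ : Y) := hg
    rw [h3, h4, ← hΔ]
    rfl

end L3

open L3 in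
theorem L3_holds : L3S := by
  intro F Ω _ _ _ _ _ _ t h halg S
  classical
  obtain ⟨θ, Δ, m, hθ, hΔ, hm, hm', hfield⟩ := field h halg S
  -- a nonzero multiple of the derivative
  have hx : IsIntegral (Algebra.adjoin F ({t} : Set Ω)) (aeval θ (derivative m)) :=
    int_aeval hθ (derivative m)
  obtain ⟨c, w, hc, hw, hcw⟩ : ∃ (c : Algebra.adjoin F ({t} : Set Ω)) (w : Ω), c ≠ 0 ∧
      IntT F t w ∧ (c : Ω) = aeval θ (derivative m) * w := by
    set R := integralClosure (Algebra.adjoin F ({t} : Set Ω)) Ω with hR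
    let x : R := ⟨aeval θ (derivative m), hx⟩
    have hx0 : x ≠ 0 := by
      intro h0
      exact hm' (congrArg Subtype.val h0)
    have hxalg : IsAlgebraic (Algebra.adjoin F ({t} : Set Ω)) x :=
      (Algebra.IsIntegral.isIntegral x).isAlgebraic
    obtain ⟨c, hc, w, hw⟩ := hxalg.exists_nonzero_dvd (mem_nonZeroDivisors_of_ne_zero hx0)
    refine ⟨c, w, hc, w.2, ?_⟩
    have := congrArg Subtype.val hw
    exact this
  let e := Polynomial.algEquivOfTranscendental F t h
  have hprod : e.symm Δ * e.symm c ≠ 0 := by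
    apply mul_ne_zero
    · rwa [ne_eq, map_eq_zero_iff _ e.symm.injective]
    · rwa [ne_eq, map_eq_zero_iff _ e.symm.injective]
  refine ⟨(e.symm Δ * e.symm c).roots.toFinset, ?_⟩
  intro p hp t₀ ht ht₀
  rw [Multiset.mem_toFinset, mem_roots hprod, IsRoot.def, eval_mul, mul_eq_zero, not_or] at ht₀
  obtain ⟨hΔ0, hc0⟩ := ht₀
  have hρΔ : rho h t₀ Δ ≠ 0 := hΔ0
  have hρc : rho h t₀ c ≠ 0 := hc0
  set θ₀ := p.rs θ with hθ₀
  have hredθ : p.Red θ θ₀ := Pl.red_rs (hp.int _ hθ)
  set m₀ := m.map (rho h t₀) with hm₀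
  have hm₀root : m₀.eval θ₀ = 0 := by
    have h1 := red_aeval h hp ht hθ m
    rw [hm] at h1
    exact h1.unique Pl.red_zero
  obtain ⟨n₀, hn₀⟩ := dvd_iff_isRoot.mpr hm₀root
  have hn₀ne : n₀.eval θ₀ ≠ 0 := by
    intro h0
    have h1 : p.Red (aeval θ (derivative m)) (((derivative m).map (rho h t₀)).eval θ₀) :=
      red_aeval h hp ht hθ (derivative m)
    rw [← derivative_map, ← hm₀, hn₀] at h1
    simp only [derivative_mul, derivative_sub, derivative_X, derivative_C, sub_zero, one_mul,
      eval_add, eval_mul, eval_sub, eval_X, eval_C, sub_self, zero_mul, add_zero] at h1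
    rw [h0] at h1
    have h2 := h1.mul (Pl.red_rs (hp.int _ hw))
    rw [← hcw, zero_mul] at h2
    exact hρc ((red_coe h hp ht c).unique h2)
  have hBint : IntT F t (aeval θ n₀ * (Δ : Ω)) := (int_aevalF hθ n₀).mul (int_coe Δ)
  refine ⟨aeval θ n₀ * (Δ : Ω), hBint, ?_, ?_⟩
  · intro h0
    have h1 := (red_aevalF hp hθ n₀).mul (red_coe h hp ht Δ)
    have h2 := h1.unique h0
    exact (mul_ne_zero hn₀ne hρΔ) h2
  · intro a ha haint hared
    obtain ⟨g, hg⟩ := hfield a ha haint
    have hg0 : (g.map (rho h t₀)).eval θ₀ = 0 := by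
      have h1 := red_aeval h hp ht hθ g
      rw [hg] at h1
      have h2 := (red_coe h hp ht Δ).mul hared
      rw [mul_zero] at h2
      exact h1.unique h2
    obtain ⟨g₁, hg₁⟩ := dvd_iff_isRoot.mpr hg0
    obtain ⟨r₁, hr₁, h1⟩ := dev h t₀ hθ g
    obtain ⟨r₂, hr₂, h2⟩ := dev h t₀ hθ m
    refine ⟨aeval θ n₀ * r₁ - r₂ * aeval θ g₁,
      ((int_aevalF hθ n₀).mul hr₁).sub (hr₂.mul (int_aevalF hθ g₁)), ?_⟩
    rw [hm, ← hm₀, hn₀, map_mul] at h2
    rw [hg₁, map_mul] at h1
    have h3 : aeval θ n₀ * (Δ : Ω) * a = aeval θ n₀ * aeval θ g := by rw [hg]; ring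
    rw [h3, h1]
    have h4 : aeval θ (X - C θ₀) * aeval θ n₀ = -((t - algebraMap F Ω t₀) * r₂) := by
      linear_combination -h2
    linear_combination (aeval θ g₁) * h4

end Pool.Agent.LenSpec
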