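import Pool.Agent.LenSpec.L4

/-!
L5: no collision at an unramified specialisation, exact period.
-/

namespace Pool.Agent.LenSpec

open Polynomial

section

variable {F Ω : Type} [Field F] [Field Ω]

theorem l5_eval (d : ℕ) (t z : Ω) (n : ℕ) : (l4W d t n - X).eval z = (T d t)^[n] z - z := by
  have h := l4W_eval d t z n
  have h2 : (algebraMap Ω Ω) t = t := rfl
  rw [h2, aeval_def, eval₂_eq_eval_map] at h
  rw [eval_sub, eval_X]
  simpa using h

theorem l5_monic (d : ℕ) (t : Ω) (hd : 2 ≤ d) (n : ℕ) (hn : 1 ≤ n) :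
    (l4W d t n - X).Monic := by
  obtain ⟨h1, h2⟩ := l4W_monic d t (by omega) n
  apply h1.sub_of_left
  rw [degree_eq_natDegree h1.ne_zero, h2, degree_X]
  have : 1 < d ^ n := Nat.one_lt_pow (by omega) (by omega)
  exact_mod_cast this

/-- splitting off a part of the roots -/
theorem l5_split [IsAlgClosed Ω] (p : Pl Ω F) (W : Polynomial Ω) (hW : W.Monic)
    (hO : ∀ z, W.eval z = 0 → z ∈ p.O) (A : Multiset Ω) (hA : A ≤ W.roots) :
    ∃ H : Polynomial Ω, W = (A.map (fun z => X - C z)).prod * H ∧ ∀ u ∈ p.O, H.eval u ∈ p.O := by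
  classical
  refine ⟨((W.roots - A).map (fun z => X - C z)).prod, ?_, ?_⟩
  · rw [← Multiset.prod_add, ← Multiset.map_add, add_tsub_cancel_of_le hA]
    have h1 := (IsAlgClosed.splits W).eq_prod_roots
    rw [hW.leadingCoeff, map_one, one_mul] at h1
    exact h1
  · intro u hu
    rw [eval_multiset_prod, Multiset.map_map]
    apply Subring.multiset_prod_mem
    intro v hv
    rw [Multiset.mem_map] at hv
    obtain ⟨z, hz, rfl⟩ := hv
    have hz2 : z ∈ W.roots := Multiset.mem_of_le (Multiset.sub_le_self _ _) hz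
    have hz3 : z ∈ p.O := hO z ((mem_roots hW.ne_zero).mp hz2)
    simp only [Function.comp_apply, eval_sub, eval_X, eval_C]
    exact p.O.sub_mem hu hz3

variable [Algebra F Ω]

theorem l5_const_int (t : Ω) (a : F) : IntT F t (algebraMap F Ω a) := by
  have : algebraMap F Ω a = algebraMap (Algebra.adjoin F ({t} : Set Ω)) Ω
      (algebraMap F (Algebra.adjoin F ({t} : Set Ω)) a) := rfl
  rw [this]
  exact isIntegral_algebraMap

theorem l5_red_aeval {t : Ω} {p : Pl Ω F} (hp : SpPl t p) {t₀ : F} (ht : p.Red t t₀) (G : F[X]) :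
    p.Red (aeval t G) (G.eval t₀) := by
  rw [aeval_eq_sum_range, eval_eq_sum_range]
  refine Pl.red_sum _ fun i _ => ?_
  rw [Algebra.smul_def]
  exact (hp.const _).mul (ht.pow i)

/-- the product over `A` at a point `u` with the same residue as some element of `A` -/
theorem l5_prod {t : Ω} {p : Pl Ω F} (hp : SpPl t p) (E : IntermediateField F Ω) (A : Finset Ω)
    (hc : ∀ i, (∏ z ∈ A, (X - C z)).coeff i ∈ E) (hint : ∀ z ∈ A, IntT F t z) (u : Ω)
    (hu : u ∈ E) (hui : IntT F t u) (x : Ω) (hx : x ∈ A) (hxu : p.rs x = p.rs u) :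
    (∏ z ∈ A, (u - z)) ∈ E ∧ IntT F t (∏ z ∈ A, (u - z)) ∧ p.Red (∏ z ∈ A, (u - z)) 0 := by
  have hev : (∏ z ∈ A, (X - C z)).eval u = ∏ z ∈ A, (u - z) := by
    rw [eval_prod]
    simp
  refine ⟨?_, ?_, ?_⟩
  · rw [← hev, eval_eq_sum_range]
    exact sum_mem fun i _ => mul_mem (hc i) (pow_mem hu i)
  · exact IsIntegral.prod _ fun z hz => IsIntegral.sub hui (hint z hz)
  · have h1 : p.Red (∏ z ∈ A, (u - z)) (∏ z ∈ A, (p.rs u - p.rs z)) :=
      Pl.red_prod _ fun z hz =>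
        (Pl.red_rs (hp.int u hui)).sub (Pl.red_rs (hp.int z (hint z hz)))
    have h2 : ∏ z ∈ A, (p.rs u - p.rs z) = 0 := by
      apply Finset.prod_eq_zero hx
      rw [hxu, sub_self]
    rwa [h2] at h1

/-- the polynomial in `t` -/
noncomputable def l5g (d : ℕ) (z : F) : ℕ → F[X]
  | 0 => C z
  | k + 1 => (l5g d z k) ^ d + X

theorem l5g_aeval (d : ℕ) (z : F) (t : Ω) (k : ℕ) :
    aeval t (l5g d z k) = (T d t)^[k] (algebraMap F Ω z) := by
  induction k with
  | zero => simp [l5g]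
  | succ k ih => rw [l5g, map_add, map_pow, ih, aeval_X, Function.iterate_succ_apply', T]

omit [Field Ω] [Algebra F Ω] in
theorem l5g_eval (d : ℕ) (z t₀ : F) (k : ℕ) : (l5g d z k).eval t₀ = (T d t₀)^[k] z := by
  induction k with
  | zero => simp [l5g]
  | succ k ih => rw [l5g, eval_add, eval_pow, ih, eval_X, Function.iterate_succ_apply', T]

omit [Field Ω] [Algebra F Ω] in
theorem l5g_deriv (d : ℕ) (z t₀ : F) (k : ℕ) :
    (derivative (l5g d z k)).eval t₀ = Dt d t₀ z k := by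
  induction k with
  | zero => simp [l5g, Dt]
  | succ k ih =>
    rw [l5g, derivative_add, derivative_X, derivative_pow, eval_add, eval_one, eval_mul, eval_mul,
      ih, eval_C, eval_pow, l5g_eval, Dt]

end

theorem l5_holds (h4 : L4S) (hq : QD1S) : L5S := by
  intro F Ω _ _ _ ι _ _ _ t p t₀ d n S A₁ A₂ B htr hp ht hd hnp hdis hA hc1 hc2 hB hBr hBp
    x hx y hy hrs hfix
  classical
  have hn : 1 ≤ n := hnp.one_lt.le
  obtain ⟨h4a, h4b, -⟩ := h4 F Ω t p t₀ d n htr hp ht hd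
  have hx1 := (hA x).mp (Or.inl hx)
  have hy1 := (hA y).mp (Or.inr hy)
  have hxy : x ≠ y := by
    rintro rfl
    exact (Finset.disjoint_left.mp hdis) hx hy
  obtain ⟨hper, hTm⟩ := h4b x y hn hxy hx1.1 hy1.1 hrs
  obtain ⟨z₀, hz₀⟩ : ∃ z₀, z₀ = p.rs x := ⟨_, rfl⟩
  rw [← hz₀] at hper hTm hfix
  have hex : ∀ m, 0 < m → m < n → (T d t₀)^[m] z₀ ≠ z₀ := by
    intro m hm hmn h
    have h1 : Function.IsPeriodicPt (T d t₀) m z₀ := h
    have h2 : Function.IsPeriodicPt (T d t₀) n z₀ := hper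
    have h3 := h1.gcd h2
    have h5 : m.gcd n = 1 := by
      have := (Nat.coprime_primes hnp hnp)
      exact Nat.Coprime.symm ((Nat.Prime.coprime_iff_not_dvd hnp).mpr
        (fun hdvd => absurd (Nat.le_of_dvd hm hdvd) (by omega)))
    rw [h5] at h3
    exact hfix h3
  have hDt := hq F ι d n t₀ z₀ hd hn hper hex hTm
  -- the polynomial in t
  obtain ⟨G, hG⟩ : ∃ G : F[X], G = l5g d z₀ n - C z₀ := ⟨_, rfl⟩
  have hG0 : G.IsRoot t₀ := by
    rw [IsRoot, hG, eval_sub, l5g_eval, eval_C, hper, sub_self]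
  obtain ⟨G1, hG1⟩ := dvd_iff_isRoot.mpr hG0
  have hG1' : G1.eval t₀ = Dt d t₀ z₀ n := by
    have h1 : (derivative G).eval t₀ = Dt d t₀ z₀ n := by
      rw [hG, derivative_sub, derivative_C, sub_zero, l5g_deriv]
    rw [← h1, hG1, derivative_mul]
    simp
  have hGt : aeval t G = (T d t)^[n] (algebraMap F Ω z₀) - algebraMap F Ω z₀ := by
    rw [hG, map_sub, l5g_aeval, aeval_C]
  have hGt1 : aeval t G = (t - algebraMap F Ω t₀) * aeval t G1 := by
    rw [hG1, map_mul, map_sub, aeval_X, aeval_C]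
  -- the polynomial W
  have hWm := l5_monic d t hd n hn
  have hWO : ∀ z, (l4W d t n - X).eval z = 0 → z ∈ p.O := by
    intro z hz
    rw [l5_eval] at hz
    exact hp.int z (l4_int t z d n hd hn (sub_eq_zero.mp hz))
  have hle : (A₁ ∪ A₂).val ≤ (l4W d t n - X).roots := by
    rw [Multiset.le_iff_subset (A₁ ∪ A₂).nodup]
    intro z hz
    have hz1 : z ∈ A₁ ∨ z ∈ A₂ := Finset.mem_union.mp hz
    rw [mem_roots hWm.ne_zero, IsRoot, l5_eval, ((hA z).mp hz1).1, sub_self]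
  obtain ⟨H, hH, hHO⟩ := l5_split p _ hWm hWO _ hle
  have hz0red : p.Red (algebraMap F Ω z₀) z₀ := hp.const z₀
  have hz0rs : p.rs (algebraMap F Ω z₀) = z₀ := hz0red.rs_eq
  have hz0int := l5_const_int t z₀
  have hz0E : algebraMap F Ω z₀ ∈ IntermediateField.adjoin F (insert t S) :=
    IntermediateField.algebraMap_mem _ _
  have hA1int : ∀ z ∈ A₁, IntT F t z := fun z hz =>
    l4_int t z d n hd hn ((hA z).mp (Or.inl hz)).1
  have hA2int : ∀ z ∈ A₂, IntT F t z := fun z hz =>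
    l4_int t z d n hd hn ((hA z).mp (Or.inr hz)).1
  obtain ⟨e1, i1, r1⟩ := l5_prod hp _ A₁ hc1 hA1int _ hz0E hz0int x hx (by rw [hz0rs, hz₀])
  obtain ⟨e2, i2, r2⟩ := l5_prod hp _ A₂ hc2 hA2int _ hz0E hz0int y hy
    (by rw [hz0rs, hz₀, hrs])
  obtain ⟨s1, hs1, hs1'⟩ := hBp _ e1 i1 r1
  obtain ⟨s2, hs2, hs2'⟩ := hBp _ e2 i2 r2
  obtain ⟨h, hh⟩ : ∃ h, h = H.eval (algebraMap F Ω z₀) := ⟨_, rfl⟩
  have hhO : h ∈ p.O := by rw [hh]; exact hHO _ hz0red.mem
  have hWval : (T d t)^[n] (algebraMap F Ω z₀) - algebraMap F Ω z₀ =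
      ((∏ z ∈ A₁, (algebraMap F Ω z₀ - z)) * ∏ z ∈ A₂, (algebraMap F Ω z₀ - z)) * h := by
    rw [← l5_eval, hH, eval_mul, ← hh]
    congr 1
    have h1 : (Multiset.map (fun z : Ω => X - C z) (A₁ ∪ A₂).val).prod =
        ∏ z ∈ A₁ ∪ A₂, (X - C z) := rfl
    rw [h1, Finset.prod_union hdis, eval_mul, eval_prod, eval_prod]
    simp
  have htt : t - algebraMap F Ω t₀ ≠ 0 := by
    intro h0
    apply htr
    have : t = algebraMap F Ω t₀ := sub_eq_zero.mp h0
    rw [this]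
    exact isAlgebraic_algebraMap t₀
  have hkey : B ^ 2 * aeval t G1 = (t - algebraMap F Ω t₀) * (s1 * s2 * h) := by
    apply mul_left_cancel₀ htt
    have h1 : (t - algebraMap F Ω t₀) * aeval t G1 =
        ((∏ z ∈ A₁, (algebraMap F Ω z₀ - z)) * ∏ z ∈ A₂, (algebraMap F Ω z₀ - z)) * h := by
      rw [← hGt1, hGt, hWval]
    calc (t - algebraMap F Ω t₀) * (B ^ 2 * aeval t G1)
        = B ^ 2 * ((t - algebraMap F Ω t₀) * aeval t G1) := by ring
      _ = (B * ∏ z ∈ A₁, (algebraMap F Ω z₀ - z)) *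
          (B * ∏ z ∈ A₂, (algebraMap F Ω z₀ - z)) * h := by rw [h1]; ring
      _ = _ := by rw [hs1', hs2']; ring
  have hBO : B ∈ p.O := hp.int B hB
  have hredL : p.Red (B ^ 2 * aeval t G1) ((p.rs B) ^ 2 * G1.eval t₀) :=
    ((Pl.red_rs hBO).pow 2).mul (l5_red_aeval hp ht G1)
  have hredt : p.Red (t - algebraMap F Ω t₀) 0 := by
    have := ht.sub (hp.const t₀)
    rwa [sub_self] at this
  have hO3 : s1 * s2 * h ∈ p.O :=
    p.O.mul_mem (p.O.mul_mem (hp.int s1 hs1) (hp.int s2 hs2)) hhO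
  have hredR : p.Red ((t - algebraMap F Ω t₀) * (s1 * s2 * h)) 0 := by
    have := hredt.mul (Pl.red_rs hO3)
    rwa [zero_mul] at this
  rw [hkey] at hredL
  have h0 := hredL.unique hredR
  rcases mul_eq_zero.mp h0 with h1 | h1
  · have h2 : p.rs B = 0 := by
      exact pow_eq_zero_iff (two_ne_zero) |>.mp h1
    apply hBr
    have := Pl.red_rs hBO
    rwa [h2] at this
  · exact hDt (by rw [← hG1', h1])

end Pool.Agent.LenSpec
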