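import Pool.Agent.LenSpec.Stmt

/-!
Derivations of a field of characteristic zero that vanish on a subfield and do not vanish at a
given transcendental element.
-/

namespace Pool.Agent.LenSpec

open Polynomial

namespace R1Aux

/-- Any extension of fields of characteristic zero is formally smooth. -/
theorem smooth (E K : Type) [Field E] [Field K] [Algebra E K] [CharZero E] :
    Algebra.FormallySmooth E K := by
  obtain ⟨ι, v, hv⟩ := exists_isTranscendenceBasis' E K
  have : Algebra.IsAlgebraic (IntermediateField.adjoin E (Set.range v)) K := hv.isAlgebraic_field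
  have : CharZero (IntermediateField.adjoin E (Set.range v)) :=
    charZero_of_injective_algebraMap (algebraMap E _).injective
  exact .of_algebraicIndependent_of_isSeparable hv.1

/-- Extension of derivations. -/
theorem ext_field {E K : Type} [Field E] [Field K] [CharZero K] [Algebra E K] [CharZero E]
    (ψ : E →+* TrivSqZeroExt K K) (hψ : ∀ a, (ψ a).fst = algebraMap E K a) :
    ∃ D : Derivation ℚ K K, ∀ a, D (algebraMap E K a) = (ψ a).snd := by
  classical
  have hs := smooth E K
  let alg : Algebra E (TrivSqZeroExt K K) := ψ.toAlgebra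
  have halg : ∀ a : E, (algebraMap E (TrivSqZeroExt K K)) a = ψ a := fun a => rfl
  let g : TrivSqZeroExt K K →ₐ[E] K :=
    { (TrivSqZeroExt.fstHom ℤ K K).toRingHom with
      commutes' := fun a => by
        change (ψ a).fst = _
        exact hψ a }
  have hg : ∀ z, g z = z.fst := fun z => rfl
  have hsurj : Function.Surjective g := fun a => ⟨TrivSqZeroExt.inl a, by simp [hg]⟩
  have hnil : IsNilpotent (RingHom.ker (g : TrivSqZeroExt K K →+* K)) := by
    refine ⟨2, ?_⟩
    have h2 : (RingHom.ker (g : TrivSqZeroExt K K →+* K)) ^ 2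
        = (RingHom.ker (g : TrivSqZeroExt K K →+* K)) *
          (RingHom.ker (g : TrivSqZeroExt K K →+* K)) :=
      sq _
    refine h2.trans ?_
    rw [Ideal.zero_eq_bot, eq_bot_iff, Ideal.mul_le]
    intro r hr s hs
    have hr' : r.fst = 0 := hr
    have hs' : s.fst = 0 := hs
    rw [Ideal.mem_bot]
    ext <;> simp [hr', hs']
  let h := Algebra.FormallySmooth.liftOfSurjective (AlgHom.id E K) g hsurj hnil
  have hh : ∀ x, (h x).fst = x := fun x => by
    have := Algebra.FormallySmooth.liftOfSurjective_apply (AlgHom.id E K) g hsurj hnil x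
    simpa [hg] using this
  refine ⟨Derivation.mk' ((TrivSqZeroExt.sndHom K K).toAddMonoidHom.comp
      (h : K →+* TrivSqZeroExt K K).toAddMonoidHom).toRatLinearMap ?_, ?_⟩
  · intro a b
    change (h (a * b)).snd = a • (h b).snd + b • (h a).snd
    rw [map_mul, TrivSqZeroExt.snd_mul, hh, hh]
    simp [mul_comm]
  · intro a
    change (h (algebraMap E K a)).snd = (ψ a).snd
    rw [AlgHom.commutes]
    rfl

end R1Aux

theorem R1_holds : R1S := by
  intro K _ _ L x hx
  classical
  have htr : Transcendental L x := hx
  have : CharZero (RatFunc L) := charZero_of_injective_algebraMap (algebraMap L (RatFunc L)).injective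
  -- the embedding of `L(X)` into `K`
  let φ : RatFunc L →+* K := (IntermediateField.val (IntermediateField.adjoin L {x})).toRingHom.comp
    (RatFunc.algEquivOfTranscendental x htr).toRingEquiv.toRingHom
  have hφ : ∀ g : L[X], φ (algebraMap L[X] (RatFunc L) g) = aeval x g := by
    intro g
    change ((RatFunc.algEquivOfTranscendental x htr (algebraMap L[X] (RatFunc L) g) :
      IntermediateField.adjoin L {x}) : K) = _
    rw [RatFunc.algEquivOfTranscendental_algebraMap]
    have := Polynomial.aeval_algHom_apply (IntermediateField.val (IntermediateField.adjoin L {x}))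
      (IntermediateField.AdjoinSimple.gen L x) g
    exact this.symm
  -- the homomorphism into the dual numbers
  let ψ0 : L[X] →+* TrivSqZeroExt K K := Polynomial.eval₂RingHom
    ((TrivSqZeroExt.inlHom K K).comp (algebraMap L K)) (TrivSqZeroExt.inl x + TrivSqZeroExt.inr 1)
  have h1 : ∀ g, (ψ0 g).fst = aeval x g := by
    intro g
    have h2 : (TrivSqZeroExt.fstHom ℤ K K).toRingHom.comp ψ0 = (aeval x : L[X] →ₐ[L] K).toRingHom := by
      apply Polynomial.ringHom_ext
      · intro a
        simp [ψ0]
      · simp [ψ0]
    exact congrArg (fun f : L[X] →+* K => f g) h2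
  have hu : ∀ y : nonZeroDivisors L[X], IsUnit (ψ0 y) := by
    intro y
    rw [TrivSqZeroExt.isUnit_iff_isUnit_fst, h1, isUnit_iff_ne_zero]
    intro h3
    exact nonZeroDivisors.coe_ne_zero y ((transcendental_iff.1 htr) _ h3)
  let ψ : RatFunc L →+* TrivSqZeroExt K K := IsLocalization.lift (M := nonZeroDivisors L[X]) hu
  have hψ : ∀ g : L[X], ψ (algebraMap L[X] (RatFunc L) g) = ψ0 g := fun g =>
    IsLocalization.lift_eq hu g
  let alg : Algebra (RatFunc L) K := φ.toAlgebra
  have halg : ∀ a, algebraMap (RatFunc L) K a = φ a := fun _ => rfl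
  obtain ⟨D, hD⟩ := R1Aux.ext_field ψ (by
    intro a
    rw [halg]
    have h2 : (TrivSqZeroExt.fstHom ℤ K K).toRingHom.comp ψ = φ := by
      apply IsLocalization.ringHom_ext (nonZeroDivisors L[X])
      refine RingHom.ext fun g => ?_
      change (ψ (algebraMap L[X] (RatFunc L) g)).fst = φ (algebraMap L[X] (RatFunc L) g)
      rw [hψ, hφ, h1]
    exact congrArg (fun f : RatFunc L →+* K => f a) h2)
  refine ⟨D, fun y hy => ?_, ?_⟩
  · have h2 := hD (algebraMap L[X] (RatFunc L) (C ⟨y, hy⟩))
    rw [halg, hφ, hψ] at h2
    simpa [ψ0] using h2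
  · have h2 := hD (algebraMap L[X] (RatFunc L) X)
    rw [halg, hφ, hψ] at h2
    simp [ψ0] at h2
    rw [h2]
    exact one_ne_zero

end Pool.Agent.LenSpec
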