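import Pool.Agent.LenSpec.Stmt
import Pool.Agent.LenSpec.PlBasic

/-!
R4: the logarithmic derivative of a multiplier near `z ^ d`.
-/

namespace Pool.Agent.LenSpec

open Polynomial

/-- the derivation applied to the coefficients -/
noncomputable def r4cD {K : Type} [Field K] [CharZero K] (D : Derivation ℚ K K) (P : K[X]) : K[X] :=
  ∑ i ∈ Finset.range (P.natDegree + 1), monomial i (D (P.coeff i))

theorem r4cD_coeff {K : Type} [Field K] [CharZero K] (D : Derivation ℚ K K) (P : K[X]) (j : ℕ) :
    (r4cD D P).coeff j = D (P.coeff j) := by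
  rw [r4cD, finsetSum_coeff]
  simp only [coeff_monomial]
  rw [Finset.sum_ite_eq' (Finset.range (P.natDegree + 1)) j (fun i => D (P.coeff i))]
  split_ifs with h
  · rfl
  · rw [Finset.mem_range, not_lt] at h
    rw [coeff_eq_zero_of_natDegree_lt (by omega), map_zero]

theorem r4cD_add {K : Type} [Field K] [CharZero K] (D : Derivation ℚ K K) (P Q : K[X]) :
    r4cD D (P + Q) = r4cD D P + r4cD D Q := by
  ext j
  rw [r4cD_coeff, coeff_add, coeff_add, r4cD_coeff, r4cD_coeff, map_add]

theorem r4cD_monomial {K : Type} [Field K] [CharZero K] (D : Derivation ℚ K K) (n : ℕ) (a : K) :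
    r4cD D (monomial n a) = monomial n (D a) := by
  ext j
  rw [r4cD_coeff, coeff_monomial, coeff_monomial]
  split_ifs
  · rfl
  · exact map_zero _

theorem r4cD_derivative {K : Type} [Field K] [CharZero K] (D : Derivation ℚ K K) (P : K[X]) :
    r4cD D (derivative P) = derivative (r4cD D P) := by
  ext j
  rw [r4cD_coeff, coeff_derivative, coeff_derivative, r4cD_coeff, D.leibniz]
  have h : D ((j : K) + 1) = 0 := by
    rw [map_add, D.map_natCast, D.map_one_eq_zero, add_zero]
  rw [h]
  simp only [smul_eq_mul, mul_zero, zero_add]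
  ring

theorem r4_D_eval {K : Type} [Field K] [CharZero K] (D : Derivation ℚ K K) (P : K[X]) (z : K) :
    D (P.eval z) = (r4cD D P).eval z + (derivative P).eval z * D z := by
  induction P using Polynomial.induction_on' with
  | add P Q hP hQ =>
    rw [eval_add, map_add, hP, hQ, r4cD_add, eval_add, derivative_add, eval_add]
    ring
  | monomial n a =>
    rw [r4cD_monomial, eval_monomial, eval_monomial, derivative_monomial, eval_monomial, D.leibniz,
      D.leibniz_pow]
    simp only [smul_eq_mul, nsmul_eq_mul]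
    ring

theorem r4_D_prod {K : Type} [Field K] [CharZero K] (D : Derivation ℚ K K) (x : ℕ → K) (n : ℕ)
    (hx : ∀ k, x k ≠ 0) :
    D (∏ k ∈ Finset.range n, x k) / (∏ k ∈ Finset.range n, x k)
      = ∑ k ∈ Finset.range n, D (x k) / x k := by
  induction n with
  | zero => simp
  | succ n ih =>
    rw [Finset.prod_range_succ, Finset.sum_range_succ, ← ih, D.leibniz]
    have h1 : ∏ k ∈ Finset.range n, x k ≠ 0 := Finset.prod_ne_zero_iff.2 (fun k _ => hx k)
    have h2 := hx n
    simp only [smul_eq_mul]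
    field_simp
    ring

theorem r4_ev_pow {κ : Type} [Field κ] (d : ℕ) (y : κ) (k : ℕ) :
    (ev (X ^ d : κ[X]) 1)^[k] y = y ^ (d ^ k) := by
  induction k with
  | zero => simp
  | succ k ih =>
    rw [Function.iterate_succ_apply', ih]
    simp only [ev, eval_pow, eval_X, eval_one, div_one]
    rw [← pow_mul, pow_succ]

/-- the coefficient polynomial -/
noncomputable def r4pol {κ : Type} [Field κ] (d : ℕ) (α : ℕ → κ) : κ[X] :=
  ∑ j ∈ Finset.Ico 1 d, monomial j (α j)

theorem r4pol_coeff {κ : Type} [Field κ] (d : ℕ) (α : ℕ → κ) (j : ℕ) :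
    (r4pol d α).coeff j = if j ∈ Finset.Ico 1 d then α j else 0 := by
  rw [r4pol, finsetSum_coeff]
  simp only [coeff_monomial]
  rw [Finset.sum_ite_eq' (Finset.Ico 1 d) j α]

theorem r4pol_eval {κ : Type} [Field κ] (d : ℕ) (α : ℕ → κ) (y : κ) :
    (r4pol d α).eval y = ∑ j ∈ Finset.Ico 1 d, α j * y ^ j := by
  rw [r4pol, eval_finset_sum]
  refine Finset.sum_congr rfl fun j _ => ?_
  rw [eval_monomial]

theorem r4pol_deriv_eval {κ : Type} [Field κ] (d : ℕ) (α : ℕ → κ) (y : κ) :
    y * (derivative (r4pol d α)).eval y = ∑ j ∈ Finset.Ico 1 d, α j * j * y ^ j := by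
  rw [r4pol, derivative_sum, eval_finset_sum, Finset.mul_sum]
  refine Finset.sum_congr rfl fun j hj => ?_
  rw [derivative_monomial, eval_monomial]
  have h1 : 1 ≤ j := (Finset.mem_Ico.1 hj).1
  have h2 : y ^ j = y * y ^ (j - 1) := by
    rw [← pow_succ']
    congr 1
    omega
  rw [h2]
  ring

theorem r4_gF {κ : Type} [Field κ] (d : ℕ) (α β : ℕ → κ) (y : κ) :
    (y * (derivative (r4pol d α)).eval y - d * (r4pol d α).eval y) / y ^ d
      - y * (derivative (r4pol d β)).eval y = gF d α β y := by
  rw [r4pol_deriv_eval, r4pol_deriv_eval, r4pol_eval, gF, Finset.mul_sum,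
    ← Finset.sum_sub_distrib, Finset.sum_div, ← Finset.sum_sub_distrib]
  refine Finset.sum_congr rfl fun j _ => ?_
  rw [div_eq_mul_inv]
  ring

theorem R4_holds (hZ1 : Z1S) (hN3 : N3S) : R4S := by
  intro K κ _ _ _ _ _ p d n f D α β hd hn hP hQ hPd hP0 hQ0 hQd hα hβ z hz
  classical
  obtain ⟨hzO, hy0, hyN, hmred⟩ := hZ1 K κ p d n f hd hn hP hQ z hz
  set P := f.num with hPdef
  set Q := f.den with hQdef
  set y := p.rs z with hydef
  have hdκ : (d : κ) ≠ 0 := by
    have : d ≠ 0 := by omega
    exact_mod_cast this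
  have hzy : p.Red z y := Pl.red_rs hzO
  obtain ⟨hQk, hzk, -⟩ := (hN3 K κ p P Q (X ^ d) 1 z y hP hQ hzy).2 (by simp)
  -- the orbit
  set Z : ℕ → K := fun k => (ev P Q)^[k] z with hZ
  set Y : ℕ → κ := fun k => y ^ (d ^ k) with hY
  have hZY : ∀ k, p.Red (Z k) (Y k) := by
    intro k
    have := hzk k
    rw [r4_ev_pow] at this
    exact this
  have hY0 : ∀ k, Y k ≠ 0 := fun k => pow_ne_zero _ hy0
  have hZ0 : ∀ k, Z k ≠ 0 := fun k => (hZY k).ne_zero (hY0 k)
  have hZs : ∀ k, Z (k + 1) = P.eval (Z k) / Q.eval (Z k) := by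
    intro k
    change (ev P Q)^[k + 1] z = _
    rw [Function.iterate_succ_apply']
    rfl
  have hQne : ∀ k, Q.eval (Z k) ≠ 0 := hQk
  have hPne : ∀ k, P.eval (Z k) ≠ 0 := by
    intro k h0
    apply hZ0 (k + 1)
    rw [hZs, h0, zero_div]
  have hZn : Z n = Z 0 := hz.1.2
  -- reductions of values
  have hPr : ∀ k, p.Red (P.eval (Z k)) (Y k ^ d) := by
    intro k
    have := hP.eval (hZY k)
    rw [eval_pow, eval_X] at this
    exact this
  have hQr : ∀ k, p.Red (Q.eval (Z k)) 1 := by
    intro k
    have := hQ.eval (hZY k)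
    rw [eval_one] at this
    exact this
  have hP'r : ∀ k, p.Red ((derivative P).eval (Z k)) ((d : κ) * Y k ^ (d - 1)) := by
    intro k
    have := hP.derivative.eval (hZY k)
    rw [derivative_X_pow, eval_mul, eval_C, eval_pow, eval_X] at this
    exact this
  have hQ'r : ∀ k, p.Red ((derivative Q).eval (Z k)) 0 := by
    intro k
    have := hQ.derivative.eval (hZY k)
    rw [derivative_one, eval_zero] at this
    exact this
  have hP''r : ∀ k, p.Red ((derivative (derivative P)).eval (Z k))
      ((d : κ) * (((d - 1 : ℕ) : κ) * Y k ^ (d - 1 - 1))) := by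
    intro k
    have := hP.derivative.derivative.eval (hZY k)
    rw [derivative_X_pow, derivative_C_mul, derivative_X_pow, eval_mul, eval_C, eval_mul, eval_C,
      eval_pow, eval_X] at this
    exact this
  have hQ''r : ∀ k, p.Red ((derivative (derivative Q)).eval (Z k)) 0 := by
    intro k
    have := hQ.derivative.derivative.eval (hZY k)
    rw [derivative_one, derivative_zero, eval_zero] at this
    exact this
  -- the coefficientwise derivative
  have hPD : p.RedP (r4cD D P) (r4pol d α) := by
    intro j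
    rw [r4cD_coeff, r4pol_coeff]
    split_ifs with hj
    · exact hα j
    · rw [Finset.mem_Ico, not_and_or, not_le, not_lt] at hj
      have : D (P.coeff j) = 0 := by
        rcases hj with hj | hj
        · have : j = 0 := by omega
          rw [this, hP0, map_zero]
        · rcases hj.lt_or_eq with hj | hj
          · rw [coeff_eq_zero_of_natDegree_lt (lt_of_le_of_lt f.num_le hj), map_zero]
          · rw [← hj, hPd, D.map_one_eq_zero]
      rw [this]
      exact Pl.red_zero
  have hQD : p.RedP (r4cD D Q) (r4pol d β) := by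
    intro j
    rw [r4cD_coeff, r4pol_coeff]
    split_ifs with hj
    · exact hβ j
    · rw [Finset.mem_Ico, not_and_or, not_le, not_lt] at hj
      have : D (Q.coeff j) = 0 := by
        rcases hj with hj | hj
        · have : j = 0 := by omega
          rw [this, hQ0, D.map_one_eq_zero]
        · rcases hj.lt_or_eq with hj | hj
          · rw [coeff_eq_zero_of_natDegree_lt (lt_of_le_of_lt f.den_le hj), map_zero]
          · rw [← hj, hQd, map_zero]
      rw [this]
      exact Pl.red_zero
  -- the factor θ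
  set θ : ℕ → K := fun k => Z k * (derivative P).eval (Z k) / P.eval (Z k)
    - Z k * (derivative Q).eval (Z k) / Q.eval (Z k) with hθ
  have hYd : ∀ k, Y k * Y k ^ (d - 1) = Y k ^ d := by
    intro k
    rw [← pow_succ']
    congr 1
    omega
  have hθr : ∀ k, p.Red (θ k) (d : κ) := by
    intro k
    have h1 := (((hZY k).mul (hP'r k)).div (hPr k) (pow_ne_zero _ (hY0 k))).sub
      (((hZY k).mul (hQ'r k)).div (hQr k) one_ne_zero)
    refine h1.eq rfl ?_
    rw [mul_zero, zero_div, sub_zero, ← hYd k]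
    have h2 := hY0 k
    field_simp
  have hθ0 : ∀ k, θ k ≠ 0 := fun k => (hθr k).ne_zero hdκ
  -- the recursion for the logarithmic derivative
  set u : ℕ → K := fun k => D (Z k) / Z k with hu
  have hrec : ∀ k, u (k + 1) = θ k * u k + ((r4cD D P).eval (Z k) / P.eval (Z k)
      - (r4cD D Q).eval (Z k) / Q.eval (Z k)) := by
    intro k
    change D (Z (k + 1)) / Z (k + 1) = _
    rw [hZs, D.leibniz_div, r4_D_eval, r4_D_eval]
    have h1 := hPne k
    have h2 := hQne k
    have h3 := hZ0 k
    simp only [smul_eq_mul, hθ, hu]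
    field_simp
    ring
  have hrO : ∀ k, ((r4cD D P).eval (Z k) / P.eval (Z k)
      - (r4cD D Q).eval (Z k) / Q.eval (Z k)) ∈ p.O := by
    intro k
    exact (((hPD.eval (hZY k)).div (hPr k) (pow_ne_zero _ (hY0 k))).sub
      ((hQD.eval (hZY k)).div (hQr k) one_ne_zero)).mem
  have hlin : ∀ m, ∃ a b : K, u m = a * u 0 + b ∧ p.Red a ((d : κ) ^ m) ∧ b ∈ p.O := by
    intro m
    induction m with
    | zero => exact ⟨1, 0, by ring, by rw [pow_zero]; exact Pl.red_one, p.O.zero_mem⟩
    | succ m ih =>
      obtain ⟨a, b, h1, h2, h3⟩ := ih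
      refine ⟨θ m * a, θ m * b + ((r4cD D P).eval (Z m) / P.eval (Z m)
        - (r4cD D Q).eval (Z m) / Q.eval (Z m)), ?_, ?_, ?_⟩
      · rw [hrec, h1]
        ring
      · rw [pow_succ']
        exact (hθr m).mul h2
      · exact p.O.add_mem (p.O.mul_mem (hθr m).mem h3) (hrO m)
  have hdn : (1 : κ) - (d : κ) ^ n ≠ 0 := by
    intro h0
    have h1 : ((d ^ n : ℕ) : κ) = ((1 : ℕ) : κ) := by
      push_cast
      exact (sub_eq_zero.1 h0).symm
    have h2 : d ^ n = 1 := by exact_mod_cast h1
    have h3 : 1 < d ^ n := Nat.one_lt_pow (by omega) (by omega)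
    omega
  have hu0 : u 0 ∈ p.O := by
    obtain ⟨a, b, h1, h2, h3⟩ := hlin n
    have h4 : u n = u 0 := by
      simp only [hu]
      rw [hZn]
    have h5 : p.Red (1 - a) (1 - (d : κ) ^ n) := Pl.red_one.sub h2
    have h6 : (1 - a) ≠ 0 := h5.ne_zero hdn
    have h7 : u 0 = b * (1 - a)⁻¹ := by
      rw [eq_mul_inv_iff_mul_eq₀ h6]
      rw [h4] at h1
      linear_combination h1
    rw [h7]
    exact p.O.mul_mem h3 (h5.inv hdn).mem
  have huO : ∀ k, u k ∈ p.O := by
    intro k
    obtain ⟨a, b, h1, h2, h3⟩ := hlin k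
    rw [h1]
    exact p.O.add_mem (p.O.mul_mem h2.mem hu0) h3
  have hDZ : ∀ k, D (Z k) ∈ p.O := by
    intro k
    have h1 : D (Z k) = u k * Z k := by
      simp only [hu]
      rw [div_mul_cancel₀ _ (hZ0 k)]
    rw [h1]
    exact p.O.mul_mem (huO k) (hZY k).mem
  -- the derivative of θ
  have hDθ : ∀ k, p.Red (D (θ k)) (gF d α β (Y k)) := by
    intro k
    have hδ : p.Red (D (Z k)) (p.rs (D (Z k))) := Pl.red_rs (hDZ k)
    set δ := p.rs (D (Z k)) with hδdef
    have hYk := hY0 k
    have h1 : D (θ k) = ((D (Z k) * (derivative P).eval (Z k) + Z k *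
        ((derivative (r4cD D P)).eval (Z k) + (derivative (derivative P)).eval (Z k) * D (Z k))) *
          P.eval (Z k) - Z k * (derivative P).eval (Z k) *
          ((r4cD D P).eval (Z k) + (derivative P).eval (Z k) * D (Z k))) / (P.eval (Z k)) ^ 2 -
        ((D (Z k) * (derivative Q).eval (Z k) + Z k *
        ((derivative (r4cD D Q)).eval (Z k) + (derivative (derivative Q)).eval (Z k) * D (Z k))) *
          Q.eval (Z k) - Z k * (derivative Q).eval (Z k) *
          ((r4cD D Q).eval (Z k) + (derivative Q).eval (Z k) * D (Z k))) / (Q.eval (Z k)) ^ 2 := by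
      simp only [hθ]
      rw [map_sub, D.leibniz_div, D.leibniz_div, D.leibniz, D.leibniz, r4_D_eval D P, r4_D_eval D Q,
        r4_D_eval D (derivative P), r4_D_eval D (derivative Q), r4cD_derivative, r4cD_derivative]
      have h1 := hPne k
      have h2 := hQne k
      simp only [smul_eq_mul]
      field_simp
      ring
    rw [h1]
    have hPDk := hPD.eval (hZY k)
    have hPD'k := hPD.derivative.eval (hZY k)
    have hQDk := hQD.eval (hZY k)
    have hQD'k := hQD.derivative.eval (hZY k)
    have h2 := (((((hδ.mul (hP'r k)).add ((hZY k).mul (hPD'k.add ((hP''r k).mul hδ)))).mul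
      (hPr k)).sub (((hZY k).mul (hP'r k)).mul (hPDk.add ((hP'r k).mul hδ)))).div
      ((hPr k).pow 2) (pow_ne_zero _ (pow_ne_zero _ hYk))).sub
      (((((hδ.mul (hQ'r k)).add ((hZY k).mul (hQD'k.add ((hQ''r k).mul hδ)))).mul
      (hQr k)).sub (((hZY k).mul (hQ'r k)).mul (hQDk.add ((hQ'r k).mul hδ)))).div
      ((hQr k).pow 2) (pow_ne_zero _ one_ne_zero))
    refine h2.eq rfl ?_
    rw [← r4_gF]
    have e1 : Y k ^ d = Y k * (Y k * Y k ^ (d - 1 - 1)) := by
      rw [← pow_succ', ← pow_succ']
      congr 1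
      omega
    have e2 : Y k ^ (d - 1) = Y k * Y k ^ (d - 1 - 1) := by
      rw [← pow_succ']
      congr 1
      omega
    have e3 : (((d - 1 : ℕ) : κ)) = (d : κ) - 1 := by
      rw [Nat.cast_sub (by omega)]
      simp
    rw [e1, e2, e3]
    have h3 : Y k ^ (d - 1 - 1) ≠ 0 := pow_ne_zero _ hYk
    field_simp
    ring
  -- the multiplier
  have hder : ∀ k, derivAt P Q (Z k) = θ k * (Z (k + 1) / Z k) := by
    intro k
    rw [hZs]
    have h1 := hPne k
    have h2 := hQne k
    have h3 := hZ0 k
    simp only [derivAt, hθ]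
    field_simp
  have hmult : mult P Q n z = ∏ k ∈ Finset.range n, θ k := by
    have h1 : mult P Q n z = ∏ k ∈ Finset.range n, (θ k * (Z (k + 1) / Z k)) := by
      refine Finset.prod_congr rfl fun k _ => ?_
      exact hder k
    rw [h1, Finset.prod_mul_distrib]
    have h2 : ∀ m, ∏ k ∈ Finset.range m, (Z (k + 1) / Z k) = Z m / Z 0 := by
      intro m
      induction m with
      | zero => rw [Finset.prod_range_zero, div_self (hZ0 0)]
      | succ m ih =>
        rw [Finset.prod_range_succ, ih]
        have h3 := hZ0 m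
        have h4 := hZ0 0
        field_simp
    rw [h2 n, hZn, div_self (hZ0 0), mul_one]
  refine ⟨?_, ?_⟩
  · rw [hmult]
    exact Finset.prod_ne_zero_iff.2 (fun k _ => hθ0 k)
  · rw [hmult, r4_D_prod D θ n hθ0]
    have h1 := Pl.red_sum (p := p) (Finset.range n) (x := fun k => D (θ k) / θ k)
      (y := fun k => gF d α β (Y k) / (d : κ)) (fun k _ => (hDθ k).div (hθr k) hdκ)
    refine h1.eq rfl ?_
    rw [Finset.mul_sum]
    refine Finset.sum_congr rfl fun k _ => ?_
    rw [div_eq_inv_mul]

end Pool.Agent.LenSpec
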