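import Pool.Agent.LenSpec.Stmt

/-!
Module Q1: the coordinates `t`, `s` of the generic map.
-/

namespace Pool.Agent.LenSpec

open Polynomial

namespace Q1

/-- a finite family that generates a field over which an algebraically independent family of the
same length is algebraic is algebraically independent -/
theorem indep_of_alg {F K : Type} [Field F] [Field K] [Algebra F K] {ι : Type} [Finite ι]
    {x y : ι → K} (hx : AlgebraicIndependent F x)
    (h : ∀ i, IsAlgebraic (Algebra.adjoin F (Set.range y)) (x i)) :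
    AlgebraicIndependent F y := by
  classical
  have hxi : (AlgebraicIndependent.matroid F K).Indep (Set.range x) :=
    AlgebraicIndependent.matroid_indep_iff.2 hx.to_subtype_range
  have hsub : Set.range x ⊆ (AlgebraicIndependent.matroid F K).closure (Set.range y) := by
    rw [AlgebraicIndependent.matroid_closure_eq]
    rintro _ ⟨i, rfl⟩
    exact h i
  have h1 : (AlgebraicIndependent.matroid F K).eRk (Set.range x) ≤
      (AlgebraicIndependent.matroid F K).eRk (Set.range y) := by
    rw [← Matroid.eRk_closure_eq _ (Set.range y)]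
    exact Matroid.eRk_mono _ hsub
  have h2 := hxi.eRk_eq_encard
  have h3 : (Set.range x).encard = ENat.card ι := by
    rw [← Set.image_univ, hx.injective.encard_image, Set.encard_univ]
  have h4 : (Set.range y).encard ≤ ENat.card ι := by
    rw [← Set.image_univ, ← Set.encard_univ]
    exact Set.encard_image_le _ _
  have h5 := Matroid.eRk_le_encard (AlgebraicIndependent.matroid F K) (Set.range y)
  have h6 : (Set.range y).encard = ENat.card ι :=
    le_antisymm h4 (by rw [← h3, ← h2]; exact h1.trans h5)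
  have h7 : (AlgebraicIndependent.matroid F K).Indep (Set.range y) := by
    rw [Matroid.indep_iff_eRk_eq_encard_of_finite (Set.finite_range y)]
    refine le_antisymm h5 ?_
    rw [h6, ← h3, ← h2]
    exact h1
  have h8 : Function.Injective y := by
    have h9 : (Set.range y).ncard = Nat.card ι := by
      rw [Set.ncard, h6]
      rfl
    have h10 : Set.InjOn y Set.univ := by
      apply Set.injOn_of_ncard_image_eq _ Set.finite_univ
      rw [Set.image_univ, h9, Set.ncard_univ]
    exact fun a b hab => h10 (Set.mem_univ a) (Set.mem_univ b) hab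
  exact (algebraicIndependent_subtype_range h8).1 (AlgebraicIndependent.matroid_indep_iff.1 h7)

/-- an algebraically closed field over which two of the elements form a transcendence basis and
that contains the other elements -/
theorem exists_field {K : Type} [Field K] [IsAlgClosed K] [CharZero K] {ι : Type} (y : ι → K)
    (hy : AlgebraicIndependent ℚ y) (i₀ i₁ : ι) (h01 : i₀ ≠ i₁) :
    ∃ F : IntermediateField ℚ K, IsAlgClosed F ∧ (∀ i, i ≠ i₀ → i ≠ i₁ → y i ∈ F) ∧
      AlgebraicIndependent F ![y i₀, y i₁] ∧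
      ∀ L : IntermediateField F K, y i₀ ∈ L → y i₁ ∈ L → ∀ x : K, IsAlgebraic L x := by
  classical
  obtain ⟨B, hB1, hB2⟩ := exists_isTranscendenceBasis_superset (s := Set.range y)
    hy.to_subtype_range
  have hne : y i₀ ≠ y i₁ := fun h => h01 (hy.injective h)
  set B₀ : Set K := B \ {y i₀, y i₁} with hB₀
  set E : IntermediateField ℚ K := IntermediateField.adjoin ℚ B₀ with hE
  refine ⟨(algebraicClosure E K).restrictScalars ℚ, ?_, ?_, ?_, ?_⟩
  · exact (algebraicClosure.isAlgClosure E K).isAlgClosed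
  · intro i h0 h1
    have h2 : y i ∈ E := by
      apply IntermediateField.subset_adjoin
      refine ⟨hB1 ⟨i, rfl⟩, ?_⟩
      rintro (h | h)
      · exact h0 (hy.injective h)
      · exact h1 (hy.injective h)
    change y i ∈ algebraicClosure E K
    rw [mem_algebraicClosure_iff]
    exact isAlgebraic_algebraMap (⟨y i, h2⟩ : E)
  · have hd : Disjoint {b : B | (b : K) ∈ B₀} {b : B | (b : K) = y i₀ ∨ (b : K) = y i₁} := by
      rw [Set.disjoint_left]
      intro b hb hb'
      exact hb.2 hb'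
    have h1 := hB2.1.adjoin_of_disjoint hd
    have h2 : (Subtype.val : B → K) '' {b : B | (b : K) ∈ B₀} = B₀ := by
      ext z
      constructor
      · rintro ⟨b, hb, rfl⟩
        exact hb
      · intro hz
        exact ⟨⟨z, hz.1⟩, hz, rfl⟩
    rw [h2] at h1
    have m0 : y i₀ ∈ B := hB1 ⟨i₀, rfl⟩
    have m1 : y i₁ ∈ B := hB1 ⟨i₁, rfl⟩
    have h3 := h1.comp (![⟨⟨y i₀, m0⟩, Or.inl rfl⟩, ⟨⟨y i₁, m1⟩, Or.inr rfl⟩] :
      Fin 2 → {b : B | (b : K) = y i₀ ∨ (b : K) = y i₁}) (by
        intro a b hab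
        fin_cases a <;> fin_cases b <;> simp_all)
    have h4 : AlgebraicIndependent (Algebra.adjoin ℚ B₀) ![y i₀, y i₁] := by
      convert h3 using 1
      ext j
      fin_cases j <;> rfl
    have h5 : AlgebraicIndependent E ![y i₀, y i₁] :=
      IntermediateField.algebraicIndependent_adjoin_iff.2 h4
    exact h5.algebraicClosure
  · intro L hL0 hL1 x
    have h1 := hB2.isAlgebraic
    rw [Subtype.range_val] at h1
    have h2 : Algebra.adjoin ℚ B ≤ (L.restrictScalars ℚ).toSubalgebra := by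
      rw [Algebra.adjoin_le_iff]
      intro z hz
      change z ∈ L
      by_cases hz0 : z ∈ B₀
      · have h3 : z ∈ (algebraicClosure E K) := by
          rw [mem_algebraicClosure_iff]
          exact isAlgebraic_algebraMap (⟨z, IntermediateField.subset_adjoin ℚ B₀ hz0⟩ : E)
        exact L.algebraMap_mem (⟨z, h3⟩ : (algebraicClosure E K).restrictScalars ℚ)
      · have h4 : z = y i₀ ∨ z = y i₁ := by
          by_contra h5
          exact hz0 ⟨hz, h5⟩
        rcases h4 with rfl | rfl
        · exact hL0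
        · exact hL1
    let _ : Algebra (Algebra.adjoin ℚ B) L := (Subalgebra.inclusion h2).toRingHom.toAlgebra
    have : IsScalarTower (Algebra.adjoin ℚ B) L K := IsScalarTower.of_algebraMap_eq (congrFun rfl)
    exact (h1.isAlgebraic x).extendScalars (Subalgebra.inclusion_injective h2)

/-! ### scaling -/

section scale

variable {K : Type} [Field K]

theorem homComp_scale (d : ℕ) (P A B : K[X]) (a b l : K) (ha : a ≠ 0) :
    homComp d (C b * P.comp (C a⁻¹ * X)) (C (l * a) * A.comp (C a⁻¹ * X))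
      (C l * B.comp (C a⁻¹ * X)) = C (b * l ^ d) * (homComp d P A B).comp (C a⁻¹ * X) := by
  unfold homComp
  rw [sum_comp, Finset.mul_sum]
  apply Finset.sum_congr rfl
  intro i hi
  have hid : i ≤ d := Nat.lt_succ_iff.1 (Finset.mem_range.1 hi)
  rw [coeff_C_mul, comp_C_mul_X_coeff]
  simp only [mul_comp, C_comp, pow_comp]
  have h1 : l ^ d = l ^ i * l ^ (d - i) := by rw [← pow_add, Nat.add_sub_cancel' hid]
  have h2 : (a⁻¹) ^ i * a ^ i = 1 := by rw [← mul_pow, inv_mul_cancel₀ ha, one_pow]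
  have h3 : C (b * (P.coeff i * a⁻¹ ^ i)) * (C (l * a)) ^ i * (C l) ^ (d - i) =
      C (b * l ^ d) * C (P.coeff i) := by
    simp only [← C_mul, ← C_pow]
    congr 1
    rw [h1, mul_pow]
    linear_combination (b * P.coeff i * l ^ i * l ^ (d - i)) * h2
  linear_combination (A.comp (C a⁻¹ * X)) ^ i * (B.comp (C a⁻¹ * X)) ^ (d - i) * h3

theorem iter_scale (d : ℕ) (P Q : K[X]) (a b : K) (ha : a ≠ 0) (hb : b ≠ 0) (n : ℕ) :
    ∃ l : K, l ≠ 0 ∧
      (iter d (C (a * b) * P.comp (C a⁻¹ * X)) (C b * Q.comp (C a⁻¹ * X)) n).1 =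
        C (l * a) * (iter d P Q n).1.comp (C a⁻¹ * X) ∧
      (iter d (C (a * b) * P.comp (C a⁻¹ * X)) (C b * Q.comp (C a⁻¹ * X)) n).2 =
        C l * (iter d P Q n).2.comp (C a⁻¹ * X) := by
  induction n with
  | zero =>
    refine ⟨1, one_ne_zero, ?_, ?_⟩
    · simp only [iter, X_comp, one_mul, ← mul_assoc, ← C_mul]
      rw [mul_inv_cancel₀ ha, C_1, one_mul]
    · simp [iter]
  | succ n ih =>
    obtain ⟨l, hl, h1, h2⟩ := ih
    refine ⟨b * l ^ d, mul_ne_zero hb (pow_ne_zero _ hl), ?_, ?_⟩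
    · simp only [iter, h1, h2]
      rw [homComp_scale _ _ _ _ _ _ _ ha]
      congr 2
      ring
    · simp only [iter, h1, h2]
      rw [homComp_scale _ _ _ _ _ _ _ ha]

theorem noInf_scale (d : ℕ) (P Q : K[X]) (a b : K) (ha : a ≠ 0) (hb : b ≠ 0)
    (h : NoInf d P Q) :
    NoInf d (C (a * b) * P.comp (C a⁻¹ * X)) (C b * Q.comp (C a⁻¹ * X)) := by
  intro n hn
  obtain ⟨l, hl, -, h2⟩ := iter_scale d P Q a b ha hb n
  rw [h2, coeff_C_mul, comp_C_mul_X_coeff]
  exact mul_ne_zero hl (mul_ne_zero (h n hn) (pow_ne_zero _ (inv_ne_zero ha)))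

end scale

/-- comparison of coefficients -/
theorem exists_R {K : Type} [Field K] [CharZero K] (F : IntermediateField ℚ K) (d : ℕ)
    (P P₀ : K[X]) (s : K) (h : ∀ j, j ≤ d → ∃ r ∈ F, P.coeff j = P₀.coeff j + s * r)
    (hd : ∀ j, d < j → P.coeff j = P₀.coeff j) :
    ∃ R : F[X], R.natDegree ≤ d ∧ P = P₀ + C s * R.map (algebraMap F K) := by
  choose! r hr hP using h
  classical
  refine ⟨∑ j ∈ Finset.range (d + 1), C (if h : j ≤ d then (⟨r j, hr j h⟩ : F) else 0) * X ^ j,
    ?_, ?_⟩
  · apply natDegree_sum_le_of_forall_le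
    intro j hj
    exact (natDegree_C_mul_X_pow_le _ _).trans (Nat.lt_succ_iff.1 (Finset.mem_range.1 hj))
  · ext j
    rw [coeff_add, coeff_C_mul, coeff_map, finsetSum_coeff]
    simp only [coeff_C_mul_X_pow]
    by_cases hj : j ≤ d
    · rw [Finset.sum_ite_eq, if_pos (Finset.mem_range.2 (Nat.lt_succ_of_le hj)), dif_pos hj]
      exact hP j hj
    · rw [Finset.sum_ite_eq, if_neg (fun hc => hj (Nat.lt_succ_iff.1 (Finset.mem_range.1 hc))),
        map_zero, mul_zero, add_zero]
      exact hd j (not_le.1 hj)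

end Q1

open Q1 in
theorem Q1_holds (hFN : FNS) : Q1S := by
  intro K _ _ _ c d f hf
  obtain ⟨hd, hind⟩ := hf
  classical
  have hc := hind.ne_zero
  obtain ⟨u, hu⟩ : ∃ u, u = f.num.coeff 0 := ⟨_, rfl⟩
  obtain ⟨v, hv⟩ : ∃ v, v = f.num.coeff 1 := ⟨_, rfl⟩
  have hv0 : v ≠ 0 := by
    rw [hv]
    exact hc (Sum.inl (Sum.inl ⟨1, by omega⟩))
  let w : CI d ⊕ CI d → K := fun i => match i with
    | Sum.inl (Sum.inl j) => if (j : ℕ) = 0 ∨ (j : ℕ) = 1 ∨ (j : ℕ) = d then 1 else v⁻¹
    | Sum.inl (Sum.inr j) => if (j : ℕ) = 0 then 1 else v⁻¹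
    | Sum.inr _ => 1
  have hw : ∀ i, w i = 1 ∨ w i = v⁻¹ := by
    intro i
    rcases i with (j | j) | j
    · by_cases h : (j : ℕ) = 0 ∨ (j : ℕ) = 1 ∨ (j : ℕ) = d
      · left; exact if_pos h
      · right; exact if_neg h
    · by_cases h : (j : ℕ) = 0
      · left; exact if_pos h
      · right; exact if_neg h
    · left; rfl
  let y : CI d ⊕ CI d → K := fun i => w i * c.coefs f i
  let i₀ : CI d ⊕ CI d := Sum.inl (Sum.inl ⟨0, by omega⟩)
  let i₁ : CI d ⊕ CI d := Sum.inl (Sum.inl ⟨1, by omega⟩)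
  have h01 : i₀ ≠ i₁ := by
    intro h
    simp [i₀, i₁] at h
  have hy0 : y i₀ = u := by
    simp [y, w, i₀, hu, Cj.coefs, RatMap.coef]
  have hy1 : y i₁ = v := by
    simp [y, w, i₁, hv, Cj.coefs, RatMap.coef]
  have hyi : AlgebraicIndependent ℚ y := by
    apply indep_of_alg hind
    intro i
    have hmem : c.coefs f i ∈ Algebra.adjoin ℚ (Set.range y) := by
      rcases hw i with h | h
      · have h1 : y i = c.coefs f i := by simp only [y, h, one_mul]
        rw [← h1]
        exact Algebra.subset_adjoin ⟨i, rfl⟩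
      · have h1 : c.coefs f i = y i₁ * y i := by
          rw [hy1]
          simp only [y, h]
          rw [mul_inv_cancel_left₀ hv0]
        rw [h1]
        exact mul_mem (Algebra.subset_adjoin ⟨i₁, rfl⟩) (Algebra.subset_adjoin ⟨i, rfl⟩)
    exact isAlgebraic_algebraMap (⟨_, hmem⟩ : Algebra.adjoin ℚ (Set.range y))
  obtain ⟨F, hF1, hF2, hF3, hF4⟩ := exists_field y hyi i₀ i₁ h01
  rw [hy0, hy1] at hF3
  rw [hy0, hy1] at hF4
  -- the remaining elements
  have hα : f.num.coeff d ∈ F := by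
    have h1 := hF2 (Sum.inl (Sum.inl ⟨d, by omega⟩)) (by
      intro h
      simp only [i₀, Sum.inl.injEq, Fin.mk.injEq] at h
      omega) (by
      intro h
      simp only [i₁, Sum.inl.injEq, Fin.mk.injEq] at h
      omega)
    simpa [y, w, Cj.coefs, RatMap.coef] using h1
  have hβ : f.den.coeff 0 ∈ F := by
    have h1 := hF2 (Sum.inl (Sum.inr ⟨0, by omega⟩)) (by
      intro h
      simp [i₀] at h) (by
      intro h
      simp [i₁] at h)
    simpa [y, w, Cj.coefs, RatMap.coef] using h1
  have hα0 : f.num.coeff d ≠ 0 := hc (Sum.inl (Sum.inl ⟨d, by omega⟩))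
  have hβ0 : f.den.coeff 0 ≠ 0 := hc (Sum.inl (Sum.inr ⟨0, by omega⟩))
  have hσ : ∀ i, c.σ (f.coef i) ∈ F := by
    intro i
    have h1 := hF2 (Sum.inr i) (by
      intro h
      simp [i₀] at h) (by
      intro h
      simp [i₁] at h)
    simpa [y, w, Cj.coefs] using h1
  have hg : ∀ j, 2 ≤ j → j < d → v⁻¹ * f.num.coeff j ∈ F := by
    intro j hj2 hjd
    have h1 := hF2 (Sum.inl (Sum.inl ⟨j, by omega⟩)) (by
      intro h
      simp only [i₀, Sum.inl.injEq, Fin.mk.injEq] at h
      omega) (by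
      intro h
      simp only [i₁, Sum.inl.injEq, Fin.mk.injEq] at h
      omega)
    have h2 : ¬ (j = 0 ∨ j = 1 ∨ j = d) := by omega
    simpa [y, w, Cj.coefs, RatMap.coef, h2] using h1
  have hh : ∀ j, 1 ≤ j → j ≤ d → v⁻¹ * f.den.coeff j ∈ F := by
    intro j hj1 hjd
    have h1 := hF2 (Sum.inl (Sum.inr ⟨j, by omega⟩)) (by
      intro h
      simp [i₀] at h) (by
      intro h
      simp [i₁] at h)
    have h2 : ¬ (j = 0) := by omega
    simpa [y, w, Cj.coefs, RatMap.coef, h2] using h1
  obtain ⟨a', ha'⟩ := IsAlgClosed.exists_pow_nat_eq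
    ((⟨f.num.coeff d, hα⟩ : F) / ⟨f.den.coeff 0, hβ⟩) (show 0 < d - 1 by omega)
  obtain ⟨a, ha⟩ : ∃ a : K, a = a' := ⟨_, rfl⟩
  obtain ⟨b, hb⟩ : ∃ b : K, b = (f.den.coeff 0)⁻¹ := ⟨_, rfl⟩
  have haF : a ∈ F := by rw [ha]; exact a'.2
  have hbF : b ∈ F := by rw [hb]; exact F.inv_mem hβ
  have hpow : a ^ (d - 1) = f.num.coeff d * b := by
    have h1 := congrArg (algebraMap F K) ha'
    rw [map_pow, map_div₀] at h1
    rw [hb, ← div_eq_mul_inv, ha]
    exact h1
  have hb0 : b ≠ 0 := by rw [hb]; exact inv_ne_zero hβ0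
  have ha0 : a ≠ 0 := by
    intro h
    rw [h, zero_pow (by omega)] at hpow
    exact mul_ne_zero hα0 hb0 hpow.symm
  have hpow' : a * a ^ (d - 1) = a ^ d := by
    rw [← pow_succ']
    congr 1
    omega
  have hab0 : a * b ≠ 0 := mul_ne_zero ha0 hb0
  have huF : ∀ L : IntermediateField F K, a * b * u ∈ L → u ∈ L := by
    intro L hL
    have h1 : u = (a * b)⁻¹ * (a * b * u) := by
      rw [inv_mul_cancel_left₀ hab0]
    rw [h1]
    exact mul_mem (L.algebraMap_mem (⟨(a * b)⁻¹, F.inv_mem (F.mul_mem haF hbF)⟩ : F)) hL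
  have hinv : ∀ j, a⁻¹ ^ j ∈ F := fun j => pow_mem (F.inv_mem haF) j
  refine ⟨F, a, b, a * b * u, v, hF1, haF, hbF, ha0, hb0, hσ, hd, ?_, ?_, ?_, ?_, ?_, ?_⟩
  · apply indep_of_alg hF3
    intro i
    have hmem : ![u, v] i ∈ Algebra.adjoin F (Set.range ![a * b * u, v]) := by
      fin_cases i
      · have h1 : (a * b)⁻¹ * (a * b * u) ∈ Algebra.adjoin F (Set.range ![a * b * u, v]) :=
          mul_mem (Subalgebra.algebraMap_mem _
            (⟨(a * b)⁻¹, F.inv_mem (F.mul_mem haF hbF)⟩ : F)) (Algebra.subset_adjoin ⟨0, rfl⟩)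
        rw [inv_mul_cancel_left₀ hab0] at h1
        exact h1
      · exact Algebra.subset_adjoin ⟨1, rfl⟩
    exact isAlgebraic_algebraMap (⟨_, hmem⟩ : Algebra.adjoin F (Set.range ![a * b * u, v]))
  · intro x
    apply hF4
    · apply huF
      apply IntermediateField.subset_adjoin
      exact Or.inl rfl
    · apply IntermediateField.subset_adjoin
      exact Or.inr rfl
  · apply exists_R
    · intro j hj
      rw [coeff_C_mul, comp_C_mul_X_coeff, coeff_add, coeff_X_pow, coeff_C]
      rcases Nat.eq_zero_or_pos j with rfl | hj0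
      · refine ⟨0, F.zero_mem, ?_⟩
        rw [if_neg (by omega), if_pos rfl, hu]
        ring
      rcases eq_or_lt_of_le hj with rfl | hjd
      · refine ⟨0, F.zero_mem, ?_⟩
        rw [if_pos rfl, if_neg (by omega), inv_pow, ← hpow', hpow]
        field_simp
        ring
      rw [if_neg (by omega), if_neg (by omega)]
      rcases eq_or_lt_of_le (show 1 ≤ j from hj0) with rfl | hj1
      · refine ⟨b, hbF, ?_⟩
        rw [← hv]
        field_simp
        ring
      · refine ⟨a * b * a⁻¹ ^ j * (v⁻¹ * f.num.coeff j),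
          mul_mem (mul_mem (mul_mem haF hbF) (hinv j)) (hg j hj1 hjd), ?_⟩
        field_simp
        ring
    · intro j hj
      rw [coeff_C_mul, comp_C_mul_X_coeff, coeff_add, coeff_X_pow, coeff_C,
        coeff_eq_zero_of_natDegree_lt (lt_of_le_of_lt f.num_le hj), if_neg (by omega),
        if_neg (by omega)]
      ring
  · apply exists_R
    · intro j hj
      rw [coeff_C_mul, comp_C_mul_X_coeff, coeff_one]
      rcases Nat.eq_zero_or_pos j with rfl | hj0
      · refine ⟨0, F.zero_mem, ?_⟩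
        rw [if_pos rfl, hb, pow_zero, mul_one, inv_mul_cancel₀ hβ0, mul_zero, add_zero]
      · refine ⟨b * a⁻¹ ^ j * (v⁻¹ * f.den.coeff j),
          mul_mem (mul_mem hbF (hinv j)) (hh j hj0 hj), ?_⟩
        rw [if_neg (by omega)]
        field_simp
        ring
    · intro j hj
      rw [coeff_C_mul, comp_C_mul_X_coeff, coeff_one,
        coeff_eq_zero_of_natDegree_lt (lt_of_le_of_lt f.den_le hj), if_neg (by omega)]
      ring
  · have h1 : IsCoprime (f.num.comp (C a⁻¹ * X)) (f.den.comp (C a⁻¹ * X)) :=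
      f.coprime.map (compRingHom (C a⁻¹ * X))
    have h2 : IsUnit (C (a * b) : K[X]) := isUnit_C.2 (isUnit_iff_ne_zero.2 hab0)
    have h3 : IsUnit (C b : K[X]) := isUnit_C.2 (isUnit_iff_ne_zero.2 hb0)
    rw [isCoprime_mul_unit_left_left h2, isCoprime_mul_unit_left_right h3]
    exact h1
  · apply noInf_scale _ _ _ _ _ ha0 hb0
    apply hFN K d f (by omega)
    exact hind.comp Sum.inl Sum.inl_injective

end Pool.Agent.LenSpec
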