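import Pool.Agent.LenSpec.Stmt

/-!
QD0: there is no invariant quadratic differential with simple poles for `z ^ d + t`.
-/

namespace Pool.Agent.LenSpec

open Polynomial MeasureTheory

namespace QD0Aux

lemma fin_inv (R : ℝ) :
    ∫⁻ z : ℂ, (Metric.closedBall (0 : ℂ) R).indicator (fun z => ‖z⁻¹‖ₑ) z < ⊤ := by
  rw [← Complex.lintegral_comp_polarCoord_symm]
  have h1 : ∫⁻ p in polarCoord.target, ENNReal.ofReal p.1 •
      (Metric.closedBall (0 : ℂ) R).indicator (fun z => ‖z⁻¹‖ₑ) (Complex.polarCoord.symm p) ≤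
      ∫⁻ p in polarCoord.target,
        (Set.Icc (0 : ℝ) R ×ˢ Set.Icc (-Real.pi) Real.pi).indicator (fun _ => (1 : ENNReal)) p := by
    refine setLIntegral_mono' polarCoord.open_target.measurableSet ?_
    rintro ⟨r, θ⟩ hp
    have hr : 0 < r := hp.1
    have hθ : θ ∈ Set.Ioo (-Real.pi) Real.pi := hp.2
    by_cases hR : r ≤ R
    · have hmem : Complex.polarCoord.symm (r, θ) ∈ Metric.closedBall (0 : ℂ) R := by
        rw [mem_closedBall_zero_iff, Complex.norm_polarCoord_symm, abs_of_pos hr]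
        exact hR
      have hmem2 : ((r, θ) : ℝ × ℝ) ∈ Set.Icc (0 : ℝ) R ×ˢ Set.Icc (-Real.pi) Real.pi :=
        ⟨⟨hr.le, hR⟩, ⟨hθ.1.le, hθ.2.le⟩⟩
      rw [Set.indicator_of_mem hmem, Set.indicator_of_mem hmem2]
      have hn : ‖Complex.polarCoord.symm (r, θ)‖ = r := by
        rw [Complex.norm_polarCoord_symm, abs_of_pos hr]
      have h2 : ‖(Complex.polarCoord.symm (r, θ))⁻¹‖ₑ = ENNReal.ofReal r⁻¹ := by
        rw [← ofReal_norm, norm_inv, hn]
      rw [h2, smul_eq_mul, ← ENNReal.ofReal_mul hr.le, mul_inv_cancel₀ hr.ne',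
        ENNReal.ofReal_one]
    · have hmem : Complex.polarCoord.symm (r, θ) ∉ Metric.closedBall (0 : ℂ) R := by
        rw [mem_closedBall_zero_iff, Complex.norm_polarCoord_symm, abs_of_pos hr]
        exact hR
      rw [Set.indicator_of_notMem hmem]
      simp
  refine lt_of_le_of_lt h1 ?_
  refine lt_of_le_of_lt (setLIntegral_le_lintegral _ _) ?_
  rw [lintegral_indicator (measurableSet_Icc.prod measurableSet_Icc), setLIntegral_const, one_mul]
  have : IsCompact (Set.Icc (0 : ℝ) R ×ˢ Set.Icc (-Real.pi) Real.pi) :=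
    isCompact_Icc.prod isCompact_Icc
  exact this.measure_lt_top

lemma fin_inv' (w : ℂ) (R : ℝ) : ∫⁻ z in Metric.closedBall (0 : ℂ) R, ‖(z - w)⁻¹‖ₑ < ⊤ := by
  refine lt_of_le_of_lt ?_ (fin_inv (R + ‖w‖))
  rw [← lintegral_sub_right_eq_self
    (fun z => (Metric.closedBall (0 : ℂ) (R + ‖w‖)).indicator (fun z => ‖z⁻¹‖ₑ) z) w]
  rw [← lintegral_indicator Metric.isClosed_closedBall.measurableSet]
  refine lintegral_mono ?_
  intro z
  by_cases hz : z ∈ Metric.closedBall (0 : ℂ) R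
  · have hz2 : z - w ∈ Metric.closedBall (0 : ℂ) (R + ‖w‖) := by
      rw [mem_closedBall_zero_iff] at hz ⊢
      exact (norm_sub_le z w).trans (by linarith)
    simp only [Set.indicator_of_mem hz, Set.indicator_of_mem hz2, le_refl]
  · simp only [Set.indicator_of_notMem hz, zero_le]

/-- the quadratic differential -/
noncomputable def q (Z : Finset ℂ) (ρ : ℂ → ℂ) (z : ℂ) : ℂ := ∑ w ∈ Z, ρ w * (z - w)⁻¹

lemma q_meas (Z : Finset ℂ) (ρ : ℂ → ℂ) : Measurable (q Z ρ) := by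
  unfold q
  fun_prop

lemma q_fin (Z : Finset ℂ) (ρ : ℂ → ℂ) (R : ℝ) :
    ∫⁻ z in Metric.closedBall (0 : ℂ) R, ‖q Z ρ z‖ₑ < ⊤ := by
  have h1 : ∫⁻ z in Metric.closedBall (0 : ℂ) R, ‖q Z ρ z‖ₑ ≤
      ∫⁻ z in Metric.closedBall (0 : ℂ) R, ∑ w ∈ Z, ‖ρ w‖ₑ * ‖(z - w)⁻¹‖ₑ := by
    refine lintegral_mono ?_
    intro z
    unfold q
    refine (enorm_sum_le _ _).trans ?_
    refine Finset.sum_le_sum fun w _ => ?_
    rw [enorm_mul]
  refine lt_of_le_of_lt h1 ?_
  rw [lintegral_finsetSum]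
  · refine ENNReal.sum_lt_top.2 fun w _ => ?_
    rw [lintegral_const_mul]
    · exact ENNReal.mul_lt_top enorm_lt_top (fin_inv' w R)
    · fun_prop
  · intro w _
    fun_prop

lemma ms_sum (s : Multiset ℂ) (Z : Finset ℂ) (F : ℂ → ℂ → ℂ) :
    (s.map (fun x => ∑ w ∈ Z, F w x)).sum = ∑ w ∈ Z, (s.map (F w)).sum := by
  induction s using Multiset.induction with
  | empty => simp
  | cons a s ih =>
    simp only [Multiset.map_cons, Multiset.sum_cons, ih, Finset.sum_add_distrib]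

lemma q_push (hQDa : QDaS) (d : ℕ) (t : ℂ) (Z : Finset ℂ) (ρ : ℂ → ℂ) (hd : 2 ≤ d)
    (hZ0 : ∀ w ∈ Z, w ≠ 0) (hZ : ∀ w ∈ Z, T d t w ∈ Z) (hinj : Set.InjOn (T d t) Z)
    (hρ : ∀ w ∈ Z, ρ (T d t w) * ((d : ℂ) * w ^ (d - 1)) = ρ w) (hsum : ∑ w ∈ Z, ρ w = 0)
    (y : ℂ) (hy : y ≠ t) (hyZ : y ∉ Z) :
    ((nthRoots d (y - t)).map (fun x => q Z ρ x * (((d : ℂ) * x ^ (d - 1)) ^ 2)⁻¹)).sum =
      q Z ρ y := by
  have hdC : (d : ℂ) ≠ 0 := Nat.cast_ne_zero.2 (by omega)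
  have hbij : ∀ h : ℂ → ℂ, ∑ w ∈ Z, h (T d t w) = ∑ w ∈ Z, h w := by
    intro h
    refine Finset.sum_nbij (T d t) hZ hinj ?_ (fun _ _ => rfl)
    exact Finset.surjOn_of_injOn_of_card_le (T d t) (fun w hw => hZ w hw) hinj le_rfl
  have h1 : ((nthRoots d (y - t)).map
      (fun x => q Z ρ x * (((d : ℂ) * x ^ (d - 1)) ^ 2)⁻¹)).sum =
      ∑ w ∈ Z, ((nthRoots d (y - t)).map
        (fun x => ρ w * ((x - w) * ((d : ℂ) * x ^ (d - 1)) ^ 2)⁻¹)).sum := by
    rw [← ms_sum]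
    congr 1
    apply Multiset.map_congr rfl
    intro x _
    unfold q
    rw [Finset.sum_mul]
    refine Finset.sum_congr rfl fun w _ => ?_
    rw [mul_inv, mul_assoc]
  rw [h1]
  have h2 : ∀ w ∈ Z, ((nthRoots d (y - t)).map
        (fun x => ρ w * ((x - w) * ((d : ℂ) * x ^ (d - 1)) ^ 2)⁻¹)).sum =
      ρ (T d t w) * ((y - T d t w)⁻¹ - (y - t)⁻¹) := by
    intro w hw
    rw [Multiset.sum_map_mul_left, hQDa d t w y hd (hZ0 w hw) hy
      (fun h => hyZ (h ▸ hZ w hw)), ← hρ w hw]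
    have h3 : (d : ℂ) * w ^ (d - 1) ≠ 0 := mul_ne_zero hdC (pow_ne_zero _ (hZ0 w hw))
    rw [mul_assoc, ← mul_assoc ((d : ℂ) * w ^ (d - 1)), mul_inv_cancel₀ h3, one_mul]
  rw [Finset.sum_congr rfl h2, hbij (fun u => ρ u * ((y - u)⁻¹ - (y - t)⁻¹))]
  simp only [mul_sub, Finset.sum_sub_distrib]
  rw [← Finset.sum_mul, hsum, zero_mul, sub_zero]
  rfl

lemma enorm_ms_sum (s : Multiset ℂ) (F : ℂ → ℂ) :
    ‖(s.map F).sum‖ₑ ≤ (s.map (fun x => ‖F x‖ₑ)).sum := by
  induction s using Multiset.induction with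
  | empty => simp
  | cons a s ih =>
    simp only [Multiset.map_cons, Multiset.sum_cons]
    exact (enorm_add_le _ _).trans (by gcongr)

lemma q_zero (Z : Finset ℂ) (ρ : ℂ → ℂ) (A : Set ℂ) (hA : A.Infinite)
    (h : ∀ z ∈ A, q Z ρ z = 0) : ∀ w ∈ Z, ρ w = 0 := by
  classical
  set P : ℂ[X] := ∑ w ∈ Z, C (ρ w) * ∏ u ∈ Z.erase w, (X - C u) with hP
  have hev : ∀ z, z ∉ Z → P.eval z = q Z ρ z * ∏ u ∈ Z, (z - u) := by
    intro z hz
    rw [hP, eval_finsetSum, q, Finset.sum_mul]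
    refine Finset.sum_congr rfl fun w hw => ?_
    rw [eval_mul, eval_C, eval_prod]
    simp only [eval_sub, eval_X, eval_C]
    rw [← Finset.mul_prod_erase Z _ hw]
    have hzw : z - w ≠ 0 := sub_ne_zero.2 (fun h => hz (h ▸ hw))
    rw [mul_assoc, inv_mul_cancel_left₀ hzw]
  have hP0 : P = 0 := by
    apply eq_zero_of_infinite_isRoot
    refine (hA.sdiff Z.finite_toSet).mono ?_
    intro z hz
    show P.eval z = 0
    rw [hev z hz.2, h z hz.1, zero_mul]
  intro w hw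
  have h1 : P.eval w = ρ w * ∏ u ∈ Z.erase w, (w - u) := by
    rw [hP, eval_finsetSum, Finset.sum_eq_single w]
    · rw [eval_mul, eval_C, eval_prod]
      simp only [eval_sub, eval_X, eval_C]
    · intro v _ hvw
      rw [eval_mul, eval_prod]
      simp only [eval_sub, eval_X, eval_C]
      rw [Finset.prod_eq_zero (Finset.mem_erase.2 ⟨hvw.symm, hw⟩) (sub_self w), mul_zero]
    · intro h
      exact absurd hw h
  rw [hP0, eval_zero] at h1
  rcases mul_eq_zero.1 h1.symm with h2 | h2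
  · exact h2
  · exfalso
    rw [Finset.prod_eq_zero_iff] at h2
    obtain ⟨u, hu, hwu⟩ := h2
    exact (Finset.mem_erase.1 hu).1 (sub_eq_zero.1 hwu).symm

end QD0Aux

open QD0Aux

theorem QD0_holds (hQDa : QDaS) (hQDb : QDbS) : QD0S := by
  intro d t Z ρ hd hZ0 hZ hinj hρ hsum
  set R : ℝ := 3 + ‖t‖ with hR
  have ht0 : 0 ≤ ‖t‖ := norm_nonneg t
  -- the inequality of integrals
  have hg : Measurable (fun z => ‖q Z ρ z‖ₑ) := (q_meas Z ρ).enorm
  have hball : MeasurableSet (Metric.closedBall (0 : ℂ) R) :=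
    Metric.isClosed_closedBall.measurableSet
  have h1 : ∫⁻ y in Metric.closedBall (0 : ℂ) R, ‖q Z ρ y‖ₑ ≤
      ∫⁻ y in Metric.closedBall (0 : ℂ) R, ((nthRoots d (y - t)).map
        (fun x => ‖q Z ρ x‖ₑ / ENNReal.ofReal (‖(d : ℂ) * x ^ (d - 1)‖ ^ 2))).sum := by
    refine lintegral_mono_ae ?_
    have hnull : volume ((insert t Z : Finset ℂ) : Set ℂ) = 0 :=
      (Finset.countable_toSet _).measure_zero _
    have hae : ∀ᵐ y ∂(volume.restrict (Metric.closedBall (0 : ℂ) R)),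
        y ∉ ((insert t Z : Finset ℂ) : Set ℂ) :=
      ae_restrict_of_ae (measure_eq_zero_iff_ae_notMem.1 hnull)
    filter_upwards [hae] with y hy
    have hyt : y ≠ t := by
      rintro rfl
      exact hy (by simp)
    have hyZ : y ∉ Z := by
      intro h
      exact hy (by simp [h])
    rw [← q_push hQDa d t Z ρ hd hZ0 hZ hinj hρ hsum y hyt hyZ]
    refine (enorm_ms_sum _ _).trans ?_
    refine le_of_eq ?_
    congr 1
    apply Multiset.map_congr rfl
    intro x hx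
    have hx0 : x ≠ 0 := by
      rintro rfl
      rw [mem_nthRoots (by omega), zero_pow (by omega)] at hx
      exact hyt (sub_eq_zero.1 hx.symm)
    have hne : (d : ℂ) * x ^ (d - 1) ≠ 0 :=
      mul_ne_zero (Nat.cast_ne_zero.2 (by omega)) (pow_ne_zero _ hx0)
    have hpos : 0 < ‖(d : ℂ) * x ^ (d - 1)‖ ^ 2 := by positivity
    rw [enorm_mul, ENNReal.div_eq_inv_mul, mul_comm]
    congr 1
    rw [← ofReal_norm, norm_inv, norm_pow, ENNReal.ofReal_inv_of_pos hpos]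
  rw [hQDb d t _ _ hd hg hball] at h1
  -- the preimage is contained in a smaller ball
  have hsub : (T d t) ⁻¹' (Metric.closedBall (0 : ℂ) R) ⊆ Metric.closedBall (0 : ℂ) (R - 1) := by
    intro x hx
    rw [Set.mem_preimage, mem_closedBall_zero_iff] at hx
    rw [mem_closedBall_zero_iff]
    by_contra hcon
    push Not at hcon
    have hx1 : ‖x‖ ^ d ≤ R + ‖t‖ := by
      have h2 : x ^ d = T d t x - t := by
        unfold T
        ring
      rw [← norm_pow, h2]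
      exact (norm_sub_le _ _).trans (by linarith)
    have hx2 : (R - 1) ^ 2 < ‖x‖ ^ 2 := by
      refine pow_lt_pow_left₀ hcon (by linarith) (by norm_num)
    have hx3 : ‖x‖ ^ 2 ≤ ‖x‖ ^ d := pow_le_pow_right₀ (by linarith) hd
    nlinarith
  have h2 : ∫⁻ y in Metric.closedBall (0 : ℂ) R, ‖q Z ρ y‖ₑ ≤
      ∫⁻ y in Metric.closedBall (0 : ℂ) (R - 1), ‖q Z ρ y‖ₑ :=
    h1.trans (lintegral_mono_set hsub)
  have hball1 : MeasurableSet (Metric.closedBall (0 : ℂ) (R - 1)) :=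
    Metric.isClosed_closedBall.measurableSet
  set A : Set ℂ := Metric.closedBall (0 : ℂ) R \ Metric.closedBall (0 : ℂ) (R - 1) with hA
  have hAm : MeasurableSet A := hball.diff hball1
  have hsub2 : Metric.closedBall (0 : ℂ) (R - 1) ⊆ Metric.closedBall (0 : ℂ) R :=
    Metric.closedBall_subset_closedBall (by linarith)
  have h3 : ∫⁻ y in A, ‖q Z ρ y‖ₑ = 0 := by
    have h4 : ∫⁻ y in Metric.closedBall (0 : ℂ) R, ‖q Z ρ y‖ₑ =
        (∫⁻ y in Metric.closedBall (0 : ℂ) (R - 1), ‖q Z ρ y‖ₑ) + ∫⁻ y in A, ‖q Z ρ y‖ₑ := by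
      rw [← lintegral_union hAm Set.disjoint_sdiff_right, hA, Set.union_sdiff_cancel hsub2]
    rw [h4] at h2
    have hfin := (q_fin Z ρ (R - 1)).ne
    by_contra hne
    exact absurd h2 (not_le.2 (ENNReal.lt_add_right hfin hne))
  rw [setLIntegral_eq_zero_iff hAm hg] at h3
  have h5 : ∀ᵐ y ∂volume, y ∈ A → q Z ρ y = 0 := by
    filter_upwards [h3] with y hy hyA
    simpa using hy hyA
  apply q_zero Z ρ {y | y ∈ A ∧ q Z ρ y = 0}
  · intro hfin
    have h6 : volume A = 0 := by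
      have h7 : A ⊆ {y | y ∈ A ∧ q Z ρ y = 0} ∪ {y | ¬ (y ∈ A → q Z ρ y = 0)} := by
        intro y hy
        by_cases hq : q Z ρ y = 0
        · exact Or.inl ⟨hy, hq⟩
        · right
          intro h
          exact hq (h hy)
      refine measure_mono_null h7 (measure_union_null (hfin.measure_zero _) ?_)
      exact ae_iff.1 h5
    -- the annulus contains a ball
    have h8 : Metric.ball ((R - 1 / 2 : ℝ) : ℂ) (1 / 4) ⊆ A := by
      intro z hz
      rw [Metric.mem_ball, dist_eq_norm] at hz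
      have hn : ‖((R - 1 / 2 : ℝ) : ℂ)‖ = R - 1 / 2 := by
        rw [Complex.norm_real, Real.norm_eq_abs, abs_of_nonneg (by linarith)]
      have h9 : ‖z‖ ≤ ‖z - ((R - 1 / 2 : ℝ) : ℂ)‖ + ‖((R - 1 / 2 : ℝ) : ℂ)‖ := by
        simpa using norm_add_le (z - ((R - 1 / 2 : ℝ) : ℂ)) ((R - 1 / 2 : ℝ) : ℂ)
      have h10 : ‖((R - 1 / 2 : ℝ) : ℂ)‖ ≤ ‖z‖ + ‖z - ((R - 1 / 2 : ℝ) : ℂ)‖ := by
        have := norm_sub_le z (z - ((R - 1 / 2 : ℝ) : ℂ))
        simpa using this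
      refine ⟨?_, ?_⟩
      · rw [mem_closedBall_zero_iff]
        linarith
      · rw [mem_closedBall_zero_iff]
        push Not
        linarith
    have h11 : volume (Metric.ball ((R - 1 / 2 : ℝ) : ℂ) (1 / 4)) = 0 := measure_mono_null h8 h6
    exact absurd h11 (Metric.measure_ball_pos volume _ (by norm_num)).ne'
  · intro z hz
    exact hz.2

end Pool.Agent.LenSpec
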