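import Pool.Agent.LenSpec.Stmt

/-!
QDb: change of variables for `z ^ d + t`.
-/

namespace Pool.Agent.LenSpec

open Polynomial MeasureTheory

namespace QDbAux

/-- the slit plane translated by `t` -/
def slit (t : ℂ) : Set ℂ := {y | y - t ∈ Complex.slitPlane}

lemma isOpen_slit (t : ℂ) : IsOpen (slit t) :=
  Complex.isOpen_slitPlane.preimage (continuous_id.sub continuous_const)

/-- the branch `ω * (y - t) ^ (1 / d)` -/
noncomputable def br (d : ℕ) (t ω : ℂ) (y : ℂ) : ℂ := ω * (y - t) ^ ((d : ℂ)⁻¹)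

lemma br_pow {d : ℕ} (hd : d ≠ 0) (t ω y : ℂ) (hω : ω ^ d = 1) :
    T d t (br d t ω y) = y := by
  unfold T br
  rw [mul_pow, hω, Complex.cpow_nat_inv_pow _ hd]
  ring

lemma br_ne {d : ℕ} (hd : d ≠ 0) (t ω y : ℂ) (hω : ω ^ d = 1) (hy : y ∈ slit t) :
    br d t ω y ≠ 0 := by
  intro h
  have h1 := br_pow hd t ω y hω
  rw [h] at h1
  unfold T at h1
  rw [zero_pow hd, zero_add] at h1
  have h2 : y - t ∈ Complex.slitPlane := hy
  rw [← h1, sub_self] at h2
  exact Complex.zero_notMem_slitPlane h2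

lemma br_cont {d : ℕ} (t ω y : ℂ) (hy : y ∈ slit t) :
    ContinuousAt (br d t ω) y := by
  unfold br
  refine continuousAt_const.mul ?_
  exact ContinuousAt.cpow (continuousAt_id.sub continuousAt_const) continuousAt_const hy

lemma br_deriv {d : ℕ} (hd : d ≠ 0) (t ω y : ℂ) (hω : ω ^ d = 1) (hy : y ∈ slit t) :
    HasDerivAt (br d t ω) ((d : ℂ) * br d t ω y ^ (d - 1))⁻¹ y := by
  have hf : HasDerivAt (fun x : ℂ => x ^ d + t) ((d : ℂ) * br d t ω y ^ (d - 1))
      (br d t ω y) := (hasDerivAt_pow d _).add_const t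
  refine HasDerivAt.of_local_left_inverse (f := fun x : ℂ => x ^ d + t) (br_cont t ω y hy) hf ?_
    (Filter.Eventually.of_forall fun z => br_pow hd t ω z hω)
  exact mul_ne_zero (Nat.cast_ne_zero.2 hd) (pow_ne_zero _ (br_ne hd t ω y hω hy))

/-- multiplication by `c` as a real linear map -/
noncomputable def mulR (c : ℂ) : ℂ →L[ℝ] ℂ :=
  (ContinuousLinearMap.toSpanSingleton ℂ c).restrictScalars ℝ

lemma det_mulR (c : ℂ) : (mulR c).det = ‖c‖ ^ 2 := by
  have h1 : ((mulR c : ℂ →L[ℝ] ℂ) : ℂ →ₗ[ℝ] ℂ) = LinearMap.mulLeft ℝ c := by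
    ext x
    all_goals simp [mulR, mul_comm]
  have h2 : (mulR c).det = LinearMap.det (LinearMap.mulLeft ℝ c) := by
    rw [ContinuousLinearMap.det, h1]
  rw [h2]
  have h3 : LinearMap.det (LinearMap.mulLeft ℝ c) = Algebra.norm ℝ c := by
    rw [Algebra.norm_apply]
    rfl
  rw [h3, Algebra.norm_complex_apply, Complex.normSq_eq_norm_sq]

lemma br_fderiv {d : ℕ} (hd : d ≠ 0) (t ω y : ℂ) (hω : ω ^ d = 1) (hy : y ∈ slit t) :
    HasFDerivAt (br d t ω) (mulR (((d : ℂ) * br d t ω y ^ (d - 1))⁻¹)) y :=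
  (br_deriv hd t ω y hω hy).hasFDerivAt.restrictScalars ℝ

lemma br_inj {d : ℕ} (hd : d ≠ 0) (t ω : ℂ) (hω : ω ^ d = 1) : Function.Injective (br d t ω) := by
  intro y z h
  rw [← br_pow hd t ω y hω, ← br_pow hd t ω z hω, h]

lemma br_meas (d : ℕ) (t ω : ℂ) : Measurable (br d t ω) := by
  unfold br
  fun_prop

lemma change {d : ℕ} (hd : d ≠ 0) (t ω : ℂ) (hω : ω ^ d = 1) (g : ℂ → ENNReal) (E : Set ℂ)
    (hE : MeasurableSet E) :
    ∫⁻ y in E ∩ slit t, g (br d t ω y) /
      ENNReal.ofReal (‖(d : ℂ) * br d t ω y ^ (d - 1)‖ ^ 2) =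
    ∫⁻ x in br d t ω '' (E ∩ slit t), g x := by
  have hs : MeasurableSet (E ∩ slit t) := hE.inter (isOpen_slit t).measurableSet
  rw [lintegral_image_eq_lintegral_abs_det_fderiv_mul volume hs
    (f' := fun y => mulR (((d : ℂ) * br d t ω y ^ (d - 1))⁻¹))
    (fun y hy => (br_fderiv hd t ω y hω hy.2).hasFDerivWithinAt)
    ((br_inj hd t ω hω).injOn)]
  refine setLIntegral_congr_fun hs ?_
  intro y hy
  have hne : (d : ℂ) * br d t ω y ^ (d - 1) ≠ 0 :=
    mul_ne_zero (Nat.cast_ne_zero.2 hd) (pow_ne_zero _ (br_ne hd t ω y hω hy.2))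
  have hpos : 0 < ‖(d : ℂ) * br d t ω y ^ (d - 1)‖ ^ 2 := by positivity
  simp only [det_mulR]
  rw [norm_inv, inv_pow, abs_of_pos (inv_pos.2 hpos), ENNReal.ofReal_inv_of_pos hpos,
    ENNReal.div_eq_inv_mul]

lemma null_line (c : ℂ) : volume (Set.range (fun r : ℝ => (r : ℂ) * c)) = 0 := by
  have h1 : Set.range (fun r : ℝ => (r : ℂ) * c) = ((ℝ ∙ c : Submodule ℝ ℂ) : Set ℂ) := by
    ext z
    simp only [Set.mem_range, SetLike.mem_coe, Submodule.mem_span_singleton, Complex.real_smul]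
  rw [h1]
  refine Measure.addHaar_submodule volume _ ?_
  intro h
  have h2 : Module.finrank ℝ (ℝ ∙ c : Submodule ℝ ℂ) ≤ 1 := by
    calc Module.finrank ℝ (ℝ ∙ c : Submodule ℝ ℂ) ≤ ({c} : Set ℂ).toFinset.card :=
          finrank_span_le_card _
      _ = 1 := by simp
  rw [h, finrank_top, Complex.finrank_real_complex] at h2
  omega

lemma null_slit {d : ℕ} (hd : d ≠ 0) (t : ℂ) : volume {x : ℂ | T d t x ∉ slit t} = 0 := by
  have hsub : {x : ℂ | T d t x ∉ slit t} ⊆
      (⋃ η ∈ (nthRoots d (-1 : ℂ)).toFinset, Set.range (fun r : ℝ => (r : ℂ) * η)) ∪ {0} := by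
    intro x hx
    by_cases hx0 : x = 0
    · right
      exact hx0
    left
    have hx1 : x ^ d ∉ Complex.slitPlane := by
      intro h
      apply hx
      show x ^ d + t - t ∈ Complex.slitPlane
      rw [add_sub_cancel_right]
      exact h
    rw [Complex.mem_slitPlane_iff] at hx1
    push Not at hx1
    obtain ⟨hre, him⟩ := hx1
    have hnx : (‖x‖ : ℂ) ≠ 0 := by
      simpa using hx0
    have h1 : x ^ d = (((x ^ d).re : ℝ) : ℂ) := by
      apply Complex.ext
      · simp
      · simpa using him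
    have h2 : (x ^ d).re = - ‖x‖ ^ d := by
      have h3 : ‖x ^ d‖ = ‖x‖ ^ d := norm_pow x d
      rw [h1, Complex.norm_real, Real.norm_eq_abs, abs_of_nonpos hre] at h3
      linarith
    have h4 : (x / ‖x‖) ^ d = -1 := by
      rw [div_pow, h1, h2, div_eq_iff (pow_ne_zero _ hnx)]
      push_cast
      ring
    have h5 : x / ‖x‖ ∈ (nthRoots d (-1 : ℂ)).toFinset := by
      rw [Multiset.mem_toFinset, mem_nthRoots (Nat.pos_of_ne_zero hd)]
      exact h4
    refine Set.mem_biUnion h5 ⟨‖x‖, ?_⟩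
    simp only
    field_simp
  refine measure_mono_null hsub ?_
  refine measure_union_null ?_ (by simp)
  refine (measure_biUnion_null_iff (Finset.countable_toSet _)).2 ?_
  intro η _
  exact null_line η

end QDbAux

open QDbAux

theorem QDb_holds : QDbS := by
  intro d t g E hd hg hE
  have hd0 : d ≠ 0 := by omega
  set ζ : ℂ := Complex.exp (2 * Real.pi * Complex.I / d) with hζdef
  have hζ : IsPrimitiveRoot ζ d := Complex.isPrimitiveRoot_exp d hd0
  have hω : ∀ k : ℕ, (ζ ^ k) ^ d = 1 := by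
    intro k
    rw [← pow_mul, mul_comm, pow_mul, hζ.pow_eq_one, one_pow]
  have hs : MeasurableSet (E ∩ slit t) := hE.inter (isOpen_slit t).measurableSet
  have hcomp : volume {y : ℂ | y ∉ slit t} = 0 := by
    have hsub : {y : ℂ | y ∉ slit t} ⊆
        (fun x : ℂ => x + t) '' Set.range (fun r : ℝ => (r : ℂ) * 1) := by
      intro y hy
      have hy1 : y - t ∉ Complex.slitPlane := hy
      rw [Complex.mem_slitPlane_iff] at hy1
      push Not at hy1
      refine ⟨y - t, ⟨(y - t).re, ?_⟩, by simp⟩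
      apply Complex.ext
      · simp
      · simpa using hy1.2.symm
    refine measure_mono_null hsub ?_
    have h1 : (fun x : ℂ => x + t) '' Set.range (fun r : ℝ => (r : ℂ) * 1) =
        (fun x : ℂ => x + (-t)) ⁻¹' Set.range (fun r : ℝ => (r : ℂ) * 1) := by
      ext z
      constructor
      · rintro ⟨x, hx, rfl⟩
        simpa using hx
      · intro hz
        exact ⟨z + (-t), hz, by simp⟩
    rw [h1, measure_preimage_add_right]
    exact null_line 1
  -- left side
  have hL : ∫⁻ y in E, ((nthRoots d (y - t)).map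
      (fun x => g x / ENNReal.ofReal (‖(d : ℂ) * x ^ (d - 1)‖ ^ 2))).sum =
      ∑ k ∈ Finset.range d, ∫⁻ y in E ∩ slit t, g (br d t (ζ ^ k) y) /
      ENNReal.ofReal (‖(d : ℂ) * br d t (ζ ^ k) y ^ (d - 1)‖ ^ 2) := by
    rw [← lintegral_finsetSum]
    · have hEE : (E : Set ℂ) =ᵐ[volume] (E ∩ slit t : Set ℂ) := by
        rw [Set.inter_comm]
        refine (inter_ae_eq_right_of_ae_eq_univ ?_).symm
        rw [ae_eq_univ]
        exact hcomp
      rw [setLIntegral_congr hEE]
      refine setLIntegral_congr_fun hs ?_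
      intro y hy
      have h1 : ((y - t) ^ ((d : ℂ)⁻¹)) ^ d = y - t := Complex.cpow_nat_inv_pow _ hd0
      simp only
      rw [hζ.nthRoots_eq h1, Multiset.map_map]
      rfl
    · intro k _
      have hb := br_meas d t (ζ ^ k)
      refine (hg.comp hb).div ?_
      fun_prop
  rw [hL]
  rw [Finset.sum_congr rfl (fun k _ => change hd0 t (ζ ^ k) (hω k) g E hE)]
  have hmeas : ∀ k ∈ Finset.range d, MeasurableSet (br d t (ζ ^ k) '' (E ∩ slit t)) := by
    intro k _
    exact hs.image_of_continuousOn_injOn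
      (fun y hy => (br_cont t (ζ ^ k) y hy.2).continuousWithinAt)
      ((br_inj hd0 t _ (hω k)).injOn)
  have hdisj : ((Finset.range d : Finset ℕ) : Set ℕ).PairwiseDisjoint
      (fun k => br d t (ζ ^ k) '' (E ∩ slit t)) := by
    intro k hk l hl hkl
    rw [Function.onFun, Set.disjoint_left]
    rintro x ⟨y, hy, hyx⟩ ⟨z, hz, hzx⟩
    have hyz : y = z := by
      rw [← br_pow hd0 t _ y (hω k), ← br_pow hd0 t _ z (hω l), hyx, hzx]
    subst hyz
    have h0 : (y - t) ^ ((d : ℂ)⁻¹) ≠ 0 := by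
      intro h0
      apply br_ne hd0 t _ y (hω k) hy.2
      unfold br
      rw [h0, mul_zero]
    have h1 : ζ ^ k = ζ ^ l := by
      have h2 : br d t (ζ ^ k) y = br d t (ζ ^ l) y := by rw [hyx, hzx]
      unfold br at h2
      exact mul_right_cancel₀ h0 h2
    apply hkl
    exact hζ.pow_inj (Finset.mem_range.1 hk) (Finset.mem_range.1 hl) h1
  rw [← lintegral_biUnion_finset hdisj hmeas]
  refine setLIntegral_congr ?_
  -- the two sets agree almost everywhere
  have hnull := null_slit hd0 t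
  have hsub1 : (⋃ k ∈ Finset.range d, br d t (ζ ^ k) '' (E ∩ slit t)) ⊆ (T d t) ⁻¹' E := by
    intro x hx
    simp only [Set.mem_iUnion] at hx
    obtain ⟨k, _, y, hy, rfl⟩ := hx
    rw [Set.mem_preimage, br_pow hd0 t _ y (hω k)]
    exact hy.1
  have hsub2 : (T d t) ⁻¹' E ⊆
      (⋃ k ∈ Finset.range d, br d t (ζ ^ k) '' (E ∩ slit t)) ∪ {x : ℂ | T d t x ∉ slit t} := by
    intro x hx
    by_cases h : T d t x ∈ slit t
    · left
      have h1 : ((T d t x - t) ^ ((d : ℂ)⁻¹)) ^ d = T d t x - t :=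
        Complex.cpow_nat_inv_pow _ hd0
      have h2 : x ∈ nthRoots d (T d t x - t) := by
        rw [mem_nthRoots (Nat.pos_of_ne_zero hd0)]
        unfold T
        ring
      rw [hζ.nthRoots_eq h1, Multiset.mem_map] at h2
      obtain ⟨k, hk, hkx⟩ := h2
      simp only [Set.mem_iUnion]
      exact ⟨k, Finset.mem_range.2 (Multiset.mem_range.1 hk), T d t x, ⟨hx, h⟩, hkx⟩
    · right
      exact h
  refine Filter.EventuallyLE.antisymm hsub1.eventuallyLE ?_
  refine (ae_le_set.2 ?_)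
  refine measure_mono_null ?_ hnull
  intro x hx
  rcases hsub2 hx.1 with h | h
  · exact absurd h hx.2
  · exact h

end Pool.Agent.LenSpec
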