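import Pool.Agent.LenSpec.GIDefs
import Pool.Agent.LenSpec.RZ

/-!
RZ2: generic maps are determined by their length spectrum, up to conjugacy and complex conjugation.
-/

namespace Pool.Agent.LenSpec

open Polynomial

theorem RZ2_holds (hMain : MainS) (hFG : FGS) (hGI : GIS) (hU1 : U1S) (hU2 : U2S) (hU3 : U3S)
    (hU4 : U4S) (hE3 : E3S) (hE4 : E4S) : RZ2S := by
  intro d hd
  by_contra hcon
  push Not at hcon
  obtain ⟨hU1a, hU1b, hU1c, ⟨hU1d⟩, c, hc⟩ := hU1
  -- enumerate the nonzero polynomials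
  have : Countable (MvPolynomial (CI d ⊕ CI d) ℚ) := by
    rw [← Cardinal.mk_le_aleph0_iff]
    refine le_trans (MvPolynomial.cardinalMk_le_max) ?_
    simp
  have : Nonempty {W : MvPolynomial (CI d ⊕ CI d) ℚ // W ≠ 0} := ⟨⟨1, one_ne_zero⟩⟩
  obtain ⟨e, he⟩ := exists_surjective_nat {W : MvPolynomial (CI d ⊕ CI d) ℚ // W ≠ 0}
  have hprod : ∀ j : ℕ, ∏ i ∈ Finset.range (j + 1), (e i).1 ≠ 0 := by
    intro j
    rw [Finset.prod_ne_zero_iff]
    intro i _
    exact (e i).2
  choose f hf g hg hbad1 hbad2 using fun j => hcon _ (hprod j)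
  have hfi : ∀ i j, i ≤ j → MvPolynomial.aeval (f j).coefs (e i).1 ≠ 0 := by
    intro i j hij h0
    apply hf j
    rw [map_prod]
    exact Finset.prod_eq_zero (Finset.mem_range.2 (Nat.lt_succ_of_le hij)) h0
  obtain ⟨F, hF⟩ := hU2 d f
  obtain ⟨G, hG⟩ := hU2 d g
  have hcoefs : ∀ i, c.coefs F i = ((fun j => (f j).coefs i : ℕ → ℂ) : HC) := by
    rintro (i | i)
    · exact hF i
    · change c.σ (F.coef i) = _
      rw [hF i, hc]
      rfl
  have hgen : Gen c F := by
    refine ⟨hd, ?_⟩
    rw [algebraicIndependent_iff]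
    intro p hp
    by_contra hp0
    obtain ⟨i, hi⟩ := he ⟨p, hp0⟩
    rw [rz_aeval (fun j => (f j).coefs) p _ hcoefs] at hp
    have h1 : ∀ᶠ j in (Filter.hyperfilter ℕ : Filter ℕ),
        MvPolynomial.aeval (f j).coefs p = 0 := by
      have h2 : ((fun j => MvPolynomial.aeval (f j).coefs p : ℕ → ℂ) : HC) =
          ((fun _ => 0 : ℕ → ℂ) : HC) := hp
      exact rz_germ_eq.1 h2
    have h2 : ∀ᶠ j in (Filter.hyperfilter ℕ : Filter ℕ), i ≤ j := by
      have h3 : ∀ᶠ j in Filter.cofinite, i ≤ j := by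
        rw [Nat.cofinite_eq_atTop]
        exact Filter.eventually_ge_atTop i
      exact Filter.hyperfilter_le_cofinite h3
    obtain ⟨j, hj1, hj2⟩ := (h1.and h2).exists
    apply hfi i j hj2
    rw [hi]
    exact hj1
  have hspec : ∀ n, 1 ≤ n → c.spec F n = c.spec G n := by
    intro n hn
    exact rz_spec c hc hU3 hd hn f g F G hF hG (fun j => hg j n hn)
  have hconj : MobConj F G ∨ MobConj (c.conj F) G := by
    have key : ∀ A : RatMap HC d, Gen c A → (∀ n, 1 ≤ n → G.multSpec n = A.multSpec n) →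
        MobConj A G := by
      intro A hA h
      have h1 : AlgebraicIndependent ℚ A.coef := hA.indep.comp Sum.inl Sum.inl_injective
      have h2 : ∀ x ∈ A.multSpec 1, x ≠ 1 := by
        intro x hx hx1
        have := ((hFG HC c d A hA).2 1 le_rfl x hx).1
        apply this
        rw [hx1]
        simp [Cj.nrm]
      exact hGI HC d A G hd h1 h2 (h 1 le_rfl).symm (h 2 (by norm_num)).symm
    rcases hMain HC hU1d c d F hgen G hspec with h | h
    · exact Or.inl (key F hgen h)
    · exact Or.inr (key (c.conj F) (hE4 HC c d F hgen) h)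
  have hconjF : ∀ i, (c.conj F).coef i = ((fun j => ((f j).conj).coef i : ℕ → ℂ) : HC) := by
    intro i
    rw [(hE3 HC c d F).2.2.2.2.1 i, hF i, hc]
    have : ∀ j, (f j).conj.coef i = starRingEnd ℂ ((f j).coef i) := by
      intro j
      rcases i with i | i
      · change ((f j).num.map (starRingEnd ℂ)).coeff i = _
        rw [coeff_map]
        rfl
      · change ((f j).den.map (starRingEnd ℂ)).coeff i = _
        rw [coeff_map]
        rfl
    simp only [this]
  rcases hconj with h | h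
  · obtain ⟨j, hj⟩ := hU4 d f g F G hF hG h
    exact hbad1 j hj
  · obtain ⟨j, hj⟩ := hU4 d (fun j => (f j).conj) g (c.conj F) G hconjF hG h
    exact hbad2 j hj

end Pool.Agent.LenSpec
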