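import Pool.Agent.LenSpec.A3

/-!
Degree and coprimality of the iterates.
-/

namespace Pool.Agent.LenSpec

open Polynomial

theorem a2_holds : A2S := by
  intro K _ _ d n P Q hd hP hQ hPQ hcop
  obtain ⟨h1, h2⟩ := iter_natDegree d P Q n
  have hne : ∀ v : K × K, v ≠ 0 → lift2 d P Q v ≠ 0 := by
    rintro ⟨x, y⟩ hv h0
    have h3 : hom d P x y = 0 := congrArg Prod.fst h0
    have h4 : hom d Q x y = 0 := congrArg Prod.snd h0
    by_cases hy : y = 0
    · subst hy
      have hx : x ≠ 0 := by
        rintro rfl
        exact hv rfl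
      rw [hom_zero_right] at h3 h4
      have hxd : x ^ d ≠ 0 := pow_ne_zero _ hx
      have h5 := (mul_eq_zero.1 h3).resolve_right hxd
      have h6 := (mul_eq_zero.1 h4).resolve_right hxd
      rcases hPQ with h | h
      · rw [← h] at h5
        have h7 : P = 0 := leadingCoeff_eq_zero.1 h5
        rw [h7, natDegree_zero] at h
        omega
      · rw [← h] at h6
        have h7 : Q = 0 := leadingCoeff_eq_zero.1 h6
        rw [h7, natDegree_zero] at h
        omega
    · rw [hom_of_ne hP x hy] at h3
      rw [hom_of_ne hQ x hy] at h4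
      have hyd : y ^ d ≠ 0 := pow_ne_zero _ hy
      have h5 := (mul_eq_zero.1 h3).resolve_left hyd
      have h6 := (mul_eq_zero.1 h4).resolve_left hyd
      obtain ⟨a, b, hab⟩ := hcop
      have h7 := congrArg (eval (x / y)) hab
      rw [eval_add, eval_mul, eval_mul, h5, h6, mul_zero, mul_zero, add_zero, eval_one] at h7
      exact zero_ne_one h7
  have hne' : ∀ v : K × K, v ≠ 0 → (lift2 d P Q)^[n] v ≠ 0 := by
    intro v hv
    clear h1 h2
    induction n with
    | zero => exact hv
    | succ n ih =>
      rw [Function.iterate_succ', Function.comp_apply]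
      exact hne _ ih
  refine ⟨h1, h2, ?_, ?_⟩
  · have h3 := hne' (1, 0) (by simp)
    rw [lift2_iterate, hom_zero_right, hom_zero_right, one_pow, mul_one, mul_one] at h3
    by_contra h4
    push Not at h4
    apply h3
    rw [coeff_eq_zero_of_natDegree_lt (lt_of_le_of_ne h1 h4.1),
      coeff_eq_zero_of_natDegree_lt (lt_of_le_of_ne h2 h4.2)]
    rfl
  · rw [Polynomial.isCoprime_iff_aeval_ne_zero_of_isAlgClosed K K]
    intro z
    have h3 := hne' (z, 1) (by simp)
    rw [lift2_iterate, hom_one_right h1, hom_one_right h2] at h3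
    by_contra h4
    push Not at h4
    apply h3
    rw [coe_aeval_eq_eval] at h4
    rw [h4.1, h4.2]
    rfl

end Pool.Agent.LenSpec
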