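import Pool.Agent.LenSpec.Stmt

/-!
Iterates of the map on `K × K`.
-/

namespace Pool.Agent.LenSpec

open Polynomial

section hom

variable {K : Type} [Field K]

theorem hom_of_ne {D : ℕ} {A : K[X]} (hA : A.natDegree ≤ D) (x : K) {y : K} (hy : y ≠ 0) :
    hom D A x y = y ^ D * A.eval (x / y) := by
  rw [hom, eval_eq_sum_range' (Nat.lt_succ_of_le hA), Finset.mul_sum]
  refine Finset.sum_congr rfl (fun i hi => ?_)
  have hid : i ≤ D := Nat.lt_succ_iff.1 (Finset.mem_range.1 hi)
  rw [div_pow]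
  have h1 : y ^ D = y ^ i * y ^ (D - i) := by
    rw [← pow_add]
    congr 1
    omega
  rw [h1]
  field_simp

theorem hom_zero_right (D : ℕ) (A : K[X]) (x : K) : hom D A x 0 = A.coeff D * x ^ D := by
  rw [hom, Finset.sum_range_succ]
  rw [Finset.sum_eq_zero]
  · simp
  · intro i hi
    have hid : i < D := Finset.mem_range.1 hi
    rw [zero_pow (by omega), mul_zero]

theorem hom_one_right {D : ℕ} {A : K[X]} (hA : A.natDegree ≤ D) (x : K) :
    hom D A x 1 = A.eval x := by
  rw [hom_of_ne hA x one_ne_zero]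
  simp

theorem hom_mul {D E : ℕ} {A B : K[X]} (hA : A.natDegree ≤ D) (hB : B.natDegree ≤ E) (x y : K) :
    hom (D + E) (A * B) x y = hom D A x y * hom E B x y := by
  have hAB : (A * B).natDegree ≤ D + E := natDegree_mul_le_of_le hA hB
  by_cases hy : y = 0
  · subst hy
    rw [hom_zero_right, hom_zero_right, hom_zero_right, coeff_mul_add_eq_of_natDegree_le hA hB]
    ring
  · rw [hom_of_ne hAB x hy, hom_of_ne hA x hy, hom_of_ne hB x hy, eval_mul]
    ring

theorem hom_pow {D : ℕ} {A : K[X]} (hA : A.natDegree ≤ D) (i : ℕ) (x y : K) :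
    hom (i * D) (A ^ i) x y = (hom D A x y) ^ i := by
  induction i with
  | zero =>
    rw [pow_zero, pow_zero, Nat.zero_mul, hom]
    simp
  | succ i ih =>
    have h1 : (A ^ i).natDegree ≤ i * D := natDegree_pow_le_of_le i hA
    rw [pow_succ, pow_succ, Nat.succ_mul, hom_mul h1 hA, ih]

theorem hom_C_mul (D : ℕ) (a : K) (A : K[X]) (x y : K) :
    hom D (C a * A) x y = a * hom D A x y := by
  rw [hom, hom, Finset.mul_sum]
  refine Finset.sum_congr rfl (fun i _ => ?_)
  rw [coeff_C_mul]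
  ring

theorem hom_sum (D : ℕ) {ι : Type*} (s : Finset ι) (A : ι → K[X]) (x y : K) :
    hom D (∑ i ∈ s, A i) x y = ∑ i ∈ s, hom D (A i) x y := by
  simp only [hom, finsetSum_coeff, Finset.sum_mul]
  rw [Finset.sum_comm]

theorem homComp_natDegree {d D : ℕ} (P : K[X]) {A B : K[X]} (hA : A.natDegree ≤ D)
    (hB : B.natDegree ≤ D) : (homComp d P A B).natDegree ≤ d * D := by
  rw [homComp]
  apply natDegree_sum_le_of_forall_le
  intro i hi
  have hid : i ≤ d := Nat.lt_succ_iff.1 (Finset.mem_range.1 hi)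
  have h1 : (A ^ i).natDegree ≤ i * D := natDegree_pow_le_of_le i hA
  have h2 : (B ^ (d - i)).natDegree ≤ (d - i) * D := natDegree_pow_le_of_le (d - i) hB
  have h3 : (C (P.coeff i) * A ^ i).natDegree ≤ i * D :=
    (natDegree_C_mul_le _ _).trans h1
  have h4 : i * D + (d - i) * D = d * D := by
    rw [← Nat.add_mul]
    congr 1
    omega
  rw [← h4]
  exact natDegree_mul_le_of_le h3 h2

theorem hom_homComp {d D : ℕ} (P : K[X]) {A B : K[X]} (hA : A.natDegree ≤ D)
    (hB : B.natDegree ≤ D) (x y : K) :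
    hom (d * D) (homComp d P A B) x y = hom d P (hom D A x y) (hom D B x y) := by
  rw [homComp, hom_sum]
  conv_rhs => rw [hom]
  refine Finset.sum_congr rfl (fun i hi => ?_)
  have hid : i ≤ d := Nat.lt_succ_iff.1 (Finset.mem_range.1 hi)
  have h1 : (A ^ i).natDegree ≤ i * D := natDegree_pow_le_of_le i hA
  have h2 : (B ^ (d - i)).natDegree ≤ (d - i) * D := natDegree_pow_le_of_le (d - i) hB
  have h4 : d * D = i * D + (d - i) * D := by
    rw [← Nat.add_mul]
    congr 1
    omega
  rw [mul_assoc, hom_C_mul, h4, hom_mul h1 h2, hom_pow hA, hom_pow hB]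
  ring

theorem iter_natDegree (d : ℕ) (P Q : K[X]) (n : ℕ) :
    (iter d P Q n).1.natDegree ≤ d ^ n ∧ (iter d P Q n).2.natDegree ≤ d ^ n := by
  induction n with
  | zero => simp [iter]
  | succ n ih =>
    rw [iter, pow_succ']
    exact ⟨homComp_natDegree P ih.1 ih.2, homComp_natDegree Q ih.1 ih.2⟩

theorem lift2_iterate (d : ℕ) (P Q : K[X]) (n : ℕ) (v : K × K) :
    (lift2 d P Q)^[n] v =
      (hom (d ^ n) (iter d P Q n).1 v.1 v.2, hom (d ^ n) (iter d P Q n).2 v.1 v.2) := by
  induction n with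
  | zero =>
    simp [iter, hom, coeff_one, coeff_X]
  | succ n ih =>
    obtain ⟨h1, h2⟩ := iter_natDegree d P Q n
    rw [Function.iterate_succ', Function.comp_apply, ih, iter, pow_succ', lift2,
      hom_homComp P h1 h2, hom_homComp Q h1 h2]

end hom

theorem a3_holds : A3S := by
  intro K _ d n P Q v _
  exact lift2_iterate d P Q n v

end Pool.Agent.LenSpec
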