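import Pool.Agent.LenSpec.Stmt

/-!
Module A4: the roots of `fixPoly` are the periodic points.
-/

namespace Pool.Agent.LenSpec

open Polynomial

section

variable {K : Type} [Field K]

theorem a4_hom_smul (d : ℕ) (P : K[X]) (c x y : K) :
    hom d P (c * x) (c * y) = c ^ d * hom d P x y := by
  unfold hom
  rw [Finset.mul_sum]
  refine Finset.sum_congr rfl fun i hi => ?_
  have h : i ≤ d := Nat.lt_succ_iff.1 (Finset.mem_range.1 hi)
  have e : c ^ d = c ^ i * c ^ (d - i) := by rw [← pow_add, Nat.add_sub_cancel' h]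
  rw [mul_pow, mul_pow, e]
  ring

theorem a4_hom_one (d : ℕ) (P : K[X]) (hP : P.natDegree ≤ d) (z : K) :
    hom d P z 1 = P.eval z := by
  unfold hom
  rw [eval_eq_sum_range' (Nat.lt_succ_iff.2 hP)]
  refine Finset.sum_congr rfl fun i _ => ?_
  rw [one_pow, mul_one]

theorem a4_hom_zero (d : ℕ) (P : K[X]) (a : K) : hom d P a 0 = P.coeff d * a ^ d := by
  unfold hom
  rw [Finset.sum_range_succ, Nat.sub_self, pow_zero, mul_one, Finset.sum_eq_zero, zero_add]
  intro i hi
  have := Finset.mem_range.1 hi
  rw [zero_pow (by omega), mul_zero]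

theorem a4_lift2_smul (d : ℕ) (P Q : K[X]) (c x y : K) :
    lift2 d P Q (c * x, c * y) =
      (c ^ d * (lift2 d P Q (x, y)).1, c ^ d * (lift2 d P Q (x, y)).2) := by
  unfold lift2
  simp only [a4_hom_smul]

theorem a4_iter_smul (d : ℕ) (P Q : K[X]) (m : ℕ) (c x y : K) :
    (lift2 d P Q)^[m] (c * x, c * y) =
      (c ^ (d ^ m) * ((lift2 d P Q)^[m] (x, y)).1,
        c ^ (d ^ m) * ((lift2 d P Q)^[m] (x, y)).2) := by
  induction m with
  | zero => simp
  | succ m ih =>
    rw [Function.iterate_succ_apply', ih, a4_lift2_smul, Function.iterate_succ_apply', ← pow_mul,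
      ← pow_succ]

end

theorem a4_holds (h1 : A1S) (h2 : A2S) (h3 : A3S) : A4S := by
  classical
  intro K _ _ d n f z hd hn hinf
  have d1 := fun k => h2 K d k f.num f.den hd f.num_le f.den_le f.deg_eq f.coprime
  have hcop : ∀ {A B : K[X]} (y : K), IsCoprime A B → A.eval y = 0 → B.eval y = 0 → False := by
    rintro A B y ⟨u, v, huv⟩ hA hB
    have := congrArg (eval y) huv
    rw [eval_add, eval_mul, eval_mul, hA, hB, mul_zero, mul_zero, add_zero, eval_one] at this
    exact zero_ne_one this
  have hfix : (fixPoly d f.num f.den n).eval z =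
      (iter d f.num f.den n).1.eval z - z * (iter d f.num f.den n).2.eval z := by
    unfold fixPoly
    rw [eval_sub, eval_mul, eval_X]
  rw [hfix]
  constructor
  · intro h
    have hB : (iter d f.num f.den n).2.eval z ≠ 0 := by
      intro h0
      rw [h0, mul_zero, sub_zero] at h
      exact hcop z (d1 n).2.2.2 h h0
    have hv : ∀ k, (lift2 d f.num f.den)^[k] (z, 1) =
        ((iter d f.num f.den k).1.eval z, (iter d f.num f.den k).2.eval z) := by
      intro k
      rw [h3 K d k f.num f.den (z, 1) hd]
      simp only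
      rw [a4_hom_one _ _ (d1 k).1, a4_hom_one _ _ (d1 k).2.1]
    have horb : ∀ k, f.den.eval ((ev f.num f.den)^[k] z) ≠ 0 := by
      by_contra hcon
      push Not at hcon
      set k := Nat.find hcon with hk
      have hk0 : f.den.eval ((ev f.num f.den)^[k] z) = 0 := Nat.find_spec hcon
      have hlt : ∀ j < k, f.den.eval ((ev f.num f.den)^[j] z) ≠ 0 := fun j hj =>
        Nat.find_min hcon hj
      obtain ⟨b0, b1, -⟩ := h1 K d k f.num f.den z f.num_le f.den_le hlt
      set y := (ev f.num f.den)^[k] z with hy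
      set B := (iter d f.num f.den k).2.eval z with hBdef
      have hPy : f.num.eval y ≠ 0 := fun h0 => hcop y f.coprime h0 hk0
      have e1 : (lift2 d f.num f.den)^[k + 1] (z, 1) = (B ^ d * f.num.eval y, 0) := by
        rw [Function.iterate_succ_apply', hv, b1, mul_comm y]
        have e2 : ((B * y, B) : K × K) = (B * y, B * 1) := by rw [mul_one]
        rw [e2, a4_lift2_smul]
        unfold lift2
        simp only
        rw [a4_hom_one _ _ f.num_le, a4_hom_one _ _ f.den_le, hk0, mul_zero]
      have ha : B ^ d * f.num.eval y ≠ 0 := mul_ne_zero (pow_ne_zero _ b0) hPy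
      have e3 : ((lift2 d f.num f.den)^[n + (k + 1)] (z, 1)).2 ≠ 0 := by
        rw [Function.iterate_add_apply, e1, h3 K d n f.num f.den _ hd]
        simp only
        rw [a4_hom_zero]
        exact mul_ne_zero (hinf n hn) (pow_ne_zero _ ha)
      apply e3
      rw [add_comm, Function.iterate_add_apply, hv n]
      have e4 : (iter d f.num f.den n).1.eval z = (iter d f.num f.den n).2.eval z * z := by
        rw [mul_comm]; exact sub_eq_zero.1 h
      have e5 : (((iter d f.num f.den n).2.eval z * z, (iter d f.num f.den n).2.eval z) : K × K) =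
        ((iter d f.num f.den n).2.eval z * z, (iter d f.num f.den n).2.eval z * 1) := by
        rw [mul_one]
      rw [e4, e5, a4_iter_smul, e1]
      simp
    refine ⟨horb, ?_⟩
    obtain ⟨-, b1, -⟩ := h1 K d n f.num f.den z f.num_le f.den_le fun k _ => horb k
    rw [b1, ← sub_mul] at h
    exact sub_eq_zero.1 ((mul_eq_zero.1 h).resolve_right hB)
  · rintro ⟨horb, hper⟩
    obtain ⟨-, b1, -⟩ := h1 K d n f.num f.den z f.num_le f.den_le fun k _ => horb k
    rw [b1, hper, sub_self]

end Pool.Agent.LenSpec
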