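import Pool.Agent.LenSpec.Stmt

/-!
A5 and A6: orbits of points of exact period `n`, the exact period of a periodic point.
-/

namespace Pool.Agent.LenSpec

open Polynomial

theorem A5_holds : A5S := by
  intro K _ P Q n z hn hz
  obtain ⟨⟨hQ, hper⟩, hex⟩ := hz
  set E := ev P Q with hE
  have hmul1 : ∀ u, E^[n] u = u → mult P Q n (E u) = mult P Q n u := by
    intro u hu
    unfold mult
    have h1 := Finset.prod_range_succ (fun k => derivAt P Q (E^[k] u)) n
    have h2 := Finset.prod_range_succ' (fun k => derivAt P Q (E^[k] u)) n
    have h3 := h1.symm.trans h2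
    simp only [hu, Function.iterate_zero, id] at h3
    have h4 : ∏ k ∈ Finset.range n, derivAt P Q (E^[k] (E u)) =
        ∏ k ∈ Finset.range n, derivAt P Q (E^[k + 1] u) := by
      refine Finset.prod_congr rfl fun k _ => ?_
      rw [Function.iterate_succ_apply]
    rw [← hE, h4]
    by_cases h0 : derivAt P Q u = 0
    · have h5 : ∏ k ∈ Finset.range n, derivAt P Q (E^[k + 1] u) = 0 := by
        refine Finset.prod_eq_zero (Finset.mem_range.2 (show n - 1 < n by omega)) ?_
        rw [Nat.sub_add_cancel hn, hu, h0]
      have h6 : ∏ k ∈ Finset.range n, derivAt P Q (E^[k] u) = 0 :=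
        Finset.prod_eq_zero (Finset.mem_range.2 (show 0 < n by omega)) h0
      rw [h5, h6]
    · exact (mul_right_cancel₀ h0 h3).symm
  have hperk : ∀ k, E^[n] (E^[k] z) = E^[k] z := by
    intro k
    rw [← Function.iterate_add_apply, add_comm, Function.iterate_add_apply, hper]
  have key : ∀ i j, i < j → j < n → E^[i] z ≠ E^[j] z := by
    intro i j hij hj h
    have h1 : E^[n - j] (E^[i] z) = E^[n - j] (E^[j] z) := by rw [h]
    rw [← Function.iterate_add_apply, ← Function.iterate_add_apply,
      Nat.sub_add_cancel hj.le, hper] at h1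
    exact hex (n - j + i) (by omega) (by omega) h1
  refine ⟨?_, ?_, ?_⟩
  · intro k
    refine ⟨⟨?_, hperk k⟩, ?_⟩
    · intro l
      rw [← hE, ← Function.iterate_add_apply]
      exact hQ _
    · intro m hm0 hmn h
      have h1 : E^[n * k - k] (E^[m] (E^[k] z)) = E^[n * k - k] (E^[k] z) := by rw [← hE] at h; rw [h]
      have h2 : E^[n * k - k] (E^[k] z) = z := by
        rw [← Function.iterate_add_apply, Nat.sub_add_cancel (Nat.le_mul_of_pos_left k hn),
          mul_comm]
        exact Function.IsPeriodicPt.const_mul hper k
      rw [h2, ← Function.iterate_add_apply, ← Function.iterate_add_apply,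
        show n * k - k + m + k = m + (n * k - k + k) by omega, Function.iterate_add_apply,
        Nat.sub_add_cancel (Nat.le_mul_of_pos_left k hn), mul_comm n k] at h1
      have h3 : E^[k * n] z = z := Function.IsPeriodicPt.const_mul hper k
      rw [h3] at h1
      exact hex m hm0 hmn h1
  · intro k
    induction k with
    | zero => rfl
    | succ k ih => rw [Function.iterate_succ_apply', hmul1 _ (hperk k), ih]
  · intro i hi j hj h
    rcases lt_trichotomy i j with h1 | h1 | h1
    · exact absurd h (key i j h1 hj)
    · exact h1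
    · exact absurd h.symm (key j i h1 hi)

theorem A6_holds : A6S := by
  intro K _ P Q n z hn hz
  obtain ⟨hQ, hper⟩ := hz
  set E := ev P Q with hE
  have hpt : Function.IsPeriodicPt E n z := hper
  set m := Function.minimalPeriod E z with hm
  have hm0 : 0 < m := hpt.minimalPeriod_pos hn
  have hdvd : m ∣ n := hpt.minimalPeriod_dvd
  have hmz : E^[m] z = z := Function.isPeriodicPt_minimalPeriod E z
  refine ⟨m, hdvd, hm0, ⟨⟨hQ, hmz⟩, ?_⟩, ?_⟩
  · intro k hk0 hkm
    exact Function.not_isPeriodicPt_of_pos_of_lt_minimalPeriod hk0.ne' hkm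
  · obtain ⟨q, rfl⟩ := hdvd
    rw [Nat.mul_div_cancel_left _ hm0]
    clear hn hper hpt
    induction q with
    | zero => simp [mult]
    | succ q ih =>
      have h1 : mult P Q (m * (q + 1)) z = mult P Q (m * q) z * mult P Q m z := by
        unfold mult
        rw [mul_add, mul_one, Finset.prod_range_add]
        congr 1
        refine Finset.prod_congr rfl fun k _ => ?_
        have h2 : E^[m * q + k] z = E^[k] z := by
          rw [add_comm, Function.iterate_add_apply]
          have h3 : E^[m * q] z = z := Function.IsPeriodicPt.mul_const hmz q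
          rw [h3]
        rw [← hE, h2]
      rw [h1, ih, pow_succ]

end Pool.Agent.LenSpec
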