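import Pool.Agent.LenSpec.Stmt

/-!
B1: the multiplier spectrum is invariant under affine changes of the coordinate.
-/

namespace Pool.Agent.LenSpec

open Polynomial

section b1

variable {K : Type} [Field K]

private lemma b1_homComp_sub (d : ℕ) (R S A B : K[X]) :
    homComp d (R - S) A B = homComp d R A B - homComp d S A B := by
  unfold homComp
  rw [← Finset.sum_sub_distrib]
  refine Finset.sum_congr rfl fun i _ => ?_
  rw [coeff_sub, C_sub]
  ring

private lemma b1_homComp_C_mul (d : ℕ) (c : K) (R A B : K[X]) :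
    homComp d (C c * R) A B = C c * homComp d R A B := by
  unfold homComp
  rw [Finset.mul_sum]
  refine Finset.sum_congr rfl fun i _ => ?_
  rw [coeff_C_mul, C_mul]
  ring

private lemma b1_homComp_sum {ι : Type} (d : ℕ) (s : Finset ι) (R : ι → K[X]) (A B : K[X]) :
    homComp d (∑ i ∈ s, R i) A B = ∑ i ∈ s, homComp d (R i) A B := by
  unfold homComp
  rw [Finset.sum_comm]
  refine Finset.sum_congr rfl fun i _ => ?_
  rw [finsetSum_coeff, map_sum, Finset.sum_mul, Finset.sum_mul]

private lemma b1_homComp_monomial (d j : ℕ) (hj : j ≤ d) (c : K) (A B : K[X]) :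
    homComp d (C c * X ^ j) A B = C c * A ^ j * B ^ (d - j) := by
  unfold homComp
  rw [Finset.sum_eq_single j]
  · rw [coeff_C_mul, coeff_X_pow_self, mul_one]
  · intro i _ hij
    rw [coeff_C_mul, coeff_X_pow, if_neg hij, mul_zero, C_0, zero_mul, zero_mul]
  · intro h
    exact absurd (Finset.mem_range.mpr (Nat.lt_succ_of_le hj)) h

private lemma b1_homComp_pow (d i : ℕ) (hi : i ≤ d) (a b : K) (A B : K[X]) :
    homComp d ((C a * X + C b) ^ i) A B = (C a * A + C b * B) ^ i * B ^ (d - i) := by
  have h1 : (C a * X + C b : K[X]) ^ i =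
      ∑ j ∈ Finset.range (i + 1), C (a ^ j * b ^ (i - j) * (i.choose j : K)) * X ^ j := by
    rw [add_pow]
    refine Finset.sum_congr rfl fun j _ => ?_
    rw [mul_pow, C_mul, C_mul, C_pow, C_pow, C_eq_natCast]
    ring
  rw [h1, b1_homComp_sum, add_pow, Finset.sum_mul]
  refine Finset.sum_congr rfl fun j hj => ?_
  have hj' : j ≤ i := Nat.lt_succ_iff.mp (Finset.mem_range.mp hj)
  rw [b1_homComp_monomial d j (hj'.trans hi)]
  have h2 : d - j = (i - j) + (d - i) := by omega
  rw [h2, pow_add, C_mul, C_mul, C_pow, C_pow, C_eq_natCast, mul_pow, mul_pow]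
  ring

private lemma b1_homComp_comp (d : ℕ) (P : K[X]) (hP : P.natDegree ≤ d) (a b : K)
    (A B : K[X]) :
    homComp d (P.comp (C a * X + C b)) A B = homComp d P (C a * A + C b * B) B := by
  have h1 : P.comp (C a * X + C b) =
      ∑ i ∈ Finset.range (d + 1), C (P.coeff i) * (C a * X + C b) ^ i := by
    conv_lhs => rw [P.as_sum_range_C_mul_X_pow' (Nat.lt_succ_of_le hP)]
    rw [Polynomial.sum_comp]
    refine Finset.sum_congr rfl fun i _ => ?_
    rw [mul_comp, C_comp, X_pow_comp]
  rw [h1, b1_homComp_sum]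
  unfold homComp
  refine Finset.sum_congr rfl fun i hi => ?_
  have hi' : i ≤ d := Nat.lt_succ_iff.mp (Finset.mem_range.mp hi)
  have h2 := b1_homComp_C_mul d (P.coeff i) ((C a * X + C b) ^ i) A B
  have h3 := b1_homComp_pow d i hi' a b A B
  unfold homComp at h2 h3
  rw [h2, h3]
  ring

private lemma b1_comp_homComp (d : ℕ) (P A B L : K[X]) :
    (homComp d P A B).comp L = homComp d P (A.comp L) (B.comp L) := by
  unfold homComp
  rw [Polynomial.sum_comp]
  refine Finset.sum_congr rfl fun i _ => ?_
  rw [mul_comp, mul_comp, C_comp, pow_comp, pow_comp]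

private lemma b1_iter (d : ℕ) (P Q : K[X]) (hP : P.natDegree ≤ d) (hQ : Q.natDegree ≤ d)
    (a b : K) (ha : a ≠ 0) (n : ℕ) :
    (iter d (C a⁻¹ * (P.comp (C a * X + C b) - C b * Q.comp (C a * X + C b)))
        (Q.comp (C a * X + C b)) n).1 =
      C a⁻¹ * ((iter d P Q n).1.comp (C a * X + C b) -
        C b * (iter d P Q n).2.comp (C a * X + C b)) ∧
    (iter d (C a⁻¹ * (P.comp (C a * X + C b) - C b * Q.comp (C a * X + C b)))
        (Q.comp (C a * X + C b)) n).2 = (iter d P Q n).2.comp (C a * X + C b) := by
  have haC : (C a⁻¹ : K[X]) * C a = 1 := by rw [← C_mul, inv_mul_cancel₀ ha, C_1]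
  induction n with
  | zero =>
    refine ⟨?_, ?_⟩
    · simp only [iter, X_comp, one_comp, mul_one, add_sub_cancel_right]
      rw [← mul_assoc, haC, one_mul]
    · simp only [iter, one_comp]
  | succ n ih =>
    obtain ⟨ih1, ih2⟩ := ih
    simp only [iter]
    rw [ih1, ih2]
    set A := (iter d P Q n).1
    set B := (iter d P Q n).2
    set L : K[X] := C a * X + C b with hL
    have hAB : C a * (C a⁻¹ * (A.comp L - C b * B.comp L)) + C b * B.comp L = A.comp L := by
      have : C a * (C a⁻¹ * (A.comp L - C b * B.comp L)) = A.comp L - C b * B.comp L := by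
        rw [← mul_assoc, mul_comm (C a) (C a⁻¹), haC, one_mul]
      rw [this]
      ring
    have hQ2 : homComp d (Q.comp L) (C a⁻¹ * (A.comp L - C b * B.comp L)) (B.comp L) =
        (homComp d Q A B).comp L := by
      rw [hL, b1_homComp_comp d Q hQ a b, ← hL, hAB, b1_comp_homComp]
    have hP2 : homComp d (P.comp L) (C a⁻¹ * (A.comp L - C b * B.comp L)) (B.comp L) =
        (homComp d P A B).comp L := by
      rw [hL, b1_homComp_comp d P hP a b, ← hL, hAB, b1_comp_homComp]
    refine ⟨?_, hQ2⟩
    rw [b1_homComp_C_mul, b1_homComp_sub, b1_homComp_C_mul, hP2, hQ2]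

private lemma b1_natDegree_L (a b : K) (ha : a ≠ 0) : (C a * X + C b : K[X]).natDegree = 1 :=
  natDegree_linear ha

private lemma b1_natDegree_comp (p : K[X]) (a b : K) (ha : a ≠ 0) :
    (p.comp (C a * X + C b)).natDegree = p.natDegree := by
  rw [natDegree_comp, b1_natDegree_L a b ha, mul_one]

private lemma b1_lc_comp (p : K[X]) (a b : K) (ha : a ≠ 0) :
    (p.comp (C a * X + C b)).leadingCoeff = p.leadingCoeff * a ^ p.natDegree := by
  rw [leadingCoeff_comp (by rw [b1_natDegree_L a b ha]; exact one_ne_zero),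
    leadingCoeff_linear ha]

private lemma b1_derivAt (A B : K[X]) (a b : K) (ha : a ≠ 0) (z : K) :
    derivAt (C a⁻¹ * (A.comp (C a * X + C b) - C b * B.comp (C a * X + C b)))
      (B.comp (C a * X + C b)) (a⁻¹ * (z - b)) = derivAt A B z := by
  have hz : a * (a⁻¹ * (z - b)) + b = z := by
    rw [← mul_assoc, mul_inv_cancel₀ ha]
    ring
  unfold derivAt
  have h1 : ∀ p : K[X], (p.comp (C a * X + C b)).eval (a⁻¹ * (z - b)) = p.eval z := by
    intro p
    rw [eval_comp]
    simp only [eval_add, eval_mul, eval_C, eval_X]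
    rw [hz]
  have h2 : ∀ p : K[X], (derivative (p.comp (C a * X + C b))).eval (a⁻¹ * (z - b)) =
      a * (derivative p).eval z := by
    intro p
    rw [derivative_comp, eval_mul, h1]
    simp
  simp only [derivative_mul, derivative_sub, derivative_C, zero_mul, zero_add, eval_mul,
    eval_sub, eval_C, h1, h2]
  congr 1
  field_simp
  ring

private lemma b1_roots [IsAlgClosed K] (p : K[X]) (a b : K) (ha : a ≠ 0) :
    (C a⁻¹ * p.comp (C a * X + C b)).roots = p.roots.map (fun z => a⁻¹ * (z - b)) := by
  rw [roots_C_mul _ (inv_ne_zero ha)]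
  by_cases hp : p = 0
  · subst hp
    simp
  have h1 : p = C p.leadingCoeff * (p.roots.map fun z => X - C z).prod :=
    (IsAlgClosed.splits p).eq_prod_roots
  have h2 : p.comp (C a * X + C b) =
      C (p.leadingCoeff * a ^ (Multiset.card p.roots)) *
        ((p.roots.map (fun z => a⁻¹ * (z - b))).map fun z => X - C z).prod := by
    conv_lhs => rw [h1]
    rw [mul_comp, C_comp, multiset_prod_comp, Multiset.map_map, Multiset.map_map]
    have h3 : p.roots.map ((fun q : K[X] => q.comp (C a * X + C b)) ∘ fun z => X - C z) =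
        p.roots.map (fun z => C a * (X - C (a⁻¹ * (z - b)))) := by
      refine Multiset.map_congr rfl fun z _ => ?_
      simp only [Function.comp_apply, sub_comp, X_comp, C_comp]
      rw [mul_sub, ← C_mul, ← mul_assoc, mul_inv_cancel₀ ha, one_mul, C_sub]
      ring
    rw [h3, Multiset.prod_map_mul, Multiset.map_const', Multiset.prod_replicate, ← C_pow,
      ← mul_assoc, ← C_mul]
    rfl
  rw [h2, roots_C_mul, roots_multiset_prod_X_sub_C]
  exact mul_ne_zero (leadingCoeff_ne_zero.mpr hp) (pow_ne_zero _ ha)

private lemma b1_fixMult [IsAlgClosed K] (D : ℕ) (A B : K[X]) (a b : K) (ha : a ≠ 0)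
    (hA : A.natDegree ≤ D) (hAB : A.natDegree = D ∨ B.natDegree = D) (hD : 1 ≤ D)
    (hB0 : B.natDegree = D → B ≠ 0) :
    fixMult D (C a⁻¹ * (A.comp (C a * X + C b) - C b * B.comp (C a * X + C b)))
      (B.comp (C a * X + C b)) = fixMult D A B := by
  have hfix : C a⁻¹ * (A.comp (C a * X + C b) - C b * B.comp (C a * X + C b)) -
      X * B.comp (C a * X + C b) = C a⁻¹ * (A - X * B).comp (C a * X + C b) := by
    have haC : (C a⁻¹ : K[X]) * C a = 1 := by rw [← C_mul, inv_mul_cancel₀ ha, C_1]
    rw [sub_comp, mul_comp, X_comp]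
    have : C a⁻¹ * (A.comp (C a * X + C b) - (C a * X + C b) * B.comp (C a * X + C b)) =
      C a⁻¹ * (A.comp (C a * X + C b) - C b * B.comp (C a * X + C b)) -
        (C a⁻¹ * C a) * (X * B.comp (C a * X + C b)) := by ring
    rw [this, haC, one_mul]
  unfold fixMult
  rw [hfix]
  have hdeg : (C a⁻¹ * (A - X * B).comp (C a * X + C b)).natDegree = (A - X * B).natDegree := by
    rw [natDegree_C_mul (inv_ne_zero ha), b1_natDegree_comp _ a b ha]
  rw [hdeg, b1_roots _ a b ha, Multiset.map_map]
  congr 1
  · refine Multiset.map_congr rfl fun z _ => ?_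
    rw [Function.comp_apply, b1_derivAt A B a b ha z]
  · by_cases hd : D + 1 ≤ (A - X * B).natDegree
    · rw [Nat.sub_eq_zero_of_le hd]
      simp
    · push Not at hd
      congr 1
      have hBD : B.natDegree ≠ D := by
        intro h
        have hB := hB0 h
        have h1 : (X * B).natDegree = D + 1 := by
          rw [natDegree_X_mul hB, h]
        have h2 : (A - X * B).natDegree = D + 1 := by
          rw [natDegree_sub_eq_right_of_natDegree_lt (by rw [h1]; omega), h1]
        omega
      have hAD : A.natDegree = D := hAB.resolve_right hBD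
      have hBlt : B.natDegree < A.natDegree := by
        rw [hAD]
        by_contra h
        push Not at h
        have h1 : D < (X * B).natDegree := by
          rw [natDegree_X_mul (fun h0 => by rw [h0, natDegree_zero] at h; omega)]
          omega
        have h2 : (A - X * B).natDegree = (X * B).natDegree := by
          rw [natDegree_sub_eq_right_of_natDegree_lt (by omega)]
        have h3 : (X * B).natDegree = B.natDegree + 1 := by
          rw [natDegree_X_mul (fun h0 => by rw [h0, natDegree_zero] at h; omega)]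
        omega
      set L : K[X] := C a * X + C b with hL
      have hA0 : A ≠ 0 := fun h => by rw [h, natDegree_zero] at hAD; omega
      have hAc : (A.comp L).natDegree = A.natDegree := b1_natDegree_comp A a b ha
      have hBc : (B.comp L).natDegree = B.natDegree := b1_natDegree_comp B a b ha
      have hlt : (C b * B.comp L).natDegree < (A.comp L).natDegree := by
        refine lt_of_le_of_lt (natDegree_C_mul_le b (B.comp L)) ?_
        rw [hAc, hBc]
        exact hBlt
      have hsub : (A.comp L - C b * B.comp L).natDegree = A.natDegree := by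
        rw [natDegree_sub_eq_left_of_natDegree_lt hlt, hAc]
      have hlc : (A.comp L - C b * B.comp L).leadingCoeff = (A.comp L).leadingCoeff :=
        leadingCoeff_sub_of_degree_lt (degree_lt_degree hlt)
      unfold multInf
      rw [natDegree_C_mul (inv_ne_zero ha), hsub, hBc]
      by_cases hc : A.natDegree = B.natDegree + 1
      · rw [if_pos hc, if_pos hc, leadingCoeff_mul, leadingCoeff_C, hlc,
          b1_lc_comp B a b ha, b1_lc_comp A a b ha, hc]
        have hA1 : A.leadingCoeff ≠ 0 := leadingCoeff_ne_zero.mpr hA0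
        field_simp
        ring
      · rw [if_neg hc, if_neg hc]

end b1

theorem b1_holds (h2 : A2S) : B1S := by
  intro K _ _ d f a b hd ha
  have haC : (C a⁻¹ : K[X]) * C a = 1 := by rw [← C_mul, inv_mul_cancel₀ ha, C_1]
  set L : K[X] := C a * X + C b with hL
  have hcomp : IsCoprime (f.num.comp L) (f.den.comp L) := by
    obtain ⟨u, v, huv⟩ := f.coprime
    refine ⟨u.comp L, v.comp L, ?_⟩
    rw [← mul_comp, ← mul_comp, ← add_comp, huv, one_comp]
  have hcop : IsCoprime (C a⁻¹ * (f.num.comp L - C b * f.den.comp L)) (f.den.comp L) := by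
    obtain ⟨u, v, huv⟩ := hcomp
    refine ⟨C a * u, v + C b * u, ?_⟩
    have : C a * u * (C a⁻¹ * (f.num.comp L - C b * f.den.comp L)) +
        (v + C b * u) * f.den.comp L =
        (C a⁻¹ * C a) * (u * (f.num.comp L - C b * f.den.comp L)) +
        (v + C b * u) * f.den.comp L := by ring
    rw [this, haC, one_mul]
    have h3 : u * (f.num.comp L - C b * f.den.comp L) + (v + C b * u) * f.den.comp L =
      u * f.num.comp L + v * f.den.comp L := by ring
    rw [h3, huv]
  have hAc : ∀ p : K[X], (p.comp L).natDegree = p.natDegree := fun p =>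
    b1_natDegree_comp p a b ha
  have hle : (C a⁻¹ * (f.num.comp L - C b * f.den.comp L)).natDegree ≤ d := by
    rw [natDegree_C_mul (inv_ne_zero ha)]
    refine (natDegree_sub_le _ _).trans (max_le ?_ ?_)
    · rw [hAc]; exact f.num_le
    · refine (natDegree_C_mul_le b _).trans ?_
      rw [hAc]; exact f.den_le
  have hdeg : (C a⁻¹ * (f.num.comp L - C b * f.den.comp L)).natDegree = d ∨
      (f.den.comp L).natDegree = d := by
    by_cases hQ : f.den.natDegree = d
    · right
      rw [hAc, hQ]
    · left
      have hP := f.deg_eq.resolve_right hQ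
      have hlt : (C b * f.den.comp L).natDegree < (f.num.comp L).natDegree := by
        refine lt_of_le_of_lt (natDegree_C_mul_le b _) ?_
        rw [hAc, hAc, hP]
        exact lt_of_le_of_ne f.den_le hQ
      rw [natDegree_C_mul (inv_ne_zero ha), natDegree_sub_eq_left_of_natDegree_lt hlt, hAc, hP]
  refine ⟨⟨C a⁻¹ * (f.num.comp L - C b * f.den.comp L), f.den.comp L, hle,
    (by rw [hAc]; exact f.den_le), hdeg, hcop⟩, rfl, rfl, fun n => ?_⟩
  have hn := h2 K d n f.num f.den hd f.num_le f.den_le f.deg_eq f.coprime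
  obtain ⟨hn1, hn2, hn3, hn4⟩ := hn
  have hit := b1_iter d f.num f.den f.num_le f.den_le a b ha n
  unfold RatMap.multSpec
  simp only
  rw [hL, hit.1, hit.2]
  exact b1_fixMult (d ^ n) _ _ a b ha hn1 hn3 (Nat.one_le_pow _ _ hd)
    (fun h h0 => by
      rw [h0, natDegree_zero] at h
      have := Nat.one_le_pow n d hd
      omega)

end Pool.Agent.LenSpec
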