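import Pool.Agent.LenSpec.Stmt

/-!
B2: the coordinate `1 / z`
-/

namespace Pool.Agent.LenSpec

open Polynomial

namespace B2

variable {K : Type} [Field K]

theorem reflect_pow (A : K[X]) (D : ℕ) (hA : A.natDegree ≤ D) (k : ℕ) :
    reflect (k * D) (A ^ k) = (reflect D A) ^ k := by
  induction k with
  | zero => simp
  | succ k ih =>
    rw [pow_succ, add_mul, one_mul, reflect_mul _ _ (natDegree_pow_le_of_le k hA) hA, ih, pow_succ]

theorem reflect_sum (N : ℕ) (s : Finset ℕ) (f : ℕ → K[X]) :
    reflect N (∑ i ∈ s, f i) = ∑ i ∈ s, reflect N (f i) := by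
  classical
  induction s using Finset.induction_on with
  | empty => simp
  | insert a s ha ih => rw [Finset.sum_insert ha, Finset.sum_insert ha, reflect_add, ih]

theorem homComp_reflect (d D : ℕ) (Q A B : K[X]) (hA : A.natDegree ≤ D) (hB : B.natDegree ≤ D) :
    homComp d (reflect d Q) (reflect D B) (reflect D A) = reflect (D * d) (homComp d Q A B) := by
  unfold homComp
  rw [reflect_sum, ← Finset.sum_range_reflect (fun j => reflect (D * d)
    (C (Q.coeff j) * A ^ j * B ^ (d - j)))]
  apply Finset.sum_congr rfl
  intro i hi
  have hi' : i ≤ d := by have := Finset.mem_range.1 hi; omega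
  have e1 : d + 1 - 1 - i = d - i := by omega
  have e2 : d - (d - i) = i := by omega
  have e3 : D * d = (d - i) * D + i * D := by
    rw [← add_mul, Nat.sub_add_cancel hi', mul_comm]
  rw [e1, e2, mul_assoc (C (Q.coeff (d - i))), reflect_C_mul, e3,
    reflect_mul _ _ (natDegree_pow_le_of_le _ hA) (natDegree_pow_le_of_le _ hB),
    reflect_pow A D hA, reflect_pow B D hB, coeff_reflect, revAt_le hi']
  ring

theorem iter_reflect (d : ℕ) (P Q : K[X])
    (hdeg : ∀ n, (iter d P Q n).1.natDegree ≤ d ^ n ∧ (iter d P Q n).2.natDegree ≤ d ^ n) (n : ℕ) :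
    iter d (reflect d Q) (reflect d P) n =
      (reflect (d ^ n) (iter d P Q n).2, reflect (d ^ n) (iter d P Q n).1) := by
  induction n with
  | zero => simp [iter]
  | succ n ih =>
    rw [iter, ih]
    simp only
    rw [homComp_reflect d (d ^ n) Q _ _ (hdeg n).1 (hdeg n).2,
      homComp_reflect d (d ^ n) P _ _ (hdeg n).1 (hdeg n).2, ← pow_succ]
    rfl

theorem reflect_prod (s : Multiset K) :
    reflect (Multiset.card s) (s.map (fun a => X - C a)).prod =
      (s.map (fun a => 1 - C a * X)).prod := by
  induction s using Multiset.induction_on with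
  | empty => simp
  | cons a s ih =>
    rw [Multiset.map_cons, Multiset.prod_cons, Multiset.map_cons, Multiset.prod_cons,
      Multiset.card_cons, add_comm, reflect_mul _ _ (natDegree_X_sub_C_le a)
      (natDegree_multiset_prod_X_sub_C_eq_card s).le, ih, reflect_sub, reflect_one_X, reflect_C,
      pow_one]

open Classical in
theorem roots_prod (s : Multiset K) : (s.map (fun a => 1 - C a * X)).prod ≠ 0 ∧
    ((s.map (fun a => 1 - C a * X)).prod).roots = (s.filter (fun a => a ≠ 0)).map (·⁻¹) := by
  induction s using Multiset.induction_on with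
  | empty => simp
  | cons a s ih =>
    rw [Multiset.map_cons, Multiset.prod_cons]
    by_cases ha : a = 0
    · subst ha
      rw [Multiset.filter_cons_of_neg _ (by simp)]
      simpa using ih
    · have h1 : (1 - C a * X : K[X]) = C (-a) * (X - C a⁻¹) := by
        have : (C (-a) * C a⁻¹ : K[X]) = -1 := by
          rw [← C_mul, neg_mul, mul_inv_cancel₀ ha]; simp
        rw [mul_sub, this]
        simp only [C_neg]
        ring
      have h2 : (1 - C a * X : K[X]) ≠ 0 := by
        rw [h1]
        exact mul_ne_zero (C_ne_zero.2 (neg_ne_zero.2 ha)) (X_sub_C_ne_zero _)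
      refine ⟨mul_ne_zero h2 ih.1, ?_⟩
      rw [roots_mul (mul_ne_zero h2 ih.1), ih.2, Multiset.filter_cons_of_pos _ (by simpa using ha),
        Multiset.map_cons, h1, roots_C_mul _ (neg_ne_zero.2 ha), roots_X_sub_C,
        Multiset.singleton_add]

open Classical in
theorem roots_reflect [IsAlgClosed K] (p : K[X]) (hp : p ≠ 0) (E : ℕ) (hE : p.natDegree ≤ E) :
    (reflect E p).roots = (p.roots.filter (fun a => a ≠ 0)).map (·⁻¹) +
      Multiset.replicate (E - p.natDegree) 0 := by
  have hlc : p.leadingCoeff ≠ 0 := leadingCoeff_ne_zero.2 hp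
  have h1 : p = C p.leadingCoeff * (p.roots.map (fun a => X - C a)).prod :=
    (IsAlgClosed.splits p).eq_prod_roots
  have hcard : Multiset.card p.roots = p.natDegree := IsAlgClosed.card_roots_eq_natDegree
  have h2 : reflect E p = (C p.leadingCoeff * X ^ (E - p.natDegree)) *
      (p.roots.map (fun a => 1 - C a * X)).prod := by
    have e : E = (E - p.natDegree) + Multiset.card p.roots := by omega
    have h3 : reflect ((E - p.natDegree) + Multiset.card p.roots)
        (C p.leadingCoeff * (p.roots.map (fun a => X - C a)).prod) =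
        reflect (E - p.natDegree) (C p.leadingCoeff) *
          reflect (Multiset.card p.roots) (p.roots.map (fun a => X - C a)).prod :=
      reflect_mul _ _ (by simp) (natDegree_multiset_prod_X_sub_C_eq_card p.roots).le
    rw [← e, ← h1, reflect_C, reflect_prod] at h3
    exact h3
  obtain ⟨h4, h5⟩ := roots_prod p.roots
  have h6 : (C p.leadingCoeff * X ^ (E - p.natDegree) : K[X]) ≠ 0 :=
    mul_ne_zero (C_ne_zero.2 hlc) (pow_ne_zero _ X_ne_zero)
  rw [h2, roots_mul (mul_ne_zero h6 h4), h5, roots_C_mul_X_pow hlc, Multiset.nsmul_singleton,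
    add_comm]

theorem eval_reflect (D : ℕ) (B : K[X]) (hB : B.natDegree ≤ D) (z : K) (hz : z ≠ 0) :
    (reflect D B).eval z⁻¹ * z ^ D = B.eval z := by
  let _ : Invertible z := invertibleOfNonzero hz
  have := eval₂_reflect_mul_pow (RingHom.id K) z D B hB
  rw [invOf_eq_inv] at this
  simpa [eval₂_id] using this

theorem deriv_reflect (D : ℕ) (B : K[X]) (hB : B.natDegree ≤ D) (z : K) (hz : z ≠ 0) :
    (derivative (reflect D B)).eval z⁻¹ * z ^ D =
      z * (D * B.eval z - z * (derivative B).eval z) := by
  refine induction_with_natDegree_le (fun B => (derivative (reflect D B)).eval z⁻¹ * z ^ D =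
      z * (D * B.eval z - z * (derivative B).eval z)) D ?_ ?_ ?_ B hB
  · simp
  · intro n r _ hn
    rw [reflect_C_mul_X_pow, revAt_le hn]
    simp only [derivative_C_mul, derivative_X_pow, eval_mul, eval_C, eval_pow, eval_X]
    have hcast : ((D - n : ℕ) : K) = (D : K) - n := by rw [Nat.cast_sub hn]
    have h1 : ((D - n : ℕ) : K) * (z⁻¹) ^ (D - n - 1) * z ^ D = ((D - n : ℕ) : K) * z ^ (n + 1) := by
      rcases Nat.eq_zero_or_pos (D - n) with h | h
      · rw [h]; simp
      · have e : z ^ D = z ^ (D - n - 1) * z ^ (n + 1) := by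
          rw [← pow_add]; congr 1; omega
        rw [e, inv_pow, mul_assoc, ← mul_assoc ((z ^ (D - n - 1))⁻¹),
          inv_mul_cancel₀ (pow_ne_zero _ hz), one_mul]
    have h2 : (n : K) * (z * z ^ (n - 1)) = n * z ^ n := by
      rcases Nat.eq_zero_or_pos n with h | h
      · subst h; simp
      · rw [← pow_succ', Nat.sub_add_cancel h]
    rw [hcast] at h1
    rw [hcast]
    calc r * (((D : K) - n) * z⁻¹ ^ (D - n - 1)) * z ^ D
        = r * (((D : K) - n) * z⁻¹ ^ (D - n - 1) * z ^ D) := by ring
      _ = r * (((D : K) - n) * z ^ (n + 1)) := by rw [h1]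
      _ = z * (D * (r * z ^ n) - r * (n * z ^ n)) := by ring
      _ = z * (D * (r * z ^ n) - r * (n * (z * z ^ (n - 1)))) := by rw [h2]
      _ = z * (D * (r * z ^ n) - z * (r * (n * z ^ (n - 1)))) := by ring
  · intro f g _ _ hf hg
    rw [reflect_add]
    simp only [derivative_add, eval_add]
    linear_combination hf + hg

/-- the multiplier at a finite nonzero fixed point -/
theorem derivAt_reflect (D : ℕ) (A B : K[X]) (hA : A.natDegree ≤ D) (hB : B.natDegree ≤ D) (z : K)
    (hz : z ≠ 0) (hfix : A.eval z = z * B.eval z) (hBz : B.eval z ≠ 0) :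
    derivAt (reflect D B) (reflect D A) z⁻¹ = derivAt A B z := by
  have h1 := eval_reflect D A hA z hz
  have h2 := eval_reflect D B hB z hz
  have h3 := deriv_reflect D A hA z hz
  have h4 := deriv_reflect D B hB z hz
  have hzD : z ^ D ≠ 0 := pow_ne_zero _ hz
  unfold derivAt
  set a := (reflect D A).eval z⁻¹ with ha
  set b := (reflect D B).eval z⁻¹ with hb
  set a' := (derivative (reflect D A)).eval z⁻¹ with ha'
  set b' := (derivative (reflect D B)).eval z⁻¹ with hb'
  set β := B.eval z with hβ
  set α' := (derivative A).eval z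
  set β' := (derivative B).eval z
  have ha0 : a ≠ 0 := by
    intro h
    rw [h, zero_mul, hfix] at h1
    exact mul_ne_zero hz hBz h1.symm
  rw [hfix] at h1 h3 ⊢
  have e1 : (b' * a - b * a') / a ^ 2 =
      ((b' * z ^ D) * (a * z ^ D) - (b * z ^ D) * (a' * z ^ D)) / (a * z ^ D) ^ 2 := by
    field_simp
  rw [e1, h1, h2, h3, h4]
  field_simp
  ring

theorem multInf_eq (A B : K[X]) (D : ℕ) (hD : 1 ≤ D) (hA : A.natDegree = D)
    (hB : B.natDegree ≤ D) (hBD : B.coeff D = 0) :
    multInf A B = B.coeff (D - 1) / A.coeff D := by
  have hBlt : B.natDegree < D := by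
    rcases lt_or_eq_of_le hB with h | h
    · exact h
    · exfalso
      have : B.leadingCoeff = 0 := by rw [leadingCoeff, h]; exact hBD
      rw [leadingCoeff_eq_zero] at this
      rw [this, natDegree_zero] at h
      omega
  unfold multInf
  split_ifs with h
  · have h1 : B.natDegree = D - 1 := by omega
    rw [leadingCoeff, leadingCoeff, h1, hA]
  · have h1 : B.coeff (D - 1) = 0 := by
      apply coeff_eq_zero_of_natDegree_lt
      omega
    rw [h1, zero_div]

theorem natDegree_reflect_eq (D : ℕ) (B : K[X]) (hB : B.natDegree ≤ D) (h0 : B.coeff 0 ≠ 0) :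
    (reflect D B).natDegree = D := by
  apply le_antisymm
  · refine natDegree_reflect_le.trans ?_
    simp [hB]
  · apply le_natDegree_of_ne_zero
    rw [coeff_reflect, revAt_le le_rfl, Nat.sub_self]
    exact h0

theorem natDegree_reflect_le' (D : ℕ) (B : K[X]) (hB : B.natDegree ≤ D) :
    (reflect D B).natDegree ≤ D := by
  refine natDegree_reflect_le.trans ?_
  simp [hB]

/-- multiplier at zero against multiplier at infinity -/
theorem derivAt_zero (D : ℕ) (A B : K[X]) (hD : 1 ≤ D) (hA : A.natDegree ≤ D)
    (hB : B.natDegree ≤ D) (h0 : A.coeff 0 = 0) (hB0 : B.coeff 0 ≠ 0) :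
    multInf (reflect D B) (reflect D A) = derivAt A B 0 := by
  rw [multInf_eq (reflect D B) (reflect D A) D hD (natDegree_reflect_eq D B hB hB0)
    (natDegree_reflect_le' D A hA) (by rw [coeff_reflect, revAt_le le_rfl, Nat.sub_self]; exact h0)]
  rw [coeff_reflect, coeff_reflect, revAt_le le_rfl, revAt_le (Nat.sub_le _ _), Nat.sub_self]
  have e : D - (D - 1) = 1 := by omega
  rw [e]
  unfold derivAt
  have h1 : A.eval 0 = 0 := by rw [← coeff_zero_eq_eval_zero]; exact h0
  have h2 : B.eval 0 = B.coeff 0 := by rw [← coeff_zero_eq_eval_zero]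
  have h3 : (derivative A).eval 0 = A.coeff 1 := by
    rw [← coeff_zero_eq_eval_zero, coeff_derivative]; simp
  rw [h1, h2, h3, zero_mul, sub_zero]
  field_simp

theorem fixMult_reflect [IsAlgClosed K] (D : ℕ) (A B : K[X]) (hD : 1 ≤ D) (hA : A.natDegree ≤ D)
    (hB : B.natDegree ≤ D) (hAB : A.natDegree = D ∨ B.natDegree = D) (hco : IsCoprime A B) :
    fixMult D (reflect D B) (reflect D A) = fixMult D A B := by
  classical
  have hroot : ∀ z, A.eval z = 0 → B.eval z ≠ 0 := by
    intro z hz hz'
    obtain ⟨u, v, huv⟩ := hco
    have := congrArg (eval z) huv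
    simp [hz, hz'] at this
  have hpref : reflect D B - X * reflect D A = - reflect (D + 1) (A - X * B) := by
    have e1 : reflect (1 + D) (X * B) = reflect D B := by
      rw [reflect_mul _ _ natDegree_X_le hB, reflect_one_X, one_mul]
    have e2 : reflect (1 + D) (1 * A) = X * reflect D A := by
      rw [reflect_mul _ _ (by simp) hA, reflect_one, pow_one]
    rw [one_mul] at e2
    rw [reflect_sub, add_comm D 1, e1, e2]
    ring
  by_cases hp0 : A - X * B = 0
  · -- the identity map
    have hA' : A = X * B := sub_eq_zero.1 hp0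
    have hBu : IsUnit B := by
      obtain ⟨u, v, huv⟩ := hco
      rw [hA'] at huv
      exact IsUnit.of_mul_eq_one (u * X + v) (by rw [← huv]; ring)
    obtain ⟨b, hb, hbB⟩ := Polynomial.isUnit_iff.1 hBu
    have hb0 : b ≠ 0 := hb.ne_zero
    subst hbB
    have hAdeg : A.natDegree = 1 := by
      rw [hA', natDegree_mul X_ne_zero (C_ne_zero.2 hb0), natDegree_X, natDegree_C]
    have hD1 : D = 1 := by
      rcases hAB with h | h
      · omega
      · rw [natDegree_C] at h; omega
    subst hD1
    have hAX : A = C b * X := by rw [hA']; ring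
    have e1 : reflect 1 (C b : K[X]) = C b * X := by rw [reflect_C, pow_one]
    have e2 : reflect 1 (C b * X : K[X]) = C b := by
      rw [reflect_C_mul, reflect_one_X, mul_one]
    rw [hAX, e1, e2]
  · -- the main case
    set p := A - X * B with hp
    have hpdeg : p.natDegree ≤ D + 1 := by
      rw [hp]
      refine (natDegree_sub_le _ _).trans ?_
      apply max_le
      · omega
      · refine natDegree_mul_le.trans ?_
        rw [natDegree_X]; omega
    have hcard : Multiset.card p.roots = p.natDegree := IsAlgClosed.card_roots_eq_natDegree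
    have hroots := roots_reflect p hp0 (D + 1) hpdeg
    set R := p.roots.filter (fun a => a ≠ 0) with hR
    set m := Multiset.count 0 p.roots with hm
    have hsplit : p.roots = R + Multiset.replicate m 0 := by
      have h1 := Multiset.filter_add_not (fun a : K => a ≠ 0) p.roots
      have h2 : p.roots.filter (fun a => ¬ a ≠ 0) = Multiset.replicate m 0 := by
        have : p.roots.filter (fun a => ¬ a ≠ 0) = p.roots.filter (fun a => a = 0) := by
          apply Multiset.filter_congr
          intro a _
          simp
        rw [this, hm]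
        have h3 := Multiset.filter_eq' p.roots (0 : K)
        convert h3
      rw [h2] at h1
      exact h1.symm
    have hRcard : Multiset.card R + m = p.natDegree := by
      have := congrArg Multiset.card hsplit
      rw [Multiset.card_add, Multiset.card_replicate, hcard] at this
      exact this.symm
    have hpr0 : reflect (D + 1) p ≠ 0 := by
      rw [Ne, reflect_eq_zero_iff]; exact hp0
    have hndeg : (reflect (D + 1) p).natDegree = D + 1 - m := by
      have h1 : Multiset.card (reflect (D + 1) p).roots = (reflect (D + 1) p).natDegree :=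
        IsAlgClosed.card_roots_eq_natDegree
      rw [hroots, Multiset.card_add, Multiset.card_map, Multiset.card_replicate] at h1
      omega
    unfold fixMult
    rw [hpref, roots_neg, natDegree_neg, hndeg, hroots, ← hp]
    rw [hsplit, Multiset.map_add, Multiset.map_add, Multiset.map_map, Multiset.map_replicate,
      Multiset.map_replicate]
    have hmle : m ≤ D + 1 := by omega
    have e1 : D + 1 - (D + 1 - m) = m := by omega
    rw [e1]
    -- the three parts
    have p1 : R.map (derivAt (reflect D B) (reflect D A) ∘ fun x => x⁻¹) = R.map (derivAt A B) := by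
      apply Multiset.map_congr rfl
      intro z hz
      rw [hR, Multiset.mem_filter, mem_roots hp0, IsRoot.def] at hz
      have hz1 : A.eval z = z * B.eval z := by
        have := hz.1
        rw [hp, eval_sub, eval_mul, eval_X, sub_eq_zero] at this
        exact this
      have hz2 : B.eval z ≠ 0 := by
        intro h
        rw [h, mul_zero] at hz1
        exact hroot z hz1 h
      exact derivAt_reflect D A B hA hB z hz.2 hz1 hz2
    have p2 : Multiset.replicate m (multInf (reflect D B) (reflect D A)) =
        Multiset.replicate m (derivAt A B 0) := by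
      rcases Nat.eq_zero_or_pos m with h | h
      · rw [h]; simp
      · congr 1
        have h1 : (0 : K) ∈ p.roots := Multiset.count_pos.1 h
        rw [mem_roots hp0, IsRoot.def, hp, eval_sub, eval_mul, eval_X, zero_mul, sub_zero] at h1
        have h2 := hroot 0 h1
        rw [← coeff_zero_eq_eval_zero] at h1 h2
        exact derivAt_zero D A B hD hA hB h1 h2
    have p3 : Multiset.replicate (D + 1 - p.natDegree) (derivAt (reflect D B) (reflect D A) 0) =
        Multiset.replicate (D + 1 - p.natDegree) (multInf A B) := by
      rcases Nat.eq_zero_or_pos (D + 1 - p.natDegree) with h | h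
      · rw [h]; simp
      · congr 1
        have h1 : p.coeff (D + 1) = 0 := coeff_eq_zero_of_natDegree_lt (by omega)
        have h2 : B.coeff D = 0 := by
          rw [hp, coeff_sub, coeff_X_mul, coeff_eq_zero_of_natDegree_lt (by omega : A.natDegree < D + 1),
            zero_sub, neg_eq_zero] at h1
          exact h1
        have h3 : A.coeff D ≠ 0 := by
          rcases hAB with h' | h'
          · intro h''
            have : A.leadingCoeff = 0 := by rw [leadingCoeff, h']; exact h''
            rw [leadingCoeff_eq_zero] at this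
            rw [this, natDegree_zero] at h'
            omega
          · exfalso
            have : B.leadingCoeff = 0 := by rw [leadingCoeff, h']; exact h2
            rw [leadingCoeff_eq_zero] at this
            rw [this, natDegree_zero] at h'
            omega
        have h4 := derivAt_zero D (reflect D B) (reflect D A) hD (natDegree_reflect_le' D B hB)
          (natDegree_reflect_le' D A hA)
          (by rw [coeff_reflect, revAt_zero]; exact h2) (by rw [coeff_reflect, revAt_zero]; exact h3)
        rw [reflect_reflect, reflect_reflect] at h4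
        exact h4.symm
    rw [p1, p2, p3]
    abel

end B2

theorem b2_holds (h2 : A2S) : B2S := by
  intro K _ _ d f hd
  have hcop : IsCoprime (f.den.reflect d) (f.num.reflect d) := by
    apply (Polynomial.isCoprime_iff_aeval_ne_zero_of_isAlgClosed (k := K) K _ _).2
    intro w
    rw [← eval_map_algebraMap, ← eval_map_algebraMap, Algebra.algebraMap_self, map_id, map_id]
    by_cases hw : w = 0
    · subst hw
      rw [← coeff_zero_eq_eval_zero, ← coeff_zero_eq_eval_zero, coeff_reflect, coeff_reflect,
        revAt_zero]
      by_contra hcon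
      push Not at hcon
      rcases f.deg_eq with h | h
      · have : f.num.leadingCoeff = 0 := by rw [leadingCoeff, h]; exact hcon.2
        rw [leadingCoeff_eq_zero] at this
        rw [this, natDegree_zero] at h
        omega
      · have : f.den.leadingCoeff = 0 := by rw [leadingCoeff, h]; exact hcon.1
        rw [leadingCoeff_eq_zero] at this
        rw [this, natDegree_zero] at h
        omega
    · have h1 := B2.eval_reflect d f.num f.num_le w⁻¹ (inv_ne_zero hw)
      have h3 := B2.eval_reflect d f.den f.den_le w⁻¹ (inv_ne_zero hw)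
      rw [inv_inv] at h1 h3
      by_contra hcon
      push Not at hcon
      rw [hcon.2, zero_mul] at h1
      rw [hcon.1, zero_mul] at h3
      obtain ⟨u, v, huv⟩ := f.coprime
      have := congrArg (eval w⁻¹) huv
      simp [← h1, ← h3] at this
  have hdeg : (f.den.reflect d).natDegree = d ∨ (f.num.reflect d).natDegree = d := by
    by_cases h0 : f.den.coeff 0 = 0
    · right
      apply B2.natDegree_reflect_eq d _ f.num_le
      intro h0'
      obtain ⟨u, v, huv⟩ := f.coprime
      have := congrArg (eval 0) huv
      rw [coeff_zero_eq_eval_zero] at h0 h0'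
      simp [h0, h0'] at this
    · left
      exact B2.natDegree_reflect_eq d _ f.den_le h0
  refine ⟨⟨f.den.reflect d, f.num.reflect d, B2.natDegree_reflect_le' d _ f.den_le,
    B2.natDegree_reflect_le' d _ f.num_le, hdeg, hcop⟩, rfl, rfl, ?_⟩
  intro n
  have hA2 := fun n => h2 K d n f.num f.den hd f.num_le f.den_le f.deg_eq f.coprime
  unfold RatMap.multSpec
  simp only
  rw [B2.iter_reflect d f.num f.den (fun n => ⟨(hA2 n).1, (hA2 n).2.1⟩) n]
  exact B2.fixMult_reflect (d ^ n) _ _ (Nat.one_le_pow _ _ (by omega)) (hA2 n).1 (hA2 n).2.1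
    (hA2 n).2.2.1 (hA2 n).2.2.2

end Pool.Agent.LenSpec
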