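import Pool.Agent.LenSpec.Stmt

/-!
Multiplying numerator and denominator by a constant.
-/

namespace Pool.Agent.LenSpec

open Polynomial

theorem homComp_scale {K : Type} [Field K] (d : ℕ) (P A B : K[X]) (a c : K) :
    homComp d (C a * P) (C c * A) (C c * B) = C (a * c ^ d) * homComp d P A B := by
  rw [homComp, homComp, Finset.mul_sum]
  refine Finset.sum_congr rfl (fun i hi => ?_)
  have hid : i ≤ d := Nat.lt_succ_iff.1 (Finset.mem_range.1 hi)
  have h1 : c ^ d = c ^ i * c ^ (d - i) := by
    rw [← pow_add]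
    congr 1
    omega
  rw [coeff_C_mul, h1, mul_pow, mul_pow]
  simp only [map_mul, map_pow]
  ring

theorem iter_scale {K : Type} [Field K] (d : ℕ) (P Q : K[X]) {a : K} (ha : a ≠ 0) (n : ℕ) :
    ∃ c : K, c ≠ 0 ∧ (iter d (C a * P) (C a * Q) n).1 = C c * (iter d P Q n).1 ∧
      (iter d (C a * P) (C a * Q) n).2 = C c * (iter d P Q n).2 := by
  induction n with
  | zero => exact ⟨1, one_ne_zero, by simp [iter], by simp [iter]⟩
  | succ n ih =>
    obtain ⟨c, hc, h1, h2⟩ := ih
    refine ⟨a * c ^ d, mul_ne_zero ha (pow_ne_zero _ hc), ?_, ?_⟩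
    · simp only [iter]
      rw [h1, h2, homComp_scale]
    · simp only [iter]
      rw [h1, h2, homComp_scale]

theorem derivAt_scale {K : Type} [Field K] (A B : K[X]) {c : K} (hc : c ≠ 0) (z : K) :
    derivAt (C c * A) (C c * B) z = derivAt A B z := by
  simp only [derivAt, derivative_mul, derivative_C, zero_mul, zero_add, eval_mul, eval_C]
  conv_rhs => rw [← mul_div_mul_left _ _ (pow_ne_zero 2 hc)]
  congr 1 <;> ring

theorem fixMult_scale {K : Type} [Field K] (D : ℕ) (A B : K[X]) {c : K} (hc : c ≠ 0) :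
    fixMult D (C c * A) (C c * B) = fixMult D A B := by
  have h1 : C c * A - X * (C c * B) = C c * (A - X * B) := by ring
  have h2 : multInf (C c * A) (C c * B) = multInf A B := by
    rw [multInf, multInf, natDegree_C_mul hc, natDegree_C_mul hc, leadingCoeff_mul,
      leadingCoeff_mul, leadingCoeff_C]
    split_ifs
    · rw [mul_div_mul_left _ _ hc]
    · rfl
  have h3 : derivAt (C c * A) (C c * B) = derivAt A B := funext (derivAt_scale A B hc)
  rw [fixMult, fixMult, h1, h2, h3, natDegree_C_mul hc, roots_C_mul _ hc]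

theorem b3_holds : B3S := by
  intro K _ d f a ha
  refine ⟨⟨C a * f.num, C a * f.den, ?_, ?_, ?_, ?_⟩, rfl, rfl, ?_⟩
  · rw [natDegree_C_mul ha]
    exact f.num_le
  · rw [natDegree_C_mul ha]
    exact f.den_le
  · rw [natDegree_C_mul ha, natDegree_C_mul ha]
    exact f.deg_eq
  · have hu : IsUnit (C a : K[X]) := (isUnit_C).2 (isUnit_iff_ne_zero.2 ha)
    exact (isCoprime_mul_unit_left hu f.num f.den).2 f.coprime
  · intro n
    obtain ⟨c, hc, h1, h2⟩ := iter_scale d f.num f.den ha n
    rw [RatMap.multSpec, RatMap.multSpec]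
    change fixMult (d ^ n) (iter d (C a * f.num) (C a * f.den) n).1
      (iter d (C a * f.num) (C a * f.den) n).2 = _
    rw [h1, h2, fixMult_scale _ _ _ hc]

end Pool.Agent.LenSpec
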