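import Pool.Agent.LenSpec.Stmt

/-!
After a change of coordinate, infinity is not periodic.
-/

namespace Pool.Agent.LenSpec

open Polynomial

namespace B4

variable {K : Type} [Field K]

theorem hom_add (d : ℕ) (P Q : K[X]) (x y : K) : hom d (P + Q) x y = hom d P x y + hom d Q x y := by
  unfold hom
  rw [← Finset.sum_add_distrib]
  apply Finset.sum_congr rfl
  intro i _
  rw [coeff_add]
  ring

theorem hom_C_mul (d : ℕ) (a : K) (P : K[X]) (x y : K) : hom d (C a * P) x y = a * hom d P x y := by
  unfold hom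
  rw [Finset.mul_sum]
  apply Finset.sum_congr rfl
  intro i _
  rw [coeff_C_mul]
  ring

theorem hom_sub (d : ℕ) (P Q : K[X]) (x y : K) : hom d (P - Q) x y = hom d P x y - hom d Q x y := by
  unfold hom
  rw [← Finset.sum_sub_distrib]
  apply Finset.sum_congr rfl
  intro i _
  rw [coeff_sub]
  ring

theorem hom_sum (d : ℕ) {ι : Type} (s : Finset ι) (P : ι → K[X]) (x y : K) :
    hom d (∑ i ∈ s, P i) x y = ∑ i ∈ s, hom d (P i) x y := by
  classical
  induction s using Finset.induction_on with
  | empty => simp [hom]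
  | insert a s ha ih => rw [Finset.sum_insert ha, Finset.sum_insert ha, hom_add, ih]

theorem hom_lin_pow (d i : ℕ) (hi : i ≤ d) (w x y : K) :
    hom d ((X + C w) ^ i) x y = (x + w * y) ^ i * y ^ (d - i) := by
  unfold hom
  rw [← Finset.sum_subset (Finset.range_mono (show i + 1 ≤ d + 1 by omega))]
  · rw [add_pow x (w * y) i, Finset.sum_mul]
    apply Finset.sum_congr rfl
    intro j hj
    rw [Finset.mem_range] at hj
    rw [coeff_X_add_C_pow, mul_pow, show d - j = (i - j) + (d - i) by omega, pow_add]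
    ring
  · intro j _ hj
    rw [Finset.mem_range] at hj
    rw [coeff_X_add_C_pow, Nat.choose_eq_zero_of_lt (by omega)]
    simp

theorem hom_comp (d : ℕ) (P : K[X]) (hP : P.natDegree ≤ d) (w x y : K) :
    hom d (P.comp (X + C w)) x y = hom d P (x + w * y) y := by
  have h1 : P.comp (X + C w) = ∑ i ∈ Finset.range (d + 1), C (P.coeff i) * (X + C w) ^ i := by
    rw [comp, eval₂_eq_sum_range' C (show P.natDegree < d + 1 by omega)]
  rw [h1, hom_sum]
  unfold hom
  apply Finset.sum_congr rfl
  intro i hi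
  rw [Finset.mem_range] at hi
  have h2 := hom_C_mul d (P.coeff i) ((X + C w) ^ i) x y
  unfold hom at h2
  rw [h2]
  have h3 := hom_lin_pow d i (by omega) w x y
  unfold hom at h3
  rw [h3]
  ring

theorem hom_reflect (d : ℕ) (P : K[X]) (x y : K) : hom d (P.reflect d) x y = hom d P y x := by
  unfold hom
  rw [← Finset.sum_range_reflect (fun i => P.coeff i * y ^ i * x ^ (d - i)) (d + 1)]
  apply Finset.sum_congr rfl
  intro i hi
  rw [Finset.mem_range] at hi
  rw [coeff_reflect, revAt_le (by omega), show d + 1 - 1 - i = d - i by omega,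
    show d - (d - i) = i by omega]
  ring

theorem hom_one (d : ℕ) (P : K[X]) (hP : P.natDegree ≤ d) (x : K) : hom d P x 1 = P.eval x := by
  unfold hom
  rw [eval_eq_sum_range' (show P.natDegree < d + 1 by omega)]
  apply Finset.sum_congr rfl
  intro i _
  rw [one_pow, mul_one]

theorem hom_one_zero (D : ℕ) (B : K[X]) : hom D B 1 0 = B.coeff D := by
  unfold hom
  rw [Finset.sum_eq_single D]
  · simp
  · intro i hi hiD
    rw [Finset.mem_range] at hi
    rw [zero_pow (by omega), mul_zero]
  · intro h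
    exact absurd (Finset.mem_range.mpr (Nat.lt_succ_self D)) h

theorem fixPoly_ne [IsAlgClosed K] (hA2 : A2S) {d : ℕ} (f : RatMap K d) (hd : 2 ≤ d) {n : ℕ}
    (hn : 1 ≤ n) : fixPoly d f.num f.den n ≠ 0 := by
  intro h0
  obtain ⟨h1, h2, h3, h4⟩ := hA2 K d n f.num f.den (by omega) f.num_le f.den_le f.deg_eq f.coprime
  unfold fixPoly at h0
  have h5 : (iter d f.num f.den n).1 = X * (iter d f.num f.den n).2 := sub_eq_zero.mp h0
  have h6 : IsUnit (iter d f.num f.den n).2 := by
    apply h4.isUnit_of_dvd' _ dvd_rfl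
    rw [h5]
    exact dvd_mul_left _ _
  have h7 := natDegree_eq_zero_of_isUnit h6
  have h8 : (iter d f.num f.den n).1.natDegree = 1 := by
    rw [h5, natDegree_X_mul h6.ne_zero, h7]
  have h9 : 2 ≤ d ^ n := by
    calc 2 ≤ d := hd
      _ = d ^ 1 := (pow_one d).symm
      _ ≤ d ^ n := Nat.pow_le_pow_right (by omega) hn
  rcases h3 with h | h <;> omega

end B4

open B4 in
theorem B4_holds (hA2 : A2S) (hA3 : A3S) (hB1 : B1S) (hB2 : B2S) : B4S := by
  intro K _ _ _ d f hd
  classical
  -- choice of the point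
  obtain ⟨w, hw⟩ : ∃ w : K, ∀ n, 1 ≤ n → (fixPoly d f.num f.den n).eval w ≠ 0 := by
    by_contra hcon
    push Not at hcon
    have h1 : (Set.univ : Set K) ⊆ ⋃ n : ℕ, {w | 1 ≤ n ∧ (fixPoly d f.num f.den n).eval w = 0} := by
      intro w _
      obtain ⟨n, hn, h⟩ := hcon w
      exact Set.mem_iUnion.mpr ⟨n, hn, h⟩
    have h2 : (⋃ n : ℕ, {w | 1 ≤ n ∧ (fixPoly d f.num f.den n).eval w = 0}).Countable := by
      apply Set.countable_iUnion
      intro n
      by_cases hn : 1 ≤ n
      · apply Set.Finite.countable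
        apply ((fixPoly d f.num f.den n).roots.toFinset.finite_toSet).subset
        rintro w ⟨_, h⟩
        rw [Finset.mem_coe, Multiset.mem_toFinset, mem_roots (fixPoly_ne hA2 f hd hn)]
        exact h
      · apply Set.Finite.countable
        apply Set.finite_empty.subset
        rintro w ⟨h, _⟩
        exact absurd h hn
    exact Set.not_countable_univ (h2.mono h1)
  obtain ⟨f₁, hn1, hd1, hm1⟩ := hB1 K d f 1 w (by omega) one_ne_zero
  obtain ⟨f₂, hn2, hd2, hm2⟩ := hB2 K d f₁ (by omega)
  refine ⟨f₂, ?_, fun n => by rw [hm2, hm1]⟩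
  have hlin : (C (1 : K) * X + C w) = X + C w := by rw [C_1, one_mul]
  rw [hlin] at hn1 hd1
  rw [inv_one, C_1, one_mul] at hn1
  have hL : ∀ n : ℕ, (lift2 d f₂.num f₂.den)^[n] (1, 0)
      = (((lift2 d f.num f.den)^[n] (w, 1)).2,
          ((lift2 d f.num f.den)^[n] (w, 1)).1 - w * ((lift2 d f.num f.den)^[n] (w, 1)).2) := by
    intro n
    induction n with
    | zero => simp
    | succ n ih =>
      rw [Function.iterate_succ_apply', Function.iterate_succ_apply', ih]
      set A := ((lift2 d f.num f.den)^[n] (w, 1)).1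
      set B := ((lift2 d f.num f.den)^[n] (w, 1)).2
      have h1 : A - w * B + w * B = A := by ring
      unfold lift2
      simp only
      rw [hn2, hd2, hom_reflect, hom_reflect, hn1, hd1, hom_sub, hom_C_mul,
        hom_comp d _ f.num_le, hom_comp d _ f.den_le, h1]
      rfl
  intro n hn
  have h1 := hA3 K d n f₂.num f₂.den (1, 0) (by omega)
  rw [hL n] at h1
  have h2 := congrArg Prod.snd h1
  simp only at h2
  rw [hom_one_zero] at h2
  rw [← h2, hA3 K d n f.num f.den (w, 1) (by omega)]
  simp only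
  obtain ⟨h3, h4, _, _⟩ := hA2 K d n f.num f.den (by omega) f.num_le f.den_le f.deg_eq f.coprime
  rw [hom_one _ _ h3, hom_one _ _ h4]
  have h5 := hw n hn
  unfold fixPoly at h5
  rw [eval_sub, eval_mul, eval_X] at h5
  exact h5

end Pool.Agent.LenSpec
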