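import Pool.Agent.LenSpec.Stmt

/-!
Module B5: the multipliers are algebraic over the field of the coefficients.
-/

namespace Pool.Agent.LenSpec

open Polynomial

theorem b5_homComp_map {K L : Type} [Field K] [Field L] (φ : K →+* L) (d : ℕ) (P A B : K[X]) :
    homComp d (P.map φ) (A.map φ) (B.map φ) = (homComp d P A B).map φ := by
  unfold homComp
  rw [Polynomial.map_sum]
  refine Finset.sum_congr rfl fun i _ => ?_
  rw [coeff_map, Polynomial.map_mul, Polynomial.map_mul, Polynomial.map_pow, Polynomial.map_pow,
    Polynomial.map_C]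

theorem b5_iter_map {K L : Type} [Field K] [Field L] (φ : K →+* L) (d : ℕ) (P Q : K[X]) (n : ℕ) :
    iter d (P.map φ) (Q.map φ) n = ((iter d P Q n).1.map φ, (iter d P Q n).2.map φ) := by
  induction n with
  | zero => simp [iter]
  | succ n ih =>
    simp only [iter]
    rw [ih, b5_homComp_map, b5_homComp_map]

theorem b5_holds : B5S := by
  intro K _ _ d n f x hx
  set L := IntermediateField.adjoin ℚ (Set.range f.coef) with hL
  have hmem : ∀ i, f.coef i ∈ L := fun i => IntermediateField.subset_adjoin _ _ ⟨i, rfl⟩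
  have lift : ∀ P : K[X], (∀ i, P.coeff i ∈ L) → ∃ P0 : L[X], P0.map (algebraMap L K) = P := by
    intro P hP
    have h1 : P ∈ lifts (algebraMap L K) := by
      rw [lifts_iff_coeff_lifts]
      intro i
      exact ⟨⟨P.coeff i, hP i⟩, rfl⟩
    obtain ⟨P0, h⟩ := h1
    exact ⟨P0, h⟩
  obtain ⟨P0, hP0⟩ := lift f.num (by
    intro i
    by_cases hi : i < d + 1
    · exact hmem (Sum.inl ⟨i, hi⟩)
    · rw [coeff_eq_zero_of_natDegree_lt (by have := f.num_le; omega)]
      exact L.zero_mem)
  obtain ⟨Q0, hQ0⟩ := lift f.den (by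
    intro i
    by_cases hi : i < d + 1
    · exact hmem (Sum.inr ⟨i, hi⟩)
    · rw [coeff_eq_zero_of_natDegree_lt (by have := f.den_le; omega)]
      exact L.zero_mem)
  have hit := b5_iter_map (algebraMap L K) d P0 Q0 n
  rw [hP0, hQ0] at hit
  set A0 := (iter d P0 Q0 n).1 with hA0
  set B0 := (iter d P0 Q0 n).2 with hB0
  unfold RatMap.multSpec at hx
  rw [hit] at hx
  simp only at hx
  unfold fixMult at hx
  have hc : ∀ y ∈ algebraicClosure L K, IsAlgebraic L y := fun y hy =>
    mem_algebraicClosure_iff.1 hy
  have hcoef : ∀ (R : L[X]) (z : K), z ∈ algebraicClosure L K →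
      (R.map (algebraMap L K)).eval z ∈ algebraicClosure L K := by
    intro R z hz
    rw [eval_map, ← aeval_def, aeval_eq_sum_range]
    refine sum_mem fun i _ => ?_
    rw [Algebra.smul_def]
    exact mul_mem (IntermediateField.algebraMap_mem _ _) (pow_mem hz i)
  rcases Multiset.mem_add.1 hx with h | h
  · obtain ⟨z, hz, rfl⟩ := Multiset.mem_map.1 h
    have hz' := (mem_roots'.1 hz)
    have hpoly : A0.map (algebraMap L K) - X * B0.map (algebraMap L K) =
        (A0 - X * B0).map (algebraMap L K) := by
      rw [Polynomial.map_sub, Polynomial.map_mul, Polynomial.map_X]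
    have hzalg : z ∈ algebraicClosure L K := by
      rw [mem_algebraicClosure_iff]
      refine ⟨A0 - X * B0, ?_, ?_⟩
      · intro h0
        apply hz'.1
        rw [hpoly, h0, Polynomial.map_zero]
      · have h2 := hz'.2
        rw [IsRoot.def, hpoly, eval_map] at h2
        rw [aeval_def]
        exact h2
    apply hc
    unfold derivAt
    rw [derivative_map, derivative_map]
    exact div_mem (sub_mem (mul_mem (hcoef _ _ hzalg) (hcoef _ _ hzalg))
      (mul_mem (hcoef _ _ hzalg) (hcoef _ _ hzalg))) (pow_mem (hcoef _ _ hzalg) 2)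
  · have := Multiset.eq_of_mem_replicate h
    rw [this]
    apply hc
    unfold multInf
    split_ifs
    · rw [leadingCoeff, leadingCoeff, coeff_map, coeff_map]
      exact div_mem (IntermediateField.algebraMap_mem _ _) (IntermediateField.algebraMap_mem _ _)
    · exact zero_mem _

end Pool.Agent.LenSpec
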