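import Pool.Agent.LenSpec.Stmt

/-!
B6: all multipliers are algebraic over a field generated by `2 d - 2` elements.
-/

namespace Pool.Agent.LenSpec

open Polynomial

theorem b6_alg_mono {K : Type} [Field K] [CharZero K] {E E' : IntermediateField ℚ K}
    (h : E ≤ E') {x : K} (hx : IsAlgebraic E x) : IsAlgebraic E' x := by
  let _ : Algebra E E' := (IntermediateField.inclusion h).toRingHom.toAlgebra
  have _ : IsScalarTower E E' K := IsScalarTower.of_algebraMap_eq fun _ => rfl
  exact hx.extendScalars (algebraMap E E').injective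

theorem b6_fix_one {K : Type} [Field K] (d : ℕ) (P Q : K[X]) (hP : P.natDegree ≤ d)
    (hQ : Q.natDegree ≤ d) : fixPoly d P Q 1 = P - X * Q := by
  have h : ∀ R : K[X], R.natDegree ≤ d → homComp d R X 1 = R := by
    intro R hR
    unfold homComp
    conv_rhs => rw [R.as_sum_range' (d + 1) (Nat.lt_succ_of_le hR)]
    refine Finset.sum_congr rfl fun i _ => ?_
    rw [one_pow, mul_one, C_mul_X_pow_eq_monomial]
  show homComp d P X 1 - X * homComp d Q X 1 = _
  rw [h P hP, h Q hQ]

theorem b6_reflect_eval {K : Type} [Field K] (d : ℕ) (P : K[X]) (hP : P.natDegree ≤ d) (z : K)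
    (hz : z ≠ 0) : (P.reflect d).eval z⁻¹ = (z⁻¹) ^ d * P.eval z := by
  have hd : (P.reflect d).natDegree ≤ d := by
    refine natDegree_le_iff_coeff_eq_zero.2 fun m hm => ?_
    rw [coeff_reflect, revAt_eq_self_of_lt hm]
    exact coeff_eq_zero_of_natDegree_lt (lt_of_le_of_lt hP hm)
  rw [eval_eq_sum_range' (Nat.lt_succ_of_le hd), eval_eq_sum_range' (Nat.lt_succ_of_le hP),
    Finset.mul_sum, ← Finset.sum_range_reflect]
  refine Finset.sum_congr rfl fun i hi => ?_
  have hi' : i ≤ d := Nat.lt_succ_iff.1 (Finset.mem_range.1 hi)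
  have e1 : d + 1 - 1 - i = d - i := by omega
  rw [e1, coeff_reflect, revAt_le (Nat.sub_le d i), Nat.sub_sub_self hi']
  have e2 : (z⁻¹) ^ d = (z⁻¹) ^ (d - i) * (z⁻¹) ^ i := by
    rw [← pow_add, Nat.sub_add_cancel hi']
  rw [e2]
  have e3 : (z⁻¹) ^ i * z ^ i = 1 := by
    rw [← mul_pow, inv_mul_cancel₀ hz, one_pow]
  calc P.coeff i * z⁻¹ ^ (d - i) = P.coeff i * z⁻¹ ^ (d - i) * ((z⁻¹) ^ i * z ^ i) := by
        rw [e3, mul_one]
    _ = z⁻¹ ^ (d - i) * z⁻¹ ^ i * (P.coeff i * z ^ i) := by ring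

theorem B6_holds (hG1 : G1S) (hB1 : B1S) (hB2 : B2S) (hB3 : B3S) (hB5 : B5S) : B6S := by
  classical
  intro K _ _ _ d f hf
  have hd2 := hf.two_le
  have hd1 : 1 ≤ d := by omega
  obtain ⟨-, hnod, hcard, -, -⟩ := hG1 K d 1 f hf le_rfl
  rw [b6_fix_one d _ _ f.num_le f.den_le] at hnod hcard
  rw [pow_one] at hcard
  -- three different fixed points
  obtain ⟨w0, w1, w2, hw0, hw1, hw2, h01, h02, h12⟩ : ∃ w0 w1 w2 : K,
      w0 ∈ (f.num - X * f.den).roots ∧ w1 ∈ (f.num - X * f.den).roots ∧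
      w2 ∈ (f.num - X * f.den).roots ∧ w0 ≠ w1 ∧ w0 ≠ w2 ∧ w1 ≠ w2 := by
    have hc : 2 < (f.num - X * f.den).roots.toFinset.card := by
      rw [Multiset.toFinset_card_of_nodup hnod, hcard]
      omega
    obtain ⟨a, ha, b, hb, c, hc, hab, hac, hbc⟩ := Finset.two_lt_card.1 hc
    exact ⟨a, b, c, Multiset.mem_toFinset.1 ha, Multiset.mem_toFinset.1 hb,
      Multiset.mem_toFinset.1 hc, hab, hac, hbc⟩
  have hroot : ∀ w ∈ (f.num - X * f.den).roots, f.num.eval w = w * f.den.eval w := by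
    intro w hw
    have h := (mem_roots'.1 hw).2
    rw [IsRoot.def, eval_sub, eval_mul, eval_X] at h
    exact sub_eq_zero.1 h
  -- step 1
  obtain ⟨f1, f1n, f1d, f1m⟩ := hB1 K d f 1 w2 hd1 one_ne_zero
  have e1n : ∀ u, f1.num.eval u = f.num.eval (u + w2) - w2 * f.den.eval (u + w2) := by
    intro u
    rw [f1n]
    simp
  have e1d : ∀ u, f1.den.eval u = f.den.eval (u + w2) := by
    intro u
    rw [f1d]
    simp
  have hf1 : ∀ w ∈ (f.num - X * f.den).roots,
      f1.num.eval (w - w2) = (w - w2) * f1.den.eval (w - w2) := by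
    intro w hw
    rw [e1n, e1d, sub_add_cancel, hroot w hw]
    ring
  have hf10 : f1.num.coeff 0 = 0 := by
    have h := hf1 w2 hw2
    rw [sub_self, zero_mul, ← coeff_zero_eq_eval_zero] at h
    exact h
  -- step 2
  obtain ⟨f2, f2n, f2d, f2m⟩ := hB2 K d f1 hd1
  have hf2 : ∀ w ∈ (f.num - X * f.den).roots, w ≠ w2 →
      f2.num.eval (w - w2)⁻¹ = (w - w2)⁻¹ * f2.den.eval (w - w2)⁻¹ := by
    intro w hw hne
    have hu : w - w2 ≠ 0 := sub_ne_zero.2 hne
    rw [f2n, f2d, b6_reflect_eval d _ f1.den_le _ hu, b6_reflect_eval d _ f1.num_le _ hu,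
      hf1 w hw]
    field_simp
  have hf2d : f2.den.coeff d = 0 := by
    rw [f2d, coeff_reflect, revAt_le le_rfl, Nat.sub_self, hf10]
  have hf2dn : f2.den.natDegree < d := by
    refine lt_of_le_of_ne f2.den_le fun h => ?_
    have h5 : f2.den.coeff f2.den.natDegree = 0 := by
      rw [h]
      exact hf2d
    rw [coeff_natDegree, leadingCoeff_eq_zero] at h5
    rw [h5, natDegree_zero] at h
    omega
  -- step 3
  have hv : (w1 - w2)⁻¹ - (w0 - w2)⁻¹ ≠ 0 := by
    intro h
    have h' := inv_injective (sub_eq_zero.1 h)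
    exact h01 (sub_left_injective h').symm
  obtain ⟨f3, f3n, f3d, f3m⟩ := hB1 K d f2 ((w1 - w2)⁻¹ - (w0 - w2)⁻¹) (w0 - w2)⁻¹ hd1 hv
  have hf30 : f3.num.eval 0 = 0 := by
    rw [f3n]
    simp only [eval_mul, eval_C, eval_sub, eval_comp, eval_add, eval_X, mul_zero, zero_add]
    rw [hf2 w0 hw0 h02, sub_self, mul_zero]
  have hf31 : f3.num.eval 1 = f3.den.eval 1 := by
    rw [f3n, f3d]
    simp only [eval_mul, eval_C, eval_sub, eval_comp, eval_add, eval_X, mul_one,
      sub_add_cancel]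
    rw [hf2 w1 hw1 h12, ← sub_mul, inv_mul_cancel_left₀ hv]
  have hf3dn : f3.den.natDegree < d := by
    rw [f3d, natDegree_comp, natDegree_linear hv, mul_one]
    exact hf2dn
  have hf3nn : f3.num.natDegree = d := by
    rcases f3.deg_eq with h | h
    · exact h
    · omega
  -- step 4
  have hlc : f3.num.leadingCoeff ≠ 0 := by
    intro h
    rw [leadingCoeff_eq_zero] at h
    rw [h, natDegree_zero] at hf3nn
    omega
  obtain ⟨f4, f4n, f4d, f4m⟩ := hB3 K d f3 f3.num.leadingCoeff⁻¹ (inv_ne_zero hlc)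
  have c1 : f4.num.coeff d = 1 := by
    rw [f4n, coeff_C_mul]
    have h5 : f3.num.coeff d = f3.num.leadingCoeff := by
      rw [leadingCoeff, hf3nn]
    rw [h5, inv_mul_cancel₀ hlc]
  have c2 : f4.num.coeff 0 = 0 := by
    rw [f4n, coeff_C_mul, coeff_zero_eq_eval_zero, hf30, mul_zero]
  have c3 : f4.den.coeff d = 0 := by
    rw [f4d, coeff_C_mul, coeff_eq_zero_of_natDegree_lt hf3dn, mul_zero]
  have c4 : f4.num.eval 1 = f4.den.eval 1 := by
    rw [f4n, f4d, eval_mul, eval_mul, hf31]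
  refine ⟨(Finset.Ico 1 d).image (fun j => f4.num.coeff j) ∪
    (Finset.Ico 1 d).image (fun j => f4.den.coeff j), ?_, ?_⟩
  · refine (Finset.card_union_le _ _).trans ?_
    refine (add_le_add Finset.card_image_le Finset.card_image_le).trans ?_
    rw [Nat.card_Ico]
    omega
  · intro n hn x hx
    rw [← f1m, ← f2m, ← f3m, ← f4m] at hx
    refine b6_alg_mono ?_ (hB5 K d n f4 x hx)
    rw [IntermediateField.adjoin_le_iff]
    set S : Set K := (((Finset.Ico 1 d).image (fun j => f4.num.coeff j) ∪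
      (Finset.Ico 1 d).image (fun j => f4.den.coeff j) : Finset K) : Set K) with hS
    have hnum : ∀ j, 1 ≤ j → j < d → f4.num.coeff j ∈ IntermediateField.adjoin ℚ S := by
      intro j h1 h2
      refine IntermediateField.subset_adjoin _ _ ?_
      rw [hS, Finset.mem_coe, Finset.mem_union]
      exact Or.inl (Finset.mem_image_of_mem _ (Finset.mem_Ico.2 ⟨h1, h2⟩))
    have hden : ∀ j, 1 ≤ j → j < d → f4.den.coeff j ∈ IntermediateField.adjoin ℚ S := by
      intro j h1 h2
      refine IntermediateField.subset_adjoin _ _ ?_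
      rw [hS, Finset.mem_coe, Finset.mem_union]
      exact Or.inr (Finset.mem_image_of_mem _ (Finset.mem_Ico.2 ⟨h1, h2⟩))
    have hnum' : ∀ j, j ≤ d → f4.num.coeff j ∈ IntermediateField.adjoin ℚ S := by
      intro j hj
      rcases Nat.eq_zero_or_pos j with rfl | h1
      · rw [c2]; exact zero_mem _
      · rcases hj.lt_or_eq with h2 | rfl
        · exact hnum j h1 h2
        · rw [c1]; exact one_mem _
    have hden0 : f4.den.coeff 0 ∈ IntermediateField.adjoin ℚ S := by
      have h1 : f4.den.eval 1 = ∑ i ∈ Finset.range (d + 1), f4.den.coeff i := by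
        rw [eval_eq_sum_range' (Nat.lt_succ_of_le f4.den_le)]
        simp
      have h2 : f4.num.eval 1 = ∑ i ∈ Finset.range (d + 1), f4.num.coeff i := by
        rw [eval_eq_sum_range' (Nat.lt_succ_of_le f4.num_le)]
        simp
      have h3 : f4.den.coeff 0 = ∑ i ∈ Finset.range (d + 1), f4.num.coeff i -
          ∑ i ∈ Finset.range d, f4.den.coeff (i + 1) := by
        rw [← h2, c4, h1, Finset.sum_range_succ']
        ring
      rw [h3]
      refine sub_mem (sum_mem fun i hi => hnum' i (Nat.lt_succ_iff.1 (Finset.mem_range.1 hi)))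
        (sum_mem fun i hi => ?_)
      have hi' := Finset.mem_range.1 hi
      rcases (Nat.succ_le_of_lt hi').lt_or_eq with h4 | h4
      · exact hden (i + 1) (by omega) h4
      · have h5 : i + 1 = d := h4
        rw [h5, c3]
        exact zero_mem _
    rintro _ ⟨i | i, rfl⟩
    · exact hnum' i (Nat.lt_succ_iff.1 i.2)
    · show f4.den.coeff i ∈ _
      have hi := Nat.lt_succ_iff.1 i.2
      rcases Nat.eq_zero_or_pos (i : ℕ) with h0 | h1
      · rw [h0]; exact hden0
      · rcases hi.lt_or_eq with h2 | h2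
        · exact hden i h1 h2
        · rw [h2, c3]; exact zero_mem _

end Pool.Agent.LenSpec
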