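import Pool.Agent.LenSpec.Stmt

/-!
B8: scaling of the coordinate, point by point.
-/

namespace Pool.Agent.LenSpec

open Polynomial

theorem b8_holds : B8S := by
  intro K _ P Q a b ha hb
  have hcomp : ∀ (W : K[X]) (z : K), (W.comp (C a⁻¹ * X)).eval (a * z) = W.eval z := by
    intro W z
    rw [eval_comp, eval_mul, eval_C, eval_X, inv_mul_cancel_left₀ ha]
  have hdcomp : ∀ (W : K[X]) (z : K), (derivative (W.comp (C a⁻¹ * X))).eval (a * z) =
      a⁻¹ * (derivative W).eval z := by
    intro W z
    rw [derivative_comp, derivative_C_mul, derivative_X, eval_mul, eval_mul, eval_C, eval_one,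
      hcomp, mul_one]
  have hev : ∀ z, ev (C (a * b) * P.comp (C a⁻¹ * X)) (C b * Q.comp (C a⁻¹ * X)) (a * z) =
      a * ev P Q z := by
    intro z
    rw [ev, ev, eval_mul, eval_mul, eval_C, eval_C, hcomp, hcomp]
    by_cases hQ : Q.eval z = 0
    · rw [hQ, mul_zero, div_zero, div_zero, mul_zero]
    · field_simp
  have hiter : ∀ z k, (ev (C (a * b) * P.comp (C a⁻¹ * X)) (C b * Q.comp (C a⁻¹ * X)))^[k]
      (a * z) = a * (ev P Q)^[k] z := by
    intro z k
    induction k with
    | zero => rfl
    | succ k ih => rw [Function.iterate_succ_apply', Function.iterate_succ_apply', ih, hev]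
  have hder : ∀ z, derivAt (C (a * b) * P.comp (C a⁻¹ * X)) (C b * Q.comp (C a⁻¹ * X)) (a * z) =
      derivAt P Q z := by
    intro z
    rw [derivAt, derivAt, derivative_C_mul, derivative_C_mul, eval_mul, eval_mul, eval_mul,
      eval_mul, eval_C, eval_C, hcomp, hcomp, hdcomp, hdcomp]
    by_cases hQ : Q.eval z = 0
    · rw [hQ]
      simp
    · field_simp
  intro z
  refine ⟨hev z, fun n => ⟨?_, ?_⟩⟩
  · unfold PerX Per
    simp only [hiter, mul_right_inj' ha, ne_eq]
    have h1 : ∀ k, ((C b * Q.comp (C a⁻¹ * X)).eval (a * (ev P Q)^[k] z) = 0 ↔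
        Q.eval ((ev P Q)^[k] z) = 0) := by
      intro k
      rw [eval_mul, eval_C, hcomp, mul_eq_zero]
      simp [hb]
    simp only [h1]
  · unfold mult
    refine Finset.prod_congr rfl fun k _ => ?_
    rw [hiter, hder]

end Pool.Agent.LenSpec
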