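import Pool.Agent.LenSpec.Stmt

/-!
C1, C2: the index formula.
-/

namespace Pool.Agent.LenSpec

open Polynomial

theorem c1_holds : C1S := by
  intro K _ _ D A B hD hA hB hcop hnd
  classical
  obtain ⟨p, hp⟩ : ∃ p, p = A - X * B := ⟨_, rfl⟩
  have hB0 : B ≠ 0 := by
    rintro rfl
    rw [natDegree_zero] at hB
    omega
  have hXB : (X * B).natDegree = D + 1 := by
    rw [natDegree_X_mul hB0, hB]
  have hpdeg : p.natDegree = D + 1 := by
    rw [hp, natDegree_sub_eq_right_of_natDegree_lt (by rw [hXB]; omega), hXB]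
  have hp0 : p ≠ 0 := by
    intro h
    rw [h, natDegree_zero] at hpdeg
    omega
  have hlc : p.leadingCoeff = -B.leadingCoeff := by
    have h1 : (A - X * B).leadingCoeff = -(X * B).leadingCoeff := by
      apply leadingCoeff_sub_of_degree_lt'
      apply degree_lt_degree
      rw [hXB]
      omega
    rw [hp, h1, leadingCoeff_mul, leadingCoeff_X, one_mul]
  have hBlc : B.leadingCoeff ≠ 0 := leadingCoeff_ne_zero.mpr hB0
  rw [← hp] at hnd ⊢
  have hcard : Multiset.card p.roots = D + 1 := by
    rw [← hpdeg]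
    exact (IsAlgClosed.splits p).natDegree_eq_card_roots.symm
  obtain ⟨s, hs⟩ : ∃ s : Finset K, s = ⟨p.roots, hnd⟩ := ⟨_, rfl⟩
  have hscard : s.card = D + 1 := by rw [hs]; exact hcard
  have hmem : ∀ z ∈ s, p.eval z = 0 := by
    intro z hz
    rw [hs] at hz
    have : z ∈ p.roots := hz
    exact (mem_roots hp0).mp this
  have hsum : (p.roots.map (fun z => (1 - derivAt A B z)⁻¹)).sum =
      ∑ z ∈ s, (1 - derivAt A B z)⁻¹ := by
    rw [hs]
    rfl
  rw [hsum]
  have hlag := Lagrange.coeff_eq_sum (s := s) (v := fun z : K => z) (P := B)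
    (Function.injective_id.injOn) (by
      rw [hscard, degree_eq_natDegree hB0, hB]
      exact_mod_cast Nat.lt_succ_self D)
  rw [hscard, Nat.add_sub_cancel] at hlag
  have hprod : p = C p.leadingCoeff * ∏ z ∈ s, (X - C z) := by
    have h1 := (IsAlgClosed.splits p).eq_prod_roots
    rw [hs]
    exact h1
  have hder : ∀ z ∈ s, (derivative p).eval z = p.leadingCoeff * ∏ w ∈ s.erase z, (z - w) := by
    intro z hz
    have h2 : ∏ w ∈ s, (X - C w) = (X - C z) * ∏ w ∈ s.erase z, (X - C w) :=
      (Finset.mul_prod_erase s (fun w => X - C w) hz).symm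
    have h3 : derivative p = C p.leadingCoeff * derivative (∏ w ∈ s, (X - C w)) := by
      conv_lhs => rw [hprod]
      rw [derivative_C_mul]
    rw [h3, h2, derivative_mul, eval_mul, eval_C, eval_add, eval_mul, eval_mul]
    have h4 : eval z (X - C z) = 0 := by simp
    have h5 : eval z (derivative (X - C z)) = 1 := by simp
    rw [h4, h5, zero_mul, add_zero, one_mul, eval_prod]
    simp
  have hterm : ∀ z ∈ s, (1 - derivAt A B z)⁻¹ =
      B.leadingCoeff⁻¹ * (B.eval z / ∏ w ∈ s.erase z, (z - w)) := by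
    intro z hz
    have hz0 := hmem z hz
    have hA' : A.eval z = z * B.eval z := by
      rw [hp, eval_sub, eval_mul, eval_X] at hz0
      linear_combination hz0
    have hBz : B.eval z ≠ 0 := by
      intro h0
      obtain ⟨u, v, huv⟩ := hcop
      have := congrArg (eval z) huv
      rw [eval_add, eval_mul, eval_mul, hA', h0, eval_one] at this
      simp at this
    have hprodne : (∏ w ∈ s.erase z, (z - w)) ≠ 0 := by
      rw [Finset.prod_ne_zero_iff]
      intro w hw
      rw [Finset.mem_erase] at hw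
      exact sub_ne_zero.mpr (Ne.symm hw.1)
    have hd := hder z hz
    rw [hlc, hp, derivative_sub, derivative_mul, derivative_X, eval_sub, eval_add, eval_mul,
      eval_mul, eval_one, eval_X] at hd
    have h6 : (1 - derivAt A B z) = B.leadingCoeff * (∏ w ∈ s.erase z, (z - w)) / B.eval z := by
      rw [derivAt, hA', eq_div_iff hBz]
      field_simp
      linear_combination -hd
    rw [h6, inv_div, div_eq_mul_inv, mul_inv, div_eq_mul_inv]
    ring
  rw [Finset.sum_congr rfl hterm, ← Finset.mul_sum, ← hlag]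
  have : B.coeff D = B.leadingCoeff := by rw [leadingCoeff, hB]
  rw [this]
  exact inv_mul_cancel₀ hBlc

theorem c2_holds (h1 : C1S) (ha1 : A1S) (ha2 : A2S) (hg1 : G1S) : C2S := by
  intro K _ _ d n f hf hn
  obtain ⟨hdeg, hnd, hcard, hroots, hspec⟩ := hg1 K d n f hf hn
  have hd1 : 1 ≤ d := le_trans (by norm_num) hf.two_le
  obtain ⟨h2a, h2b, -, h2d⟩ := ha2 K d n f.num f.den hd1 f.num_le f.den_le f.deg_eq f.coprime
  have hcoef := hf.noInf n hn
  have hB : (iter d f.num f.den n).2.natDegree = d ^ n :=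
    le_antisymm h2b (le_natDegree_of_ne_zero hcoef)
  have hD : 1 ≤ d ^ n := Nat.one_le_pow _ _ hd1
  have hmain := h1 K (d ^ n) (iter d f.num f.den n).1 (iter d f.num f.den n).2 hD h2a hB h2d hnd
  rw [hspec, Multiset.map_map]
  refine Eq.trans ?_ hmain
  congr 1
  apply Multiset.map_congr rfl
  intro z hz
  have hper := (hroots z).mp hz
  have h3 := (ha1 K d n f.num f.den z f.num_le f.den_le (fun k _ => hper.1 k)).2.2
  rw [Function.comp_apply, h3]

end Pool.Agent.LenSpec
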