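import Pool.Agent.LenSpec.Stmt

/-!
The norms of the multipliers at the points of exact period `n`.
-/

namespace Pool.Agent.LenSpec

open Polynomial

namespace E1Aux

variable {K : Type} [Field K]

theorem nrm_pow (c : Cj K) (x : K) (k : ℕ) : c.nrm (x ^ k) = c.nrm x ^ k := by
  unfold Cj.nrm
  rw [map_pow, mul_pow]

theorem spec_eq [IsAlgClosed K] (hG2 : G2S) (c : Cj K) (d n : ℕ) (f : RatMap K d) (hf : Good f)
    (hn : 1 ≤ n) : c.spec f n = ∑ m ∈ n.divisors,
      ((MX d f.num f.den m).map c.nrm).map (fun x => x ^ (n / m)) := by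
  have h := (hG2 K d n f hf hn).2.1
  unfold Cj.spec
  rw [h]
  have h2 : Multiset.map c.nrm (∑ m ∈ n.divisors,
      (MX d f.num f.den m).map (fun x => x ^ (n / m))) =
      ∑ m ∈ n.divisors, Multiset.map c.nrm ((MX d f.num f.den m).map (fun x => x ^ (n / m))) :=
    map_sum (Multiset.mapAddMonoidHom c.nrm) _ _
  rw [h2]
  refine Finset.sum_congr rfl fun m _ => ?_
  rw [Multiset.map_map, Multiset.map_map]
  refine Multiset.map_congr rfl fun x _ => ?_
  exact nrm_pow c x _

end E1Aux

theorem E1_holds (hG2 : G2S) : E1S := by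
  intro K _ _ c d f g hf hg hspec n
  induction n using Nat.strong_induction_on with
  | _ n ih =>
    intro hn
    have h := hspec n hn
    rw [E1Aux.spec_eq hG2 c d n f hf hn, E1Aux.spec_eq hG2 c d n g hg hn] at h
    have hmem : n ∈ n.divisors := Nat.mem_divisors.2 ⟨dvd_rfl, by omega⟩
    rw [← Finset.add_sum_erase _ _ hmem, ← Finset.add_sum_erase _ _ hmem] at h
    have h2 : ∑ m ∈ n.divisors.erase n,
        ((MX d f.num f.den m).map c.nrm).map (fun x => x ^ (n / m)) =
        ∑ m ∈ n.divisors.erase n,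
        ((MX d g.num g.den m).map c.nrm).map (fun x => x ^ (n / m)) := by
      refine Finset.sum_congr rfl fun m hm => ?_
      obtain ⟨hm1, hm2⟩ := Finset.mem_erase.1 hm
      have hm3 := Nat.divisor_le hm2
      have hm4 : 1 ≤ m := Nat.pos_of_mem_divisors hm2
      rw [ih m (by omega) hm4]
    rw [h2] at h
    have h3 := add_right_cancel h
    rw [Nat.div_self (by omega)] at h3
    simpa using h3

end Pool.Agent.LenSpec
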