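import Pool.Agent.LenSpec.Stmt

/-!
A map whose multipliers have no norm equal to one is in general position.
-/

namespace Pool.Agent.LenSpec

open Polynomial

theorem E2_holds (hA1 : A1S) (hA2 : A2S) (hA4 : A4S) : E2S := by
  intro K _ _ c d f g hd hinf hf hspec
  refine ⟨hd, hinf, fun n z hn hz hm => ?_⟩
  have h1 := hA1 K d n g.num g.den z g.num_le g.den_le (fun k _ => hz.1 k)
  have h2 := hA2 K d n g.num g.den (by omega) g.num_le g.den_le g.deg_eq g.coprime
  have hroot := (hA4 K d n g z (by omega) hn hinf).2 hz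
  have hne : fixPoly d g.num g.den n ≠ 0 := by
    intro h
    have h3 : (fixPoly d g.num g.den n).coeff (d ^ n + 1) = 0 := by rw [h, coeff_zero]
    unfold fixPoly at h3
    rw [coeff_sub, coeff_X_mul, coeff_eq_zero_of_natDegree_lt (by omega), zero_sub,
      neg_eq_zero] at h3
    exact hinf n hn h3
  have hmem : (1 : K) ∈ g.multSpec n := by
    unfold RatMap.multSpec fixMult
    rw [Multiset.mem_add]
    left
    rw [Multiset.mem_map]
    refine ⟨z, ?_, ?_⟩
    · exact (mem_roots hne).2 hroot
    · rw [h1.2.2, hm]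
  have h3 : c.nrm 1 ∈ c.spec g n := Multiset.mem_map_of_mem _ hmem
  rw [← hspec n hn] at h3
  obtain ⟨x, hx, hx1⟩ := Multiset.mem_map.1 h3
  apply hf n hn x hx
  rw [hx1]
  unfold Cj.nrm
  rw [map_one, mul_one]

end Pool.Agent.LenSpec
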