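import Pool.Agent.LenSpec.Q1

/-!
Module FA2: counting parameters.
-/

namespace Pool.Agent.LenSpec

open Polynomial

namespace FA2

theorem exists_cover {K : Type} [Field K] (S : Finset K) (hS : S.card ≤ 4) :
    ∃ w : Fin 4 → K, (S : Set K) ⊆ Set.range w := by
  classical
  obtain ⟨e⟩ : Nonempty (Fin S.card ≃ S) := ⟨S.equivFin.symm⟩
  refine ⟨fun i => if h : (i : ℕ) < S.card then (e ⟨i, h⟩ : K) else 0, ?_⟩
  intro a ha
  refine ⟨⟨e.symm ⟨a, ha⟩, lt_of_lt_of_le (e.symm ⟨a, ha⟩).2 hS⟩, ?_⟩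
  simp

end FA2

open FA2 in
theorem FA2_holds : FA2S := by
  intro K _ _ d x y S hd hx hS h
  obtain ⟨w, hw⟩ := exists_cover S hS
  obtain ⟨e⟩ : Nonempty ((Fin (d - 1) ⊕ Fin (d - 1)) ⊕ Fin 4 ≃ CI d) := by
    apply Fintype.card_eq.1
    simp only [Fintype.card_sum, Fintype.card_fin, CI]
    omega
  have h1 : AlgebraicIndependent ℚ (Sum.elim y w) := by
    apply Q1.indep_of_alg (hx.comp e e.injective)
    intro i
    have h2 : IntermediateField.adjoin ℚ (Set.range y ∪ (S : Set K)) ≤
        IntermediateField.adjoin ℚ (Set.range (Sum.elim y w)) := by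
      apply IntermediateField.adjoin.mono
      rw [Set.Sum.elim_range]
      exact Set.union_subset_union_right _ hw
    rw [← IntermediateField.isAlgebraic_adjoin_iff]
    exact isAlgebraic_algebraMap
      (⟨x (e i), h2 (h (e i))⟩ : IntermediateField.adjoin ℚ (Set.range (Sum.elim y w)))
  exact h1.comp Sum.inl Sum.inl_injective

end Pool.Agent.LenSpec
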