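import Pool.Agent.LenSpec.Stmt

/-!
Infinity is not periodic for the generic map.
-/

namespace Pool.Agent.LenSpec

open Polynomial

namespace FN

/-- the map on pairs with coefficients `c` -/
def step {R : Type} [CommRing R] {d : ℕ} (c : CI d → R) (v : R × R) : R × R :=
  (∑ i : Fin (d + 1), c (Sum.inl i) * v.1 ^ (i : ℕ) * v.2 ^ (d - i),
    ∑ i : Fin (d + 1), c (Sum.inr i) * v.1 ^ (i : ℕ) * v.2 ^ (d - i))

/-- the orbit of `(1, 0)` -/
def sq {R : Type} [CommRing R] {d : ℕ} (c : CI d → R) (n : ℕ) : R × R := (step c)^[n] (1, 0)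

theorem sq_succ {R : Type} [CommRing R] {d : ℕ} (c : CI d → R) (n : ℕ) :
    sq c (n + 1) = step c (sq c n) := Function.iterate_succ_apply' _ _ _

theorem sq_map {R S : Type} [CommRing R] [CommRing S] (φ : R →+* S) {d : ℕ} (c : CI d → R)
    (n : ℕ) : sq (fun i => φ (c i)) n = (φ (sq c n).1, φ (sq c n).2) := by
  induction n with
  | zero => simp [sq]
  | succ n ih =>
    rw [sq_succ, sq_succ, ih]
    simp [step, map_sum]

theorem sq_coef {K : Type} [Field K] {d : ℕ} (f : RatMap K d) (n : ℕ) :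
    sq f.coef n = (lift2 d f.num f.den)^[n] (1, 0) := by
  induction n with
  | zero => rfl
  | succ n ih =>
    rw [sq_succ, Function.iterate_succ_apply', ih]
    unfold step lift2 hom
    rw [Finset.sum_range, Finset.sum_range]
    rfl

theorem hom_one_zero {K : Type} [Field K] (D : ℕ) (B : K[X]) : hom D B 1 0 = B.coeff D := by
  unfold hom
  rw [Finset.sum_eq_single D]
  · simp
  · intro i hi hiD
    rw [Finset.mem_range] at hi
    rw [zero_pow (by omega), mul_zero]
  · intro h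
    exact absurd (Finset.mem_range.mpr (Nat.lt_succ_self D)) h

/-- the special values -/
def sv (d : ℕ) : CI d → ℚ
  | Sum.inl i => if (i : ℕ) = 0 then 1 else 0
  | Sum.inr i => if (i : ℕ) = 0 ∨ (i : ℕ) = d then 1 else 0

theorem step_sv {d : ℕ} (hd : 1 ≤ d) (v : ℚ × ℚ) :
    step (sv d) v = (v.2 ^ d, v.2 ^ d + v.1 ^ d) := by
  unfold step
  have h1 : ∑ i : Fin (d + 1), sv d (Sum.inl i) * v.1 ^ (i : ℕ) * v.2 ^ (d - i) = v.2 ^ d := by
    rw [Fin.sum_univ_succ, Finset.sum_eq_zero]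
    · simp [sv]
    · intro i _
      simp [sv]
  have h2 : ∑ i : Fin (d + 1), sv d (Sum.inr i) * v.1 ^ (i : ℕ) * v.2 ^ (d - i)
      = v.2 ^ d + v.1 ^ d := by
    obtain ⟨e, rfl⟩ : ∃ e, d = e + 1 := ⟨d - 1, by omega⟩
    rw [Fin.sum_univ_succ, Fin.sum_univ_castSucc, Finset.sum_eq_zero]
    · simp [sv]
    · intro i _
      have := i.2
      have h3 : sv (e + 1) (Sum.inr (Fin.succ (Fin.castSucc i))) = 0 := by
        simp only [sv, Fin.val_succ, Fin.val_castSucc]
        rw [if_neg]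
        omega
      rw [h3, zero_mul, zero_mul]
  rw [h1, h2]

theorem sq_pos {d : ℕ} (hd : 1 ≤ d) (n : ℕ) :
    0 ≤ (sq (sv d) (n + 1)).1 ∧ 0 < (sq (sv d) (n + 1)).2 := by
  induction n with
  | zero =>
    rw [sq_succ, step_sv hd]
    simp only [sq, Function.iterate_zero, id_eq]
    rw [zero_pow (by omega), one_pow]
    norm_num
  | succ n ih =>
    rw [sq_succ, step_sv hd]
    obtain ⟨h1, h2⟩ := ih
    simp only
    exact ⟨by positivity, by positivity⟩

end FN

open FN in
theorem FN_holds (hA3 : A3S) : FNS := by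
  intro K _ _ d f hd hind n hn
  have h1 := hA3 K d n f.num f.den (1, 0) hd
  rw [← sq_coef] at h1
  have h2 : (sq f.coef n).2 = (iter d f.num f.den n).2.coeff (d ^ n) := by
    rw [h1]
    exact hom_one_zero _ _
  rw [← h2]
  have h3 := sq_map ((MvPolynomial.aeval f.coef : MvPolynomial (CI d) ℚ →ₐ[ℚ] K) :
    MvPolynomial (CI d) ℚ →+* K) (d := d) (fun i => MvPolynomial.X i) n
  have h4 : (fun i => ((MvPolynomial.aeval f.coef : MvPolynomial (CI d) ℚ →ₐ[ℚ] K) :
    MvPolynomial (CI d) ℚ →+* K) (MvPolynomial.X i)) = f.coef := by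
    ext i
    simp
  rw [h4] at h3
  rw [h3]
  intro h0
  have h5 : (sq (fun i => (MvPolynomial.X i : MvPolynomial (CI d) ℚ)) n).2 = 0 := by
    have h6 : MvPolynomial.aeval f.coef
        (sq (fun i => (MvPolynomial.X i : MvPolynomial (CI d) ℚ)) n).2 = 0 := h0
    exact (map_eq_zero_iff _ hind).mp h6
  have h6 := sq_map (MvPolynomial.eval (sv d)) (d := d) (fun i => MvPolynomial.X i) n
  have h7 : (fun i => MvPolynomial.eval (sv d) (MvPolynomial.X i)) = sv d := by
    ext i
    simp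
  rw [h7, h5, map_zero] at h6
  obtain ⟨m, rfl⟩ : ∃ m, n = m + 1 := ⟨n - 1, by omega⟩
  have h8 := (sq_pos hd m).2
  rw [h6] at h8
  exact lt_irrefl _ h8

end Pool.Agent.LenSpec
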