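import Pool.Agent.LenSpec.Stmt

/-!
G1: simple roots, the multiplier spectrum for maps in general position.
-/

namespace Pool.Agent.LenSpec

open Polynomial

theorem g1_holds (a1 : A1S) (a2 : A2S) (a4 : A4S) : G1S := by
  intro K _ _ d n f hf hn
  classical
  have hd1 : 1 ≤ d := le_trans (by norm_num) hf.two_le
  obtain ⟨h2a, h2b, -, h2d⟩ := a2 K d n f.num f.den hd1 f.num_le f.den_le f.deg_eq f.coprime
  have hcoef := hf.noInf n hn
  obtain ⟨A, hA⟩ : ∃ A, A = (iter d f.num f.den n).1 := ⟨_, rfl⟩
  obtain ⟨B, hB⟩ : ∃ B, B = (iter d f.num f.den n).2 := ⟨_, rfl⟩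
  have hfix : fixPoly d f.num f.den n = A - X * B := by rw [fixPoly, hA, hB]
  rw [← hA] at h2a h2d
  rw [← hB] at h2b h2d hcoef
  have hB0 : B ≠ 0 := by
    rintro h
    rw [h, coeff_zero] at hcoef
    exact hcoef rfl
  have hBdeg : B.natDegree = d ^ n := le_antisymm h2b (le_natDegree_of_ne_zero hcoef)
  have hXB : (X * B).natDegree = d ^ n + 1 := by rw [natDegree_X_mul hB0, hBdeg]
  have hdeg : (fixPoly d f.num f.den n).natDegree = d ^ n + 1 := by
    rw [hfix, natDegree_sub_eq_right_of_natDegree_lt (by rw [hXB]; omega), hXB]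
  have hne : fixPoly d f.num f.den n ≠ 0 := by
    intro h
    rw [h, natDegree_zero] at hdeg
    omega
  have hroots : ∀ z, z ∈ (fixPoly d f.num f.den n).roots ↔ Per f.num f.den n z := by
    intro z
    rw [mem_roots hne, IsRoot]
    exact a4 K d n f z hd1 hn hf.noInf
  have hder : ∀ z ∈ (fixPoly d f.num f.den n).roots,
      derivAt A B z = mult f.num f.den n z := by
    intro z hz
    have hper := (hroots z).mp hz
    rw [hA, hB]
    exact (a1 K d n f.num f.den z f.num_le f.den_le (fun k _ => hper.1 k)).2.2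
  have hnd : (fixPoly d f.num f.den n).roots.Nodup := by
    apply nodup_roots
    rw [separable_def, Polynomial.isCoprime_iff_aeval_ne_zero_of_isAlgClosed K K]
    intro z
    by_contra hcon
    push Not at hcon
    obtain ⟨h1, h2⟩ := hcon
    rw [coe_aeval_eq_eval] at h1 h2
    have hz : z ∈ (fixPoly d f.num f.den n).roots := (mem_roots hne).mpr h1
    have hper := (hroots z).mp hz
    have hBz : B.eval z ≠ 0 := by
      rw [hB]
      exact (a1 K d n f.num f.den z f.num_le f.den_le (fun k _ => hper.1 k)).1
    have hm := hf.mult_ne n z hn hper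
    rw [← hder z hz] at hm
    apply hm
    rw [hfix, derivative_sub, derivative_mul, derivative_X, eval_sub, eval_add, eval_mul,
      eval_mul, eval_one, eval_X] at h2
    rw [hfix, eval_sub, eval_mul, eval_X] at h1
    rw [derivAt, div_eq_one_iff_eq (pow_ne_zero 2 hBz)]
    linear_combination (B.eval z) * h2 - (derivative B).eval z * h1
  refine ⟨hdeg, hnd, ?_, hroots, ?_⟩
  · rw [← hdeg]
    exact (IsAlgClosed.splits _).natDegree_eq_card_roots.symm
  · have h1 : f.multSpec n = (A - X * B).roots.map (derivAt A B) +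
        Multiset.replicate (d ^ n + 1 - (A - X * B).natDegree) (multInf A B) := by
      rw [RatMap.multSpec, fixMult, hA, hB]
    rw [h1, ← hfix, hdeg, Nat.sub_self, Multiset.replicate_zero, add_zero]
    exact Multiset.map_congr rfl hder

end Pool.Agent.LenSpec
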