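import Pool.Agent.LenSpec.Stmt

/-!
G2: decomposition of the periodic points according to the exact period.
-/

namespace Pool.Agent.LenSpec

open Polynomial

/-- a point has at most one exact period -/
theorem PerX_unique {K : Type} [Field K] {P Q : K[X]} {m n : ℕ} {z : K} (hm : 1 ≤ m)
    (hn : 1 ≤ n) (h1 : PerX P Q m z) (h2 : PerX P Q n z) : m = n := by
  rcases lt_trichotomy m n with h | h | h
  · exact absurd h1.1.2 (h2.2 m hm h)
  · exact h
  · exact absurd h2.1.2 (h1.2 n hn h)

/-- multiples of the exact period -/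
theorem Per_of_dvd {K : Type} [Field K] {P Q : K[X]} {m n : ℕ} {z : K} (h : m ∣ n)
    (h1 : Per P Q m z) : Per P Q n z := by
  obtain ⟨q, rfl⟩ := h
  exact ⟨h1.1, Function.IsPeriodicPt.mul_const h1.2 q⟩

theorem G2_holds (hG1 : G1S) (hA6 : A6S) : G2S := by
  classical
  intro K _ _ d n f hf hn
  have hmemX : ∀ m, 1 ≤ m → ∀ z, z ∈ perF d f.num f.den m ↔ PerX f.num f.den m z := by
    intro m hm z
    obtain ⟨_, _, _, hr, _⟩ := hG1 K d m f hf hm
    unfold perF
    rw [Finset.mem_filter, Multiset.mem_toFinset, hr z]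
    constructor
    · exact fun h => h.2
    · exact fun h => ⟨h.1, h⟩
  obtain ⟨_, hnd, hcard, hr, hms⟩ := hG1 K d n f hf hn
  have hpos : ∀ m ∈ n.divisors, 1 ≤ m := fun m hm => Nat.pos_of_mem_divisors hm
  have hdisj : ((n.divisors : Finset ℕ) : Set ℕ).PairwiseDisjoint
      (fun m => perF d f.num f.den m) := by
    intro m hm m' hm' hne
    rw [Function.onFun, Finset.disjoint_left]
    intro z hz hz'
    exact hne (PerX_unique (hpos m hm) (hpos m' hm') ((hmemX m (hpos m hm) z).1 hz)
      ((hmemX m' (hpos m' hm') z).1 hz'))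
  have hset : (fixPoly d f.num f.den n).roots.toFinset =
      n.divisors.disjiUnion (fun m => perF d f.num f.den m) hdisj := by
    ext z
    rw [Multiset.mem_toFinset, hr z, Finset.mem_disjiUnion]
    constructor
    · intro hz
      obtain ⟨m, hmn, hm, hX, _⟩ := hA6 K f.num f.den n z hn hz
      exact ⟨m, Nat.mem_divisors.2 ⟨hmn, by omega⟩, (hmemX m hm z).2 hX⟩
    · rintro ⟨m, hm, hz⟩
      exact Per_of_dvd (Nat.dvd_of_mem_divisors hm) ((hmemX m (hpos m hm) z).1 hz).1
  have hval : (fixPoly d f.num f.den n).roots =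
      n.divisors.val.bind (fun m => (perF d f.num f.den m).val) := by
    have h1 : (fixPoly d f.num f.den n).roots.toFinset.val =
        (fixPoly d f.num f.den n).roots := by
      rw [Multiset.toFinset_val, Multiset.dedup_eq_self.2 hnd]
    rw [← h1, hset, Finset.disjiUnion_val]
  refine ⟨hmemX n hn, ?_, ?_⟩
  · rw [hms, hval, Multiset.map_bind]
    rw [Multiset.bind, Multiset.join]
    show (Multiset.map _ n.divisors.val).sum = (Multiset.map _ n.divisors.val).sum
    congr 1
    apply Multiset.map_congr rfl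
    intro m hm
    have hm' : m ∈ n.divisors := hm
    unfold MX
    rw [Multiset.map_map]
    apply Multiset.map_congr rfl
    intro z hz
    have hz' : PerX f.num f.den m z := (hmemX m (hpos m hm') z).1 hz
    obtain ⟨m', hmn, hm1, hX, hmul⟩ := hA6 K f.num f.den n z hn
      (Per_of_dvd (Nat.dvd_of_mem_divisors hm') hz'.1)
    have : m' = m := PerX_unique hm1 (hpos m hm') hX hz'
    subst this
    exact hmul
  · rw [← hcard, hval, Multiset.card_bind]
    rfl

end Pool.Agent.LenSpec
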