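import Pool.Agent.LenSpec.Stmt

/-!
G3: counting periodic points and multipliers.
-/

namespace Pool.Agent.LenSpec

open Polynomial

theorem G3_holds (hG2 : G2S) (hA5 : A5S) : G3S := by
  classical
  intro K _ _ d n f hf hn
  obtain ⟨hmem, _, hcount⟩ := hG2 K d n f hf hn
  have hXS : XS f.num f.den n =
      ((perF d f.num f.den n).image (mult f.num f.den n) : Finset K) := by
    ext x
    rw [Finset.coe_image]
    constructor
    · rintro ⟨z, hz, rfl⟩
      exact ⟨z, (hmem z).2 hz, rfl⟩
    · rintro ⟨z, hz, rfl⟩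
      exact ⟨z, (hmem z).1 hz, rfl⟩
  have hcardXS : (XS f.num f.den n).ncard =
      ((perF d f.num f.den n).image (mult f.num f.den n)).card := by
    rw [hXS, Set.ncard_coe_finset]
  -- the orbit of a point of exact period `n`
  have horb : ∀ z, PerX f.num f.den n z →
      ((Finset.range n).image (fun k => (ev f.num f.den)^[k] z)).card = n ∧
      (Finset.range n).image (fun k => (ev f.num f.den)^[k] z) ⊆
        (perF d f.num f.den n).filter
          (fun u => mult f.num f.den n u = mult f.num f.den n z) := by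
    intro z hz
    obtain ⟨h1, h2, h3⟩ := hA5 K f.num f.den n z hn hz
    refine ⟨?_, ?_⟩
    · rw [Finset.card_image_of_injOn, Finset.card_range]
      intro i hi j hj h
      exact h3 i (Finset.mem_range.1 hi) j (Finset.mem_range.1 hj) h
    · intro u hu
      obtain ⟨k, _, rfl⟩ := Finset.mem_image.1 hu
      exact Finset.mem_filter.2 ⟨(hmem _).2 (h1 k), h2 k⟩
  have hfib := Finset.card_eq_sum_card_image (mult f.num f.den n) (perF d f.num f.den n)
  refine ⟨?_, ?_, ?_, ?_⟩
  · intro hp
    obtain ⟨_, _, hcount1⟩ := hG2 K d 1 f hf le_rfl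
    rw [Nat.divisors_one, Finset.sum_singleton, pow_one] at hcount1
    rw [hp.sum_divisors, hcount1] at hcount
    omega
  · rw [hXS]
    exact Finset.finite_toSet _
  · rw [hcardXS, hfib, mul_comm, ← smul_eq_mul, ← Finset.sum_const]
    refine Finset.sum_le_sum fun x hx => ?_
    obtain ⟨z, hz, rfl⟩ := Finset.mem_image.1 hx
    obtain ⟨h1, h2⟩ := horb z ((hmem z).1 hz)
    calc n = _ := h1.symm
      _ ≤ _ := Finset.card_le_card h2
  · intro hinj
    rw [hcardXS, hfib, mul_comm, ← smul_eq_mul, ← Finset.sum_const]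
    refine Finset.sum_congr rfl fun x hx => ?_
    obtain ⟨z, hz, rfl⟩ := Finset.mem_image.1 hx
    obtain ⟨h1, h2⟩ := horb z ((hmem z).1 hz)
    have h3 : (Finset.range n).image (fun k => (ev f.num f.den)^[k] z) =
        (perF d f.num f.den n).filter
          (fun u => mult f.num f.den n u = mult f.num f.den n z) := by
      refine Finset.Subset.antisymm h2 ?_
      intro u hu
      obtain ⟨hu1, hu2⟩ := Finset.mem_filter.1 hu
      obtain ⟨k, rfl⟩ := hinj z u ((hmem z).1 hz) ((hmem u).1 hu1) hu2.symm
      refine Finset.mem_image.2 ⟨k % n, Finset.mem_range.2 (Nat.mod_lt _ hn), ?_⟩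
      exact Function.IsPeriodicPt.iterate_mod_apply ((hmem z).1 hz).1.2 k
    rw [← h3, h1]

end Pool.Agent.LenSpec
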