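import Pool.Agent.LenSpec.Stmt

namespace Pool.Agent.LenSpec

theorem H0_holds : H0S := by
  intro K _ _ c D S hD0 hD1 hDm hn hs
  have hσD : c.σ (D : K) = (D : K) := map_intCast c.σ D
  have hD0' : (D : K) ≠ 0 := by exact_mod_cast hD0
  have hD1' : (1 : K) - (D : K) ≠ 0 := by
    rw [sub_ne_zero]
    intro h
    apply hD1
    have : ((1 : ℤ) : K) = (D : K) := by rw [← h]; norm_num
    exact_mod_cast this.symm
  have hDm' : (1 : K) + (D : K) ≠ 0 := by
    intro h
    apply hDm
    have h2 : ((-1 : ℤ) : K) = (D : K) := by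
      push_cast
      linear_combination -h
    exact_mod_cast h2.symm
  have key : ∀ θ : K, c.nrm θ = 1 → (1 - θ * (D : K)) ≠ 0 ∧ (1 - c.σ θ * (D : K)) ≠ 0 := by
    intro θ h
    unfold Cj.nrm at h
    have aux : ∀ a b : K, a * b = 1 → (1 - a * (D : K)) = 0 → (1 - b * (D : K)) = 0 → False := by
      intro a b hab ha hb
      have h1 : (D : K) * (D : K) = 1 := by
        have e1 : a * (D : K) = 1 := by linear_combination -ha
        have e2 : b * (D : K) = 1 := by linear_combination -hb
        calc (D : K) * (D : K) = (a * b) * ((D : K) * (D : K)) := by rw [hab, one_mul]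
          _ = (a * (D : K)) * (b * (D : K)) := by ring
          _ = 1 := by rw [e1, e2, one_mul]
      have h2 : (1 - (D : K)) * (1 + (D : K)) = 0 := by linear_combination -h1
      rcases mul_eq_zero.1 h2 with h3 | h3
      · exact hD1' h3
      · exact hDm' h3
    constructor
    · intro h0
      have h1 : c.σ (1 - θ * (D : K)) = 0 := by rw [h0, map_zero]
      rw [map_sub, map_one, map_mul, hσD] at h1
      exact aux _ _ h h0 h1
    · intro h0
      have h1 : c.σ (1 - c.σ θ * (D : K)) = 0 := by rw [h0, map_zero]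
      rw [map_sub, map_one, map_mul, hσD, c.invol] at h1
      exact aux _ _ h h1 h0
  -- the pointwise identity
  have ident : ∀ θ ∈ S,
      ((1 - θ) / (1 - θ * (D : K))) * c.σ ((1 - θ) / (1 - θ * (D : K))) =
      (-((1 - (D : K)) / ((D : K) * (1 + (D : K))))) * ((1 - θ * (D : K))⁻¹ +
        c.σ ((1 - θ * (D : K))⁻¹) - 2 * (1 - (D : K))⁻¹) := by
    intro θ hθ
    obtain ⟨k1, k2⟩ := key θ (hn θ hθ)
    have h := hn θ hθ
    unfold Cj.nrm at h
    rw [map_div₀, map_inv₀, map_sub, map_sub, map_one, map_mul, hσD]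
    have e1 : (1 - θ) / (1 - θ * (D : K)) * ((1 - c.σ θ) / (1 - c.σ θ * (D : K))) =
      (2 - (θ + c.σ θ)) / ((1 - θ * (D : K)) * (1 - c.σ θ * (D : K))) := by
      rw [div_mul_div_comm]
      congr 1
      linear_combination h
    rw [e1]
    field_simp
    linear_combination (-(D : K) ^ 2 * 2) * h
  have hsum : (S.map (fun θ => (1 - θ) / (1 - θ * (D : K)))).map (fun y => y * c.σ y) =
      S.map (fun θ => (-((1 - (D : K)) / ((D : K) * (1 + (D : K))))) * ((1 - θ * (D : K))⁻¹ +
        c.σ ((1 - θ * (D : K))⁻¹) - 2 * (1 - (D : K))⁻¹)) := by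
    rw [Multiset.map_map]
    exact Multiset.map_congr rfl ident
  have hs2 : (S.map (fun θ => c.σ ((1 - θ * (D : K))⁻¹))).sum =
      Multiset.card S * (1 - (D : K))⁻¹ := by
    have h1 := congrArg c.σ hs
    rw [map_multiset_sum, Multiset.map_map] at h1
    rw [map_mul, map_natCast, map_inv₀, map_sub, map_one, hσD] at h1
    exact h1
  have hz : ((S.map (fun θ => (1 - θ) / (1 - θ * (D : K)))).map (fun y => y * c.σ y)).sum = 0 := by
    rw [hsum, Multiset.sum_map_mul_left, Multiset.sum_map_sub, Multiset.sum_map_add, hs, hs2]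
    simp only [Multiset.map_const', Multiset.sum_replicate, nsmul_eq_mul]
    ring
  intro θ hθ
  have h1 := c.pos _ hz ((1 - θ) / (1 - θ * (D : K))) (Multiset.mem_map_of_mem _ hθ)
  rcases div_eq_zero_iff.1 h1 with h2 | h2
  · linear_combination -h2
  · exact absurd h2 (key θ (hn θ hθ)).1

end Pool.Agent.LenSpec
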