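import Pool.Agent.LenSpec.Stmt
import Pool.Agent.LenSpec.PlBasic

/-!
Module H1: a map with the same norms of the multipliers, all multipliers of which are algebraic
over the field of the coefficients of a generic map, has the same multipliers.
-/

namespace Pool.Agent.LenSpec

open Polynomial

namespace H1

theorem exists_pairs {α β : Type} {r : α → β → Prop} {s : Multiset α} {t : Multiset β}
    (h : Multiset.Rel r s t) :
    ∃ P : Multiset (α × β), P.map Prod.fst = s ∧ P.map Prod.snd = t ∧ ∀ q ∈ P, r q.1 q.2 := by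
  induction h with
  | zero => exact ⟨0, rfl, rfl, by simp⟩
  | @cons a b s t hab _ ih =>
    obtain ⟨P, h1, h2, h3⟩ := ih
    refine ⟨(a, b) ::ₘ P, by simp [h1], by simp [h2], ?_⟩
    intro q hq
    rcases Multiset.mem_cons.1 hq with rfl | hq
    · exact hab
    · exact h3 q hq

theorem exists_pairs_map {α β γ : Type} (f : α → γ) (g : β → γ) {s : Multiset α}
    {t : Multiset β} (h : s.map f = t.map g) :
    ∃ P : Multiset (α × β), P.map Prod.fst = s ∧ P.map Prod.snd = t ∧
      ∀ q ∈ P, f q.1 = g q.2 :=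
  exists_pairs (Multiset.rel_map.1 (Multiset.rel_eq.2 h))

theorem isAlgebraic_conj {K : Type} [Field K] [CharZero K] (c : Cj K) {ι : Type} (x : ι → K)
    (z : K) (h : IsAlgebraic (IntermediateField.adjoin ℚ (Set.range x)) z) :
    IsAlgebraic (IntermediateField.adjoin ℚ (Set.range (fun i => c.σ (x i)))) (c.σ z) := by
  have h1 : ∀ a ∈ IntermediateField.adjoin ℚ (Set.range x),
      c.σ a ∈ IntermediateField.adjoin ℚ (Set.range (fun i => c.σ (x i))) := by
    intro a ha
    have h2 : (IntermediateField.adjoin ℚ (Set.range x)).map c.σ.toRatAlgHom =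
        IntermediateField.adjoin ℚ (Set.range (fun i => c.σ (x i))) := by
      rw [IntermediateField.adjoin_map]
      congr 1
      ext y
      constructor
      · rintro ⟨_, ⟨i, rfl⟩, rfl⟩
        exact ⟨i, rfl⟩
      · rintro ⟨i, rfl⟩
        exact ⟨x i, ⟨i, rfl⟩, rfl⟩
    rw [← h2]
    exact ⟨a, ha, rfl⟩
  let φ : IntermediateField.adjoin ℚ (Set.range x) →+*
      IntermediateField.adjoin ℚ (Set.range (fun i => c.σ (x i))) :=
    { toFun := fun a => ⟨c.σ a, h1 a a.2⟩
      map_one' := Subtype.ext (map_one c.σ)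
      map_mul' := fun a b => Subtype.ext (map_mul c.σ _ _)
      map_zero' := Subtype.ext (map_zero c.σ)
      map_add' := fun a b => Subtype.ext (map_add c.σ _ _) }
  exact h.ringHom_of_comp_eq φ c.σ φ.injective rfl

/-- reduction is injective on algebraic elements -/
theorem red_zero_of_alg {K κ : Type} [Field K] [CharZero K] [Field κ] (p : Pl K κ)
    (hp : ∀ x, IsAlgebraic ℚ x → x ∈ p.O) (w : K) (hw : IsAlgebraic ℚ w) (h : p.Red w 0) :
    w = 0 := by
  by_contra hne
  have h1 := Pl.red_rs (p := p) (hp _ hw.inv)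
  have h2 := h.mul h1
  rw [mul_inv_cancel₀ hne, zero_mul] at h2
  exact one_ne_zero (Pl.Red.unique Pl.red_one h2)

theorem red_msum {K κ ι : Type} [Field K] [Field κ] (p : Pl K κ) (s : Multiset ι) (x : ι → K)
    (y : ι → κ) (h : ∀ i ∈ s, p.Red (x i) (y i)) :
    p.Red (s.map x).sum (s.map y).sum := by
  induction s using Multiset.induction_on with
  | empty => simpa using Pl.red_zero
  | cons a s ih =>
    simp only [Multiset.map_cons, Multiset.sum_cons]
    exact (h a (Multiset.mem_cons_self a s)).add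
      (ih fun i hi => h i (Multiset.mem_cons_of_mem hi))

theorem alg_msum {K ι : Type} [Field K] [CharZero K] (s : Multiset ι) (x : ι → K)
    (h : ∀ i ∈ s, IsAlgebraic ℚ (x i)) : IsAlgebraic ℚ (s.map x).sum := by
  induction s using Multiset.induction_on with
  | empty => simpa using isAlgebraic_zero
  | cons a s ih =>
    simp only [Multiset.map_cons, Multiset.sum_cons]
    exact (h a (Multiset.mem_cons_self a s)).add
      (ih fun i hi => h i (Multiset.mem_cons_of_mem hi))

/-- the core of the argument: pairs of multipliers with equal norms, equal sums -/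
theorem core {K κ : Type} [Field K] [CharZero K] [Field κ] [CharZero κ] (hH0 : H0S) (c : Cj K)
    (p : Pl K κ) (hp : ∀ x, IsAlgebraic ℚ x → x ∈ p.O) (D : ℤ) (hD0 : D ≠ 0) (hD1 : D ≠ 1)
    (hD2 : D ≠ -1) (P : Multiset (K × K)) (hnrm : ∀ q ∈ P, c.nrm q.1 = c.nrm q.2)
    (hne : ∀ q ∈ P, q.1 ≠ 0) (halg : ∀ q ∈ P, IsAlgebraic ℚ (q.2 / q.1))
    (hred : ∀ q ∈ P, p.Red q.1 (D : κ))
    (hsum : (P.map (fun q => (1 - q.1)⁻¹)).sum = (P.map (fun q => (1 - q.2)⁻¹)).sum) :
    ∀ q ∈ P, q.1 = q.2 := by
  have hn1 : ∀ q ∈ P, c.nrm (q.2 / q.1) = 1 := by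
    intro q hq
    have h1 := hnrm q hq
    have h2 : c.σ q.1 ≠ 0 := by
      rw [_root_.map_ne_zero]
      exact hne q hq
    unfold Cj.nrm at h1 ⊢
    rw [map_div₀, div_mul_div_comm, ← h1, div_self (mul_ne_zero (hne q hq) h2)]
  have hDD : (D : K) * D ≠ 1 := by
    intro h
    have h1 : D * D = 1 := by exact_mod_cast h
    rcases Int.eq_one_or_neg_one_of_mul_eq_one h1 with h2 | h2
    · exact hD1 h2
    · exact hD2 h2
  have hnz : ∀ q ∈ P, 1 - q.2 / q.1 * (D : K) ≠ 0 := by
    intro q hq h
    have h1 : q.2 / q.1 * (D : K) = 1 := (sub_eq_zero.1 h).symm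
    have h2 := congrArg c.nrm h1
    unfold Cj.nrm at h2
    rw [map_mul, map_one, one_mul, map_intCast] at h2
    have h3 := hn1 q hq
    unfold Cj.nrm at h3
    apply hDD
    calc (D : K) * D = (q.2 / q.1 * c.σ (q.2 / q.1)) * (D * D) := by rw [h3, one_mul]
      _ = 1 := by rw [← h2]; ring
  have hrD : p.Red (D : K) (D : κ) := by
    refine ⟨intCast_mem p.O D, ?_⟩
    exact map_intCast p.res D
  have hDκ : (1 : κ) - D ≠ 0 := by
    intro h
    have h1 : (D : κ) = 1 := (sub_eq_zero.1 h).symm
    exact hD1 (by exact_mod_cast h1)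
  have hs1 : p.Red (P.map (fun q => (1 - q.1)⁻¹)).sum
      (P.map (fun _ => (1 - (D : κ))⁻¹)).sum := by
    apply red_msum
    intro q hq
    exact (Pl.red_one.sub (hred q hq)).inv hDκ
  have hs2 : p.Red (P.map (fun q => (1 - q.2)⁻¹)).sum
      (P.map (fun q => (1 - p.rs (q.2 / q.1) * (D : κ))⁻¹)).sum ∧
      p.Red (P.map (fun q => (1 - q.2 / q.1 * (D : K))⁻¹)).sum
      (P.map (fun q => (1 - p.rs (q.2 / q.1) * (D : κ))⁻¹)).sum := by
    have hκ : ∀ q ∈ P, 1 - p.rs (q.2 / q.1) * (D : κ) ≠ 0 := by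
      intro q hq h
      have h1 : p.Red (1 - q.2 / q.1 * (D : K)) 0 :=
        (Pl.red_one.sub ((Pl.red_rs (hp _ (halg q hq))).mul hrD)).eq rfl h
      exact hnz q hq (red_zero_of_alg p hp _
        (isAlgebraic_one.sub ((halg q hq).mul (isAlgebraic_intCast D))) h1)
    constructor
    · apply red_msum
      intro q hq
      have h1 : q.2 = q.2 / q.1 * q.1 := by rw [div_mul_cancel₀ _ (hne q hq)]
      have h2 := (Pl.red_rs (hp _ (halg q hq))).mul (hred q hq)
      rw [← h1] at h2
      exact (Pl.red_one.sub h2).inv (hκ q hq)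
    · apply red_msum
      intro q hq
      exact (Pl.red_one.sub ((Pl.red_rs (hp _ (halg q hq))).mul hrD)).inv (hκ q hq)
  have hs3 : (P.map (fun _ => (1 - (D : κ))⁻¹)).sum =
      (P.map (fun q => (1 - p.rs (q.2 / q.1) * (D : κ))⁻¹)).sum := by
    rw [hsum] at hs1
    exact hs1.unique hs2.1
  have hs4 : p.Red (P.map (fun _ => (1 - (D : K))⁻¹)).sum
      (P.map (fun _ => (1 - (D : κ))⁻¹)).sum := by
    apply red_msum
    intro q _
    exact (Pl.red_one.sub hrD).inv hDκ
  have hs5 : (P.map (fun q => (1 - q.2 / q.1 * (D : K))⁻¹)).sum =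
      (P.map (fun _ => (1 - (D : K))⁻¹)).sum := by
    apply sub_eq_zero.1
    apply red_zero_of_alg p hp
    · apply IsAlgebraic.sub
      · apply alg_msum
        intro q hq
        exact (isAlgebraic_one.sub ((halg q hq).mul (isAlgebraic_intCast D))).inv
      · apply alg_msum
        intro q hq
        exact (isAlgebraic_one.sub (isAlgebraic_intCast D)).inv
    · exact (hs2.2.sub hs4).eq rfl (by rw [hs3, sub_self])
  have h6 := hH0 K c D (P.map (fun q => q.2 / q.1)) hD0 hD1 hD2 (by
    intro θ hθ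
    obtain ⟨q, hq, rfl⟩ := Multiset.mem_map.1 hθ
    exact hn1 q hq) (by
    rw [Multiset.map_map, Multiset.card_map]
    simp only [Function.comp_def]
    rw [hs5, Multiset.map_const', Multiset.sum_replicate, nsmul_eq_mul])
  intro q hq
  have h7 := h6 (q.2 / q.1) (Multiset.mem_map.2 ⟨q, hq, rfl⟩)
  exact ((div_eq_one_iff_eq (hne q hq)).1 h7).symm

/-- the sum over the divisors -/
theorem sum_split {K : Type} [Field K] (n : ℕ) (M N : ℕ → Multiset K) (hn : 1 ≤ n)
    (h : ∀ m, 1 ≤ m → m < n → M m = N m)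
    (hM : ((∑ m ∈ n.divisors, (M m).map (fun x => x ^ (n / m))).map (fun x => (1 - x)⁻¹)).sum =
      ((∑ m ∈ n.divisors, (N m).map (fun x => x ^ (n / m))).map (fun x => (1 - x)⁻¹)).sum) :
    ((M n).map (fun x => (1 - x)⁻¹)).sum = ((N n).map (fun x => (1 - x)⁻¹)).sum := by
  have hs : ∀ F : ℕ → Multiset K,
      ((∑ m ∈ n.divisors, F m).map (fun x => (1 - x)⁻¹)).sum =
        ∑ m ∈ n.divisors, ((F m).map (fun x => (1 - x)⁻¹)).sum := by
    intro F
    have h1 := map_sum (Multiset.sumAddMonoidHom.comp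
      (Multiset.mapAddMonoidHom (fun x : K => (1 - x)⁻¹))) F n.divisors
    exact h1
  rw [hs, hs, ← Nat.insert_self_properDivisors (show n ≠ 0 by omega),
    Finset.sum_insert Nat.self_notMem_properDivisors,
    Finset.sum_insert Nat.self_notMem_properDivisors] at hM
  have h2 : ∑ m ∈ n.properDivisors, (((M m).map (fun x => x ^ (n / m))).map
        (fun x => (1 - x)⁻¹)).sum =
      ∑ m ∈ n.properDivisors, (((N m).map (fun x => x ^ (n / m))).map
        (fun x => (1 - x)⁻¹)).sum := by
    apply Finset.sum_congr rfl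
    intro m hm
    have h3 := Nat.mem_properDivisors.1 hm
    rw [h m (Nat.pos_of_dvd_of_pos h3.1 hn) h3.2]
  rw [h2] at hM
  have h4 := add_right_cancel hM
  simpa [Nat.div_self hn] using h4

end H1

open H1 in
theorem H1_holds (hH0 : H0S) (hIC : ICS) (hZ3 : Z3S) (hFG : FGS) (hE1 : E1S) (hG2 : G2S)
    (hC2 : C2S) (hB5 : B5S) : H1S := by
  intro K _ _ _ c d f g hf hg hspec halg
  have hfg := hFG K c d f hf
  have hgf := hfg.1
  have hE := hE1 K c d f g hgf hg hspec
  have hmemf : ∀ n, 1 ≤ n → ∀ x ∈ MX d f.num f.den n, x ∈ f.multSpec n := by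
    intro n hn x hx
    rw [(hG2 K d n f hgf hn).2.1, Multiset.mem_sum]
    refine ⟨n, Nat.mem_divisors_self n (by omega), ?_⟩
    rw [Nat.div_self hn]
    simpa using hx
  have hmemg : ∀ n, 1 ≤ n → ∀ x ∈ MX d g.num g.den n, x ∈ g.multSpec n := by
    intro n hn x hx
    rw [(hG2 K d n g hg hn).2.1, Multiset.mem_sum]
    refine ⟨n, Nat.mem_divisors_self n (by omega), ?_⟩
    rw [Nat.div_self hn]
    simpa using hx
  have key : ∀ n, 1 ≤ n → MX d f.num f.den n = MX d g.num g.den n := by
    intro n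
    induction n using Nat.strong_induction_on with
    | _ n ih =>
      intro hn
      have hs := sum_split n (MX d f.num f.den) (MX d g.num g.den) hn
        (fun m hm1 hm2 => ih m hm2 hm1) (by
          rw [← (hG2 K d n f hgf hn).2.1, ← (hG2 K d n g hg hn).2.1, hC2 K d n f hgf hn,
            hC2 K d n g hg hn])
      obtain ⟨P, hP1, hP2, hP3⟩ := exists_pairs_map c.nrm c.nrm (hE n hn)
      have hq1 : ∀ q ∈ P, q.1 ∈ MX d f.num f.den n := by
        intro q hq
        rw [← hP1]
        exact Multiset.mem_map_of_mem _ hq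
      have hq2 : ∀ q ∈ P, q.2 ∈ MX d g.num g.den n := by
        intro q hq
        rw [← hP2]
        exact Multiset.mem_map_of_mem _ hq
      have hne : ∀ q ∈ P, q.1 ≠ 0 := fun q hq =>
        (hfg.2 n hn q.1 (hmemf n hn _ (hq1 q hq))).2
      have hne2 : ∀ q ∈ P, q.2 ≠ 0 := by
        intro q hq h
        have h1 := hP3 q hq
        unfold Cj.nrm at h1
        rw [h, zero_mul] at h1
        rcases mul_eq_zero.1 h1 with h2 | h2
        · exact hne q hq h2
        · rw [_root_.map_eq_zero] at h2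
          exact hne q hq h2
      have hθ : ∀ q ∈ P, IsAlgebraic ℚ (q.2 / q.1) := by
        intro q hq
        have a1 := hB5 K d n f q.1 (hmemf n hn _ (hq1 q hq))
        have a2 := halg n hn q.2 (hmemg n hn _ (hq2 q hq))
        apply hIC K (CI d) (CI d) f.coef (fun i => c.σ (f.coef i))
        · have h1 := hf.indep
          convert h1 using 1
          ext i
          rcases i with i | i <;> rfl
        · rw [div_eq_mul_inv]
          exact a2.mul a1.inv
        · have h1 : q.2 / q.1 = c.σ (q.1 / q.2) := by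
            have h2 := hP3 q hq
            unfold Cj.nrm at h2
            rw [map_div₀, div_eq_div_iff (hne q hq)
              ((_root_.map_ne_zero c.σ).2 (hne2 q hq)), mul_comm (c.σ q.1)]
            exact h2.symm
          rw [h1]
          apply isAlgebraic_conj
          rw [div_eq_mul_inv]
          exact a1.mul a2.inv
      have hsum : (P.map (fun q => (1 - q.1)⁻¹)).sum = (P.map (fun q => (1 - q.2)⁻¹)).sum := by
        rw [← hP1, ← hP2, Multiset.map_map, Multiset.map_map] at hs
        exact hs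
      have hper : ∀ x ∈ MX d f.num f.den n, ∃ z, PerX f.num f.den n z ∧
          mult f.num f.den n z = x := by
        intro x hx
        obtain ⟨z, hz, rfl⟩ := Multiset.mem_map.1 hx
        exact ⟨z, ((hG2 K d n f hgf hn).1 z).1 hz, rfl⟩
      have hd := hf.two_le
      have hfin : ∀ q ∈ P, q.1 = q.2 := by
        rcases eq_or_lt_of_le hn with rfl | hn2
        · obtain ⟨-, κ, _, _, p, hp, hz⟩ := hZ3 K c d f hf
          refine core hH0 c p hp (-(d : ℤ)) (by omega) (by omega) (by omega) P hP3 hne hθ ?_ hsum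
          intro q hq
          obtain ⟨z, hz1, hz2⟩ := hper _ (hq1 q hq)
          have h1 := (hz z hz1).1
          rw [hz2] at h1
          exact h1.eq rfl (by push_cast; ring)
        · obtain ⟨⟨κ, _, _, p, hp, hz⟩, -⟩ := hZ3 K c d f hf
          have hpow : (2 : ℤ) ≤ (d : ℤ) ^ n := by
            have h1 : 2 ^ 1 ≤ d ^ n := (Nat.pow_le_pow_left hd 1).trans
              (Nat.pow_le_pow_right (by omega) hn)
            exact_mod_cast h1
          refine core hH0 c p hp ((d : ℤ) ^ n) (by omega) (by omega) (by omega) P hP3 hne hθ ?_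
            hsum
          intro q hq
          obtain ⟨z, hz1, hz2⟩ := hper _ (hq1 q hq)
          have h1 := (hz n z hn2 hz1).1
          rw [hz2] at h1
          exact h1.eq rfl (by push_cast; ring)
      rw [← hP1, ← hP2]
      exact Multiset.map_congr rfl hfin
  intro n hn
  rw [(hG2 K d n f hgf hn).2.1, (hG2 K d n g hg hn).2.1]
  apply Finset.sum_congr rfl
  intro m hm
  rw [key m (Nat.pos_of_mem_divisors hm)]

end Pool.Agent.LenSpec
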