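import Pool.Agent.LenSpec.Stmt

/-!
Elements that are algebraic over two independent families.
-/

namespace Pool.Agent.LenSpec

open Polynomial

theorem IC_holds : ICS := by
  intro K _ _ ι ι' x y h z hzx hzy
  have h1 : AlgebraicIndependent (Algebra.adjoin ℚ (Set.range y)) x :=
    (AlgebraicIndependent.sumElim_iff.1 h).2
  have hzy' : IsAlgebraic (Algebra.adjoin ℚ (Set.range y)) z :=
    IntermediateField.isAlgebraic_adjoin_iff.1 hzy
  have hzx' : IsAlgebraic (Algebra.adjoin ℚ (Set.range x)) z :=
    IntermediateField.isAlgebraic_adjoin_iff.1 hzx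
  have h2 : AlgebraicIndependent (Subalgebra.algebraicClosure (Algebra.adjoin ℚ (Set.range y)) K)
    x := h1.subalgebraAlgebraicClosure
  by_contra hz
  have hz' : Transcendental ℚ z := hz
  have hmem : z ∈ Subalgebra.algebraicClosure (Algebra.adjoin ℚ (Set.range y)) K := hzy'
  have hu : AlgebraicIndependent ℚ (fun _ : Unit =>
      (⟨z, hmem⟩ : Subalgebra.algebraicClosure (Algebra.adjoin ℚ (Set.range y)) K)) := by
    rw [algebraicIndependent_unique_type_iff]
    intro h3
    refine hz' ?_
    have := h3.algebraMap (A := K)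
    exact this
  have h3 := AlgebraicIndependent.sumElim_comp (A := K) hu h2
  have h4 : AlgebraicIndependent ℚ (Sum.elim (fun _ : Unit => z) x) := by
    have h5 := h3.comp (Equiv.sumComm Unit ι) (Equiv.sumComm Unit ι).injective
    convert! h5 using 1
    funext i
    rcases i with i | i <;> rfl
  have h5 := (AlgebraicIndependent.sumElim_iff.1 h4).2
  rw [algebraicIndependent_unique_type_iff] at h5
  exact h5 hzx'

end Pool.Agent.LenSpec
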