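import Pool.Agent.LenSpec.Stmt

/-!
J0: a valuation that is trivial on `F` and large at `t`.
-/

namespace Pool.Agent.LenSpec

open Polynomial

theorem J0_holds : J0S := by
  intro F Ω _ _ _ t ht
  have ht0 : t ≠ 0 := by
    rintro rfl
    exact ht isAlgebraic_zero
  have htinv : Transcendental F t⁻¹ := by
    intro h
    apply ht
    have := h.inv
    rwa [inv_inv] at this
  set A : Subring Ω := (Algebra.adjoin F ({t⁻¹} : Set Ω)).toSubring with hA
  have hmem : t⁻¹ ∈ A := Algebra.subset_adjoin (Set.mem_singleton _)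
  have hI : Ideal.span {(⟨t⁻¹, hmem⟩ : A)} ≠ ⊤ := by
    intro h
    rw [Ideal.eq_top_iff_one, Ideal.mem_span_singleton] at h
    obtain ⟨⟨r, hr⟩, hr2⟩ := h
    have hr' : r ∈ Algebra.adjoin F ({t⁻¹} : Set Ω) := hr
    rw [Algebra.adjoin_singleton_eq_range_aeval] at hr'
    obtain ⟨p, hp⟩ := hr'
    have h1 : (1 : Ω) = t⁻¹ * r := congrArg Subtype.val hr2
    have h2 : aeval t⁻¹ (X * p - 1) = 0 := by
      rw [map_sub, map_mul, aeval_X, map_one]
      change t⁻¹ * (aeval t⁻¹ : F[X] →ₐ[F] Ω) p - 1 = 0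
      have hp' : (aeval t⁻¹ : F[X] →ₐ[F] Ω) p = r := hp
      rw [hp', ← h1, sub_self]
    apply htinv
    refine ⟨X * p - 1, ?_, h2⟩
    intro h3
    have h4 := congrArg (fun q => coeff q 0) h3
    simp at h4
  obtain ⟨B, hB1, hB2⟩ := Ideal.image_subset_nonunits_valuationSubring _ hI
  refine ⟨B.ValueGroup, inferInstance, B.valuation, ?_, ?_⟩
  · intro a ha
    have h1 : ∀ b : F, algebraMap F Ω b ∈ B := by
      intro b
      apply hB1
      change algebraMap F Ω b ∈ Algebra.adjoin F ({t⁻¹} : Set Ω)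
      exact Subalgebra.algebraMap_mem _ b
    have h2 := (B.valuation_le_one_iff _).mpr (h1 a)
    have h3 := (B.valuation_le_one_iff _).mpr (h1 a⁻¹)
    rw [map_inv₀, map_inv₀] at h3
    have h4 : B.valuation (algebraMap F Ω a) ≠ 0 := by
      rw [Valuation.ne_zero_iff]
      simpa using ha
    apply le_antisymm h2
    rwa [inv_le_one₀ (zero_lt_iff.mpr h4)] at h3
  · have h1 : t⁻¹ ∈ B.nonunits := by
      apply hB2
      refine ⟨⟨t⁻¹, hmem⟩, Ideal.mem_span_singleton_self _, rfl⟩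
    rw [ValuationSubring.mem_nonunits_iff] at h1
    rw [map_inv₀] at h1
    have h4 : B.valuation t ≠ 0 := by
      rwa [Valuation.ne_zero_iff]
    rwa [inv_lt_one₀ (zero_lt_iff.mpr h4)] at h1

end Pool.Agent.LenSpec
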