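import Pool.Agent.LenSpec.Stmt

/-!
J2: the resultant of two complementary sets of periodic points of `z ^ d + t` is large.
-/

namespace Pool.Agent.LenSpec

open Polynomial

theorem J2_holds (hJ1 : J1S) (hK1 : K1S) : J2S := by
  classical
  intro F Ω Γ _ _ _ _ _ _ _ v t d n hF ht hd hn A B hAB hmem hA hB
  obtain ⟨γ, code, hγ, _, hbij, hdist, hfix, _⟩ := hJ1 F Ω Γ v t d n hF ht hd hn
  have hγ0 : γ ≠ 0 := (zero_lt_one.trans hγ).ne'
  have hperA : ∀ x ∈ A, (T d t)^[n] x = x := fun x hx => ((hmem x).mp (Or.inl hx)).1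
  have hperB : ∀ x ∈ B, (T d t)^[n] x = x := fun x hx => ((hmem x).mp (Or.inr hx)).1
  have hinjA : Set.InjOn code (A : Set Ω) := fun x hx y hy h =>
    hbij.injOn (hperA x hx) (hperA y hy) h
  have hinjB : Set.InjOn code (B : Set Ω) := fun x hx y hy h =>
    hbij.injOn (hperB x hx) (hperB y hy) h
  have hdisj : Disjoint (A.image code) (B.image code) := by
    rw [Finset.disjoint_left]
    intro a ha hb
    rw [Finset.mem_image] at ha hb
    obtain ⟨x, hx, rfl⟩ := ha
    obtain ⟨y, hy, hxy⟩ := hb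
    have h1 : y = x := hbij.injOn (hperB y hy) (hperA x hx) hxy
    rw [h1] at hy
    exact (Finset.disjoint_left.mp hAB) hx hy
  have hall : ∀ a : Fin n → Fin d, (a ∈ A.image code ∨ a ∈ B.image code) ↔ ∃ i j, a i ≠ a j := by
    intro a
    obtain ⟨z, hz, rfl⟩ := hbij.surjOn (Set.mem_univ a)
    have hz' : (T d t)^[n] z = z := hz
    have h2 : (∃ i j, code z i ≠ code z j) ↔ T d t z ≠ z := by
      rw [ne_eq, hfix z hz']
      push Not
      rfl
    rw [h2]
    constructor
    · rintro (h | h)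
      · rw [Finset.mem_image] at h
        obtain ⟨x, hx, hxz⟩ := h
        have h1 : x = z := hbij.injOn (hperA x hx) hz hxz
        rw [← h1]
        exact ((hmem x).mp (Or.inl hx)).2
      · rw [Finset.mem_image] at h
        obtain ⟨x, hx, hxz⟩ := h
        have h1 : x = z := hbij.injOn (hperB x hx) hz hxz
        rw [← h1]
        exact ((hmem x).mp (Or.inr hx)).2
    · intro h
      rcases (hmem z).mpr ⟨hz', h⟩ with h1 | h1
      · exact Or.inl (Finset.mem_image_of_mem _ h1)
      · exact Or.inr (Finset.mem_image_of_mem _ h1)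
  have hK := hK1 n d (A.image code) (B.image code) hd hn hdisj hall (hA.image _) (hB.image _)
  rw [Finset.sum_image hinjA] at hK
  have hval : ∀ x ∈ A, ∀ y ∈ B,
      v (x - y) = γ ^ (1 - ((d : ℤ) - 1) * (pre (code x) (code y) : ℤ)) := by
    intro x hx y hy
    have hxy : x ≠ y := by
      rintro rfl
      exact (Finset.disjoint_left.mp hAB) hx hy
    have h1 := hdist x y (hperA x hx) (hperB y hy) hxy
    have h2 : γ ^ ((d - 1) * pre (code x) (code y)) =
        γ ^ (((d : ℤ) - 1) * (pre (code x) (code y) : ℤ)) := by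
      rw [← zpow_natCast]
      congr 1
      rw [Nat.cast_mul, Nat.cast_sub (by omega)]
      simp
    rw [h2] at h1
    rw [zpow_sub₀ hγ0, zpow_one, eq_div_iff (zpow_ne_zero _ hγ0)]
    exact h1
  have hprod : v (∏ x ∈ A, ∏ y ∈ B, (x - y)) =
      γ ^ (∑ x ∈ A, ∑ y ∈ B, (1 - ((d : ℤ) - 1) * (pre (code x) (code y) : ℤ))) := by
    rw [map_prod]
    have h3 : ∀ (s : Finset Ω) (f : Ω → ℤ), γ ^ (∑ x ∈ s, f x) = ∏ x ∈ s, γ ^ (f x) := by
      intro s f
      induction s using Finset.induction_on with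
      | empty => simp
      | insert a s ha ih => rw [Finset.sum_insert ha, Finset.prod_insert ha, zpow_add₀ hγ0, ih]
    rw [h3]
    apply Finset.prod_congr rfl
    intro x hx
    rw [map_prod, h3]
    apply Finset.prod_congr rfl
    intro y hy
    exact hval x hx y hy
  rw [hprod]
  have hsum : 0 < ∑ x ∈ A, ∑ y ∈ B, (1 - ((d : ℤ) - 1) * (pre (code x) (code y) : ℤ)) := by
    refine lt_of_lt_of_eq hK ?_
    apply Finset.sum_congr rfl
    intro x _
    rw [Finset.sum_image hinjB]
  exact one_lt_zpow₀ hγ hsum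

end Pool.Agent.LenSpec
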