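import Pool.Agent.LenSpec.Stmt

/-!
K1: the energy inequality
-/

namespace Pool.Agent.LenSpec

open Finset

theorem k1_pre_comm {n d : ℕ} (a b : Fin n → Fin d) : pre a b = pre b a := by
  unfold pre
  congr 1
  apply filter_congr
  intro i _
  constructor <;> intro h j hj <;> exact (h j hj).symm

theorem k1_sum_pre {n d : ℕ} (a : Fin n → Fin d) (B : Finset (Fin n → Fin d)) :
    ∑ b ∈ B, pre a b = ∑ i : Fin n, (B.filter (fun b => ∀ j, j ≤ i → a j = b j)).card := by
  simp_rw [pre, card_filter]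
  rw [sum_comm]

theorem k1_cs {n d : ℕ} (i : Fin n) (A : Finset (Fin n → Fin d)) :
    A.card ^ 2 ≤ d ^ (i.val + 1) *
      ∑ a ∈ A, (A.filter (fun b => ∀ j, j ≤ i → a j = b j)).card := by
  classical
  set P : (Fin n → Fin d) → (Fin (i.val + 1) → Fin d) :=
    fun a k => a ⟨k.val, by have := k.2; have := i.2; omega⟩ with hP
  have hPiff : ∀ a b, P a = P b ↔ ∀ j, j ≤ i → a j = b j := by
    intro a b
    constructor
    · intro h j hj
      have := congrFun h ⟨j.val, by have : j.val ≤ i.val := hj; omega⟩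
      exact this
    · intro h
      funext k
      exact h _ (by
        show k.val ≤ i.val
        have := k.2; omega)
  set f : (Fin (i.val + 1) → Fin d) → ℕ := fun w => (A.filter (fun a => P a = w)).card with hf
  have h1 : ∑ w, f w = A.card :=
    (card_eq_sum_card_fiberwise (f := P) (s := A) (t := univ) (fun _ _ => by simp)).symm
  have h2 : ∑ w, f w ^ 2 = ∑ a ∈ A, (A.filter (fun b => ∀ j, j ≤ i → a j = b j)).card := by
    have h3 : ∀ w, f w ^ 2 = ∑ a ∈ A with P a = w, f (P a) := by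
      intro w
      have : ∑ a ∈ A with P a = w, f (P a) = ∑ a ∈ A with P a = w, f w := by
        apply sum_congr rfl
        intro a ha
        rw [(mem_filter.1 ha).2]
      rw [this, sum_const, smul_eq_mul, sq]
    simp_rw [h3]
    rw [sum_fiberwise A P (fun a => f (P a))]
    apply sum_congr rfl
    intro a _
    simp only [hf]
    congr 1
    apply filter_congr
    intro b _
    rw [← hPiff, eq_comm]
  have h4 := sq_sum_le_card_mul_sum_sq (s := (univ : Finset (Fin (i.val + 1) → Fin d)))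
    (f := f)
  rw [h1, h2] at h4
  have h5 : (univ : Finset (Fin (i.val + 1) → Fin d)).card = d ^ (i.val + 1) := by
    rw [card_univ, Fintype.card_fun, Fintype.card_fin, Fintype.card_fin]
  rw [h5] at h4
  exact_mod_cast h4

theorem k1_count {n d : ℕ} (i : Fin n) (a : Fin n → Fin d) :
    ((univ : Finset (Fin n → Fin d)).filter (fun b => ∀ j, j ≤ i → a j = b j)).card =
      d ^ (n - 1 - i.val) := by
  classical
  have h1 : ((univ : Finset (Fin n → Fin d)).filter (fun b => ∀ j, j ≤ i → a j = b j)) =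
      Fintype.piFinset (fun j => if j ≤ i then {a j} else univ) := by
    ext b
    simp only [mem_filter, mem_univ, true_and, Fintype.mem_piFinset]
    apply forall_congr'
    intro j
    split_ifs with h
    · simp only [h, true_implies, mem_singleton]
      exact eq_comm
    · simp [h]
  rw [h1, Fintype.card_piFinset]
  have h2 : ∀ j : Fin n, (if j ≤ i then ({a j} : Finset (Fin d)) else univ).card =
      if j ≤ i then 1 else d := by
    intro j
    split_ifs <;> simp
  simp_rw [h2]
  rw [prod_ite, prod_const_one, one_mul, prod_const]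
  congr 1
  have h3 : (univ : Finset (Fin n)).filter (fun j => ¬ j ≤ i) = Ioi i := by
    ext j; simp
  rw [h3, Fin.card_Ioi]

theorem k1_all {n d : ℕ} (a : Fin n → Fin d) :
    ((d : ℤ) - 1) * ∑ b : Fin n → Fin d, (pre a b : ℤ) = (d : ℤ) ^ n - 1 := by
  have h1 := k1_sum_pre a univ
  simp_rw [k1_count] at h1
  have h2 : (∑ b : Fin n → Fin d, (pre a b : ℤ)) = ∑ i : Fin n, (d : ℤ) ^ (n - 1 - i.val) := by
    exact_mod_cast h1
  rw [h2, Fin.sum_univ_eq_sum_range (fun i => (d : ℤ) ^ (n - 1 - i)) n,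
    sum_range_reflect (fun i => (d : ℤ) ^ i) n, mul_comm, geom_sum_mul]

theorem k1_main {n d : ℕ} (A B : Finset (Fin n → Fin d)) (hd : 2 ≤ d) (hn : 1 ≤ n)
    (hAB : Disjoint A B) (hall : ∀ a, (a ∈ A ∨ a ∈ B) ↔ ∃ i j, a i ≠ a j) (hA : A.Nonempty)
    (hle : A.card ≤ B.card) :
    0 < ∑ a ∈ A, ∑ b ∈ B, (1 - ((d : ℤ) - 1) * (pre a b : ℤ)) := by
  classical
  set Cn : Finset (Fin n → Fin d) := univ.filter (fun a => ∀ i j, a i = a j) with hCn
  have i0 : Fin n := ⟨0, by omega⟩
  -- number of constants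
  have hCcard : Cn.card = d := by
    have h1 : Cn = univ.image (fun (c : Fin d) => (fun _ : Fin n => c)) := by
      ext a
      simp only [hCn, mem_filter, mem_univ, true_and, mem_image]
      constructor
      · intro h
        exact ⟨a i0, by funext j; exact h _ _⟩
      · rintro ⟨c, rfl⟩ i j; rfl
    rw [h1, card_image_of_injective, card_univ, Fintype.card_fin]
    intro c c' h
    exact congrFun h i0
  have hdisj1 : Disjoint (A ∪ B) Cn := by
    rw [disjoint_left]
    intro a ha hc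
    rw [mem_union] at ha
    obtain ⟨i, j, hij⟩ := (hall a).1 ha
    exact hij ((mem_filter.1 hc).2 i j)
  have huniv : (univ : Finset (Fin n → Fin d)) = (A ∪ B) ∪ Cn := by
    ext a
    simp only [mem_univ, true_iff, mem_union]
    by_cases h : ∃ i j, a i ≠ a j
    · exact Or.inl ((hall a).2 h)
    · right
      push Not at h
      rw [hCn, mem_filter]
      exact ⟨mem_univ _, h⟩
  have hcard : A.card + B.card + d = d ^ n := by
    have := congrArg Finset.card huniv
    rw [card_union_of_disjoint hdisj1, card_union_of_disjoint hAB, hCcard, card_univ,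
      Fintype.card_fun, Fintype.card_fin, Fintype.card_fin] at this
    omega
  set e : (Fin n → Fin d) → (Fin n → Fin d) → ℤ :=
    fun a b => 1 - ((d : ℤ) - 1) * (pre a b : ℤ) with he
  -- sum over everything
  have hall1 : ∀ a, ∑ b, e a b = 1 := by
    intro a
    simp only [he]
    rw [sum_sub_distrib, ← mul_sum, k1_all, sum_const, card_univ, Fintype.card_fun,
      Fintype.card_fin, Fintype.card_fin]
    simp
  have hsplit : ∀ a, ∑ b, e a b = ∑ b ∈ A, e a b + ∑ b ∈ B, e a b + ∑ b ∈ Cn, e a b := by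
    intro a
    rw [huniv, sum_union hdisj1, sum_union hAB]
  have hd1 : (1 : ℤ) ≤ (d : ℤ) - 1 := by
    have : (2 : ℤ) ≤ d := by exact_mod_cast hd
    linarith
  -- constants
  have hconst : ∀ a, ∑ b ∈ Cn, e a b ≤ 1 := by
    intro a
    simp only [he]
    rw [sum_sub_distrib, ← mul_sum, sum_const, hCcard]
    have h1 : (1 : ℤ) ≤ ∑ b ∈ Cn, (pre a b : ℤ) := by
      set j0 : Fin n := ⟨0, by omega⟩ with hj0
      have h2 : (fun _ : Fin n => a j0) ∈ Cn := by
        rw [hCn, mem_filter]; exact ⟨mem_univ _, fun _ _ => rfl⟩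
      have h3 : (1 : ℤ) ≤ (pre a (fun _ : Fin n => a j0) : ℤ) := by
        have : 1 ≤ pre a (fun _ : Fin n => a j0) := by
          unfold pre
          apply card_pos.2
          refine ⟨j0, ?_⟩
          rw [mem_filter]
          refine ⟨mem_univ _, ?_⟩
          intro j hj
          have : j = j0 := by
            apply Fin.ext
            have : j.val ≤ 0 := hj
            simp only [hj0]; omega
          rw [this]
        exact_mod_cast this
      exact h3.trans (single_le_sum (f := fun b => (pre a b : ℤ)) (fun b _ => by positivity) h2)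
    simp only [nsmul_eq_mul, mul_one]
    nlinarith
  -- the sum over A × A
  set N : Fin n → ℕ := fun i => ∑ a ∈ A, (A.filter (fun b => ∀ j, j ≤ i → a j = b j)).card
    with hN
  have hAA : ∑ a ∈ A, ∑ b ∈ A, e a b =
      (A.card : ℤ) ^ 2 - ((d : ℤ) - 1) * ∑ i, (N i : ℤ) := by
    simp only [he]
    have h1 : ∑ a ∈ A, ∑ b ∈ A, (pre a b : ℤ) = ∑ i, (N i : ℤ) := by
      have h2 : ∑ a ∈ A, ∑ b ∈ A, pre a b = ∑ i, N i := by
        simp_rw [k1_sum_pre]
        rw [sum_comm]
      exact_mod_cast h2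
    simp_rw [sum_sub_distrib, ← mul_sum]
    rw [h1]
    simp only [sum_const, nsmul_eq_mul, mul_one]
    ring
  have hkey : ((d : ℤ) - 1) * ∑ i, (N i : ℤ) - (A.card : ℤ) ^ 2 ≤
      ∑ a ∈ A, ∑ b ∈ B, e a b := by
    have h1 : ∑ a ∈ A, ∑ b ∈ B, e a b =
        ∑ a ∈ A, (1 - ∑ b ∈ A, e a b - ∑ b ∈ Cn, e a b) := by
      apply sum_congr rfl
      intro a _
      have := hsplit a
      rw [hall1] at this
      linarith
    rw [h1, sum_sub_distrib, sum_sub_distrib, hAA]
    have h2 : ∑ a ∈ A, ∑ b ∈ Cn, e a b ≤ ∑ a ∈ A, (1 : ℤ) := sum_le_sum fun a _ => hconst a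
    linarith
  refine lt_of_lt_of_le ?_ hkey
  -- the final inequality, over the rationals
  have hApos : 0 < A.card := card_pos.2 hA
  obtain ⟨m, rfl⟩ : ∃ m, n = m + 1 := ⟨n - 1, by omega⟩
  have hNq : ∀ i : Fin m, (A.card : ℚ) ^ 2 * (1 / (d : ℚ) ^ (i.val + 1)) ≤ (N i.castSucc : ℚ) := by
    intro i
    have h1 := k1_cs i.castSucc A
    have h2 : (A.card : ℚ) ^ 2 ≤ (d : ℚ) ^ (i.val + 1) * (N i.castSucc : ℚ) := by
      exact_mod_cast h1
    have hdp : (0 : ℚ) < (d : ℚ) ^ (i.val + 1) := by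
      have : (0 : ℚ) < d := by exact_mod_cast (by omega : 0 < d)
      positivity
    rw [mul_one_div, div_le_iff₀ hdp]
    linarith
  have hNlast : (A.card : ℚ) ≤ (N (Fin.last m) : ℚ) := by
    have h1 : A.card ≤ N (Fin.last m) := by
      simp only [hN]
      rw [card_eq_sum_ones]
      apply sum_le_sum
      intro a ha
      apply card_pos.2
      exact ⟨a, mem_filter.2 ⟨ha, fun _ _ => rfl⟩⟩
    exact_mod_cast h1
  have hdq : (2 : ℚ) ≤ d := by exact_mod_cast hd
  have hgeom : ∀ k : ℕ, ((d : ℚ) - 1) * ∑ i : Fin k, 1 / (d : ℚ) ^ (i.val + 1) =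
      1 - 1 / (d : ℚ) ^ k := by
    intro k
    induction k with
    | zero => simp
    | succ k ih =>
      rw [Fin.sum_univ_castSucc, mul_add]
      simp only [Fin.val_castSucc, Fin.val_last]
      rw [ih, pow_succ]
      field_simp
      ring
  have hcast : (0 : ℚ) < ((d : ℚ) - 1) * ∑ i, (N i : ℚ) - (A.card : ℚ) ^ 2 := by
    rw [Fin.sum_univ_castSucc]
    have h1 : (A.card : ℚ) ^ 2 * ∑ i : Fin m, 1 / (d : ℚ) ^ (i.val + 1) ≤
        ∑ i : Fin m, (N i.castSucc : ℚ) := by
      rw [mul_sum]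
      exact sum_le_sum fun i _ => hNq i
    have hd0 : (0 : ℚ) < (d : ℚ) - 1 := by linarith
    have h2 : ((d : ℚ) - 1) * ((A.card : ℚ) ^ 2 * ∑ i : Fin m, 1 / (d : ℚ) ^ (i.val + 1) +
        A.card) ≤ ((d : ℚ) - 1) * (∑ i : Fin m, (N i.castSucc : ℚ) + (N (Fin.last m) : ℚ)) := by
      apply mul_le_mul_of_nonneg_left _ hd0.le
      linarith
    have h3 : ((d : ℚ) - 1) * ((A.card : ℚ) ^ 2 * ∑ i : Fin m, 1 / (d : ℚ) ^ (i.val + 1) +
        A.card) = (A.card : ℚ) ^ 2 * (1 - 1 / (d : ℚ) ^ m) + ((d : ℚ) - 1) * A.card := by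
      rw [← hgeom m]; ring
    have h4 : (A.card : ℚ) * (1 / (d : ℚ) ^ m) < (d : ℚ) - 1 := by
      have h5 : 2 * A.card + d ≤ d ^ (m + 1) := by omega
      have h6 : 2 * (A.card : ℚ) + d ≤ (d : ℚ) ^ (m + 1) := by exact_mod_cast h5
      have hdm : (0 : ℚ) < (d : ℚ) ^ m := by positivity
      rw [mul_one_div, div_lt_iff₀ hdm]
      rw [pow_succ] at h6
      nlinarith
    have hAq : (0 : ℚ) < A.card := by exact_mod_cast hApos
    have h7 : (A.card : ℚ) ^ 2 * (1 / (d : ℚ) ^ m) < ((d : ℚ) - 1) * A.card := by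
      have := mul_lt_mul_of_pos_left h4 hAq
      calc (A.card : ℚ) ^ 2 * (1 / (d : ℚ) ^ m) = A.card * (A.card * (1 / (d : ℚ) ^ m)) := by ring
        _ < A.card * ((d : ℚ) - 1) := this
        _ = ((d : ℚ) - 1) * A.card := by ring
    rw [h3] at h2
    linarith
  exact_mod_cast hcast

theorem k1_holds : K1S := by
  intro n d A B hd hn hAB hall hA hB
  rcases le_total A.card B.card with h | h
  · exact k1_main A B hd hn hAB hall hA h
  · have h1 := k1_main B A hd hn hAB.symm (fun a => by rw [← hall a]; exact or_comm) hB h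
    rw [sum_comm] at h1
    simp_rw [k1_pre_comm] at h1
    simpa [k1_pre_comm] using h1

end Pool.Agent.LenSpec
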