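import Pool.Agent.LenSpec.V1

/-!
An integral element all of whose conjugates are large at infinity vanishes at some specialisation.
-/

namespace Pool.Agent.LenSpec

open Polynomial

/-- a valuation ring of `Ω` over `F` that contains `t` and in which some nonzero polynomial in `t`
is not a unit has residue field `F` -/
theorem exists_pl_of_valuationSubring (F Ω : Type) [Field F] [IsAlgClosed F] [Field Ω]
    [Algebra F Ω] (t : Ω) (htr : Transcendental F t) (halg : AlgT F t) (B : ValuationSubring Ω)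
    (hFB : ∀ a : F, algebraMap F Ω a ∈ B) (htB : t ∈ B) (f : F[X]) (hf : f ≠ 0)
    (hft : aeval t f ∈ B.nonunits) :
    ∃ p : Pl Ω F, (∀ x, x ∈ p.O ↔ x ∈ B) ∧ (∀ a, p.Red (algebraMap F Ω a) a) ∧
      ∀ x ∈ B.nonunits, p.Red x 0 := by
  let κ := IsLocalRing.ResidueField B
  let i : F →+* κ := (IsLocalRing.residue B).comp
    ((algebraMap F Ω).codRestrict B.toSubring hFB)
  have hi : ∀ a, (plOf B).Red (algebraMap F Ω a) (i a) := fun a => ⟨hFB a, rfl⟩
  have hiP : ∀ q : F[X], (plOf B).RedP (q.map (algebraMap F Ω)) (q.map i) := by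
    intro q j
    rw [coeff_map, coeff_map]
    exact hi _
  have hinj : Function.Injective i := i.injective
  have hrt : (plOf B).Red t ((plOf B).rs t) := Pl.red_rs htB
  -- algebraic elements of the residue field
  have halgκ : ∀ y : κ, (∃ q : F[X], q ≠ 0 ∧ q.eval₂ i y = 0) → ∃ a, i a = y := by
    intro y hy
    let _ : Algebra F κ := i.toAlgebra
    have hyi : IsIntegral F y := by
      obtain ⟨q, hq, hq0⟩ := hy
      exact IsAlgebraic.isIntegral ⟨q, hq, hq0⟩
    obtain ⟨a, ha⟩ := (IsAlgClosed.algebraMap_bijective_of_isIntegral (k := F)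
      (K := integralClosure F κ)).2 ⟨y, hyi⟩
    exact ⟨a, congrArg Subtype.val ha⟩
  obtain ⟨t₀, ht₀⟩ : ∃ a, i a = (plOf B).rs t := by
    apply halgκ
    refine ⟨f, hf, ?_⟩
    have h1 := (hiP f).eval hrt
    rw [eval_map, eval_map, ← aeval_def] at h1
    exact h1.unique (plOf_red_zero B _ hft)
  rw [← ht₀] at hrt
  have key : ∀ q : F[X], (plOf B).Red (aeval t q) (i (q.eval t₀)) := by
    intro q
    have h1 := (hiP q).eval hrt
    rw [eval_map, eval_map, ← aeval_def, eval₂_hom] at h1
    exact h1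
  have hu0 : t - algebraMap F Ω t₀ ≠ 0 := by
    intro h0
    apply htr
    refine ⟨X - C t₀, X_sub_C_ne_zero t₀, ?_⟩
    rw [map_sub, aeval_X, aeval_C, h0]
  have hu : (plOf B).Red (t - algebraMap F Ω t₀) 0 := by
    have := hrt.sub (hi t₀)
    rwa [sub_self] at this
  have hev0 : ∀ q : F[X], q ≠ 0 → aeval t q ≠ 0 := by
    intro q hq h0
    exact htr ⟨q, hq, h0⟩
  -- rational functions of `t`
  have hL : ∀ y ∈ IntermediateField.adjoin F ({t} : Set Ω), y ∈ B →
      ∃ a, (plOf B).Red y (i a) := by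
    intro y hy hyB
    obtain ⟨g, h, rfl⟩ := (IntermediateField.mem_adjoin_simple_iff F y).1 hy
    by_cases hh : h = 0
    · refine ⟨0, ?_⟩
      rw [hh, map_zero, div_zero, map_zero]
      exact Pl.red_zero
    by_cases hg : g = 0
    · refine ⟨0, ?_⟩
      rw [hg, map_zero, zero_div, map_zero]
      exact Pl.red_zero
    obtain ⟨g₁, hg₁, hg₁'⟩ := Polynomial.exists_eq_pow_rootMultiplicity_mul_and_not_dvd g hg t₀
    obtain ⟨h₁, hh₁, hh₁'⟩ := Polynomial.exists_eq_pow_rootMultiplicity_mul_and_not_dvd h hh t₀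
    rw [dvd_iff_isRoot, IsRoot] at hg₁' hh₁'
    have hG := key g₁
    have hH := key h₁
    have hiG : i (g₁.eval t₀) ≠ 0 := (map_ne_zero i).2 hg₁'
    have hiH : i (h₁.eval t₀) ≠ 0 := (map_ne_zero i).2 hh₁'
    have hH0 : aeval t h₁ ≠ 0 := hH.ne_zero hiH
    set a := rootMultiplicity t₀ g
    set b := rootMultiplicity t₀ h
    have hga : aeval t g = (t - algebraMap F Ω t₀) ^ a * aeval t g₁ := by
      rw [hg₁, map_mul, map_pow, map_sub, aeval_X, aeval_C]
    have hhb : aeval t h = (t - algebraMap F Ω t₀) ^ b * aeval t h₁ := by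
      rw [hh₁, map_mul, map_pow, map_sub, aeval_X, aeval_C]
    by_cases hab : b ≤ a
    · refine ⟨0 ^ (a - b) * (g₁.eval t₀ / h₁.eval t₀), ?_⟩
      have h2 : aeval t g / aeval t h =
          (t - algebraMap F Ω t₀) ^ (a - b) * (aeval t g₁ / aeval t h₁) := by
        rw [hga, hhb]
        have h3 : (t - algebraMap F Ω t₀) ^ a =
            (t - algebraMap F Ω t₀) ^ b * (t - algebraMap F Ω t₀) ^ (a - b) := by
          rw [← pow_add]
          congr 1
          omega
        rw [h3]
        field_simp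
      rw [h2, map_mul, map_pow, map_zero, map_div₀]
      exact (hu.pow _).mul (hG.div hH hiH)
    · exfalso
      have h2 : (aeval t g / aeval t h) * ((t - algebraMap F Ω t₀) ^ (b - a) * aeval t h₁) =
          aeval t g₁ := by
        rw [hga, hhb]
        have h3 : (t - algebraMap F Ω t₀) ^ b =
            (t - algebraMap F Ω t₀) ^ a * (t - algebraMap F Ω t₀) ^ (b - a) := by
          rw [← pow_add]
          congr 1
          omega
        rw [h3]
        field_simp
      have h4 := (Pl.red_rs (p := plOf B) hyB).mul ((hu.pow (b - a)).mul hH)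
      rw [h2, zero_pow (by omega), zero_mul, mul_zero] at h4
      exact hiG (hG.unique h4)
  have hsurj : Function.Surjective i := by
    intro y
    obtain ⟨⟨x, hx⟩, hxy⟩ := IsLocalRing.residue_surjective y
    have hxr : (plOf B).Red x y := ⟨hx, hxy⟩
    apply halgκ
    obtain ⟨P, hP, hPx⟩ := halg x
    obtain ⟨j₀, hj₀, hc₀, hc⟩ := Pl.exists_dvd_all (plOf B) (Finset.range (P.natDegree + 1))
      (fun j => ((P.coeff j : IntermediateField.adjoin F ({t} : Set Ω)) : Ω)) (by
        refine ⟨P.natDegree, Finset.self_mem_range_succ _, ?_⟩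
        have := leadingCoeff_ne_zero.2 hP
        intro h0
        apply this
        exact Subtype.ext h0)
    have hA : ∀ j, ∃ a : F, j ∈ Finset.range (P.natDegree + 1) →
        (plOf B).Red (((P.coeff j : IntermediateField.adjoin F ({t} : Set Ω)) : Ω) /
          ((P.coeff j₀ : IntermediateField.adjoin F ({t} : Set Ω)) : Ω)) (i a) := by
      intro j
      by_cases hj : j ∈ Finset.range (P.natDegree + 1)
      · obtain ⟨a, ha⟩ := hL _ (div_mem (P.coeff j).2 (P.coeff j₀).2) (hc j hj)
        exact ⟨a, fun _ => ha⟩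
      · exact ⟨0, fun h => absurd h hj⟩
    choose a ha using hA
    refine ⟨∑ j ∈ Finset.range (P.natDegree + 1), C (a j) * X ^ j, ?_, ?_⟩
    · intro h0
      have h1 := congrArg (fun q => q.coeff j₀) h0
      simp only [finsetSum_coeff, coeff_C_mul, coeff_X_pow, coeff_zero, mul_ite, mul_one,
        mul_zero, Finset.sum_ite_eq, if_pos hj₀] at h1
      have h2 := ha j₀ hj₀
      rw [div_self hc₀, h1, map_zero] at h2
      exact one_ne_zero (Pl.red_one.unique h2)
    · rw [eval₂_finsetSum]
      have h1 := Pl.red_sum (Finset.range (P.natDegree + 1)) (fun j hj =>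
        (ha j hj).mul (hxr.pow j))
      have h2 : ∑ j ∈ Finset.range (P.natDegree + 1),
          ((P.coeff j : IntermediateField.adjoin F ({t} : Set Ω)) : Ω) /
          ((P.coeff j₀ : IntermediateField.adjoin F ({t} : Set Ω)) : Ω) * x ^ j = 0 := by
        have h3 : ∑ j ∈ Finset.range (P.natDegree + 1),
            ((P.coeff j : IntermediateField.adjoin F ({t} : Set Ω)) : Ω) * x ^ j = 0 := by
          rw [aeval_eq_sum_range] at hPx
          simpa [Algebra.smul_def] using hPx
        calc _ = (∑ j ∈ Finset.range (P.natDegree + 1),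
            ((P.coeff j : IntermediateField.adjoin F ({t} : Set Ω)) : Ω) * x ^ j) /
            ((P.coeff j₀ : IntermediateField.adjoin F ({t} : Set Ω)) : Ω) := by
              rw [Finset.sum_div]
              exact Finset.sum_congr rfl (fun j _ => by ring)
          _ = 0 := by rw [h3, zero_div]
      rw [h2] at h1
      have h4 := h1.unique Pl.red_zero
      rw [← h4]
      refine Finset.sum_congr rfl (fun j _ => ?_)
      rw [eval₂_mul, eval₂_C, eval₂_pow, eval₂_X]
  let e : F ≃+* κ := RingEquiv.ofBijective i ⟨hinj, hsurj⟩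
  have he : ∀ a, e.symm (i a) = a := fun a => e.symm_apply_apply a
  have hdich := (plOf B).dich
  let p : Pl Ω F :=
    { O := B.toSubring
      res := (e.symm : κ →+* F).comp (IsLocalRing.residue B)
      dich := by
        intro x
        rcases hdich x with h | ⟨h1, h2⟩
        · exact Or.inl h
        · refine Or.inr ⟨h1, ?_⟩
          change e.symm (IsLocalRing.residue B ⟨x⁻¹, h1⟩) = 0
          have h3 : IsLocalRing.residue B ⟨x⁻¹, h1⟩ = 0 := h2
          rw [h3, map_zero] }
  have hp : ∀ x y, (plOf B).Red x y → p.Red x (e.symm y) := by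
    rintro x y ⟨h1, h2⟩
    refine ⟨h1, ?_⟩
    change e.symm (IsLocalRing.residue B ⟨x, h1⟩) = _
    have h3 : IsLocalRing.residue B ⟨x, h1⟩ = y := h2
    rw [h3]
  refine ⟨p, fun x => Iff.rfl, ?_, ?_⟩
  · intro a
    have := hp _ _ (hi a)
    rwa [he] at this
  · intro x hx
    have := hp _ _ (plOf_red_zero B x hx)
    rwa [map_zero] at this

open scoped IntermediateField.algebraAdjoinAdjoin in
theorem l1_holds : L1S := by
  intro F Ω Γ _ _ _ _ _ _ _ v t ρ htr halg hv hvt hρ hconj
  let L := IntermediateField.adjoin F ({t} : Set Ω)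
  let R := Algebra.adjoin F ({t} : Set Ω)
  have halg' : Algebra.IsAlgebraic L Ω := ⟨halg⟩
  have hclos : IsAlgClosure L Ω := ⟨inferInstance, halg'⟩
  have hnorm : Normal L Ω := IsAlgClosure.normal L Ω
  have hR : IsIntegrallyClosed R :=
    IsIntegrallyClosed.of_equiv (Polynomial.algEquivOfTranscendental F t htr).toRingEquiv
  have htL : t ∈ L := IntermediateField.mem_adjoin_simple_self F t
  have hρv : 1 < v ρ := hconj AlgEquiv.refl rfl
  have hρ0 : ρ ≠ 0 := by
    rintro rfl
    rw [map_zero] at hρv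
    exact absurd hρv (not_lt.2 zero_le)
  -- automorphisms over `L`
  have hτ : ∀ σ : Ω ≃ₐ[L] Ω, (∀ x, IntT F t x → IntT F t (σ x)) ∧ 1 < v (σ ρ) := by
    intro σ
    have h1 : ∀ a : F, σ (algebraMap F Ω a) = algebraMap F Ω a := by
      intro a
      exact σ.commutes (algebraMap F L a)
    have h2 : σ t = t := σ.commutes (⟨t, htL⟩ : L)
    constructor
    · intro x hx
      have h3 : IsIntegral R x := hx
      have h4 : ∀ r : R, σ (algebraMap R Ω r) = algebraMap R Ω r := by
        intro r
        have h5 : (r : Ω) ∈ L := IntermediateField.algebra_adjoin_le_adjoin F _ r.2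
        exact σ.commutes (⟨(r : Ω), h5⟩ : L)
      obtain ⟨q, hq, hqx⟩ := h3
      refine ⟨q, hq, ?_⟩
      have h6 : (σ : Ω →+* Ω).comp (algebraMap R Ω) = algebraMap R Ω := by
        ext r
        exact h4 r
      rw [← h6]
      have h7 := Polynomial.hom_eval₂ q (algebraMap R Ω) (σ : Ω →+* Ω) x
      rw [hqx, map_zero] at h7
      exact h7.symm
    · let σ' : Ω ≃ₐ[F] Ω := AlgEquiv.ofRingEquiv (f := σ.toRingEquiv) h1
      exact hconj σ' h2
  have hint : IsIntegral L ρ := (halg ρ).isIntegral
  have hsplit : ((minpoly L ρ).map (algebraMap L Ω)).Splits := IsAlgClosed.splits _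
  have hroot : ∀ y ∈ (minpoly L ρ).aroots Ω, ∃ σ : Ω ≃ₐ[L] Ω, σ ρ = y := by
    intro y hy
    exact minpoly.exists_algEquiv_of_root' (halg ρ) (mem_aroots.1 hy).2
  have hprodL : ((minpoly L ρ).aroots Ω).prod ∈ L := by
    have h1 := hsplit.coeff_zero_eq_prod_roots_of_monic
      ((minpoly.monic hint).map (algebraMap L Ω))
    have h2 : ((minpoly L ρ).aroots Ω).prod =
        (-1) ^ ((minpoly L ρ).map (algebraMap L Ω)).natDegree *
          ((minpoly L ρ).map (algebraMap L Ω)).coeff 0 := by
      rw [h1, ← mul_assoc, ← mul_pow, neg_one_mul, neg_neg, one_pow, one_mul]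
    rw [h2, coeff_map]
    exact L.mul_mem (pow_mem (L.neg_mem L.one_mem) _) ((minpoly L ρ).coeff 0).2
  have hρmem : ρ ∈ (minpoly L ρ).aroots Ω := by
    rw [mem_aroots]
    exact ⟨minpoly.ne_zero hint, minpoly.aeval L ρ⟩
  -- an integral element of `L` is a polynomial in `t`
  have hRL : ∀ y ∈ L, IntT F t y → ∃ f : F[X], aeval t f = y := by
    intro y hy hyi
    have h1 : IsIntegral R (⟨y, hy⟩ : L) := by
      obtain ⟨q, hq, hqy⟩ := hyi
      refine ⟨q, hq, ?_⟩
      apply Subtype.ext
      have h7 := Polynomial.hom_eval₂ q (algebraMap R L) (algebraMap L Ω) (⟨y, hy⟩ : L)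
      exact h7.trans hqy
    obtain ⟨r, hr⟩ := IsIntegrallyClosed.isIntegral_iff.1 h1
    have h2 : (r : Ω) = y := congrArg Subtype.val hr
    have h3 : (r : Ω) ∈ Algebra.adjoin F ({t} : Set Ω) := r.2
    rw [Algebra.adjoin_singleton_eq_range_aeval] at h3
    obtain ⟨f, hf⟩ := h3
    exact ⟨f, hf.trans h2⟩
  set N := ((minpoly L ρ).aroots Ω).prod with hN
  have hintprod : ∀ s : Multiset Ω, (∀ y ∈ s, IntT F t y) → IntT F t s.prod := by
    intro s hs
    exact IsIntegral.multiset_prod hs
  have hNint : IntT F t N := by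
    apply hintprod
    intro y hy
    obtain ⟨σ, rfl⟩ := hroot y hy
    exact (hτ σ).1 ρ hρ
  obtain ⟨f, hf⟩ := hRL N hprodL hNint
  have hvN : 1 < v N := by
    have h1 : ∀ s : Multiset Ω, (∀ y ∈ s, 1 < v y) → 1 ≤ v s.prod := by
      intro s
      induction s using Multiset.induction_on with
      | empty => intro _; simp
      | cons a s ih =>
        intro h
        rw [Multiset.prod_cons, map_mul]
        exact one_le_mul (h a (Multiset.mem_cons_self a s)).le
          (ih (fun y hy => h y (Multiset.mem_cons_of_mem hy)))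
    obtain ⟨s, hs⟩ := Multiset.exists_cons_of_mem hρmem
    have h2 : ∀ y ∈ (minpoly L ρ).aroots Ω, 1 < v y := by
      intro y hy
      obtain ⟨σ, rfl⟩ := hroot y hy
      exact (hτ σ).2
    rw [hN, hs, Multiset.prod_cons, map_mul]
    refine lt_of_lt_of_le hρv ?_
    exact le_mul_of_one_le_right zero_le (h1 s (fun y hy => h2 y (by
      rw [hs]
      exact Multiset.mem_cons_of_mem hy)))
  have hN0 : N ≠ 0 := by
    intro h0
    rw [h0, map_zero] at hvN
    exact absurd hvN (not_lt.2 zero_le)
  -- `ρ` is not a unit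
  have hunit : ¬ IntT F t ρ⁻¹ := by
    intro hu
    have hNinv : IntT F t N⁻¹ := by
      have h1 : N⁻¹ = (((minpoly L ρ).aroots Ω).map (fun y => y⁻¹)).prod := by
        rw [hN, Multiset.prod_map_inv, Multiset.map_id']
      rw [h1]
      apply hintprod
      intro y hy
      obtain ⟨z, hz, rfl⟩ := Multiset.mem_map.1 hy
      obtain ⟨σ, rfl⟩ := hroot z hz
      rw [← map_inv₀]
      exact (hτ σ).1 _ hu
    obtain ⟨g, hg⟩ := hRL N⁻¹ (L.inv_mem hprodL) hNinv
    have h1 : f * g = 1 := by
      have h2 : aeval t (f * g - 1) = 0 := by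
        rw [map_sub, map_mul, hf, hg, mul_inv_cancel₀ hN0, map_one, sub_self]
      by_contra h3
      exact htr ⟨f * g - 1, sub_ne_zero.2 h3, h2⟩
    have h2 : IsUnit f := IsUnit.of_mul_eq_one g h1
    obtain ⟨c, hc, hcf⟩ := Polynomial.isUnit_iff.1 h2
    rw [← hcf, aeval_C] at hf
    have h3 := hv c hc.ne_zero
    rw [hf] at h3
    rw [h3] at hvN
    exact lt_irrefl _ hvN
  let A : Subring Ω := (integralClosure R Ω).toSubring
  have hA : ∀ x, x ∈ A ↔ IntT F t x := fun x => Iff.rfl
  let I : Ideal A := Ideal.span {(⟨ρ, hρ⟩ : A)}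
  have hI : I ≠ ⊤ := by
    intro htop
    rw [Ideal.span_singleton_eq_top] at htop
    obtain ⟨y, hy⟩ := htop.exists_right_inv
    have h1 : ρ * (y : Ω) = 1 := congrArg Subtype.val hy
    apply hunit
    rw [inv_eq_of_mul_eq_one_right h1]
    exact y.2
  obtain ⟨B, hAB, hIB⟩ := Ideal.image_subset_nonunits_valuationSubring I hI
  have hρB : ρ ∈ B.nonunits := hIB ⟨_, Ideal.subset_span rfl, rfl⟩
  have hNB : aeval t f ∈ B.nonunits := by
    obtain ⟨s, hs⟩ := Multiset.exists_cons_of_mem hρmem
    have h1 : IntT F t s.prod := by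
      apply hintprod
      intro y hy
      obtain ⟨σ, rfl⟩ := hroot y (by
        rw [hs]
        exact Multiset.mem_cons_of_mem hy)
      exact (hτ σ).1 ρ hρ
    have h2 : N = ρ * s.prod := by rw [hN, hs, Multiset.prod_cons]
    rw [hf, h2]
    rw [B.mem_nonunits_iff_exists_mem_maximalIdeal] at hρB ⊢
    obtain ⟨h3, h4⟩ := hρB
    have h5 : s.prod ∈ B := hAB ((hA _).2 h1)
    exact ⟨B.mul_mem _ _ h3 h5, Ideal.mul_mem_right (⟨s.prod, h5⟩ : B) _ h4⟩
  have hintF : ∀ a : F, IntT F t (algebraMap F Ω a) := by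
    intro a
    exact isIntegral_algebraMap (R := R) (x := algebraMap F R a)
  have hintt : IntT F t t := by
    exact isIntegral_algebraMap (R := R) (x := ⟨t, Algebra.self_mem_adjoin_singleton F t⟩)
  obtain ⟨p, hp1, hp2, hp3⟩ := exists_pl_of_valuationSubring F Ω t htr halg B
    (fun a => hAB ((hA _).2 (hintF a))) (hAB ((hA _).2 hintt)) f (by
      rintro rfl
      rw [map_zero] at hf
      exact hN0 hf.symm) hNB
  exact ⟨p, ⟨hp2, fun x hx => (hp1 x).2 (hAB ((hA x).2 hx))⟩, hp3 ρ hρB⟩

end Pool.Agent.LenSpec
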