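import Pool.Agent.LenSpec.Stmt
import Pool.Agent.LenSpec.PlBasic

/-!
L4: periodic points of `z ^ d + t` that collide at a specialisation.
-/

namespace Pool.Agent.LenSpec

open Polynomial

/-- the polynomial `T^n(X)` -/
noncomputable def l4W {R : Type} [CommRing R] (d : ℕ) (t : R) : ℕ → R[X]
  | 0 => X
  | n + 1 => (l4W d t n) ^ d + C t

theorem l4W_monic {R : Type} [CommRing R] [Nontrivial R] (d : ℕ) (t : R) (hd : 1 ≤ d) (n : ℕ) :
    (l4W d t n).Monic ∧ (l4W d t n).natDegree = d ^ n := by
  induction n with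
  | zero => exact ⟨monic_X, by rw [l4W, natDegree_X, pow_zero]⟩
  | succ n ih =>
    obtain ⟨h1, h2⟩ := ih
    have h3 : ((l4W d t n) ^ d).Monic := h1.pow d
    have h4 : ((l4W d t n) ^ d).natDegree = d ^ (n + 1) := by
      rw [h1.natDegree_pow, h2, pow_succ, mul_comm]
    have h5 : 0 < d ^ (n + 1) := by positivity
    have h6 : (C t).degree < ((l4W d t n) ^ d).degree := by
      rw [degree_eq_natDegree h3.ne_zero, h4]
      refine lt_of_le_of_lt degree_C_le ?_
      exact_mod_cast h5
    refine ⟨h3.add_of_left h6, ?_⟩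
    rw [l4W, natDegree_add_eq_left_of_degree_lt h6, h4]

theorem l4W_eval {R Ω : Type} [CommRing R] [Field Ω] [Algebra R Ω] (d : ℕ) (t : R) (z : Ω)
    (n : ℕ) : aeval z (l4W d t n) = (T d (algebraMap R Ω t))^[n] z := by
  induction n with
  | zero => simp [l4W]
  | succ n ih =>
    rw [l4W, map_add, map_pow, ih, aeval_C, Function.iterate_succ_apply', T]

theorem l4_int {F Ω : Type} [Field F] [Field Ω] [Algebra F Ω] (t z : Ω) (d n : ℕ) (hd : 2 ≤ d)
    (hn : 1 ≤ n) (hz : (T d t)^[n] z = z) : IntT F t z := by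
  obtain ⟨t', ht'⟩ : ∃ t' : Algebra.adjoin F ({t} : Set Ω),
      algebraMap (Algebra.adjoin F ({t} : Set Ω)) Ω t' = t :=
    ⟨⟨t, Algebra.subset_adjoin rfl⟩, rfl⟩
  obtain ⟨h1, h2⟩ := l4W_monic d t' (by omega) n
  refine ⟨l4W d t' n - X, ?_, ?_⟩
  · apply h1.sub_of_left
    rw [degree_eq_natDegree h1.ne_zero, h2, degree_X]
    have : 1 < d ^ n := Nat.one_lt_pow (by omega) (by omega)
    exact_mod_cast this
  · have h3 := l4W_eval d t' z n
    rw [ht', hz] at h3
    rw [← aeval_def, map_sub, h3, aeval_X, sub_self]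

theorem l4_iter_int {F Ω : Type} [Field F] [Field Ω] [Algebra F Ω] (t z : Ω) (d : ℕ)
    (hz : IntT F t z) (k : ℕ) : IntT F t ((T d t)^[k] z) := by
  induction k with
  | zero => exact hz
  | succ k ih =>
    rw [Function.iterate_succ_apply', T]
    refine IsIntegral.add (IsIntegral.pow ih d) ?_
    have : t = algebraMap (Algebra.adjoin F ({t} : Set Ω)) Ω ⟨t, Algebra.subset_adjoin rfl⟩ := rfl
    rw [this]
    exact isIntegral_algebraMap

theorem l4_red_iter {F Ω : Type} [Field F] [Field Ω] (p : Pl Ω F) {t : Ω} {t₀ : F}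
    (ht : p.Red t t₀) (d : ℕ) {z : Ω} {y : F} (hz : p.Red z y) (k : ℕ) :
    p.Red ((T d t)^[k] z) ((T d t₀)^[k] y) := by
  induction k with
  | zero => exact hz
  | succ k ih =>
    rw [Function.iterate_succ_apply', Function.iterate_succ_apply', T, T]
    exact (ih.pow d).add ht

theorem l4_red_Tm {F Ω : Type} [Field F] [Field Ω] (p : Pl Ω F) {t : Ω} {t₀ : F}
    (ht : p.Red t t₀) (d n : ℕ) {z : Ω} {y : F} (hz : p.Red z y) :
    p.Red (Tm d t n z) (Tm d t₀ n y) := by
  unfold Tm
  exact Pl.red_prod _ fun k _ =>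
    (Pl.red_natCast (p := p) d).mul ((l4_red_iter p ht d hz k).pow (d - 1))

/-- the divided difference of `z ^ d` -/
noncomputable def l4D {R : Type} [Field R] (d : ℕ) (a b : R) : R :=
  ∑ i ∈ Finset.range d, a ^ i * b ^ (d - 1 - i)

theorem l4D_mul {R : Type} [Field R] (d : ℕ) (t a b : R) :
    T d t a - T d t b = (a - b) * l4D d a b := by
  rw [T, T, l4D, mul_comm, (Commute.all a b).geom_sum₂_mul]
  ring

theorem l4D_self {R : Type} [Field R] (d : ℕ) (a : R) : l4D d a a = (d : R) * a ^ (d - 1) := by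
  rw [l4D]
  have : ∀ i ∈ Finset.range d, a ^ i * a ^ (d - 1 - i) = a ^ (d - 1) := by
    intro i hi
    rw [Finset.mem_range] at hi
    rw [← pow_add]
    congr 1
    omega
  rw [Finset.sum_congr rfl this, Finset.sum_const, Finset.card_range, nsmul_eq_mul]

theorem l4D_red {F Ω : Type} [Field F] [Field Ω] (p : Pl Ω F) (d : ℕ) {a b : Ω} {a' b' : F}
    (ha : p.Red a a') (hb : p.Red b b') : p.Red (l4D d a b) (l4D d a' b') := by
  unfold l4D
  exact Pl.red_sum _ fun i _ => (ha.pow i).mul (hb.pow _)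

theorem l4_diff {R : Type} [Field R] (d : ℕ) (t a b : R) (k : ℕ) :
    (T d t)^[k] a - (T d t)^[k] b =
      (a - b) * ∏ j ∈ Finset.range k, l4D d ((T d t)^[j] a) ((T d t)^[j] b) := by
  induction k with
  | zero => simp
  | succ k ih =>
    rw [Function.iterate_succ_apply', Function.iterate_succ_apply', l4D_mul, ih,
      Finset.prod_range_succ]
    ring

theorem l4_holds : L4S := by
  intro F Ω _ _ _ _ _ _ t p t₀ d n htr hp ht hd
  have hper : ∀ z, (T d t)^[n] z = z → 1 ≤ n → IntT F t z := fun z hz hn =>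
    l4_int t z d n hd hn hz
  have hred : ∀ z, (T d t)^[n] z = z → 1 ≤ n → p.Red z (p.rs z) := fun z hz hn =>
    Pl.red_rs (hp.int z (hper z hz hn))
  have hsecond : ∀ x y, 1 ≤ n → x ≠ y → (T d t)^[n] x = x → (T d t)^[n] y = y →
      p.rs x = p.rs y → (T d t₀)^[n] (p.rs x) = p.rs x ∧ Tm d t₀ n (p.rs x) = 1 := by
    intro x y hn hxy hx hy hrs
    have rx := hred x hx hn
    have ry := hred y hy hn
    rw [← hrs] at ry
    constructor
    · have h1 := l4_red_iter p ht d rx n
      rw [hx] at h1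
      exact h1.unique rx
    · have h1 := l4_diff d t x y n
      rw [hx, hy] at h1
      have h2 : ∏ j ∈ Finset.range n, l4D d ((T d t)^[j] x) ((T d t)^[j] y) = 1 := by
        have h3 : x - y ≠ 0 := sub_ne_zero.mpr hxy
        apply mul_left_cancel₀ h3
        rw [← h1, mul_one]
      have h4 : p.Red (∏ j ∈ Finset.range n, l4D d ((T d t)^[j] x) ((T d t)^[j] y))
          (∏ j ∈ Finset.range n, l4D d ((T d t₀)^[j] (p.rs x)) ((T d t₀)^[j] (p.rs x))) :=
        Pl.red_prod _ fun j _ => l4D_red p d (l4_red_iter p ht d rx j) (l4_red_iter p ht d ry j)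
      rw [h2] at h4
      have h5 := h4.unique Pl.red_one
      rw [Tm, ← h5]
      exact Finset.prod_congr rfl fun j _ => (l4D_self d _).symm
  refine ⟨?_, hsecond, ?_⟩
  · intro z hz hn
    have hint := hper z hz hn
    have rz := hred z hz hn
    refine ⟨hint, ?_, l4_red_Tm p ht d n rz, ?_⟩
    · unfold Tm
      refine IsIntegral.prod _ fun k _ => ?_
      refine IsIntegral.mul ?_ (IsIntegral.pow (l4_iter_int t z d hint k) _)
      have : ((d : ℕ) : Ω) = algebraMap (Algebra.adjoin F ({t} : Set Ω)) Ω (d : ℕ) := by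
        rw [map_natCast]
      rw [this]
      exact isIntegral_algebraMap
    · have h1 := l4_red_iter p ht d rz 1
      rw [Function.iterate_one, Function.iterate_one] at h1
      exact h1.rs_eq
  · intro x hnp hx hTx hfix
    have hn : 1 ≤ n := hnp.one_lt.le
    have rx := hred x hx hn
    have hy : (T d t)^[n] (T d t x) = T d t x := by
      rw [← Function.iterate_succ_apply, Function.iterate_succ_apply', hx]
    have hrT : p.rs (T d t x) = p.rs x := by
      have h1 := l4_red_iter p ht d rx 1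
      rw [Function.iterate_one, Function.iterate_one, hfix] at h1
      exact h1.rs_eq
    have hiter : ∀ k, (T d t₀)^[k] (p.rs x) = p.rs x := by
      intro k
      exact Function.iterate_fixed hfix k
    obtain ⟨-, h2⟩ := hsecond x (T d t x) hn (fun h => hTx h.symm) hx hy hrT.symm
    have h3 : ((d : F) * (p.rs x) ^ (d - 1)) ^ n = 1 := by
      rw [← h2, Tm]
      simp only [hiter]
      rw [Finset.prod_const, Finset.card_range]
    refine ⟨h3, ?_⟩
    intro h1
    -- the sum of the differences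
    have ry := hred (T d t x) hy hn
    rw [hrT] at ry
    have hsum : ∑ k ∈ Finset.range n, ((T d t)^[k + 1] x - (T d t)^[k] x) = 0 := by
      rw [Finset.sum_range_sub (fun k => (T d t)^[k] x), hx]
      simp
    have hterm : ∀ k ∈ Finset.range n, ((T d t)^[k + 1] x - (T d t)^[k] x) =
        (T d t x - x) * ∏ j ∈ Finset.range k, l4D d ((T d t)^[j] (T d t x)) ((T d t)^[j] x) := by
      intro k _
      rw [Function.iterate_succ_apply]
      exact l4_diff d t (T d t x) x k
    rw [Finset.sum_congr rfl hterm, ← Finset.mul_sum] at hsum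
    have hz : ∑ k ∈ Finset.range n,
        ∏ j ∈ Finset.range k, l4D d ((T d t)^[j] (T d t x)) ((T d t)^[j] x) = 0 := by
      rcases mul_eq_zero.mp hsum with h | h
      · exact absurd (sub_eq_zero.mp h) hTx
      · exact h
    have hr : p.Red (∑ k ∈ Finset.range n,
        ∏ j ∈ Finset.range k, l4D d ((T d t)^[j] (T d t x)) ((T d t)^[j] x))
        (∑ k ∈ Finset.range n, ∏ j ∈ Finset.range k,
          l4D d ((T d t₀)^[j] (p.rs x)) ((T d t₀)^[j] (p.rs x))) :=
      Pl.red_sum _ fun k _ => Pl.red_prod _ fun j _ =>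
        l4D_red p d (l4_red_iter p ht d ry j) (l4_red_iter p ht d rx j)
    rw [hz] at hr
    have h4 := hr.unique Pl.red_zero
    simp only [l4D_self, hiter, h1] at h4
    simp only [Finset.prod_const_one, Finset.sum_const, Finset.card_range, nsmul_eq_mul,
      mul_one] at h4
    have h5 : n = 0 := by exact_mod_cast h4
    omega

end Pool.Agent.LenSpec
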