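import Pool.Agent.LenSpec.L4

/-!
M1: multiplicative independence for `z ^ d + t`.
-/

namespace Pool.Agent.LenSpec

open Polynomial

theorem m1_Tm_shift {R : Type} [Field R] (d : ℕ) (t z : R) (n : ℕ) (hz : (T d t)^[n] z = z) :
    Tm d t n (T d t z) = Tm d t n z := by
  have h1 := Finset.prod_range_succ (fun k => ((d : R) * ((T d t)^[k] z) ^ (d - 1))) n
  have h2 := Finset.prod_range_succ' (fun k => ((d : R) * ((T d t)^[k] z) ^ (d - 1))) n
  rw [h1, hz] at h2
  unfold Tm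
  by_cases h0 : (d : R) * z ^ (d - 1) = 0
  · rcases Nat.eq_zero_or_pos n with hn | hn
    · subst hn; simp
    · have e1 : ∏ k ∈ Finset.range n, ((d : R) * ((T d t)^[k] z) ^ (d - 1)) = 0 :=
        Finset.prod_eq_zero (Finset.mem_range.mpr hn) (by simpa using h0)
      rw [e1]
      obtain ⟨m, rfl⟩ : ∃ m, n = m + 1 := ⟨n - 1, by omega⟩
      refine Finset.prod_eq_zero (Finset.mem_range.mpr (Nat.lt_succ_self m)) ?_
      rw [← Function.iterate_succ_apply, hz]
      exact h0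
  · apply mul_right_cancel₀ h0
    rw [h2]
    simp only [Function.iterate_succ_apply, Function.iterate_zero, id_eq]

theorem m1_per_iter {R : Type} [Field R] (d : ℕ) (t z : R) (n : ℕ) (hz : (T d t)^[n] z = z)
    (k : ℕ) : (T d t)^[n] ((T d t)^[k] z) = (T d t)^[k] z := by
  rw [← Function.iterate_add_apply, add_comm, Function.iterate_add_apply, hz]

theorem m1_Tm_iter {R : Type} [Field R] (d : ℕ) (t z : R) (n : ℕ) (hz : (T d t)^[n] z = z)
    (k : ℕ) : Tm d t n ((T d t)^[k] z) = Tm d t n z := by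
  induction k with
  | zero => rfl
  | succ k ih =>
    rw [Function.iterate_succ_apply', m1_Tm_shift d t _ n (m1_per_iter d t z n hz k), ih]

theorem m1_map_iter {F Ω : Type} [Field F] [Field Ω] [Algebra F Ω] (τ : Ω ≃ₐ[F] Ω) (d : ℕ) (t : Ω)
    (ht : τ t = t) (z : Ω) (k : ℕ) : τ ((T d t)^[k] z) = (T d t)^[k] (τ z) := by
  induction k with
  | zero => rfl
  | succ k ih =>
    rw [Function.iterate_succ_apply', Function.iterate_succ_apply', T, T, map_add, map_pow, ih, ht]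

theorem m1_Tm_zero {R : Type} [Field R] [CharZero R] (d : ℕ) (hd : 2 ≤ d) (t z : R) (n : ℕ)
    (h : Tm d t n z = 0) : ∃ k < n, (T d t)^[k] z = 0 := by
  unfold Tm at h
  rw [Finset.prod_eq_zero_iff] at h
  obtain ⟨k, hk, h1⟩ := h
  refine ⟨k, Finset.mem_range.mp hk, ?_⟩
  rcases mul_eq_zero.mp h1 with h2 | h2
  · exfalso
    have : d = 0 := by exact_mod_cast h2
    omega
  · exact (pow_eq_zero_iff (by omega)).mp h2

theorem m1_holds (j0 : J0S) (j1 : J1S) (l1 : L1S) (l4 : L4S) : M1S := by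
  intro F Ω _ _ _ _ _ _ t d n htr halg hd hn z₁ z₂ z₃ z₄ κ hz1 hz2 hz3 hz4 hrel
  obtain ⟨Γ, _, v, hv, hvt⟩ := j0 F Ω t htr
  obtain ⟨γ, code, hγ, hγd, hbij, -, -, hTm⟩ := j1 F Ω Γ v t d n hv hvt hd hn
  have hpow : 1 < γ ^ ((d - 1) * n) := by
    apply one_lt_pow₀ hγ
    have : 0 < (d - 1) * n := Nat.mul_pos (by omega) (by omega)
    omega
  have hTm1 : ∀ z, (T d t)^[n] z = z → 1 < v (Tm d t n z) := by
    intro z hz
    rw [hTm z hz]
    exact hpow
  have hTm0 : ∀ z, (T d t)^[n] z = z → Tm d t n z ≠ 0 := by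
    intro z hz h0
    have := hTm1 z hz
    rw [h0, map_zero] at this
    exact absurd this (not_lt.mpr zero_le)
  have hκ : κ ≠ 0 := by
    rintro rfl
    rw [map_zero, zero_mul] at hrel
    exact mul_ne_zero (hTm0 z₁ hz1) (hTm0 z₂ hz2) hrel
  have hint : ∀ z, (T d t)^[n] z = z → IntT F t (Tm d t n z) := by
    intro z hz
    unfold Tm
    refine IsIntegral.prod _ fun k _ => ?_
    refine IsIntegral.mul ?_ (IsIntegral.pow (l4_iter_int t z d (l4_int t z d n hd hn hz) k) _)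
    have : ((d : ℕ) : Ω) = algebraMap (Algebra.adjoin F ({t} : Set Ω)) Ω (d : ℕ) := by
      rw [map_natCast]
    rw [this]
    exact isIntegral_algebraMap
  have hmain : ∀ z, (T d t)^[n] z = z → ∃ p : Pl Ω F, SpPl t p ∧ p.Red (Tm d t n z) 0 ∧
      ∀ w, (T d t)^[n] w = w → p.rs (Tm d t n w) = 0 → ∃ k, w = (T d t)^[k] z := by
    intro z hz
    obtain ⟨p, hp, hp0⟩ := l1 F Ω Γ v t (Tm d t n z) htr halg hv hvt (hint z hz) (by
      intro τ hτ
      have h1 : τ (Tm d t n z) = Tm d t n (τ z) := by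
        unfold Tm
        rw [map_prod]
        refine Finset.prod_congr rfl fun k _ => ?_
        rw [map_mul, map_natCast, map_pow, m1_map_iter τ d t hτ]
      rw [h1]
      apply hTm1
      rw [← m1_map_iter τ d t hτ, hz])
    refine ⟨p, hp, hp0, ?_⟩
    have htint : IntT F t t := by
      have : t = algebraMap (Algebra.adjoin F ({t} : Set Ω)) Ω
        ⟨t, Algebra.subset_adjoin rfl⟩ := rfl
      unfold IntT
      rw [this]
      exact isIntegral_algebraMap
    obtain ⟨t₀, ht₀⟩ : ∃ t₀, t₀ = p.rs t := ⟨_, rfl⟩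
    have ht : p.Red t t₀ := by
      rw [ht₀]
      exact Pl.red_rs (hp.int t htint)
    have hzero : ∀ w, (T d t)^[n] w = w → p.rs (Tm d t n w) = 0 →
        ∃ k < n, p.Red ((T d t)^[k] w) 0 := by
      intro w hw hw0
      have rw' : p.Red w (p.rs w) := Pl.red_rs (hp.int w (l4_int t w d n hd hn hw))
      have h1 := (l4_red_Tm p ht d n rw').rs_eq
      rw [hw0] at h1
      obtain ⟨k, hk, hk0⟩ := m1_Tm_zero d hd t₀ _ n h1.symm
      refine ⟨k, hk, ?_⟩
      have h2 := l4_red_iter p ht d rw' k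
      rwa [hk0] at h2
    intro w hw hw0
    obtain ⟨k, hk, hkr⟩ := hzero z hz hp0.rs_eq
    obtain ⟨j, hj, hjr⟩ := hzero w hw hw0
    have heq : (T d t)^[k] z = (T d t)^[j] w := by
      by_contra hne
      obtain ⟨-, h2, -⟩ := l4 F Ω t p t₀ d n htr hp ht hd
      obtain ⟨-, h3⟩ := h2 _ _ hn hne (m1_per_iter d t z n hz k) (m1_per_iter d t w n hw j)
        (by rw [hkr.rs_eq, hjr.rs_eq])
      rw [hkr.rs_eq] at h3
      have h4 : Tm d t₀ n 0 = 0 := by
        unfold Tm
        refine Finset.prod_eq_zero (Finset.mem_range.mpr (by omega : 0 < n)) ?_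
        rw [Function.iterate_zero, id_eq, zero_pow (by omega), mul_zero]
      rw [h4] at h3
      exact zero_ne_one h3
    refine ⟨(n - j) + k, ?_⟩
    rw [Function.iterate_add_apply, heq, ← Function.iterate_add_apply]
    have : n - j + j = n := by omega
    rw [this, hw]
  have hstep : ∀ a b c e : Ω, (T d t)^[n] a = a → (T d t)^[n] b = b → (T d t)^[n] c = c →
      (T d t)^[n] e = e → Tm d t n a * Tm d t n b = algebraMap F Ω κ * (Tm d t n c * Tm d t n e) →
      ((∃ k, c = (T d t)^[k] a) ∨ ∃ k, e = (T d t)^[k] a) := by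
    intro a b c e ha hb hc he h
    obtain ⟨p, hp, hp0, hp1⟩ := hmain a ha
    have rb : p.Red (Tm d t n b) (p.rs (Tm d t n b)) := Pl.red_rs (hp.int _ (hint b hb))
    have rc : p.Red (Tm d t n c) (p.rs (Tm d t n c)) := Pl.red_rs (hp.int _ (hint c hc))
    have re : p.Red (Tm d t n e) (p.rs (Tm d t n e)) := Pl.red_rs (hp.int _ (hint e he))
    have h1 := hp0.mul rb
    have h2 := (hp.const κ).mul (rc.mul re)
    rw [h, zero_mul] at h1
    have h3 := h2.unique h1
    rcases mul_eq_zero.mp h3 with h4 | h4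
    · exact absurd h4 hκ
    · rcases mul_eq_zero.mp h4 with h5 | h5
      · exact Or.inl (hp1 c hc h5)
      · exact Or.inr (hp1 e he h5)
  have hstep2 : ∀ a c : Ω, (T d t)^[n] a = a → (T d t)^[n] c = c →
      Tm d t n a = algebraMap F Ω κ * Tm d t n c → ∃ k, c = (T d t)^[k] a := by
    intro a c ha hc h
    obtain ⟨p, hp, hp0, hp1⟩ := hmain a ha
    have rc : p.Red (Tm d t n c) (p.rs (Tm d t n c)) := Pl.red_rs (hp.int _ (hint c hc))
    have h2 := (hp.const κ).mul rc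
    rw [← h] at h2
    have h3 := h2.unique hp0
    rcases mul_eq_zero.mp h3 with h4 | h4
    · exact absurd h4 hκ
    · exact hp1 c hc h4
  rcases hstep z₁ z₂ z₃ z₄ hz1 hz2 hz3 hz4 hrel with ⟨k, hk⟩ | ⟨k, hk⟩
  · left
    refine ⟨⟨k, hk⟩, ?_⟩
    have h1 : Tm d t n z₃ = Tm d t n z₁ := by rw [hk, m1_Tm_iter d t z₁ n hz1 k]
    rw [h1] at hrel
    apply hstep2 z₂ z₄ hz2 hz4
    apply mul_left_cancel₀ (hTm0 z₁ hz1)
    rw [hrel]
    ring
  · right
    refine ⟨⟨k, hk⟩, ?_⟩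
    have h1 : Tm d t n z₄ = Tm d t n z₁ := by rw [hk, m1_Tm_iter d t z₁ n hz1 k]
    rw [h1] at hrel
    apply hstep2 z₂ z₃ hz2 hz3
    apply mul_left_cancel₀ (hTm0 z₁ hz1)
    rw [hrel]
    ring

end Pool.Agent.LenSpec
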