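import Pool.Agent.LenSpec.Stmt

/-!
MAIN: the main theorem for fields with a conjugation.
-/

namespace Pool.Agent.LenSpec

open Polynomial

theorem main_xs_mem (hG1 : G1S) {K : Type} [Field K] [IsAlgClosed K] {d n : ℕ} {f : RatMap K d}
    (hf : Good f) (hn : 1 ≤ n) {u : K} (hu : u ∈ XS f.num f.den n) : u ∈ f.multSpec n := by
  obtain ⟨z, hz, rfl⟩ := hu
  obtain ⟨-, -, -, h4, h5⟩ := hG1 K d n f hf hn
  rw [h5]
  exact Multiset.mem_map_of_mem _ ((h4 z).2 hz.1)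

theorem main_case (hS1 : S1S) (hH1 : H1S) {K : Type} [Field K] [IsAlgClosed K] [CharZero K]
    (c : Cj K) {d n : ℕ} {f g : RatMap K d} (hgen : Gen c f) (hf : Good f) (hg : Good g)
    (hs : ∀ n, 1 ≤ n → c.spec f n = c.spec g n) (hn : n.Prime) (hn5 : 5 ≤ n)
    (hu : ∀ u ∈ XS g.num g.den n, u ≠ 0)
    (hr : ∀ x ∈ XS f.num f.den n, ∀ x' ∈ XS f.num f.den n,
      ∃ u ∈ XS g.num g.den n, ∃ u' ∈ XS g.num g.den n, x * u' = x' * u) :
    ∀ n, 1 ≤ n → g.multSpec n = f.multSpec n := by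
  have hi : AlgebraicIndependent ℚ f.coef := by
    have := hgen.indep.comp (Sum.inl : CI d → CI d ⊕ CI d) Sum.inl_injective
    exact this
  exact hH1 K c d f g hgen hg hs (hS1 K d n f g hf hi hg hn hn5 hu hr)

theorem main_holds (hFG : FGS) (hB4 : B4S) (hE2 : E2S) (hW1 : W1S) (hS1 : S1S) (hH1 : H1S)
    (hE3 : E3S) (hE4 : E4S) (hG1 : G1S) : MainS := by
  intro K _ _ _ _ ι c d f hgen g hs
  obtain ⟨hf, hfx⟩ := hFG K c d f hgen
  have hd : 2 ≤ d := hgen.two_le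
  obtain ⟨g', hg'inf, hg'⟩ := hB4 K d g hd
  have hs' : ∀ n, 1 ≤ n → c.spec f n = c.spec g' n := by
    intro n hn
    rw [hs n hn]
    unfold Cj.spec
    rw [hg' n]
  have hgood : Good g' := hE2 K c d f g' hd hg'inf (fun n hn x hx => (hfx n hn x hx).1) hs'
  obtain ⟨n₀, hn₀⟩ := hW1 K ι c d f g' hgen hgood hs'
  obtain ⟨n, hnn, hn⟩ := Nat.exists_infinite_primes (max n₀ 5)
  have h5 : 5 ≤ n := le_trans (le_max_right _ _) hnn
  have h0 : n₀ ≤ n := le_trans (le_max_left _ _) hnn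
  have h1 : 1 ≤ n := hn.one_lt.le
  have hu : ∀ u ∈ XS g'.num g'.den n, u ≠ 0 := by
    intro u hu h0
    have hmem : u ∈ g'.multSpec n := main_xs_mem hG1 hgood h1 hu
    have h2 : c.nrm u ∈ c.spec g' n := Multiset.mem_map_of_mem _ hmem
    rw [← hs' n h1] at h2
    obtain ⟨x, hx, hxu⟩ := Multiset.mem_map.1 h2
    have hx0 := (hfx n h1 x hx).2
    rw [h0] at hxu
    unfold Cj.nrm at hxu
    rw [map_zero, mul_zero] at hxu
    rcases mul_eq_zero.1 hxu with h | h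
    · exact hx0 h
    · exact hx0 ((map_eq_zero c.σ).1 h)
  rcases hn₀ n hn h0 with hr | hr
  · left
    intro m hm
    rw [← hg' m]
    exact main_case hS1 hH1 c hgen hf hgood hs' hn h5 hu hr m hm
  · right
    intro m hm
    rw [← hg' m]
    have hgen' := hE4 K c d f hgen
    have hf' : Good (c.conj f) := (hFG K c d _ hgen').1
    have hs'' : ∀ n, 1 ≤ n → c.spec (c.conj f) n = c.spec g' n := by
      intro n hn
      rw [(hE3 K c d f).2.1 n, hs' n hn]
    exact main_case hS1 hH1 c hgen' hf' hgood hs'' hn h5 hu hr m hm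

end Pool.Agent.LenSpec
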