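import Pool.Agent.LenSpec.Stmt
import Pool.Agent.LenSpec.PlBasic

/-!
N1: the roots of a polynomial and the roots of its reduction at a place.
-/

namespace Pool.Agent.LenSpec

open Polynomial

namespace N1

variable {K κ : Type} [Field K] [Field κ] {p : Pl K κ}

theorem redP_unique {W : K[X]} {V V' : κ[X]} (h : p.RedP W V) (h' : p.RedP W V') : V = V' := by
  ext i
  exact (h i).unique (h' i)

theorem redP_multiset_prod (S : Multiset K) (f : K → K[X]) (g : K → κ[X])
    (h : ∀ z ∈ S, p.RedP (f z) (g z)) : p.RedP (S.map f).prod (S.map g).prod := by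
  induction S using Multiset.induction_on with
  | empty => simpa using Pl.redP_one
  | cons a s ih =>
    rw [Multiset.map_cons, Multiset.map_cons, Multiset.prod_cons, Multiset.prod_cons]
    exact (h a (Multiset.mem_cons_self a s)).mul
      (ih fun z hz => h z (Multiset.mem_cons_of_mem hz))

theorem prod_outside (R : Multiset K) (hR : ∀ z ∈ R, z ≠ 0) :
    (R.map fun z => X - C z).prod =
      C (R.map fun z => -z).prod * (R.map fun z => 1 - C z⁻¹ * X).prod := by
  induction R using Multiset.induction_on with
  | empty => simp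
  | cons a s ih =>
    have ha : a ≠ 0 := hR a (Multiset.mem_cons_self a s)
    rw [Multiset.map_cons, Multiset.map_cons, Multiset.map_cons, Multiset.prod_cons,
      Multiset.prod_cons, Multiset.prod_cons,
      ih fun z hz => hR z (Multiset.mem_cons_of_mem hz), C_mul]
    have h1 : (X - C a : K[X]) = C (-a) * (1 - C a⁻¹ * X) := by
      rw [mul_sub, mul_one, ← mul_assoc, ← C_mul, neg_mul, mul_inv_cancel₀ ha]
      simp only [map_neg, map_one]
      ring
    rw [h1]
    ring

end N1

theorem N1_holds : N1S := by
  intro K κ _ _ _ p W V h hV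
  classical
  have hW : W ≠ 0 := by
    rintro rfl
    exact hV (N1.redP_unique h Pl.redP_zero)
  set S := W.roots.filter (fun z => z ∈ p.O) with hS
  set R := W.roots.filter (fun z => ¬ z ∈ p.O) with hR
  have hSO : ∀ z ∈ S, z ∈ p.O := fun z hz => (Multiset.mem_filter.1 hz).2
  have hRO : ∀ z ∈ R, z ∉ p.O := fun z hz => (Multiset.mem_filter.1 hz).2
  have hroots : W.roots = S + R := (Multiset.filter_add_not _ _).symm
  have hR0 : ∀ z ∈ R, z ≠ 0 := by
    rintro z hz rfl
    exact hRO 0 hz p.O.zero_mem
  have hfac : W = C W.leadingCoeff * (W.roots.map fun z => X - C z).prod :=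
    (IsAlgClosed.splits W).eq_prod_roots
  have hfac2 : W = C (W.leadingCoeff * (R.map fun z => -z).prod) *
      ((S.map fun z => X - C z).prod * (R.map fun z => 1 - C z⁻¹ * X).prod) := by
    conv_lhs => rw [hfac, hroots, Multiset.map_add, Multiset.prod_add, N1.prod_outside R hR0]
    rw [C_mul]
    ring
  set c := W.leadingCoeff * (R.map fun z => -z).prod with hc
  set A := (S.map fun z => (X - C z : K[X])).prod with hA
  set B := (R.map fun z => (1 - C z⁻¹ * X : K[X])).prod with hB
  set A₀ := ((S.map p.rs).map fun z => (X - C z : κ[X])).prod with hA₀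
  have hA₀m : A₀.Monic := monic_multisetProd_X_sub_C _
  have hA₀d : A₀.natDegree = Multiset.card S := by
    rw [hA₀, natDegree_multiset_prod_X_sub_C_eq_card, Multiset.card_map]
  have hAred : p.RedP A A₀ := by
    rw [hA₀, Multiset.map_map]
    apply N1.redP_multiset_prod
    intro z hz
    exact Pl.redP_X.sub (Pl.redP_C (Pl.red_rs (hSO z hz)))
  have hBred : p.RedP B 1 := by
    have h1 : (R.map fun _ => (1 : κ[X])).prod = 1 := by simp
    rw [← h1]
    apply N1.redP_multiset_prod
    intro z hz
    have h2 : p.RedP (C z⁻¹ * X) (C 0 * X) :=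
      (Pl.redP_C (Pl.not_mem_inv (hRO z hz))).mul Pl.redP_X
    have h3 := Pl.redP_one.sub h2
    rwa [map_zero, zero_mul, sub_zero] at h3
  have hG : p.RedP (A * B) A₀ := by
    have := hAred.mul hBred
    rwa [mul_one] at this
  have hlead : A₀.coeff (Multiset.card S) = 1 := by
    rw [← hA₀d]
    exact hA₀m
  have hGm : p.Red ((A * B).coeff (Multiset.card S)) 1 := by
    have := hG (Multiset.card S)
    rwa [hlead] at this
  have hcred : p.Red c (V.coeff (Multiset.card S)) := by
    have h1 : W.coeff (Multiset.card S) = c * (A * B).coeff (Multiset.card S) := by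
      conv_lhs => rw [hfac2, coeff_C_mul]
    have h2 := (h (Multiset.card S)).div hGm one_ne_zero
    rw [h1, mul_div_cancel_right₀ _ (hGm.ne_zero one_ne_zero), div_one] at h2
    exact h2
  have hV2 : V = C (V.coeff (Multiset.card S)) * A₀ := by
    apply N1.redP_unique h
    have h1 := (Pl.redP_C hcred).mul hG
    rwa [← hfac2] at h1
  have hne : V.coeff (Multiset.card S) ≠ 0 := by
    intro h0
    rw [h0, map_zero, zero_mul] at hV2
    exact hV hV2
  refine ⟨S, R, hroots, hSO, hRO, ?_, ?_⟩
  · rw [hV2, roots_C_mul _ hne, hA₀, roots_multiset_prod_X_sub_C]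
  · rw [hV2, natDegree_C_mul hne, hA₀d]

end Pool.Agent.LenSpec
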