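import Pool.Agent.LenSpec.Stmt
import Pool.Agent.LenSpec.PlBasic

/-!
N2, N3: reduction of the iterates, of values and of multipliers at a place.
-/

namespace Pool.Agent.LenSpec

open Polynomial

namespace N23

variable {K κ : Type} [Field K] [Field κ] {p : Pl K κ}

theorem redP_homComp (d : ℕ) {P A B : K[X]} {V A' B' : κ[X]} (hP : p.RedP P V)
    (hA : p.RedP A A') (hB : p.RedP B B') :
    p.RedP (homComp d P A B) (homComp d V A' B') :=
  Pl.redP_sum _ fun i _ => ((Pl.redP_C (hP i)).mul (hA.pow i)).mul (hB.pow (d - i))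

theorem redP_iter (d n : ℕ) {P Q : K[X]} {V W : κ[X]} (hP : p.RedP P V) (hQ : p.RedP Q W) :
    p.RedP (iter d P Q n).1 (iter d V W n).1 ∧ p.RedP (iter d P Q n).2 (iter d V W n).2 := by
  induction n with
  | zero => exact ⟨Pl.redP_X, Pl.redP_one⟩
  | succ n ih => exact ⟨redP_homComp d hP ih.1 ih.2, redP_homComp d hQ ih.1 ih.2⟩

theorem red_ev {P Q : K[X]} {V W : κ[X]} {z : K} {y : κ} (hP : p.RedP P V) (hQ : p.RedP Q W)
    (hz : p.Red z y) (hW : W.eval y ≠ 0) :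
    Q.eval z ≠ 0 ∧ p.Red (ev P Q z) (ev V W y) ∧ p.Red (derivAt P Q z) (derivAt V W y) := by
  refine ⟨(hQ.eval hz).ne_zero hW, (hP.eval hz).div (hQ.eval hz) hW, ?_⟩
  unfold derivAt
  exact (((hP.derivative.eval hz).mul (hQ.eval hz)).sub
    ((hP.eval hz).mul (hQ.derivative.eval hz))).div ((hQ.eval hz).pow 2) (pow_ne_zero 2 hW)

theorem red_orbit {P Q : K[X]} {V W : κ[X]} {z : K} {y : κ} (hP : p.RedP P V) (hQ : p.RedP Q W)
    (hz : p.Red z y) (hW : ∀ k, W.eval ((ev V W)^[k] y) ≠ 0) (k : ℕ) :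
    p.Red ((ev P Q)^[k] z) ((ev V W)^[k] y) := by
  induction k with
  | zero => exact hz
  | succ k ih =>
    rw [Function.iterate_succ_apply', Function.iterate_succ_apply']
    exact (red_ev hP hQ ih (hW k)).2.1

end N23

theorem N2_holds : N2S := by
  intro K κ _ _ p d n P Q V W hP hQ
  obtain ⟨h1, h2⟩ := N23.redP_iter d n hP hQ
  exact ⟨h1, h2, h1.sub (Pl.redP_X.mul h2)⟩

theorem N3_holds : N3S := by
  intro K κ _ _ p P Q V W z y hP hQ hz
  refine ⟨fun hW => N23.red_ev hP hQ hz hW, fun hW => ?_⟩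
  have h := N23.red_orbit hP hQ hz hW
  exact ⟨fun k => (N23.red_ev hP hQ (h k) (hW k)).1, h, fun n =>
    Pl.red_prod _ fun k _ => (N23.red_ev hP hQ (h k) (hW k)).2.2⟩

end Pool.Agent.LenSpec
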