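import Pool.Agent.LenSpec.Stmt
import Pool.Agent.LenSpec.PlBasic

/-!
N5: periodic points of a map that reduces to a polynomial of the same degree.
-/

namespace Pool.Agent.LenSpec

open Polynomial

namespace N5

variable {K κ : Type} [Field K] [Field κ] {p : Pl K κ}

theorem homComp_one (d : ℕ) (V A : κ[X]) (hV : V.natDegree ≤ d) : homComp d V A 1 = V.comp A := by
  unfold homComp
  rw [Polynomial.comp, eval₂_eq_sum_range' C (Nat.lt_succ_of_le hV) A]
  refine Finset.sum_congr rfl fun i _ => ?_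
  rw [one_pow, mul_one]

theorem homComp_one_one (d : ℕ) (A : κ[X]) : homComp d 1 A 1 = 1 := by
  rw [homComp_one d 1 A (by simp), one_comp]

theorem iter_snd (d n : ℕ) (V : κ[X]) : (iter d V 1 n).2 = 1 := by
  induction n with
  | zero => rfl
  | succ n ih =>
    change homComp d 1 (iter d V 1 n).1 (iter d V 1 n).2 = 1
    rw [ih, homComp_one_one]

theorem iter_fst_natDegree (d n : ℕ) (V : κ[X]) (hV : V.natDegree = d) :
    (iter d V 1 n).1.natDegree = d ^ n := by
  induction n with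
  | zero => simp [iter]
  | succ n ih =>
    change (homComp d V (iter d V 1 n).1 (iter d V 1 n).2).natDegree = _
    rw [iter_snd, homComp_one d V _ hV.le, natDegree_comp, hV, ih, pow_succ]
    ring

theorem fixPoly_natDegree (d n : ℕ) (V : κ[X]) (hV : V.natDegree = d) (hd : 2 ≤ d)
    (hn : 1 ≤ n) : (fixPoly d V 1 n).natDegree = d ^ n := by
  unfold fixPoly
  rw [iter_snd, mul_one, natDegree_sub_eq_left_of_natDegree_lt, iter_fst_natDegree d n V hV]
  rw [iter_fst_natDegree d n V hV, natDegree_X]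
  calc 1 < d := hd
    _ = d ^ 1 := (pow_one d).symm
    _ ≤ d ^ n := Nat.pow_le_pow_right (by omega) hn

theorem ev_one (V : κ[X]) : ev V 1 = fun y => V.eval y := by
  funext y
  simp [ev]

theorem eval_fixPoly (h1 : A1S) {d n : ℕ} {P Q : K[X]} {z : K} (hP : P.natDegree ≤ d)
    (hQ : Q.natDegree ≤ d) (hz : ∀ k, Q.eval ((ev P Q)^[k] z) ≠ 0) :
    (fixPoly d P Q n).eval z = 0 ↔ (ev P Q)^[n] z = z := by
  obtain ⟨h2, h3, -⟩ := h1 K d n P Q z hP hQ (fun k _ => hz k)
  unfold fixPoly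
  rw [eval_sub, eval_mul, eval_X, h3, ← sub_mul, mul_eq_zero, sub_eq_zero]
  exact ⟨fun h => h.resolve_right h2, Or.inl⟩

/-- an orbit point of a periodic point is periodic -/
theorem per_iterate {P Q : K[X]} {n : ℕ} {z : K} (h : Per P Q n z) (k : ℕ) :
    Per P Q n ((ev P Q)^[k] z) := by
  refine ⟨fun j => ?_, ?_⟩
  · rw [← Function.iterate_add_apply]
    exact h.1 (j + k)
  · rw [← Function.iterate_add_apply, add_comm, Function.iterate_add_apply, h.2]

/-- outside the ring of the place the map stays outside -/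
theorem ev_not_mem {d : ℕ} {P Q : K[X]} {V : κ[X]} (hd : 2 ≤ d) (hP : P.natDegree ≤ d)
    (hQ : Q.natDegree ≤ d) (hPV : p.RedP P V) (hQ1 : p.RedP Q 1) (hV : V.natDegree = d) {z : K}
    (hz : z ∉ p.O) (hQz : Q.eval z ≠ 0) : ev P Q z ∉ p.O := by
  intro hw
  have hz0 : z ≠ 0 := by
    rintro rfl
    exact hz p.O.zero_mem
  have hu : p.Red z⁻¹ 0 := Pl.not_mem_inv hz
  have key : ∀ (F : K[X]) (G : κ[X]), F.natDegree ≤ d → p.RedP F G →
      p.Red (F.eval z * (z⁻¹) ^ d) (G.coeff d) := by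
    intro F G hF hFG
    have h1 : F.eval z * (z⁻¹) ^ d = ∑ i ∈ Finset.range (d + 1), F.coeff i * (z⁻¹) ^ (d - i) := by
      rw [eval_eq_sum_range' (Nat.lt_succ_of_le hF), Finset.sum_mul]
      refine Finset.sum_congr rfl fun i hi => ?_
      have hi' : i ≤ d := Nat.lt_succ_iff.1 (Finset.mem_range.1 hi)
      have h2 : (z⁻¹) ^ d = (z⁻¹) ^ i * (z⁻¹) ^ (d - i) := by
        rw [← pow_add, Nat.add_sub_cancel' hi']
      rw [h2, mul_assoc, ← mul_assoc (z ^ i), ← mul_pow, mul_inv_cancel₀ hz0, one_pow, one_mul]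
    have h3 : G.coeff d = ∑ i ∈ Finset.range (d + 1), G.coeff i * (0 : κ) ^ (d - i) := by
      rw [Finset.sum_range_succ, Finset.sum_eq_zero, Nat.sub_self, pow_zero, mul_one, zero_add]
      intro i hi
      have hi' : i < d := Finset.mem_range.1 hi
      rw [zero_pow (by omega), mul_zero]
    rw [h1, h3]
    exact Pl.red_sum _ fun i _ => (hFG i).mul (hu.pow (d - i))
  have h1 := key P V hP hPV
  have h2 := key Q 1 hQ hQ1
  have h3 : (1 : κ[X]).coeff d = 0 := by
    rw [coeff_one, if_neg (by omega)]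
  rw [h3] at h2
  have h4 := (Pl.red_rs hw).mul h2
  rw [mul_zero] at h4
  have h5 : ev P Q z * (Q.eval z * (z⁻¹) ^ d) = P.eval z * (z⁻¹) ^ d := by
    unfold ev
    rw [← mul_assoc, div_mul_cancel₀ _ hQz]
  rw [h5] at h4
  have h6 : V.coeff d = 0 := h1.unique h4
  have h7 : V.leadingCoeff = 0 := by
    rw [leadingCoeff, hV, h6]
  rw [leadingCoeff_eq_zero] at h7
  rw [h7, natDegree_zero] at hV
  omega

end N5

theorem N5_holds (h1 : A1S) (h2 : A2S) (hN1 : N1S) (hN2 : N2S) (hN3 : N3S) : N5S := by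
  intro K κ _ _ _ p d n f V hd hn hPV hQ1 hV hnd
  classical
  set W := fixPoly d f.num f.den n with hW
  set Φ := fixPoly d V 1 n with hΦ
  have hVd : V.natDegree ≤ d := hV.le
  have h1d : (1 : κ[X]).natDegree ≤ d := by simp
  have hΦdeg : Φ.natDegree = d ^ n := N5.fixPoly_natDegree d n V hV hd (by omega)
  have hdn : 0 < d ^ n := Nat.pos_of_ne_zero (pow_ne_zero _ (by omega))
  have hΦ0 : Φ ≠ 0 := by
    intro h0
    rw [h0, natDegree_zero] at hΦdeg
    omega
  have hred : p.RedP W Φ := (hN2 K κ p d n f.num f.den V 1 hPV hQ1).2.2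
  have hW0 : W ≠ 0 := by
    intro h0
    apply hΦ0
    ext i
    have h3 := hred i
    rw [h0] at h3
    exact h3.unique (by rw [coeff_zero]; exact Pl.red_zero)
  obtain ⟨S, R, hroots, hSO, hRO, hΦroots, hcard⟩ := hN1 K κ p W Φ hred hΦ0
  have hWdeg : W.natDegree ≤ d ^ n + 1 := by
    obtain ⟨h3, h4, -, -⟩ := h2 K d n f.num f.den (by omega) f.num_le f.den_le f.deg_eq f.coprime
    rw [hW]
    unfold fixPoly
    refine (natDegree_sub_le _ _).trans (max_le (by omega) ?_)
    refine (natDegree_mul_le).trans ?_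
    rw [natDegree_X]
    omega
  have hcR : Multiset.card R ≤ 1 := by
    have h3 := (card_roots' W).trans hWdeg
    rw [hroots, Multiset.card_add, hcard, hΦdeg] at h3
    omega
  rw [hΦroots] at hnd
  have hinj : ∀ z ∈ S, ∀ z' ∈ S, p.rs z = p.rs z' → z = z' := fun z hz z' hz' h =>
    Multiset.inj_on_of_nodup_map hnd z hz z' hz' h
  have hroot : ∀ z, Per f.num f.den n z → z ∈ W.roots := by
    intro z hz
    rw [mem_roots hW0]
    exact (N5.eval_fixPoly h1 f.num_le f.den_le hz.1).2 hz.2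
  have hmemS : ∀ z, Per f.num f.den n z → z ∈ p.O → z ∈ S := by
    intro z hz hzO
    have h3 := hroot z hz
    rw [hroots, Multiset.mem_add] at h3
    exact h3.resolve_right fun h => hRO z h hzO
  have hmemR : ∀ z, Per f.num f.den n z → z ∉ p.O → z ∈ R := by
    intro z hz hzO
    have h3 := hroot z hz
    rw [hroots, Multiset.mem_add] at h3
    exact h3.resolve_left fun h => hzO (hSO z h)
  have hint : ∀ z, PerX f.num f.den n z → z ∈ p.O := by
    intro z hz
    by_contra hzO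
    have h3 : ev f.num f.den z ∉ p.O :=
      N5.ev_not_mem hd f.num_le f.den_le hPV hQ1 hV hzO (hz.1.1 0)
    have h4 := hmemR z hz.1 hzO
    have h5 : ev f.num f.den z ∈ R := hmemR _ (N5.per_iterate hz.1 1) h3
    have h6 : ev f.num f.den z ≠ z := hz.2 1 one_pos (by omega)
    obtain ⟨R', hR'⟩ := Multiset.exists_cons_of_mem h4
    rw [hR'] at h5 hcR
    rcases Multiset.mem_cons.1 h5 with h7 | h7
    · exact h6 h7
    · have h8 := Multiset.card_pos_iff_exists_mem.2 ⟨_, h7⟩
      rw [Multiset.card_cons] at hcR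
      omega
  have hN : ∀ z, z ∈ p.O → (∀ k, f.den.eval ((ev f.num f.den)^[k] z) ≠ 0) ∧
      (∀ k, p.Red ((ev f.num f.den)^[k] z) ((ev V 1)^[k] (p.rs z))) ∧
      ∀ n, p.Red (mult f.num f.den n z) (mult V 1 n (p.rs z)) := by
    intro z hz
    exact (hN3 K κ p f.num f.den V 1 z (p.rs z) hPV hQ1 (Pl.red_rs hz)).2
      (fun k => by rw [eval_one]; exact one_ne_zero)
  refine ⟨?_, ?_, ?_⟩
  · intro z hz
    have hzO := hint z hz
    obtain ⟨-, h4, h5⟩ := hN z hzO
    refine ⟨hzO, ⟨⟨fun k => by rw [eval_one]; exact one_ne_zero, ?_⟩, ?_⟩, ?_, h5 n⟩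
    · have h6 := h4 n
      rw [hz.1.2] at h6
      exact h6.rs_eq.symm
    · intro m hm hmn h6
      have h7 := h4 m
      rw [h6] at h7
      refine hz.2 m hm hmn ?_
      refine hinj _ (hmemS _ (N5.per_iterate hz.1 m) h7.mem) _ (hmemS z hz.1 hzO) ?_
      exact h7.rs_eq
    · intro k
      rw [← N5.ev_one]
      exact h4 k
  · intro z z' hz hz' h
    exact hinj z (hmemS z hz.1 (hint z hz)) z' (hmemS z' hz'.1 (hint z' hz')) h
  · intro y hy
    have h3 : y ∈ Φ.roots := by
      rw [mem_roots hΦ0]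
      exact (N5.eval_fixPoly h1 hVd h1d hy.1.1).2 hy.1.2
    rw [hΦroots, Multiset.mem_map] at h3
    obtain ⟨z, hzS, rfl⟩ := h3
    have hzO := hSO z hzS
    obtain ⟨h4, h5, -⟩ := hN z hzO
    have h6 : z ∈ W.roots := by
      rw [hroots, Multiset.mem_add]
      exact Or.inl hzS
    rw [mem_roots hW0] at h6
    refine ⟨z, ⟨⟨h4, (N5.eval_fixPoly h1 f.num_le f.den_le h4).1 h6⟩, ?_⟩, rfl⟩
    intro m hm hmn h7
    have h8 := h5 m
    rw [h7] at h8
    exact hy.2 m hm hmn h8.rs_eq.symm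

end Pool.Agent.LenSpec
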