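import Pool.Agent.LenSpec.Stmt

/-!
NO: finitely many periods determine the multiplier spectrum (resultants and the Hilbert basis
theorem).
-/

namespace Pool.Agent.LenSpec

open Polynomial

namespace NOaux

section ring

variable {R S : Type} [CommRing R] [CommRing S]

/-- `homComp` over a commutative ring -/
noncomputable def hc (d : ℕ) (P A B : R[X]) : R[X] :=
  ∑ i ∈ Finset.range (d + 1), C (P.coeff i) * A ^ i * B ^ (d - i)

/-- `iter` over a commutative ring -/
noncomputable def it (d : ℕ) (P Q : R[X]) : ℕ → R[X] × R[X]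
  | 0 => (X, 1)
  | n + 1 => (hc d P (it d P Q n).1 (it d P Q n).2, hc d Q (it d P Q n).1 (it d P Q n).2)

theorem hc_map (φ : R →+* S) (d : ℕ) (P A B : R[X]) :
    (hc d P A B).map φ = hc d (P.map φ) (A.map φ) (B.map φ) := by
  simp [hc, Polynomial.map_sum, Polynomial.map_mul, Polynomial.map_pow]

theorem it_map (φ : R →+* S) (d : ℕ) (P Q : R[X]) (n : ℕ) :
    (it d P Q n).1.map φ = (it d (P.map φ) (Q.map φ) n).1 ∧
    (it d P Q n).2.map φ = (it d (P.map φ) (Q.map φ) n).2 := by
  induction n with
  | zero => simp [it]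
  | succ n ih =>
    simp only [it, hc_map, ih.1, ih.2, and_self]

/-- the characteristic polynomial of the multipliers, up to a factor -/
noncomputable def cp (D : ℕ) (A B : R[X]) : R[X] :=
  resultant ((A - X * B).map (C : R →+* R[X]))
    (C (X : R[X]) * (B ^ 2).map (C : R →+* R[X]) -
      (derivative A * B - A * derivative B).map (C : R →+* R[X])) (D + 1) (2 * D)

theorem cp_map (φ : R →+* S) (D : ℕ) (A B : R[X]) :
    (cp D A B).map φ = cp D (A.map φ) (B.map φ) := by
  have hC : ∀ U : R[X], (U.map (C : R →+* R[X])).map (mapRingHom φ) =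
      (U.map φ).map (C : S →+* S[X]) := by
    intro U
    rw [Polynomial.map_map, Polynomial.map_map]
    congr 1
    ext a
    simp
  have h := resultant_map_map (m := D + 1) (n := 2 * D) (f := (A - X * B).map (C : R →+* R[X]))
    (g := C (X : R[X]) * (B ^ 2).map (C : R →+* R[X]) -
      (derivative A * B - A * derivative B).map (C : R →+* R[X])) (mapRingHom φ)
  have h' : (cp D A B).map φ = (mapRingHom φ) (cp D A B) := rfl
  have e : (C (X : R[X]) * (B ^ 2).map (C : R →+* R[X]) -
      (derivative A * B - A * derivative B).map (C : R →+* R[X])).map (mapRingHom φ) =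
      C (X : S[X]) * ((B.map φ) ^ 2).map (C : S →+* S[X]) -
      (derivative (A.map φ) * (B.map φ) - (A.map φ) * derivative (B.map φ)).map
        (C : S →+* S[X]) := by
    rw [Polynomial.map_sub, Polynomial.map_mul, hC, hC, map_C, coe_mapRingHom, map_X,
      Polynomial.map_pow, Polynomial.map_sub, Polynomial.map_mul, Polynomial.map_mul,
      derivative_map, derivative_map]
  rw [h', cp, ← h, hC, e, cp, Polynomial.map_sub φ, Polynomial.map_mul φ, map_X]

end ring

section field

variable {K : Type} [Field K]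

theorem it_eq (d : ℕ) (P Q : K[X]) (n : ℕ) : it d P Q n = iter d P Q n := by
  induction n with
  | zero => rfl
  | succ n ih => simp only [it, iter, hc, homComp, ih]

theorem fix_natDegree (D : ℕ) (A B : K[X]) (hA : A.natDegree ≤ D) (hB : B.natDegree ≤ D)
    (hb : B.coeff D ≠ 0) : (A - X * B).natDegree = D + 1 := by
  apply natDegree_eq_of_le_of_coeff_ne_zero
  · refine (natDegree_sub_le _ _).trans (max_le (by omega) ?_)
    refine (natDegree_mul_le).trans ?_
    have := natDegree_X_le (R := K)
    omega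
  · rw [coeff_sub, coeff_X_mul, coeff_eq_zero_of_natDegree_lt (by omega), zero_sub]
    exact neg_ne_zero.mpr hb

theorem fixMult_eq (D : ℕ) (A B : K[X]) (hA : A.natDegree ≤ D) (hB : B.natDegree ≤ D)
    (hb : B.coeff D ≠ 0) : fixMult D A B = (A - X * B).roots.map (derivAt A B) := by
  rw [fixMult, fix_natDegree D A B hA hB hb]
  simp

theorem cp_eq [IsAlgClosed K] (D : ℕ) (A B : K[X]) (hA : A.natDegree ≤ D)
    (hB : B.natDegree ≤ D) (hb : B.coeff D ≠ 0) (hc : IsCoprime A B) :
    ∃ u : K, u ≠ 0 ∧ cp D A B = C u * ((fixMult D A B).map (fun x => X - C x)).prod := by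
  set p := A - X * B with hp
  have hdeg : p.natDegree = D + 1 := fix_natDegree D A B hA hB hb
  have hp0 : p ≠ 0 := by
    intro h
    rw [h] at hdeg
    simp at hdeg
  have hsp : p.Splits := IsAlgClosed.splits p
  set W := derivative A * B - A * derivative B with hW
  have hWd : W.natDegree ≤ 2 * D := by
    refine (natDegree_sub_le _ _).trans (max_le ?_ ?_)
    · refine natDegree_mul_le.trans ?_
      have := natDegree_derivative_le A
      omega
    · refine natDegree_mul_le.trans ?_
      have := natDegree_derivative_le B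
      omega
  have hgd : (C (X : K[X]) * (B ^ 2).map (C : K →+* K[X]) -
      W.map (C : K →+* K[X])).natDegree ≤ 2 * D := by
    refine (natDegree_sub_le _ _).trans (max_le ?_ (natDegree_map_le.trans hWd))
    refine (natDegree_C_mul_le _ _).trans (natDegree_map_le.trans ?_)
    refine natDegree_pow_le.trans ?_
    omega
  have hmd : (p.map (C : K →+* K[X])).natDegree = D + 1 := by
    rw [natDegree_map_eq_of_injective C_injective, hdeg]
  have h := resultant_eq_prod_eval (p.map (C : K →+* K[X]))
    (C (X : K[X]) * (B ^ 2).map (C : K →+* K[X]) - W.map (C : K →+* K[X])) (2 * D) hgd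
    (hsp.map C)
  rw [hmd] at h
  have hroots : (p.map (C : K →+* K[X])).roots = p.roots.map C := by
    rw [hsp.roots_map]
  have hev : ∀ z : K, eval (C z) (C (X : K[X]) * (B ^ 2).map (C : K →+* K[X]) -
      W.map (C : K →+* K[X])) = X * C (B.eval z ^ 2) - C (W.eval z) := by
    intro z
    simp only [eval_sub, eval_mul, eval_C, eval_map, eval₂_at_apply, eval_pow]
  have hBz : ∀ z ∈ p.roots, B.eval z ≠ 0 := by
    intro z hz hBz
    have h0 : p.eval z = 0 := (mem_roots hp0).mp hz
    have h1 : A.eval z = 0 := by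
      rw [hp] at h0
      simpa [hBz] using h0
    obtain ⟨a, b, hab⟩ := hc
    have := congrArg (eval z) hab
    simp [h1, hBz] at this
  refine ⟨p.leadingCoeff ^ (2 * D) * (p.roots.map (fun z => B.eval z ^ 2)).prod, ?_, ?_⟩
  · refine mul_ne_zero (pow_ne_zero _ (leadingCoeff_ne_zero.mpr hp0)) ?_
    intro h0
    rw [Multiset.prod_eq_zero_iff] at h0
    obtain ⟨z, hz, hz0⟩ := Multiset.mem_map.mp h0
    exact pow_ne_zero 2 (hBz z hz) hz0
  · have h2 : cp D A B = C (p.leadingCoeff ^ (2 * D)) *
        (p.roots.map (fun z => X * C (B.eval z ^ 2) - C (W.eval z))).prod := by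
      rw [cp, ← hp, ← hW, h, hroots, Multiset.map_map, leadingCoeff_map_of_injective C_injective,
        C_pow]
      congr 2
      refine Multiset.map_congr rfl ?_
      intro z _
      exact hev z
    rw [h2, fixMult_eq D A B hA hB hb, ← hp, Multiset.map_map, C_mul, mul_assoc]
    congr 1
    rw [show C ((p.roots.map (fun z => B.eval z ^ 2)).prod) =
        (p.roots.map (fun z => (C (B.eval z ^ 2) : K[X]))).prod by
      rw [map_multiset_prod, Multiset.map_map]; rfl, ← Multiset.prod_map_mul]
    congr 1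
    refine Multiset.map_congr rfl ?_
    intro z hz
    have hz' := hBz z hz
    have hd : derivAt A B z * (B.eval z) ^ 2 = W.eval z := by
      rw [derivAt, div_mul_cancel₀ _ (pow_ne_zero 2 hz'), hW]
      simp
    simp only [Function.comp_apply]
    rw [← hd, C_mul]
    ring

theorem fixMult_card [IsAlgClosed K] (D : ℕ) (A B : K[X]) (hA : A.natDegree ≤ D)
    (hB : B.natDegree ≤ D) (hb : B.coeff D ≠ 0) : Multiset.card (fixMult D A B) = D + 1 := by
  rw [fixMult_eq D A B hA hB hb, Multiset.card_map,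
    ← (IsAlgClosed.splits (A - X * B)).natDegree_eq_card_roots, fix_natDegree D A B hA hB hb]

/-- equality of two multisets in terms of multiples of their polynomials -/
theorem mset_eq_iff (D : ℕ) (M N : Multiset K) (u v : K) (p q : K[X]) (hu : u ≠ 0) (hv : v ≠ 0)
    (hM : Multiset.card M = D) (hN : Multiset.card N = D)
    (hp : p = C u * (M.map (fun x => X - C x)).prod)
    (hq : q = C v * (N.map (fun x => X - C x)).prod) :
    C (p.coeff D) * q - C (q.coeff D) * p = 0 ↔ M = N := by
  have hlc : ∀ L : Multiset K, ∀ w : K, Multiset.card L = D →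
      (C w * (L.map (fun x => X - C x)).prod).coeff D = w := by
    intro L w hL
    have hm : ((L.map (fun x => X - C x)).prod).Monic := monic_multisetProd_X_sub_C L
    have hn : ((L.map (fun x => X - C x)).prod).natDegree = D := by
      rw [natDegree_multiset_prod_X_sub_C_eq_card, hL]
    rw [coeff_C_mul, ← hn, coeff_natDegree, hm.leadingCoeff, mul_one]
  have h1 : p.coeff D = u := by rw [hp, hlc M u hM]
  have h2 : q.coeff D = v := by rw [hq, hlc N v hN]
  rw [h1, h2, hp, hq]
  have hC : (C u * C v : K[X]) ≠ 0 := mul_ne_zero (C_ne_zero.mpr hu) (C_ne_zero.mpr hv)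
  constructor
  · intro h
    have h3 : C u * C v * (N.map (fun x => X - C x)).prod =
        C u * C v * (M.map (fun x => X - C x)).prod := by
      linear_combination h
    have h4 := mul_left_cancel₀ hC h3
    have h5 := congrArg roots h4
    rw [roots_multiset_prod_X_sub_C, roots_multiset_prod_X_sub_C] at h5
    exact h5.symm
  · intro h
    rw [h]
    ring

end field

/-! ### The universal pair -/

/-- the ring of the coefficients of a pair of maps -/
abbrev UR (d : ℕ) : Type := MvPolynomial (CI d ⊕ CI d) ℚ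

/-- universal polynomial with the given variables -/
noncomputable def up (d : ℕ) (v : Fin (d + 1) → CI d ⊕ CI d) : (UR d)[X] :=
  ∑ i : Fin (d + 1), C (MvPolynomial.X (v i)) * X ^ (i : ℕ)

theorem up_map (d : ℕ) (v : Fin (d + 1) → CI d ⊕ CI d) (φ : UR d →+* ℂ) (P : ℂ[X])
    (hP : P.natDegree ≤ d) (h : ∀ i, φ (MvPolynomial.X (v i)) = P.coeff i) :
    (up d v).map φ = P := by
  rw [up, Polynomial.map_sum]
  simp only [Polynomial.map_mul, map_C, Polynomial.map_pow, map_X, h]
  rw [Fin.sum_univ_eq_sum_range (fun i => C (P.coeff i) * X ^ i)]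
  exact (P.as_sum_range_C_mul_X_pow' (by omega)).symm

/-- the condition for the period `n` -/
noncomputable def dl (d n : ℕ) : (UR d)[X] :=
  let p := it d (up d (fun i => Sum.inl (Sum.inl i))) (up d (fun i => Sum.inl (Sum.inr i))) n
  let q := it d (up d (fun i => Sum.inr (Sum.inl i))) (up d (fun i => Sum.inr (Sum.inr i))) n
  C ((cp (d ^ n) p.1 p.2).coeff (d ^ n + 1)) * cp (d ^ n) q.1 q.2 -
    C ((cp (d ^ n) q.1 q.2).coeff (d ^ n + 1)) * cp (d ^ n) p.1 p.2

/-- the evaluation at a pair of maps -/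
noncomputable def evp {d : ℕ} (f g : RatMap ℂ d) : UR d →+* ℂ :=
  (MvPolynomial.aeval (Sum.elim f.coef g.coef) : UR d →ₐ[ℚ] ℂ).toRingHom

theorem evp_X {d : ℕ} (f g : RatMap ℂ d) (i : CI d ⊕ CI d) :
    evp f g (MvPolynomial.X i) = Sum.elim f.coef g.coef i := by
  simp [evp]

theorem dl_map {d : ℕ} (f g : RatMap ℂ d) (n : ℕ) :
    (dl d n).map (evp f g) =
      C ((cp (d ^ n) (iter d f.num f.den n).1 (iter d f.num f.den n).2).coeff (d ^ n + 1)) *
        cp (d ^ n) (iter d g.num g.den n).1 (iter d g.num g.den n).2 -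
      C ((cp (d ^ n) (iter d g.num g.den n).1 (iter d g.num g.den n).2).coeff (d ^ n + 1)) *
        cp (d ^ n) (iter d f.num f.den n).1 (iter d f.num f.den n).2 := by
  have h1 := up_map d (fun i => Sum.inl (Sum.inl i)) (evp f g) f.num f.num_le
    (fun i => by rw [evp_X]; rfl)
  have h2 := up_map d (fun i => Sum.inl (Sum.inr i)) (evp f g) f.den f.den_le
    (fun i => by rw [evp_X]; rfl)
  have h3 := up_map d (fun i => Sum.inr (Sum.inl i)) (evp f g) g.num g.num_le
    (fun i => by rw [evp_X]; rfl)
  have h4 := up_map d (fun i => Sum.inr (Sum.inr i)) (evp f g) g.den g.den_le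
    (fun i => by rw [evp_X]; rfl)
  have e1 := it_map (evp f g) d (up d (fun i => Sum.inl (Sum.inl i)))
    (up d (fun i => Sum.inl (Sum.inr i))) n
  have e2 := it_map (evp f g) d (up d (fun i => Sum.inr (Sum.inl i)))
    (up d (fun i => Sum.inr (Sum.inr i))) n
  rw [h1, h2, it_eq] at e1
  rw [h3, h4, it_eq] at e2
  have hcf : ∀ (p : (UR d)[X]) (i : ℕ), evp f g (p.coeff i) = (p.map (evp f g)).coeff i :=
    fun p i => (coeff_map _ _).symm
  simp only [dl, Polynomial.map_sub, Polynomial.map_mul, map_C, hcf, cp_map, e1.1, e1.2,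
    e2.1, e2.2]

theorem dl_iff (h2 : A2S) {d n : ℕ} (hd : 2 ≤ d) (hn : 1 ≤ n) (f g : RatMap ℂ d)
    (hf : NoInf d f.num f.den) (hg : NoInf d g.num g.den) :
    (dl d n).map (evp f g) = 0 ↔ f.multSpec n = g.multSpec n := by
  obtain ⟨fA, fB, -, fc⟩ := h2 ℂ d n f.num f.den (by omega) f.num_le f.den_le f.deg_eq f.coprime
  obtain ⟨gA, gB, -, gc⟩ := h2 ℂ d n g.num g.den (by omega) g.num_le g.den_le g.deg_eq g.coprime
  obtain ⟨u, hu, hu'⟩ := cp_eq (d ^ n) _ _ fA fB (hf n hn) fc
  obtain ⟨v, hv, hv'⟩ := cp_eq (d ^ n) _ _ gA gB (hg n hn) gc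
  rw [dl_map]
  exact mset_eq_iff (d ^ n + 1) (f.multSpec n) (g.multSpec n) u v _ _ hu hv
    (fixMult_card _ _ _ fA fB (hf n hn)) (fixMult_card _ _ _ gA gB (hg n hn)) hu' hv'

/-- the ideal of the conditions for the periods up to `N` -/
noncomputable def idl (d N : ℕ) : Ideal (UR d) :=
  Ideal.span {c | ∃ n i, 1 ≤ n ∧ n ≤ N ∧ c = (dl d n).coeff i}

theorem idl_mono (d : ℕ) : Monotone (idl d) := by
  intro a b hab
  refine Ideal.span_mono ?_
  rintro c ⟨n, i, h1, h2, h3⟩
  exact ⟨n, i, h1, h2.trans hab, h3⟩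

theorem idl_stab (d : ℕ) : ∃ N, ∀ m, N ≤ m → idl d N = idl d m :=
  monotone_stabilizes_iff_noetherian.mpr inferInstance ⟨idl d, idl_mono d⟩

end NOaux

open NOaux in
/-- finitely many periods determine the multiplier spectrum -/
theorem NO_holds (h2 : A2S) (h4 : B4S) : NOS := by
  intro d hd
  obtain ⟨N, hN⟩ := idl_stab d
  refine ⟨N, ?_⟩
  intro f g hfg
  have : Uncountable ℂ := by
    rw [← not_countable_iff, ← Set.countable_univ_iff]
    exact not_countable_complex
  obtain ⟨f', hf', hf⟩ := h4 ℂ d f hd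
  obtain ⟨g', hg', hg⟩ := h4 ℂ d g hd
  intro n hn
  rw [← hf, ← hg]
  have hker : idl d N ≤ RingHom.ker (evp f' g') := by
    refine Ideal.span_le.mpr ?_
    rintro c ⟨m, i, h1, hm, rfl⟩
    have h3 : (dl d m).map (evp f' g') = 0 := by
      rw [dl_iff h2 hd h1 f' g' hf' hg', hf, hg]
      exact hfg m h1 hm
    have h5 := congrArg (fun p : ℂ[X] => p.coeff i) h3
    simpa [coeff_map] using h5
  have hker' : idl d (max N n) ≤ RingHom.ker (evp f' g') := by
    rw [← hN _ (le_max_left N n)]
    exact hker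
  rw [← dl_iff h2 hd hn f' g' hf' hg']
  ext i
  rw [coeff_map, coeff_zero]
  exact hker' (Ideal.subset_span ⟨n, i, hn, le_max_right N n, rfl⟩)

end Pool.Agent.LenSpec
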