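import Pool.Agent.LenSpec.Stmt
import Pool.Agent.LenSpec.PlBasic

/-!
O1: transitivity for the generic map.
-/

namespace Pool.Agent.LenSpec

open Polynomial

namespace O1

theorem isAlgebraic_mono {F K : Type} [Field F] [Field K] [Algebra F K]
    {L L' : IntermediateField F K} (h : L ≤ L') {x : K} (hx : IsAlgebraic L x) :
    IsAlgebraic L' x := by
  obtain ⟨p, hp, hpx⟩ := hx
  refine ⟨p.map (IntermediateField.inclusion h).toRingHom, ?_, ?_⟩
  · exact (Polynomial.map_ne_zero_iff (IntermediateField.inclusion h).toRingHom.injective).2 hp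
  · rw [Polynomial.aeval_def, Polynomial.eval₂_map]
    rw [Polynomial.aeval_def] at hpx
    exact hpx

section maps

variable {K : Type} [Field K] {P Q : K[X]} {τ : K →+* K}

theorem map_evalP {R : K[X]} (hR : R.map τ = R) (x : K) : τ (R.eval x) = R.eval (τ x) := by
  have h := eval_map_apply τ x (p := R)
  rw [hR] at h
  exact h.symm

theorem map_ev (hP : P.map τ = P) (hQ : Q.map τ = Q) (x : K) :
    τ (ev P Q x) = ev P Q (τ x) := by
  unfold ev
  rw [map_div₀, map_evalP hP, map_evalP hQ]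

theorem map_ev_iter (hP : P.map τ = P) (hQ : Q.map τ = Q) (k : ℕ) (x : K) :
    τ ((ev P Q)^[k] x) = (ev P Q)^[k] (τ x) := by
  induction k with
  | zero => rfl
  | succ k ih => rw [Function.iterate_succ_apply', Function.iterate_succ_apply', map_ev hP hQ, ih]

theorem map_perX (hP : P.map τ = P) (hQ : Q.map τ = Q) (n : ℕ) (x : K) (h : PerX P Q n x) :
    PerX P Q n (τ x) := by
  refine ⟨⟨fun k => ?_, ?_⟩, fun m hm hmn => ?_⟩
  · rw [← map_ev_iter hP hQ, ← map_evalP hQ]
    exact (map_ne_zero τ).2 (h.1.1 k)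
  · rw [← map_ev_iter hP hQ, h.1.2]
  · rw [← map_ev_iter hP hQ]
    exact fun he => h.2 m hm hmn (τ.injective he)

end maps

end O1

theorem o1_holds (hSR : SRS) (hL7 : L7S) (hA5 : A5S) : O1S := by
  intro K F _ _ _ _ _ _ φ d P Q t s hS G
  classical
  have hcF : CharZero F := (algebraMap F K).charZero
  obtain ⟨κ, _, _, p, t₁, hκ, htr, halg, hFred, hfin, hper⟩ := hSR K F d P Q t s hS
  obtain ⟨S, hSres⟩ := hfin G
  obtain ⟨n₀, hn₀⟩ := hL7 F κ φ t₁ d htr halg hS.two_le S
  refine ⟨n₀, fun n hn hnn z z' hz hz' => ?_⟩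
  have hn1 : 1 ≤ n := hn.one_lt.le
  set E : IntermediateField F K := IntermediateField.adjoin F (({t, s} : Set K) ∪ G) with hE
  have htE : t ∈ E := IntermediateField.subset_adjoin _ _ (by simp)
  have hsE : s ∈ E := IntermediateField.subset_adjoin _ _ (by simp)
  have hGE : ∀ x ∈ G, x ∈ E := fun x hx =>
    IntermediateField.subset_adjoin _ _ (Or.inr (by exact_mod_cast hx))
  have hle : IntermediateField.adjoin F ({t, s} : Set K) ≤ E :=
    IntermediateField.adjoin.mono _ _ _ Set.subset_union_left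
  have halgE : ∀ x : K, IsAlgebraic E x := fun x => O1.isAlgebraic_mono hle (hS.alg x)
  have : Algebra.IsAlgebraic E K := ⟨halgE⟩
  have : IsAlgClosure E K := ⟨inferInstance, inferInstance⟩
  have : CharZero E := (algebraMap E K).charZero
  have : IsGalois E K := ⟨⟩
  have hfixE : ∀ (τ : K ≃ₐ[E] K) (x : K), x ∈ E → τ x = x := fun τ x hx => τ.commutes ⟨x, hx⟩
  have hfixF : ∀ (τ : K ≃ₐ[E] K) (a : F), τ (algebraMap F K a) = algebraMap F K a :=
    fun τ a => hfixE τ _ (E.algebraMap_mem a)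
  have hP : ∀ τ : K ≃ₐ[E] K, P.map (τ : K →+* K) = P := by
    intro τ
    obtain ⟨R, -, hR⟩ := hS.num
    have hc : ((τ : K →+* K)).comp (algebraMap F K) = algebraMap F K := by
      ext a
      exact hfixF τ a
    rw [hR]
    simp only [Polynomial.map_add, Polynomial.map_pow, map_X, Polynomial.map_mul, map_C,
      Polynomial.map_map]
    rw [hc]
    congr 3
    · congr 1
      exact hfixE τ t htE
    · exact hfixE τ s hsE
  have hQ : ∀ τ : K ≃ₐ[E] K, Q.map (τ : K →+* K) = Q := by
    intro τ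
    obtain ⟨R, -, hR⟩ := hS.den
    have hc : ((τ : K →+* K)).comp (algebraMap F K) = algebraMap F K := by
      ext a
      exact hfixF τ a
    rw [hR]
    simp only [Polynomial.map_add, Polynomial.map_one, Polynomial.map_mul, map_C,
      Polynomial.map_map]
    rw [hc]
    congr 3
    exact hfixE τ s hsE
  have hτev : ∀ (τ : K ≃ₐ[E] K) (k : ℕ) (x : K), τ ((ev P Q)^[k] x) = (ev P Q)^[k] (τ x) :=
    fun τ k x => O1.map_ev_iter (hP τ) (hQ τ) k x
  have hτper : ∀ (τ : K ≃ₐ[E] K) (x : K), PerX P Q n x → PerX P Q n (τ x) :=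
    fun τ x hx => O1.map_perX (hP τ) (hQ τ) n x hx
  -- the set of all images of the orbit of z'
  set A' : Set K := {a | ∃ (τ : K ≃ₐ[E] K) (k : ℕ), a = τ ((ev P Q)^[k] z')} with hA'
  have hA'fin : A'.Finite := by
    refine Set.Finite.subset (s := ⋃ k ∈ Finset.range n, (minpoly E ((ev P Q)^[k] z')).rootSet K)
      (Set.Finite.biUnion (Finset.finite_toSet _) fun k _ => Polynomial.rootSet_finite _ _) ?_
    rintro a ⟨τ, k, rfl⟩
    have hk : (ev P Q)^[k] z' = (ev P Q)^[k % n] z' := by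
      have hper' : Function.IsPeriodicPt (ev P Q) n z' := hz'.1.2
      exact (hper'.iterate_mod_apply k).symm
    rw [hk]
    refine Set.mem_biUnion (x := k % n) (by simpa using Nat.mod_lt k hn1) ?_
    rw [Polynomial.mem_rootSet_of_ne (minpoly.ne_zero (halgE _).isIntegral)]
    have h1 := Polynomial.aeval_algHom_apply (τ : K →ₐ[E] K) ((ev P Q)^[k % n] z')
      (minpoly E ((ev P Q)^[k % n] z'))
    rw [minpoly.aeval, map_zero] at h1
    exact h1
  have hperA : ∀ a ∈ A', PerX P Q n a := by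
    rintro a ⟨τ, k, rfl⟩
    exact hτper τ _ ((hA5 K P Q n z' hn1 hz').1 k)
  set Af : Finset K := hA'fin.toFinset with hAf
  have hmem : ∀ a, a ∈ Af ↔ a ∈ A' := fun a => hA'fin.mem_toFinset
  obtain ⟨h1, h2, -⟩ := hper n hn.two_le
  set W : K[X] := ∏ a ∈ Af, (X - C a) with hW
  have hWE : ∀ i, W.coeff i ∈ E := by
    intro i
    have hfix : ∀ τ : Gal(K/E), τ (W.coeff i) = W.coeff i := by
      intro τ
      have hmap : W.map ((τ : K ≃ₐ[E] K) : K →+* K) = W := by
        rw [hW, Polynomial.map_prod]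
        simp only [Polynomial.map_sub, map_X, map_C]
        refine Finset.prod_bij (fun a _ => τ a) ?_ ?_ ?_ ?_
        · intro a ha
          rw [hmem] at ha ⊢
          obtain ⟨τ', k, rfl⟩ := ha
          exact ⟨τ'.trans τ, k, rfl⟩
        · intro a _ b _ h
          exact τ.injective h
        · intro b hb
          rw [hmem] at hb
          obtain ⟨τ', k, rfl⟩ := hb
          refine ⟨(τ'.trans τ.symm) ((ev P Q)^[k] z'), ?_, ?_⟩
          · rw [hmem]
            exact ⟨τ'.trans τ.symm, k, rfl⟩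
          · simp
        · intro a _
          rfl
      have := congrArg (fun R : K[X] => R.coeff i) hmap
      simp only [coeff_map] at this
      exact this
    have hbot := (InfiniteGalois.mem_bot_iff_fixed (k := E) (W.coeff i)).2 hfix
    obtain ⟨e, he⟩ := IntermediateField.mem_bot.1 hbot
    rw [← he]
    exact e.2
  set A : Finset κ := Af.image p.rs with hA
  have hinj : Set.InjOn p.rs (Af : Set K) := by
    intro a ha b hb hab
    exact h2 a b (hperA a ((hmem a).1 ha)) (hperA b ((hmem b).1 hb)) hab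
  have hprod : ∏ y ∈ A, (X - C y) = ∏ a ∈ Af, (X - C (p.rs a)) :=
    Finset.prod_image hinj
  have hredW : p.RedP W (∏ y ∈ A, (X - C y)) := by
    rw [hprod, hW]
    refine Pl.redP_prod _ fun a ha => ?_
    exact Pl.redP_X.sub (Pl.redP_C (Pl.red_rs (h1 a (hperA a ((hmem a).1 ha))).1))
  have hA1 : ∀ y ∈ A, (T d t₁)^[n] y = y ∧ T d t₁ y ≠ y ∧ T d t₁ y ∈ A := by
    intro y hy
    obtain ⟨a, ha, rfl⟩ := Finset.mem_image.1 hy
    have hpa := hperA a ((hmem a).1 ha)
    obtain ⟨-, e1, e2, e3, -⟩ := h1 a hpa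
    refine ⟨e1, ?_, ?_⟩
    · exact e2 1 one_pos hn.one_lt
    · have := e3 1
      rw [Function.iterate_one, Function.iterate_one] at this
      rw [← this]
      refine Finset.mem_image.2 ⟨ev P Q a, ?_, rfl⟩
      rw [hmem] at ha ⊢
      obtain ⟨τ, k, rfl⟩ := ha
      refine ⟨τ, k + 1, ?_⟩
      rw [Function.iterate_succ_apply', ← Function.iterate_one (ev P Q), ← hτev]
  have hAne : A.Nonempty := by
    refine ⟨p.rs z', Finset.mem_image.2 ⟨z', ?_, rfl⟩⟩
    rw [hmem]
    exact ⟨AlgEquiv.refl, 0, rfl⟩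
  have hy := hn₀ n hn hnn A hA1 (fun i => hSres _ _ (hWE i) (hredW i)) hAne (p.rs z)
    (h1 z hz).2.1 ((h1 z hz).2.2.1 1 one_pos hn.one_lt)
  obtain ⟨a, ha, haz⟩ := Finset.mem_image.1 hy
  have haz' : a = z := h2 a z (hperA a ((hmem a).1 ha)) hz haz
  obtain ⟨τ, k, hk⟩ := (hmem a).1 ha
  rw [haz'] at hk
  have hw : (ev P Q)^[n] (τ z') = τ z' := (hτper τ z' hz').1.2
  have hkn : (ev P Q)^[n * (k + 1) - k] z = τ z' := by
    rw [hk, hτev, ← Function.iterate_add_apply]
    have : n * (k + 1) - k + k = n * (k + 1) := by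
      have : k ≤ n * (k + 1) := by nlinarith
      omega
    rw [this]
    have hp : Function.IsPeriodicPt (ev P Q) n (τ z') := hw
    exact (hp.mul_const (k + 1))
  refine ⟨τ.restrictScalars F, n * (k + 1) - k, ?_, ?_, ?_, ?_⟩
  · exact hfixE τ t htE
  · exact hfixE τ s hsE
  · exact fun x hx => hfixE τ x (hGE x hx)
  · exact hkn.symm

end Pool.Agent.LenSpec
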