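import Pool.Agent.LenSpec.Stmt

/-!
Module OP: transitivity and multiplicative independence for the generic map.
-/

namespace Pool.Agent.LenSpec

open Polynomial

theorem op_holds (hQ : Q1S) (hO : O1S) (hP : P1S) (hB : B8S) : OPS := by
  classical
  intro K _ _ _ ι c d f hf
  obtain ⟨F, a, b, t, s, hFc, haF, hbF, ha, hb, hσ, hS⟩ := hQ K c d f hf
  have hev := fun z => (hB K f.num f.den a b ha hb z).1
  have hper := fun z n => ((hB K f.num f.den a b ha hb z).2 n).1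
  have hmul := fun z n => ((hB K f.num f.den a b ha hb z).2 n).2
  have hit : ∀ (k : ℕ) (z : K), (ev (C (a * b) * f.num.comp (C a⁻¹ * X))
      (C b * f.den.comp (C a⁻¹ * X)))^[k] (a * z) = a * (ev f.num f.den)^[k] z := by
    intro k
    induction k with
    | zero => intro z; rfl
    | succ k ih =>
      intro z
      rw [Function.iterate_succ_apply, hev, ih, Function.iterate_succ_apply]
  have : IsAlgClosed F := hFc
  refine ⟨F, hFc, hσ, ?_, ?_, ?_⟩
  · rintro n hn x₁ ⟨z₁, h₁, e₁⟩ x₂ ⟨z₂, h₂, e₂⟩ x₃ ⟨z₃, h₃, e₃⟩ x₄ ⟨z₄, h₄, e₄⟩ κ hκ hrel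
    have h := (hP K F d n _ _ t s hS hn).1 (a * z₁) (a * z₂) (a * z₃) (a * z₄) ⟨κ, hκ⟩
      ((hper z₁ n).2 h₁) ((hper z₂ n).2 h₂) ((hper z₃ n).2 h₃) ((hper z₄ n).2 h₄)
      (by rw [hmul, hmul, hmul, hmul, e₁, e₂, e₃, e₄]; exact hrel)
    rw [hmul, hmul, hmul, hmul, e₁, e₂, e₃, e₄] at h
    exact h
  · intro n hn z z' hz hz' he
    obtain ⟨k, hk⟩ := (hP K F d n _ _ t s hS hn).2 (a * z) (a * z') ((hper z n).2 hz)
      ((hper z' n).2 hz') (by rw [hmul, hmul]; exact he)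
    rw [hit] at hk
    exact ⟨k, mul_left_cancel₀ ha hk⟩
  · intro G
    obtain ⟨n₀, hn₀⟩ := hO K F (ι.comp (algebraMap F K)) d _ _ t s hS
      (G ∪ Finset.univ.image f.coef)
    refine ⟨n₀, fun n hn hle z z' hz hz' => ?_⟩
    obtain ⟨τ, k, -, -, hG, hτ⟩ := hn₀ n hn hle (a * z) (a * z') ((hper z n).2 hz)
      ((hper z' n).2 hz')
    refine ⟨τ.toRingEquiv, k, fun x hx => τ.commutes ⟨x, hx⟩, fun i => hG _ ?_,
      fun x hx => hG _ (Finset.mem_union_left _ hx), ?_⟩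
    · exact Finset.mem_union_right _ (Finset.mem_image_of_mem _ (Finset.mem_univ i))
    · rw [hit, map_mul] at hτ
      have h1 : τ a = a := τ.commutes ⟨a, haF⟩
      rw [h1] at hτ
      exact mul_left_cancel₀ ha hτ

end Pool.Agent.LenSpec
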