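import Pool.Agent.LenSpec.Stmt
import Pool.Agent.LenSpec.PlBasic

/-!
P1: multiplicative independence of the multipliers of the generic map.
-/

namespace Pool.Agent.LenSpec

open Polynomial

theorem p1_holds (hSR : SRS) (hM1 : M1S) (hA5 : A5S) : P1S := by
  intro K F _ _ _ _ _ _ d n P Q t s hS hn
  have hcF : CharZero F := (algebraMap F K).charZero
  obtain ⟨κ, _, _, p, t₁, hκ, htr, halg, hFred, -, hper⟩ := hSR K F d P Q t s hS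
  obtain ⟨h1, h2, -⟩ := hper n hn
  have hn1 : 1 ≤ n := by omega
  have key : ∀ z z' : K, PerX P Q n z → PerX P Q n z' →
      (∃ k, p.rs z' = (T d t₁)^[k] (p.rs z)) → ∃ k, z' = (ev P Q)^[k] z := by
    rintro z z' hz hz' ⟨k, hk⟩
    refine ⟨k, ?_⟩
    refine h2 z' _ hz' ((hA5 K P Q n z hn1 hz).1 k) ?_
    rw [hk]
    exact ((h1 z hz).2.2.2.1 k).symm
  have keym : ∀ z z' : K, PerX P Q n z → PerX P Q n z' →
      (∃ k, p.rs z' = (T d t₁)^[k] (p.rs z)) → mult P Q n z = mult P Q n z' := by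
    intro z z' hz hz' h
    obtain ⟨k, hk⟩ := key z z' hz hz' h
    rw [hk]
    exact ((hA5 K P Q n z hn1 hz).2.1 k).symm
  have main : ∀ (z₁ z₂ z₃ z₄ : K) (x : F), PerX P Q n z₁ → PerX P Q n z₂ → PerX P Q n z₃ →
      PerX P Q n z₄ →
      mult P Q n z₁ * mult P Q n z₂ = algebraMap F K x * (mult P Q n z₃ * mult P Q n z₄) →
      ((∃ k, p.rs z₃ = (T d t₁)^[k] (p.rs z₁)) ∧ ∃ k, p.rs z₄ = (T d t₁)^[k] (p.rs z₂)) ∨
      ((∃ k, p.rs z₄ = (T d t₁)^[k] (p.rs z₁)) ∧ ∃ k, p.rs z₃ = (T d t₁)^[k] (p.rs z₂)) := by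
    intro z₁ z₂ z₃ z₄ x hz₁ hz₂ hz₃ hz₄ hrel
    have e₁ := (h1 z₁ hz₁).2.2.2.2
    have e₂ := (h1 z₂ hz₂).2.2.2.2
    have e₃ := (h1 z₃ hz₃).2.2.2.2
    have e₄ := (h1 z₄ hz₄).2.2.2.2
    have hl := e₁.mul e₂
    have hr := (hFred x).mul (e₃.mul e₄)
    rw [hrel] at hl
    exact hM1 F κ t₁ d n htr halg hS.two_le hn1 _ _ _ _ x (h1 z₁ hz₁).2.1 (h1 z₂ hz₂).2.1
      (h1 z₃ hz₃).2.1 (h1 z₄ hz₄).2.1 (hl.unique hr)
  refine ⟨?_, ?_⟩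
  · intro z₁ z₂ z₃ z₄ x hz₁ hz₂ hz₃ hz₄ hrel
    rcases main z₁ z₂ z₃ z₄ x hz₁ hz₂ hz₃ hz₄ hrel with ⟨h, h'⟩ | ⟨h, h'⟩
    · exact Or.inl ⟨keym _ _ hz₁ hz₃ h, keym _ _ hz₂ hz₄ h'⟩
    · exact Or.inr ⟨keym _ _ hz₁ hz₄ h, keym _ _ hz₂ hz₃ h'⟩
  · intro z z' hz hz' hm
    rcases main z z z' z' 1 hz hz hz' hz' (by rw [hm, map_one, one_mul]) with ⟨h, -⟩ | ⟨h, -⟩
    · exact key z z' hz hz' h
    · exact key z z' hz hz' h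

end Pool.Agent.LenSpec
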