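import Pool.Agent.LenSpec.Stmt

/-!
QD1 and QD2: transversality for `z ^ d + t`.
-/

namespace Pool.Agent.LenSpec

open Polynomial

namespace QDAux

lemma T_map {F : Type} [Field F] (φ : F →+* ℂ) (d : ℕ) (t x : F) :
    T d (φ t) (φ x) = φ (T d t x) := by
  simp [T]

lemma T_iter_map {F : Type} [Field F] (φ : F →+* ℂ) (d k : ℕ) (t x : F) :
    (T d (φ t))^[k] (φ x) = φ ((T d t)^[k] x) := by
  induction k with
  | zero => rfl
  | succ k ih => rw [Function.iterate_succ_apply', Function.iterate_succ_apply', ih, T_map]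

lemma Tm_map {F : Type} [Field F] (φ : F →+* ℂ) (d n : ℕ) (t x : F) :
    Tm d (φ t) n (φ x) = φ (Tm d t n x) := by
  simp [Tm, T_iter_map]

lemma Dt_map {F : Type} [Field F] (φ : F →+* ℂ) (d n : ℕ) (t x : F) :
    Dt d (φ t) (φ x) n = φ (Dt d t x n) := by
  induction n with
  | zero => simp [Dt]
  | succ n ih => simp [Dt, T_iter_map, ih]

/-- partial product of the derivatives -/
noncomputable def pp (d : ℕ) (t z : ℂ) (k : ℕ) : ℂ :=
  ∏ j ∈ Finset.range k, ((d : ℂ) * ((T d t)^[j] z) ^ (d - 1))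

lemma Dt_eq (d : ℕ) (t z : ℂ) (n : ℕ)
    (hne : ∀ k < n, (d : ℂ) * ((T d t)^[k] z) ^ (d - 1) ≠ 0) :
    Dt d t z n = pp d t z n * ∑ k ∈ Finset.range n, (pp d t z (k + 1))⁻¹ := by
  induction n with
  | zero => simp [Dt]
  | succ n ih =>
    have h1 := ih (fun k hk => hne k (by omega))
    have hpn : pp d t z (n + 1) ≠ 0 := by
      unfold pp
      rw [Finset.prod_ne_zero_iff]
      intro j hj
      exact hne j (Finset.mem_range.1 hj)
    rw [Finset.sum_range_succ, mul_add, mul_inv_cancel₀ hpn]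
    show (d : ℂ) * ((T d t)^[n] z) ^ (d - 1) * Dt d t z n + 1 = _
    rw [h1]
    have h2 : pp d t z (n + 1) = pp d t z n * ((d : ℂ) * ((T d t)^[n] z) ^ (d - 1)) := by
      unfold pp
      rw [Finset.prod_range_succ]
    rw [h2]
    ring

lemma cyc (d n : ℕ) (t z : ℂ) (hd : 2 ≤ d) (hn : 1 ≤ n) (hz : (T d t)^[n] z = z)
    (hex : ∀ m, 0 < m → m < n → (T d t)^[m] z ≠ z) (hm : Tm d t n z = 1) :
    ∃ (Z : Finset ℂ) (ρ : ℂ → ℂ), (∀ u, u ∈ Z ↔ ∃ k, u = (T d t)^[k] z) ∧ (∀ u ∈ Z, u ≠ 0) ∧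
      (∀ u ∈ Z, T d t u ∈ Z) ∧ Set.InjOn (T d t) Z ∧
      (∀ u ∈ Z, ρ (T d t u) * ((d : ℂ) * u ^ (d - 1)) = ρ u) ∧
      ∑ u ∈ Z, ρ u = Dt d t z n ∧ ρ z = 1 ∧ (∀ u, u ∉ Z → ρ u = 0) := by
  classical
  have hper : ∀ k, (T d t)^[k % n] z = (T d t)^[k] z := by
    intro k
    exact Function.IsPeriodicPt.iterate_mod_apply hz k
  -- the points of the cycle are distinct
  have hinj : ∀ i < n, ∀ j < n, (T d t)^[i] z = (T d t)^[j] z → i = j := by
    have key : ∀ i j, i < j → j < n → (T d t)^[i] z ≠ (T d t)^[j] z := by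
      intro i j hij hj h
      have h1 : (T d t)^[n - j] ((T d t)^[i] z) = (T d t)^[n - j] ((T d t)^[j] z) := by rw [h]
      rw [← Function.iterate_add_apply, ← Function.iterate_add_apply,
        Nat.sub_add_cancel hj.le, hz] at h1
      exact hex (n - j + i) (by omega) (by omega) h1
    intro i hi j hj h
    rcases lt_trichotomy i j with h1 | h1 | h1
    · exact absurd h (key i j h1 hj)
    · exact h1
    · exact absurd h.symm (key j i h1 hi)
  have hfac : ∀ k < n, (d : ℂ) * ((T d t)^[k] z) ^ (d - 1) ≠ 0 := by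
    intro k hk h
    have h1 : Tm d t n z = 0 := Finset.prod_eq_zero (Finset.mem_range.2 hk) h
    rw [hm] at h1
    exact one_ne_zero h1
  have hne0 : ∀ k < n, (T d t)^[k] z ≠ 0 := by
    intro k hk h
    apply hfac k hk
    rw [h, zero_pow (by omega), mul_zero]
  have hpp : ∀ k ≤ n, pp d t z k ≠ 0 := by
    intro k hk
    unfold pp
    rw [Finset.prod_ne_zero_iff]
    intro j hj
    exact hfac j (by have := Finset.mem_range.1 hj; omega)
  have hppn : pp d t z n = 1 := hm
  have hpp0 : pp d t z 0 = 1 := by simp [pp]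
  set Z : Finset ℂ := (Finset.range n).image (fun k => (T d t)^[k] z) with hZ
  set ρ : ℂ → ℂ := fun u =>
    ∑ k ∈ Finset.range n, if u = (T d t)^[k] z then (pp d t z k)⁻¹ else 0 with hρ
  have hρk : ∀ k < n, ρ ((T d t)^[k] z) = (pp d t z k)⁻¹ := by
    intro k hk
    simp only [hρ]
    rw [Finset.sum_eq_single k]
    · simp
    · intro j hj hjk
      rw [if_neg]
      intro h
      exact hjk (hinj j (Finset.mem_range.1 hj) k hk h.symm)
    · intro h
      exact absurd (Finset.mem_range.2 hk) h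
  have hmem : ∀ u, u ∈ Z ↔ ∃ k, u = (T d t)^[k] z := by
    intro u
    rw [hZ, Finset.mem_image]
    constructor
    · rintro ⟨k, _, rfl⟩
      exact ⟨k, rfl⟩
    · rintro ⟨k, rfl⟩
      exact ⟨k % n, Finset.mem_range.2 (Nat.mod_lt _ hn), hper k⟩
  have hmem' : ∀ u ∈ Z, ∃ k < n, u = (T d t)^[k] z := by
    intro u hu
    rw [hZ, Finset.mem_image] at hu
    obtain ⟨k, hk, rfl⟩ := hu
    exact ⟨k, Finset.mem_range.1 hk, rfl⟩
  refine ⟨Z, ρ, hmem, ?_, ?_, ?_, ?_, ?_, ?_, ?_⟩
  · intro u hu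
    obtain ⟨k, hk, rfl⟩ := hmem' u hu
    exact hne0 k hk
  · intro u hu
    obtain ⟨k, rfl⟩ := (hmem u).1 hu
    exact (hmem _).2 ⟨k + 1, (Function.iterate_succ_apply' _ _ _).symm⟩
  · intro u hu v hv huv
    obtain ⟨k, hk, rfl⟩ := hmem' u hu
    obtain ⟨l, hl, rfl⟩ := hmem' v hv
    have h1 : (T d t)^[n - 1] (T d t ((T d t)^[k] z)) =
        (T d t)^[n - 1] (T d t ((T d t)^[l] z)) := by rw [huv]
    rw [← Function.iterate_succ_apply, ← Function.iterate_succ_apply,
      ← Function.iterate_add_apply, ← Function.iterate_add_apply,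
      show n - 1 + 1 + k = k + n by omega, show n - 1 + 1 + l = l + n by omega,
      Function.iterate_add_apply, Function.iterate_add_apply, hz] at h1
    exact h1
  · intro u hu
    obtain ⟨k, hk, rfl⟩ := hmem' u hu
    rw [← Function.iterate_succ_apply' (T d t) k z, hρk k hk]
    have h2 : pp d t z (k + 1) = pp d t z k * ((d : ℂ) * ((T d t)^[k] z) ^ (d - 1)) := by
      unfold pp
      rw [Finset.prod_range_succ]
    have h3 : ρ ((T d t)^[k + 1] z) = (pp d t z (k + 1))⁻¹ := by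
      by_cases hkn : k + 1 < n
      · exact hρk (k + 1) hkn
      · have h4 : k + 1 = n := by omega
        rw [h4, hz, hppn, inv_one]
        have := hρk 0 (by omega)
        rw [hpp0, inv_one] at this
        exact this
    rw [h3, h2, mul_inv, mul_assoc, inv_mul_cancel₀ (hfac k hk), mul_one]
  · rw [hZ, Finset.sum_image]
    · rw [Finset.sum_congr rfl (fun k hk => hρk k (Finset.mem_range.1 hk)),
        Dt_eq d t z n hfac, hppn, one_mul]
      have h1 := Finset.sum_range_succ (fun k => (pp d t z k)⁻¹) n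
      have h2 := Finset.sum_range_succ' (fun k => (pp d t z k)⁻¹) n
      rw [hppn] at h1
      rw [hpp0] at h2
      have h3 := h1.symm.trans h2
      exact add_right_cancel h3
    · intro i hi j hj h
      exact hinj i (Finset.mem_range.1 hi) j (Finset.mem_range.1 hj) h
  · have := hρk 0 (by omega)
    rw [hpp0, inv_one] at this
    exact this
  · intro u hu
    simp only [hρ]
    refine Finset.sum_eq_zero fun k _ => ?_
    rw [if_neg]
    intro h
    exact hu ((hmem u).2 ⟨k, h⟩)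

end QDAux

open QDAux

theorem QD1_holds (hQD0 : QD0S) : QD1S := by
  intro F _ φ d n t z hd hn hz hex hm h0
  have hz' : (T d (φ t))^[n] (φ z) = φ z := by rw [T_iter_map, hz]
  have hex' : ∀ m, 0 < m → m < n → (T d (φ t))^[m] (φ z) ≠ φ z := by
    intro m h1 h2 h3
    rw [T_iter_map] at h3
    exact hex m h1 h2 (φ.injective h3)
  have hm' : Tm d (φ t) n (φ z) = 1 := by rw [Tm_map, hm, map_one]
  obtain ⟨Z, ρ, hmem, h1, h2, h3, h4, h5, h6, _⟩ := cyc d n (φ t) (φ z) hd hn hz' hex' hm'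
  rw [Dt_map, h0, map_zero] at h5
  have h7 := hQD0 d (φ t) Z ρ hd h1 h2 h3 h4 h5 (φ z) ((hmem _).2 ⟨0, rfl⟩)
  rw [h6] at h7
  exact one_ne_zero h7

theorem QD2_holds (hQD0 : QD0S) : QD2S := by
  classical
  intro F _ φ d n m t z w hd hn hm hz hexz hTz hw hexw hTw
  have hz' : (T d (φ t))^[n] (φ z) = φ z := by rw [T_iter_map, hz]
  have hexz' : ∀ m, 0 < m → m < n → (T d (φ t))^[m] (φ z) ≠ φ z := by
    intro m h1 h2 h3
    rw [T_iter_map] at h3
    exact hexz m h1 h2 (φ.injective h3)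
  have hTz' : Tm d (φ t) n (φ z) = 1 := by rw [Tm_map, hTz, map_one]
  have hw' : (T d (φ t))^[m] (φ w) = φ w := by rw [T_iter_map, hw]
  have hexw' : ∀ k, 0 < k → k < m → (T d (φ t))^[k] (φ w) ≠ φ w := by
    intro k h1 h2 h3
    rw [T_iter_map] at h3
    exact hexw k h1 h2 (φ.injective h3)
  have hTw' : Tm d (φ t) m (φ w) = 1 := by rw [Tm_map, hTw, map_one]
  obtain ⟨Z₁, ρ₁, a1, a2, a3, a4, a5, a6, a7, a8⟩ :=
    cyc d n (φ t) (φ z) hd hn hz' hexz' hTz'
  obtain ⟨Z₂, ρ₂, b1, b2, b3, b4, b5, b6, b7, b8⟩ :=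
    cyc d m (φ t) (φ w) hd hm hw' hexw' hTw'
  -- `w` is in the orbit of `z`
  have hk : ∃ k, w = (T d t)^[k] z := by
    by_contra hcon
    have hdisj : ∀ u, u ∈ Z₁ → u ∉ Z₂ := by
      intro u h1 h2
      obtain ⟨k, hk⟩ := (a1 u).1 h1
      obtain ⟨l, hl⟩ := (b1 u).1 h2
      apply hcon
      refine ⟨m * l - l + k, ?_⟩
      apply φ.injective
      rw [← T_iter_map, Function.iterate_add_apply, ← hk, hl, ← Function.iterate_add_apply,
        Nat.sub_add_cancel (Nat.le_mul_of_pos_left l hm), mul_comm]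
      exact (Function.IsPeriodicPt.const_mul hw' l).symm
    have hS1 : ∑ u ∈ Z₁, ρ₁ u ≠ 0 := by
      intro h
      have h7 := hQD0 d (φ t) Z₁ ρ₁ hd a2 a3 a4 a5 h (φ z) ((a1 _).2 ⟨0, rfl⟩)
      rw [a7] at h7
      exact one_ne_zero h7
    have hd12 : Disjoint Z₁ Z₂ := Finset.disjoint_left.2 hdisj
    have e1 : ∑ u ∈ Z₁, ρ₂ u = 0 := Finset.sum_eq_zero fun u hu => b8 u (hdisj u hu)
    have e2 : ∑ u ∈ Z₂, ρ₁ u = 0 :=
      Finset.sum_eq_zero fun u hu => a8 u (fun h => hdisj u h hu)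
    have h7 := hQD0 d (φ t) (Z₁ ∪ Z₂)
      (fun u => (∑ v ∈ Z₂, ρ₂ v) * ρ₁ u - (∑ v ∈ Z₁, ρ₁ v) * ρ₂ u) hd
      (by
        intro u hu
        rcases Finset.mem_union.1 hu with h | h
        · exact a2 u h
        · exact b2 u h)
      (by
        intro u hu
        rcases Finset.mem_union.1 hu with h | h
        · exact Finset.mem_union_left _ (a3 u h)
        · exact Finset.mem_union_right _ (b3 u h))
      (by
        intro u hu v hv huv
        rcases Finset.mem_union.1 hu with h | h <;> rcases Finset.mem_union.1 hv with h' | h'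
        · exact a4 h h' huv
        · exact absurd (huv ▸ b3 v h') (hdisj _ (a3 u h))
        · exact absurd (b3 u h) (hdisj _ (huv ▸ a3 v h'))
        · exact b4 h h' huv)
      (by
        intro u hu
        rcases Finset.mem_union.1 hu with h | h
        · have r1 := a5 u h
          have r2 := b8 u (hdisj u h)
          have r3 := b8 (T d (φ t) u) (hdisj _ (a3 u h))
          rw [r2, r3, mul_zero, sub_zero, sub_zero, mul_assoc, r1]
        · have r1 := b5 u h
          have r2 := a8 u (fun h' => hdisj u h' h)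
          have r3 := a8 (T d (φ t) u) (fun h' => hdisj _ h' (b3 u h))
          rw [r2, r3, mul_zero, zero_sub, zero_sub, neg_mul, mul_assoc, r1])
      (by
        rw [Finset.sum_union hd12]
        simp only [Finset.sum_sub_distrib, ← Finset.mul_sum]
        rw [e1, e2]
        ring)
      (φ w) (Finset.mem_union_right _ ((b1 _).2 ⟨0, rfl⟩))
    rw [b7, a8 (φ w) (fun h' => hdisj _ h' ((b1 _).2 ⟨0, rfl⟩))] at h7
    apply hS1
    linear_combination -h7
  refine ⟨?_, hk⟩
  obtain ⟨k, hk⟩ := hk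
  have h1 : (T d t)^[n] w = w := by
    rw [hk, ← Function.iterate_add_apply, add_comm, Function.iterate_add_apply, hz]
  have h2 : m ≤ n := by
    by_contra h
    exact hexw n (by omega) (by omega) h1
  have h3 : z = (T d t)^[n * k - k] w := by
    rw [hk, ← Function.iterate_add_apply, Nat.sub_add_cancel (Nat.le_mul_of_pos_left k hn),
      mul_comm]
    exact (Function.IsPeriodicPt.const_mul hz k).symm
  have h4 : (T d t)^[m] z = z := by
    rw [h3, ← Function.iterate_add_apply, add_comm, Function.iterate_add_apply, hw]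
  have h5 : n ≤ m := by
    by_contra h
    exact hexz m (by omega) (by omega) h4
  omega

end Pool.Agent.LenSpec
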