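import Pool.Agent.LenSpec.Stmt

/-!
QDa: push-forward of `1 / (z - w)`.
-/

namespace Pool.Agent.LenSpec

open Polynomial

theorem QDa_holds : QDaS := by
  intro d t w y hd hw hyt hyw
  have hd0 : d ≠ 0 := by omega
  have hdC : (d : ℂ) ≠ 0 := Nat.cast_ne_zero.2 hd0
  set c : ℂ := y - t with hc
  have hc0 : c ≠ 0 := sub_ne_zero.2 hyt
  have hcw : c - w ^ d ≠ 0 := by
    intro h
    apply hyw
    unfold T
    linear_combination h
  have hroot : ∀ x ∈ nthRoots d c, x ^ d = c := by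
    intro x hx
    exact (mem_nthRoots (Nat.pos_of_ne_zero hd0)).1 hx
  have hcard : Multiset.card (nthRoots d c) = d := by
    set ζ : ℂ := Complex.exp (2 * Real.pi * Complex.I / d) with hζdef
    have hζ : IsPrimitiveRoot ζ d := Complex.isPrimitiveRoot_exp d hd0
    have h1 : (c ^ ((d : ℂ)⁻¹)) ^ d = c := Complex.cpow_nat_inv_pow _ hd0
    rw [hζ.nthRoots_eq h1, Multiset.card_map, Multiset.card_range]
  have hsum0 : (nthRoots d c).sum = 0 := by
    set ζ : ℂ := Complex.exp (2 * Real.pi * Complex.I / d) with hζdef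
    have hζ : IsPrimitiveRoot ζ d := Complex.isPrimitiveRoot_exp d hd0
    have h1 : (c ^ ((d : ℂ)⁻¹)) ^ d = c := Complex.cpow_nat_inv_pow _ hd0
    rw [hζ.nthRoots_eq h1, Multiset.sum_map_mul_right]
    have h2 : (Multiset.map (fun x => ζ ^ x) (Multiset.range d)).sum = 0 :=
      hζ.geom_sum_eq_zero (by omega)
    rw [h2, zero_mul]
  have hinv : ((nthRoots d c).map (fun x => (x - w)⁻¹)).sum =
      (d : ℂ) * w ^ (d - 1) / (c - w ^ d) := by
    have hev : (X ^ d - C c : ℂ[X]).eval w ≠ 0 := by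
      simp only [eval_sub, eval_pow, eval_X, eval_C]
      intro h
      apply hcw
      linear_combination -h
    have h1 := (IsAlgClosed.splits (X ^ d - C c : ℂ[X])).eval_derivative_div_eval_of_ne_zero hev
    have h2 : (X ^ d - C c : ℂ[X]).roots = nthRoots d c := rfl
    rw [h2] at h1
    have h3 : ((nthRoots d c).map (fun x => (x - w)⁻¹)).sum =
        - ((nthRoots d c).map (fun x => 1 / (w - x))).sum := by
      rw [← Multiset.sum_map_neg', Multiset.map_map]
      congr 1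
      apply Multiset.map_congr rfl
      intro x _
      simp only [Function.comp]
      rw [one_div, ← inv_neg, neg_sub]
    rw [h3, ← h1]
    simp only [derivative_sub, derivative_X_pow, derivative_C, sub_zero, eval_mul, eval_pow,
      eval_X, eval_C, eval_sub, map_natCast, eval_natCast]
    rw [← neg_sub c (w ^ d), div_neg, neg_neg]
  have hterm : ((nthRoots d c).map (fun x => ((x - w) * ((d : ℂ) * x ^ (d - 1)) ^ 2)⁻¹)).sum =
      ((nthRoots d c).map (fun x => (x + w + w ^ 2 * (x - w)⁻¹) * ((d : ℂ) ^ 2 * c ^ 2)⁻¹)).sum := by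
    congr 1
    apply Multiset.map_congr rfl
    intro x hx
    have hxd := hroot x hx
    have hx0 : x ≠ 0 := by
      rintro rfl
      rw [zero_pow hd0] at hxd
      exact hc0 hxd.symm
    have hxw : x - w ≠ 0 := by
      intro h
      apply hcw
      rw [← hxd, sub_eq_zero.1 h, sub_self]
    have h1 : x ^ (d - 1) * x = c := by
      rw [← pow_succ, Nat.sub_add_cancel (by omega), hxd]
    have h2 : x ^ (d - 1) ≠ 0 := pow_ne_zero _ hx0
    rw [← h1]
    field_simp
    ring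
  rw [hterm, Multiset.sum_map_mul_right, Multiset.sum_map_add, Multiset.sum_map_add,
    Multiset.sum_map_mul_left, hinv, Multiset.map_id', hsum0]
  simp only [Multiset.map_const', Multiset.sum_replicate, hcard, nsmul_eq_mul, zero_add]
  have hyTw : y - T d t w = c - w ^ d := by
    unfold T
    rw [hc]
    ring
  rw [hyTw]
  have h1 : w ^ d = w ^ (d - 1) * w := by
    rw [← pow_succ, Nat.sub_add_cancel (by omega)]
  have h2 : w ^ (d - 1) ≠ 0 := pow_ne_zero _ hw
  have h3 : c - w ^ d = c - w ^ (d - 1) * w := by rw [h1]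
  rw [h3] at hcw ⊢
  set u : ℂ := w ^ (d - 1) with hu
  set e : ℂ := c - u * w with he
  have hce : c = e + u * w := by rw [he]; ring
  have hden1 : (d : ℂ) ^ 2 * c ^ 2 ≠ 0 := by positivity
  have hgoal : (w * (d : ℂ) * e + w ^ 2 * ((d : ℂ) * u)) * ((d : ℂ) * u) * (e * c) =
      (c - e) * ((d : ℂ) ^ 2 * c ^ 2) * e := by
    rw [hce]
    ring
  rw [div_eq_mul_inv]
  have e1 : ((d : ℂ) * w + w ^ 2 * ((d : ℂ) * u * e⁻¹)) * ((d : ℂ) ^ 2 * c ^ 2)⁻¹ =
      ((w * (d : ℂ) * e + w ^ 2 * ((d : ℂ) * u)) * ((d : ℂ) * u) * (e * c)) *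
        (e⁻¹ * ((d : ℂ) ^ 2 * c ^ 2)⁻¹ * ((d : ℂ) * u)⁻¹ * (e * c)⁻¹) := by
    field_simp
  have e2 : ((d : ℂ) * u)⁻¹ * (e⁻¹ - c⁻¹) =
      ((c - e) * ((d : ℂ) ^ 2 * c ^ 2) * e) *
        (e⁻¹ * ((d : ℂ) ^ 2 * c ^ 2)⁻¹ * ((d : ℂ) * u)⁻¹ * (e * c)⁻¹) := by
    field_simp
  rw [e1, e2, hgoal]

end Pool.Agent.LenSpec
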