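import Pool.Agent.LenSpec.Stmt
import Pool.Agent.LenSpec.PlBasic

/-!
R5: the coefficients are algebraic over the field of the ratios of the multipliers.
-/

namespace Pool.Agent.LenSpec

open Polynomial

namespace R5

variable {κ : Type} [Field κ]

theorem homComp_X_pow (d : ℕ) (A B : κ[X]) : homComp d (X ^ d) A B = A ^ d := by
  unfold homComp
  rw [Finset.sum_eq_single d]
  · simp
  · intro i _ hi
    simp [coeff_X_pow, hi]
  · intro h
    simp at h

theorem homComp_one (d : ℕ) (A B : κ[X]) : homComp d 1 A B = B ^ d := by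
  unfold homComp
  rw [Finset.sum_eq_single 0]
  · simp
  · intro i _ hi
    simp [coeff_one, hi]
  · intro h
    simp at h

theorem iter_X_pow (d n : ℕ) : iter d (X ^ d : κ[X]) 1 n = (X ^ d ^ n, 1) := by
  induction n with
  | zero => simp [iter]
  | succ n ih =>
    rw [iter, ih, homComp_X_pow, homComp_one]
    simp [← pow_mul, pow_succ]

theorem fixPoly_X_pow (d n : ℕ) : fixPoly d (X ^ d : κ[X]) 1 n = X ^ d ^ n - X := by
  unfold fixPoly
  rw [iter_X_pow]
  simp

theorem nodup_roots_X_pow [CharZero κ] (q : ℕ) (hq : 2 ≤ q) :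
    (X ^ q - X : κ[X]).roots.Nodup := by
  classical
  have hd : (X ^ q - X : κ[X]) ≠ 0 := by
    intro h
    have := congrArg (fun p : κ[X] => p.coeff q) h
    simp [coeff_X, show ¬ (1 = q) by omega] at this
  rw [Multiset.nodup_iff_count_le_one]
  intro a
  rw [count_roots]
  by_contra hlt
  push Not at hlt
  have h2 : 1 < (X ^ q - X : κ[X]).rootMultiplicity a := hlt
  rw [one_lt_rootMultiplicity_iff_isRoot hd] at h2
  obtain ⟨h0, h1⟩ := h2
  simp only [IsRoot.def, derivative_sub, derivative_X_pow, derivative_X, eval_sub, eval_mul,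
    eval_pow, eval_X, eval_one, eval_natCast, map_natCast] at h0 h1
  have h3 : (q : κ) * a ^ q = a := by
    have : a ^ q = a ^ (q - 1) * a := by
      rw [← pow_succ]
      congr 1
      omega
    rw [this, ← mul_assoc, sub_eq_zero.1 h1, one_mul]
  have h4 : a ^ q = a := sub_eq_zero.1 h0
  rw [h4] at h3
  have h5 : ((q : κ) - 1) * a = 0 := by linear_combination h3
  rcases mul_eq_zero.1 h5 with h | h
  · have : (q : κ) = 1 := by linear_combination h
    have : q = 1 := by exact_mod_cast this
    omega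
  · rw [h, zero_pow (by omega)] at h1
    simp at h1

theorem ev_X_pow (d : ℕ) (y : κ) : ev (X ^ d) 1 y = y ^ d := by
  simp [ev]

theorem ev_iter (d k : ℕ) (y : κ) : (ev (X ^ d : κ[X]) 1)^[k] y = y ^ d ^ k := by
  induction k with
  | zero => simp
  | succ k ih =>
    rw [Function.iterate_succ_apply', ih, ev_X_pow, ← pow_mul, pow_succ]

theorem perX_X_pow (d n : ℕ) (hd : 2 ≤ d) (hn : n.Prime) (y : κ) (h1 : y ^ (d ^ n - 1) = 1)
    (h2 : y ^ (d - 1) ≠ 1) : PerX (X ^ d : κ[X]) 1 n y := by
  have hy0 : y ≠ 0 := by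
    intro h
    have : d ^ n - 1 ≠ 0 := by
      have : 2 ≤ d ^ n := le_trans hd (Nat.le_self_pow hn.ne_zero d)
      omega
    rw [h, zero_pow this] at h1
    exact zero_ne_one h1
  have hpos : 0 < d ^ n := by positivity
  refine ⟨⟨fun k => by simp, ?_⟩, ?_⟩
  · rw [ev_iter]
    have : d ^ n = (d ^ n - 1) + 1 := by omega
    rw [this, pow_succ, h1, one_mul]
  · intro m hm hmn h
    have ha : Function.IsPeriodicPt (ev (X ^ d : κ[X]) 1) n y := by
      show (ev (X ^ d : κ[X]) 1)^[n] y = y
      rw [ev_iter]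
      have : d ^ n = (d ^ n - 1) + 1 := by omega
      rw [this, pow_succ, h1, one_mul]
    have hb : Function.IsPeriodicPt (ev (X ^ d : κ[X]) 1) m y := h
    have hc := ha.gcd hb
    have hg : Nat.gcd n m = 1 := by
      rw [Nat.coprime_iff_gcd_eq_one.symm]
      refine (Nat.Prime.coprime_iff_not_dvd hn).2 ?_
      intro hdv
      exact absurd (Nat.le_of_dvd hm hdv) (by omega)
    rw [hg] at hc
    have hc' : y ^ d = y := by
      have : (ev (X ^ d : κ[X]) 1)^[1] y = y := hc
      rwa [ev_iter, pow_one] at this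
    apply h2
    have : y ^ (d - 1) * y = 1 * y := by
      rw [← pow_succ, show d - 1 + 1 = d by omega, hc', one_mul]
    exact mul_right_cancel₀ hy0 this

end R5

theorem r5_holds (h1 : R1S) (h2 : R2S) (h4 : R4S) (hV1 : V1S) (hN5 : N5S) : R5S := by
  intro K _ _ _ d n f hNF hind hn hn5 i
  classical
  by_contra hnot
  set L : IntermediateField ℚ K := IntermediateField.adjoin ℚ
    {x : K | ∃ y ∈ XS f.num f.den n, ∃ y' ∈ XS f.num f.den n, x = y / y'} with hL
  obtain ⟨D₀, hD₀L, hD₀i⟩ := h1 K L (nfc f i) hnot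
  have hd2 : 2 ≤ d := hNF.two_le
  -- the place
  have hind' : AlgebraicIndependent (⊥ : IntermediateField ℚ K) (nfc f) :=
    hind.extendScalars (⊥ : IntermediateField ℚ K)
  obtain ⟨κ, _, _, p, hκ, -, hred⟩ := hV1 K ⊥ _ (nfc f) (fun _ => 0) hind'
    (fun _ => (⊥ : IntermediateField ℚ K).zero_mem)
  have hred0 : ∀ j, p.Red (nfc f j) 0 := by
    intro j
    have := hred j
    rwa [sub_zero] at this
  -- reduction of the coefficients
  have hnum_hi : ∀ j, d < j → f.num.coeff j = 0 := fun j hj =>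
    coeff_eq_zero_of_natDegree_lt (lt_of_le_of_lt f.num_le hj)
  have hden_hi : ∀ j, d < j → f.den.coeff j = 0 := fun j hj =>
    coeff_eq_zero_of_natDegree_lt (lt_of_le_of_lt f.den_le hj)
  have hnum_mid : ∀ j, 1 ≤ j → (hj : j < d) →
      f.num.coeff j = nfc f (Sum.inl ⟨j - 1, by omega⟩) := by
    intro j hj1 hj
    simp only [nfc]
    congr 1
    omega
  have hden_mid : ∀ j, 1 ≤ j → (hj : j < d) →
      f.den.coeff j = nfc f (Sum.inr ⟨j - 1, by omega⟩) := by
    intro j hj1 hj
    simp only [nfc]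
    congr 1
    omega
  have hredN : p.RedP f.num (X ^ d) := by
    intro j
    rw [coeff_X_pow]
    rcases lt_trichotomy j d with hj | hj | hj
    · rw [if_neg (by omega)]
      rcases Nat.eq_zero_or_pos j with h0 | h0
      · rw [h0, hNF.num_0]
        exact Pl.red_zero
      · rw [hnum_mid j h0 hj]
        exact hred0 _
    · rw [if_pos hj, hj, hNF.num_d]
      exact Pl.red_one
    · rw [if_neg (by omega), hnum_hi j hj]
      exact Pl.red_zero
  have hredD : p.RedP f.den 1 := by
    intro j
    rw [coeff_one]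
    rcases lt_trichotomy j d with hj | hj | hj
    · rcases Nat.eq_zero_or_pos j with h0 | h0
      · rw [if_pos h0, h0, hNF.den_0]
        exact Pl.red_one
      · rw [if_neg (by omega), hden_mid j h0 hj]
        exact hred0 _
    · rw [if_neg (by omega), hj, hNF.den_d]
      exact Pl.red_zero
    · rw [if_neg (by omega), hden_hi j hj]
      exact Pl.red_zero
  -- normalise the derivation
  obtain ⟨i₀, -, hi₀, hdvd⟩ := Pl.exists_dvd_all p (Finset.univ : Finset (Fin (d - 1) ⊕ Fin (d - 1)))
    (fun j => D₀ (nfc f j)) ⟨i, Finset.mem_univ _, hD₀i⟩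
  set c : K := (D₀ (nfc f i₀))⁻¹ with hc
  set D : Derivation ℚ K K := c • D₀ with hD
  have hDapp : ∀ x, D x = c * D₀ x := by
    intro x
    rw [hD, Derivation.smul_apply, smul_eq_mul]
  have hDL : ∀ y ∈ L, D y = 0 := by
    intro y hy
    rw [hDapp, hD₀L y hy, mul_zero]
  have hDi₀ : D (nfc f i₀) = 1 := by
    rw [hDapp, hc]
    exact inv_mul_cancel₀ hi₀
  have hDO : ∀ j, D (nfc f j) ∈ p.O := by
    intro j
    have := hdvd j (Finset.mem_univ _)
    rw [hDapp, hc, mul_comm, ← div_eq_mul_inv]
    exact this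
  have hD1 : D 1 = 0 := D.map_one_eq_zero
  have hDnum : ∀ j, D (f.num.coeff j) ∈ p.O := by
    intro j
    rcases lt_trichotomy j d with hj | hj | hj
    · rcases Nat.eq_zero_or_pos j with h0 | h0
      · rw [h0, hNF.num_0, map_zero]
        exact p.O.zero_mem
      · rw [hnum_mid j h0 hj]
        exact hDO _
    · rw [hj, hNF.num_d, hD1]
      exact p.O.zero_mem
    · rw [hnum_hi j hj, map_zero]
      exact p.O.zero_mem
  have hDden : ∀ j, D (f.den.coeff j) ∈ p.O := by
    intro j
    rcases lt_trichotomy j d with hj | hj | hj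
    · rcases Nat.eq_zero_or_pos j with h0 | h0
      · rw [h0, hNF.den_0, hD1]
        exact p.O.zero_mem
      · rw [hden_mid j h0 hj]
        exact hDO _
    · rw [hj, hNF.den_d, map_zero]
      exact p.O.zero_mem
    · rw [hden_hi j hj, map_zero]
      exact p.O.zero_mem
  have hmain := h4 K κ p d n f D (fun j => p.rs (D (f.num.coeff j)))
    (fun j => p.rs (D (f.den.coeff j))) hd2 (by omega) hredN hredD hNF.num_d hNF.num_0
    hNF.den_0 hNF.den_d (fun j => Pl.red_rs (hDnum j)) (fun j => Pl.red_rs (hDden j))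
  -- logarithmic derivatives agree
  have hlog : ∀ z z', PerX f.num f.den n z → PerX f.num f.den n z' →
      D (mult f.num f.den n z) / mult f.num f.den n z =
        D (mult f.num f.den n z') / mult f.num f.den n z' := by
    intro z z' hz hz'
    have hne := (hmain z hz).1
    have hne' := (hmain z' hz').1
    have hmem : mult f.num f.den n z / mult f.num f.den n z' ∈ L := by
      apply IntermediateField.subset_adjoin
      exact ⟨_, ⟨z, hz, rfl⟩, _, ⟨z', hz', rfl⟩, rfl⟩
    have h0 := hDL _ hmem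
    rw [Derivation.leibniz_div] at h0
    have h00 : mult f.num f.den n z' * D (mult f.num f.den n z) -
        mult f.num f.den n z * D (mult f.num f.den n z') = 0 := by
      have hinv : (mult f.num f.den n z')⁻¹ ^ 2 ≠ 0 := pow_ne_zero _ (inv_ne_zero hne')
      simp only [smul_eq_mul] at h0
      rcases mul_eq_zero.1 h0 with h | h
      · exact absurd h hinv
      · exact h
    rw [div_eq_div_iff hne hne']
    linear_combination h00
  have hper : ∀ y : κ, y ^ (d ^ n - 1) = 1 → y ^ (d - 1) ≠ 1 →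
      ∃ z, PerX f.num f.den n z ∧ p.rs z = y := by
    intro y hy1 hy2
    have hfp : (fixPoly d (X ^ d : κ[X]) 1 n).roots.Nodup := by
      rw [R5.fixPoly_X_pow]
      exact R5.nodup_roots_X_pow _ (le_trans hd2 (Nat.le_self_pow hn.ne_zero d))
    exact (hN5 K κ p d n f (X ^ d) hd2 (by omega) hredN hredD (natDegree_X_pow d) hfp).2.2 y
      (R5.perX_X_pow d n hd2 hn y hy1 hy2)
  obtain ⟨e, he⟩ : ∃ e : κ, ∀ z, PerX f.num f.den n z →
      p.Red (D (mult f.num f.den n z) / mult f.num f.den n z) e := by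
    by_cases hex : ∃ z₀, PerX f.num f.den n z₀
    · obtain ⟨z₀, hz₀⟩ := hex
      exact ⟨_, fun z hz => by
        rw [hlog z z₀ hz hz₀]
        exact (hmain z₀ hz₀).2⟩
    · exact ⟨0, fun z hz => absurd ⟨z, hz⟩ hex⟩
  have hd0 : (d : κ) ≠ 0 := by
    have : d ≠ 0 := by omega
    exact_mod_cast this
  have hR2 := h2 κ d n (fun j => p.rs (D (f.num.coeff j))) (fun j => p.rs (D (f.den.coeff j)))
    (d * e) hd2 hn5 (by
      intro y hy1 hy2
      obtain ⟨z, hz, hzy⟩ := hper y hy1 hy2
      have ha := (hmain z hz).2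
      have hb := ha.unique (he z hz)
      rw [hzy] at hb
      rw [← hb, ← mul_assoc, mul_inv_cancel₀ hd0, one_mul])
  -- contradiction
  have hrs1 : p.rs (D (nfc f i₀)) = 1 := by
    rw [hDi₀]
    exact (Pl.red_one (p := p)).rs_eq
  rcases i₀ with i₀ | i₀
  · have h := (hR2 (i₀ + 1) (by omega) (by omega)).1
    simp only [nfc] at hrs1
    rw [h] at hrs1
    exact zero_ne_one hrs1
  · have h := (hR2 (i₀ + 1) (by omega) (by omega)).2
    simp only [nfc] at hrs1
    rw [h] at hrs1
    exact zero_ne_one hrs1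

end Pool.Agent.LenSpec
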