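import Pool.Agent.LenSpec.Stmt

namespace Pool.Agent.LenSpec

/-- a function on a product all of whose rectangles are degenerate depends on one variable only -/
theorem rect_dep {K : Type} (U V : Finset K) (f : K → K → K)
    (h : ∀ u ∈ U, ∀ u' ∈ U, ∀ v ∈ V, ∀ v' ∈ V, (f u v = f u v' ∧ f u' v' = f u' v) ∨
      (f u v = f u' v ∧ f u' v' = f u v')) :
    (∀ u ∈ U, ∀ v ∈ V, ∀ v' ∈ V, f u v = f u v') ∨
      (∀ v ∈ V, ∀ u ∈ U, ∀ u' ∈ U, f u v = f u' v) := by
  by_contra hcon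
  push Not at hcon
  obtain ⟨⟨u, hu, v, hv, v', hv', ne⟩, ⟨w, hw, a, ha, b, hb, ne'⟩⟩ := hcon
  have h1 : f u v = f a v ∧ f a v' = f u v' := by
    rcases h u hu a ha v hv v' hv' with h | h
    · exact absurd h.1 ne
    · exact h
  have h2 : f a w = f a v := by
    rcases h a ha b hb w hw v hv with h | h
    · exact h.1
    · exact absurd h.1 ne'
  have h3 : f a w = f a v' := by
    rcases h a ha b hb w hw v' hv' with h | h
    · exact h.1
    · exact absurd h.1 ne'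
  exact ne (by rw [h1.1, ← h2, h3, h1.2])

theorem rect_case {K : Type} [Field K] (X Y U V : Finset K) (fx fy : K → K → K)
    (hX : ∀ x ∈ X, x ≠ 0) (hY : ∀ y ∈ Y, y ≠ 0) (hU : U.Nonempty) (hV : V.Nonempty)
    (h1 : ∀ x ∈ X, ∀ y ∈ Y, ∃ u ∈ U, ∃ v ∈ V, x * y = u * v)
    (h2 : ∀ u ∈ U, ∀ v ∈ V, fx u v ∈ X ∧ fy u v ∈ Y ∧ fx u v * fy u v = u * v)
    (inj : ∀ x ∈ X, ∀ x' ∈ X, ∀ y ∈ Y, ∀ y' ∈ Y, x * y = x' * y' → x = x' ∧ y = y')
    (hfx : ∀ u ∈ U, ∀ v ∈ V, ∀ v' ∈ V, fx u v = fx u v')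
    (hfy : ∀ v ∈ V, ∀ u ∈ U, ∀ u' ∈ U, fy u v = fy u' v) :
    ∃ e : K, e ≠ 0 ∧ (∀ x, x ∈ X ↔ ∃ u ∈ U, x = e * u) ∧ (∀ v, v ∈ V ↔ ∃ y ∈ Y, v = e * y) := by
  obtain ⟨u0, hu0⟩ := hU
  obtain ⟨v0, hv0⟩ := hV
  obtain ⟨a1, a2, a3⟩ := h2 u0 hu0 v0 hv0
  have b1 := hX _ a1
  have b2 := hY _ a2
  have hu0' : u0 ≠ 0 := by
    rintro rfl
    rw [zero_mul] at a3
    exact mul_ne_zero b1 b2 a3
  have hv0' : v0 ≠ 0 := by
    rintro rfl
    rw [mul_zero] at a3
    exact mul_ne_zero b1 b2 a3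
  have key : ∀ u ∈ U, ∀ v ∈ V, fx u v0 * fy u0 v = u * v := by
    intro u hu v hv
    rw [← (h2 u hu v hv).2.2, hfx u hu v0 hv0 v hv, hfy v hv u0 hu0 u hu]
  have kx : ∀ u ∈ U, fx u v0 = fx u0 v0 / u0 * u := by
    intro u hu
    have c1 := key u hu v0 hv0
    have : fx u v0 * u0 = fx u0 v0 * u := by
      apply mul_right_cancel₀ b2
      calc fx u v0 * u0 * fy u0 v0 = (fx u v0 * fy u0 v0) * u0 := by ring
        _ = (u * v0) * u0 := by rw [c1]
        _ = (u0 * v0) * u := by ring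
        _ = (fx u0 v0 * fy u0 v0) * u := by rw [a3]
        _ = fx u0 v0 * u * fy u0 v0 := by ring
    field_simp
    exact this
  have kv : ∀ v ∈ V, v = fx u0 v0 / u0 * fy u0 v := by
    intro v hv
    have c1 := key u0 hu0 v hv
    field_simp
    linear_combination -c1
  refine ⟨fx u0 v0 / u0, div_ne_zero b1 hu0', fun x => ⟨fun hx => ?_, ?_⟩,
    fun v => ⟨fun hv => ?_, ?_⟩⟩
  · obtain ⟨u, hu, v, hv, e1⟩ := h1 x hx _ a2
    obtain ⟨d1, d2, d3⟩ := h2 u hu v hv
    have := (inj x hx _ d1 _ a2 _ d2 (e1.trans d3.symm)).1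
    refine ⟨u, hu, ?_⟩
    rw [this, hfx u hu v hv v0 hv0]
    exact kx u hu
  · rintro ⟨u, hu, rfl⟩
    rw [← kx u hu]
    exact (h2 u hu v0 hv0).1
  · exact ⟨fy u0 v, (h2 u0 hu0 v hv).2.1, kv v hv⟩
  · rintro ⟨y, hy, rfl⟩
    obtain ⟨u, hu, v, hv, e1⟩ := h1 _ a1 y hy
    obtain ⟨d1, d2, d3⟩ := h2 u hu v hv
    have := (inj _ a1 _ d1 y hy _ d2 (e1.trans d3.symm)).2
    rw [this, hfy v hv u hu u0 hu0, ← kv v hv]
    exact hv

theorem RECT_holds : RectS := by
  classical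
  intro K _ X Y U V hXY hU hV hX hY nX nY h1 hP hQ
  have inj : ∀ x ∈ X, ∀ x' ∈ X, ∀ y ∈ Y, ∀ y' ∈ Y, x * y = x' * y' → x = x' ∧ y = y' := by
    intro x hx x' hx' y hy y' hy' h
    have e : x = x' := by
      have h3 : (x * y) * (x * y) = (x' * y') * (x' * y') := by rw [h]
      rcases hP x hx x hx x' hx' x' hx' y hy y hy y' hy' y' hy' h3 with h4 | h4
      · exact h4.1
      · exact h4.1
    refine ⟨e, ?_⟩
    subst e
    exact mul_left_cancel₀ (hX x hx) h
  choose! gu hgu gv hgv hguv using h1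
  -- the map is injective, so bijective
  have hinj : Set.InjOn (fun p : K × K => (gu p.1 p.2, gv p.1 p.2)) (X ×ˢ Y : Finset (K × K)) := by
    intro p hp q hq hpq
    simp only [Finset.coe_product, Set.mem_prod, Finset.mem_coe] at hp hq
    simp only [Prod.mk.injEq] at hpq
    have e : p.1 * p.2 = q.1 * q.2 := by
      rw [hguv p.1 hp.1 p.2 hp.2, hguv q.1 hq.1 q.2 hq.2, hpq.1, hpq.2]
    have := inj _ hp.1 _ hq.1 _ hp.2 _ hq.2 e
    exact Prod.ext this.1 this.2
  have hmaps : Set.MapsTo (fun p : K × K => (gu p.1 p.2, gv p.1 p.2))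
      (X ×ˢ Y : Finset (K × K)) (U ×ˢ V : Finset (K × K)) := by
    intro p hp
    simp only [Finset.coe_product, Set.mem_prod, Finset.mem_coe] at hp ⊢
    exact ⟨hgu _ hp.1 _ hp.2, hgv _ hp.1 _ hp.2⟩
  have hc1 : (X ×ˢ Y).card ≤ (U ×ˢ V).card := Finset.card_le_card_of_injOn _ hmaps hinj
  rw [Finset.card_product, Finset.card_product] at hc1
  have hc2 : (U ×ˢ V).card ≤ (X ×ˢ Y).card := by
    rw [Finset.card_product, Finset.card_product]
    exact Nat.mul_le_mul hU hV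
  have hsurj := Finset.surjOn_of_injOn_of_card_le _ hmaps hinj hc2
  have h3 : ∀ u ∈ U, ∀ v ∈ V, ∃ x y, x ∈ X ∧ y ∈ Y ∧ gu x y = u ∧ gv x y = v ∧
      x * y = u * v := by
    intro u hu v hv
    have hm : (u, v) ∈ ((U ×ˢ V : Finset (K × K)) : Set (K × K)) := by
      simp only [Finset.coe_product, Set.mem_prod, Finset.mem_coe]
      exact ⟨hu, hv⟩
    obtain ⟨p, hp, hp2⟩ := hsurj hm
    simp only [Finset.coe_product, Set.mem_prod, Finset.mem_coe] at hp
    simp only [Prod.mk.injEq] at hp2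
    refine ⟨p.1, p.2, hp.1, hp.2, hp2.1, hp2.2, ?_⟩
    rw [hguv _ hp.1 _ hp.2, hp2.1, hp2.2]
  choose! fx fy hfx hfy hgx hgy hxy using h3
  have prodinj : ∀ u ∈ U, ∀ v ∈ V, ∀ u' ∈ U, ∀ v' ∈ V, u * v = u' * v' → u = u' ∧ v = v' := by
    intro u hu v hv u' hu' v' hv' h
    have e : fx u v * fy u v = fx u' v' * fy u' v' := by
      rw [hxy u hu v hv, hxy u' hu' v' hv', h]
    have e2 := inj _ (hfx u hu v hv) _ (hfx u' hu' v' hv') _ (hfy u hu v hv) _
      (hfy u' hu' v' hv') e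
    refine ⟨?_, ?_⟩
    · rw [← hgx u hu v hv, ← hgx u' hu' v' hv', e2.1, e2.2]
    · rw [← hgy u hu v hv, ← hgy u' hu' v' hv', e2.1, e2.2]
  have nU : U.Nonempty := by
    obtain ⟨x, hx⟩ := nX
    obtain ⟨y, hy⟩ := nY
    exact ⟨_, hgu x hx y hy⟩
  have nV : V.Nonempty := by
    obtain ⟨x, hx⟩ := nX
    obtain ⟨y, hy⟩ := nY
    exact ⟨_, hgv x hx y hy⟩
  have pX : 0 < X.card := nX.card_pos
  have pY : 0 < Y.card := nY.card_pos
  have h1' : ∀ x ∈ X, ∀ y ∈ Y, ∃ u ∈ U, ∃ v ∈ V, x * y = u * v := fun x hx y hy =>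
    ⟨_, hgu x hx y hy, _, hgv x hx y hy, hguv x hx y hy⟩
  have dx := rect_dep U V fx (by
    intro u hu u' hu' v hv v' hv'
    have e : (fx u v * fy u v) * (fx u' v' * fy u' v') =
        (fx u v' * fy u v') * (fx u' v * fy u' v) := by
      rw [hxy u hu v hv, hxy u' hu' v' hv', hxy u hu v' hv', hxy u' hu' v hv]
      ring
    have := hP _ (hfx u hu v hv) _ (hfx u' hu' v' hv') _ (hfx u hu v' hv') _ (hfx u' hu' v hv)
      _ (hfy u hu v hv) _ (hfy u' hu' v' hv') _ (hfy u hu v' hv') _ (hfy u' hu' v hv) e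
    rcases this with h | h
    · exact Or.inl h
    · exact Or.inr h)
  have dy : ((∀ u ∈ U, ∀ v ∈ V, ∀ v' ∈ V, fx u v = fx u v') ∨
      (∀ v ∈ V, ∀ u ∈ U, ∀ u' ∈ U, fx u v = fx u' v)) →
      (∀ u ∈ U, ∀ v ∈ V, ∀ v' ∈ V, fy u v = fy u v') ∨
      (∀ v ∈ V, ∀ u ∈ U, ∀ u' ∈ U, fy u v = fy u' v) := by
    intro hd
    apply rect_dep U V fy
    intro u hu u' hu' v hv v' hv'
    have e : (fx u v * fy u v) * (fx u' v' * fy u' v') =
        (fx u v' * fy u v') * (fx u' v * fy u' v) := by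
      rw [hxy u hu v hv, hxy u' hu' v' hv', hxy u hu v' hv', hxy u' hu' v hv]
      ring
    have e2 : fx u v * fx u' v' = fx u v' * fx u' v := by
      rcases hd with hd | hd
      · rw [hd u hu v hv v' hv', hd u' hu' v' hv' v hv]
      · rw [hd v hv u hu u' hu', hd v' hv' u' hu' u hu]
        ring
    have n1 : fx u v * fx u' v' ≠ 0 :=
      mul_ne_zero (hX _ (hfx u hu v hv)) (hX _ (hfx u' hu' v' hv'))
    have e3 : fy u v * fy u' v' = fy u v' * fy u' v := by
      apply mul_left_cancel₀ n1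
      calc (fx u v * fx u' v') * (fy u v * fy u' v')
          = (fx u v * fy u v) * (fx u' v' * fy u' v') := by ring
        _ = (fx u v' * fy u v') * (fx u' v * fy u' v) := e
        _ = (fx u v' * fx u' v) * (fy u v' * fy u' v) := by ring
        _ = (fx u v * fx u' v') * (fy u v' * fy u' v) := by rw [e2]
    have := hQ _ (hfy u hu v hv) _ (hfy u' hu' v' hv') _ (hfy u hu v' hv') _ (hfy u' hu' v hv) e3
    rcases this with h | h
    · exact Or.inl h
    · exact Or.inr h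
  rcases dx with dx | dx
  · -- `x` depends on `u`
    have dy' : ∀ v ∈ V, ∀ u ∈ U, ∀ u' ∈ U, fy u v = fy u' v := by
      rcases dy (Or.inl dx) with d | d
      · have hVs : V.card ≤ 1 := by
          rw [Finset.card_le_one]
          intro v hv v' hv'
          obtain ⟨u, hu⟩ := nU
          have : u * v = u * v' := by
            rw [← hxy u hu v hv, ← hxy u hu v' hv', dx u hu v hv v' hv', d u hu v hv v' hv']
          exact (prodinj u hu v hv u hu v' hv' this).2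
        have hUs : U.card ≤ 1 := by
          have t1 : X.card * Y.card ≤ U.card * 1 := hc1.trans (Nat.mul_le_mul_left _ hVs)
          rw [hXY] at t1
          have t2 : Y.card * Y.card ≤ Y.card * 1 := by
            rw [hXY] at hU
            omega
          have t3 := Nat.le_of_mul_le_mul_left t2 pY
          omega
        rw [Finset.card_le_one] at hUs
        intro v hv u hu u' hu'
        rw [hUs u hu u' hu']
      · exact d
    obtain ⟨e, he, r1, r2⟩ := rect_case X Y U V fx fy hX hY nU nV h1'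
      (fun u hu v hv => ⟨hfx u hu v hv, hfy u hu v hv, hxy u hu v hv⟩) inj dx dy'
    exact ⟨e, he, Or.inl ⟨r1, r2⟩⟩
  · have dy' : ∀ u ∈ U, ∀ v ∈ V, ∀ v' ∈ V, fy u v = fy u v' := by
      rcases dy (Or.inr dx) with d | d
      · exact d
      · have hUs : U.card ≤ 1 := by
          rw [Finset.card_le_one]
          intro u hu u' hu'
          obtain ⟨v, hv⟩ := nV
          have : u * v = u' * v := by
            rw [← hxy u hu v hv, ← hxy u' hu' v hv, dx v hv u hu u' hu', d v hv u hu u' hu']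
          exact (prodinj u hu v hv u' hu' v hv this).1
        have hVs : V.card ≤ 1 := by
          have t1 : X.card * Y.card ≤ 1 * V.card := hc1.trans (Nat.mul_le_mul_right _ hUs)
          rw [hXY] at t1
          have t2 : Y.card * Y.card ≤ Y.card * 1 := by omega
          have t3 := Nat.le_of_mul_le_mul_left t2 pY
          omega
        rw [Finset.card_le_one] at hVs
        intro u hu v hv v' hv'
        rw [hVs v hv v' hv']
    obtain ⟨e, he, r1, r2⟩ := rect_case X Y V U (fun v u => fx u v) (fun v u => fy u v) hX hY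
      nV nU (by
        intro x hx y hy
        obtain ⟨u, hu, v, hv, h⟩ := h1' x hx y hy
        exact ⟨v, hv, u, hu, h.trans (mul_comm _ _)⟩)
      (fun v hv u hu => ⟨hfx u hu v hv, hfy u hu v hv, (hxy u hu v hv).trans (mul_comm _ _)⟩) inj
      (fun v hv u hu u' hu' => dx v hv u hu u' hu')
      (fun u hu v hv v' hv' => dy' u hu v hv v' hv')
    exact ⟨e, he, Or.inr ⟨r1, r2⟩⟩

end Pool.Agent.LenSpec
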