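import Pool.Agent.LenSpec.Stmt

/-!
S1: the multipliers of `g` are algebraic over the field of the coefficients of `f`.
-/

namespace Pool.Agent.LenSpec

open Polynomial

namespace S1

open scoped IntermediateField.algebraAdjoinAdjoin in
theorem cl_iff {K : Type} [Field K] [CharZero K] (s : Set K) (x : K) :
    IsAlgebraic (IntermediateField.adjoin ℚ s) x ↔
      x ∈ (AlgebraicIndependent.matroid ℚ K).closure s := by
  rw [AlgebraicIndependent.matroid_closure_eq, SetLike.mem_coe, Subalgebra.mem_algebraicClosure]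
  exact (IsFractionRing.isAlgebraic_iff (Algebra.adjoin ℚ s) (IntermediateField.adjoin ℚ s) K).symm

theorem exchange {K : Type} [Field K] [CharZero K] {ι : Type} [Finite ι] {y : ι → K}
    (hy : AlgebraicIndependent ℚ y) (S : Finset K) (hS : S.card ≤ Nat.card ι)
    (hyS : ∀ i, y i ∈ (AlgebraicIndependent.matroid ℚ K).closure (S : Set K)) :
    (S : Set K) ⊆ (AlgebraicIndependent.matroid ℚ K).closure (Set.range y) := by
  classical
  intro s hs
  by_contra hns
  have hI : (AlgebraicIndependent.matroid ℚ K).Indep (Set.range y) :=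
    AlgebraicIndependent.matroid_indep_iff.2 hy.to_subtype_range
  have hIe : Set.range y ⊆ (AlgebraicIndependent.matroid ℚ K).E := by simp
  have hsI : s ∉ Set.range y := fun h =>
    hns ((AlgebraicIndependent.matroid ℚ K).subset_closure (Set.range y) hIe h)
  have hins : (AlgebraicIndependent.matroid ℚ K).Indep (insert s (Set.range y)) :=
    ((hI.notMem_closure_iff_of_notMem hsI (by simp)).1 hns)
  have hSE : (S : Set K) ⊆ (AlgebraicIndependent.matroid ℚ K).E := by simp
  have hsub : insert s (Set.range y) ⊆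
      (AlgebraicIndependent.matroid ℚ K).closure (S : Set K) := by
    rintro z (rfl | ⟨i, rfl⟩)
    · exact (AlgebraicIndependent.matroid ℚ K).subset_closure _ hSE hs
    · exact hyS i
  have h1 := hins.encard_le_eRk_of_subset hsub
  rw [Matroid.eRk_closure_eq] at h1
  have h2 := Matroid.eRk_le_encard (AlgebraicIndependent.matroid ℚ K) (S : Set K)
  have h3 : (Set.range y).encard = ENat.card ι := by
    rw [← Set.image_univ, hy.injective.encard_image, Set.encard_univ]
  rw [Set.encard_insert_of_notMem hsI, h3] at h1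
  have h4 : (S : Set K).encard = (S.card : ℕ∞) := Set.encard_coe_eq_coe_finsetCard S
  rw [h4] at h2
  have h5 : ENat.card ι = (Nat.card ι : ℕ∞) := ENat.card_eq_coe_natCard ι
  rw [h5] at h1
  have h6 : ((Nat.card ι : ℕ∞) + 1) ≤ (S.card : ℕ∞) := h1.trans h2
  have h7 : Nat.card ι + 1 ≤ S.card := by exact_mod_cast h6
  omega

end S1

theorem s1_holds (hR5 : R5S) (hFA1 : FA1S) (hFA2 : FA2S) (hB6 : B6S) (hG1 : G1S) : S1S := by
  intro K _ _ _ d n f g hf hfi hg hn hn5 hu0 hrat m hm x hx
  classical
  have hn1 : 1 ≤ n := hn.one_lt.le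
  obtain ⟨f₁, S, hNF, hS4, h1, h2, h3⟩ := hFA1 K d f hf
  have hind := hFA2 K d f.coef (nfc f₁) S hf.two_le hfi hS4 h2
  obtain ⟨Sg, hSg, hSgalg⟩ := hB6 K d g hg
  set M := AlgebraicIndependent.matroid ℚ K with hM
  have hXSg : ∀ u ∈ XS g.num g.den n, IsAlgebraic (IntermediateField.adjoin ℚ (Sg : Set K)) u := by
    rintro u ⟨z, hz, rfl⟩
    apply hSgalg n hn1
    obtain ⟨-, -, -, hroots, hspec⟩ := hG1 K d n g hg hn1
    rw [hspec]
    exact Multiset.mem_map_of_mem _ ((hroots z).2 hz.1)
  have hratio : {x : K | ∃ y ∈ XS f₁.num f₁.den n, ∃ y' ∈ XS f₁.num f₁.den n, x = y / y'} ⊆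
      M.closure (Sg : Set K) := by
    rintro x ⟨y, hy, y', hy', rfl⟩
    rw [← S1.cl_iff]
    obtain ⟨u, hu, u', hu', he⟩ := hrat y (h3 n hn1 hy) y' (h3 n hn1 hy')
    by_cases hy0 : y' = 0
    · rw [hy0, div_zero]
      exact isAlgebraic_zero
    · have : y / y' = u * u'⁻¹ := by
        have hu'0 := hu0 u' hu'
        field_simp
        linear_combination he
      rw [this]
      exact (hXSg u hu).mul (hXSg u' hu').inv
  have hnfc : ∀ i, nfc f₁ i ∈ M.closure (Sg : Set K) := by
    intro i
    have ha := hR5 K d n f₁ hNF hind hn hn5 i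
    rw [S1.cl_iff] at ha
    exact M.closure_subset_closure_of_subset_closure hratio ha
  have hcard : Sg.card ≤ Nat.card (Fin (d - 1) ⊕ Fin (d - 1)) := by
    rw [Nat.card_eq_fintype_card, Fintype.card_sum, Fintype.card_fin]
    omega
  have hex := S1.exchange hind Sg hcard hnfc
  have hcoef : Set.range (nfc f₁) ⊆ M.closure (Set.range f.coef) := by
    rintro _ ⟨i, rfl⟩
    exact (S1.cl_iff _ _).1 (h1 i)
  have hfin : M.closure (Sg : Set K) ⊆ M.closure (Set.range f.coef) :=
    (M.closure_subset_closure_of_subset_closure hex).trans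
      (M.closure_subset_closure_of_subset_closure hcoef)
  rw [S1.cl_iff]
  exact hfin ((S1.cl_iff _ _).1 (hSgalg m hm x hx))

end Pool.Agent.LenSpec
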