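import Pool.Agent.LenSpec.Stmt
import Pool.Agent.LenSpec.PlBasic

/-!
SR: the periodic points of the generic map and of `z ^ d + t`.
-/

namespace Pool.Agent.LenSpec

open Polynomial

section uni

variable {K : Type} [Field K]

theorem sr_homComp_one (d : ℕ) (V A : K[X]) (hV : V.natDegree ≤ d) :
    homComp d V A 1 = V.comp A := by
  unfold homComp
  rw [comp, eval₂_eq_sum_range' C (Nat.lt_succ_of_le hV)]
  refine Finset.sum_congr rfl fun i _ => ?_
  rw [one_pow, mul_one]

theorem sr_iter_snd (d : ℕ) (V : K[X]) (n : ℕ) : (iter d V 1 n).2 = 1 := by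
  induction n with
  | zero => rfl
  | succ n ih =>
    show homComp d 1 (iter d V 1 n).1 (iter d V 1 n).2 = 1
    rw [ih, sr_homComp_one d 1 _ (by simp), one_comp]

theorem sr_iter_fst (d : ℕ) (V : K[X]) (hV : V.natDegree ≤ d) (n : ℕ) :
    (iter d V 1 (n + 1)).1 = V.comp (iter d V 1 n).1 := by
  show homComp d V (iter d V 1 n).1 (iter d V 1 n).2 = _
  rw [sr_iter_snd d V n, sr_homComp_one d V _ hV]

theorem sr_V_natDegree (d : ℕ) (t : K) : (X ^ d + C t : K[X]).natDegree = d :=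
  natDegree_X_pow_add_C

theorem sr_V_eval (d : ℕ) (t y : K) : (X ^ d + C t : K[X]).eval y = T d t y := by
  simp [T]

theorem sr_V_fun (d : ℕ) (t : K) : (fun y => (X ^ d + C t : K[X]).eval y) = T d t :=
  funext fun y => sr_V_eval d t y

theorem sr_ev (d : ℕ) (t : K) : ev (X ^ d + C t : K[X]) 1 = T d t := by
  funext y
  rw [ev, eval_one, div_one, sr_V_eval]

theorem sr_iter_eval (d : ℕ) (t z : K) (n : ℕ) :
    (iter d (X ^ d + C t) 1 n).1.eval z = (T d t)^[n] z := by
  induction n with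
  | zero =>
    show (X : K[X]).eval z = z
    rw [eval_X]
  | succ n ih =>
    rw [sr_iter_fst d _ (sr_V_natDegree d t).le, eval_comp, ih, sr_V_eval,
      Function.iterate_succ_apply']

theorem sr_iter_deriv (d : ℕ) (t z : K) (n : ℕ) :
    (derivative (iter d (X ^ d + C t) 1 n).1).eval z = Tm d t n z := by
  induction n with
  | zero =>
    show (derivative (X : K[X])).eval z = _
    simp [Tm]
  | succ n ih =>
    rw [sr_iter_fst d _ (sr_V_natDegree d t).le, derivative_comp, eval_mul, eval_comp, ih,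
      sr_iter_eval]
    unfold Tm
    rw [Finset.prod_range_succ]
    simp [mul_comm, derivative_X_pow]

theorem sr_fix_eval (d : ℕ) (t z : K) (n : ℕ) :
    (fixPoly d (X ^ d + C t) 1 n).eval z = (T d t)^[n] z - z := by
  unfold fixPoly
  rw [sr_iter_snd d _, mul_one, eval_sub, sr_iter_eval, eval_X]

theorem sr_fix_deriv (d : ℕ) (t z : K) (n : ℕ) :
    (derivative (fixPoly d (X ^ d + C t) 1 n)).eval z = Tm d t n z - 1 := by
  unfold fixPoly
  rw [sr_iter_snd d _, mul_one, derivative_sub, eval_sub,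
    sr_iter_deriv, derivative_X, eval_one]

theorem sr_nodup (d n : ℕ) (t : K)
    (h : ∀ z, (T d t)^[n] z = z → Tm d t n z ≠ 1) :
    (fixPoly d (X ^ d + C t : K[X]) 1 n).roots.Nodup := by
  classical
  rw [Multiset.nodup_iff_count_le_one]
  intro z
  rw [count_roots]
  by_contra hc
  push Not at hc
  by_cases h0 : fixPoly d (X ^ d + C t : K[X]) 1 n = 0
  · rw [h0] at hc
    simp at hc
  · rw [one_lt_rootMultiplicity_iff_isRoot h0] at hc
    obtain ⟨h1, h2⟩ := hc
    rw [IsRoot.def, sr_fix_eval] at h1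
    rw [IsRoot.def, sr_fix_deriv] at h2
    exact h z (sub_eq_zero.1 h1) (sub_eq_zero.1 h2)

theorem sr_perX (d n : ℕ) (t y : K) :
    PerX (X ^ d + C t : K[X]) 1 n y ↔
      ((T d t)^[n] y = y ∧ ∀ m, 0 < m → m < n → (T d t)^[m] y ≠ y) := by
  unfold PerX Per
  rw [sr_ev]
  constructor
  · rintro ⟨⟨-, h1⟩, h2⟩
    exact ⟨h1, h2⟩
  · rintro ⟨h1, h2⟩
    exact ⟨⟨fun k => by rw [eval_one]; exact one_ne_zero, h1⟩, h2⟩

theorem sr_mult (d n : ℕ) (t y : K) :
    mult (X ^ d + C t : K[X]) 1 n y = Tm d t n y := by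
  unfold mult Tm
  rw [sr_ev]
  refine Finset.prod_congr rfl fun k _ => ?_
  simp [derivAt, derivative_X_pow]

end uni

theorem sr_red_coeff {K F κ : Type} [Field K] [Field F] [Field κ] [Algebra F K] [Algebra F κ]
    (p : Pl K κ) (s : K) (hF : ∀ a : F, p.Red (algebraMap F K a) (algebraMap F κ a))
    (hs : p.Red s 0) (R : F[X]) (i : ℕ) :
    p.Red ((C s * R.map (algebraMap F K)).coeff i) 0 := by
  rw [coeff_C_mul, coeff_map]
  exact (hs.mul (hF _)).eq rfl (zero_mul _)

theorem SR_holds (hV2 : V2S) (hN5 : N5S) (hJ0 : J0S) (hJ1 : J1S) : SRS := by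
  intro K F _ _ _ _ _ _ d P Q t s hS
  obtain ⟨κ, iκ, iF, p, t₁, hκ, htr, halg, hF, ht, hs, hG⟩ := hV2 K F t s hS.indep hS.alg
  refine ⟨κ, iκ, iF, p, t₁, hκ, htr, halg, hF, hG, ?_⟩
  intro n hn
  obtain ⟨RP, hRPd, hRP⟩ := hS.num
  obtain ⟨RQ, hRQd, hRQ⟩ := hS.den
  have hPd : P.natDegree ≤ d := by
    rw [hRP]
    refine (natDegree_add_le _ _).trans (max_le ?_ ?_)
    · exact (sr_V_natDegree d t).le
    · exact (natDegree_C_mul_le _ _).trans (natDegree_map_le.trans hRPd)
  have hQd : Q.natDegree ≤ d := by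
    rw [hRQ]
    refine (natDegree_add_le _ _).trans (max_le ?_ ?_)
    · simp
    · exact (natDegree_C_mul_le _ _).trans (natDegree_map_le.trans hRQd)
  have hQe : Q.natDegree = d := by
    have h1 := hS.noInf 1 le_rfl
    have h2 : (iter d P Q 1).2 = Q := by
      show homComp d Q X 1 = Q
      rw [sr_homComp_one d Q X hQd, comp_X]
    rw [h2, pow_one] at h1
    exact le_antisymm hQd (le_natDegree_of_ne_zero h1)
  let f : RatMap K d := ⟨P, Q, hPd, hQd, Or.inr hQe, hS.coprime⟩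
  have hn1 : p.RedP f.num (X ^ d + C t₁) := by
    intro i
    show p.Red (P.coeff i) _
    rw [hRP, coeff_add, coeff_add, coeff_add, coeff_X_pow, coeff_X_pow, coeff_C, coeff_C]
    refine ((Pl.Red.add ?_ ?_).add (sr_red_coeff p s hF hs RP i)).eq rfl (add_zero _)
    · split_ifs
      · exact Pl.red_one
      · exact Pl.red_zero
    · split_ifs
      · exact ht
      · exact Pl.red_zero
  have hn2 : p.RedP f.den 1 := by
    intro i
    show p.Red (Q.coeff i) _
    rw [hRQ, coeff_add, coeff_one, coeff_one]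
    refine (Pl.Red.add ?_ (sr_red_coeff p s hF hs RQ i)).eq rfl (add_zero _)
    split_ifs
    · exact Pl.red_one
    · exact Pl.red_zero
  have hchar : CharZero F := by
    have hinj := (algebraMap F K).injective
    refine ⟨fun a b hab => ?_⟩
    have h1 := congrArg (algebraMap F K) hab
    rw [map_natCast, map_natCast] at h1
    exact Nat.cast_injective h1
  have hd2 := hS.two_le
  obtain ⟨Γ, iΓ, v, hv1, hv2⟩ := hJ0 F κ t₁ htr
  obtain ⟨γ, code, hγ, -, -, -, -, hTm⟩ := hJ1 F κ Γ v t₁ d n hv1 hv2 hd2 (by omega)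
  have hne : ∀ z, (T d t₁)^[n] z = z → Tm d t₁ n z ≠ 1 := by
    intro z hz h1
    have h2 := hTm z hz
    rw [h1, map_one] at h2
    have h3 : 1 < γ ^ ((d - 1) * n) := by
      refine one_lt_pow₀ hγ ?_
      have : 0 < (d - 1) * n := Nat.mul_pos (by omega) (by omega)
      omega
    exact absurd h2 h3.ne
  obtain ⟨h1, h2, h3⟩ := hN5 K κ p d n f (X ^ d + C t₁) hd2 hn hn1 hn2 (sr_V_natDegree d t₁)
    (sr_nodup d n t₁ hne)
  refine ⟨?_, h2, ?_⟩
  · intro z hz
    obtain ⟨a1, a2, a3, a4⟩ := h1 z hz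
    rw [sr_perX] at a2
    rw [sr_mult] at a4
    rw [sr_V_fun] at a3
    exact ⟨a1, a2.1, a2.2, fun k => (a3 k).rs_eq, a4⟩
  · intro y hy1 hy2
    exact h3 y ((sr_perX d n t₁ y).2 ⟨hy1, hy2⟩)

end Pool.Agent.LenSpec
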