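import Pool.Agent.LenSpec.U2

/-!
U3: multipliers of ultraproducts of rational maps.
-/

namespace Pool.Agent.LenSpec

open Polynomial Filter

section ring

/-- `homComp` over a ring -/
noncomputable def homCompR {R : Type} [CommRing R] (d : ℕ) (P A B : R[X]) : R[X] :=
  ∑ i ∈ Finset.range (d + 1), C (P.coeff i) * A ^ i * B ^ (d - i)

/-- `iter` over a ring -/
noncomputable def iterR {R : Type} [CommRing R] (d : ℕ) (P Q : R[X]) : ℕ → R[X] × R[X]
  | 0 => (X, 1)
  | n + 1 => (homCompR d P (iterR d P Q n).1 (iterR d P Q n).2,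
      homCompR d Q (iterR d P Q n).1 (iterR d P Q n).2)

theorem homCompR_map {R K : Type} [CommRing R] [Field K] (φ : R →+* K) (d : ℕ) (P A B : R[X]) :
    (homCompR d P A B).map φ = homComp d (P.map φ) (A.map φ) (B.map φ) := by
  unfold homCompR homComp
  rw [Polynomial.map_sum]
  apply Finset.sum_congr rfl
  intro i _
  rw [Polynomial.map_mul, Polynomial.map_mul, Polynomial.map_pow, Polynomial.map_pow, map_C,
    coeff_map]

theorem iterR_map {R K : Type} [CommRing R] [Field K] (φ : R →+* K) (d : ℕ) (P Q : R[X]) (n : ℕ) :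
    (iterR d P Q n).1.map φ = (iter d (P.map φ) (Q.map φ) n).1 ∧
    (iterR d P Q n).2.map φ = (iter d (P.map φ) (Q.map φ) n).2 := by
  induction n with
  | zero => simp [iterR, iter]
  | succ n ih =>
    simp only [iterR, iter]
    rw [homCompR_map, homCompR_map, ih.1, ih.2]
    exact ⟨rfl, rfl⟩

end ring

/-- the derivative -/
theorem qH_derivAt (A B : (ℕ → ℂ)[X]) (z : ℕ → ℂ) :
    derivAt (A.map qH) (B.map qH) (qH z) =
      qH (fun j => derivAt (A.map (eH j)) (B.map (eH j)) (z j)) := by
  unfold derivAt
  rw [derivative_map, derivative_map, qH_eval, qH_eval, qH_eval, qH_eval, ← map_mul, ← map_mul,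
    ← map_sub, ← map_pow, ← qH_div]
  congr 1
  funext j
  simp only [Pi.div_apply, Pi.sub_apply, Pi.mul_apply, Pi.pow_apply, derivative_map]

/-- the multiplier at infinity -/
theorem qH_multInf (A B : (ℕ → ℂ)[X]) :
    multInf (A.map qH) (B.map qH) = qH (fun j => multInf (A.map (eH j)) (B.map (eH j))) := by
  have h1 := qH_natDegree A
  have h2 := qH_natDegree B
  unfold multInf
  split_ifs with h
  · rw [leadingCoeff, leadingCoeff, coeff_map, coeff_map, ← qH_div, qH_eq]
    filter_upwards [h1, h2] with j hj1 hj2
    rw [hj1, hj2, if_pos h, Pi.div_apply, leadingCoeff, leadingCoeff, coeff_map, coeff_map,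
      hj1, hj2]
    rfl
  · rw [eq_comm, qH_zero_iff]
    filter_upwards [h1, h2] with j hj1 hj2
    rw [hj1, hj2, if_neg h]

/-- a multiset over `Fin N` -/
theorem univ_map_eq {α : Type} (N : ℕ) (g : ℕ → α) :
    (Finset.univ : Finset (Fin N)).val.map (fun i : Fin N => g (i : ℕ)) = (Multiset.range N).map g := by
  rw [Fin.univ_val_map]
  have : Multiset.range N = (List.range N : Multiset ℕ) := rfl
  rw [this, Multiset.map_coe]
  congr 1
  rw [List.ofFn_eq_map]
  rw [← List.map_coe_finRange_eq_range, List.map_map]
  rfl

theorem range_split {α : Type} (N k : ℕ) (hk : k ≤ N) (g : ℕ → α) (c : α) :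
    (Multiset.range N).map (fun i => if i < k then g i else c) =
      (Multiset.range k).map g + Multiset.replicate (N - k) c := by
  obtain ⟨m, rfl⟩ := Nat.exists_eq_add_of_le hk
  rw [Multiset.range_add, Multiset.map_add]
  congr 1
  · apply Multiset.map_congr rfl
    intro i hi
    rw [Multiset.mem_range] at hi
    rw [if_pos hi]
  · rw [Multiset.map_map, Multiset.eq_replicate]
    constructor
    · simp
    · intro b hb
      rw [Multiset.mem_map] at hb
      obtain ⟨i, _, rfl⟩ := hb
      simp

theorem list_range_getD {α : Type} (L : List α) (x : α) :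
    (Multiset.range L.length).map (fun i => L.getD i x) = (L : Multiset α) := by
  have : Multiset.range L.length = (List.range L.length : Multiset ℕ) := rfl
  rw [this, Multiset.map_coe]
  congr 1
  apply List.ext_getElem
  · simp
  · intro i h1 h2
    simp [List.getD_eq_getElem?_getD, h2]

theorem ne_zero_of_deg {K : Type} [Field K] (D : ℕ) (A B : K[X]) (hD : 2 ≤ D)
    (h : A.natDegree = D ∨ B.natDegree = D) (hc : IsCoprime A B) : A - X * B ≠ 0 := by
  intro h0
  have h1 : A = X * B := sub_eq_zero.1 h0
  have h2 : IsUnit B := by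
    rw [h1] at hc
    exact isCoprime_self.1 (hc.symm.of_mul_right_right)
  have h3 : B.natDegree = 0 := natDegree_eq_zero_of_isUnit h2
  have h4 : A.natDegree ≤ 1 := by
    rw [h1]
    refine natDegree_mul_le.trans ?_
    rw [h3]
    simp
  omega

theorem U3 (hA2 : A2S) : U3S := by
  intro d n f F hd hn hF
  have hAlg := U1_alg
  have hnum := fun j => (f j).num_le
  have hden := fun j => (f j).den_le
  have e1 := seqPoly_map d (fun j => (f j).num) hnum
  have e2 := seqPoly_map d (fun j => (f j).den) hden
  set P := seqPoly d (fun j => (f j).num) with hP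
  set Q := seqPoly d (fun j => (f j).den) with hQ
  have hFn : F.num = P.map qH := by
    ext i
    rw [coeff_map, hP, seqPoly_coeff d _ hnum]
    by_cases hi : i ≤ d
    · have := hF (Sum.inl ⟨i, by omega⟩)
      exact this
    · rw [coeff_eq_zero_of_natDegree_lt (by have := F.num_le; omega), eq_comm, qH_zero_iff]
      refine Filter.Eventually.of_forall (fun j => ?_)
      exact coeff_eq_zero_of_natDegree_lt (by have := hnum j; omega)
  have hFd : F.den = Q.map qH := by
    ext i
    rw [coeff_map, hQ, seqPoly_coeff d _ hden]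
    by_cases hi : i ≤ d
    · have := hF (Sum.inr ⟨i, by omega⟩)
      exact this
    · rw [coeff_eq_zero_of_natDegree_lt (by have := F.den_le; omega), eq_comm, qH_zero_iff]
      refine Filter.Eventually.of_forall (fun j => ?_)
      exact coeff_eq_zero_of_natDegree_lt (by have := hden j; omega)
  set A := (iterR d P Q n).1 with hA
  set B := (iterR d P Q n).2 with hB
  have hAj : ∀ j, A.map (eH j) = (iter d (f j).num (f j).den n).1 := by
    intro j
    rw [hA, (iterR_map (eH j) d P Q n).1, e1, e2]
  have hBj : ∀ j, B.map (eH j) = (iter d (f j).num (f j).den n).2 := by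
    intro j
    rw [hB, (iterR_map (eH j) d P Q n).2, e1, e2]
  have hAq : A.map qH = (iter d F.num F.den n).1 := by
    rw [hA, (iterR_map qH d P Q n).1, hFn, hFd]
  have hBq : B.map qH = (iter d F.num F.den n).2 := by
    rw [hB, (iterR_map qH d P Q n).2, hFn, hFd]
  set D := d ^ n with hD
  have hD2 : 2 ≤ D := by
    calc 2 ≤ d := hd
      _ = d ^ 1 := (pow_one d).symm
      _ ≤ d ^ n := Nat.pow_le_pow_right (by omega) hn
  -- the polynomial `W`
  set W : (ℕ → ℂ)[X] := A - X * B with hW
  have hWj : ∀ j, W.map (eH j) = A.map (eH j) - X * B.map (eH j) := by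
    intro j
    rw [hW, Polynomial.map_sub, Polynomial.map_mul, map_X]
  have hWq : W.map qH = A.map qH - X * B.map qH := by
    rw [hW, Polynomial.map_sub, Polynomial.map_mul, map_X]
  have hj2 := fun j => hA2 ℂ d n (f j).num (f j).den (by omega) (f j).num_le (f j).den_le
    (f j).deg_eq (f j).coprime
  have hq2 := hA2 HC d n F.num F.den (by omega) F.num_le F.den_le F.deg_eq F.coprime
  have hW0 : ∀ j, W.map (eH j) ≠ 0 := by
    intro j
    rw [hWj, hAj, hBj]
    exact ne_zero_of_deg D _ _ hD2 (hj2 j).2.2.1 (hj2 j).2.2.2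
  have hWd : ∀ j, (W.map (eH j)).natDegree ≤ D + 1 := by
    intro j
    rw [hWj, hAj, hBj]
    refine (natDegree_sub_le _ _).trans (max_le ?_ ?_)
    · exact (hj2 j).1.trans (by omega)
    · refine natDegree_mul_le.trans ?_
      have := (hj2 j).2.1
      simp only [natDegree_X]
      omega
  -- the roots
  have hL : ∀ j, ∃ L : List ℂ, (L : Multiset ℂ) = (W.map (eH j)).roots ∧
      L.length = (W.map (eH j)).natDegree := by
    intro j
    refine ⟨(W.map (eH j)).roots.toList, Multiset.coe_toList _, ?_⟩
    rw [Multiset.length_toList]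
    exact IsAlgClosed.card_roots_eq_natDegree
  choose L hL1 hL2 using hL
  set k := (W.map qH).natDegree with hk
  have hkj := qH_natDegree W
  -- factorisation over the ultrapower
  have hfac : W.map qH = C (qH (fun j => (W.map (eH j)).leadingCoeff)) *
      ∏ i ∈ Finset.range k, (X - C (qH (fun j => (L j).getD i 0))) := by
    have h1 : W.map qH = (C (fun j => (W.map (eH j)).leadingCoeff) *
      ∏ i ∈ Finset.range k, (X - C (fun j => (L j).getD i 0)) : (ℕ → ℂ)[X]).map qH := by
      apply qH_map_congr
      filter_upwards [hkj] with j hj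
      rw [Polynomial.map_mul, Polynomial.map_prod, map_C]
      simp only [Polynomial.map_sub, map_X, map_C, eH_apply]
      conv_lhs => rw [← C_leadingCoeff_mul_prod_multiset_X_sub_C
        (IsAlgClosed.card_roots_eq_natDegree (p := W.map (eH j)))]
      congr 1
      rw [← hL1 j, ← list_range_getD (L j) 0, Multiset.map_map, hL2 j, hj]
      rfl
    rw [h1, Polynomial.map_mul, Polynomial.map_prod, map_C]
    simp only [Polynomial.map_sub, map_X, map_C]
  have hlc : qH (fun j => (W.map (eH j)).leadingCoeff) ≠ 0 := by
    rw [qH_ne_iff]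
    exact Filter.Eventually.of_forall (fun j => leadingCoeff_ne_zero.2 (hW0 j))
  have hroots : (W.map qH).roots = (Multiset.range k).map (fun i => qH (fun j => (L j).getD i 0)) := by
    rw [hfac, roots_C_mul _ hlc]
    have h1 : (∏ i ∈ Finset.range k, (X - C (qH (fun j => (L j).getD i 0)))) =
        (((Multiset.range k).map (fun i => qH (fun j => (L j).getD i 0))).map
          (fun a => X - C a)).prod := by
      rw [Multiset.map_map]
      rfl
    rw [h1, roots_multiset_prod_X_sub_C]
  have hkD : k ≤ D + 1 := by
    obtain ⟨j, hj⟩ := hkj.exists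
    rw [hk, ← hj]
    exact hWd j
  refine ⟨fun j i => if (i : ℕ) < (W.map (eH j)).natDegree then
    derivAt (A.map (eH j)) (B.map (eH j)) ((L j).getD i 0) else
    multInf (A.map (eH j)) (B.map (eH j)), ?_, ?_⟩
  · intro j
    rw [univ_map_eq (D + 1) (fun i => if i < (W.map (eH j)).natDegree then
      derivAt (A.map (eH j)) (B.map (eH j)) ((L j).getD i 0) else
      multInf (A.map (eH j)) (B.map (eH j))), range_split _ _ (hWd j)
      (fun i => derivAt (A.map (eH j)) (B.map (eH j)) ((L j).getD i 0))]
    unfold RatMap.multSpec fixMult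
    rw [← hAj, ← hBj, ← hWj, ← hL1 j, ← hL2 j]
    congr 1
    conv_lhs => rw [← list_range_getD (L j) 0]
    rw [Multiset.map_map]
    rfl
  · have h1 : ∀ i : Fin (D + 1), qH (fun j => if (i : ℕ) < (W.map (eH j)).natDegree then
        derivAt (A.map (eH j)) (B.map (eH j)) ((L j).getD i 0) else
        multInf (A.map (eH j)) (B.map (eH j))) =
        if (i : ℕ) < k then derivAt (A.map qH) (B.map qH) (qH (fun j => (L j).getD i 0)) else
        multInf (A.map qH) (B.map qH) := by
      intro i
      split_ifs with h
      · rw [qH_derivAt, qH_eq]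
        filter_upwards [hkj] with j hj
        rw [hj, if_pos h]
      · rw [qH_multInf, qH_eq]
        filter_upwards [hkj] with j hj
        rw [hj, if_neg h]
    have h2 : (Finset.univ.val.map (fun i : Fin (D + 1) => ((fun j =>
        if (i : ℕ) < (W.map (eH j)).natDegree then
        derivAt (A.map (eH j)) (B.map (eH j)) ((L j).getD i 0) else
        multInf (A.map (eH j)) (B.map (eH j)) : ℕ → ℂ) : HC))) =
        Finset.univ.val.map (fun i : Fin (D + 1) => if (i : ℕ) < k then
          derivAt (A.map qH) (B.map qH) (qH (fun j => (L j).getD i 0)) else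
          multInf (A.map qH) (B.map qH)) := by
      apply Multiset.map_congr rfl
      intro i _
      exact h1 i
    rw [h2, univ_map_eq (D + 1) (fun i => if i < k then
          derivAt (A.map qH) (B.map qH) (qH (fun j => (L j).getD i 0)) else
          multInf (A.map qH) (B.map qH)), range_split _ _ hkD
          (fun i => derivAt (A.map qH) (B.map qH) (qH (fun j => (L j).getD i 0)))]
    unfold RatMap.multSpec fixMult
    rw [← hAq, ← hBq, ← hWq, hroots, Multiset.map_map]
    rfl

end Pool.Agent.LenSpec
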