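import Pool.Agent.LenSpec.Stmt
import Pool.Agent.LenSpec.PlBasic

/-!
Specialisation of algebraically independent elements.
-/

namespace Pool.Agent.LenSpec

open Polynomial

/-- the place of a valuation ring -/
noncomputable def plOf {K : Type} [Field K] (B : ValuationSubring K) :
    Pl K (IsLocalRing.ResidueField B) where
  O := B.toSubring
  res := IsLocalRing.residue B
  dich := by
    intro x
    rcases B.mem_or_inv_mem x with h | h
    · exact Or.inl h
    · by_cases hx : x ∈ B
      · exact Or.inl hx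
      · refine Or.inr ⟨h, ?_⟩
        refine (IsLocalRing.residue_eq_zero_iff (⟨x⁻¹, h⟩ : B)).2 ?_
        rw [IsLocalRing.mem_maximalIdeal, mem_nonunits_iff]
        intro hu
        obtain ⟨y, hy⟩ := hu.exists_right_inv
        apply hx
        have h1 : x⁻¹ * (y : K) = 1 := congrArg Subtype.val hy
        have h2 : x = y := by
          have := inv_inv x
          rw [← this]
          exact inv_eq_of_mul_eq_one_right h1
        rw [h2]
        exact y.2

theorem plOf_mem {K : Type} [Field K] (B : ValuationSubring K) (x : K) :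
    x ∈ (plOf B).O ↔ x ∈ B := Iff.rfl

theorem plOf_red_zero {K : Type} [Field K] (B : ValuationSubring K) (x : K)
    (hx : x ∈ B.nonunits) : (plOf B).Red x 0 := by
  have h := (B.mem_nonunits_iff_exists_mem_maximalIdeal).1 hx
  obtain ⟨h1, h2⟩ := h
  refine ⟨h1, ?_⟩
  exact (IsLocalRing.residue_eq_zero_iff (⟨x, h1⟩ : B)).2 h2

/-- the residue field of a valuation ring of an algebraically closed field -/
theorem resField_isAlgClosed {K : Type} [Field K] [IsAlgClosed K] (B : ValuationSubring K) :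
    IsAlgClosed (IsLocalRing.ResidueField B) := by
  apply IsAlgClosed.of_exists_root
  intro p hp hirr
  have hsurj : Function.Surjective (IsLocalRing.residue B) := IsLocalRing.residue_surjective
  obtain ⟨q, hq, hqd, hqm⟩ := Polynomial.lifts_and_natDegree_eq_and_monic
    ((Polynomial.mem_lifts _).2 (Polynomial.map_surjective _ hsurj p)) hp
  have hq0 : (q.map (algebraMap B K)).degree ≠ 0 := by
    rw [hqm.degree_map, Polynomial.degree_eq_natDegree hqm.ne_zero, hqd]
    have := hirr.natDegree_pos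
    exact_mod_cast this.ne'
  obtain ⟨z, hz⟩ := IsAlgClosed.exists_root _ hq0
  have hzint : IsIntegral B z := by
    refine ⟨q, hqm, ?_⟩
    rw [IsRoot, eval_map] at hz
    exact hz
  obtain ⟨w, hw⟩ := (IsIntegrallyClosed.isIntegral_iff (R := B) (K := K)).1 hzint
  refine ⟨IsLocalRing.residue B w, ?_⟩
  rw [← hq, eval_map, eval₂_hom]
  have h0 : q.eval w = 0 := by
    rw [IsRoot, eval_map, ← hw, eval₂_hom] at hz
    exact (FaithfulSMul.algebraMap_injective B K) (by rw [hz, map_zero])
  rw [h0, map_zero]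

theorem v1_holds : V1S := by
  intro K _ _ _ k ι x a hx ha
  let A : Subalgebra k K := Algebra.adjoin k (Set.range x)
  let φ : A →ₐ[k] k := (MvPolynomial.aeval (fun i => (⟨a i, ha i⟩ : k))).comp
    (hx.aevalEquiv.symm : A →ₐ[k] MvPolynomial ι k)
  have hxA : ∀ i, x i ∈ A := fun i => Algebra.subset_adjoin ⟨i, rfl⟩
  have haA : ∀ i, a i ∈ A := fun i => A.algebraMap_mem (⟨a i, ha i⟩ : k)
  have hφx : ∀ i, φ ⟨x i, hxA i⟩ = ⟨a i, ha i⟩ := by
    intro i
    have h1 : hx.aevalEquiv (MvPolynomial.X i) = ⟨x i, hxA i⟩ := by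
      apply Subtype.ext
      rw [hx.aevalEquiv_apply_coe]
      simp
    have h2 : hx.aevalEquiv.symm ⟨x i, hxA i⟩ = MvPolynomial.X i := by
      rw [← h1, AlgEquiv.symm_apply_apply]
    change MvPolynomial.aeval (fun i => (⟨a i, ha i⟩ : k)) (hx.aevalEquiv.symm ⟨x i, hxA i⟩) = _
    rw [h2]
    simp
  have hφa : ∀ i, φ ⟨a i, haA i⟩ = ⟨a i, ha i⟩ := by
    intro i
    exact φ.commutes (⟨a i, ha i⟩ : k)
  let I : Ideal A.toSubring := Ideal.span (Set.range fun i : ι =>
    (⟨x i - a i, A.sub_mem (hxA i) (haA i)⟩ : A.toSubring))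
  have hI : I ≠ ⊤ := by
    intro htop
    have h1 : (1 : A.toSubring) ∈ I := by
      rw [htop]
      trivial
    have h2 : I ≤ RingHom.ker (φ : A →+* k) := by
      rw [Ideal.span_le]
      rintro _ ⟨i, rfl⟩
      change φ (⟨x i - a i, A.sub_mem (hxA i) (haA i)⟩ : A) = 0
      have h3 : (⟨x i - a i, A.sub_mem (hxA i) (haA i)⟩ : A) = ⟨x i, hxA i⟩ - ⟨a i, haA i⟩ := rfl
      rw [h3, map_sub, hφx, hφa, sub_self]
    have h4 := h2 h1
    rw [RingHom.mem_ker] at h4
    have h5 : ((φ : A →+* k)) (1 : A) = 1 := map_one _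
    exact one_ne_zero (h5.symm.trans h4)
  obtain ⟨B, hB, hBI⟩ := Ideal.image_subset_nonunits_valuationSubring I hI
  have hkB : ∀ y ∈ k, y ∈ B := by
    intro y hy
    exact hB (A.algebraMap_mem (⟨y, hy⟩ : k))
  refine ⟨IsLocalRing.ResidueField B, inferInstance, ?_, plOf B, resField_isAlgClosed B, hkB, ?_⟩
  · refine charZero_of_inj_zero ?_
    intro n hn
    by_contra h0
    have h1 : (plOf B).Red ((n : ℕ) : K) ((n : ℕ) : IsLocalRing.ResidueField B) :=
      Pl.red_natCast n
    have h2 : ((n : K))⁻¹ ∈ (plOf B).O := by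
      refine hkB _ ?_
      exact k.inv_mem (natCast_mem k n)
    have h3 := h1.mul (Pl.red_rs h2)
    rw [mul_inv_cancel₀ (Nat.cast_ne_zero.2 h0), hn, zero_mul] at h3
    exact one_ne_zero (Pl.red_one.unique h3)
  · intro i
    apply plOf_red_zero
    exact hBI ⟨_, Ideal.subset_span ⟨i, rfl⟩, rfl⟩

end Pool.Agent.LenSpec
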