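import Pool.Agent.LenSpec.Stmt
import Pool.Agent.LenSpec.PlBasic

/-!
V2: specialisation at `s = 0`.
-/

namespace Pool.Agent.LenSpec

open Polynomial

namespace V2aux

/-- The place of a valuation subring. -/
noncomputable def plOf {K : Type} [Field K] (B : ValuationSubring K) :
    Pl K (IsLocalRing.ResidueField B) where
  O := B.toSubring
  res := (IsLocalRing.residue B : B →+* IsLocalRing.ResidueField B)
  dich := by
    intro x
    by_cases hx : x ∈ B
    · exact Or.inl hx
    · right
      have h1 : x⁻¹ ∈ B.nonunits := by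
        rw [ValuationSubring.inv_mem_nonunits_iff]
        exact Or.inr hx
      obtain ⟨h2, h3⟩ := ValuationSubring.mem_nonunits_iff_exists_mem_maximalIdeal.1 h1
      refine ⟨h2, ?_⟩
      exact (IsLocalRing.residue_eq_zero_iff (R := B) _).2 h3

theorem plOf_mem {K : Type} [Field K] (B : ValuationSubring K) (x : K) :
    x ∈ (plOf B).O ↔ x ∈ B := Iff.rfl

theorem plOf_zero {K : Type} [Field K] (B : ValuationSubring K) {x : K} (hx : x ∈ B.nonunits) :
    (plOf B).Red x 0 := by
  obtain ⟨h2, h3⟩ := ValuationSubring.mem_nonunits_iff_exists_mem_maximalIdeal.1 hx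
  exact ⟨h2, (IsLocalRing.residue_eq_zero_iff (R := B) _).2 h3⟩

theorem plOf_surj {K : Type} [Field K] (B : ValuationSubring K)
    (y : IsLocalRing.ResidueField B) : ∃ x : K, (plOf B).Red x y := by
  obtain ⟨x, hx⟩ := IsLocalRing.residue_surjective (R := B) y
  exact ⟨x.1, x.2, hx⟩

/-- The residue field of a valuation subring of an algebraically closed field is algebraically
closed. -/
theorem isAlgClosed_residue {K : Type} [Field K] [IsAlgClosed K] (B : ValuationSubring K) :
    IsAlgClosed (IsLocalRing.ResidueField B) := by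
  refine IsAlgClosed.of_exists_root _ ?_
  intro q hq hirr
  have hlift : q ∈ Polynomial.lifts (IsLocalRing.residue B) := by
    rw [Polynomial.mem_lifts]
    exact Polynomial.map_surjective _ IsLocalRing.residue_surjective q
  obtain ⟨r, hr1, hr2, hr3⟩ := Polynomial.lifts_and_natDegree_eq_and_monic hlift hq
  have hdeg : 0 < q.natDegree := hirr.natDegree_pos
  have hrd : (r.map (algebraMap B K)).degree ≠ 0 := by
    intro h0
    rw [hr3.degree_map] at h0
    have h1 : r.natDegree = 0 := natDegree_eq_of_degree_eq_some h0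
    omega
  obtain ⟨z, hz⟩ := IsAlgClosed.exists_root _ hrd
  have hint : IsIntegral B z := by
    refine ⟨r, hr3, ?_⟩
    rw [IsRoot.def, eval_map] at hz
    exact hz
  obtain ⟨w, hw⟩ := IsIntegrallyClosed.algebraMap_eq_of_integral hint
  refine ⟨IsLocalRing.residue B w, ?_⟩
  have h1 : r.eval w = 0 := by
    have h2 : algebraMap B K (r.eval w) = 0 := by
      rw [← Polynomial.eval₂_at_apply, hw]
      rw [IsRoot.def, eval_map] at hz
      exact hz
    exact (map_eq_zero_iff _ (IsFractionRing.injective B K)).1 h2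
  rw [← hr1, eval_map, Polynomial.eval₂_at_apply, h1, map_zero]

theorem fg_of_card_le {k V : Type} [Field k] [AddCommGroup V] [Module k V] (W : Submodule k V)
    (n : ℕ) (h : ∀ Y : Finset W, LinearIndependent k (fun i : Y => (i : W)) → Y.card ≤ n) :
    W.FG := by
  rw [← Module.Finite.iff_fg]
  have hr : Module.rank k W ≤ (n : ℕ) := rank_le h
  exact Module.rank_lt_aleph0_iff.1 (lt_of_le_of_lt hr (Cardinal.natCast_lt_aleph0))

theorem span_sub {F κ : Type} [Field F] [Field κ] [Algebra F κ] (t₁ : κ) (S : Set κ) (y : κ)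
    (h : y ∈ Submodule.span (IntermediateField.adjoin F ({t₁} : Set κ)) S) :
    y ∈ IntermediateField.adjoin F (insert t₁ S) := by
  refine Submodule.span_induction (p := fun z _ => z ∈ IntermediateField.adjoin F
      (insert t₁ S)) ?_ (zero_mem _) ?_ ?_ h
  · intro z hz
    exact IntermediateField.subset_adjoin _ _ (Or.inr hz)
  · intro a b _ _ ha hb
    exact add_mem ha hb
  · intro a b _ hb
    rw [Algebra.smul_def]
    refine mul_mem ?_ hb
    have h1 : (a : κ) ∈ IntermediateField.adjoin F ({t₁} : Set κ) := a.2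
    refine IntermediateField.adjoin.mono F _ _ ?_ h1
    intro z hz
    exact Or.inl hz

section

variable {K F : Type} [Field K] [Field F] [Algebra F K]

theorem trans_t {t s : K} (h : AlgebraicIndependent F ![t, s]) : Transcendental F t := by
  have := h.transcendental 0
  simpa using this

theorem trans_s {t s : K} (h : AlgebraicIndependent F ![t, s]) :
    Transcendental (IntermediateField.adjoin F ({t} : Set K)) s := by
  rw [IntermediateField.transcendental_adjoin_iff]
  have h1 := h.transcendental_adjoin (s := {0}) (i := 1) (by simp)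
  have h2 : (![t, s] : Fin 2 → K) '' {0} = {t} := by simp
  rw [h2] at h1
  exact h1

/-- There is a valuation subring containing `F(t)` with `s` in its maximal ideal. -/
theorem exists_B {L : IntermediateField F K} {s : K} (h : Transcendental L s) :
    ∃ B : ValuationSubring K, (∀ x ∈ L, x ∈ B) ∧ s ∈ B.nonunits := by
  let A : Subring K := (Algebra.adjoin L ({s} : Set K)).toSubring
  have hsA : s ∈ A := Algebra.subset_adjoin rfl
  let I : Ideal A := Ideal.span {⟨s, hsA⟩}
  have hI : I ≠ ⊤ := by
    intro htop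
    have h1 : (1 : A) ∈ I := by rw [htop]; trivial
    rw [Ideal.mem_span_singleton] at h1
    obtain ⟨⟨a, ha⟩, hab⟩ := h1
    have ha' : a ∈ Algebra.adjoin L ({s} : Set K) := ha
    rw [Algebra.adjoin_singleton_eq_range_aeval] at ha'
    obtain ⟨P, rfl⟩ := ha'
    have h2 : (1 : K) = s * aeval s P := congrArg Subtype.val hab
    have h3 : aeval s (1 - X * P) = 0 := by
      rw [map_sub, map_mul, aeval_X, map_one, ← h2, sub_self]
    have h4 : (1 : L[X]) - X * P = 0 := by
      by_contra hne
      exact h ⟨_, hne, h3⟩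
    have h5 := congrArg (Polynomial.eval 0) h4
    simp at h5
  obtain ⟨B, hB1, hB2⟩ := Ideal.image_subset_nonunits_valuationSubring I hI
  refine ⟨B, ?_, ?_⟩
  · intro x hx
    apply hB1
    exact (Algebra.adjoin L ({s} : Set K)).algebraMap_mem ⟨x, hx⟩
  · apply hB2
    exact ⟨⟨s, hsA⟩, Ideal.subset_span rfl, rfl⟩


variable {κ : Type} [Field κ] [Algebra F κ] {p : Pl K κ} {t s : K} {t₁ : κ}

/-- elements of `F(t)` reduce to elements of `F(t₁)` -/
theorem red_L (hF : ∀ a : F, p.Red (algebraMap F K a) (algebraMap F κ a)) (ht : p.Red t t₁)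
    (htr : Transcendental F t₁) {x : K} (hx : x ∈ IntermediateField.adjoin F ({t} : Set K)) :
    ∃ y ∈ IntermediateField.adjoin F ({t₁} : Set κ), p.Red x y ∧ (y = 0 → x = 0) := by
  rw [IntermediateField.mem_adjoin_simple_iff] at hx
  obtain ⟨P, Q, rfl⟩ := hx
  have hred : ∀ R : F[X], p.Red (aeval t R) (aeval t₁ R) := by
    intro R
    rw [aeval_eq_sum_range, aeval_eq_sum_range]
    refine Pl.red_sum _ (fun i _ => ?_)
    rw [Algebra.smul_def, Algebra.smul_def]
    exact (hF _).mul (ht.pow i)
  by_cases hQ : Q = 0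
  · refine ⟨0, zero_mem _, ?_, ?_⟩
    · rw [hQ, map_zero, div_zero]
      exact Pl.red_zero
    · intro _
      rw [hQ, map_zero, div_zero]
  · have hQ1 : aeval t₁ Q ≠ 0 := fun h0 => htr ⟨Q, hQ, h0⟩
    refine ⟨aeval t₁ P / aeval t₁ Q, ?_, (hred P).div (hred Q) hQ1, ?_⟩
    · rw [IntermediateField.mem_adjoin_simple_iff]
      exact ⟨P, Q, rfl⟩
    · intro h0
      have h1 : aeval t₁ P = 0 := by
        rcases div_eq_zero_iff.1 h0 with h | h
        · exact h
        · exact absurd h hQ1
      have h2 : P = 0 := by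
        by_contra hne
        exact htr ⟨P, hne, h1⟩
      rw [h2, map_zero, zero_div]

/-- elements of `F(t₁)` lift to elements of `F(t)` -/
theorem lift_L (hF : ∀ a : F, p.Red (algebraMap F K a) (algebraMap F κ a)) (ht : p.Red t t₁)
    {y : κ} (hy : y ∈ IntermediateField.adjoin F ({t₁} : Set κ)) :
    ∃ x ∈ IntermediateField.adjoin F ({t} : Set K), p.Red x y := by
  rw [IntermediateField.mem_adjoin_simple_iff] at hy
  obtain ⟨P, Q, rfl⟩ := hy
  have hred : ∀ R : F[X], p.Red (aeval t R) (aeval t₁ R) := by
    intro R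
    rw [aeval_eq_sum_range, aeval_eq_sum_range]
    refine Pl.red_sum _ (fun i _ => ?_)
    rw [Algebra.smul_def, Algebra.smul_def]
    exact (hF _).mul (ht.pow i)
  by_cases hQ1 : aeval t₁ Q = 0
  · refine ⟨0, zero_mem _, ?_⟩
    rw [hQ1, div_zero]
    exact Pl.red_zero
  · refine ⟨aeval t P / aeval t Q, ?_, (hred P).div (hred Q) hQ1⟩
    rw [IntermediateField.mem_adjoin_simple_iff]
    exact ⟨P, Q, rfl⟩

/-- elements of `F(t,s)` reduce to elements of `F(t₁)` -/
theorem red_LL (hF : ∀ a : F, p.Red (algebraMap F K a) (algebraMap F κ a)) (ht : p.Red t t₁)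
    (htr : Transcendental F t₁) (hs : p.Red s 0) (hs0 : s ≠ 0)
    (hst : Transcendental (IntermediateField.adjoin F ({t} : Set K)) s)
    {c : K} {y : κ} (hc : c ∈ IntermediateField.adjoin F ({t, s} : Set K)) (hcy : p.Red c y) :
    y ∈ IntermediateField.adjoin F ({t₁} : Set κ) := by
  set L := IntermediateField.adjoin F ({t} : Set K) with hL
  -- evaluation at `s`
  have hev : ∀ P : L[X], p.Red (aeval s P - (P.coeff 0 : K)) 0 := by
    intro P
    have h1 : aeval s P - (P.coeff 0 : K) = s * aeval s P.divX := by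
      have h0 := congrArg (aeval s) (X_mul_divX_add P)
      rw [map_add, map_mul, aeval_X, aeval_C] at h0
      have h0' : algebraMap L K (P.coeff 0) = (P.coeff 0 : K) := rfl
      rw [← h0, h0']
      ring
    have h2 : aeval s P.divX ∈ p.O := by
      rw [aeval_eq_sum_range]
      refine sum_mem (fun i _ => ?_)
      rw [Algebra.smul_def]
      obtain ⟨y, -, hy, -⟩ := red_L hF ht htr (P.divX.coeff i).2
      exact p.O.mul_mem hy.mem (hs.pow i).mem
    rw [h1]
    have := hs.mul (Pl.red_rs h2)
    rwa [zero_mul] at this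
  have key : ∀ n : ℕ, ∀ P Q : L[X], Q.natDegree ≤ n → Q ≠ 0 → c * aeval s Q = aeval s P →
      y ∈ IntermediateField.adjoin F ({t₁} : Set κ) := by
    intro n
    induction n with
    | zero =>
      intro P Q hn hQ0 hcQ
      obtain ⟨q, hq, hq1, hq2⟩ := red_L hF ht htr (Q.coeff 0).2
      obtain ⟨r, hr, hr1, -⟩ := red_L hF ht htr (P.coeff 0).2
      have hqne : q ≠ 0 := by
        intro h0
        have h1 : Q.coeff 0 = 0 := by
          apply Subtype.ext
          exact hq2 h0
        apply hQ0
        rw [eq_C_of_natDegree_le_zero hn, h1, map_zero]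
      have hQr : p.Red (aeval s Q) q := by
        have := (hev Q).add hq1
        rwa [sub_add_cancel, zero_add] at this
      have hPr : p.Red (aeval s P) r := by
        have := (hev P).add hr1
        rwa [sub_add_cancel, zero_add] at this
      have h2 : y * q = r := by
        have h3 := hcy.mul hQr
        rw [hcQ] at h3
        exact h3.unique hPr
      have h4 : y = r / q := by
        rw [eq_div_iff hqne, h2]
      rw [h4]
      exact div_mem hr hq
    | succ n ih =>
      intro P Q hn hQ0 hcQ
      obtain ⟨q, hq, hq1, hq2⟩ := red_L hF ht htr (Q.coeff 0).2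
      obtain ⟨r, hr, hr1, hr2⟩ := red_L hF ht htr (P.coeff 0).2
      have hQr : p.Red (aeval s Q) q := by
        have := (hev Q).add hq1
        rwa [sub_add_cancel, zero_add] at this
      have hPr : p.Red (aeval s P) r := by
        have := (hev P).add hr1
        rwa [sub_add_cancel, zero_add] at this
      have h2 : y * q = r := by
        have h3 := hcy.mul hQr
        rw [hcQ] at h3
        exact h3.unique hPr
      by_cases hqne : q = 0
      · have h5 : Q.coeff 0 = 0 := by
          apply Subtype.ext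
          exact hq2 hqne
        have h6 : P.coeff 0 = 0 := by
          apply Subtype.ext
          apply hr2
          rw [← h2, hqne, mul_zero]
        obtain ⟨Q', rfl⟩ := X_dvd_iff.2 h5
        obtain ⟨P', rfl⟩ := X_dvd_iff.2 h6
        have hQ' : Q' ≠ 0 := right_ne_zero_of_mul hQ0
        refine ih P' Q' ?_ hQ' ?_
        · rw [natDegree_X_mul hQ'] at hn
          omega
        · rw [map_mul, map_mul, aeval_X] at hcQ
          apply mul_left_cancel₀ hs0
          rw [← hcQ]
          ring
      · have h4 : y = r / q := by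
          rw [eq_div_iff hqne, h2]
        rw [h4]
        exact div_mem hr hq
  have hc' : c ∈ IntermediateField.adjoin L ({s} : Set K) := by
    have h1 : ({t, s} : Set K) = {t} ∪ {s} := rfl
    rw [h1, ← IntermediateField.adjoin_adjoin_left] at hc
    exact hc
  rw [IntermediateField.mem_adjoin_simple_iff] at hc'
  obtain ⟨P, Q, hPQ⟩ := hc'
  by_cases hQ : Q = 0
  · refine key _ 0 1 le_rfl one_ne_zero ?_
    rw [hPQ, hQ, map_zero, div_zero, zero_mul]
  · have hQs : aeval s Q ≠ 0 := fun h0 => hst ⟨Q, hQ, h0⟩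
    refine key _ P Q le_rfl hQ ?_
    rw [hPQ, div_mul_cancel₀ _ hQs]

/-- linear independence of residues lifts -/
theorem indep_lift (hF : ∀ a : F, p.Red (algebraMap F K a) (algebraMap F κ a)) (ht : p.Red t t₁)
    (htr : Transcendental F t₁) (hs : p.Red s 0) (hs0 : s ≠ 0)
    (hst : Transcendental (IntermediateField.adjoin F ({t} : Set K)) s)
    {ι : Type} [Fintype ι] (x : ι → K) (y : ι → κ) (hxy : ∀ i, p.Red (x i) (y i))
    (hy : LinearIndependent (IntermediateField.adjoin F ({t₁} : Set κ)) y) :
    LinearIndependent (IntermediateField.adjoin F ({t, s} : Set K)) x := by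
  classical
  rw [Fintype.linearIndependent_iff] at hy ⊢
  intro g hg
  by_contra hcon
  push Not at hcon
  obtain ⟨i₀, hi₀⟩ := hcon
  obtain ⟨i, -, hi0, hdiv⟩ := p.exists_dvd_all Finset.univ (fun i => (g i : K))
    ⟨i₀, Finset.mem_univ _, fun h => hi₀ (Subtype.ext h)⟩
  have hdiv' : ∀ j, (g j : K) / (g i : K) ∈ p.O := fun j => hdiv j (Finset.mem_univ _)
  have hmem : ∀ j, p.rs ((g j : K) / (g i : K)) ∈ IntermediateField.adjoin F ({t₁} : Set κ) := by
    intro j
    exact red_LL hF ht htr hs hs0 hst (div_mem (g j).2 (g i).2) (Pl.red_rs (hdiv' j))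
  have hsum : ∑ j, p.rs ((g j : K) / (g i : K)) * y j = 0 := by
    have h1 : p.Red (∑ j, ((g j : K) / (g i : K)) * x j)
        (∑ j, p.rs ((g j : K) / (g i : K)) * y j) :=
      Pl.red_sum _ (fun j _ => (Pl.red_rs (hdiv' j)).mul (hxy j))
    have h2 : ∑ j, ((g j : K) / (g i : K)) * x j = 0 := by
      have h3 : ∑ j, ((g j : K) / (g i : K)) * x j = (∑ j, (g j : K) * x j) / (g i : K) := by
        rw [Finset.sum_div]
        exact Finset.sum_congr rfl (fun j _ => by ring)
      rw [h3]
      have h4 : ∑ j, (g j : K) * x j = 0 := by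
        rw [← hg]
        rfl
      rw [h4, zero_div]
    rw [h2] at h1
    exact h1.unique Pl.red_zero
  have h5 := hy (fun j => ⟨_, hmem j⟩) (by
    rw [← hsum]
    rfl) i
  have h6 : p.rs ((g i : K) / (g i : K)) = 0 := congrArg Subtype.val h5
  rw [div_self hi0, Pl.red_one.rs_eq] at h6
  exact one_ne_zero h6


/-- The residues of the elements of `M`. -/
def resAlg (hF : ∀ a : F, p.Red (algebraMap F K a) (algebraMap F κ a)) (ht : p.Red t t₁)
    (M : IntermediateField (IntermediateField.adjoin F ({t, s} : Set K)) K) :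
    Subalgebra (IntermediateField.adjoin F ({t₁} : Set κ)) κ where
  carrier := {y | ∃ x ∈ M, p.Red x y}
  mul_mem' := by
    rintro y y' ⟨x, hx, h⟩ ⟨x', hx', h'⟩
    exact ⟨x * x', mul_mem hx hx', h.mul h'⟩
  add_mem' := by
    rintro y y' ⟨x, hx, h⟩ ⟨x', hx', h'⟩
    exact ⟨x + x', add_mem hx hx', h.add h'⟩
  algebraMap_mem' := by
    intro r
    obtain ⟨x, hx, hxr⟩ := lift_L hF ht r.2
    refine ⟨x, ?_, hxr⟩
    have h1 : x ∈ IntermediateField.adjoin F ({t, s} : Set K) := by
      refine IntermediateField.adjoin.mono F _ _ ?_ hx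
      intro z hz
      exact Or.inl hz
    exact M.algebraMap_mem ⟨x, h1⟩

theorem resAlg_fg (hF : ∀ a : F, p.Red (algebraMap F K a) (algebraMap F κ a)) (ht : p.Red t t₁)
    (htr : Transcendental F t₁) (hs : p.Red s 0) (hs0 : s ≠ 0)
    (hst : Transcendental (IntermediateField.adjoin F ({t} : Set K)) s)
    (M : IntermediateField (IntermediateField.adjoin F ({t, s} : Set K)) K)
    [FiniteDimensional (IntermediateField.adjoin F ({t, s} : Set K)) M] :
    (Subalgebra.toSubmodule (resAlg hF ht M)).FG := by
  classical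
  refine fg_of_card_le _
    (Module.finrank (IntermediateField.adjoin F ({t, s} : Set K)) M) ?_
  intro Y hY
  have hlift : ∀ y : Y, ∃ x : M,
      p.Red (x : K) ((y : (Subalgebra.toSubmodule (resAlg hF ht M))) : κ) := by
    intro y
    obtain ⟨x, hx, hxy⟩ := (y : (Subalgebra.toSubmodule (resAlg hF ht M))).2
    exact ⟨⟨x, hx⟩, hxy⟩
  choose x hx using hlift
  have h1 : LinearIndependent (IntermediateField.adjoin F ({t₁} : Set κ))
      (fun y : Y => ((y : (Subalgebra.toSubmodule (resAlg hF ht M))) : κ)) := by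
    have := hY.map' (Submodule.subtype _) (Submodule.ker_subtype _)
    exact this
  have h2 := indep_lift hF ht htr hs hs0 hst (fun y : Y => (x y : K)) _ hx h1
  have h3 : LinearIndependent (IntermediateField.adjoin F ({t, s} : Set K)) x := by
    refine LinearIndependent.of_comp (M.val.toLinearMap) ?_
    exact h2
  have h4 := h3.fintype_card_le_finrank
  rwa [Fintype.card_coe] at h4

theorem resAlg_fin (hF : ∀ a : F, p.Red (algebraMap F K a) (algebraMap F κ a))
    (ht : p.Red t t₁) (htr : Transcendental F t₁) (hs : p.Red s 0) (hs0 : s ≠ 0)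
    (hst : Transcendental (IntermediateField.adjoin F ({t} : Set K)) s)
    (halg : ∀ x : K, IsAlgebraic (IntermediateField.adjoin F ({t, s} : Set K)) x)
    (G : Finset K) : ∃ S : Finset κ, ∀ x y,
      x ∈ IntermediateField.adjoin F (({t, s} : Set K) ∪ G) → p.Red x y →
      y ∈ IntermediateField.adjoin F (insert t₁ (S : Set κ)) := by
  have : FiniteDimensional (IntermediateField.adjoin F ({t, s} : Set K))
      (IntermediateField.adjoin (IntermediateField.adjoin F ({t, s} : Set K)) (G : Set K)) := by
    apply IntermediateField.finiteDimensional_adjoin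
    intro x _
    exact (halg x).isIntegral
  obtain ⟨S, hS⟩ := resAlg_fg hF ht htr hs hs0 hst
    (IntermediateField.adjoin (IntermediateField.adjoin F ({t, s} : Set K)) (G : Set K))
  refine ⟨S, ?_⟩
  intro x y hx hxy
  apply span_sub
  rw [hS]
  refine ⟨x, ?_, hxy⟩
  rw [← IntermediateField.adjoin_adjoin_left] at hx
  exact hx

theorem resAlg_alg (hF : ∀ a : F, p.Red (algebraMap F K a) (algebraMap F κ a))
    (ht : p.Red t t₁) (htr : Transcendental F t₁) (hs : p.Red s 0) (hs0 : s ≠ 0)
    (hst : Transcendental (IntermediateField.adjoin F ({t} : Set K)) s)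
    (halg : ∀ x : K, IsAlgebraic (IntermediateField.adjoin F ({t, s} : Set K)) x)
    {x : K} {y : κ} (hxy : p.Red x y) :
    IsAlgebraic (IntermediateField.adjoin F ({t₁} : Set κ)) y := by
  have : FiniteDimensional (IntermediateField.adjoin F ({t, s} : Set K))
      (IntermediateField.adjoin (IntermediateField.adjoin F ({t, s} : Set K))
        ({x} : Set K)) := by
    apply IntermediateField.finiteDimensional_adjoin
    intro x _
    exact (halg x).isIntegral
  have h1 := resAlg_fg hF ht htr hs hs0 hst
    (IntermediateField.adjoin (IntermediateField.adjoin F ({t, s} : Set K)) ({x} : Set K))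
  have h2 : IsIntegral (IntermediateField.adjoin F ({t₁} : Set κ)) y := by
    refine IsIntegral.of_mem_of_fg _ h1 y ?_
    exact ⟨x, IntermediateField.subset_adjoin _ _ rfl, hxy⟩
  exact h2.isAlgebraic

end

end V2aux

open V2aux in
theorem v2_holds : V2S := by
  intro K F _ _ _ _ _ _ t s hind halg
  have htK : Transcendental F t := trans_t hind
  have hst := trans_s hind
  obtain ⟨B, hB, hsB⟩ := exists_B hst
  have hs0 : s ≠ 0 := by
    rintro rfl
    exact hst (isAlgebraic_zero)
  have hFB : ∀ a : F, algebraMap F K a ∈ B.toSubring := fun a =>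
    hB _ ((IntermediateField.adjoin F ({t} : Set K)).algebraMap_mem a)
  have htB : t ∈ B.toSubring := hB _ (IntermediateField.mem_adjoin_simple_self F t)
  let alg : Algebra F (IsLocalRing.ResidueField B) :=
    ((IsLocalRing.residue B).comp ((algebraMap F K).codRestrict B.toSubring hFB)).toAlgebra
  have hF : ∀ a : F, (plOf B).Red (algebraMap F K a)
      (algebraMap F (IsLocalRing.ResidueField B) a) := fun a => ⟨hFB a, rfl⟩
  have ht : (plOf B).Red t ((plOf B).rs t) := Pl.red_rs htB
  have hs : (plOf B).Red s 0 := plOf_zero B hsB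
  have htr : Transcendental F ((plOf B).rs t) := by
    rintro ⟨P, hP0, hP⟩
    have hred : (plOf B).Red (aeval t P) (aeval ((plOf B).rs t) P) := by
      rw [aeval_eq_sum_range, aeval_eq_sum_range]
      refine Pl.red_sum _ (fun i _ => ?_)
      rw [Algebra.smul_def, Algebra.smul_def]
      exact (hF _).mul (ht.pow i)
    have hne : aeval t P ≠ 0 := fun h0 => htK ⟨P, hP0, h0⟩
    have hmem : (aeval t P)⁻¹ ∈ (plOf B).O := by
      apply hB
      apply inv_mem
      rw [IntermediateField.mem_adjoin_simple_iff]
      exact ⟨P, 1, by rw [map_one, div_one]⟩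
    have h1 := hred.mul (Pl.red_rs hmem)
    rw [mul_inv_cancel₀ hne, hP, zero_mul] at h1
    exact one_ne_zero (Pl.red_one.unique h1)
  refine ⟨IsLocalRing.ResidueField B, inferInstance, alg, plOf B, (plOf B).rs t,
    isAlgClosed_residue B, htr, ?_, hF, ht, hs, ?_⟩
  · intro y
    obtain ⟨x, hx⟩ := plOf_surj B y
    exact resAlg_alg hF ht htr hs hs0 hst halg hx
  · intro G
    exact resAlg_fin hF ht htr hs hs0 hst halg G

end Pool.Agent.LenSpec
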