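import Pool.Agent.LenSpec.Stmt
import Pool.Agent.LenSpec.PlBasic

/-!
Z1: a map that reduces to `z ^ d`.
-/

namespace Pool.Agent.LenSpec

open Polynomial

namespace Z1

variable {κ : Type} [Field κ]

theorem iter_pow (d n : ℕ) : iter d (X ^ d : κ[X]) 1 n = (X ^ d ^ n, 1) := by
  induction n with
  | zero => simp [iter]
  | succ n ih =>
    change (homComp d (X ^ d) (iter d (X ^ d : κ[X]) 1 n).1 (iter d (X ^ d : κ[X]) 1 n).2,
      homComp d 1 (iter d (X ^ d : κ[X]) 1 n).1 (iter d (X ^ d : κ[X]) 1 n).2) = _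
    rw [ih]
    unfold homComp
    ext1
    · change ∑ i ∈ Finset.range (d + 1), C ((X ^ d : κ[X]).coeff i) * (X ^ d ^ n) ^ i *
        1 ^ (d - i) = _
      rw [Finset.sum_eq_single d]
      · rw [coeff_X_pow, if_pos rfl, C_1, one_mul, one_pow, mul_one, ← pow_mul, ← pow_succ]
      · intro i _ hi
        rw [coeff_X_pow, if_neg hi, C_0, zero_mul, zero_mul]
      · intro h
        exact absurd (Finset.mem_range.2 (Nat.lt_succ_self d)) h
    · change ∑ i ∈ Finset.range (d + 1), C ((1 : κ[X]).coeff i) * (X ^ d ^ n) ^ i *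
        1 ^ (d - i) = _
      rw [Finset.sum_eq_single 0]
      · simp
      · intro i _ hi
        rw [coeff_one, if_neg hi, C_0, zero_mul, zero_mul]
      · intro h
        exact absurd (Finset.mem_range.2 (Nat.succ_pos d)) h

theorem nodup [CharZero κ] {d n : ℕ} (hd : 2 ≤ d) (hn : 1 ≤ n) :
    (fixPoly d (X ^ d : κ[X]) 1 n).roots.Nodup := by
  classical
  have hN : 2 ≤ d ^ n := hd.trans (by
    calc d = d ^ 1 := (pow_one d).symm
      _ ≤ d ^ n := Nat.pow_le_pow_right (by omega) hn)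
  unfold fixPoly
  rw [iter_pow]
  change ((X ^ d ^ n - X * 1 : κ[X])).roots.Nodup
  rw [mul_one]
  set N := d ^ n with hNdef
  have hne : (X ^ N - X : κ[X]) ≠ 0 := by
    intro h
    have h1 := congrArg (fun q => coeff q 1) h
    simp only [coeff_sub, coeff_X_pow, coeff_X_one, coeff_zero] at h1
    rw [if_neg (by omega)] at h1
    norm_num at h1
  rw [Multiset.nodup_iff_count_le_one]
  intro a
  rw [count_roots]
  by_contra hlt
  push Not at hlt
  rw [one_lt_rootMultiplicity_iff_isRoot hne] at hlt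
  obtain ⟨h1, h2⟩ := hlt
  rw [IsRoot.def] at h1 h2
  simp only [eval_sub, eval_pow, eval_X, derivative_sub, derivative_X_pow, derivative_X, eval_mul,
    eval_C, eval_one, map_natCast, eval_natCast] at h1 h2
  have ha : a ≠ 0 := by
    rintro rfl
    rw [zero_pow (by omega), mul_zero, zero_sub] at h2
    exact one_ne_zero (neg_eq_zero.1 h2)
  have h3 : a ^ (N - 1) = 1 := by
    have h4 : a * a ^ (N - 1) = a * 1 := by
      rw [← pow_succ', Nat.sub_add_cancel (by omega), mul_one]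
      exact sub_eq_zero.1 h1
    exact mul_left_cancel₀ ha h4
  rw [h3, mul_one] at h2
  have h5 : (N : κ) = ((1 : ℕ) : κ) := by
    rw [Nat.cast_one]
    exact sub_eq_zero.1 h2
  have h6 : N = 1 := Nat.cast_injective h5
  omega

theorem ev_pow (d : ℕ) (y : κ) : ev (X ^ d) 1 y = y ^ d := by
  simp [ev]

theorem ev_pow_iterate (d k : ℕ) (y : κ) : (ev (X ^ d) 1)^[k] y = y ^ d ^ k := by
  induction k with
  | zero => simp
  | succ k ih => rw [Function.iterate_succ_apply', ih, ev_pow, ← pow_mul, ← pow_succ]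

theorem derivAt_pow (d : ℕ) (y : κ) : derivAt (X ^ d) 1 y = (d : κ) * y ^ (d - 1) := by
  unfold derivAt
  rw [derivative_X_pow, derivative_one, eval_one, eval_zero]
  simp

theorem mult_pow (d n : ℕ) (y : κ) (hd : 1 ≤ d) :
    mult (X ^ d) 1 n y = (d : κ) ^ n * y ^ (d ^ n - 1) := by
  unfold mult
  induction n with
  | zero => simp
  | succ n ih =>
    rw [Finset.prod_range_succ, ih, derivAt_pow, ev_pow_iterate, ← pow_mul]
    have h1 : d ^ n - 1 + d ^ n * (d - 1) = d ^ (n + 1) - 1 := by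
      have h2 : 1 ≤ d ^ n := Nat.one_le_pow _ _ hd
      obtain ⟨e, rfl⟩ : ∃ e, d = e + 1 := ⟨d - 1, by omega⟩
      rw [Nat.add_sub_cancel, pow_succ, mul_add, mul_one]
      omega
    rw [← h1, pow_add, pow_succ]
    ring

end Z1

theorem Z1_holds (hN5 : N5S) : Z1S := by
  intro K κ _ _ _ _ p d n f hd hn hP hQ z hz
  obtain ⟨h1, h2, h3, h4⟩ := (hN5 K κ p d n f (X ^ d) hd hn hP hQ (natDegree_X_pow d)
    (Z1.nodup hd (by omega))).1 z hz
  have hz0 : p.rs z ≠ 0 := by
    intro h0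
    apply h2.2 1 one_pos (by omega)
    rw [Function.iterate_one, Z1.ev_pow, h0, zero_pow (by omega)]
  have hdn : 1 ≤ d ^ n := Nat.one_le_pow _ _ (by omega)
  have h5 : (p.rs z) ^ (d ^ n - 1) = 1 := by
    have h6 := h2.1.2
    rw [Z1.ev_pow_iterate] at h6
    have h7 : p.rs z * (p.rs z) ^ (d ^ n - 1) = p.rs z * 1 := by
      rw [← pow_succ', Nat.sub_add_cancel hdn, mul_one, h6]
    exact mul_left_cancel₀ hz0 h7
  refine ⟨h1, hz0, h5, ?_⟩
  rw [Z1.mult_pow d n _ (by omega), h5, mul_one] at h4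
  exact h4

end Pool.Agent.LenSpec
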