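import Pool.Agent.LenSpec.Stmt
import Pool.Agent.LenSpec.PlBasic

/-!
The multipliers at the fixed points of a map that reduces to `z ^ (- d)`.
-/

namespace Pool.Agent.LenSpec

open Polynomial

theorem Z2_holds (hN1 : N1S) (hN3 : N3S) : Z2S := by
  intro K κ _ _ _ _ p d f hd hP hQ z hz
  have hz1 := hz.1.1 0
  have hz2 := hz.1.2
  simp only [Function.iterate_zero, id_eq, Function.iterate_one] at hz1 hz2
  -- the fixed point equation
  have hW : p.RedP (f.num - X * f.den) (1 - X * X ^ d) := hP.sub (Pl.redP_X.mul hQ)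
  have hVdeg : (1 - X * X ^ d : κ[X]).natDegree = d + 1 := by
    rw [← pow_succ']
    have h1 : (1 - X ^ (d + 1) : κ[X]) = -(X ^ (d + 1) - C 1) := by rw [map_one]; ring
    rw [h1, natDegree_neg, natDegree_X_pow_sub_C]
  have hV0 : (1 - X * X ^ d : κ[X]) ≠ 0 := by
    intro h
    rw [h, natDegree_zero] at hVdeg
    omega
  obtain ⟨S, R, h1, h2, h3, h4, h5⟩ := hN1 K κ p _ _ hW hV0
  have hR : R = 0 := by
    have h6 := card_roots' (f.num - X * f.den)
    rw [h1, Multiset.card_add, h5, hVdeg] at h6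
    have h7 : (f.num - X * f.den).natDegree ≤ d + 1 := by
      refine (natDegree_sub_le _ _).trans (max_le ?_ ?_)
      · have := f.num_le
        omega
      · refine natDegree_mul_le.trans ?_
        have := f.den_le
        have h8 : (X : K[X]).natDegree ≤ 1 := natDegree_X_le
        omega
    rw [← Multiset.card_eq_zero]
    omega
  have hWne : f.num - X * f.den ≠ 0 := by
    intro h
    rw [h, roots_zero, hR, add_zero] at h1
    rw [← h1, Multiset.card_zero] at h5
    omega
  have hzr : z ∈ (f.num - X * f.den).roots := by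
    rw [mem_roots hWne, IsRoot.def, eval_sub, eval_mul, eval_X]
    unfold ev at hz2
    rw [div_eq_iff hz1] at hz2
    rw [hz2]
    ring
  have hzO : z ∈ p.O := by
    rw [h1, hR, add_zero] at hzr
    exact h2 z hzr
  have hzy := Pl.red_rs (p := p) hzO
  obtain ⟨y, hy⟩ : ∃ y, y = p.rs z := ⟨_, rfl⟩
  rw [← hy] at hzy
  have hy1 : y ^ (d + 1) = 1 := by
    have h6 := hW.eval hzy
    have h7 : p.Red ((f.num - X * f.den).eval z) 0 := by
      have h8 : (f.num - X * f.den).eval z = 0 := (mem_roots hWne).1 hzr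
      rw [h8]
      exact Pl.red_zero
    have h8 := h6.unique h7
    simp only [eval_sub, eval_one, eval_mul, eval_X, eval_pow] at h8
    rw [pow_succ']
    exact (sub_eq_zero.1 h8).symm
  have hy0 : y ≠ 0 := by
    rintro rfl
    rw [zero_pow (by omega)] at hy1
    exact zero_ne_one hy1
  have h6 := ((hN3 K κ p f.num f.den 1 (X ^ d) z y hP hQ hzy).1 (by
    rw [eval_pow, eval_X]
    exact pow_ne_zero _ hy0)).2.2
  have h7 : mult f.num f.den 1 z = derivAt f.num f.den z := by
    unfold mult
    rw [Finset.prod_range_one]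
    rfl
  rw [h7]
  refine h6.eq rfl ?_
  unfold derivAt
  rw [derivative_one, derivative_X_pow]
  simp only [eval_zero, eval_one, eval_mul, eval_pow, eval_X, eval_C, zero_mul, zero_sub, one_mul]
  rw [div_eq_iff (pow_ne_zero _ (pow_ne_zero _ hy0))]
  obtain ⟨e, rfl⟩ : ∃ e, d = e + 1 := ⟨d - 1, by omega⟩
  have h8 : (y ^ (e + 1)) ^ 2 = y ^ (e + 1 + 1) * y ^ e := by ring
  rw [h8, hy1, one_mul, Nat.add_sub_cancel]
  ring

end Pool.Agent.LenSpec
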