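import Pool.Agent.LenSpec.A1
import Pool.Agent.LenSpec.A2
import Pool.Agent.LenSpec.A3
import Pool.Agent.LenSpec.A4
import Pool.Agent.LenSpec.A56
import Pool.Agent.LenSpec.B1
import Pool.Agent.LenSpec.B2
import Pool.Agent.LenSpec.B3
import Pool.Agent.LenSpec.B4
import Pool.Agent.LenSpec.B5
import Pool.Agent.LenSpec.B6
import Pool.Agent.LenSpec.B8
import Pool.Agent.LenSpec.C12
import Pool.Agent.LenSpec.E1
import Pool.Agent.LenSpec.E2
import Pool.Agent.LenSpec.E34
import Pool.Agent.LenSpec.FA1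
import Pool.Agent.LenSpec.FA2
import Pool.Agent.LenSpec.FG
import Pool.Agent.LenSpec.FN
import Pool.Agent.LenSpec.G1
import Pool.Agent.LenSpec.G2
import Pool.Agent.LenSpec.G3
import Pool.Agent.LenSpec.H0
import Pool.Agent.LenSpec.H1
import Pool.Agent.LenSpec.IC
import Pool.Agent.LenSpec.J0
import Pool.Agent.LenSpec.J1
import Pool.Agent.LenSpec.J2
import Pool.Agent.LenSpec.K1
import Pool.Agent.LenSpec.L1
import Pool.Agent.LenSpec.L3
import Pool.Agent.LenSpec.L4
import Pool.Agent.LenSpec.L5
import Pool.Agent.LenSpec.L6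
import Pool.Agent.LenSpec.L7
import Pool.Agent.LenSpec.M1
import Pool.Agent.LenSpec.MAIN
import Pool.Agent.LenSpec.N1
import Pool.Agent.LenSpec.N23
import Pool.Agent.LenSpec.N5
import Pool.Agent.LenSpec.NO
import Pool.Agent.LenSpec.O1
import Pool.Agent.LenSpec.OP
import Pool.Agent.LenSpec.P1
import Pool.Agent.LenSpec.Q1
import Pool.Agent.LenSpec.QDa
import Pool.Agent.LenSpec.QDb
import Pool.Agent.LenSpec.QD0
import Pool.Agent.LenSpec.QD12
import Pool.Agent.LenSpec.R1
import Pool.Agent.LenSpec.R2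
import Pool.Agent.LenSpec.R4
import Pool.Agent.LenSpec.R5
import Pool.Agent.LenSpec.RECT
import Pool.Agent.LenSpec.RZ
import Pool.Agent.LenSpec.S1
import Pool.Agent.LenSpec.SR
import Pool.Agent.LenSpec.U3
import Pool.Agent.LenSpec.V1
import Pool.Agent.LenSpec.V2
import Pool.Agent.LenSpec.W1
import Pool.Agent.LenSpec.Z1
import Pool.Agent.LenSpec.Z2
import Pool.Agent.LenSpec.Z3

/-!
The modules put together: the main theorem for fields with a conjugation.
-/

namespace Pool.Agent.LenSpec

namespace Asm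

theorem a4 : A4S := a4_holds a1_holds a2_holds a3_holds
theorem g1 : G1S := g1_holds a1_holds a2_holds a4
theorem g2 : G2S := G2_holds g1 A6_holds
theorem g3 : G3S := G3_holds g2 A5_holds
theorem b1 : B1S := b1_holds a2_holds
theorem b2 : B2S := b2_holds a2_holds
theorem b4 : B4S := B4_holds a2_holds a3_holds b1 b2
theorem b6 : B6S := B6_holds g1 b1 b2 b3_holds b5_holds
theorem c2 : C2S := c2_holds c1_holds a1_holds a2_holds g1
theorem e1 : E1S := E1_holds g2
theorem e2 : E2S := E2_holds a1_holds a2_holds a4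
theorem qd0 : QD0S := QD0_holds QDa_holds QDb_holds
theorem qd1 : QD1S := QD1_holds qd0
theorem qd2 : QD2S := QD2_holds qd0
theorem j2 : J2S := J2_holds J1_holds k1_holds
theorem l5 : L5S := l5_holds l4_holds qd1
theorem l6 : L6S := l6_holds l4_holds
theorem l7 : L7S := L7_holds J0_holds j2 l1_holds L3_holds l4_holds l5 l6 qd2
theorem m1 : M1S := m1_holds J0_holds J1_holds l1_holds l4_holds
theorem n5 : N5S := N5_holds a1_holds a2_holds N1_holds N2_holds N3_holds
theorem sr : SRS := SR_holds v2_holds n5 J0_holds J1_holds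
theorem o1 : O1S := o1_holds sr l7 A5_holds
theorem p1 : P1S := p1_holds sr m1 A5_holds
theorem fn : FNS := FN_holds a3_holds
theorem q1 : Q1S := Q1_holds fn
theorem op : OPS := op_holds q1 o1 p1 b8_holds
theorem z1 : Z1S := Z1_holds n5
theorem z2 : Z2S := Z2_holds N1_holds N3_holds
theorem z3 : Z3S := Z3_holds v1_holds z1 z2 E3_holds
theorem fg : FGS := FG_holds fn z3 A6_holds g1
theorem w1 : W1S := W1_holds RECT_holds op e1 E3_holds g1 g2 g3 fg b5_holds A5_holds
theorem r4 : R4S := R4_holds z1 N3_holds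
theorem r5 : R5S := r5_holds R1_holds R2_holds r4 v1_holds n5
theorem fa1 : FA1S := FA1_holds a3_holds g1
theorem s1 : S1S := s1_holds r5 fa1 FA2_holds b6 g1
theorem h1 : H1S := H1_holds H0_holds IC_holds z3 fg e1 g2 c2 b5_holds
theorem main : MainS := main_holds fg b4 e2 w1 s1 h1 E3_holds E4_holds g1
theorem u3 : U3S := U3 a2_holds
theorem no : NOS := NO_holds a2_holds b4
theorem rz : RZS := rz_holds main U1 U2 u3 no E3_holds

end Asm

end Pool.Agent.LenSpec
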