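import Pool.Agent.LenSpec.U1

/-!
U2: ultraproducts of rational maps.
-/

namespace Pool.Agent.LenSpec

open Polynomial Filter

/-- a sequence of polynomials of bounded degree as a polynomial -/
noncomputable def seqPoly (d : ℕ) (p : ℕ → ℂ[X]) : (ℕ → ℂ)[X] :=
  ∑ i ∈ Finset.range (d + 1), monomial i (fun j => (p j).coeff i)

theorem seqPoly_coeff (d : ℕ) (p : ℕ → ℂ[X]) (h : ∀ j, (p j).natDegree ≤ d) (i : ℕ) :
    (seqPoly d p).coeff i = fun j => (p j).coeff i := by
  unfold seqPoly
  rw [finsetSum_coeff]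
  simp only [coeff_monomial]
  by_cases hi : i ∈ Finset.range (d + 1)
  · rw [Finset.sum_ite_eq' (Finset.range (d + 1)) i, if_pos hi]
  · rw [Finset.sum_ite_eq' (Finset.range (d + 1)) i, if_neg hi]
    funext j
    simp only [Finset.mem_range] at hi
    exact (coeff_eq_zero_of_natDegree_lt (by have := h j; omega)).symm

theorem seqPoly_map (d : ℕ) (p : ℕ → ℂ[X]) (h : ∀ j, (p j).natDegree ≤ d) (j : ℕ) :
    (seqPoly d p).map (eH j) = p j := by
  ext i
  rw [coeff_map, seqPoly_coeff d p h, eH_apply]

theorem seqPoly_natDegree (d : ℕ) (p : ℕ → ℂ[X]) : (seqPoly d p).natDegree ≤ d := by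
  unfold seqPoly
  apply natDegree_sum_le_of_forall_le
  intro i hi
  simp only [Finset.mem_range] at hi
  exact (natDegree_monomial_le _).trans (by omega)

theorem U2 : U2S := by
  intro d f
  have hA := U1_alg
  have hn := fun j => (f j).num_le
  have hd := fun j => (f j).den_le
  have e1 := seqPoly_map d (fun j => (f j).num) hn
  have e2 := seqPoly_map d (fun j => (f j).den) hd
  refine ⟨⟨(seqPoly d (fun j => (f j).num)).map qH, (seqPoly d (fun j => (f j).den)).map qH,
    natDegree_map_le.trans (seqPoly_natDegree _ _),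
    natDegree_map_le.trans (seqPoly_natDegree _ _), ?_, ?_⟩, ?_⟩
  · have h1 := qH_natDegree (seqPoly d (fun j => (f j).num))
    have h2 := qH_natDegree (seqPoly d (fun j => (f j).den))
    obtain ⟨j, hj1, hj2⟩ := (h1.and h2).exists
    rw [← hj1, ← hj2, e1, e2]
    exact (f j).deg_eq
  · rw [isCoprime_iff_aeval_ne_zero_of_isAlgClosed HC HC]
    intro z
    obtain ⟨z, rfl⟩ := qH_surj z
    rw [coe_aeval_eq_eval, qH_eval, qH_eval]
    by_contra hcon
    push Not at hcon
    obtain ⟨h1, h2⟩ := hcon
    rw [qH_zero_iff] at h1 h2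
    obtain ⟨j, hj1, hj2⟩ := (h1.and h2).exists
    rw [e1] at hj1
    rw [e2] at hj2
    have h3 := (isCoprime_iff_aeval_ne_zero_of_isAlgClosed ℂ ℂ (f j).num (f j).den).1
      (f j).coprime (z j)
    rw [coe_aeval_eq_eval] at h3
    exact h3.elim (fun h => h hj1) (fun h => h hj2)
  · intro i
    rcases i with i | i
    · change ((seqPoly d (fun j => (f j).num)).map qH).coeff i = _
      rw [coeff_map, seqPoly_coeff d _ hn]
      rfl
    · change ((seqPoly d (fun j => (f j).den)).map qH).coeff i = _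
      rw [coeff_map, seqPoly_coeff d _ hd]
      rfl

end Pool.Agent.LenSpec
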