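import Pool.Agent.LenSpec.GIDefs
import Pool.Agent.LenSpec.U3

/-!
U4: conjugacy of ultraproducts.
-/

namespace Pool.Agent.LenSpec

open Polynomial Filter

namespace U4

/-- a lift of the numerators or denominators -/
theorem lift_eq (d : ℕ) (p : ℕ → ℂ[X]) (q : HC[X]) (hp : ∀ j, (p j).natDegree ≤ d)
    (hq : q.natDegree ≤ d) (h : ∀ i : ℕ, i ≤ d → q.coeff i = ((fun j => (p j).coeff i : ℕ → ℂ) : HC)) :
    q = (seqPoly d p).map qH := by
  ext i
  rw [coeff_map, seqPoly_coeff d _ hp]
  by_cases hi : i ≤ d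
  · exact h i hi
  · rw [coeff_eq_zero_of_natDegree_lt (by omega), eq_comm, qH_zero_iff]
    refine Filter.Eventually.of_forall (fun j => ?_)
    exact coeff_eq_zero_of_natDegree_lt (by have := hp j; omega)

theorem poly_zero (p : (ℕ → ℂ)[X]) (h : p.map qH = 0) :
    ∀ᶠ j in (hyperfilter ℕ : Filter ℕ), p.map (eH j) = 0 := by
  filter_upwards [qH_map_natDegree p] with j hj
  ext i
  rw [coeff_zero, hj, h, coeff_zero]

theorem poly_eq (p q : (ℕ → ℂ)[X]) (h : p.map qH = q.map qH) :
    ∀ᶠ j in (hyperfilter ℕ : Filter ℕ), p.map (eH j) = q.map (eH j) := by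
  have h1 : (p - q).map qH = 0 := by rw [Polynomial.map_sub, h, sub_self]
  filter_upwards [poly_zero _ h1] with j hj
  rw [Polynomial.map_sub, sub_eq_zero] at hj
  exact hj

end U4

theorem U4_holds : U4S := by
  intro d f g F G hF hG hFG
  obtain ⟨a, b, c, e, k, h0, hk, h1, h2⟩ := hFG
  obtain ⟨a, rfl⟩ := qH_surj a
  obtain ⟨b, rfl⟩ := qH_surj b
  obtain ⟨c, rfl⟩ := qH_surj c
  obtain ⟨e, rfl⟩ := qH_surj e
  obtain ⟨k, rfl⟩ := qH_surj k
  have eFn := U4.lift_eq d (fun j => (f j).num) F.num (fun j => (f j).num_le) F.num_le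
    (fun i hi => hF (Sum.inl ⟨i, by omega⟩))
  have eFd := U4.lift_eq d (fun j => (f j).den) F.den (fun j => (f j).den_le) F.den_le
    (fun i hi => hF (Sum.inr ⟨i, by omega⟩))
  have eGn := U4.lift_eq d (fun j => (g j).num) G.num (fun j => (g j).num_le) G.num_le
    (fun i hi => hG (Sum.inl ⟨i, by omega⟩))
  have eGd := U4.lift_eq d (fun j => (g j).den) G.den (fun j => (g j).den_le) G.den_le
    (fun i hi => hG (Sum.inr ⟨i, by omega⟩))
  have mFn := seqPoly_map d (fun j => (f j).num) (fun j => (f j).num_le)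
  have mFd := seqPoly_map d (fun j => (f j).den) (fun j => (f j).den_le)
  have mGn := seqPoly_map d (fun j => (g j).num) (fun j => (g j).num_le)
  have mGd := seqPoly_map d (fun j => (g j).den) (fun j => (g j).den_le)
  set P := seqPoly d (fun j => (f j).num)
  set Q := seqPoly d (fun j => (f j).den)
  set P' := seqPoly d (fun j => (g j).num)
  set Q' := seqPoly d (fun j => (g j).den)
  have k1 : (homCompR d P' (C a * X + C b) (C c * X + C e)).map qH =
      (C k * (C a * P + C b * Q)).map qH := by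
    rw [homCompR_map, ← eGn]
    simp only [Polynomial.map_mul, Polynomial.map_add, map_C, map_X]
    rw [← eFn, ← eFd]
    exact h1
  have k2 : (homCompR d Q' (C a * X + C b) (C c * X + C e)).map qH =
      (C k * (C c * P + C e * Q)).map qH := by
    rw [homCompR_map, ← eGd]
    simp only [Polynomial.map_mul, Polynomial.map_add, map_C, map_X]
    rw [← eFn, ← eFd]
    exact h2
  have k3 : qH (a * e - b * c) ≠ 0 := by
    rw [map_sub, map_mul, map_mul]
    exact h0
  have l1 := U4.poly_eq _ _ k1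
  have l2 := U4.poly_eq _ _ k2
  have l3 := (qH_ne_iff _).1 k3
  have l4 := (qH_ne_iff _).1 hk
  obtain ⟨j, ⟨h1j, h2j⟩, h3j, h4j⟩ := ((l1.and l2).and (l3.and l4)).exists
  refine ⟨j, a j, b j, c j, e j, k j, ?_, h4j, ?_, ?_⟩
  · simpa using h3j
  · rw [homCompR_map, mGn j] at h1j
    simp only [Polynomial.map_mul, Polynomial.map_add, map_C, map_X, eH_apply] at h1j
    rw [mFn j, mFd j] at h1j
    exact h1j
  · rw [homCompR_map, mGd j] at h2j
    simp only [Polynomial.map_mul, Polynomial.map_add, map_C, map_X, eH_apply] at h2j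
    rw [mFn j, mFd j] at h2j
    exact h2j

end Pool.Agent.LenSpec
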