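import Pool.Agent.LenSpec.Stmt

/-!
Values of the iterates along an orbit that avoids infinity.
-/

namespace Pool.Agent.LenSpec

open Polynomial

theorem homComp_eval {K : Type} [Field K] {d : ℕ} {P : K[X]} (hP : P.natDegree ≤ d) (A B : K[X])
    (z : K) (hB : B.eval z ≠ 0) :
    (homComp d P A B).eval z = P.eval (A.eval z / B.eval z) * (B.eval z) ^ d := by
  rw [homComp, eval_finsetSum, eval_eq_sum_range' (Nat.lt_succ_of_le hP), Finset.sum_mul]
  refine Finset.sum_congr rfl (fun i hi => ?_)
  have hid : i ≤ d := Nat.lt_succ_iff.1 (Finset.mem_range.1 hi)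
  rw [eval_mul, eval_mul, eval_C, eval_pow, eval_pow, div_pow]
  have h1 : (B.eval z) ^ d = (B.eval z) ^ i * (B.eval z) ^ (d - i) := by
    rw [← pow_add]
    congr 1
    omega
  rw [h1]
  field_simp

/-- the derivative of a form, up to the Euler relation -/
theorem homComp_deriv {K : Type} [Field K] {d : ℕ} {P : K[X]} (hP : P.natDegree ≤ d)
    (A B : K[X]) (z : K) (hB : B.eval z ≠ 0) :
    (derivative (homComp d P A B)).eval z =
      (derivative P).eval (A.eval z / B.eval z) * (derivAt A B z) * (B.eval z) ^ d +
      P.eval (A.eval z / B.eval z) *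
        ((d : K) * (B.eval z) ^ (d - 1) * (derivative B).eval z) := by
  have hd1 : (derivative P).eval (A.eval z / B.eval z) =
      ∑ i ∈ Finset.range (d + 1), (i : K) * P.coeff i * (A.eval z / B.eval z) ^ (i - 1) := by
    rw [derivative_eval, sum_over_range' _ (by simp) (d + 1) (Nat.lt_succ_of_le hP)]
    refine Finset.sum_congr rfl (fun i _ => ?_)
    ring
  rw [hd1, eval_eq_sum_range' (Nat.lt_succ_of_le hP), homComp, derivative_sum, eval_finsetSum,
    Finset.sum_mul, Finset.sum_mul, Finset.sum_mul, ← Finset.sum_add_distrib]
  refine Finset.sum_congr rfl (fun i hi => ?_)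
  have hid : i ≤ d := Nat.lt_succ_iff.1 (Finset.mem_range.1 hi)
  obtain ⟨e, rfl⟩ := Nat.exists_eq_add_of_le hid
  rw [derivative_mul, derivative_mul, derivative_C, derivative_pow, derivative_pow]
  have hr : A.eval z = (A.eval z / B.eval z) * B.eval z := by field_simp
  have hw : (derivative A).eval z = B.eval z * derivAt A B z +
      (A.eval z / B.eval z) * (derivative B).eval z := by
    rw [derivAt]
    field_simp
    ring
  simp only [eval_add, eval_mul, eval_C, eval_pow, zero_mul, zero_add,
    add_tsub_cancel_left, Nat.cast_add]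
  generalize (A.eval z / B.eval z) = r at hr hw ⊢
  generalize derivAt A B z = w at hw ⊢
  rw [hr, hw]
  generalize B.eval z = b
  generalize (derivative B).eval z = b'
  rcases i with _ | i <;> rcases e with _ | e
  · simp
  · simp
    try ring
  · simp
    ring
  · simp
    ring

theorem a1_holds : A1S := by
  intro K _ d n P Q z hP hQ
  induction n with
  | zero =>
    intro _
    simp [iter, derivAt, mult]
  | succ n ih =>
    intro h
    obtain ⟨h1, h2, h3⟩ := ih (fun k hk => h k (by omega))
    have h4 : (iter d P Q n).1.eval z / (iter d P Q n).2.eval z = (ev P Q)^[n] z := by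
      rw [h2]
      field_simp
    have h5 := h n (by omega)
    have hB : (iter d P Q (n + 1)).2.eval z =
        Q.eval ((ev P Q)^[n] z) * ((iter d P Q n).2.eval z) ^ d := by
      rw [iter, homComp_eval hQ _ _ _ h1, h4]
    have hA : (iter d P Q (n + 1)).1.eval z =
        P.eval ((ev P Q)^[n] z) * ((iter d P Q n).2.eval z) ^ d := by
      rw [iter, homComp_eval hP _ _ _ h1, h4]
    have hB' := homComp_deriv hQ (iter d P Q n).1 (iter d P Q n).2 z h1
    have hA' := homComp_deriv hP (iter d P Q n).1 (iter d P Q n).2 z h1
    rw [h4, h3] at hA' hB'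
    refine ⟨?_, ?_, ?_⟩
    · rw [hB]
      exact mul_ne_zero h5 (pow_ne_zero _ h1)
    · rw [hB, hA, Function.iterate_succ', Function.comp_apply, ev]
      field_simp
    · rw [mult, Finset.prod_range_succ, ← mult]
      rw [derivAt, hA, hB]
      change ((derivative (homComp d P (iter d P Q n).1 (iter d P Q n).2)).eval z * _ -
        _ * (derivative (homComp d Q (iter d P Q n).1 (iter d P Q n).2)).eval z) / _ = _
      rw [hA', hB', derivAt]
      generalize (derivative (iter d P Q n).2).eval z = b'
      generalize (iter d P Q n).2.eval z = b at *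
      generalize (ev P Q)^[n] z = x at *
      generalize mult P Q n z = m
      rcases d with _ | d
      · simp
        field_simp
        try ring
      · simp only [Nat.add_sub_cancel]
        field_simp
        ring

end Pool.Agent.LenSpec
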