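import Pool.Agent.LenSpec.QuadDefs

/-!
Generic injectivity of the multiplier spectrum (periods 1 and 2): definitions and statements.
-/

namespace Pool.Agent.LenSpec

open Polynomial

section gi

variable {K : Type} [Field K] {d : ℕ}

/-- `∏ (X - w j)` -/
noncomputable def nfR (w : Fin d → K) : K[X] := ∏ j, (X - C (w j))

/-- `∑ ι j ∏_{l ≠ j} (X - w l)` -/
noncomputable def nfM (w ι : Fin d → K) : K[X] :=
  ∑ j, C (ι j) * ∏ l ∈ Finset.univ.erase j, (X - C (w l))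

/-- `f` is the map `z - 1 / N(z)`, `N(z) = ∑ ι j / (z - w j)`: infinity is fixed, the other fixed
points are the `w j`, with multipliers `1 - 1 / ι j` -/
def IsNf (f : RatMap K d) (w ι : Fin d → K) : Prop :=
  f.num = X * nfM w ι - nfR w ∧ f.den = nfM w ι

/-- `∑_{j ∈ V, j ≠ s} c j / (w s - w j)` -/
noncomputable def eE (V : Finset (Fin d)) (c w : Fin d → K) (s : Fin d) : K :=
  ∑ j ∈ V.erase s, c j / (w s - w j)

/-- the product of the differences of the two coordinates of the points `(w s, E s)` -/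
noncomputable def gG (V : Finset (Fin d)) (c w : Fin d → K) (s l : Fin d) : K :=
  (w s - w l) * (eE V c w s - eE V c w l)

/-- `N(z)` -/
noncomputable def nN (ι w : Fin d → K) (z : K) : K := ∑ j, ι j / (z - w j)

/-- `- N'(z)` -/
noncomputable def nD (ι w : Fin d → K) (z : K) : K := ∑ j, ι j / (z - w j) ^ 2

/-- `z, z'` is a cycle of length two of `z - 1 / N(z)` -/
structure TwoC (ι w : Fin d → K) (z z' : K) : Prop where
  hz : ∀ j, z ≠ w j
  hz' : ∀ j, z' ≠ w j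
  eq1 : nN ι w z * (z - z') = 1
  eq2 : nN ι w z' * (z' - z) = 1

/-- the multiplier of the cycle `z, z'` -/
noncomputable def mm (ι w : Fin d → K) (z z' : K) : K :=
  (1 - nD ι w z * (z - z') ^ 2) * (1 - nD ι w z' * (z - z') ^ 2)

/-- the cycle `z, z'` is the one near `w s, w l` -/
structure Near {κ : Type} [Field κ] (p : Pl K κ) (δ : K) (c w : Fin d → K) (s l : Fin d)
    (z z' : K) : Prop where
  two : TwoC (fun j => δ * c j) w z z'
  red : p.Red ((z - w s) / δ) (p.rs (c s) * (p.rs (w s) - p.rs (w l)))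
  red' : p.Red ((z' - w l) / δ) (p.rs (c l) * (p.rs (w l) - p.rs (w s)))

/-- the points `w s`, `s ∈ V`, have distinct finite reductions, the others reduce to infinity -/
structure Cfg {κ : Type} [Field κ] (p : Pl K κ) (δ : K) (c w : Fin d → K)
    (V : Finset (Fin d)) : Prop where
  δ_ne : δ ≠ 0
  δ_red : p.Red δ 0
  c_mem : ∀ j, c j ∈ p.O
  c_ne : ∀ j, p.rs (c j) ≠ 0
  w_mem : ∀ s ∈ V, w s ∈ p.O
  w_ne : ∀ s ∈ V, ∀ l ∈ V, s ≠ l → p.rs (w s) ≠ p.rs (w l)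
  w_inf : ∀ m, m ∉ V → w m ∉ p.O

/-- the open conditions on `(c, w)` that are used -/
structure GGen (c w : Fin d → K) : Prop where
  inj : Function.Injective w
  c_ne : ∀ j, c j ≠ 0
  e1 : ∀ s l, s ≠ l → eE Finset.univ c w s ≠ eE Finset.univ c w l
  e2 : ∀ s l m, s ≠ l → l ≠ m → s ≠ m →
    (w s - w m) * (eE Finset.univ c w l - eE Finset.univ c w m) -
      (w l - w m) * (eE Finset.univ c w s - eE Finset.univ c w m) ≠ 0
  e3 : ∀ V : Finset (Fin d), V ≠ Finset.univ → 2 ≤ V.card →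
    ∑ m ∈ Vᶜ, ∑ s ∈ V, ∑ l ∈ V, c m * c s * c l * (w s - w l) ^ 2 /
      ((w s - w m) * (w l - w m)) ≠ 0
  e4 : ¬ ∀ s l, ∑ j ∈ Finset.univ.erase s, c j /
        (eE Finset.univ c w s - eE Finset.univ c w j) -
      ∑ j ∈ Finset.univ.erase l, c j / (eE Finset.univ c w l - eE Finset.univ c w j) =
      w s - w l
  e5 : ∀ a b s l, s ≠ l → c a * c b = c s * c l → (a = s ∧ b = l) ∨ (a = l ∧ b = s)

/-- generic parameters: the `ι j` and the `w j`, `j ≥ 2`, are algebraically independent -/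
structure NGen [CharZero K] (hd : 2 ≤ d) (w ι : Fin d → K) : Prop where
  w0 : w ⟨0, by omega⟩ = 0
  w1 : w ⟨1, by omega⟩ = 1
  indep : AlgebraicIndependent ℚ
    (Sum.elim ι (fun j : Fin (d - 2) => w ⟨j + 2, by omega⟩))

end gi

/-! ### Conjugation -/

/-- MC1 (may use A2, B1, B2, B3): conjugate maps have the same multipliers -/
def MC1S : Prop := ∀ (K : Type) [Field K] [IsAlgClosed K] (d : ℕ) (f g : RatMap K d), 1 ≤ d →
  MobConj f g → ∀ n, f.multSpec n = g.multSpec n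

/-- MC2: conjugacy is an equivalence relation -/
def MC2S : Prop := ∀ (K : Type) [Field K] (d : ℕ), 1 ≤ d → (∀ f : RatMap K d, MobConj f f) ∧
  (∀ f g : RatMap K d, MobConj f g → MobConj g f) ∧
  (∀ f g h : RatMap K d, MobConj f g → MobConj g h → MobConj f h)

/-- NF1: normal form by fixed points -/
def NF1S : Prop := ∀ (K : Type) [Field K] [IsAlgClosed K] (d : ℕ) (f : RatMap K d), 2 ≤ d →
  (∀ x ∈ f.multSpec 1, x ≠ 1) → ∀ x₀ ∈ f.multSpec 1,
  ∃ (w ι : Fin d → K) (f₁ : RatMap K d), Function.Injective w ∧ (∀ j, ι j ≠ 0) ∧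
    IsNf f₁ w ι ∧ MobConj f f₁ ∧ 1 - ∑ j, ι j = (1 - x₀)⁻¹ ∧
    f.multSpec 1 = x₀ ::ₘ Finset.univ.val.map (fun j => 1 - (ι j)⁻¹)

/-- NF2: affine change of coordinate in the normal form -/
def NF2S : Prop := ∀ (K : Type) [Field K] (d : ℕ) (f₁ : RatMap K d) (w ι : Fin d → K)
  (a b : K), 1 ≤ d → a ≠ 0 → Function.Injective w → (∀ j, ι j ≠ 0) → IsNf f₁ w ι →
  ∃ f₂ : RatMap K d, IsNf f₂ (fun j => a * w j + b) ι ∧ MobConj f₁ f₂

/-- NF3: generic coordinates -/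
def NF3S : Prop := ∀ (K : Type) [Field K] [IsAlgClosed K] [CharZero K] (d : ℕ) (hd : 2 ≤ d)
  (f f₁ : RatMap K d) (w ι : Fin d → K), AlgebraicIndependent ℚ f.coef → MobConj f f₁ →
  IsNf f₁ w ι → w ⟨0, by omega⟩ = 0 → w ⟨1, by omega⟩ = 1 → NGen hd w ι

/-! ### Cycles of length two -/

/-- TC1 (may use N1): existence of the cycle near `w s, w l` -/
def TC1S : Prop := ∀ (K κ : Type) [Field K] [IsAlgClosed K] [Field κ] (p : Pl K κ) (d : ℕ)
  (c w : Fin d → K) (δ : K) (V : Finset (Fin d)), Cfg p δ c w V →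
  ∀ s ∈ V, ∀ l ∈ V, s ≠ l → ∃ z z', Near p δ c w s l z z'

/-- TC2: expansion of the multiplier -/
def TC2S : Prop := ∀ (K κ : Type) [Field K] [Field κ] (p : Pl K κ) (d : ℕ)
  (c w : Fin d → K) (δ : K) (V : Finset (Fin d)), Cfg p δ c w V →
  ∀ s ∈ V, ∀ l ∈ V, s ≠ l → ∀ z z', Near p δ c w s l z z' →
  p.Red (δ ^ 2 * mm (fun j => δ * c j) w z z') (p.rs (c s) * p.rs (c l))⁻¹ ∧
  p.Red ((mm (fun j => δ * c j) w z z' /
      ((1 - (δ * c s)⁻¹) * (1 - (δ * c l)⁻¹)) - 1) / δ)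
    (-2 * gG V (fun j => p.rs (c j)) (fun j => p.rs (w j)) s l)

/-- TC3: the multiplier of a cycle of length two is in `multSpec 2` -/
def TC3S : Prop := ∀ (K : Type) [Field K] (d : ℕ) (f : RatMap K d) (w ι : Fin d → K) (z z' : K),
  2 ≤ d → Function.Injective w → (∀ j, ι j ≠ 0) → IsNf f w ι → TwoC ι w z z' →
  mm ι w z z' ∈ f.multSpec 2

/-- TC4: there are no other points of period two -/
def TC4S : Prop := ∀ (K κ : Type) [Field K] [IsAlgClosed K] [Field κ] (p : Pl K κ) (d : ℕ)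
  (f : RatMap K d) (c w : Fin d → K) (δ : K) (y y' : Fin d → Fin d → K), 2 ≤ d →
  Cfg p δ c w Finset.univ → IsNf f w (fun j => δ * c j) →
  (∀ s l, s ≠ l → Near p δ c w s l (y s l) (y' s l)) →
  ∀ x ∈ f.multSpec 2, x = (1 - (1 - ∑ j, δ * c j)⁻¹) ^ 2 ∨ (∃ j, x = (1 - (δ * c j)⁻¹) ^ 2) ∨
    ∃ a b, a ≠ b ∧ x = mm (fun j => δ * c j) w (y a b) (y' a b)

/-! ### Generic conditions and rigidity -/

/-- GG (from V1): generic parameters satisfy the open conditions -/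
def GGS : Prop := ∀ (K : Type) [Field K] [IsAlgClosed K] [CharZero K] (d : ℕ) (hd : 2 ≤ d)
  (w ι : Fin d → K), 3 ≤ d → NGen hd w ι →
  GGen (fun j => ι j / ι ⟨0, by omega⟩) w

/-- GR (from V1): a place at which `δ = ι 0` is small and the other parameters are constants -/
def GRS : Prop := ∀ (K : Type) [Field K] [IsAlgClosed K] [CharZero K] (d : ℕ) (hd : 2 ≤ d)
  (w ι : Fin d → K), NGen hd w ι →
  GGen (fun j => ι j / ι ⟨0, by omega⟩) w →
  ∃ (κ : Type) (_ : Field κ) (_ : CharZero κ) (p : Pl K κ),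
    Cfg p (ι ⟨0, by omega⟩) (fun j => ι j / ι ⟨0, by omega⟩) w Finset.univ ∧
    GGen (fun j => p.rs (ι j / ι ⟨0, by omega⟩)) (fun j => p.rs (w j))

/-- CLO: a coordinate in which the closest pairs are at distance one -/
def CLOS : Prop := ∀ (K κ : Type) [Field K] [Field κ] (p : Pl K κ) (d : ℕ) (w : Fin d → K),
  2 ≤ d → Function.Injective w → ∃ (a b : K) (V : Finset (Fin d)), a ≠ 0 ∧ 2 ≤ V.card ∧
    (∀ s ∈ V, a * w s + b ∈ p.O) ∧
    (∀ s ∈ V, ∀ l ∈ V, s ≠ l → p.rs (a * w s + b) ≠ p.rs (a * w l + b)) ∧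
    (∀ m, m ∉ V → a * w m + b ∉ p.O)

/-- GM (from TC2, TC3, TC4): matching cycles have equal multipliers -/
def GMS : Prop := ∀ (K κ : Type) [Field K] [IsAlgClosed K] [Field κ] (p : Pl K κ) (d : ℕ)
  (f g : RatMap K d) (c w w' : Fin d → K) (δ : K) (V : Finset (Fin d))
  (y y' : Fin d → Fin d → K), 2 ≤ d →
  Cfg p δ c w Finset.univ → GGen (fun j => p.rs (c j)) (fun j => p.rs (w j)) →
  IsNf f w (fun j => δ * c j) → (∀ s l, s ≠ l → Near p δ c w s l (y s l) (y' s l)) →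
  Cfg p δ c w' V → IsNf g w' (fun j => δ * c j) → Function.Injective w' →
  f.multSpec 2 = g.multSpec 2 →
  ∀ s ∈ V, ∀ l ∈ V, s ≠ l → ∀ z z', Near p δ c w' s l z z' →
    mm (fun j => δ * c j) w' z z' = mm (fun j => δ * c j) w (y s l) (y' s l)

/-- VU: the identity `∑ c s c l G s l = C ∑ c s c l` forces `V` to be everything -/
def VUS : Prop := ∀ (κ : Type) [Field κ] [CharZero κ] (d : ℕ) (c w y : Fin d → κ)
  (V : Finset (Fin d)), GGen c w → 2 ≤ V.card → (∀ s ∈ V, ∀ l ∈ V, s ≠ l → y s ≠ y l) →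
  (∀ s ∈ V, ∀ l ∈ V, s ≠ l → gG V c y s l = gG Finset.univ c w s l) → V = Finset.univ

/-- RIG: rigidity of configurations -/
def RIGS : Prop := ∀ (κ : Type) [Field κ] [CharZero κ] (d : ℕ) (c w y : Fin d → κ), 3 ≤ d →
  GGen c w → Function.Injective y →
  (∀ s l, s ≠ l → gG Finset.univ c y s l = gG Finset.univ c w s l) →
  ∃ r, r ≠ 0 ∧ ∀ s l, y s - y l = r * (w s - w l)

/-- LOC: local injectivity -/
def LOCS : Prop := ∀ (K κ : Type) [Field K] [Field κ] [CharZero κ] (p : Pl K κ) (d : ℕ)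
  (hd : 2 ≤ d) (c w w' : Fin d → K) (δ : K), Cfg p δ c w Finset.univ →
  Cfg p δ c w' Finset.univ → GGen (fun j => p.rs (c j)) (fun j => p.rs (w j)) →
  (∀ s, p.rs (w s) = p.rs (w' s)) → w ⟨0, by omega⟩ = w' ⟨0, by omega⟩ →
  w ⟨1, by omega⟩ = w' ⟨1, by omega⟩ →
  (∀ s l, s ≠ l → ∃ z z' y y', Near p δ c w s l z z' ∧ Near p δ c w' s l y y' ∧
    mm (fun j => δ * c j) w z z' = mm (fun j => δ * c j) w' y y') →
  w = w'

/-- GC (from TC1, TC2, GG, GR, CLO, GM, VU, RIG, LOC, NF2, MC1): the core -/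
def GCS : Prop := ∀ (K : Type) [Field K] [IsAlgClosed K] [CharZero K] (d : ℕ) (hd : 2 ≤ d)
  (f g : RatMap K d) (w w' ι : Fin d → K), NGen hd w ι → Function.Injective w' →
  IsNf f w ι → IsNf g w' ι → f.multSpec 2 = g.multSpec 2 →
  ∃ a b : K, a ≠ 0 ∧ ∀ j, w' j = a * w j + b

/-- GI (from NF1, NF2, NF3, MC1, MC2, GC): generic injectivity of the multiplier spectrum -/
def GIS : Prop := ∀ (K : Type) [Field K] [IsAlgClosed K] [CharZero K] (d : ℕ)
  (f g : RatMap K d), 2 ≤ d → AlgebraicIndependent ℚ f.coef → (∀ x ∈ f.multSpec 1, x ≠ 1) →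
  f.multSpec 1 = g.multSpec 1 → f.multSpec 2 = g.multSpec 2 → MobConj f g

/-- U4 (may use U1): conjugacy of ultraproducts -/
def U4S : Prop := ∀ (d : ℕ) (f g : ℕ → RatMap ℂ d) (F G : RatMap HC d),
  (∀ i, F.coef i = ((fun j => (f j).coef i : ℕ → ℂ) : HC)) →
  (∀ i, G.coef i = ((fun j => (g j).coef i : ℕ → ℂ) : HC)) → MobConj F G →
  ∃ j, MobConj (f j) (g j)

/-- RZ2 (from MAIN, FG, GI, U1, U2, U3, U4, E3): the final theorem -/
def RZ2S : Prop := ∀ d : ℕ, 2 ≤ d → ∃ W : MvPolynomial (CI d ⊕ CI d) ℚ, W ≠ 0 ∧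
  ∀ f : RatMap ℂ d, MvPolynomial.aeval f.coefs W ≠ 0 → ∀ g : RatMap ℂ d,
    (∀ n, 1 ≤ n → f.lenSpec n = g.lenSpec n) → MobConj f g ∨ MobConj f.conj g

end Pool.Agent.LenSpec
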