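import Pool.Agent.LenSpec.GIDefs
import Pool.Agent.LenSpec.PlBasic

/-!
CLO: a coordinate in which the closest pairs are at distance one.
-/

namespace Pool.Agent.LenSpec

open Polynomial

theorem CLO_holds : CLOS := by
  classical
  intro K κ _ _ p d w hd hw
  obtain ⟨⟨s₀, l₀⟩, hsl, -, hdvd⟩ := p.exists_dvd_all
    ((Finset.univ : Finset (Fin d × Fin d)).filter (fun q => q.1 ≠ q.2))
    (fun q => (w q.1 - w q.2)⁻¹) (by
      refine ⟨(⟨0, by omega⟩, ⟨1, by omega⟩), ?_, ?_⟩
      · simp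
      · apply inv_ne_zero
        rw [sub_ne_zero]
        intro h
        have := hw h
        simp at this)
  have hne : s₀ ≠ l₀ := by simpa using hsl
  have hw0 : w s₀ - w l₀ ≠ 0 := by
    rw [sub_ne_zero]
    exact fun h => hne (hw h)
  have hdvd' : ∀ s l, s ≠ l → (w s₀ - w l₀) / (w s - w l) ∈ p.O := by
    intro s l h
    have := hdvd (s, l) (by simpa using h)
    simp only [] at this
    rwa [div_inv_eq_mul, mul_comm, ← div_eq_mul_inv] at this
  refine ⟨(w s₀ - w l₀)⁻¹, -((w s₀ - w l₀)⁻¹ * w s₀),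
    Finset.univ.filter (fun j => (w s₀ - w l₀)⁻¹ * w j + -((w s₀ - w l₀)⁻¹ * w s₀) ∈ p.O),
    inv_ne_zero hw0, ?_, ?_, ?_, ?_⟩
  · have h1 : ({s₀, l₀} : Finset (Fin d)) ⊆ Finset.univ.filter
        (fun j => (w s₀ - w l₀)⁻¹ * w j + -((w s₀ - w l₀)⁻¹ * w s₀) ∈ p.O) := by
      intro j hj
      rw [Finset.mem_filter]
      refine ⟨Finset.mem_univ _, ?_⟩
      rw [Finset.mem_insert, Finset.mem_singleton] at hj
      rcases hj with rfl | rfl
      · rw [add_neg_cancel]
        exact p.O.zero_mem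
      · have : (w s₀ - w j)⁻¹ * w j + -((w s₀ - w j)⁻¹ * w s₀) = -1 := by
          field_simp
          ring
        rw [this]
        exact p.O.neg_mem p.O.one_mem
    calc 2 = ({s₀, l₀} : Finset (Fin d)).card := by
            rw [Finset.card_pair hne]
      _ ≤ _ := Finset.card_le_card h1
  · intro s hs
    exact (Finset.mem_filter.1 hs).2
  · intro s hs l hl hsl' heq
    have h1 := Pl.red_rs (Finset.mem_filter.1 hs).2
    have h2 := Pl.red_rs (Finset.mem_filter.1 hl).2
    rw [heq] at h1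
    have h3 := h1.sub h2
    rw [sub_self] at h3
    have h4 := Pl.red_rs (hdvd' s l hsl')
    have h5 := h3.mul h4
    rw [zero_mul] at h5
    have hwsl : w s - w l ≠ 0 := by
      rw [sub_ne_zero]
      exact fun h => hsl' (hw h)
    have h6 : ((w s₀ - w l₀)⁻¹ * w s + -((w s₀ - w l₀)⁻¹ * w s₀) -
        ((w s₀ - w l₀)⁻¹ * w l + -((w s₀ - w l₀)⁻¹ * w s₀))) *
        ((w s₀ - w l₀) / (w s - w l)) = 1 := by
      field_simp
      ring
    rw [h6] at h5
    exact one_ne_zero (h5.unique Pl.red_one).symm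
  · intro m hm h
    exact hm (Finset.mem_filter.2 ⟨Finset.mem_univ _, h⟩)

end Pool.Agent.LenSpec
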