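import Pool.Agent.LenSpec.GIDefs
import Pool.Agent.LenSpec.PlBasic

/-!
GC: the core of the generic injectivity of the multiplier spectrum.
-/

namespace Pool.Agent.LenSpec

open Polynomial

namespace GC

variable {K κ : Type} [Field K] [Field κ] {d : ℕ}

theorem conj_nf [IsAlgClosed K] (hNF2 : NF2S) (hMC1 : MC1S) (hd : 1 ≤ d) (g : RatMap K d)
    (w ι : Fin d → K) (a b : K) (ha : a ≠ 0) (hw : Function.Injective w) (hι : ∀ j, ι j ≠ 0)
    (hg : IsNf g w ι) : ∃ g' : RatMap K d, IsNf g' (fun j => a * w j + b) ι ∧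
      ∀ n, g'.multSpec n = g.multSpec n := by
  obtain ⟨g', h1, h2⟩ := hNF2 K d g w ι a b hd ha hw hι hg
  exact ⟨g', h1, fun n => (hMC1 K d g g' hd h2 n).symm⟩

end GC

theorem GC_holds (hGG : GGS) (hGR : GRS) (hCLO : CLOS) (hTC1 : TC1S) (hTC2 : TC2S) (hGM : GMS)
    (hVU : VUS) (hRIG : RIGS) (hLOC : LOCS) (hNF2 : NF2S) (hMC1 : MC1S) : GCS := by
  intro K _ _ _ d hd f g w w' ι hgen hw' hf hg hms
  classical
  have hd1 : 1 ≤ d := by omega
  set i0 : Fin d := ⟨0, by omega⟩ with hi0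
  set i1 : Fin d := ⟨1, by omega⟩ with hi1
  have h01 : i1 ≠ i0 := by
    rw [hi0, hi1, Ne, Fin.mk.injEq]
    omega
  have hw01 : w' i1 - w' i0 ≠ 0 := by
    rw [sub_ne_zero]
    intro h
    exact h01 (hw' h)
  rcases Nat.lt_or_ge d 3 with hd3 | hd3
  · have hd2 : d = 2 := by omega
    subst hd2
    refine ⟨w' i1 - w' i0, w' i0, hw01, ?_⟩
    intro j
    have hw0 : w i0 = 0 := hgen.w0
    have hw1 : w i1 = 1 := hgen.w1
    have hj : j = i0 ∨ j = i1 := by
      rcases j with ⟨j, hj⟩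
      rw [hi0, hi1, Fin.mk.injEq, Fin.mk.injEq]
      omega
    rcases hj with rfl | rfl
    · rw [hw0]
      ring
    · rw [hw1]
      ring
  · have hGgen := hGG K d hd w ι hd3 hgen
    obtain ⟨κ, _, _, p, hcfg, hGgen'⟩ := hGR K d hd w ι hgen hGgen
    set δ : K := ι i0 with hδ
    set c : Fin d → K := fun j => ι j / δ with hc
    have hδ0 : δ ≠ 0 := hcfg.δ_ne
    have hιc : ι = fun j => δ * c j := by
      funext j
      rw [hc]
      simp only
      field_simp
    have hι0 : ∀ j, ι j ≠ 0 := by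
      intro j h0
      apply hGgen.c_ne j
      change ι j / ι i0 = 0
      rw [h0, zero_div]
    have hf' : IsNf f w (fun j => δ * c j) := by rwa [← hιc]
    -- the cycles of `f`
    have hex : ∀ s l, s ≠ l → ∃ z z', Near p δ c w s l z z' := fun s l hsl =>
      hTC1 K κ p d c w δ Finset.univ hcfg s (Finset.mem_univ s) l (Finset.mem_univ l) hsl
    have hex' : ∀ s l, ∃ z z', s ≠ l → Near p δ c w s l z z' := by
      intro s l
      by_cases hsl : s = l
      · exact ⟨0, 0, fun h => absurd hsl h⟩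
      · obtain ⟨z, z', h⟩ := hex s l hsl
        exact ⟨z, z', fun _ => h⟩
    choose y y' hy using hex'
    -- closest pairs
    obtain ⟨a, b, V, ha, hV2, hVO, hVne, hVinf⟩ := hCLO K κ p d w' hd hw'
    obtain ⟨g₂, hg₂, hms₂⟩ := GC.conj_nf hNF2 hMC1 hd1 g w' ι a b ha hw' hι0 hg
    set w₂ : Fin d → K := fun j => a * w' j + b with hw₂
    have hw₂inj : Function.Injective w₂ := by
      intro j l hjl
      apply hw'
      rw [hw₂] at hjl
      simp only at hjl
      exact mul_left_cancel₀ ha (add_right_cancel hjl)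
    have hcfg₂ : Cfg p δ c w₂ V :=
      ⟨hcfg.δ_ne, hcfg.δ_red, hcfg.c_mem, hcfg.c_ne, hVO, hVne, hVinf⟩
    have hg₂' : IsNf g₂ w₂ (fun j => δ * c j) := by rwa [← hιc]
    have hmsf : f.multSpec 2 = g₂.multSpec 2 := by rw [hms₂ 2, hms]
    have two : (2 : κ) ≠ 0 := two_ne_zero
    have hG : ∀ s ∈ V, ∀ l ∈ V, s ≠ l →
        gG V (fun j => p.rs (c j)) (fun j => p.rs (w₂ j)) s l =
          gG Finset.univ (fun j => p.rs (c j)) (fun j => p.rs (w j)) s l := by
      intro s hs l hl hsl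
      obtain ⟨z, z', hz⟩ := hTC1 K κ p d c w₂ δ V hcfg₂ s hs l hl hsl
      have h1 := hGM K κ p d f g₂ c w w₂ δ V y y' hd hcfg hGgen' hf' hy hcfg₂ hg₂' hw₂inj hmsf
        s hs l hl hsl z z' hz
      have h2 := (hTC2 K κ p d c w₂ δ V hcfg₂ s hs l hl hsl z z' hz).2
      have h3 := (hTC2 K κ p d c w δ Finset.univ hcfg s (Finset.mem_univ s) l
        (Finset.mem_univ l) hsl _ _ (hy s l hsl)).2
      rw [h1] at h2
      have h4 := h2.unique h3
      have h5 : (-2 : κ) ≠ 0 := neg_ne_zero.2 two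
      exact mul_left_cancel₀ h5 h4
    have hVuniv : V = Finset.univ :=
      hVU κ d (fun j => p.rs (c j)) (fun j => p.rs (w j)) (fun j => p.rs (w₂ j)) V hGgen' hV2
        hVne hG
    rw [hVuniv] at hVO hVne hG hcfg₂
    have hrsinj : Function.Injective (fun j => p.rs (w₂ j)) := by
      intro s l hsl
      by_contra hne
      exact hVne s (Finset.mem_univ s) l (Finset.mem_univ l) hne hsl
    obtain ⟨r, hr, hrig⟩ := hRIG κ d (fun j => p.rs (c j)) (fun j => p.rs (w j))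
      (fun j => p.rs (w₂ j)) hd3 hGgen' hrsinj
      (fun s l hsl => hG s (Finset.mem_univ s) l (Finset.mem_univ l) hsl)
    -- normalise
    have hw0 : w i0 = 0 := hgen.w0
    have hw1 : w i1 = 1 := hgen.w1
    have hD : w₂ i1 - w₂ i0 ≠ 0 := by
      rw [sub_ne_zero]
      intro h
      exact h01 (hw₂inj h)
    obtain ⟨g₃, hg₃, hms₃⟩ := GC.conj_nf hNF2 hMC1 hd1 g₂ w₂ ι (w₂ i1 - w₂ i0)⁻¹
      (-((w₂ i1 - w₂ i0)⁻¹ * w₂ i0)) (inv_ne_zero hD) hw₂inj hι0 hg₂
    set w₃ : Fin d → K := fun j => (w₂ i1 - w₂ i0)⁻¹ * w₂ j + -((w₂ i1 - w₂ i0)⁻¹ * w₂ i0)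
      with hw₃
    have hw₃0 : w i0 = w₃ i0 := by
      rw [hw0, hw₃]
      simp
    have hw₃1 : w i1 = w₃ i1 := by
      rw [hw1, hw₃]
      simp only
      field_simp
      ring
    have hred₂ : ∀ j, p.Red (w₂ j) (p.rs (w₂ j)) := fun j => Pl.red_rs (hVO j (Finset.mem_univ j))
    have hred0 : p.rs (w i0) = 0 := by
      rw [hw0]
      exact Pl.red_zero.rs_eq
    have hred1 : p.rs (w i1) = 1 := by
      rw [hw1]
      exact Pl.red_one.rs_eq
    have hr1 : p.rs (w₂ i1) - p.rs (w₂ i0) = r := by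
      have := hrig i1 i0
      rw [this, hred0, hred1]
      ring
    have hred₃ : ∀ j, p.Red (w₃ j) (p.rs (w j)) := by
      intro j
      have h1 : p.Red ((w₂ j - w₂ i0) / (w₂ i1 - w₂ i0))
          ((p.rs (w₂ j) - p.rs (w₂ i0)) / (p.rs (w₂ i1) - p.rs (w₂ i0))) :=
        ((hred₂ j).sub (hred₂ i0)).div ((hred₂ i1).sub (hred₂ i0)) (by rw [hr1]; exact hr)
      refine h1.eq ?_ ?_
      · rw [hw₃]
        simp only
        field_simp
        ring
      · rw [hr1]
        have := hrig j i0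
        rw [this, hred0]
        field_simp
        ring
    have hcfg₃ : Cfg p δ c w₃ Finset.univ := by
      refine ⟨hcfg.δ_ne, hcfg.δ_red, hcfg.c_mem, hcfg.c_ne, fun s _ => (hred₃ s).mem, ?_, ?_⟩
      · intro s hs l hl hsl
        rw [(hred₃ s).rs_eq, (hred₃ l).rs_eq]
        exact hcfg.w_ne s hs l hl hsl
      · intro m hm
        exact absurd (Finset.mem_univ m) hm
    have hw₃inj : Function.Injective w₃ := by
      intro j l hjl
      apply hw₂inj
      rw [hw₃] at hjl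
      simp only at hjl
      exact mul_left_cancel₀ (inv_ne_zero hD) (add_right_cancel hjl)
    have hg₃' : IsNf g₃ w₃ (fun j => δ * c j) := by rwa [← hιc]
    have hmsf₃ : f.multSpec 2 = g₃.multSpec 2 := by rw [hms₃ 2, hmsf]
    have heq : w = w₃ := by
      refine hLOC K κ p d hd c w w₃ δ hcfg hcfg₃ hGgen' (fun s => ((hred₃ s).rs_eq).symm) hw₃0
        hw₃1 ?_
      intro s l hsl
      obtain ⟨z, z', hz⟩ := hTC1 K κ p d c w₃ δ Finset.univ hcfg₃ s (Finset.mem_univ s) l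
        (Finset.mem_univ l) hsl
      have h1 := hGM K κ p d f g₃ c w w₃ δ Finset.univ y y' hd hcfg hGgen' hf' hy hcfg₃ hg₃'
        hw₃inj hmsf₃ s (Finset.mem_univ s) l (Finset.mem_univ l) hsl z z' hz
      exact ⟨y s l, y' s l, z, z', hy s l hsl, hz, h1.symm⟩
    -- conclusion
    refine ⟨a⁻¹ * (w₂ i1 - w₂ i0), a⁻¹ * (w₂ i0 - b), mul_ne_zero (inv_ne_zero ha) hD, ?_⟩
    intro j
    have h1 : w j = w₃ j := congrFun heq j
    rw [h1, hw₃]
    simp only
    have h2 : w' j = a⁻¹ * (w₂ j - b) := by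
      rw [hw₂]
      simp only
      field_simp
      ring
    rw [h2]
    field_simp
    ring

end Pool.Agent.LenSpec
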