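import Pool.Agent.LenSpec.GIDefs
import Pool.Agent.LenSpec.PlBasic

/-!
Module GG: generic parameters satisfy the open conditions.
-/

namespace Pool.Agent.LenSpec

open Polynomial

section gg

variable {K : Type} [Field K] {d : ℕ}

/-- specialisation at natural numbers -/
theorem gg_place (hV : V1S) [IsAlgClosed K] [CharZero K] (hd : 2 ≤ d) {w ι : Fin d → K}
    (h : NGen hd w ι) (A B : Fin d → ℕ) (hB0 : B ⟨0, by omega⟩ = 0)
    (hB1 : B ⟨1, by omega⟩ = 1) :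
    ∃ (κ : Type) (_ : Field κ) (_ : CharZero κ) (p : Pl K κ),
      (∀ j, p.Red (ι j) ((A j : ℕ) : κ)) ∧ ∀ j, p.Red (w j) ((B j : ℕ) : κ) := by
  set x : Fin d ⊕ Fin (d - 2) → K :=
    Sum.elim ι (fun j : Fin (d - 2) => w ⟨j + 2, by omega⟩) with hx
  set a : Fin d ⊕ Fin (d - 2) → ℕ :=
    Sum.elim A (fun j : Fin (d - 2) => B ⟨j + 2, by omega⟩) with ha
  have hind : AlgebraicIndependent (⊥ : IntermediateField ℚ K) x := by
    have h1 := h.indep
    have := h1.ringHom_of_comp_eq (algebraMap ℚ (⊥ : IntermediateField ℚ K)) (RingHom.id K)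
      (fun y => by
        obtain ⟨q, hq⟩ := IntermediateField.mem_bot.1 y.2
        exact ⟨q, Subtype.ext hq⟩) Function.injective_id (by ext; simp)
    simpa using this
  obtain ⟨κ, hκ, hκ0, p, -, -, hp⟩ := hV K ⊥ (Fin d ⊕ Fin (d - 2)) x (fun i => ((a i : ℕ) : K))
    hind (fun i => by
      have : ((a i : ℕ) : K) = algebraMap ℚ K (a i : ℕ) := by simp
      rw [this]
      exact IntermediateField.algebraMap_mem _ _)
  refine ⟨κ, hκ, hκ0, p, ?_, ?_⟩
  · intro j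
    have h1 := (hp (Sum.inl j)).add (Pl.red_natCast (p := p) (a (Sum.inl j)))
    exact h1.eq (by simp [hx, ha]) (by simp [ha])
  · intro j
    by_cases hj0 : (j : ℕ) = 0
    · have hj : j = ⟨0, by omega⟩ := Fin.ext hj0
      rw [hj, hB0, h.w0]
      exact Pl.red_zero.eq rfl (by simp)
    · by_cases hj1 : (j : ℕ) = 1
      · have hj : j = ⟨1, by omega⟩ := Fin.ext hj1
        rw [hj, hB1, h.w1]
        exact Pl.red_one.eq rfl (by simp)
      · have hj2 : (j : ℕ) - 2 < d - 2 := by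
          have := j.2
          omega
        have h1 := (hp (Sum.inr ⟨(j : ℕ) - 2, hj2⟩)).add
          (Pl.red_natCast (p := p) (a (Sum.inr ⟨(j : ℕ) - 2, hj2⟩)))
        have hjj : (⟨(j : ℕ) - 2 + 2, by omega⟩ : Fin d) = j := Fin.ext (by simp; omega)
        refine h1.eq ?_ ?_
        · simp only [hx, ha, Sum.elim_inr]
          rw [hjj]; ring
        · simp only [ha, Sum.elim_inr]
          rw [hjj, zero_add]

theorem gg_red_eE {κ : Type} [Field κ] {p : Pl K κ} {c w : Fin d → K} {A B : Fin d → κ}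
    (hc : ∀ j, p.Red (c j) (A j)) (hw : ∀ j, p.Red (w j) (B j))
    (hB : Function.Injective B) (V : Finset (Fin d)) (s : Fin d) :
    p.Red (eE V c w s) (eE V A B s) := by
  unfold eE
  refine Pl.red_sum _ fun j hj => ?_
  refine (hc j).div ((hw s).sub (hw j)) ?_
  rw [sub_ne_zero]
  intro h
  exact (Finset.mem_erase.1 hj).1 (hB h).symm

theorem gg_eE_div (V : Finset (Fin d)) (c w : Fin d → K) (t : K) (s : Fin d) :
    eE V (fun j => c j / t) w s = eE V c w s / t := by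
  unfold eE
  rw [Finset.sum_div]
  refine Finset.sum_congr rfl fun j _ => ?_
  rw [div_right_comm]

theorem gg_iota_ne (hV : V1S) [IsAlgClosed K] [CharZero K] (hd : 2 ≤ d) {w ι : Fin d → K}
    (h : NGen hd w ι) (j : Fin d) : ι j ≠ 0 := by
  obtain ⟨κ, _, _, p, h1, -⟩ := gg_place hV hd h (fun _ => 1) (fun j => j) rfl rfl
  exact (h1 j).ne_zero (by simp)

theorem gg_inj (hV : V1S) [IsAlgClosed K] [CharZero K] (hd : 2 ≤ d) {w ι : Fin d → K}
    (h : NGen hd w ι) : Function.Injective w := by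
  obtain ⟨κ, _, _, p, -, h2⟩ := gg_place hV hd h (fun _ => 1) (fun j => j) rfl rfl
  intro s l hsl
  have h3 := h2 s
  rw [hsl] at h3
  have h4 := h3.unique (h2 l)
  exact Fin.ext (by exact_mod_cast h4)

theorem gg_natInj {κ : Type} [Field κ] [CharZero κ] :
    Function.Injective (fun j : Fin d => (((j : ℕ) : ℕ) : κ)) := by
  intro s l hsl
  have h : ((s : ℕ) : κ) = ((l : ℕ) : κ) := hsl
  exact Fin.ext (by exact_mod_cast h)

theorem gg_e1 (hV : V1S) [IsAlgClosed K] [CharZero K] (hd : 2 ≤ d) {w ι : Fin d → K}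
    (h : NGen hd w ι) (s l : Fin d) (hsl : s ≠ l) :
    eE Finset.univ ι w s ≠ eE Finset.univ ι w l := by
  classical
  obtain ⟨κ, _, _, p, h1, h2⟩ := gg_place hV hd h (fun j => if j = l then 1 else 0)
    (fun j => j) rfl rfl
  intro he
  have h3 := gg_red_eE h1 h2 gg_natInj Finset.univ s
  have h4 := gg_red_eE h1 h2 gg_natInj Finset.univ l
  rw [he] at h3
  have h5 := h3.unique h4
  unfold eE at h5
  rw [Finset.sum_eq_single l (fun j _ hj => by simp [hj])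
    (fun hl => absurd (Finset.mem_erase.2 ⟨hsl.symm, Finset.mem_univ _⟩) hl)] at h5
  rw [Finset.sum_eq_zero (s := Finset.univ.erase l) (fun j hj => by
    simp [(Finset.mem_erase.1 hj).1])] at h5
  simp only [if_true, Nat.cast_one, one_div, inv_eq_zero, sub_eq_zero] at h5
  exact hsl (Fin.ext (by exact_mod_cast h5))

theorem gg_pow {s l m : ℕ} (h : 2 ^ s + 2 ^ l = 2 * 2 ^ m) : s = l := by
  rcases lt_trichotomy s l with h1 | h1 | h1
  · exfalso
    have h2 : 2 ^ s < 2 ^ l := Nat.pow_lt_pow_right (by norm_num) h1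
    have h3 : 0 < 2 ^ s := by positivity
    have h4 : 2 ^ l < 2 ^ (m + 1) := by rw [pow_succ]; omega
    have h5 : 2 ^ (m + 1) < 2 ^ (l + 1) := by rw [pow_succ, pow_succ]; omega
    have h6 := (Nat.pow_lt_pow_iff_right (by norm_num : 1 < 2)).1 h4
    have h7 := (Nat.pow_lt_pow_iff_right (by norm_num : 1 < 2)).1 h5
    omega
  · exact h1
  · exfalso
    have h2 : 2 ^ l < 2 ^ s := Nat.pow_lt_pow_right (by norm_num) h1
    have h3 : 0 < 2 ^ l := by positivity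
    have h4 : 2 ^ s < 2 ^ (m + 1) := by rw [pow_succ]; omega
    have h5 : 2 ^ (m + 1) < 2 ^ (s + 1) := by rw [pow_succ, pow_succ]; omega
    have h6 := (Nat.pow_lt_pow_iff_right (by norm_num : 1 < 2)).1 h4
    have h7 := (Nat.pow_lt_pow_iff_right (by norm_num : 1 < 2)).1 h5
    omega

theorem gg_e2 (hV : V1S) [IsAlgClosed K] [CharZero K] (hd : 2 ≤ d) {w ι : Fin d → K}
    (h : NGen hd w ι) (s l m : Fin d) (hsl : s ≠ l) (hlm : l ≠ m) (hsm : s ≠ m) :
    (w s - w m) * (eE Finset.univ ι w l - eE Finset.univ ι w m) -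
      (w l - w m) * (eE Finset.univ ι w s - eE Finset.univ ι w m) ≠ 0 := by
  classical
  obtain ⟨κ, _, _, p, h1, h2⟩ := gg_place hV hd h (fun j => if j = m then 1 else 0)
    (fun j => 2 ^ (j : ℕ) - 1) rfl rfl
  have hcast : ∀ j : Fin d, ((2 ^ (j : ℕ) - 1 : ℕ) : κ) = 2 ^ (j : ℕ) - 1 := by
    intro j
    rw [Nat.cast_sub Nat.one_le_two_pow]
    push_cast
    ring
  have hinj : Function.Injective (fun j : Fin d => ((2 ^ (j : ℕ) - 1 : ℕ) : κ)) := by
    intro a b hab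
    simp only [hcast] at hab
    have h3 : (2 : κ) ^ (a : ℕ) = 2 ^ (b : ℕ) := by linear_combination hab
    have h4 : 2 ^ (a : ℕ) = 2 ^ (b : ℕ) := by exact_mod_cast h3
    exact Fin.ext (Nat.pow_right_injective le_rfl h4)
  have key : ∀ a : Fin d, a ≠ m → p.Red (eE Finset.univ ι w a)
      (1 / (((2 ^ (a : ℕ) - 1 : ℕ) : κ) - ((2 ^ (m : ℕ) - 1 : ℕ) : κ))) := by
    intro a ha
    refine (gg_red_eE h1 h2 hinj Finset.univ a).eq rfl ?_
    unfold eE
    rw [Finset.sum_eq_single m (fun j _ hj => by simp [hj])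
      (fun hl => absurd (Finset.mem_erase.2 ⟨ha.symm, Finset.mem_univ _⟩) hl)]
    simp
  have key0 : p.Red (eE Finset.univ ι w m) 0 := by
    refine (gg_red_eE h1 h2 hinj Finset.univ m).eq rfl ?_
    unfold eE
    exact Finset.sum_eq_zero (fun j hj => by simp [(Finset.mem_erase.1 hj).1])
  have hred := (((h2 s).sub (h2 m)).mul ((key l hlm).sub key0)).sub
    (((h2 l).sub (h2 m)).mul ((key s hsm).sub key0))
  refine hred.ne_zero ?_
  set X : κ := ((2 ^ (s : ℕ) - 1 : ℕ) : κ) - ((2 ^ (m : ℕ) - 1 : ℕ) : κ) with hX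
  set Y : κ := ((2 ^ (l : ℕ) - 1 : ℕ) : κ) - ((2 ^ (m : ℕ) - 1 : ℕ) : κ) with hY
  have hX0 : X ≠ 0 := fun h0 => hsm (hinj (sub_eq_zero.1 h0))
  have hY0 : Y ≠ 0 := fun h0 => hlm (hinj (sub_eq_zero.1 h0))
  intro h0
  have h5 : (X - Y) * (X + Y) = 0 := by
    field_simp at h0
    linear_combination h0
  rcases mul_eq_zero.1 h5 with h6 | h6
  · apply hsl
    apply hinj
    have : X - Y = ((2 ^ (s : ℕ) - 1 : ℕ) : κ) - ((2 ^ (l : ℕ) - 1 : ℕ) : κ) := by
      rw [hX, hY]; ring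
    exact sub_eq_zero.1 (this ▸ h6)
  · rw [hX, hY, hcast, hcast, hcast] at h6
    have h7 : (2 : κ) ^ (s : ℕ) + 2 ^ (l : ℕ) = 2 * 2 ^ (m : ℕ) := by linear_combination h6
    have h8 : 2 ^ (s : ℕ) + 2 ^ (l : ℕ) = 2 * 2 ^ (m : ℕ) := by exact_mod_cast h7
    exact hsl (Fin.ext (gg_pow h8))

theorem gg_e3 (hV : V1S) [IsAlgClosed K] [CharZero K] (hd : 2 ≤ d) {w ι : Fin d → K}
    (h : NGen hd w ι) (V : Finset (Fin d)) (hV1 : V ≠ Finset.univ) (hV2 : 2 ≤ V.card) :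
    ∑ m ∈ Vᶜ, ∑ s ∈ V, ∑ l ∈ V, ι m * ι s * ι l * (w s - w l) ^ 2 /
      ((w s - w m) * (w l - w m)) ≠ 0 := by
  classical
  obtain ⟨m₀, hm₀⟩ : ∃ m₀, m₀ ∉ V := by
    by_contra hcon
    push Not at hcon
    exact hV1 (Finset.eq_univ_iff_forall.2 hcon)
  obtain ⟨s₀, hs₀, l₀, hl₀, hsl⟩ := Finset.one_lt_card.1 hV2
  set A : Fin d → ℕ := fun j => if j = m₀ ∨ j = s₀ ∨ j = l₀ then 1 else 0 with hA
  obtain ⟨κ, _, _, p, h1, h2⟩ := gg_place hV hd h A (fun j => j) rfl rfl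
  have hinj : Function.Injective (fun j : Fin d => (((j : ℕ) : ℕ) : κ)) := gg_natInj
  have hred : p.Red (∑ m ∈ Vᶜ, ∑ s ∈ V, ∑ l ∈ V, ι m * ι s * ι l * (w s - w l) ^ 2 /
      ((w s - w m) * (w l - w m)))
      (∑ m ∈ Vᶜ, ∑ s ∈ V, ∑ l ∈ V, (A m : κ) * A s * A l * (((s : ℕ) : κ) - ((l : ℕ) : κ)) ^ 2 /
      ((((s : ℕ) : κ) - ((m : ℕ) : κ)) * (((l : ℕ) : κ) - ((m : ℕ) : κ)))) := by
    refine Pl.red_sum _ fun m hm => Pl.red_sum _ fun s hs => Pl.red_sum _ fun l hl => ?_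
    have hmV : m ∉ V := Finset.mem_compl.1 hm
    refine ((((h1 m).mul (h1 s)).mul (h1 l)).mul (((h2 s).sub (h2 l)).pow 2)).div
      (((h2 s).sub (h2 m)).mul ((h2 l).sub (h2 m))) ?_
    refine mul_ne_zero ?_ ?_
    · rw [sub_ne_zero]; intro h0; exact hmV (hinj h0 ▸ hs)
    · rw [sub_ne_zero]; intro h0; exact hmV (hinj h0 ▸ hl)
  refine hred.ne_zero ?_
  have hAz : ∀ j, j ≠ m₀ → j ≠ s₀ → j ≠ l₀ → (A j : κ) = 0 := by
    intro j a1 a2 a3
    simp [hA, a1, a2, a3]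
  have hAm : (A m₀ : κ) = 1 := by simp [hA]
  have hAs : (A s₀ : κ) = 1 := by simp [hA]
  have hAl : (A l₀ : κ) = 1 := by simp [hA]
  rw [Finset.sum_eq_single m₀]
  · have hin : ∀ s, ∑ l ∈ V, (A m₀ : κ) * A s * A l * (((s : ℕ) : κ) - ((l : ℕ) : κ)) ^ 2 /
        ((((s : ℕ) : κ) - ((m₀ : ℕ) : κ)) * (((l : ℕ) : κ) - ((m₀ : ℕ) : κ)))
        = (A s : κ) * (((s : ℕ) : κ) - ((s₀ : ℕ) : κ)) ^ 2 /
        ((((s : ℕ) : κ) - ((m₀ : ℕ) : κ)) * (((s₀ : ℕ) : κ) - ((m₀ : ℕ) : κ)))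
        + (A s : κ) * (((s : ℕ) : κ) - ((l₀ : ℕ) : κ)) ^ 2 /
        ((((s : ℕ) : κ) - ((m₀ : ℕ) : κ)) * (((l₀ : ℕ) : κ) - ((m₀ : ℕ) : κ))) := by
      intro s
      rw [Finset.sum_eq_add_of_mem s₀ l₀ hs₀ hl₀ hsl]
      · rw [hAm, hAs, hAl]; ring
      · intro c hc hne
        rw [hAz c (fun h0 => hm₀ (h0 ▸ hc)) hne.1 hne.2]
        ring
    rw [Finset.sum_congr rfl fun s _ => hin s]
    rw [Finset.sum_eq_add_of_mem s₀ l₀ hs₀ hl₀ hsl]
    · rw [hAs, hAl]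
      have n1 : ((s₀ : ℕ) : κ) - ((m₀ : ℕ) : κ) ≠ 0 := by
        rw [sub_ne_zero]; intro h0; exact hm₀ (hinj h0 ▸ hs₀)
      have n2 : ((l₀ : ℕ) : κ) - ((m₀ : ℕ) : κ) ≠ 0 := by
        rw [sub_ne_zero]; intro h0; exact hm₀ (hinj h0 ▸ hl₀)
      have n3 : ((s₀ : ℕ) : κ) - ((l₀ : ℕ) : κ) ≠ 0 := by
        rw [sub_ne_zero]; intro h0; exact hsl (hinj h0)
      have e : (1 : κ) * (((s₀ : ℕ) : κ) - ((s₀ : ℕ) : κ)) ^ 2 /
          ((((s₀ : ℕ) : κ) - ((m₀ : ℕ) : κ)) * (((s₀ : ℕ) : κ) - ((m₀ : ℕ) : κ)))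
          + 1 * (((s₀ : ℕ) : κ) - ((l₀ : ℕ) : κ)) ^ 2 /
          ((((s₀ : ℕ) : κ) - ((m₀ : ℕ) : κ)) * (((l₀ : ℕ) : κ) - ((m₀ : ℕ) : κ)))
          + (1 * (((l₀ : ℕ) : κ) - ((s₀ : ℕ) : κ)) ^ 2 /
          ((((l₀ : ℕ) : κ) - ((m₀ : ℕ) : κ)) * (((s₀ : ℕ) : κ) - ((m₀ : ℕ) : κ)))
          + 1 * (((l₀ : ℕ) : κ) - ((l₀ : ℕ) : κ)) ^ 2 /
          ((((l₀ : ℕ) : κ) - ((m₀ : ℕ) : κ)) * (((l₀ : ℕ) : κ) - ((m₀ : ℕ) : κ))))
          = 2 * (((s₀ : ℕ) : κ) - ((l₀ : ℕ) : κ)) ^ 2 /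
          ((((s₀ : ℕ) : κ) - ((m₀ : ℕ) : κ)) * (((l₀ : ℕ) : κ) - ((m₀ : ℕ) : κ))) := by
        field_simp
        ring
      rw [e]
      exact div_ne_zero (mul_ne_zero two_ne_zero (pow_ne_zero 2 n3)) (mul_ne_zero n1 n2)
    · intro c hc hne
      rw [hAz c (fun h0 => hm₀ (h0 ▸ hc)) hne.1 hne.2]
      ring
  · intro m hm hne
    have hmV : m ∉ V := Finset.mem_compl.1 hm
    have : (A m : κ) = 0 := hAz m hne (fun h0 => hmV (h0 ▸ hs₀)) (fun h0 => hmV (h0 ▸ hl₀))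
    refine Finset.sum_eq_zero fun s _ => Finset.sum_eq_zero fun l _ => ?_
    rw [this]; ring
  · intro hm
    exact absurd (Finset.mem_compl.2 hm₀) hm

theorem gg_e5 (hV : V1S) [IsAlgClosed K] [CharZero K] (hd : 2 ≤ d) {w ι : Fin d → K}
    (h : NGen hd w ι) (a b s l : Fin d) (hsl : s ≠ l) (he : ι a * ι b = ι s * ι l) :
    (a = s ∧ b = l) ∨ (a = l ∧ b = s) := by
  classical
  have key : ∀ s l : Fin d, ι a * ι b = ι s * ι l → s = a ∨ s = b := by
    intro s l he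
    by_contra hcon
    push Not at hcon
    obtain ⟨κ, _, _, p, h1, -⟩ := gg_place hV hd h (fun j => if j = s then 0 else 1)
      (fun j => j) rfl rfl
    have h3 := (h1 a).mul (h1 b)
    have h4 := (h1 s).mul (h1 l)
    rw [he] at h3
    have h5 := h3.unique h4
    simp [hcon.1.symm, hcon.2.symm] at h5
  have k1 := key s l he
  have k2 := key l s (by rw [he, mul_comm])
  rcases k1 with k1 | k1 <;> rcases k2 with k2 | k2
  · exact absurd (k1.trans k2.symm) hsl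
  · exact Or.inl ⟨k1.symm, k2.symm⟩
  · exact Or.inr ⟨k2.symm, k1.symm⟩
  · exact absurd (k1.trans k2.symm) hsl

theorem gg_e4 (hV : V1S) [IsAlgClosed K] [CharZero K] (hd : 2 ≤ d) {w ι : Fin d → K}
    (hd3 : 3 ≤ d) (h : NGen hd w ι) :
    ¬ ∀ s l, ∑ j ∈ Finset.univ.erase s, ι j /
        (eE Finset.univ ι w s - eE Finset.univ ι w j) -
      ∑ j ∈ Finset.univ.erase l, ι j / (eE Finset.univ ι w l - eE Finset.univ ι w j) =
      w s - w l := by
  classical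
  intro hall
  set i0 : Fin d := ⟨0, by omega⟩ with hi0
  set i1 : Fin d := ⟨1, by omega⟩ with hi1
  set i2 : Fin d := ⟨2, by omega⟩ with hi2
  have h01 : i0 ≠ i1 := by simp [hi0, hi1]
  have h02 : i0 ≠ i2 := by simp [hi0, hi2]
  have h12 : i1 ≠ i2 := by simp [hi1, hi2]
  obtain ⟨κ, _, _, p, h1, h2⟩ := gg_place hV hd h (fun j => if j = i0 ∨ j = i1 then 1 else 0)
    (fun j => j) rfl rfl
  set A : Fin d → κ := fun j => ((if j = i0 ∨ j = i1 then 1 else 0 : ℕ) : κ) with hA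
  set B : Fin d → κ := fun j => (((j : ℕ) : ℕ) : κ) with hB
  have hBinj : Function.Injective B := gg_natInj
  have hAz : ∀ j, j ≠ i0 → j ≠ i1 → A j = 0 := by
    intro j a1 a2
    simp [hA, a1, a2]
  have hA0 : A i0 = 1 := by simp [hA]
  have hA1 : A i1 = 1 := by simp [hA]
  have hB0 : B i0 = 0 := by simp [hB, hi0]
  have hB1 : B i1 = 1 := by simp [hB, hi1]
  have hB2 : B i2 = 2 := by simp [hB, hi2]
  have hE : ∀ s, p.Red (eE Finset.univ ι w s) (eE Finset.univ A B s) := fun s =>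
    gg_red_eE h1 h2 hBinj Finset.univ s
  have hE0 : eE Finset.univ A B i0 = -1 := by
    unfold eE
    rw [Finset.sum_eq_single i1 (fun j hj hj1 => by
      rw [hAz j (Finset.mem_erase.1 hj).1 hj1, zero_div])
      (fun hl => absurd (Finset.mem_erase.2 ⟨h01.symm, Finset.mem_univ _⟩) hl)]
    rw [hA1, hB0, hB1]; norm_num
  have hE1 : eE Finset.univ A B i1 = 1 := by
    unfold eE
    rw [Finset.sum_eq_single i0 (fun j hj hj1 => by
      rw [hAz j hj1 (Finset.mem_erase.1 hj).1, zero_div])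
      (fun hl => absurd (Finset.mem_erase.2 ⟨h01, Finset.mem_univ _⟩) hl)]
    rw [hA0, hB0, hB1]; norm_num
  have hEj : ∀ j, j ≠ i0 → j ≠ i1 → eE Finset.univ A B j = 1 / B j + 1 / (B j - 1) := by
    intro j a1 a2
    unfold eE
    rw [Finset.sum_eq_add_of_mem i0 i1 (Finset.mem_erase.2 ⟨a1.symm, Finset.mem_univ _⟩)
      (Finset.mem_erase.2 ⟨a2.symm, Finset.mem_univ _⟩) h01 (fun c _ hc => by
        rw [hAz c hc.1 hc.2, zero_div])]
    rw [hA0, hA1, hB0, hB1, sub_zero]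
  have hE2 : eE Finset.univ A B i2 = 3 / 2 := by
    rw [hEj i2 h02.symm h12.symm, hB2]; norm_num
  have hne0 : ∀ j, j ≠ i0 → j ≠ i1 → B j ≠ 0 ∧ B j - 1 ≠ 0 := by
    intro j a1 a2
    refine ⟨fun h0 => a1 (hBinj (h0.trans hB0.symm)), fun h0 => a2 (hBinj ?_)⟩
    rw [hB1]; exact sub_eq_zero.1 h0
  have hd0 : ∀ j, j ≠ i0 → eE Finset.univ A B i0 - eE Finset.univ A B j ≠ 0 := by
    intro j hj h0
    by_cases hj1 : j = i1
    · rw [hj1, hE0, hE1] at h0
      norm_num at h0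
    · obtain ⟨n1, n2⟩ := hne0 j hj hj1
      rw [hE0, hEj j hj hj1] at h0
      field_simp at h0
      have h5 : B j * B j + B j = 1 := by linear_combination -h0
      have h6 : ((j : ℕ) : κ) * ((j : ℕ) : κ) + ((j : ℕ) : κ) = 1 := h5
      have h7 : (j : ℕ) * (j : ℕ) + (j : ℕ) = 1 := by exact_mod_cast h6
      have h8 : (j : ℕ) ≠ 0 := fun h9 => hj (Fin.ext h9)
      nlinarith [Nat.pos_of_ne_zero h8]
  have hd2 : ∀ j, j ≠ i2 → eE Finset.univ A B i2 - eE Finset.univ A B j ≠ 0 := by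
    intro j hj h0
    by_cases hj0 : j = i0
    · rw [hj0, hE0, hE2] at h0
      norm_num at h0
    · by_cases hj1 : j = i1
      · rw [hj1, hE1, hE2] at h0
        norm_num at h0
      · obtain ⟨n1, n2⟩ := hne0 j hj0 hj1
        rw [hE2, hEj j hj0 hj1] at h0
        field_simp at h0
        have h5 : (3 * B j - 1) * (B j - 2) = 0 := by linear_combination h0
        rcases mul_eq_zero.1 h5 with h6 | h6
        · have h7 : (3 : κ) * ((j : ℕ) : κ) = 1 := sub_eq_zero.1 h6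
          have h8 : 3 * (j : ℕ) = 1 := by exact_mod_cast h7
          omega
        · exact hj (hBinj ((sub_eq_zero.1 h6).trans hB2.symm))
  have hr2 : p.Red (∑ j ∈ Finset.univ.erase i2, ι j /
      (eE Finset.univ ι w i2 - eE Finset.univ ι w j)) (12 / 5) := by
    have h3 : p.Red (∑ j ∈ Finset.univ.erase i2, ι j /
        (eE Finset.univ ι w i2 - eE Finset.univ ι w j))
        (∑ j ∈ Finset.univ.erase i2, A j /
        (eE Finset.univ A B i2 - eE Finset.univ A B j)) :=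
      Pl.red_sum _ fun j hj => (h1 j).div ((hE i2).sub (hE j)) (hd2 j (Finset.mem_erase.1 hj).1)
    refine h3.eq rfl ?_
    rw [Finset.sum_eq_add_of_mem i0 i1 (Finset.mem_erase.2 ⟨h02, Finset.mem_univ _⟩)
      (Finset.mem_erase.2 ⟨h12, Finset.mem_univ _⟩) h01 (fun c _ hc => by
        rw [hAz c hc.1 hc.2, zero_div])]
    rw [hA0, hA1, hE0, hE1, hE2]; norm_num
  have hr0 : p.Red (∑ j ∈ Finset.univ.erase i0, ι j /
      (eE Finset.univ ι w i0 - eE Finset.univ ι w j)) (-1 / 2) := by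
    have h3 : p.Red (∑ j ∈ Finset.univ.erase i0, ι j /
        (eE Finset.univ ι w i0 - eE Finset.univ ι w j))
        (∑ j ∈ Finset.univ.erase i0, A j /
        (eE Finset.univ A B i0 - eE Finset.univ A B j)) :=
      Pl.red_sum _ fun j hj => (h1 j).div ((hE i0).sub (hE j)) (hd0 j (Finset.mem_erase.1 hj).1)
    refine h3.eq rfl ?_
    rw [Finset.sum_eq_single i1 (fun j hj hj1 => by
      rw [hAz j (Finset.mem_erase.1 hj).1 hj1, zero_div])
      (fun hl => absurd (Finset.mem_erase.2 ⟨h01.symm, Finset.mem_univ _⟩) hl)]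
    rw [hA1, hE0, hE1]; norm_num
  have h3 := hr2.sub hr0
  rw [hall i2 i0] at h3
  have h4 := h3.unique ((h2 i2).sub (h2 i0))
  have h5 : (12 / 5 : κ) - -1 / 2 = B i2 - B i0 := h4
  rw [hB2, hB0] at h5
  norm_num at h5

theorem GG_holds (hV : V1S) : GGS := by
  intro K _ _ _ d hd w ι hd3 h
  have ht : ι ⟨0, by omega⟩ ≠ 0 := gg_iota_ne hV hd h _
  set t : K := ι ⟨0, by omega⟩ with htdef
  refine ⟨gg_inj hV hd h, fun j => div_ne_zero (gg_iota_ne hV hd h j) ht, ?_, ?_, ?_, ?_, ?_⟩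
  · intro s l hsl
    rw [gg_eE_div, gg_eE_div]
    intro h0
    exact gg_e1 hV hd h s l hsl ((div_left_inj' ht).1 h0)
  · intro s l m hsl hlm hsm h0
    rw [gg_eE_div, gg_eE_div, gg_eE_div] at h0
    apply gg_e2 hV hd h s l m hsl hlm hsm
    field_simp at h0
    linear_combination h0
  · intro V hV1 hV2 h0
    apply gg_e3 hV hd h V hV1 hV2
    have h1 : ∑ m ∈ Vᶜ, ∑ s ∈ V, ∑ l ∈ V, ι m / t * (ι s / t) * (ι l / t) * (w s - w l) ^ 2 /
        ((w s - w m) * (w l - w m)) = (∑ m ∈ Vᶜ, ∑ s ∈ V, ∑ l ∈ V,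
          ι m * ι s * ι l * (w s - w l) ^ 2 / ((w s - w m) * (w l - w m))) * (t ^ 3)⁻¹ := by
      rw [Finset.sum_mul]
      refine Finset.sum_congr rfl fun m _ => ?_
      rw [Finset.sum_mul]
      refine Finset.sum_congr rfl fun s _ => ?_
      rw [Finset.sum_mul]
      refine Finset.sum_congr rfl fun l _ => ?_
      rw [div_eq_mul_inv, div_eq_mul_inv, div_eq_mul_inv, div_eq_mul_inv, div_eq_mul_inv, ← inv_pow]
      ring
    rw [h1] at h0
    exact (mul_eq_zero.1 h0).resolve_right (inv_ne_zero (pow_ne_zero 3 ht))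
  · intro hall
    apply gg_e4 hV hd hd3 h
    intro s l
    have h1 := hall s l
    simp only [gg_eE_div, ← sub_div, div_div_div_cancel_right₀ ht] at h1
    exact h1
  · intro a b s l hsl he
    apply gg_e5 hV hd h a b s l hsl
    rw [div_mul_div_comm, div_mul_div_comm] at he
    exact (div_left_inj' (mul_ne_zero ht ht)).1 he

end gg

end Pool.Agent.LenSpec
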