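import Pool.Agent.LenSpec.GIDefs
import Pool.Agent.LenSpec.PlBasic

/-!
GM: matching cycles have equal multipliers.
-/

namespace Pool.Agent.LenSpec

open Pl

section gm

variable {K κ : Type} [Field K] [Field κ] {d : ℕ}

theorem gm_twoC_symm {ι w : Fin d → K} {z z' : K} (h : TwoC ι w z z') : TwoC ι w z' z :=
  ⟨h.hz', h.hz, h.eq2, h.eq1⟩

theorem gm_near_symm {p : Pl K κ} {δ : K} {c w : Fin d → K} {s l : Fin d} {z z' : K}
    (h : Near p δ c w s l z z') : Near p δ c w l s z' z :=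
  ⟨gm_twoC_symm h.two, h.red', h.red⟩

theorem gm_mm_symm (ι w : Fin d → K) (z z' : K) : mm ι w z z' = mm ι w z' z := by
  unfold mm
  rw [show (z' - z) ^ 2 = (z - z') ^ 2 by ring]
  ring

theorem gm_inf (p : Pl K κ) {δ : K} {c : Fin d → K} (hδ : p.Red δ 0) (hc : ∀ j, c j ∈ p.O) :
    p.Red (δ ^ 2 * (1 - (1 - ∑ j, δ * c j)⁻¹) ^ 2) 0 := by
  have h1 : p.Red (∑ j, δ * c j) (∑ _j : Fin d, (0 : κ)) := by
    apply red_sum
    intro j _
    exact (hδ.mul (red_rs (hc j))).eq rfl (by simp)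
  have h2 : p.Red (1 - ∑ j, δ * c j) 1 := (red_one.sub h1).eq rfl (by simp)
  have h3 := h2.inv one_ne_zero
  have h4 : p.Red (1 - (1 - ∑ j, δ * c j)⁻¹) 0 := (red_one.sub h3).eq rfl (by simp)
  exact ((hδ.pow 2).mul (h4.pow 2)).eq rfl (by simp)

theorem gm_fix (p : Pl K κ) {δ c : K} (hδ0 : δ ≠ 0) (hδ : p.Red δ 0) (hc : c ∈ p.O)
    (hc' : p.rs c ≠ 0) :
    p.Red (δ ^ 2 * (1 - (δ * c)⁻¹) ^ 2) (p.rs c * p.rs c)⁻¹ := by
  have hc0 : c ≠ 0 := (red_rs hc).ne_zero hc'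
  have h1 : p.Red ((δ - c⁻¹) ^ 2) ((0 - (p.rs c)⁻¹) ^ 2) := (hδ.sub ((red_rs hc).inv hc')).pow 2
  refine h1.eq ?_ ?_
  · field_simp
  · field_simp
    ring

end gm

theorem GM_holds (h2 : TC2S) (h3 : TC3S) (h4 : TC4S) : GMS := by
  classical
  intro K κ _ _ _ p d f g c w w' δ V y y' hd hC hG hf hN hC' hg hw' hfg s hs l hl hsl z z' hzz
  have hδ0 := hC.δ_ne
  have hc0 : ∀ j, c j ≠ 0 := fun j => (red_rs (hC.c_mem j)).ne_zero (hC.c_ne j)
  -- the multiplier is in the spectrum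
  have hm : mm (fun j => δ * c j) w' z z' ∈ g.multSpec 2 :=
    h3 K d g w' (fun j => δ * c j) z z' hd hw' (fun j => mul_ne_zero hδ0 (hc0 j)) hg hzz.two
  rw [← hfg] at hm
  have hr := (h2 K κ p d c w' δ V hC' s hs l hl hsl z z' hzz).1
  -- the modified family
  let Y : Fin d → Fin d → K := fun a b => if a = l ∧ b = s then y' s l else y a b
  let Y' : Fin d → Fin d → K := fun a b => if a = l ∧ b = s then y s l else y' a b
  have hY : ∀ a b, a ≠ b → Near p δ c w a b (Y a b) (Y' a b) := by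
    intro a b hab
    by_cases h : a = l ∧ b = s
    · simp only [Y, Y', if_pos h]
      rw [h.1, h.2]
      exact gm_near_symm (hN s l hsl)
    · simp only [Y, Y', if_neg h]
      exact hN a b hab
  rcases h4 K κ p d f c w δ Y Y' hd hC hf hY _ hm with h | ⟨j, h⟩ | ⟨a, b, hab, h⟩
  · exfalso
    rw [h] at hr
    have h5 := hr.unique (gm_inf p hC.δ_red hC.c_mem)
    exact inv_ne_zero (mul_ne_zero (hC.c_ne s) (hC.c_ne l)) h5
  · exfalso
    rw [h] at hr
    have h5 := hr.unique (gm_fix p hδ0 hC.δ_red (hC.c_mem j) (hC.c_ne j))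
    have h6 := hG.e5 j j s l hsl (inv_injective h5).symm
    rcases h6 with ⟨h7, h8⟩ | ⟨h7, h8⟩
    · exact hsl (h7.symm.trans h8)
    · exact hsl (h8.symm.trans h7)
  · have h5 := (h2 K κ p d c w δ Finset.univ hC a (Finset.mem_univ a) b (Finset.mem_univ b) hab _ _
      (hY a b hab)).1
    rw [← h] at h5
    have h6 := hr.unique h5
    rcases hG.e5 a b s l hsl (inv_injective h6).symm with ⟨h7, h8⟩ | ⟨h7, h8⟩
    · subst h7 h8
      rw [h]
      have : ¬ (a = b ∧ b = a) := fun h => hsl h.1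
      simp only [Y, Y', if_neg this]
    · subst h7 h8
      rw [h]
      have : (a = a ∧ b = b) := ⟨rfl, rfl⟩
      simp only [Y, Y', if_pos this]
      exact gm_mm_symm _ _ _ _

end Pool.Agent.LenSpec
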