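import Pool.Agent.LenSpec.GIDefs
import Pool.Agent.LenSpec.PlBasic

/-!
LOC: local injectivity of the multipliers of the cycles of length two.
-/

namespace Pool.Agent.LenSpec

open Pl

namespace LOCAux

variable {K κ : Type} [Field K] [Field κ] {d : ℕ}

/-- first sum -/
noncomputable def sa (c w : Fin d → K) (s : Fin d) (z : K) : K :=
  ∑ j ∈ Finset.univ.erase s, c j / (z - w j)

/-- second sum -/
noncomputable def sb (c w : Fin d → K) (s : Fin d) (z : K) : K :=
  ∑ j ∈ Finset.univ.erase s, c j / (z - w j) ^ 2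

/-- the expansion of one factor of the multiplier -/
noncomputable def aa (c w : Fin d → K) (δ : K) (s : Fin d) (z D : K) : K :=
  δ * c s - 1 + 2 * δ * (sa c w s z * D) -
    δ ^ 2 * (D ^ 2 * ((sa c w s z) ^ 2 + c s * sb c w s z))

lemma alg1 (c w : Fin d → K) (s : Fin d) (δ z D : K) (hz : z ≠ w s)
    (h : nN (fun j => δ * c j) w z * D = 1) :
    (z - w s) * (1 - δ * sa c w s z * D) = δ * c s * D ∧
    δ * c s * (1 - nD (fun j => δ * c j) w z * D ^ 2) = aa c w δ s z D := by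
  have hu : z - w s ≠ 0 := sub_ne_zero.2 hz
  have h1 : nN (fun j => δ * c j) w z = δ * c s / (z - w s) + δ * sa c w s z := by
    unfold nN sa
    rw [← Finset.add_sum_erase Finset.univ _ (Finset.mem_univ s), Finset.mul_sum]
    congr 1
    exact Finset.sum_congr rfl fun j _ => by ring
  have h2 : nD (fun j => δ * c j) w z = δ * c s / (z - w s) ^ 2 + δ * sb c w s z := by
    unfold nD sb
    rw [← Finset.add_sum_erase Finset.univ _ (Finset.mem_univ s), Finset.mul_sum]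
    congr 1
    exact Finset.sum_congr rfl fun j _ => by ring
  rw [h1] at h
  rw [h2]
  unfold aa
  generalize sa c w s z = S at *
  generalize sb c w s z = T at *
  generalize z - w s = u at *
  have h3 : δ * c s * D / u = 1 - δ * S * D := by
    rw [← h]
    ring
  constructor
  · rw [← h3]
    field_simp
  · have h4 : δ * c s * (1 - (δ * c s / u ^ 2 + δ * T) * D ^ 2) =
        δ * c s - (δ * c s * D / u) ^ 2 - δ ^ 2 * c s * T * D ^ 2 := by
      field_simp
      ring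
    rw [h4, h3]
    ring

/-- a linear system close to the identity -/
lemma lin2 (p : Pl K κ) (δ a b p₁ q₁ r₁ p₂ q₂ r₂ : K) (hδ : p.Red δ 0) (h1 : p₁ ∈ p.O)
    (h2 : q₁ ∈ p.O) (h3 : r₁ ∈ p.O) (h4 : p₂ ∈ p.O) (h5 : q₂ ∈ p.O) (h6 : r₂ ∈ p.O)
    (ha : a = p₁ + δ * (q₁ * a + r₁ * b)) (hb : b = p₂ + δ * (q₂ * a + r₂ * b)) :
    a ∈ p.O ∧ b ∈ p.O := by
  have e2 := red_rs h2
  have e3 := red_rs h3
  have e5 := red_rs h5
  have e6 := red_rs h6
  have e : p.Red ((1 - δ * q₁) * (1 - δ * r₂) - δ * r₁ * (δ * q₂)) 1 :=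
    (((red_one.sub (hδ.mul e2)).mul (red_one.sub (hδ.mul e6))).sub
      ((hδ.mul e3).mul (hδ.mul e5))).eq rfl (by ring)
  have ei : ((1 - δ * q₁) * (1 - δ * r₂) - δ * r₁ * (δ * q₂))⁻¹ ∈ p.O :=
    (e.inv one_ne_zero).mem
  have ene := e.ne_zero one_ne_zero
  constructor
  · have h : a = ((1 - δ * r₂) * p₁ + δ * r₁ * p₂) *
        ((1 - δ * q₁) * (1 - δ * r₂) - δ * r₁ * (δ * q₂))⁻¹ := by
      rw [eq_mul_inv_iff_mul_eq₀ ene]
      linear_combination (1 - δ * r₂) * ha + δ * r₁ * hb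
    rw [h]
    exact p.O.mul_mem (p.O.add_mem (p.O.mul_mem (p.O.sub_mem p.O.one_mem
      (p.O.mul_mem hδ.mem h6)) h1) (p.O.mul_mem (p.O.mul_mem hδ.mem h3) h4)) ei
  · have h : b = ((1 - δ * q₁) * p₂ + δ * q₂ * p₁) *
        ((1 - δ * q₁) * (1 - δ * r₂) - δ * r₁ * (δ * q₂))⁻¹ := by
      rw [eq_mul_inv_iff_mul_eq₀ ene]
      linear_combination (1 - δ * q₁) * hb + δ * q₂ * ha
    rw [h]
    exact p.O.mul_mem (p.O.add_mem (p.O.mul_mem (p.O.sub_mem p.O.one_mem
      (p.O.mul_mem hδ.mem h2)) h4) (p.O.mul_mem (p.O.mul_mem hδ.mem h5) h1)) ei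

/-- the data of one side -/
structure Side (p : Pl K κ) (δ : K) (c w w' : Fin d → K) (θ : K) (s l : Fin d)
    (z D z₁ D₁ a b : K) : Prop where
  sl : s ≠ l
  δ_ne : δ ≠ 0
  θ_ne : θ ≠ 0
  δ_red : p.Red δ 0
  c_mem : ∀ j, c j ∈ p.O
  w_mem : ∀ j, w j ∈ p.O
  w_mem' : ∀ j, w' j ∈ p.O
  w_eq : ∀ j, p.rs (w j) = p.rs (w' j)
  w_ne : ∀ j l, j ≠ l → p.rs (w j) ≠ p.rs (w l)
  h_mem : ∀ j, (w' j - w j) / θ ∈ p.O
  z_red : p.Red z (p.rs (w s))
  z_red' : p.Red z₁ (p.rs (w s))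
  D_red : p.Red D (p.rs (w s) - p.rs (w l))
  D_red' : p.Red D₁ (p.rs (w s) - p.rs (w l))
  ha : a = ((z₁ - w' s) - (z - w s)) / (δ * θ)
  hD : (D₁ - D) / θ = (w' s - w s) / θ - (w' l - w l) / θ + δ * (a - b)
  eqz : (z - w s) * (1 - δ * sa c w s z * D) = δ * c s * D
  eqz' : (z₁ - w' s) * (1 - δ * sa c w' s z₁ * D₁) = δ * c s * D₁

namespace Side

variable {p : Pl K κ} {δ : K} {c w w' : Fin d → K} {θ : K} {s l : Fin d}
  {z D z₁ D₁ a b : K}

lemma x_red (S : Side p δ c w w' θ s l z D z₁ D₁ a b) (j : Fin d) :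
    p.Red (z - w j) (p.rs (w s) - p.rs (w j)) := S.z_red.sub (red_rs (S.w_mem j))

lemma x_red' (S : Side p δ c w w' θ s l z D z₁ D₁ a b) (j : Fin d) :
    p.Red (z₁ - w' j) (p.rs (w s) - p.rs (w j)) :=
  (S.z_red'.sub (red_rs (S.w_mem' j))).eq rfl (by rw [S.w_eq j])

lemma x_ne (S : Side p δ c w w' θ s l z D z₁ D₁ a b) (j : Fin d) (hj : j ≠ s) :
    p.rs (w s) - p.rs (w j) ≠ 0 := sub_ne_zero.2 (S.w_ne s j hj.symm)

lemma sa_red (S : Side p δ c w w' θ s l z D z₁ D₁ a b) :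
    p.Red (sa c w s z) (eE Finset.univ (fun j => p.rs (c j)) (fun j => p.rs (w j)) s) := by
  unfold sa eE
  apply red_sum
  intro j hj
  exact (red_rs (S.c_mem j)).div (S.x_red j) (S.x_ne j (Finset.ne_of_mem_erase hj))

lemma sa_red' (S : Side p δ c w w' θ s l z D z₁ D₁ a b) :
    p.Red (sa c w' s z₁) (eE Finset.univ (fun j => p.rs (c j)) (fun j => p.rs (w j)) s) := by
  unfold sa eE
  apply red_sum
  intro j hj
  exact (red_rs (S.c_mem j)).div (S.x_red' j) (S.x_ne j (Finset.ne_of_mem_erase hj))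

lemma sb_mem (S : Side p δ c w w' θ s l z D z₁ D₁ a b) : sb c w s z ∈ p.O := by
  unfold sb
  apply p.O.sum_mem
  intro j hj
  exact ((red_rs (S.c_mem j)).div ((S.x_red j).pow 2)
    (pow_ne_zero 2 (S.x_ne j (Finset.ne_of_mem_erase hj)))).mem

lemma sb_mem' (S : Side p δ c w w' θ s l z D z₁ D₁ a b) : sb c w' s z₁ ∈ p.O := by
  unfold sb
  apply p.O.sum_mem
  intro j hj
  exact ((red_rs (S.c_mem j)).div ((S.x_red' j).pow 2)
    (pow_ne_zero 2 (S.x_ne j (Finset.ne_of_mem_erase hj)))).mem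

/-- the differences -/
lemma x_diff (S : Side p δ c w w' θ s l z D z₁ D₁ a b) (j : Fin d) :
    ((z₁ - w' j) - (z - w j)) / θ = (w' s - w s) / θ - (w' j - w j) / θ + δ * a := by
  have h1 := S.δ_ne
  have h2 := S.θ_ne
  rw [S.ha]
  field_simp
  ring

/-- the constant term of the difference of the first sums -/
noncomputable def pp (_ : Side p δ c w w' θ s l z D z₁ D₁ a b) : K :=
  -∑ j ∈ Finset.univ.erase s, c j * ((w' s - w s) / θ - (w' j - w j) / θ) /
    ((z - w j) * (z₁ - w' j))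

/-- the linear term of the difference of the first sums -/
noncomputable def qq (_ : Side p δ c w w' θ s l z D z₁ D₁ a b) : K :=
  -∑ j ∈ Finset.univ.erase s, c j / ((z - w j) * (z₁ - w' j))

lemma x0 (S : Side p δ c w w' θ s l z D z₁ D₁ a b) (j : Fin d) (hj : j ≠ s) : z - w j ≠ 0 :=
  (S.x_red j).ne_zero (S.x_ne j hj)

lemma x0' (S : Side p δ c w w' θ s l z D z₁ D₁ a b) (j : Fin d) (hj : j ≠ s) :
    z₁ - w' j ≠ 0 := (S.x_red' j).ne_zero (S.x_ne j hj)

lemma sa_diff (S : Side p δ c w w' θ s l z D z₁ D₁ a b) :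
    (sa c w' s z₁ - sa c w s z) / θ = S.pp + δ * a * S.qq := by
  unfold sa pp qq
  rw [← Finset.sum_sub_distrib, Finset.sum_div, mul_neg, Finset.mul_sum, ← neg_add,
    ← Finset.sum_add_distrib, ← Finset.sum_neg_distrib]
  apply Finset.sum_congr rfl
  intro j hj
  have hj' := Finset.ne_of_mem_erase hj
  have h1 := S.x0 j hj'
  have h2 := S.x0' j hj'
  have h3 := S.x_diff j
  have h4 : (c j / (z₁ - w' j) - c j / (z - w j)) / θ =
      -(c j * (((z₁ - w' j) - (z - w j)) / θ) / ((z - w j) * (z₁ - w' j))) := by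
    have := S.θ_ne
    field_simp
    ring
  rw [h4, h3]
  ring

lemma pp_red (S : Side p δ c w w' θ s l z D z₁ D₁ a b) :
    p.Red S.pp (-∑ j ∈ Finset.univ.erase s,
      p.rs (c j) * (p.rs ((w' s - w s) / θ) - p.rs ((w' j - w j) / θ)) /
        (p.rs (w s) - p.rs (w j)) ^ 2) := by
  unfold pp
  apply Red.neg
  apply red_sum
  intro j hj
  have hj' := Finset.ne_of_mem_erase hj
  refine (((red_rs (S.c_mem j)).mul ((red_rs (S.h_mem s)).sub (red_rs (S.h_mem j)))).div
    ((S.x_red j).mul (S.x_red' j)) ?_).eq rfl ?_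
  · exact mul_ne_zero (S.x_ne j hj') (S.x_ne j hj')
  · rw [sq]

lemma qq_mem (S : Side p δ c w w' θ s l z D z₁ D₁ a b) : S.qq ∈ p.O := by
  unfold qq
  apply p.O.neg_mem
  apply p.O.sum_mem
  intro j hj
  have hj' := Finset.ne_of_mem_erase hj
  exact ((red_rs (S.c_mem j)).div ((S.x_red j).mul (S.x_red' j))
    (mul_ne_zero (S.x_ne j hj') (S.x_ne j hj'))).mem

lemma u_red (S : Side p δ c w w' θ s l z D z₁ D₁ a b) :
    p.Red (1 - δ * sa c w s z * D) 1 :=
  (red_one.sub ((S.δ_red.mul S.sa_red).mul S.D_red)).eq rfl (by ring)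

lemma u_red' (S : Side p δ c w w' θ s l z D z₁ D₁ a b) :
    p.Red (1 - δ * sa c w' s z₁ * D₁) 1 :=
  (red_one.sub ((S.δ_red.mul S.sa_red').mul S.D_red')).eq rfl (by ring)

lemma a_lin (S : Side p δ c w w' θ s l z D z₁ D₁ a b) :
    ∃ p₁ ∈ p.O, ∃ q₁ ∈ p.O, ∃ r₁ ∈ p.O, a = p₁ + δ * (q₁ * a + r₁ * b) := by
  have hu := S.u_red
  have hu' := S.u_red'
  have hu0 := hu.ne_zero one_ne_zero
  have hu0' := hu'.ne_zero one_ne_zero
  have hc : c s / ((1 - δ * sa c w s z * D) * (1 - δ * sa c w' s z₁ * D₁)) ∈ p.O :=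
    ((red_rs (S.c_mem s)).div (hu.mul hu') (by simp)).mem
  have hpp := S.pp_red.mem
  have hqq := S.qq_mem
  have hDm := S.D_red.mem
  have hDm' := S.D_red'.mem
  have hδm := S.δ_red.mem
  have hsa := S.sa_diff
  have hD := S.hD
  have h1 := S.eqz
  have h2 := S.eqz'
  have hδ := S.δ_ne
  have hθ := S.θ_ne
  refine ⟨c s / ((1 - δ * sa c w s z * D) * (1 - δ * sa c w' s z₁ * D₁)) *
      ((w' s - w s) / θ - (w' l - w l) / θ + δ * D * D₁ * S.pp), ?_,
    c s / ((1 - δ * sa c w s z * D) * (1 - δ * sa c w' s z₁ * D₁)) *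
      (1 + δ * D * D₁ * S.qq), ?_,
    -(c s / ((1 - δ * sa c w s z * D) * (1 - δ * sa c w' s z₁ * D₁))), ?_, ?_⟩
  · exact p.O.mul_mem hc (p.O.add_mem (p.O.sub_mem (S.h_mem s) (S.h_mem l))
      (p.O.mul_mem (p.O.mul_mem (p.O.mul_mem hδm hDm) hDm') hpp))
  · exact p.O.mul_mem hc (p.O.add_mem p.O.one_mem
      (p.O.mul_mem (p.O.mul_mem (p.O.mul_mem hδm hDm) hDm') hqq))
  · exact p.O.neg_mem hc
  · have ha := S.ha
    generalize S.pp = P at *
    generalize S.qq = Q at *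
    have h3 : a = c s / ((1 - δ * sa c w s z * D) * (1 - δ * sa c w' s z₁ * D₁)) *
        ((D₁ - D) / θ + δ * D * D₁ * ((sa c w' s z₁ - sa c w s z) / θ)) := by
      generalize sa c w s z = A at *
      generalize sa c w' s z₁ = B at *
      generalize z₁ - w' s = y' at *
      generalize z - w s = y at *
      have e1 : y = δ * c s * D / (1 - δ * A * D) := by
        rw [eq_div_iff hu0]
        exact h1
      have e2 : y' = δ * c s * D₁ / (1 - δ * B * D₁) := by
        rw [eq_div_iff hu0']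
        exact h2
      have hU : δ * A * D = 1 - (1 - δ * A * D) := by ring
      have hV : δ * B * D₁ = 1 - (1 - δ * B * D₁) := by ring
      have e3 : (D₁ - D) + δ * D * D₁ * (B - A) =
          D₁ * (1 - δ * A * D) - D * (1 - δ * B * D₁) := by ring
      have e4 : (D₁ - D) / θ + δ * D * D₁ * ((B - A) / θ) =
          (D₁ * (1 - δ * A * D) - D * (1 - δ * B * D₁)) / θ := by
        rw [← e3]
        ring
      rw [ha, e1, e2, e4]
      generalize 1 - δ * A * D = U at *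
      generalize 1 - δ * B * D₁ = V at *
      field_simp
    rw [hsa, hD] at h3
    linear_combination h3

/-- the difference of the second sums -/
lemma sb_diff (S : Side p δ c w w' θ s l z D z₁ D₁ a b) (ham : a ∈ p.O) :
    (sb c w' s z₁ - sb c w s z) / θ ∈ p.O := by
  have h : (sb c w' s z₁ - sb c w s z) / θ = -∑ j ∈ Finset.univ.erase s,
      c j * (((w' s - w s) / θ - (w' j - w j) / θ + δ * a) * ((z₁ - w' j) + (z - w j))) /
        ((z - w j) ^ 2 * (z₁ - w' j) ^ 2) := by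
    unfold sb
    rw [← Finset.sum_sub_distrib, Finset.sum_div, ← Finset.sum_neg_distrib]
    apply Finset.sum_congr rfl
    intro j hj
    have hj' := Finset.ne_of_mem_erase hj
    have h1 := S.x0 j hj'
    have h2 := S.x0' j hj'
    rw [← S.x_diff j]
    have := S.θ_ne
    field_simp
    ring
  rw [h]
  apply p.O.neg_mem
  apply p.O.sum_mem
  intro j hj
  have hj' := Finset.ne_of_mem_erase hj
  exact ((red_rs (S.c_mem j)).mul ((((red_rs (S.h_mem s)).sub (red_rs (S.h_mem j))).add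
    (S.δ_red.mul (red_rs ham))).mul ((S.x_red' j).add (S.x_red j)))).div
    (((S.x_red j).pow 2).mul ((S.x_red' j).pow 2))
    (mul_ne_zero (pow_ne_zero 2 (S.x_ne j hj')) (pow_ne_zero 2 (S.x_ne j hj'))) |>.mem

/-- the difference of the expansions -/
lemma aa_diff (S : Side p δ c w w' θ s l z D z₁ D₁ a b) (ham : a ∈ p.O) (hbm : b ∈ p.O) :
    p.Red ((aa c w' δ s z₁ D₁ - aa c w δ s z D) / (δ * θ))
      (2 * (eE Finset.univ (fun j => p.rs (c j)) (fun j => p.rs (w j)) s *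
          (p.rs ((w' s - w s) / θ) - p.rs ((w' l - w l) / θ)) +
        (p.rs (w s) - p.rs (w l)) * (-∑ j ∈ Finset.univ.erase s,
          p.rs (c j) * (p.rs ((w' s - w s) / θ) - p.rs ((w' j - w j) / θ)) /
            (p.rs (w s) - p.rs (w j)) ^ 2))) := by
  have hδ := S.δ_ne
  have hθ := S.θ_ne
  have hsa := S.sa_diff
  have hsb := S.sb_diff ham
  have hD := S.hD
  have rD : p.Red ((D₁ - D) / θ)
      (p.rs ((w' s - w s) / θ) - p.rs ((w' l - w l) / θ)) := by
    rw [hD]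
    exact (((red_rs (S.h_mem s)).sub (red_rs (S.h_mem l))).add
      (S.δ_red.mul ((red_rs ham).sub (red_rs hbm)))).eq rfl (by ring)
  have rS : p.Red ((sa c w' s z₁ - sa c w s z) / θ) (-∑ j ∈ Finset.univ.erase s,
          p.rs (c j) * (p.rs ((w' s - w s) / θ) - p.rs ((w' j - w j) / θ)) /
            (p.rs (w s) - p.rs (w j)) ^ 2) := by
    rw [hsa]
    exact (S.pp_red.add ((S.δ_red.mul (red_rs ham)).mul (red_rs S.qq_mem))).eq rfl (by ring)
  have r2 : p.Red (2 : K) (2 : κ) := (red_one.add red_one).eq (by norm_num) (by norm_num)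
  have key : (aa c w' δ s z₁ D₁ - aa c w δ s z D) / (δ * θ) =
      2 * (sa c w' s z₁ * ((D₁ - D) / θ) + D * ((sa c w' s z₁ - sa c w s z) / θ)) -
      δ * ((sa c w' s z₁ * ((D₁ - D) / θ) + D * ((sa c w' s z₁ - sa c w s z) / θ)) *
        (sa c w' s z₁ * D₁ + sa c w s z * D) +
        c s * (((D₁ - D) / θ) * (D₁ + D) * sb c w' s z₁ +
          D ^ 2 * ((sb c w' s z₁ - sb c w s z) / θ))) := by
    unfold aa
    field_simp
    ring
  rw [key]
  have r4 := S.sa_red'
  have r5 := S.sa_red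
  have r6 := S.D_red
  have r7 := S.D_red'
  have r8 := (r4.mul rD).add (r6.mul rS)
  have r9 := red_rs S.sb_mem'
  exact ((r2.mul r8).sub (S.δ_red.mul ((r8.mul ((r4.mul r7).add (r5.mul r6))).add
    ((red_rs (S.c_mem s)).mul (((rD.mul (r7.add r6)).mul r9).add
      ((r6.pow 2).mul (red_rs hsb))))))).eq rfl (by ring)

lemma aa_red (S : Side p δ c w w' θ s l z D z₁ D₁ a b) : p.Red (aa c w δ s z D) (-1) := by
  unfold aa
  have r2 : p.Red (2 : K) (2 : κ) := (red_one.add red_one).eq (by norm_num) (by norm_num)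
  have r5 := S.sa_red
  exact ((((S.δ_red.mul (red_rs (S.c_mem s))).sub red_one).add
    ((r2.mul S.δ_red).mul (r5.mul S.D_red))).sub ((S.δ_red.pow 2).mul
      ((S.D_red.pow 2).mul ((r5.pow 2).add ((red_rs (S.c_mem s)).mul
        (red_rs S.sb_mem)))))).eq rfl (by ring)

lemma aa_red' (S : Side p δ c w w' θ s l z D z₁ D₁ a b) :
    p.Red (aa c w' δ s z₁ D₁) (-1) := by
  unfold aa
  have r2 : p.Red (2 : K) (2 : κ) := (red_one.add red_one).eq (by norm_num) (by norm_num)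
  have r5 := S.sa_red'
  exact ((((S.δ_red.mul (red_rs (S.c_mem s))).sub red_one).add
    ((r2.mul S.δ_red).mul (r5.mul S.D_red'))).sub ((S.δ_red.pow 2).mul
      ((S.D_red'.pow 2).mul ((r5.pow 2).add ((red_rs (S.c_mem s)).mul
        (red_rs S.sb_mem')))))).eq rfl (by ring)

end Side

lemma pair [CharZero κ] (p : Pl K κ) (c w w' : Fin d → K) (δ θ : K)
    (h1 : Cfg p δ c w Finset.univ) (h2 : Cfg p δ c w' Finset.univ)
    (he : ∀ s, p.rs (w s) = p.rs (w' s)) (hθ : θ ≠ 0) (hm : ∀ j, (w' j - w j) / θ ∈ p.O)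
    (s l : Fin d) (hsl : s ≠ l) (z z' y y' : K) (hn : Near p δ c w s l z z')
    (hn' : Near p δ c w' s l y y')
    (hmm : mm (fun j => δ * c j) w z z' = mm (fun j => δ * c j) w' y y') :
    (p.rs ((w' s - w s) / θ) - p.rs ((w' l - w l) / θ)) *
        (eE Finset.univ (fun j => p.rs (c j)) (fun j => p.rs (w j)) s -
          eE Finset.univ (fun j => p.rs (c j)) (fun j => p.rs (w j)) l) +
      (p.rs (w s) - p.rs (w l)) * ((-∑ j ∈ Finset.univ.erase s,
          p.rs (c j) * (p.rs ((w' s - w s) / θ) - p.rs ((w' j - w j) / θ)) /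
            (p.rs (w s) - p.rs (w j)) ^ 2) -
        (-∑ j ∈ Finset.univ.erase l,
          p.rs (c j) * (p.rs ((w' l - w l) / θ) - p.rs ((w' j - w j) / θ)) /
            (p.rs (w l) - p.rs (w j)) ^ 2)) = 0 := by
  have hδ := h1.δ_ne
  have hδr := h1.δ_red
  have wm : ∀ j, w j ∈ p.O := fun j => h1.w_mem j (Finset.mem_univ j)
  have wm' : ∀ j, w' j ∈ p.O := fun j => h2.w_mem j (Finset.mem_univ j)
  have aux : ∀ (u v : K) (t : κ), p.Red ((u - v) / δ) t → v ∈ p.O → p.Red u (p.rs v) := by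
    intro u v t h hv
    refine ((hδr.mul h).add (red_rs hv)).eq ?_ (by ring)
    field_simp
    ring
  have rz := aux _ _ _ hn.red (wm s)
  have rz' := aux _ _ _ hn.red' (wm l)
  have ry := aux _ _ _ hn'.red (wm' s)
  have ry' := aux _ _ _ hn'.red' (wm' l)
  rw [← he s] at ry
  rw [← he l] at ry'
  have cs : c s ≠ 0 := (red_rs (h1.c_mem s)).ne_zero (h1.c_ne s)
  have cl : c l ≠ 0 := (red_rs (h1.c_mem l)).ne_zero (h1.c_ne l)
  obtain ⟨e1, f1⟩ := alg1 c w s δ z (z - z') (hn.two.hz s) hn.two.eq1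
  obtain ⟨e2, f2⟩ := alg1 c w l δ z' (z' - z) (hn.two.hz' l) hn.two.eq2
  obtain ⟨e3, f3⟩ := alg1 c w' s δ y (y - y') (hn'.two.hz s) hn'.two.eq1
  obtain ⟨e4, f4⟩ := alg1 c w' l δ y' (y' - y) (hn'.two.hz' l) hn'.two.eq2
  set a : K := ((y - w' s) - (z - w s)) / (δ * θ) with ha
  set b : K := ((y' - w' l) - (z' - w l)) / (δ * θ) with hb
  have S : Side p δ c w w' θ s l z (z - z') y (y - y') a b :=
    { sl := hsl
      δ_ne := hδ
      θ_ne := hθ
      δ_red := hδr
      c_mem := h1.c_mem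
      w_mem := wm
      w_mem' := wm'
      w_eq := he
      w_ne := fun j l h => h1.w_ne j (Finset.mem_univ _) l (Finset.mem_univ _) h
      h_mem := hm
      z_red := rz
      z_red' := ry
      D_red := rz.sub rz'
      D_red' := ry.sub ry'
      ha := ha
      hD := by
        rw [ha, hb]
        field_simp
        ring
      eqz := e1
      eqz' := e3 }
  have S' : Side p δ c w w' θ l s z' (z' - z) y' (y' - y) b a :=
    { sl := hsl.symm
      δ_ne := hδ
      θ_ne := hθ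
      δ_red := hδr
      c_mem := h1.c_mem
      w_mem := wm
      w_mem' := wm'
      w_eq := he
      w_ne := fun j l h => h1.w_ne j (Finset.mem_univ _) l (Finset.mem_univ _) h
      h_mem := hm
      z_red := rz'
      z_red' := ry'
      D_red := rz'.sub rz
      D_red' := ry'.sub ry
      ha := hb
      hD := by
        rw [ha, hb]
        field_simp
        ring
      eqz := e2
      eqz' := e4 }
  obtain ⟨p₁, hp₁, q₁, hq₁, r₁, hr₁, l1⟩ := S.a_lin
  obtain ⟨p₂, hp₂, q₂, hq₂, r₂, hr₂, l2⟩ := S'.a_lin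
  obtain ⟨am, bm⟩ := lin2 p δ a b p₁ q₁ r₁ p₂ r₂ q₂ hδr hp₁ hq₁ hr₁ hp₂ hr₂ hq₂ l1
    (l2.trans (by ring))
  have R := S.aa_diff am bm
  have R' := S'.aa_diff bm am
  have T := S.aa_red'
  have T' := S'.aa_red
  have hprod : aa c w δ s z (z - z') * aa c w δ l z' (z' - z) =
      aa c w' δ s y (y - y') * aa c w' δ l y' (y' - y) := by
    rw [← f1, ← f2, ← f3, ← f4]
    unfold mm at hmm
    rw [show (z' - z) ^ 2 = (z - z') ^ 2 by ring, show (y' - y) ^ 2 = (y - y') ^ 2 by ring]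
    linear_combination δ * c s * (δ * c l) * hmm
  have hz : aa c w' δ s y (y - y') *
        ((aa c w' δ l y' (y' - y) - aa c w δ l z' (z' - z)) / (δ * θ)) +
      (aa c w' δ s y (y - y') - aa c w δ s z (z - z')) / (δ * θ) *
        aa c w δ l z' (z' - z) = 0 := by
    have : aa c w' δ s y (y - y') *
        ((aa c w' δ l y' (y' - y) - aa c w δ l z' (z' - z)) / (δ * θ)) +
      (aa c w' δ s y (y - y') - aa c w δ s z (z - z')) / (δ * θ) *
        aa c w δ l z' (z' - z) = (aa c w' δ s y (y - y') * aa c w' δ l y' (y' - y) -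
        aa c w δ s z (z - z') * aa c w δ l z' (z' - z)) / (δ * θ) := by ring
    rw [this, hprod, sub_self, zero_div]
  have hfin := (T.mul R').add (R.mul T')
  rw [hz] at hfin
  have h0 := hfin.unique red_zero
  have h2 : (2 : κ) ≠ 0 := two_ne_zero
  apply mul_left_cancel₀ h2
  linear_combination -h0

/-- the algebra in the residue field -/
lemma res_alg {n : ℕ} (W E h e : Fin n → κ) (o : Fin n)
    (hW : ∀ s, s ≠ o → W s ≠ W o)
    (hg : ∀ s l, s ≠ l → l ≠ o → s ≠ o →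
      (W s - W o) * (E l - E o) - (W l - W o) * (E s - E o) ≠ 0)
    (hp : ∀ s l, s ≠ l → (h s - h l) * (E s - E l) + (W s - W l) * (e s - e l) = 0)
    (i : Fin n) (hi : i ≠ o) (hio : h i = h o) (s : Fin n) : h s = h o := by
  by_cases hs : s = o
  · rw [hs]
  by_cases hsi : s = i
  · rw [hsi, hio]
  have hWi := sub_ne_zero.2 (hW i hi)
  have hWs := sub_ne_zero.2 (hW s hs)
  have h1 := hp s o hs
  have h2 := hp i o hi
  have h3 := hp s i hsi
  have h4 := hg s i hsi hi hs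
  have h5 : (W i - W o) * (e i - e o) = 0 := by
    rw [hio, sub_self, zero_mul, zero_add] at h2
    exact h2
  have h6 : e i = e o := by
    rcases mul_eq_zero.1 h5 with h | h
    · exact absurd h hWi
    · exact sub_eq_zero.1 h
  rw [hio, h6] at h3
  have h7 : (h s - h o) * ((W s - W o) * (E i - E o) - (W i - W o) * (E s - E o)) = 0 := by
    linear_combination (W s - W i) * h1 - (W s - W o) * h3
  rcases mul_eq_zero.1 h7 with h8 | h8
  · exact sub_eq_zero.1 h8
  · exact absurd h8 h4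

end LOCAux

open LOCAux in
theorem LOC_holds : LOCS := by
  intro K κ _ _ _ p d hd c w w' δ h1 h2 hG he h0 h1' hex
  by_contra hne
  obtain ⟨j₀, hj₀⟩ : ∃ j, w j ≠ w' j := by
    by_contra h
    push Not at h
    exact hne (funext h)
  obtain ⟨i, -, hi, hd⟩ := exists_dvd_all p Finset.univ (fun j => w' j - w j)
    ⟨j₀, Finset.mem_univ _, sub_ne_zero.2 hj₀.symm⟩
  set θ : K := w' i - w i with hθ
  have hm : ∀ j, (w' j - w j) / θ ∈ p.O := fun j => hd j (Finset.mem_univ j)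
  have key : ∀ s l, s ≠ l → (p.rs ((w' s - w s) / θ) - p.rs ((w' l - w l) / θ)) *
        (eE Finset.univ (fun j => p.rs (c j)) (fun j => p.rs (w j)) s -
          eE Finset.univ (fun j => p.rs (c j)) (fun j => p.rs (w j)) l) +
      (p.rs (w s) - p.rs (w l)) * ((-∑ j ∈ Finset.univ.erase s,
          p.rs (c j) * (p.rs ((w' s - w s) / θ) - p.rs ((w' j - w j) / θ)) /
            (p.rs (w s) - p.rs (w j)) ^ 2) -
        (-∑ j ∈ Finset.univ.erase l,
          p.rs (c j) * (p.rs ((w' l - w l) / θ) - p.rs ((w' j - w j) / θ)) /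
            (p.rs (w l) - p.rs (w j)) ^ 2)) = 0 := by
    intro s l hsl
    obtain ⟨z, z', y, y', hn, hn', hmm⟩ := hex s l hsl
    exact pair p c w w' δ θ h1 h2 he hi hm s l hsl z z' y y' hn hn' hmm
  have r0 : p.rs ((w' ⟨0, by omega⟩ - w ⟨0, by omega⟩) / θ) = 0 := by
    rw [h0, sub_self, zero_div]
    exact red_zero.rs_eq
  have r1 : p.rs ((w' ⟨1, by omega⟩ - w ⟨1, by omega⟩) / θ) = 0 := by
    rw [h1', sub_self, zero_div]
    exact red_zero.rs_eq
  have hfin := res_alg (fun j => p.rs (w j))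
    (fun j => eE Finset.univ (fun j => p.rs (c j)) (fun j => p.rs (w j)) j)
    (fun j => p.rs ((w' j - w j) / θ))
    (fun s => -∑ j ∈ Finset.univ.erase s,
      p.rs (c j) * (p.rs ((w' s - w s) / θ) - p.rs ((w' j - w j) / θ)) /
        (p.rs (w s) - p.rs (w j)) ^ 2)
    ⟨0, by omega⟩
    (fun s hs => h1.w_ne s (Finset.mem_univ _) _ (Finset.mem_univ _) hs)
    (fun s l h h' h'' => hG.e2 s l _ h h' h'')
    key ⟨1, by omega⟩ (by simp) (by simp only [r0, r1]) i
  simp only [r0] at hfin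
  rw [div_self hi, red_one.rs_eq] at hfin
  exact one_ne_zero hfin

end Pool.Agent.LenSpec
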