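import Pool.Agent.LenSpec.GIDefs

/-!
MC1: conjugate maps have the same multipliers.
-/

namespace Pool.Agent.LenSpec

open Polynomial

section mc1

variable {K : Type} [Field K]

private lemma mc1_homComp_sub (d : ℕ) (R S A B : K[X]) :
    homComp d (R - S) A B = homComp d R A B - homComp d S A B := by
  unfold homComp
  rw [← Finset.sum_sub_distrib]
  refine Finset.sum_congr rfl fun i _ => ?_
  rw [coeff_sub, C_sub]
  ring

private lemma mc1_homComp_C_mul (d : ℕ) (c : K) (R A B : K[X]) :
    homComp d (C c * R) A B = C c * homComp d R A B := by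
  unfold homComp
  rw [Finset.mul_sum]
  refine Finset.sum_congr rfl fun i _ => ?_
  rw [coeff_C_mul, C_mul]
  ring

private lemma mc1_homComp_sum {ι : Type} (d : ℕ) (s : Finset ι) (R : ι → K[X]) (A B : K[X]) :
    homComp d (∑ i ∈ s, R i) A B = ∑ i ∈ s, homComp d (R i) A B := by
  unfold homComp
  rw [Finset.sum_comm]
  refine Finset.sum_congr rfl fun i _ => ?_
  rw [finsetSum_coeff, map_sum, Finset.sum_mul, Finset.sum_mul]

private lemma mc1_homComp_monomial (d j : ℕ) (hj : j ≤ d) (c : K) (A B : K[X]) :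
    homComp d (C c * X ^ j) A B = C c * A ^ j * B ^ (d - j) := by
  unfold homComp
  rw [Finset.sum_eq_single j]
  · rw [coeff_C_mul, coeff_X_pow_self, mul_one]
  · intro i _ hij
    rw [coeff_C_mul, coeff_X_pow, if_neg hij, mul_zero, C_0, zero_mul, zero_mul]
  · intro h
    exact absurd (Finset.mem_range.mpr (Nat.lt_succ_of_le hj)) h

private lemma mc1_homComp_pow (d i : ℕ) (hi : i ≤ d) (a b : K) (A B : K[X]) :
    homComp d ((C a * X + C b) ^ i) A B = (C a * A + C b * B) ^ i * B ^ (d - i) := by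
  have h1 : (C a * X + C b : K[X]) ^ i =
      ∑ j ∈ Finset.range (i + 1), C (a ^ j * b ^ (i - j) * (i.choose j : K)) * X ^ j := by
    rw [add_pow]
    refine Finset.sum_congr rfl fun j _ => ?_
    rw [mul_pow, C_mul, C_mul, C_pow, C_pow, C_eq_natCast]
    ring
  rw [h1, mc1_homComp_sum, add_pow, Finset.sum_mul]
  refine Finset.sum_congr rfl fun j hj => ?_
  have hj' : j ≤ i := Nat.lt_succ_iff.mp (Finset.mem_range.mp hj)
  rw [mc1_homComp_monomial d j (hj'.trans hi)]
  have h2 : d - j = (i - j) + (d - i) := by omega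
  rw [h2, pow_add, C_mul, C_mul, C_pow, C_pow, C_eq_natCast, mul_pow, mul_pow]
  ring

private lemma mc1_homComp_comp (d : ℕ) (P : K[X]) (hP : P.natDegree ≤ d) (a b : K)
    (A B : K[X]) :
    homComp d (P.comp (C a * X + C b)) A B = homComp d P (C a * A + C b * B) B := by
  have h1 : P.comp (C a * X + C b) =
      ∑ i ∈ Finset.range (d + 1), C (P.coeff i) * (C a * X + C b) ^ i := by
    conv_lhs => rw [P.as_sum_range_C_mul_X_pow' (Nat.lt_succ_of_le hP)]
    rw [Polynomial.sum_comp]
    refine Finset.sum_congr rfl fun i _ => ?_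
    rw [mul_comp, C_comp, X_pow_comp]
  rw [h1, mc1_homComp_sum]
  unfold homComp
  refine Finset.sum_congr rfl fun i hi => ?_
  have hi' : i ≤ d := Nat.lt_succ_iff.mp (Finset.mem_range.mp hi)
  have h2 := mc1_homComp_C_mul d (P.coeff i) ((C a * X + C b) ^ i) A B
  have h3 := mc1_homComp_pow d i hi' a b A B
  unfold homComp at h2 h3
  rw [h2, h3]
  ring

private lemma mc1_reflect (d : ℕ) (P : K[X]) (hP : P.natDegree ≤ d) (Y : K[X]) :
    (P.reflect d).comp Y = homComp d P 1 Y := by
  have h1 : P.reflect d = ∑ i ∈ Finset.range (d + 1), C (P.coeff i) * X ^ (d - i) := by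
    ext n
    rw [coeff_reflect, finsetSum_coeff]
    by_cases hn : n ≤ d
    · rw [revAt_le hn, Finset.sum_eq_single (d - n)]
      · rw [coeff_C_mul, show d - (d - n) = n by omega, coeff_X_pow_self, mul_one]
      · intro i hi hne
        have hi' : i ≤ d := Nat.lt_succ_iff.mp (Finset.mem_range.mp hi)
        rw [coeff_C_mul, coeff_X_pow, if_neg (by omega), mul_zero]
      · intro h
        exact absurd (Finset.mem_range.mpr (by omega)) h
    · rw [revAt_eq_self_of_lt (by omega), coeff_eq_zero_of_natDegree_lt (by omega)]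
      symm
      refine Finset.sum_eq_zero fun i hi => ?_
      rw [coeff_C_mul, coeff_X_pow, if_neg (by omega), mul_zero]
  rw [h1, Polynomial.sum_comp]
  unfold homComp
  refine Finset.sum_congr rfl fun i _ => ?_
  rw [mul_comp, C_comp, X_pow_comp, one_pow, mul_one]

private lemma mc1_homComp_C (d : ℕ) (P : K[X]) (hP : P.natDegree ≤ d) (a b e : K) (he : e ≠ 0) :
    homComp d P (C a * X + C b) (C e) = C (e ^ d) * P.comp (C (a / e) * X + C (b / e)) := by
  have h1 : P.comp (C (a / e) * X + C (b / e)) =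
      ∑ i ∈ Finset.range (d + 1), C (P.coeff i) * (C (a / e) * X + C (b / e)) ^ i := by
    conv_lhs => rw [P.as_sum_range_C_mul_X_pow' (Nat.lt_succ_of_le hP)]
    rw [Polynomial.sum_comp]
    refine Finset.sum_congr rfl fun i _ => ?_
    rw [mul_comp, C_comp, X_pow_comp]
  rw [h1, Finset.mul_sum]
  unfold homComp
  refine Finset.sum_congr rfl fun i hi => ?_
  have hi' : i ≤ d := Nat.lt_succ_iff.mp (Finset.mem_range.mp hi)
  have h2 : (C a * X + C b : K[X]) = C e * (C (a / e) * X + C (b / e)) := by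
    rw [mul_add, ← mul_assoc, ← C_mul, ← C_mul, mul_div_cancel₀ _ he, mul_div_cancel₀ _ he]
  have h3 : e ^ d = e ^ i * e ^ (d - i) := by rw [← pow_add]; congr 1; omega
  rw [h2, mul_pow, h3, C_mul, C_pow, C_pow]
  ring

private lemma mc1_eq {d : ℕ} (f g : RatMap K d) (h1 : f.num = g.num) (h2 : f.den = g.den) (n : ℕ) :
    f.multSpec n = g.multSpec n := by
  unfold RatMap.multSpec
  rw [h1, h2]

end mc1

theorem mc1_holds (hB1 : B1S) (hB2 : B2S) (hB3 : B3S) : MC1S := by
  intro K _ _ d f g hd hconj n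
  obtain ⟨a, b, c, e, k, hdet, hk, hnum, hden⟩ := hconj
  by_cases hc : c = 0
  · subst hc
    have hae : a * e ≠ 0 := by simpa using hdet
    have ha : a ≠ 0 := left_ne_zero_of_mul hae
    have he : e ≠ 0 := right_ne_zero_of_mul hae
    have hL : (C (0:K) * X + C e : K[X]) = C e := by rw [C_0, zero_mul, zero_add]
    rw [hL, mc1_homComp_C d _ g.num_le a b e he] at hnum
    rw [hL, mc1_homComp_C d _ g.den_le a b e he] at hden
    obtain ⟨g', hg1, hg2, hg3⟩ := hB1 K d g (a / e) (b / e) hd (div_ne_zero ha he)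
    have hed : e ^ d ≠ 0 := pow_ne_zero _ he
    have hκ : k * e / e ^ d ≠ 0 := div_ne_zero (mul_ne_zero hk he) hed
    obtain ⟨f', hf1, hf2, hf3⟩ := hB3 K d f (k * e / e ^ d) hκ
    have hed' : (C (e ^ d)⁻¹ : K[X]) * C (e ^ d) = 1 := by
      rw [← C_mul, inv_mul_cancel₀ hed, C_1]
    have e1 : g.num.comp (C (a / e) * X + C (b / e)) =
        C (e ^ d)⁻¹ * (C k * (C a * f.num + C b * f.den)) := by
      rw [← hnum, ← mul_assoc, hed', one_mul]
    have e2 : g.den.comp (C (a / e) * X + C (b / e)) =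
        C (e ^ d)⁻¹ * (C k * (C 0 * f.num + C e * f.den)) := by
      rw [← hden, ← mul_assoc, hed', one_mul]
    rw [← hg3 n, ← hf3 n]
    refine (mc1_eq g' f' ?_ ?_ n).symm
    · rw [hg1, hf1, e1, e2]
      have h3 : C (a / e)⁻¹ * (C (e ^ d)⁻¹ * (C k * (C a * f.num + C b * f.den)) -
          C (b / e) * (C (e ^ d)⁻¹ * (C k * (C 0 * f.num + C e * f.den)))) =
          C ((a / e)⁻¹ * (e ^ d)⁻¹ * k * a) * f.num +
          C ((a / e)⁻¹ * (e ^ d)⁻¹ * k * (b - (b / e) * e)) * f.den := by
        simp only [C_mul, C_sub, C_0]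
        ring
      rw [h3, div_mul_cancel₀ _ he, sub_self, mul_zero, C_0, zero_mul, add_zero]
      congr 2
      field_simp
    · rw [hg2, hf2, e2]
      have h3 : C (e ^ d)⁻¹ * (C k * (C 0 * f.num + C e * f.den)) =
          C ((e ^ d)⁻¹ * k * e) * f.den := by
        simp only [C_mul, C_0]
        ring
      rw [h3]
      congr 2
      field_simp
  · have hα : (b * c - a * e) / c ≠ 0 := by
      refine div_ne_zero ?_ hc
      intro h
      apply hdet
      linear_combination -h
    obtain ⟨g1, h11, h12, h13⟩ := hB1 K d g ((b * c - a * e) / c) (a / c) hd hα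
    obtain ⟨g2, h21, h22, h23⟩ := hB2 K d g1 hd
    obtain ⟨g3, h31, h32, h33⟩ := hB1 K d g2 c e hd hc
    obtain ⟨f', hf1, hf2, hf3⟩ := hB3 K d f k hk
    have hL : C ((b * c - a * e) / c) * 1 + C (a / c) * (C c * X + C e) =
        (C a * X + C b : K[X]) := by
      have h4 : C ((b * c - a * e) / c) * 1 + C (a / c) * (C c * X + C e) =
          (C ((a / c) * c) * X + C ((b * c - a * e) / c + (a / c) * e) : K[X]) := by
        simp only [C_mul, C_add]
        ring
      rw [h4]
      congr 2
      · rw [div_mul_cancel₀ _ hc]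
      · congr 1
        field_simp
        ring
    have hcd : g1.den.natDegree ≤ d := g1.den_le
    have hcn : g1.num.natDegree ≤ d := g1.num_le
    have e1 : g2.num.comp (C c * X + C e) = C k * (C c * f.num + C e * f.den) := by
      rw [h21, mc1_reflect d _ hcd, h12, mc1_homComp_comp d _ g.den_le, hL, hden]
    have e2 : g2.den.comp (C c * X + C e) = C k * f.den := by
      rw [h22, mc1_reflect d _ hcn, h11, mc1_homComp_C_mul, mc1_homComp_sub,
        mc1_homComp_C_mul, mc1_homComp_comp d _ g.num_le, mc1_homComp_comp d _ g.den_le, hL,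
        hnum, hden]
      have h5 : C ((b * c - a * e) / c)⁻¹ * (C k * (C a * f.num + C b * f.den) -
          C (a / c) * (C k * (C c * f.num + C e * f.den))) =
          C (((b * c - a * e) / c)⁻¹ * k * (a - (a / c) * c)) * f.num +
          C (((b * c - a * e) / c)⁻¹ * k * (b - (a / c) * e)) * f.den := by
        simp only [C_mul, C_sub]
        ring
      rw [h5, div_mul_cancel₀ _ hc, sub_self, mul_zero, C_0, zero_mul, zero_add]
      congr 2
      have h6 : b - (a / c) * e = (b * c - a * e) / c := by field_simp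
      rw [h6, mul_comm _ k, mul_assoc, inv_mul_cancel₀ hα, mul_one]
    rw [← h13 n, ← h23 n, ← h33 n, ← hf3 n]
    refine (mc1_eq g3 f' ?_ ?_ n).symm
    · rw [h31, hf1, e1, e2]
      have h7 : C c⁻¹ * (C k * (C c * f.num + C e * f.den) - C e * (C k * f.den)) =
          C (c⁻¹ * c) * (C k * f.num) := by
        simp only [C_mul]
        ring
      rw [h7, inv_mul_cancel₀ hc, C_1, one_mul]
    · rw [h32, hf2, e2]

end Pool.Agent.LenSpec
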