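import Pool.Agent.LenSpec.GIDefs

/-!
Module MC2: conjugacy is an equivalence relation.
-/

namespace Pool.Agent.LenSpec

open Polynomial

namespace MC2

variable {K : Type} [Field K]

theorem homComp_eq_aeval (d : ℕ) (P A B : K[X]) :
    homComp d P A B = MvPolynomial.aeval ![A, B] (P.homogenize d) := by
  unfold homComp homogenize
  rw [Finset.Nat.sum_antidiagonal_eq_sum_range_succ_mk, map_sum]
  apply Finset.sum_congr rfl
  intro i hi
  rw [MvPolynomial.aeval_monomial, Finsupp.update_eq_add_single (by simp),
    Finsupp.prod_add_index' (by simp) (by intro a b c; rw [pow_add]),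
    Finsupp.prod_single_index (by simp), Finsupp.prod_single_index (by simp)]
  simp [mul_assoc]

theorem homComp_pair (d : ℕ) (P U V : K[X]) (a b c e : K) (_ : P.natDegree ≤ d) :
    homComp d (homComp d P (C a * X + C b) (C c * X + C e)) U V =
      homComp d P (C a * U + C b * V) (C c * U + C e * V) := by
  have h1 : ((homComp d P (C a * X + C b) (C c * X + C e))).homogenize d =
      MvPolynomial.aeval ![MvPolynomial.C a * MvPolynomial.X 0 + MvPolynomial.C b * MvPolynomial.X 1,
        MvPolynomial.C c * MvPolynomial.X 0 + MvPolynomial.C e * MvPolynomial.X 1]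
        (P.homogenize d) := by
    apply homogenize_eq_of_isHomogeneous
    · have h2 := (isHomogeneous_homogenize (n := d) P).aeval
        (![MvPolynomial.C a * MvPolynomial.X 0 + MvPolynomial.C b * MvPolynomial.X 1,
        MvPolynomial.C c * MvPolynomial.X 0 + MvPolynomial.C e * MvPolynomial.X 1] :
        Fin 2 → MvPolynomial (Fin 2) K) (n := 1) (by
          intro i
          fin_cases i
          · exact ((MvPolynomial.isHomogeneous_C_mul_X a 0).add
              (MvPolynomial.isHomogeneous_C_mul_X b 1))
          · exact ((MvPolynomial.isHomogeneous_C_mul_X c 0).add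
              (MvPolynomial.isHomogeneous_C_mul_X e 1)))
      rw [one_mul] at h2
      exact h2
    · rw [homComp_eq_aeval, ← AlgHom.comp_apply]
      congr 1
      ext i
      fin_cases i <;> simp
  rw [homComp_eq_aeval, h1, homComp_eq_aeval, ← AlgHom.comp_apply]
  congr 1
  ext i
  fin_cases i <;> simp

theorem homComp_lin (d : ℕ) (P Q A B : K[X]) (r s : K) :
    homComp d (C r * P + C s * Q) A B = C r * homComp d P A B + C s * homComp d Q A B := by
  unfold homComp
  rw [Finset.mul_sum, Finset.mul_sum, ← Finset.sum_add_distrib]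
  apply Finset.sum_congr rfl
  intro i _
  simp only [coeff_add, coeff_C_mul, C_add, C_mul]
  ring

theorem homComp_X_one (d : ℕ) (P : K[X]) (hP : P.natDegree ≤ d) : homComp d P X 1 = P := by
  rw [homComp_eq_aeval, aeval_homogenize_X_one _ hP]

theorem homComp_smul (d : ℕ) (P A B : K[X]) (r : K) :
    homComp d P (C r * A) (C r * B) = C (r ^ d) * homComp d P A B := by
  unfold homComp
  rw [Finset.mul_sum]
  apply Finset.sum_congr rfl
  intro i hi
  have hid : i ≤ d := Nat.lt_succ_iff.1 (Finset.mem_range.1 hi)
  have h1 : r ^ d = r ^ i * r ^ (d - i) := by rw [← pow_add, Nat.add_sub_cancel' hid]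
  rw [h1, C_mul, C_pow, C_pow]
  ring

end MC2

open MC2 in
theorem MC2_holds : MC2S := by
  intro K _ d _
  refine ⟨?_, ?_, ?_⟩
  · intro f
    refine ⟨1, 0, 0, 1, 1, by simp, one_ne_zero, ?_, ?_⟩
    · have h := homComp_X_one d f.num f.num_le
      simpa using h
    · have h := homComp_X_one d f.den f.den_le
      simpa using h
  · rintro f g ⟨a, b, c, e, k, hD, hk, h1, h2⟩
    obtain ⟨D, hDD⟩ : ∃ D, D = a * e - b * c := ⟨_, rfl⟩
    have hD0 : D ≠ 0 := by rw [hDD]; exact hD
    have hkD : C ((k * D)⁻¹) * (C (k * D)) = (1 : K[X]) := by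
      rw [← C_mul, inv_mul_cancel₀ (mul_ne_zero hk hD0), C_1]
    have hP : f.num = C ((k * D)⁻¹ * e) * homComp d g.num (C a * X + C b) (C c * X + C e) +
        C (-((k * D)⁻¹ * b)) * homComp d g.den (C a * X + C b) (C c * X + C e) := by
      rw [h1, h2]
      have h3 : (C D : K[X]) = C a * C e - C b * C c := by
        rw [hDD]
        simp only [C_sub, C_mul]
      rw [C_mul, h3] at hkD
      simp only [C_mul, C_neg]
      linear_combination (-f.num) * hkD
    have hQ : f.den = C (-((k * D)⁻¹ * c)) * homComp d g.num (C a * X + C b) (C c * X + C e) +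
        C ((k * D)⁻¹ * a) * homComp d g.den (C a * X + C b) (C c * X + C e) := by
      rw [h1, h2]
      have h3 : (C D : K[X]) = C a * C e - C b * C c := by
        rw [hDD]
        simp only [C_sub, C_mul]
      rw [C_mul, h3] at hkD
      simp only [C_mul, C_neg]
      linear_combination (-f.den) * hkD
    have hU : C a * (C e * X + C (-b)) + C b * (C (-c) * X + C a) = C D * (X : K[X]) := by
      rw [hDD]
      simp only [C_sub, C_mul, C_neg]
      ring
    have hV : C c * (C e * X + C (-b)) + C e * (C (-c) * X + C a) = C D * (1 : K[X]) := by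
      rw [hDD]
      simp only [C_sub, C_mul, C_neg]
      ring
    refine ⟨e, -b, -c, a, D ^ d * (k * D)⁻¹, ?_, ?_, ?_, ?_⟩
    · intro h
      apply hD
      rw [← h]
      ring
    · exact mul_ne_zero (pow_ne_zero _ hD0) (inv_ne_zero (mul_ne_zero hk hD0))
    · nth_rewrite 1 [hP]
      rw [homComp_lin, homComp_pair _ _ _ _ _ _ _ _ g.num_le,
        homComp_pair _ _ _ _ _ _ _ _ g.den_le, hU, hV, homComp_smul, homComp_smul,
        homComp_X_one _ _ g.num_le, homComp_X_one _ _ g.den_le]
      simp only [C_mul, C_neg]
      ring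
    · nth_rewrite 1 [hQ]
      rw [homComp_lin, homComp_pair _ _ _ _ _ _ _ _ g.num_le,
        homComp_pair _ _ _ _ _ _ _ _ g.den_le, hU, hV, homComp_smul, homComp_smul,
        homComp_X_one _ _ g.num_le, homComp_X_one _ _ g.den_le]
      simp only [C_mul, C_neg]
      ring
  · rintro f g h ⟨a, b, c, e, k, hD, hk, h1, h2⟩ ⟨a', b', c', e', k', hD', hk', h1', h2'⟩
    have hU : C (a' * a + b' * c) * X + C (a' * b + b' * e) =
        C a' * (C a * X + C b) + C b' * (C c * X + C e : K[X]) := by
      simp only [C_add, C_mul]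
      ring
    have hV : C (c' * a + e' * c) * X + C (c' * b + e' * e) =
        C c' * (C a * X + C b) + C e' * (C c * X + C e : K[X]) := by
      simp only [C_add, C_mul]
      ring
    refine ⟨a' * a + b' * c, a' * b + b' * e, c' * a + e' * c, c' * b + e' * e, k' * k, ?_,
      mul_ne_zero hk' hk, ?_, ?_⟩
    · intro h0
      apply mul_ne_zero hD' hD
      rw [← h0]
      ring
    · rw [hU, hV, ← homComp_pair _ _ _ _ _ _ _ _ h.num_le, h1']
      have h3 : C k' * (C a' * g.num + C b' * g.den) = C (k' * a') * g.num + C (k' * b') * g.den := by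
        simp only [C_mul]
        ring
      rw [h3, homComp_lin, h1, h2]
      simp only [C_mul, C_add]
      ring
    · rw [hU, hV, ← homComp_pair _ _ _ _ _ _ _ _ h.den_le, h2']
      have h3 : C k' * (C c' * g.num + C e' * g.den) = C (k' * c') * g.num + C (k' * e') * g.den := by
        simp only [C_mul]
        ring
      rw [h3, homComp_lin, h1, h2]
      simp only [C_mul, C_add]
      ring

end Pool.Agent.LenSpec
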