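import Pool.Agent.LenSpec.GIDefs

/-!
NF1: the normal form of a rational map by its fixed points.
-/

namespace Pool.Agent.LenSpec

open Polynomial

namespace NF1

variable {K : Type} [Field K]

theorem homComp_reflect (d : ℕ) (P U V : K[X]) :
    homComp d (P.reflect d) U V = homComp d P V U := by
  unfold homComp
  rw [← Finset.sum_range_reflect]
  refine Finset.sum_congr rfl fun i hi => ?_
  have hi' : i ≤ d := Nat.lt_succ_iff.mp (Finset.mem_range.mp hi)
  have e1 : d + 1 - 1 - i = d - i := by omega
  have e2 : d - (d - i) = i := by omega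
  rw [e1, e2, coeff_reflect, revAt_le (Nat.sub_le d i), e2]
  ring

theorem homComp_one (d : ℕ) (P U : K[X]) (hP : P.natDegree ≤ d) :
    homComp d P U 1 = P.comp U := by
  unfold homComp
  conv_rhs => rw [P.as_sum_range_C_mul_X_pow' (Nat.lt_succ_of_le hP)]
  rw [Polynomial.sum_comp]
  refine Finset.sum_congr rfl fun i _ => ?_
  rw [mul_comp, C_comp, X_pow_comp, one_pow, mul_one]

theorem homComp_C_mul (d : ℕ) (c : K) (R A B : K[X]) :
    homComp d (C c * R) A B = C c * homComp d R A B := by
  unfold homComp
  rw [Finset.mul_sum]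
  refine Finset.sum_congr rfl fun i _ => ?_
  rw [coeff_C_mul, C_mul]
  ring

theorem multSpec_one {d : ℕ} (f : RatMap K d) : f.multSpec 1 = fixMult d f.num f.den := by
  unfold RatMap.multSpec
  have h1 : (iter d f.num f.den 1) = (f.num, f.den) := by
    show (homComp d f.num X 1, homComp d f.den X 1) = _
    rw [homComp_one d _ _ f.num_le, homComp_one d _ _ f.den_le, comp_X, comp_X]
  rw [h1, pow_one]

theorem coeff_nfM {d : ℕ} (w ι : Fin d → K) :
    (nfM w ι).coeff (d - 1) = ∑ j, ι j := by
  unfold nfM
  rw [finsetSum_coeff]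
  refine Finset.sum_congr rfl fun j _ => ?_
  have hmon : (∏ l ∈ Finset.univ.erase j, (X - C (w l))).Monic :=
    monic_prod_of_monic _ _ fun l _ => monic_X_sub_C (w l)
  have hdeg : (∏ l ∈ Finset.univ.erase j, (X - C (w l))).natDegree = d - 1 := by
    rw [natDegree_prod_of_monic _ _ fun l _ => monic_X_sub_C (w l)]
    simp
  rw [coeff_C_mul]
  have := hmon.coeff_natDegree
  rw [hdeg] at this
  rw [this, mul_one]

theorem degree_nfM {d : ℕ} (hd : 1 ≤ d) (w ι : Fin d → K) : (nfM w ι).degree < d := by
  unfold nfM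
  refine lt_of_le_of_lt (degree_sum_le _ _) ?_
  rw [Finset.sup_lt_iff (by exact_mod_cast (WithBot.bot_lt_coe d))]
  intro j _
  refine lt_of_le_of_lt degree_le_natDegree ?_
  refine lt_of_le_of_lt (Nat.cast_le.2 (natDegree_C_mul_le _ _)) ?_
  have hdeg : (∏ l ∈ Finset.univ.erase j, (X - C (w l))).natDegree = d - 1 := by
    rw [natDegree_prod_of_monic _ _ fun l _ => monic_X_sub_C (w l)]
    simp
  rw [hdeg]
  exact_mod_cast Nat.sub_lt hd one_pos

theorem eval_nfM {d : ℕ} (w ι : Fin d → K) (j : Fin d) :
    (nfM w ι).eval (w j) = ι j * ∏ l ∈ Finset.univ.erase j, (w j - w l) := by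
  unfold nfM
  rw [eval_finsetSum, Finset.sum_eq_single j]
  · rw [eval_mul, eval_C, eval_prod]
    simp
  · intro i _ hij
    rw [eval_mul, eval_prod]
    rw [Finset.prod_eq_zero (Finset.mem_erase.2 ⟨fun h => hij h.symm, Finset.mem_univ j⟩), mul_zero]
    simp
  · intro h
    exact absurd (Finset.mem_univ j) h

/-- The core: a map for which infinity is a fixed point. -/
theorem core [IsAlgClosed K] {d : ℕ} (hd : 2 ≤ d) (g : RatMap K d) (h3 : B3S)
    (hden : g.den.coeff d = 0) (hmul : ∀ x ∈ g.multSpec 1, x ≠ 1) (x₀ : K)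
    (hx₀ : x₀ = g.den.coeff (d - 1) / g.num.coeff d) :
    ∃ (w ι : Fin d → K) (f₁ : RatMap K d) (c : K), c ≠ 0 ∧ Function.Injective w ∧
      (∀ j, ι j ≠ 0) ∧ IsNf f₁ w ι ∧ f₁.num = C c * g.num ∧ f₁.den = C c * g.den ∧
      1 - ∑ j, ι j = (1 - x₀)⁻¹ ∧
      g.multSpec 1 = x₀ ::ₘ Finset.univ.val.map (fun j => 1 - (ι j)⁻¹) := by
  set A := g.num with hA
  set B := g.den with hB
  have hBd : B.natDegree < d := by
    rcases lt_or_eq_of_le g.den_le with h | h
    · exact h
    · exfalso
      have h1 : B.leadingCoeff = 0 := by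
        rw [leadingCoeff, h]; exact hden
      rw [leadingCoeff_eq_zero] at h1
      rw [← hB, h1, natDegree_zero] at h
      omega
  have hAd : A.natDegree = d := by
    rcases g.deg_eq with h | h
    · exact h
    · rw [← hB] at h; omega
  have hAne : A.coeff d ≠ 0 := by
    have h1 : A ≠ 0 := by
      intro h; rw [h, natDegree_zero] at hAd; omega
    have h2 := leadingCoeff_ne_zero.2 h1
    rwa [leadingCoeff, hAd] at h2
  set F := A - X * B with hF
  have hXB : (X * B).natDegree ≤ d := by
    refine natDegree_mul_le.trans ?_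
    rw [natDegree_X]; omega
  have hFd : F.natDegree ≤ d := (natDegree_sub_le _ _).trans (max_le hAd.le hXB)
  have hcoef : F.coeff d = A.coeff d - B.coeff (d - 1) := by
    rw [hF, coeff_sub]
    congr 1
    obtain ⟨e, rfl⟩ : ∃ e, d = e + 1 := ⟨d - 1, by omega⟩
    rw [coeff_X_mul]
    rfl
  have hinf : multInf A B = x₀ := by
    unfold multInf
    rw [hx₀]
    split_ifs with h
    · rw [leadingCoeff, leadingCoeff, hAd]
      have h1 : B.natDegree = d - 1 := by omega
      rw [h1]
    · have h1 : B.coeff (d - 1) = 0 := coeff_eq_zero_of_natDegree_lt (by omega)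
      rw [h1, zero_div]
  have hms : g.multSpec 1 = F.roots.map (derivAt A B) +
      Multiset.replicate (d + 1 - F.natDegree) (multInf A B) := multSpec_one g
  have hx1 : x₀ ≠ 1 := by
    apply hmul
    rw [hms, hinf]
    refine Multiset.mem_add.2 (Or.inr (Multiset.mem_replicate.2 ⟨by omega, rfl⟩))
  have hlc : F.coeff d ≠ 0 := by
    rw [hcoef]
    intro h
    apply hx1
    rw [hx₀, ← sub_eq_zero.1 h, div_self hAne]
  have hFdeg : F.natDegree = d := le_antisymm hFd (le_natDegree_of_ne_zero hlc)
  have hF0 : F ≠ 0 := by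
    intro h; rw [h, natDegree_zero] at hFdeg; omega
  have hlead : F.leadingCoeff = F.coeff d := by rw [leadingCoeff, hFdeg]
  -- roots are simple
  have hroot : ∀ z, F.IsRoot z → B.eval z ≠ 0 ∧ A.eval z = z * B.eval z ∧
      derivAt A B z = 1 + (derivative F).eval z / B.eval z := by
    intro z hz
    have hz1 : A.eval z = z * B.eval z := by
      have := hz.eq_zero
      rw [hF, eval_sub, eval_mul, eval_X, sub_eq_zero] at this
      exact this
    have hz2 : B.eval z ≠ 0 := by
      intro h
      obtain ⟨u, v, huv⟩ := g.coprime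
      have := congrArg (eval z) huv
      rw [← hA, ← hB, eval_add, eval_mul, eval_mul, hz1, h, mul_zero, mul_zero, mul_zero,
        add_zero, eval_one] at this
      exact zero_ne_one this
    refine ⟨hz2, hz1, ?_⟩
    unfold derivAt
    rw [hF, derivative_sub, derivative_mul, derivative_X, one_mul, eval_sub, eval_add, eval_mul,
      eval_X, hz1]
    field_simp
    ring
  have hsimple : ∀ z, F.IsRoot z → (derivative F).eval z ≠ 0 := by
    intro z hz h
    have h1 := (hroot z hz).2.2
    rw [h, zero_div, add_zero] at h1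
    refine hmul _ ?_ h1
    rw [hms]
    exact Multiset.mem_add.2 (Or.inl (Multiset.mem_map_of_mem _ ((mem_roots hF0).2 hz)))
  have hnodup : F.roots.Nodup := by
    classical
    rw [Multiset.nodup_iff_count_le_one]
    intro z
    rw [count_roots]
    by_contra hcon
    push Not at hcon
    have h1 := (one_lt_rootMultiplicity_iff_isRoot hF0).1 hcon
    exact hsimple z h1.1 h1.2
  have hcard : Multiset.card F.roots = d := by
    rw [← (IsAlgClosed.splits F).natDegree_eq_card_roots, hFdeg]
  -- enumerate the roots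
  obtain ⟨w, hwinj, hw⟩ : ∃ w : Fin d → K, Function.Injective w ∧
      F.roots = Finset.univ.val.map w := by
    classical
    have hc : F.roots.toFinset.card = d := by
      rw [Multiset.toFinset_card_of_nodup hnodup, hcard]
    let e := F.roots.toFinset.equivFinOfCardEq hc
    refine ⟨fun j => (e.symm j : K), fun i j hij => e.symm.injective (Subtype.ext hij), ?_⟩
    have h1 : Finset.univ.val.map (fun j => (e.symm j : K)) =
        (Finset.univ.map ⟨fun j => (e.symm j : K),
          fun i j hij => e.symm.injective (Subtype.ext hij)⟩).val := rfl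
    rw [h1]
    have h2 : Finset.univ.map (⟨fun j => (e.symm j : K),
          fun i j hij => e.symm.injective (Subtype.ext hij)⟩ : Fin d ↪ K) = F.roots.toFinset := by
      ext z
      simp only [Finset.mem_map, Finset.mem_univ, true_and, Function.Embedding.coeFn_mk]
      constructor
      · rintro ⟨j, rfl⟩
        exact (e.symm j).2
      · intro hz
        exact ⟨e ⟨z, hz⟩, by simp⟩
    rw [h2, Multiset.toFinset_val, Multiset.dedup_eq_self.2 hnodup]
  have hprod : F = C (F.coeff d) * nfR w := by
    have h1 := (IsAlgClosed.splits F).eq_prod_roots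
    rw [hlead] at h1
    conv_lhs => rw [h1]
    rw [hw, Multiset.map_map]
    rfl
  have hwroot : ∀ j, F.IsRoot (w j) := by
    intro j
    rw [← mem_roots hF0, hw]
    exact Multiset.mem_map_of_mem _ (Finset.mem_univ j)
  have hder : ∀ j, (derivative F).eval (w j) =
      F.coeff d * ∏ l ∈ Finset.univ.erase j, (w j - w l) := by
    intro j
    conv_lhs => rw [hprod]
    rw [derivative_mul, derivative_C, zero_mul, zero_add, eval_mul, eval_C]
    congr 1
    unfold nfR
    rw [derivative_prod_finset, eval_finsetSum, Finset.sum_eq_single j]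
    · rw [eval_mul, eval_prod, derivative_sub, derivative_X, derivative_C, sub_zero, eval_one,
        mul_one]
      simp
    · intro i _ hij
      rw [eval_mul, eval_prod]
      rw [Finset.prod_eq_zero (Finset.mem_erase.2 ⟨fun h => hij h.symm, Finset.mem_univ j⟩),
        zero_mul]
      simp
    · intro h
      exact absurd (Finset.mem_univ j) h
  have hPne : ∀ j, ∏ l ∈ Finset.univ.erase j, (w j - w l) ≠ 0 := by
    intro j
    rw [Finset.prod_ne_zero_iff]
    intro l hl h
    exact (Finset.ne_of_mem_erase hl) (hwinj (sub_eq_zero.1 h)).symm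
  set c : K := -(F.coeff d)⁻¹ with hc
  have hc0 : c ≠ 0 := neg_ne_zero.2 (inv_ne_zero hlc)
  set ι : Fin d → K := fun j => c * B.eval (w j) / ∏ l ∈ Finset.univ.erase j, (w j - w l) with hι
  have hι0 : ∀ j, ι j ≠ 0 := fun j =>
    div_ne_zero (mul_ne_zero hc0 (hroot _ (hwroot j)).1) (hPne j)
  obtain ⟨f₁, hn, hdn, -⟩ := h3 K d g c hc0
  have hdenM : C c * B = nfM w ι := by
    refine Polynomial.eq_of_degrees_lt_of_eval_index_eq Finset.univ
      (v := w) hwinj.injOn ?_ ?_ ?_
    · rw [Finset.card_univ, Fintype.card_fin]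
      refine lt_of_le_of_lt degree_le_natDegree ?_
      refine lt_of_le_of_lt (Nat.cast_le.2 (natDegree_C_mul_le _ _)) ?_
      exact_mod_cast hBd
    · rw [Finset.card_univ, Fintype.card_fin]
      exact degree_nfM (by omega) w ι
    · intro j _
      rw [eval_nfM, eval_mul, eval_C, hι]
      simp only
      rw [div_mul_cancel₀ _ (hPne j)]
  have hnumM : C c * A = X * nfM w ι - nfR w := by
    rw [← hdenM]
    have h1 : A = C (F.coeff d) * nfR w + X * B := by
      rw [← hprod, hF]; ring
    have h2 : C c * C (F.coeff d) = (-1 : K[X]) := by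
      rw [← C_mul, hc, neg_mul, inv_mul_cancel₀ hlc]
      simp
    calc C c * A = C c * (C (F.coeff d) * nfR w + X * B) := by rw [← h1]
      _ = (C c * C (F.coeff d)) * nfR w + X * (C c * B) := by ring
      _ = _ := by rw [h2]; ring
  refine ⟨w, ι, f₁, c, hc0, hwinj, hι0, ⟨?_, ?_⟩, hn, hdn, ?_, ?_⟩
  · rw [hn]; exact hnumM
  · rw [hdn]; exact hdenM
  · have h1 : ∑ j, ι j = c * B.coeff (d - 1) := by
      rw [← coeff_nfM w ι, ← hdenM, coeff_C_mul]
    rw [h1, hc, hx₀, hcoef]
    rw [hcoef] at hlc
    have h2 : 1 - B.coeff (d - 1) / A.coeff d = (A.coeff d - B.coeff (d - 1)) / A.coeff d := by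
      rw [sub_div, div_self hAne]
    rw [h2, inv_div]
    field_simp
    ring
  · rw [hms, hinf, hFdeg, hw]
    have h1 : d + 1 - d = 1 := by omega
    rw [h1, Multiset.replicate_one, add_comm, Multiset.singleton_add, Multiset.map_map]
    congr 1
    refine Multiset.map_congr rfl fun j _ => ?_
    have h2 := hroot (w j) (hwroot j)
    show derivAt A B (w j) = 1 - (ι j)⁻¹
    rw [h2.2.2, hder j, hι]
    simp only
    rw [hc, inv_div]
    have h3 := h2.1
    have h4 := hPne j
    field_simp
    ring

end NF1

/-- NF1. -/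
theorem NF1_holds (h1 : B1S) (h2 : B2S) (h3 : B3S) : NF1S := by
  intro K _ _ d f hd hmul x₀ hx₀
  have hms := NF1.multSpec_one f
  rw [hms, fixMult, Multiset.mem_add] at hx₀
  rcases hx₀ with hx | hx
  · -- a finite fixed point
    obtain ⟨z, hz, hzx⟩ := Multiset.mem_map.1 hx
    have hF0 : f.num - X * f.den ≠ 0 := by
      intro h; rw [h, roots_zero] at hz; exact Multiset.notMem_zero _ hz
    have hz1 : f.num.eval z = z * f.den.eval z := by
      have := ((mem_roots hF0).1 hz).eq_zero
      rw [eval_sub, eval_mul, eval_X, sub_eq_zero] at this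
      exact this
    have hz2 : f.den.eval z ≠ 0 := by
      intro h
      obtain ⟨u, v, huv⟩ := f.coprime
      have := congrArg (eval z) huv
      rw [eval_add, eval_mul, eval_mul, hz1, h, mul_zero, mul_zero, mul_zero,
        add_zero, eval_one] at this
      exact zero_ne_one this
    obtain ⟨f', hn', hd', hm'⟩ := h1 K d f 1 z (by omega) one_ne_zero
    obtain ⟨g, hng, hdg, hmg⟩ := h2 K d f' (by omega)
    have hmgf : g.multSpec 1 = f.multSpec 1 := (hmg 1).trans (hm' 1)
    rw [inv_one, C_1, one_mul, one_mul] at hn'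
    rw [C_1, one_mul] at hd'
    have hzero : f'.num.eval 0 = 0 := by
      rw [hn']
      simp [eval_comp, hz1]
    have hc1 : g.den.coeff d = 0 := by
      rw [hdg, coeff_reflect, revAt_le le_rfl, Nat.sub_self, coeff_zero_eq_eval_zero, hzero]
    have hc2 : g.num.coeff d = f.den.eval z := by
      rw [hng, coeff_reflect, revAt_le le_rfl, Nat.sub_self, coeff_zero_eq_eval_zero, hd']
      simp [eval_comp]
    have hc3 : g.den.coeff (d - 1) =
        (derivative f.num).eval z - z * (derivative f.den).eval z := by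
      have e1 : d - (d - 1) = 1 := by omega
      rw [hdg, coeff_reflect, revAt_le (Nat.sub_le d 1), e1]
      have e2 : f'.num.coeff 1 = (derivative f'.num).eval 0 := by
        rw [← coeff_zero_eq_eval_zero, coeff_derivative]
        simp
      rw [e2, hn']
      simp [derivative_comp, eval_comp]
    have hx0 : x₀ = g.den.coeff (d - 1) / g.num.coeff d := by
      rw [hc2, hc3, ← hzx]
      unfold derivAt
      rw [hz1]
      field_simp
    obtain ⟨w, ι, f₁, c, hc0, hw, hι, hnf, hn, hdn, hs, hsp⟩ :=
      NF1.core hd g h3 hc1 (by rw [hmgf]; exact hmul) x₀ hx0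
    refine ⟨w, ι, f₁, hw, hι, hnf, ⟨0, 1, 1, -z, c, by simp, hc0, ?_, ?_⟩, hs, ?_⟩
    · rw [hn, NF1.homComp_C_mul, hng, NF1.homComp_reflect]
      simp only [C_0, zero_mul, C_1, one_mul, zero_add]
      rw [NF1.homComp_one _ _ _ f'.den_le, hd', comp_assoc]
      congr 1
      simp
    · rw [hdn, NF1.homComp_C_mul, hdg, NF1.homComp_reflect]
      simp only [C_0, zero_mul, C_1, one_mul, zero_add]
      rw [NF1.homComp_one _ _ _ f'.num_le, hn']
      congr 1
      rw [sub_comp, mul_comp, C_comp, comp_assoc, comp_assoc]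
      simp
      ring
    · rw [← hmgf]; exact hsp
  · -- infinity
    obtain ⟨hx1, hx2⟩ := Multiset.mem_replicate.1 hx
    have hdeg : (f.num - X * f.den).natDegree ≤ d := by omega
    have hc1 : f.den.coeff d = 0 := by
      have h4 : (f.num - X * f.den).coeff (d + 1) = 0 :=
        coeff_eq_zero_of_natDegree_lt (by omega)
      rw [coeff_sub, coeff_X_mul, coeff_eq_zero_of_natDegree_lt
        (lt_of_le_of_lt f.num_le (Nat.lt_succ_self d)), zero_sub, neg_eq_zero] at h4
      exact h4
    have hBd : f.den.natDegree < d := by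
      rcases lt_or_eq_of_le f.den_le with h | h
      · exact h
      · exfalso
        have h5 : f.den.leadingCoeff = 0 := by
          rw [leadingCoeff, h]; exact hc1
        rw [leadingCoeff_eq_zero] at h5
        rw [h5, natDegree_zero] at h
        omega
    have hAd : f.num.natDegree = d := by
      rcases f.deg_eq with h | h
      · exact h
      · omega
    have hx0 : x₀ = f.den.coeff (d - 1) / f.num.coeff d := by
      rw [hx2]
      unfold multInf
      split_ifs with h
      · rw [leadingCoeff, leadingCoeff, hAd]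
        have h1 : f.den.natDegree = d - 1 := by omega
        rw [h1]
      · have h1 : f.den.coeff (d - 1) = 0 := coeff_eq_zero_of_natDegree_lt (by omega)
        rw [h1, zero_div]
    obtain ⟨w, ι, f₁, c, hc0, hw, hι, hnf, hn, hdn, hs, hsp⟩ :=
      NF1.core hd f h3 hc1 hmul x₀ hx0
    refine ⟨w, ι, f₁, hw, hι, hnf, ⟨1, 0, 0, 1, c, by simp, hc0, ?_, ?_⟩, hs, hsp⟩
    · rw [hn, NF1.homComp_C_mul]
      simp only [C_0, zero_mul, C_1, one_mul, zero_add, add_zero]
      rw [NF1.homComp_one _ _ _ f.num_le, comp_X]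
    · rw [hdn, NF1.homComp_C_mul]
      simp only [C_0, zero_mul, C_1, one_mul, zero_add, add_zero]
      rw [NF1.homComp_one _ _ _ f.den_le, comp_X]

end Pool.Agent.LenSpec
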