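import Pool.Agent.LenSpec.GIDefs

/-!
Module NF2: affine change of coordinate in the normal form.
-/

namespace Pool.Agent.LenSpec

open Polynomial

namespace NF2

variable {K : Type} [Field K] {d : ℕ}

theorem nfR_natDegree (w : Fin d → K) : (nfR w).natDegree = d := by
  unfold nfR
  rw [natDegree_prod_of_monic _ _ (fun j _ => monic_X_sub_C (w j))]
  simp

theorem nfM_natDegree (w ι : Fin d → K) : (nfM w ι).natDegree ≤ d - 1 := by
  classical
  unfold nfM
  apply natDegree_sum_le_of_forall_le
  intro j _
  refine (natDegree_C_mul_le _ _).trans ?_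
  rw [natDegree_prod_of_monic _ _ (fun l _ => monic_X_sub_C (w l))]
  simp [Finset.card_erase_of_mem]

theorem nfR_comp (w : Fin d → K) (a b : K) :
    (nfR (fun j => a * w j + b)).comp (C a * X + C b) = C (a ^ d) * nfR w := by
  unfold nfR
  rw [prod_comp]
  have h : ∀ j : Fin d, (X - C (a * w j + b)).comp (C a * X + C b) = C a * (X - C (w j)) := by
    intro j
    rw [sub_comp, X_comp, C_comp, C_add, C_mul]
    ring
  rw [Finset.prod_congr rfl (fun j _ => h j), Finset.prod_mul_distrib, Finset.prod_const]
  simp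

theorem nfM_comp (w ι : Fin d → K) (a b : K) :
    (nfM (fun j => a * w j + b) ι).comp (C a * X + C b) = C (a ^ (d - 1)) * nfM w ι := by
  classical
  unfold nfM
  rw [sum_comp, Finset.mul_sum]
  apply Finset.sum_congr rfl
  intro j _
  rw [mul_comp, C_comp, prod_comp]
  have h : ∀ j : Fin d, (X - C (a * w j + b)).comp (C a * X + C b) = C a * (X - C (w j)) := by
    intro j
    rw [sub_comp, X_comp, C_comp, C_add, C_mul]
    ring
  rw [Finset.prod_congr rfl (fun j _ => h j), Finset.prod_mul_distrib, Finset.prod_const,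
    Finset.card_erase_of_mem (Finset.mem_univ j)]
  simp only [Finset.card_univ, Fintype.card_fin, C_pow]
  ring

theorem homComp_one (P A : K[X]) (hP : P.natDegree ≤ d) : homComp d P A 1 = P.comp A := by
  unfold homComp
  rw [comp, eval₂_eq_sum_range' C (Nat.lt_succ_of_le hP)]
  simp

end NF2

open NF2 in
theorem NF2_holds : NF2S := by
  intro K _ d f w ι a b hd ha _ _ hf
  obtain ⟨hf1, hf2⟩ := hf
  have hcN : (X * nfM (fun j => a * w j + b) ι - nfR (fun j => a * w j + b)).comp
      (C a * X + C b) = C (a ^ (d - 1)) * (C a * f.num + C b * f.den) := by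
    rw [sub_comp, mul_comp, X_comp, nfM_comp, nfR_comp, hf1, hf2]
    have h1 : a ^ d = a ^ (d - 1) * a := by
      rw [← pow_succ]
      congr 1
      omega
    rw [h1]
    simp only [C_mul]
    ring
  have hcM : (nfM (fun j => a * w j + b) ι).comp (C a * X + C b) =
      C (a ^ (d - 1)) * (C 0 * f.num + C 1 * f.den) := by
    rw [nfM_comp, hf2]
    simp
  have hdenlt : f.den.natDegree < d := by
    rw [hf2]
    have := nfM_natDegree w ι
    omega
  have hnum : f.num.natDegree = d := by
    rcases f.deg_eq with h | h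
    · exact h
    · omega
  have hadd : (C a * f.num + C b * f.den).natDegree = d := by
    rw [natDegree_add_eq_left_of_natDegree_lt]
    · rw [natDegree_C_mul ha, hnum]
    · rw [natDegree_C_mul ha, hnum]
      exact lt_of_le_of_lt (natDegree_C_mul_le _ _) hdenlt
  have hapow : a ^ (d - 1) ≠ 0 := pow_ne_zero _ ha
  have hlin : (C a * X + C b : K[X]).natDegree = 1 := natDegree_linear ha
  have hN : (X * nfM (fun j => a * w j + b) ι - nfR (fun j => a * w j + b)).natDegree = d := by
    have h1 := congrArg natDegree hcN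
    rw [natDegree_comp, hlin, mul_one, natDegree_C_mul hapow, hadd] at h1
    exact h1
  have hM : (nfM (fun j => a * w j + b) ι).natDegree ≤ d :=
    (nfM_natDegree _ _).trans (by omega)
  have hcop : IsCoprime (X * nfM (fun j => a * w j + b) ι - nfR (fun j => a * w j + b))
      (nfM (fun j => a * w j + b) ι) := by
    have h2 : IsUnit (C (a ^ (d - 1)) : K[X]) := isUnit_C.2 (isUnit_iff_ne_zero.2 hapow)
    have h3 : IsUnit (C a : K[X]) := isUnit_C.2 (isUnit_iff_ne_zero.2 ha)
    have h1 : IsCoprime (C (a ^ (d - 1)) * (C a * f.num + C b * f.den))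
        (C (a ^ (d - 1)) * (C 0 * f.num + C 1 * f.den)) := by
      rw [isCoprime_mul_unit_left_left h2, isCoprime_mul_unit_left_right h2, C_0, C_1, zero_mul,
        zero_add, one_mul]
      have h4 : IsCoprime (C a * f.num) f.den := by
        rw [isCoprime_mul_unit_left_left h3]
        exact f.coprime
      exact h4.add_mul_right_left (C b)
    rw [← hcN, ← hcM] at h1
    have h5 := h1.map (compRingHom (C a⁻¹ * X + C (-(a⁻¹ * b))))
    have h6 : (C a * X + C b : K[X]).comp (C a⁻¹ * X + C (-(a⁻¹ * b))) = X := by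
      simp only [add_comp, mul_comp, C_comp, X_comp]
      have h7 : C a * C a⁻¹ = (1 : K[X]) := by rw [← C_mul, mul_inv_cancel₀ ha, C_1]
      simp only [C_neg, C_mul]
      linear_combination (X - C b) * h7
    simpa only [coe_compRingHom_apply, comp_assoc, h6, comp_X] using h5
  refine ⟨⟨_, _, hN.le, hM, Or.inl hN, hcop⟩, ⟨rfl, rfl⟩, a, b, 0, 1, a ^ (d - 1), by simpa using ha,
    hapow, ?_, ?_⟩
  · rw [C_0, C_1, zero_mul, zero_add]
    change homComp d (X * nfM (fun j => a * w j + b) ι - nfR (fun j => a * w j + b)) _ _ = _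
    rw [homComp_one _ _ hN.le, hcN]
  · rw [C_0, C_1, zero_mul, zero_add]
    change homComp d (nfM (fun j => a * w j + b) ι) _ _ = _
    rw [homComp_one _ _ hM, hcM, C_0, C_1]

end Pool.Agent.LenSpec
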