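import Pool.Agent.LenSpec.GIDefs
import Pool.Agent.LenSpec.Q1

/-!
Module NF3: generic coordinates.
-/

namespace Pool.Agent.LenSpec

open Polynomial

namespace NF3

variable {K : Type} [Field K] [CharZero K]

/-- the polynomials with coefficients in `L` -/
noncomputable def LR (L : IntermediateField ℚ K) : Subring K[X] :=
  (mapRingHom (algebraMap L K)).range

theorem C_mem {L : IntermediateField ℚ K} {x : K} (h : x ∈ L) : C x ∈ LR L := by
  refine ⟨C (⟨x, h⟩ : L), ?_⟩
  rw [coe_mapRingHom, map_C]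
  rfl

theorem X_mem (L : IntermediateField ℚ K) : X ∈ LR L := by
  refine ⟨X, ?_⟩
  rw [coe_mapRingHom, map_X]

theorem coeff_mem {L : IntermediateField ℚ K} {P : K[X]} (h : P ∈ LR L) (i : ℕ) :
    P.coeff i ∈ L := by
  obtain ⟨Q, rfl⟩ := h
  rw [coe_mapRingHom, coeff_map]
  exact (Q.coeff i).2

theorem homComp_mem {L : IntermediateField ℚ K} {d : ℕ} {P A B : K[X]} (hP : P ∈ LR L)
    (hA : A ∈ LR L) (hB : B ∈ LR L) : homComp d P A B ∈ LR L := by
  unfold homComp
  apply Subring.sum_mem
  intro i _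
  exact mul_mem (mul_mem (C_mem (coeff_mem hP i)) (pow_mem hA i)) (pow_mem hB _)

theorem nfR_mem {L : IntermediateField ℚ K} {d : ℕ} {w : Fin d → K} (h : ∀ j, w j ∈ L) :
    nfR w ∈ LR L := by
  unfold nfR
  apply Subring.prod_mem
  intro j _
  exact sub_mem (X_mem L) (C_mem (h j))

theorem nfM_mem {L : IntermediateField ℚ K} {d : ℕ} {w ι : Fin d → K} (h : ∀ j, w j ∈ L)
    (h' : ∀ j, ι j ∈ L) : nfM w ι ∈ LR L := by
  unfold nfM
  apply Subring.sum_mem
  intro j _
  refine mul_mem (C_mem (h' j)) ?_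
  apply Subring.prod_mem
  intro l _
  exact sub_mem (X_mem L) (C_mem (h l))

end NF3

open NF3 in
theorem NF3_holds : NF3S := by
  intro K _ _ _ d hd f g w ι hf hfg hg hw0 hw1
  refine ⟨hw0, hw1, ?_⟩
  obtain ⟨a, b, c, e, k, hD, hk, h1, h2⟩ := hfg
  obtain ⟨l, hl⟩ := IsAlgClosed.exists_pow_nat_eq (k⁻¹ : K) (show 0 < d - 1 by omega)
  have hl0 : l ≠ 0 := by
    rintro rfl
    rw [zero_pow (by omega)] at hl
    exact inv_ne_zero hk hl.symm
  have hld : l ^ d * k = l := by
    have h3 : l ^ d = l ^ (d - 1) * l := by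
      rw [← pow_succ]
      congr 1
      omega
    rw [h3, hl]
    field_simp
  have hsm : ∀ (P A B : K[X]), homComp d P (C l * A) (C l * B) = C (l ^ d) * homComp d P A B := by
    intro P A B
    unfold homComp
    rw [Finset.mul_sum]
    apply Finset.sum_congr rfl
    intro i hi
    have hid : i ≤ d := Nat.lt_succ_iff.1 (Finset.mem_range.1 hi)
    have h1 : l ^ d = l ^ i * l ^ (d - i) := by rw [← pow_add, Nat.add_sub_cancel' hid]
    rw [h1, C_mul, C_pow, C_pow]
    ring
  have hldC : (C (l ^ d) * C k : K[X]) = C l := by rw [← C_mul, hld]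
  have hA : (C (l * a) * X + C (l * b) : K[X]) = C l * (C a * X + C b) := by
    simp only [C_mul]
    ring
  have hB : (C (l * c) * X + C (l * e) : K[X]) = C l * (C c * X + C e) := by
    simp only [C_mul]
    ring
  have h1' : homComp d g.num (C (l * a) * X + C (l * b)) (C (l * c) * X + C (l * e)) =
      C (l * a) * f.num + C (l * b) * f.den := by
    rw [hA, hB, hsm, h1]
    simp only [C_mul]
    linear_combination (C a * f.num + C b * f.den) * hldC
  have h2' : homComp d g.den (C (l * a) * X + C (l * b)) (C (l * c) * X + C (l * e)) =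
      C (l * c) * f.num + C (l * e) * f.den := by
    rw [hA, hB, hsm, h2]
    simp only [C_mul]
    linear_combination (C c * f.num + C e * f.den) * hldC
  have hD' : (l * a) * (l * e) - (l * b) * (l * c) ≠ 0 := by
    intro h
    apply mul_ne_zero (mul_ne_zero hl0 hl0) hD
    rw [← h]
    ring
  clear h1 h2 hD hk hl hld hldC hA hB hsm
  generalize l * a = a', l * b = b', l * c = c', l * e = e' at h1' h2' hD'
  obtain ⟨D, hDD⟩ : ∃ D, D = a' * e' - b' * c' := ⟨_, rfl⟩
  have hD0 : D ≠ 0 := by rw [hDD]; exact hD'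
  have hDC : (C D⁻¹ * (C a' * C e' - C b' * C c') : K[X]) = 1 := by
    rw [← C_mul, ← C_mul, ← C_sub, ← hDD, ← C_mul, inv_mul_cancel₀ hD0, C_1]
  let y : Fin d ⊕ Fin (d - 2) → K := Sum.elim ι (fun j : Fin (d - 2) => w ⟨j + 2, by omega⟩)
  obtain ⟨E⟩ : Nonempty ((Fin d ⊕ Fin (d - 2)) ⊕ Fin 4 ≃ CI d) := by
    apply Fintype.card_eq.1
    simp only [Fintype.card_sum, Fintype.card_fin, CI]
    omega
  have hmain : AlgebraicIndependent ℚ (Sum.elim y ![a', b', c', e']) := by
    apply Q1.indep_of_alg (hf.comp E E.injective)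
    intro i
    obtain ⟨L, hL⟩ : ∃ L, L = IntermediateField.adjoin ℚ (Set.range (Sum.elim y ![a', b', c', e'])) :=
      ⟨_, rfl⟩
    have hmem : ∀ i, Sum.elim y ![a', b', c', e'] i ∈ L := by
      intro i
      rw [hL]
      exact IntermediateField.subset_adjoin _ _ ⟨i, rfl⟩
    have hι : ∀ j, ι j ∈ L := fun j => hmem (Sum.inl (Sum.inl j))
    have hw : ∀ j, w j ∈ L := by
      intro j
      obtain ⟨j, hj⟩ := j
      rcases j with _ | _ | j
      · rw [hw0]
        exact L.zero_mem
      · rw [hw1]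
        exact L.one_mem
      · exact hmem (Sum.inl (Sum.inr ⟨j, by omega⟩))
    have ha : a' ∈ L := hmem (Sum.inr 0)
    have hb : b' ∈ L := hmem (Sum.inr 1)
    have hc : c' ∈ L := hmem (Sum.inr 2)
    have he : e' ∈ L := hmem (Sum.inr 3)
    have hDL : D⁻¹ ∈ L := by
      rw [hDD]
      exact L.inv_mem (sub_mem (mul_mem ha he) (mul_mem hb hc))
    have hgd : g.den ∈ LR L := by
      rw [hg.2]
      exact nfM_mem hw hι
    have hgn : g.num ∈ LR L := by
      rw [hg.1]
      exact sub_mem (mul_mem (X_mem L) (nfM_mem hw hι)) (nfR_mem hw)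
    have hAm : C a' * X + C b' ∈ LR L := add_mem (mul_mem (C_mem ha) (X_mem L)) (C_mem hb)
    have hBm : C c' * X + C e' ∈ LR L := add_mem (mul_mem (C_mem hc) (X_mem L)) (C_mem he)
    have hfn : f.num ∈ LR L := by
      have h3 : f.num = C D⁻¹ * (C e' *
          homComp d g.num (C a' * X + C b') (C c' * X + C e') -
          C b' * homComp d g.den (C a' * X + C b') (C c' * X + C e')) := by
        rw [h1', h2']
        linear_combination (-f.num) * hDC
      rw [h3]
      exact mul_mem (C_mem hDL) (sub_mem (mul_mem (C_mem he) (homComp_mem hgn hAm hBm))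
        (mul_mem (C_mem hb) (homComp_mem hgd hAm hBm)))
    have hfd : f.den ∈ LR L := by
      have h3 : f.den = C D⁻¹ * (C a' *
          homComp d g.den (C a' * X + C b') (C c' * X + C e') -
          C c' * homComp d g.num (C a' * X + C b') (C c' * X + C e')) := by
        rw [h1', h2']
        linear_combination (-f.den) * hDC
      rw [h3]
      exact mul_mem (C_mem hDL) (sub_mem (mul_mem (C_mem ha) (homComp_mem hgd hAm hBm))
        (mul_mem (C_mem hc) (homComp_mem hgn hAm hBm)))
    have hfc : ∀ i, f.coef i ∈ L := by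
      intro i
      rcases i with i | i
      · exact coeff_mem hfn _
      · exact coeff_mem hfd _
    rw [← IntermediateField.isAlgebraic_adjoin_iff]
    rw [hL] at hfc
    exact isAlgebraic_algebraMap
      (⟨f.coef (E i), hfc (E i)⟩ :
        IntermediateField.adjoin ℚ (Set.range (Sum.elim y ![a', b', c', e'])))
  exact hmain.comp Sum.inl Sum.inl_injective

end Pool.Agent.LenSpec
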