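import Pool.Agent.LenSpec.GIDefs

/-!
RIG: rigidity of configurations.
-/

namespace Pool.Agent.LenSpec

/-- two equivalence relations (given by functions) whose union is everything -/
theorem rig_union {ι α β : Type} (r : ι → α) (q : ι → β) (P : ι → Prop)
    (h : ∀ s l, P s → P l → r s = r l ∨ q s = q l) :
    (∀ s l, P s → P l → r s = r l) ∨ (∀ s l, P s → P l → q s = q l) := by
  classical
  by_cases hr : ∀ s l, P s → P l → r s = r l
  · exact Or.inl hr
  · right
    push Not at hr
    obtain ⟨s, l, hs, hl, hsl⟩ := hr
    have hqsl : q s = q l := (h s l hs hl).resolve_left hsl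
    have key : ∀ t, P t → q t = q s := by
      intro t ht
      rcases h s t hs ht with h1 | h1
      · have h2 : r t ≠ r l := by rw [← h1]; exact hsl
        have h3 := (h t l ht hl).resolve_left h2
        rw [h3, hqsl]
      · exact h1.symm
    intro t u ht hu
    rw [key t ht, key u hu]

theorem RIG_holds : RIGS := by
  intro κ _ _ d c w y hd hG hy hg
  have h0 : 0 < d := by omega
  set o : Fin d := ⟨0, h0⟩ with ho
  set E : Fin d → κ := eE Finset.univ c w with hE
  set F : Fin d → κ := eE Finset.univ c y with hF
  -- the polarised identity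
  have hpol : ∀ s l, (w s - w l) * (E s - E l) = (y s - y l) * (F s - F l) := by
    intro s l
    by_cases hsl : s = l
    · subst hsl; simp
    · have := hg s l hsl
      unfold gG at this
      exact this.symm
  have hw : ∀ s, s ≠ o → w s - w o ≠ 0 := fun s hs h => hs (hG.inj (sub_eq_zero.mp h))
  have hyy : ∀ s, s ≠ o → y s - y o ≠ 0 := fun s hs h => hs (hy (sub_eq_zero.mp h))
  have hEE : ∀ s, s ≠ o → E s - E o ≠ 0 := fun s hs h => hG.e1 s o hs (sub_eq_zero.mp h)
  have key : ∀ s l, s ≠ o → l ≠ o →
      (y s - y o) / (w s - w o) = (y l - y o) / (w l - w o) ∨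
      (y s - y o) / (E s - E o) = (y l - y o) / (E l - E o) := by
    intro s l hs hl
    have a1 := hw s hs
    have a2 := hw l hl
    have b1 := hEE s hs
    have b2 := hEE l hl
    have e1 := hpol s o
    have e2 := hpol l o
    have e3 := hpol s l
    rw [div_eq_div_iff a1 a2, div_eq_div_iff b1 b2]
    have h : ((y s - y o) * (w l - w o) - (y l - y o) * (w s - w o)) *
        ((y s - y o) * (E l - E o) - (y l - y o) * (E s - E o)) = 0 := by
      linear_combination (y s - y o) ^ 2 * e2 + (y l - y o) ^ 2 * e1 -
        (y s - y o) * (y l - y o) * (e1 + e2 - e3)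
    rcases mul_eq_zero.mp h with h | h
    · exact Or.inl (sub_eq_zero.mp h)
    · exact Or.inr (sub_eq_zero.mp h)
  have h1d : 1 < d := by omega
  set i : Fin d := ⟨1, h1d⟩ with hi
  have hio : i ≠ o := by
    intro h
    have := congrArg Fin.val h
    simp [hi, ho] at this
  rcases rig_union (fun s => (y s - y o) / (w s - w o)) (fun s => (y s - y o) / (E s - E o))
    (fun s => s ≠ o) key with h | h
  · refine ⟨(y i - y o) / (w i - w o), div_ne_zero (hyy i hio) (hw i hio), ?_⟩
    have hs : ∀ s, y s - y o = (y i - y o) / (w i - w o) * (w s - w o) := by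
      intro s
      by_cases hs : s = o
      · subst hs; simp
      · have := h s i hs hio
        beta_reduce at this
        rw [← this, div_mul_cancel₀ _ (hw s hs)]
    intro s l
    linear_combination hs s - hs l
  · exfalso
    set q := (y i - y o) / (E i - E o) with hq
    have hq0 : q ≠ 0 := div_ne_zero (hyy i hio) (hEE i hio)
    have hs : ∀ s, y s - y o = q * (E s - E o) := by
      intro s
      by_cases hs : s = o
      · subst hs; simp
      · have := h s i hs hio
        beta_reduce at this
        rw [hq, ← this, div_mul_cancel₀ _ (hEE s hs)]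
    have hsl : ∀ s l, y s - y l = q * (E s - E l) := by
      intro s l
      linear_combination hs s - hs l
    have hFs : ∀ s, F s = (∑ j ∈ Finset.univ.erase s, c j / (E s - E j)) / q := by
      intro s
      rw [hF]
      unfold eE
      rw [Finset.sum_div]
      apply Finset.sum_congr rfl
      intro j _
      rw [hsl s j, div_div, mul_comm q]
    apply hG.e4
    intro s l
    by_cases hne : s = l
    · subst hne; simp
    · have hEsl : E s - E l ≠ 0 := sub_ne_zero.mpr (hG.e1 s l hne)
      have h1 := hpol s l
      rw [hsl s l, hFs s, hFs l] at h1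
      have h2 : (w s - w l) * (E s - E l) =
          ((∑ j ∈ Finset.univ.erase s, c j / (E s - E j)) -
            ∑ j ∈ Finset.univ.erase l, c j / (E l - E j)) * (E s - E l) := by
        rw [h1]
        field_simp
      exact (mul_right_cancel₀ hEsl h2).symm

end Pool.Agent.LenSpec
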