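import Pool.Agent.LenSpec.Defs

/-!
Statements of the modules (as propositions; a module proves `XS` from the listed hypotheses).
-/

namespace Pool.Agent.LenSpec

open Polynomial

/-- the multipliers at the points of exact period `n`, as a set -/
def XS {K : Type} [Field K] (P Q : K[X]) (n : ℕ) : Set K :=
  {x | ∃ z, PerX P Q n z ∧ mult P Q n z = x}

/-! ### A: iterates and orbits -/

/-- A1: values of the iterates along an orbit that avoids infinity -/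
def A1S : Prop := ∀ (K : Type) [Field K] (d n : ℕ) (P Q : K[X]) (z : K),
  P.natDegree ≤ d → Q.natDegree ≤ d → (∀ k < n, Q.eval ((ev P Q)^[k] z) ≠ 0) →
  (iter d P Q n).2.eval z ≠ 0 ∧
  (iter d P Q n).1.eval z = (ev P Q)^[n] z * (iter d P Q n).2.eval z ∧
  derivAt (iter d P Q n).1 (iter d P Q n).2 z = mult P Q n z

/-- A2: degree and coprimality of the iterates -/
def A2S : Prop := ∀ (K : Type) [Field K] [IsAlgClosed K] (d n : ℕ) (P Q : K[X]), 1 ≤ d →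
  P.natDegree ≤ d → Q.natDegree ≤ d → (P.natDegree = d ∨ Q.natDegree = d) → IsCoprime P Q →
  (iter d P Q n).1.natDegree ≤ d ^ n ∧ (iter d P Q n).2.natDegree ≤ d ^ n ∧
  ((iter d P Q n).1.natDegree = d ^ n ∨ (iter d P Q n).2.natDegree = d ^ n) ∧
  IsCoprime (iter d P Q n).1 (iter d P Q n).2

/-- A3: iterates of the map on `K × K` -/
def A3S : Prop := ∀ (K : Type) [Field K] (d n : ℕ) (P Q : K[X]) (v : K × K), 1 ≤ d →
  (lift2 d P Q)^[n] v =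
    (hom (d ^ n) (iter d P Q n).1 v.1 v.2, hom (d ^ n) (iter d P Q n).2 v.1 v.2)

/-- A4 (from A1, A2, A3): if infinity is not periodic, the roots of `fixPoly` are the periodic
points -/
def A4S : Prop := ∀ (K : Type) [Field K] [IsAlgClosed K] (d n : ℕ) (f : RatMap K d) (z : K),
  1 ≤ d → 1 ≤ n → NoInf d f.num f.den →
  ((fixPoly d f.num f.den n).eval z = 0 ↔ Per f.num f.den n z)

/-- A5: orbits of points of exact period `n` -/
def A5S : Prop := ∀ (K : Type) [Field K] (P Q : K[X]) (n : ℕ) (z : K), 1 ≤ n → PerX P Q n z →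
  (∀ k, PerX P Q n ((ev P Q)^[k] z)) ∧ (∀ k, mult P Q n ((ev P Q)^[k] z) = mult P Q n z) ∧
  (∀ i < n, ∀ j < n, (ev P Q)^[i] z = (ev P Q)^[j] z → i = j)

/-- A6: the exact period of a periodic point -/
def A6S : Prop := ∀ (K : Type) [Field K] (P Q : K[X]) (n : ℕ) (z : K), 1 ≤ n → Per P Q n z →
  ∃ m, m ∣ n ∧ 1 ≤ m ∧ PerX P Q m z ∧ mult P Q n z = mult P Q m z ^ (n / m)

/-! ### G: maps in general position -/

/-- G1 (from A1, A2, A4) -/
def G1S : Prop := ∀ (K : Type) [Field K] [IsAlgClosed K] (d n : ℕ) (f : RatMap K d),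
  Good f → 1 ≤ n →
  (fixPoly d f.num f.den n).natDegree = d ^ n + 1 ∧ (fixPoly d f.num f.den n).roots.Nodup ∧
  Multiset.card (fixPoly d f.num f.den n).roots = d ^ n + 1 ∧
  (∀ z, z ∈ (fixPoly d f.num f.den n).roots ↔ Per f.num f.den n z) ∧
  f.multSpec n = (fixPoly d f.num f.den n).roots.map (mult f.num f.den n)

/-- G2 (from G1, A5, A6): decomposition according to the exact period -/
def G2S : Prop := ∀ (K : Type) [Field K] [IsAlgClosed K] (d n : ℕ) (f : RatMap K d),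
  Good f → 1 ≤ n →
  (∀ z, z ∈ perF d f.num f.den n ↔ PerX f.num f.den n z) ∧
  f.multSpec n = ∑ m ∈ n.divisors, (MX d f.num f.den m).map (fun x => x ^ (n / m)) ∧
  ∑ m ∈ n.divisors, (perF d f.num f.den m).card = d ^ n + 1

/-- G3 (from G2, A5): counting -/
def G3S : Prop := ∀ (K : Type) [Field K] [IsAlgClosed K] (d n : ℕ) (f : RatMap K d),
  Good f → 1 ≤ n →
  (n.Prime → (perF d f.num f.den n).card + d = d ^ n) ∧ (XS f.num f.den n).Finite ∧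
  n * (XS f.num f.den n).ncard ≤ (perF d f.num f.den n).card ∧
  ((∀ z z', PerX f.num f.den n z → PerX f.num f.den n z' →
      mult f.num f.den n z = mult f.num f.den n z' → ∃ k, z' = (ev f.num f.den)^[k] z) →
    n * (XS f.num f.den n).ncard = (perF d f.num f.den n).card)

/-! ### B: conjugation -/

/-- B1 (may use A2): affine change of coordinate -/
def B1S : Prop := ∀ (K : Type) [Field K] [IsAlgClosed K] (d : ℕ) (f : RatMap K d) (a b : K),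
  1 ≤ d → a ≠ 0 → ∃ f' : RatMap K d,
    f'.num = C a⁻¹ * (f.num.comp (C a * X + C b) - C b * f.den.comp (C a * X + C b)) ∧
    f'.den = f.den.comp (C a * X + C b) ∧ ∀ n, f'.multSpec n = f.multSpec n

/-- B2 (may use A2): the coordinate `1 / z` -/
def B2S : Prop := ∀ (K : Type) [Field K] [IsAlgClosed K] (d : ℕ) (f : RatMap K d), 1 ≤ d →
  ∃ f' : RatMap K d, f'.num = f.den.reflect d ∧ f'.den = f.num.reflect d ∧
    ∀ n, f'.multSpec n = f.multSpec n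

/-- B3: multiplying numerator and denominator by a constant -/
def B3S : Prop := ∀ (K : Type) [Field K] (d : ℕ) (f : RatMap K d) (a : K), a ≠ 0 →
  ∃ f' : RatMap K d, f'.num = C a * f.num ∧ f'.den = C a * f.den ∧
    ∀ n, f'.multSpec n = f.multSpec n

/-- B4 (from A2, A3, B1, B2): after a change of coordinate, infinity is not periodic -/
def B4S : Prop := ∀ (K : Type) [Field K] [IsAlgClosed K] [Uncountable K] (d : ℕ)
  (f : RatMap K d), 2 ≤ d →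
  ∃ f' : RatMap K d, NoInf d f'.num f'.den ∧ ∀ n, f'.multSpec n = f.multSpec n

/-- B5: the multipliers are algebraic over the field of the coefficients -/
def B5S : Prop := ∀ (K : Type) [Field K] [CharZero K] (d n : ℕ) (f : RatMap K d) (x : K),
  x ∈ f.multSpec n → IsAlgebraic (IntermediateField.adjoin ℚ (Set.range f.coef)) x

/-- B6 (from G1, B1, B2, B3, B5): all multipliers are algebraic over a field generated by
`2 d - 2` elements -/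
def B6S : Prop := ∀ (K : Type) [Field K] [IsAlgClosed K] [CharZero K] (d : ℕ)
  (f : RatMap K d), Good f → ∃ S : Finset K, S.card ≤ 2 * d - 2 ∧
    ∀ n, 1 ≤ n → ∀ x ∈ f.multSpec n, IsAlgebraic (IntermediateField.adjoin ℚ (S : Set K)) x

/-- B8: scaling of the coordinate, point by point -/
def B8S : Prop := ∀ (K : Type) [Field K] (P Q : K[X]) (a b : K), a ≠ 0 → b ≠ 0 → ∀ z,
  ev (C (a * b) * P.comp (C a⁻¹ * X)) (C b * Q.comp (C a⁻¹ * X)) (a * z) = a * ev P Q z ∧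
  ∀ n, (PerX (C (a * b) * P.comp (C a⁻¹ * X)) (C b * Q.comp (C a⁻¹ * X)) n (a * z) ↔
      PerX P Q n z) ∧
    mult (C (a * b) * P.comp (C a⁻¹ * X)) (C b * Q.comp (C a⁻¹ * X)) n (a * z) = mult P Q n z

/-! ### C: the index formula -/

/-- C1: the index formula -/
def C1S : Prop := ∀ (K : Type) [Field K] [IsAlgClosed K] (D : ℕ) (A B : K[X]), 1 ≤ D →
  A.natDegree ≤ D → B.natDegree = D → IsCoprime A B → (A - X * B).roots.Nodup →
  ((A - X * B).roots.map (fun z => (1 - derivAt A B z)⁻¹)).sum = 1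

/-- C2 (from C1, A1, A2, G1) -/
def C2S : Prop := ∀ (K : Type) [Field K] [IsAlgClosed K] (d n : ℕ) (f : RatMap K d),
  Good f → 1 ≤ n → ((f.multSpec n).map (fun x => (1 - x)⁻¹)).sum = 1

/-! ### E: norms of multipliers -/

/-- E1 (from G1, G2): the norms of the multipliers at the points of exact period `n` -/
def E1S : Prop := ∀ (K : Type) [Field K] [IsAlgClosed K] (c : Cj K) (d : ℕ)
  (f g : RatMap K d), Good f → Good g → (∀ n, 1 ≤ n → c.spec f n = c.spec g n) →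
  ∀ n, 1 ≤ n →
    (MX d f.num f.den n).map c.nrm = (MX d g.num g.den n).map c.nrm

/-- E2 (from A1, A2, A4) -/
def E2S : Prop := ∀ (K : Type) [Field K] [IsAlgClosed K] (c : Cj K) (d : ℕ)
  (f g : RatMap K d), 2 ≤ d → NoInf d g.num g.den →
  (∀ n, 1 ≤ n → ∀ x ∈ f.multSpec n, c.nrm x ≠ 1) → (∀ n, 1 ≤ n → c.spec f n = c.spec g n) →
  Good g

/-- E3: the conjugate map -/
def E3S : Prop := ∀ (K : Type) [Field K] (c : Cj K) (d : ℕ) (f : RatMap K d),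
  (∀ n, (c.conj f).multSpec n = (f.multSpec n).map c.σ) ∧
  (∀ n, c.spec (c.conj f) n = c.spec f n) ∧
  (∀ n z, PerX (c.conj f).num (c.conj f).den n (c.σ z) ↔ PerX f.num f.den n z) ∧
  (∀ n z, mult (c.conj f).num (c.conj f).den n (c.σ z) = c.σ (mult f.num f.den n z)) ∧
  (∀ i, (c.conj f).coef i = c.σ (f.coef i)) ∧ c.conj (c.conj f) = f

/-- E4: the conjugate of a generic map is generic -/
def E4S : Prop := ∀ (K : Type) [Field K] [CharZero K] (c : Cj K) (d : ℕ) (f : RatMap K d),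
  Gen c f → Gen c (c.conj f)

/-! ### QD: transversality for `z ^ d + t` -/

/-- QDa: push-forward of `1 / (z - w)` -/
def QDaS : Prop := ∀ (d : ℕ) (t w y : ℂ), 2 ≤ d → w ≠ 0 → y ≠ t → y ≠ T d t w →
  ((nthRoots d (y - t)).map (fun x => ((x - w) * ((d : ℂ) * x ^ (d - 1)) ^ 2)⁻¹)).sum =
    ((d : ℂ) * w ^ (d - 1))⁻¹ * ((y - T d t w)⁻¹ - (y - t)⁻¹)

/-- QDb: change of variables for `z ^ d + t` -/
def QDbS : Prop := ∀ (d : ℕ) (t : ℂ) (g : ℂ → ENNReal) (E : Set ℂ), 2 ≤ d → Measurable g →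
  MeasurableSet E →
  ∫⁻ y in E, ((nthRoots d (y - t)).map
      (fun x => g x / ENNReal.ofReal (‖(d : ℂ) * x ^ (d - 1)‖ ^ 2))).sum =
    ∫⁻ x in (T d t) ⁻¹' E, g x

/-- QD0 (from QDa, QDb): there is no invariant quadratic differential -/
def QD0S : Prop := ∀ (d : ℕ) (t : ℂ) (Z : Finset ℂ) (ρ : ℂ → ℂ), 2 ≤ d → (∀ w ∈ Z, w ≠ 0) →
  (∀ w ∈ Z, T d t w ∈ Z) → Set.InjOn (T d t) Z →
  (∀ w ∈ Z, ρ (T d t w) * ((d : ℂ) * w ^ (d - 1)) = ρ w) → ∑ w ∈ Z, ρ w = 0 →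
  ∀ w ∈ Z, ρ w = 0

/-- QD1 (from QD0) -/
def QD1S : Prop := ∀ (F : Type) [Field F] (_ : F →+* ℂ) (d n : ℕ) (t z : F), 2 ≤ d → 1 ≤ n →
  (T d t)^[n] z = z → (∀ m, 0 < m → m < n → (T d t)^[m] z ≠ z) → Tm d t n z = 1 →
  Dt d t z n ≠ 0

/-- QD2 (from QD0) -/
def QD2S : Prop := ∀ (F : Type) [Field F] (_ : F →+* ℂ) (d n m : ℕ) (t z w : F), 2 ≤ d →
  1 ≤ n → 1 ≤ m →
  (T d t)^[n] z = z → (∀ k, 0 < k → k < n → (T d t)^[k] z ≠ z) → Tm d t n z = 1 →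
  (T d t)^[m] w = w → (∀ k, 0 < k → k < m → (T d t)^[k] w ≠ w) → Tm d t m w = 1 →
  n = m ∧ ∃ k, w = (T d t)^[k] z

/-! ### J: the periodic points of `z ^ d + t` near `t = ∞` -/

/-- J0: a valuation that is trivial on `F` and large at `t` -/
def J0S : Prop := ∀ (F Ω : Type) [Field F] [Field Ω] [Algebra F Ω] (t : Ω), Transcendental F t →
  ∃ (Γ : Type) (_ : LinearOrderedCommGroupWithZero Γ) (v : Valuation Ω Γ),
    (∀ a : F, a ≠ 0 → v (algebraMap F Ω a) = 1) ∧ 1 < v t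

/-- J1: coding of the periodic points -/
def J1S : Prop := ∀ (F Ω Γ : Type) [Field F] [IsAlgClosed F] [CharZero F] [Field Ω]
  [IsAlgClosed Ω] [Algebra F Ω] [LinearOrderedCommGroupWithZero Γ] (v : Valuation Ω Γ) (t : Ω)
  (d n : ℕ), (∀ a : F, a ≠ 0 → v (algebraMap F Ω a) = 1) → 1 < v t → 2 ≤ d → 1 ≤ n →
  ∃ (γ : Γ) (code : Ω → (Fin n → Fin d)), 1 < γ ∧ γ ^ d = v t ∧
    Set.BijOn code {z | (T d t)^[n] z = z} Set.univ ∧
    (∀ x y, (T d t)^[n] x = x → (T d t)^[n] y = y → x ≠ y →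
      v (x - y) * γ ^ ((d - 1) * pre (code x) (code y)) = γ) ∧
    (∀ z, (T d t)^[n] z = z → (T d t z = z ↔ ∀ i j, code z i = code z j)) ∧
    (∀ z, (T d t)^[n] z = z → v (Tm d t n z) = γ ^ ((d - 1) * n))

/-- K1: the energy inequality -/
def K1S : Prop := ∀ (n d : ℕ) (A B : Finset (Fin n → Fin d)), 2 ≤ d → 1 ≤ n → Disjoint A B →
  (∀ a, (a ∈ A ∨ a ∈ B) ↔ ∃ i j, a i ≠ a j) → A.Nonempty → B.Nonempty →
  0 < ∑ a ∈ A, ∑ b ∈ B, (1 - ((d : ℤ) - 1) * (pre a b : ℤ))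

/-- J2 (from J1, K1) -/
def J2S : Prop := ∀ (F Ω Γ : Type) [Field F] [IsAlgClosed F] [CharZero F] [Field Ω]
  [IsAlgClosed Ω] [Algebra F Ω] [LinearOrderedCommGroupWithZero Γ] (v : Valuation Ω Γ) (t : Ω)
  (d n : ℕ), (∀ a : F, a ≠ 0 → v (algebraMap F Ω a) = 1) → 1 < v t → 2 ≤ d → 1 ≤ n →
  ∀ A B : Finset Ω, Disjoint A B →
    (∀ z, (z ∈ A ∨ z ∈ B) ↔ ((T d t)^[n] z = z ∧ T d t z ≠ z)) → A.Nonempty → B.Nonempty →
    1 < v (∏ x ∈ A, ∏ y ∈ B, (x - y))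

/-! ### L: transitivity for `z ^ d + t` -/

/-- L1: an integral element all of whose conjugates are large at infinity vanishes at some
specialisation of `t` -/
def L1S : Prop := ∀ (F Ω Γ : Type) [Field F] [IsAlgClosed F] [CharZero F] [Field Ω]
  [IsAlgClosed Ω] [Algebra F Ω] [LinearOrderedCommGroupWithZero Γ] (v : Valuation Ω Γ) (t ρ : Ω),
  Transcendental F t → AlgT F t → (∀ a : F, a ≠ 0 → v (algebraMap F Ω a) = 1) → 1 < v t →
  IntT F t ρ → (∀ τ : Ω ≃ₐ[F] Ω, τ t = t → 1 < v (τ ρ)) →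
  ∃ p : Pl Ω F, SpPl t p ∧ p.Red ρ 0

/-- L3: unramified specialisations -/
def L3S : Prop := ∀ (F Ω : Type) [Field F] [IsAlgClosed F] [CharZero F] [Field Ω]
  [IsAlgClosed Ω] [Algebra F Ω] (t : Ω), Transcendental F t → AlgT F t →
  ∀ S : Finset Ω, ∃ Bad : Finset F, ∀ p : Pl Ω F, SpPl t p → ∀ t₀, p.Red t t₀ → t₀ ∉ Bad →
    ∃ B : Ω, IntT F t B ∧ ¬ p.Red B 0 ∧
      ∀ a ∈ IntermediateField.adjoin F (insert t (S : Set Ω)), IntT F t a → p.Red a 0 →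
        ∃ r, IntT F t r ∧ B * a = (t - algebraMap F Ω t₀) * r

/-- L4 (may use J0, J1): periodic points that collide at a specialisation -/
def L4S : Prop := ∀ (F Ω : Type) [Field F] [IsAlgClosed F] [CharZero F] [Field Ω]
  [IsAlgClosed Ω] [Algebra F Ω] (t : Ω) (p : Pl Ω F) (t₀ : F) (d n : ℕ), Transcendental F t →
  SpPl t p → p.Red t t₀ → 2 ≤ d →
  (∀ z, (T d t)^[n] z = z → 1 ≤ n → IntT F t z ∧ IntT F t (Tm d t n z) ∧
    p.Red (Tm d t n z) (Tm d t₀ n (p.rs z)) ∧ p.rs (T d t z) = T d t₀ (p.rs z)) ∧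
  (∀ x y, 1 ≤ n → x ≠ y → (T d t)^[n] x = x → (T d t)^[n] y = y → p.rs x = p.rs y →
    (T d t₀)^[n] (p.rs x) = p.rs x ∧ Tm d t₀ n (p.rs x) = 1) ∧
  (∀ x, n.Prime → (T d t)^[n] x = x → T d t x ≠ x → T d t₀ (p.rs x) = p.rs x →
    ((d : F) * (p.rs x) ^ (d - 1)) ^ n = 1 ∧ (d : F) * (p.rs x) ^ (d - 1) ≠ 1)

/-- L5 (from J0, J1, L4, QD1): no collision at an unramified specialisation, exact period -/
def L5S : Prop := ∀ (F Ω : Type) [Field F] [IsAlgClosed F] [CharZero F] (_ : F →+* ℂ)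
  [Field Ω] [IsAlgClosed Ω] [Algebra F Ω] (t : Ω) (p : Pl Ω F) (t₀ : F) (d n : ℕ) (S : Set Ω)
  (A₁ A₂ : Finset Ω) (B : Ω), Transcendental F t → SpPl t p → p.Red t t₀ → 2 ≤ d → n.Prime →
  Disjoint A₁ A₂ → (∀ z, (z ∈ A₁ ∨ z ∈ A₂) ↔ ((T d t)^[n] z = z ∧ T d t z ≠ z)) →
  (∀ i, (∏ z ∈ A₁, (X - C z)).coeff i ∈ IntermediateField.adjoin F (insert t S)) →
  (∀ i, (∏ z ∈ A₂, (X - C z)).coeff i ∈ IntermediateField.adjoin F (insert t S)) →
  IntT F t B → ¬ p.Red B 0 →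
  (∀ a ∈ IntermediateField.adjoin F (insert t S), IntT F t a → p.Red a 0 →
        ∃ r, IntT F t r ∧ B * a = (t - algebraMap F Ω t₀) * r) →
  ∀ x ∈ A₁, ∀ y ∈ A₂, p.rs x = p.rs y → T d t₀ (p.rs x) ≠ p.rs x → False

/-- L6 (from J0, J1, L4): no collision at an unramified specialisation, fixed points -/
def L6S : Prop := ∀ (F Ω : Type) [Field F] [IsAlgClosed F] [CharZero F]
  [Field Ω] [IsAlgClosed Ω] [Algebra F Ω] (t : Ω) (p : Pl Ω F) (t₀ : F) (d n : ℕ) (S : Set Ω)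
  (A₁ A₂ : Finset Ω) (B : Ω), Transcendental F t → SpPl t p → p.Red t t₀ → 2 ≤ d → n.Prime →
  Disjoint A₁ A₂ → (∀ z, (z ∈ A₁ ∨ z ∈ A₂) ↔ ((T d t)^[n] z = z ∧ T d t z ≠ z)) →
  (∀ i, (∏ z ∈ A₁, (X - C z)).coeff i ∈ IntermediateField.adjoin F (insert t S)) →
  (∀ i, (∏ z ∈ A₂, (X - C z)).coeff i ∈ IntermediateField.adjoin F (insert t S)) →
  (∀ z, T d t z = z → z ∈ S) →
  IntT F t B → ¬ p.Red B 0 →
  (∀ a ∈ IntermediateField.adjoin F (insert t S), IntT F t a → p.Red a 0 →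
        ∃ r, IntT F t r ∧ B * a = (t - algebraMap F Ω t₀) * r) →
  ∀ x ∈ A₁, ∀ y ∈ A₂, p.rs x = p.rs y → T d t₀ (p.rs x) = p.rs x → False

/-- L7 (from J0, J1, J2, L1, L3, L4, L5, L6, QD2): transitivity -/
def L7S : Prop := ∀ (F Ω : Type) [Field F] [IsAlgClosed F] [CharZero F] (_ : F →+* ℂ)
  [Field Ω] [IsAlgClosed Ω] [Algebra F Ω] (t : Ω) (d : ℕ), Transcendental F t → AlgT F t →
  2 ≤ d → ∀ S : Finset Ω, ∃ n₀ : ℕ, ∀ n, n.Prime → n₀ ≤ n → ∀ A : Finset Ω,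
    (∀ z ∈ A, (T d t)^[n] z = z ∧ T d t z ≠ z ∧ T d t z ∈ A) →
    (∀ i, (∏ z ∈ A, (X - C z)).coeff i ∈ IntermediateField.adjoin F (insert t (S : Set Ω))) →
    A.Nonempty → ∀ z, (T d t)^[n] z = z → T d t z ≠ z → z ∈ A

/-- M1 (from J0, J1, L1, L4): multiplicative independence for `z ^ d + t` -/
def M1S : Prop := ∀ (F Ω : Type) [Field F] [IsAlgClosed F] [CharZero F]
  [Field Ω] [IsAlgClosed Ω] [Algebra F Ω] (t : Ω) (d n : ℕ), Transcendental F t → AlgT F t →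
  2 ≤ d → 1 ≤ n → ∀ (z₁ z₂ z₃ z₄ : Ω) (κ : F), (T d t)^[n] z₁ = z₁ → (T d t)^[n] z₂ = z₂ →
  (T d t)^[n] z₃ = z₃ → (T d t)^[n] z₄ = z₄ →
  Tm d t n z₁ * Tm d t n z₂ = algebraMap F Ω κ * (Tm d t n z₃ * Tm d t n z₄) →
  ((∃ k, z₃ = (T d t)^[k] z₁) ∧ ∃ k, z₄ = (T d t)^[k] z₂) ∨
  ((∃ k, z₄ = (T d t)^[k] z₁) ∧ ∃ k, z₃ = (T d t)^[k] z₂)

/-! ### N: reduction at a place -/

/-- N1: roots of a polynomial and roots of its reduction -/
def N1S : Prop := ∀ (K κ : Type) [Field K] [IsAlgClosed K] [Field κ] (p : Pl K κ) (W : K[X])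
  (V : κ[X]), p.RedP W V → V ≠ 0 →
  ∃ S R : Multiset K, W.roots = S + R ∧ (∀ z ∈ S, z ∈ p.O) ∧ (∀ z ∈ R, z ∉ p.O) ∧
    V.roots = S.map p.rs ∧ Multiset.card S = V.natDegree

/-- N2: reduction of the iterates -/
def N2S : Prop := ∀ (K κ : Type) [Field K] [Field κ] (p : Pl K κ) (d n : ℕ) (P Q : K[X])
  (V W : κ[X]), p.RedP P V → p.RedP Q W →
  p.RedP (iter d P Q n).1 (iter d V W n).1 ∧ p.RedP (iter d P Q n).2 (iter d V W n).2 ∧
  p.RedP (fixPoly d P Q n) (fixPoly d V W n)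

/-- N3: reduction of values and multipliers -/
def N3S : Prop := ∀ (K κ : Type) [Field K] [Field κ] (p : Pl K κ) (P Q : K[X])
  (V W : κ[X]) (z : K) (y : κ), p.RedP P V → p.RedP Q W → p.Red z y →
  (W.eval y ≠ 0 → Q.eval z ≠ 0 ∧ p.Red (ev P Q z) (ev V W y) ∧
    p.Red (derivAt P Q z) (derivAt V W y)) ∧
  ((∀ k, W.eval ((ev V W)^[k] y) ≠ 0) → (∀ k, Q.eval ((ev P Q)^[k] z) ≠ 0) ∧
    (∀ k, p.Red ((ev P Q)^[k] z) ((ev V W)^[k] y)) ∧
    ∀ n, p.Red (mult P Q n z) (mult V W n y))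

/-- N5 (from A1, A2, N1, N2, N3): periodic points of a map that reduces to a polynomial of the
same degree -/
def N5S : Prop := ∀ (K κ : Type) [Field K] [IsAlgClosed K] [Field κ] (p : Pl K κ) (d n : ℕ)
  (f : RatMap K d) (V : κ[X]), 2 ≤ d → 2 ≤ n → p.RedP f.num V → p.RedP f.den 1 →
  V.natDegree = d → (fixPoly d V 1 n).roots.Nodup →
  (∀ z, PerX f.num f.den n z → z ∈ p.O ∧ PerX V 1 n (p.rs z) ∧
    (∀ k, p.Red ((ev f.num f.den)^[k] z) ((fun y => V.eval y)^[k] (p.rs z))) ∧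
    p.Red (mult f.num f.den n z) (mult V 1 n (p.rs z))) ∧
  (∀ z z', PerX f.num f.den n z → PerX f.num f.den n z' → p.rs z = p.rs z' → z = z') ∧
  (∀ y, PerX V 1 n y → ∃ z, PerX f.num f.den n z ∧ p.rs z = y)

/-! ### V: existence of places -/

/-- V1: specialisation of algebraically independent elements -/
def V1S : Prop := ∀ (K : Type) [Field K] [IsAlgClosed K] [CharZero K] (k : IntermediateField ℚ K) (ι : Type)
  (x a : ι → K), AlgebraicIndependent k x → (∀ i, a i ∈ k) →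
  ∃ (κ : Type) (_ : Field κ) (_ : CharZero κ) (p : Pl K κ), IsAlgClosed κ ∧
    (∀ y ∈ k, y ∈ p.O) ∧ ∀ i, p.Red (x i - a i) 0

/-- V2: specialisation at `s = 0` -/
def V2S : Prop := ∀ (K F : Type) [Field K] [IsAlgClosed K] [CharZero K] [Field F]
  [IsAlgClosed F] [Algebra F K] (t s : K), AlgebraicIndependent F ![t, s] →
  (∀ x : K, IsAlgebraic (IntermediateField.adjoin F ({t, s} : Set K)) x) →
  ∃ (κ : Type) (_ : Field κ) (_ : Algebra F κ) (p : Pl K κ) (t₁ : κ), IsAlgClosed κ ∧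
    Transcendental F t₁ ∧ AlgT F t₁ ∧ (∀ a : F, p.Red (algebraMap F K a) (algebraMap F κ a)) ∧
    p.Red t t₁ ∧ p.Red s 0 ∧
    ∀ G : Finset K, ∃ S : Finset κ, ∀ x y,
      x ∈ IntermediateField.adjoin F (({t, s} : Set K) ∪ G) → p.Red x y →
      y ∈ IntermediateField.adjoin F (insert t₁ (S : Set κ))

/-! ### The generic map reduced modulo `s` -/

/-- SR (from V2, N5, J0, J1): the periodic points of the generic map and of `z ^ d + t` -/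
def SRS : Prop := ∀ (K F : Type) [Field K] [IsAlgClosed K] [CharZero K] [Field F]
  [IsAlgClosed F] [Algebra F K] (d : ℕ) (P Q : K[X]) (t s : K), Sit F d P Q t s →
  ∃ (κ : Type) (_ : Field κ) (_ : Algebra F κ) (p : Pl K κ) (t₁ : κ), IsAlgClosed κ ∧
    Transcendental F t₁ ∧ AlgT F t₁ ∧ (∀ a : F, p.Red (algebraMap F K a) (algebraMap F κ a)) ∧
    (∀ G : Finset K, ∃ S : Finset κ, ∀ x y,
      x ∈ IntermediateField.adjoin F (({t, s} : Set K) ∪ G) → p.Red x y →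
      y ∈ IntermediateField.adjoin F (insert t₁ (S : Set κ))) ∧
    ∀ n, 2 ≤ n →
      (∀ z, PerX P Q n z → z ∈ p.O ∧ (T d t₁)^[n] (p.rs z) = p.rs z ∧
        (∀ m, 0 < m → m < n → (T d t₁)^[m] (p.rs z) ≠ p.rs z) ∧
        (∀ k, p.rs ((ev P Q)^[k] z) = (T d t₁)^[k] (p.rs z)) ∧
        p.Red (mult P Q n z) (Tm d t₁ n (p.rs z))) ∧
      (∀ z z', PerX P Q n z → PerX P Q n z' → p.rs z = p.rs z' → z = z') ∧
      (∀ y, (T d t₁)^[n] y = y → (∀ m, 0 < m → m < n → (T d t₁)^[m] y ≠ y) →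
        ∃ z, PerX P Q n z ∧ p.rs z = y)

/-- O1 (from SR, L7, A1, A5): transitivity for the generic map -/
def O1S : Prop := ∀ (K F : Type) [Field K] [IsAlgClosed K] [CharZero K] [Field F]
  [IsAlgClosed F] [Algebra F K] (_ : F →+* ℂ) (d : ℕ) (P Q : K[X]) (t s : K), Sit F d P Q t s →
  ∀ G : Finset K, ∃ n₀ : ℕ, ∀ n, n.Prime → n₀ ≤ n → ∀ z z', PerX P Q n z → PerX P Q n z' →
    ∃ (τ : K ≃ₐ[F] K) (k : ℕ), τ t = t ∧ τ s = s ∧ (∀ x ∈ G, τ x = x) ∧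
      τ z' = (ev P Q)^[k] z

/-- P1 (from SR, M1, A5): multiplicative independence for the generic map -/
def P1S : Prop := ∀ (K F : Type) [Field K] [IsAlgClosed K] [CharZero K] [Field F]
  [IsAlgClosed F] [Algebra F K] (d n : ℕ) (P Q : K[X]) (t s : K), Sit F d P Q t s → 2 ≤ n →
  (∀ (z₁ z₂ z₃ z₄ : K) (κ : F), PerX P Q n z₁ → PerX P Q n z₂ → PerX P Q n z₃ →
    PerX P Q n z₄ →
    mult P Q n z₁ * mult P Q n z₂ = algebraMap F K κ * (mult P Q n z₃ * mult P Q n z₄) →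
    (mult P Q n z₁ = mult P Q n z₃ ∧ mult P Q n z₂ = mult P Q n z₄) ∨
    (mult P Q n z₁ = mult P Q n z₄ ∧ mult P Q n z₂ = mult P Q n z₃)) ∧
  (∀ z z', PerX P Q n z → PerX P Q n z' → mult P Q n z = mult P Q n z' →
    ∃ k, z' = (ev P Q)^[k] z)

/-! ### The generic map -/

/-- FN: infinity is not periodic for the generic map -/
def FNS : Prop := ∀ (K : Type) [Field K] [CharZero K] (d : ℕ) (f : RatMap K d), 1 ≤ d →
  AlgebraicIndependent ℚ f.coef → NoInf d f.num f.den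

/-- Q1 (from FN): the coordinates `t`, `s` of the generic map -/
def Q1S : Prop := ∀ (K : Type) [Field K] [IsAlgClosed K] [CharZero K] (c : Cj K) (d : ℕ)
  (f : RatMap K d), Gen c f →
  ∃ (F : IntermediateField ℚ K) (a b t s : K), IsAlgClosed F ∧ a ∈ F ∧ b ∈ F ∧ a ≠ 0 ∧
    b ≠ 0 ∧ (∀ i, c.σ (f.coef i) ∈ F) ∧
    Sit F d (C (a * b) * f.num.comp (C a⁻¹ * X)) (C b * f.den.comp (C a⁻¹ * X)) t s

/-- OP (from Q1, O1, P1, B8) -/
def OPS : Prop := ∀ (K : Type) [Field K] [IsAlgClosed K] [CharZero K] (_ : K →+* ℂ) (c : Cj K)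
  (d : ℕ) (f : RatMap K d), Gen c f →
  ∃ F : IntermediateField ℚ K, IsAlgClosed F ∧ (∀ i, c.σ (f.coef i) ∈ F) ∧
    (∀ n, 2 ≤ n → ∀ x₁ ∈ XS f.num f.den n, ∀ x₂ ∈ XS f.num f.den n, ∀ x₃ ∈ XS f.num f.den n,
      ∀ x₄ ∈ XS f.num f.den n, ∀ κ ∈ F, x₁ * x₂ = κ * (x₃ * x₄) →
      (x₁ = x₃ ∧ x₂ = x₄) ∨ (x₁ = x₄ ∧ x₂ = x₃)) ∧
    (∀ n, 2 ≤ n → ∀ z z', PerX f.num f.den n z → PerX f.num f.den n z' →
      mult f.num f.den n z = mult f.num f.den n z' → ∃ k, z' = (ev f.num f.den)^[k] z) ∧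
    (∀ G : Finset K, ∃ n₀ : ℕ, ∀ n, n.Prime → n₀ ≤ n → ∀ z z', PerX f.num f.den n z →
      PerX f.num f.den n z' → ∃ (τ : K ≃+* K) (k : ℕ), (∀ x ∈ F, τ x = x) ∧
        (∀ i, τ (f.coef i) = f.coef i) ∧ (∀ x ∈ G, τ x = x) ∧
        τ z' = (ev f.num f.den)^[k] z)

/-- Z1 (from N5, A1, A2): a map that reduces to `z ^ d` -/
def Z1S : Prop := ∀ (K κ : Type) [Field K] [IsAlgClosed K] [Field κ] [CharZero κ]
  (p : Pl K κ) (d n : ℕ) (f : RatMap K d), 2 ≤ d → 2 ≤ n → p.RedP f.num (X ^ d) →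
  p.RedP f.den 1 → ∀ z, PerX f.num f.den n z →
    z ∈ p.O ∧ p.rs z ≠ 0 ∧ (p.rs z) ^ (d ^ n - 1) = 1 ∧
    p.Red (mult f.num f.den n z) ((d : κ) ^ n)

/-- Z2 (from N1, N3): a map that reduces to `z ^ (- d)` -/
def Z2S : Prop := ∀ (K κ : Type) [Field K] [IsAlgClosed K] [Field κ] [CharZero κ]
  (p : Pl K κ) (d : ℕ) (f : RatMap K d), 2 ≤ d → p.RedP f.num 1 →
  p.RedP f.den (X ^ d) → ∀ z, PerX f.num f.den 1 z → p.Red (mult f.num f.den 1 z) (-(d : κ))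

/-- Z3 (from V1, Z1, Z2, E3): the two special places of the generic map -/
def Z3S : Prop := ∀ (K : Type) [Field K] [IsAlgClosed K] [CharZero K] (c : Cj K) (d : ℕ)
  (f : RatMap K d), Gen c f →
  (∃ (κ : Type) (_ : Field κ) (_ : CharZero κ) (p : Pl K κ),
    (∀ x, IsAlgebraic ℚ x → x ∈ p.O) ∧ ∀ n z, 2 ≤ n → PerX f.num f.den n z →
      p.Red (mult f.num f.den n z) ((d : κ) ^ n) ∧
      p.Red (c.σ (mult f.num f.den n z)) ((d : κ) ^ n)) ∧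
  (∃ (κ : Type) (_ : Field κ) (_ : CharZero κ) (p : Pl K κ),
    (∀ x, IsAlgebraic ℚ x → x ∈ p.O) ∧ ∀ z, PerX f.num f.den 1 z →
      p.Red (mult f.num f.den 1 z) (-(d : κ)) ∧
      p.Red (c.σ (mult f.num f.den 1 z)) (-(d : κ)))

/-- FG (from FN, Z3, A1, A2, A4, A6): the generic map is in general position -/
def FGS : Prop := ∀ (K : Type) [Field K] [IsAlgClosed K] [CharZero K] (c : Cj K) (d : ℕ)
  (f : RatMap K d), Gen c f →
  Good f ∧ ∀ n, 1 ≤ n → ∀ x ∈ f.multSpec n, c.nrm x ≠ 1 ∧ x ≠ 0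

/-! ### The dichotomy -/

/-- RECT: rectangles -/
def RectS : Prop := ∀ (K : Type) [Field K] (X Y U V : Finset K), X.card = Y.card →
  U.card ≤ X.card → V.card ≤ Y.card → (∀ x ∈ X, x ≠ 0) → (∀ y ∈ Y, y ≠ 0) → X.Nonempty → Y.Nonempty →
  (∀ x ∈ X, ∀ y ∈ Y, ∃ u ∈ U, ∃ v ∈ V, x * y = u * v) →
  (∀ x₁ ∈ X, ∀ x₂ ∈ X, ∀ x₃ ∈ X, ∀ x₄ ∈ X, ∀ y₁ ∈ Y, ∀ y₂ ∈ Y, ∀ y₃ ∈ Y, ∀ y₄ ∈ Y,
    (x₁ * y₁) * (x₂ * y₂) = (x₃ * y₃) * (x₄ * y₄) →
    (x₁ = x₃ ∧ x₂ = x₄) ∨ (x₁ = x₄ ∧ x₂ = x₃)) →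
  (∀ y₁ ∈ Y, ∀ y₂ ∈ Y, ∀ y₃ ∈ Y, ∀ y₄ ∈ Y, y₁ * y₂ = y₃ * y₄ →
    (y₁ = y₃ ∧ y₂ = y₄) ∨ (y₁ = y₄ ∧ y₂ = y₃)) →
  ∃ e : K, e ≠ 0 ∧
    (((∀ x, x ∈ X ↔ ∃ u ∈ U, x = e * u) ∧ (∀ v, v ∈ V ↔ ∃ y ∈ Y, v = e * y)) ∨
    ((∀ x, x ∈ X ↔ ∃ v ∈ V, x = e * v) ∧ (∀ u, u ∈ U ↔ ∃ y ∈ Y, u = e * y)))

/-- W1 (from RECT, OP, E1, E3, G2, G3, FG, B5): for large primes `n` the multipliers of `g` are
proportional to those of `f` or to those of the conjugate of `f` -/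
def W1S : Prop := ∀ (K : Type) [Field K] [IsAlgClosed K] [CharZero K] (_ : K →+* ℂ) (c : Cj K)
  (d : ℕ) (f g : RatMap K d), Gen c f → Good g → (∀ n, 1 ≤ n → c.spec f n = c.spec g n) →
  ∃ n₀ : ℕ, ∀ n, n.Prime → n₀ ≤ n →
    (∀ x ∈ XS f.num f.den n, ∀ x' ∈ XS f.num f.den n,
      ∃ u ∈ XS g.num g.den n, ∃ u' ∈ XS g.num g.den n, x * u' = x' * u) ∨
    (∀ x ∈ XS (c.conj f).num (c.conj f).den n, ∀ x' ∈ XS (c.conj f).num (c.conj f).den n,
      ∃ u ∈ XS g.num g.den n, ∃ u' ∈ XS g.num g.den n, x * u' = x' * u)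

/-! ### Ratios of multipliers generate the field of moduli -/

/-- R1: derivations -/
def R1S : Prop := ∀ (K : Type) [Field K] [CharZero K] (L : IntermediateField ℚ K) (x : K),
  ¬ IsAlgebraic L x → ∃ D : Derivation ℚ K K, (∀ y ∈ L, D y = 0) ∧ D x ≠ 0

/-- the first variation of the logarithm of the multiplier at `z ^ d` -/
noncomputable def gF {κ : Type} [Field κ] (d : ℕ) (α β : ℕ → κ) (y : κ) : κ :=
  ∑ j ∈ Finset.Ico 1 d, (α j * ((j : κ) - d) * (y ^ j * (y ^ d)⁻¹) - β j * j * y ^ j)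

/-- R2: a Fourier lemma -/
def R2S : Prop := ∀ (κ : Type) [Field κ] [IsAlgClosed κ] [CharZero κ] (d n : ℕ)
  (α β : ℕ → κ) (e : κ), 2 ≤ d → 5 ≤ n →
  (∀ y : κ, y ^ (d ^ n - 1) = 1 → y ^ (d - 1) ≠ 1 →
    ∑ k ∈ Finset.range n, gF d α β (y ^ (d ^ k)) = e) →
  ∀ j, 1 ≤ j → j < d → α j = 0 ∧ β j = 0

/-- R4 (from Z1, N3): the logarithmic derivative of a multiplier near `z ^ d` -/
def R4S : Prop := ∀ (K κ : Type) [Field K] [IsAlgClosed K] [CharZero K] [Field κ] [CharZero κ]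
  (p : Pl K κ) (d n : ℕ) (f : RatMap K d) (D : Derivation ℚ K K) (α β : ℕ → κ), 2 ≤ d →
  2 ≤ n → p.RedP f.num (X ^ d) → p.RedP f.den 1 → f.num.coeff d = 1 → f.num.coeff 0 = 0 →
  f.den.coeff 0 = 1 → f.den.coeff d = 0 → (∀ j, p.Red (D (f.num.coeff j)) (α j)) →
  (∀ j, p.Red (D (f.den.coeff j)) (β j)) →
  ∀ z, PerX f.num f.den n z →
    mult f.num f.den n z ≠ 0 ∧
    p.Red (D (mult f.num f.den n z) / mult f.num f.den n z)
      ((d : κ)⁻¹ * ∑ k ∈ Finset.range n, gF d α β ((p.rs z) ^ (d ^ k)))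

/-- the coefficients of a normalised map, `0` and infinity being fixed -/
noncomputable def nfc {K : Type} [Field K] {d : ℕ} (f : RatMap K d) :
    Fin (d - 1) ⊕ Fin (d - 1) → K
  | Sum.inl i => f.num.coeff (i + 1)
  | Sum.inr i => f.den.coeff (i + 1)

/-- normalised maps -/
structure NF {K : Type} [Field K] {d : ℕ} (f : RatMap K d) : Prop where
  two_le : 2 ≤ d
  num_d : f.num.coeff d = 1
  num_0 : f.num.coeff 0 = 0
  den_0 : f.den.coeff 0 = 1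
  den_d : f.den.coeff d = 0

/-- R5 (from R1, R2, R4, V1, N5, Z1): the coefficients are algebraic over the field of the ratios
of the multipliers -/
def R5S : Prop := ∀ (K : Type) [Field K] [IsAlgClosed K] [CharZero K] (d n : ℕ)
  (f : RatMap K d), NF f → AlgebraicIndependent ℚ (nfc f) → n.Prime → 5 ≤ n →
  ∀ i, IsAlgebraic (IntermediateField.adjoin ℚ
    {x : K | ∃ y ∈ XS f.num f.den n, ∃ y' ∈ XS f.num f.den n, x = y / y'}) (nfc f i)

/-- FA1 (from A1, G1): normalisation of a map in general position -/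
def FA1S : Prop := ∀ (K : Type) [Field K] [IsAlgClosed K] [CharZero K] (d : ℕ)
  (f : RatMap K d), Good f →
  ∃ (f₁ : RatMap K d) (S : Finset K), NF f₁ ∧ S.card ≤ 4 ∧
    (∀ i, IsAlgebraic (IntermediateField.adjoin ℚ (Set.range f.coef)) (nfc f₁ i)) ∧
    (∀ i, f.coef i ∈ IntermediateField.adjoin ℚ (Set.range (nfc f₁) ∪ S)) ∧
    ∀ n, 1 ≤ n → XS f₁.num f₁.den n ⊆ XS f.num f.den n

/-- FA2: counting parameters -/
def FA2S : Prop := ∀ (K : Type) [Field K] [CharZero K] (d : ℕ) (x : CI d → K)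
  (y : Fin (d - 1) ⊕ Fin (d - 1) → K) (S : Finset K), 2 ≤ d → AlgebraicIndependent ℚ x →
  S.card ≤ 4 → (∀ i, x i ∈ IntermediateField.adjoin ℚ (Set.range y ∪ S)) →
  AlgebraicIndependent ℚ y

/-- S1 (from R5, FA1, FA2, B6): the multipliers of `g` are algebraic over the field of `f` -/
def S1S : Prop := ∀ (K : Type) [Field K] [IsAlgClosed K] [CharZero K] (d n : ℕ)
  (f g : RatMap K d), Good f → AlgebraicIndependent ℚ f.coef → Good g → n.Prime → 5 ≤ n →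
  (∀ u ∈ XS g.num g.den n, u ≠ 0) →
  (∀ x ∈ XS f.num f.den n, ∀ x' ∈ XS f.num f.den n,
      ∃ u ∈ XS g.num g.den n, ∃ u' ∈ XS g.num g.den n, x * u' = x' * u) →
  ∀ m, 1 ≤ m → ∀ x ∈ g.multSpec m,
    IsAlgebraic (IntermediateField.adjoin ℚ (Set.range f.coef)) x

/-! ### The end of the proof -/

/-- IC: elements algebraic over two independent families -/
def ICS : Prop := ∀ (K : Type) [Field K] [CharZero K] (ι ι' : Type) (x : ι → K) (y : ι' → K),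
  AlgebraicIndependent ℚ (Sum.elim x y) → ∀ z : K,
  IsAlgebraic (IntermediateField.adjoin ℚ (Set.range x)) z →
  IsAlgebraic (IntermediateField.adjoin ℚ (Set.range y)) z → IsAlgebraic ℚ z

/-- H0: convexity -/
def H0S : Prop := ∀ (K : Type) [Field K] [CharZero K] (c : Cj K) (D : ℤ) (S : Multiset K),
  D ≠ 0 → D ≠ 1 → D ≠ -1 → (∀ θ ∈ S, c.nrm θ = 1) →
  (S.map (fun θ => (1 - θ * (D : K))⁻¹)).sum = Multiset.card S * (1 - (D : K))⁻¹ →
  ∀ θ ∈ S, θ = 1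

/-- H1 (from H0, IC, Z3, FG, E1, G1, G2, C2, B5, E3) -/
def H1S : Prop := ∀ (K : Type) [Field K] [IsAlgClosed K] [CharZero K] (c : Cj K) (d : ℕ)
  (f g : RatMap K d), Gen c f → Good g → (∀ n, 1 ≤ n → c.spec f n = c.spec g n) →
  (∀ m, 1 ≤ m → ∀ x ∈ g.multSpec m,
    IsAlgebraic (IntermediateField.adjoin ℚ (Set.range f.coef)) x) →
  ∀ n, 1 ≤ n → g.multSpec n = f.multSpec n

/-- MAIN (from FG, B4, E2, W1, S1, H1, E3, E4, G1) -/
def MainS : Prop := ∀ (K : Type) [Field K] [IsAlgClosed K] [CharZero K] [Uncountable K]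
  (_ : K →+* ℂ) (c : Cj K) (d : ℕ) (f : RatMap K d), Gen c f → ∀ g : RatMap K d,
  (∀ n, 1 ≤ n → c.spec f n = c.spec g n) →
  (∀ n, 1 ≤ n → g.multSpec n = f.multSpec n) ∨
  (∀ n, 1 ≤ n → g.multSpec n = (c.conj f).multSpec n)

/-! ### One polynomial: ultrapowers and the Hilbert basis theorem -/

/-- U1: the ultrapower of `ℂ` as a field with a conjugation -/
def U1S : Prop := IsAlgClosed HC ∧ CharZero HC ∧ Uncountable HC ∧ Nonempty (HC →+* ℂ) ∧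
  ∃ c : Cj HC, ∀ z : ℕ → ℂ, c.σ (z : HC) = ((fun j => starRingEnd ℂ (z j) : ℕ → ℂ) : HC)

/-- U2: ultraproducts of rational maps -/
def U2S : Prop := ∀ (d : ℕ) (f : ℕ → RatMap ℂ d), ∃ F : RatMap HC d,
  ∀ i, F.coef i = ((fun j => (f j).coef i : ℕ → ℂ) : HC)

/-- U3 (may use U1, A2): multipliers of ultraproducts -/
def U3S : Prop := ∀ (d n : ℕ) (f : ℕ → RatMap ℂ d) (F : RatMap HC d), 2 ≤ d → 1 ≤ n →
  (∀ i, F.coef i = ((fun j => (f j).coef i : ℕ → ℂ) : HC)) →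
  ∃ m : ℕ → Fin (d ^ n + 1) → ℂ,
    (∀ j, (f j).multSpec n = Finset.univ.val.map (m j)) ∧
    F.multSpec n = Finset.univ.val.map (fun i => ((fun j => m j i : ℕ → ℂ) : HC))

/-- NO (from A1, A2, A4, B4): finitely many periods determine the multiplier spectrum -/
def NOS : Prop := ∀ d : ℕ, 2 ≤ d → ∃ N : ℕ, ∀ f g : RatMap ℂ d,
  (∀ n, 1 ≤ n → n ≤ N → f.multSpec n = g.multSpec n) →
  ∀ n, 1 ≤ n → f.multSpec n = g.multSpec n

/-- RZ (from MAIN, U1, U2, U3, NO, E3): the final theorem -/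
def RZS : Prop := ∀ d : ℕ, 2 ≤ d → ∃ W : MvPolynomial (CI d ⊕ CI d) ℚ, W ≠ 0 ∧
  ∀ f : RatMap ℂ d, MvPolynomial.aeval f.coefs W ≠ 0 → ∀ g : RatMap ℂ d,
    (∀ n, 1 ≤ n → f.lenSpec n = g.lenSpec n) →
    (∀ n, 1 ≤ n → g.multSpec n = f.multSpec n) ∨
    (∀ n, 1 ≤ n → g.multSpec n = f.conj.multSpec n)

/-- TM: almost all points have coordinates that are algebraically independent together with their
conjugates -/
def TMS : Prop := ∀ (ι : Type) [Fintype ι] (W : MvPolynomial (ι ⊕ ι) ℚ), W ≠ 0 →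
  ∀ᵐ x : ι → ℂ, MvPolynomial.aeval (Sum.elim x (fun i => starRingEnd ℂ (x i))) W ≠ 0

end Pool.Agent.LenSpec
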