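import Pool.Agent.LenSpec.GIDefs
import Pool.Agent.LenSpec.Stmt
import Pool.Agent.LenSpec.PlBasic

/-!
TC1: existence of the cycle of length two near `w s, w l`.
-/

namespace Pool.Agent.LenSpec

open Polynomial

namespace TC1

variable {K κ : Type} [Field K] [Field κ]

/-- the function `F` is given on the ring of the place by a quotient `P / Q`, where `P` reduces
to `G` and `Q` reduces to one -/
def FR (p : Pl K κ) (F : K → K) (G : κ[X]) : Prop :=
  ∃ P Q : K[X], p.RedP P G ∧ p.RedP Q 1 ∧ ∀ x ∈ p.O, F x = P.eval x / Q.eval x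

variable {p : Pl K κ}

theorem eval_Q_ne {Q : K[X]} (h : p.RedP Q 1) {x : K} (hx : x ∈ p.O) : Q.eval x ≠ 0 := by
  have h1 := h.eval (Pl.red_rs hx)
  rw [eval_one] at h1
  exact h1.ne_zero one_ne_zero

theorem FR.red {F : K → K} {G : κ[X]} (h : FR p F G) {x : K} {y : κ} (hx : p.Red x y) :
    p.Red (F x) (G.eval y) := by
  obtain ⟨P, Q, hP, hQ, hF⟩ := h
  rw [hF x hx.mem]
  have h1 := (hP.eval hx).div (hQ.eval hx) (by rw [eval_one]; exact one_ne_zero)
  rwa [eval_one, div_one] at h1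

theorem fr_const {c : K} {y : κ} (h : p.Red c y) : FR p (fun _ => c) (C y) :=
  ⟨C c, 1, Pl.redP_C h, Pl.redP_one, fun x _ => by simp⟩

theorem fr_id : FR p (fun x => x) X := ⟨X, 1, Pl.redP_X, Pl.redP_one, fun x _ => by simp⟩

theorem FR.add {F F' : K → K} {G G' : κ[X]} (h : FR p F G) (h' : FR p F' G') :
    FR p (fun x => F x + F' x) (G + G') := by
  obtain ⟨P, Q, hP, hQ, hF⟩ := h
  obtain ⟨P', Q', hP', hQ', hF'⟩ := h'
  refine ⟨P * Q' + P' * Q, Q * Q', ?_, ?_, ?_⟩
  · simpa using (hP.mul hQ').add (hP'.mul hQ)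
  · simpa using hQ.mul hQ'
  · intro x hx
    have h1 := eval_Q_ne hQ hx
    have h2 := eval_Q_ne hQ' hx
    simp only []
    rw [hF x hx, hF' x hx, eval_add, eval_mul, eval_mul, eval_mul]
    field_simp

theorem FR.mul {F F' : K → K} {G G' : κ[X]} (h : FR p F G) (h' : FR p F' G') :
    FR p (fun x => F x * F' x) (G * G') := by
  obtain ⟨P, Q, hP, hQ, hF⟩ := h
  obtain ⟨P', Q', hP', hQ', hF'⟩ := h'
  refine ⟨P * P', Q * Q', hP.mul hP', ?_, ?_⟩
  · simpa using hQ.mul hQ'
  · intro x hx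
    have h1 := eval_Q_ne hQ hx
    have h2 := eval_Q_ne hQ' hx
    simp only []
    rw [hF x hx, hF' x hx, eval_mul, eval_mul]
    field_simp

theorem FR.neg {F : K → K} {G : κ[X]} (h : FR p F G) : FR p (fun x => - F x) (-G) := by
  have h1 := (fr_const (p := p) Pl.red_one.neg).mul h
  have e1 : (fun x => -1 * F x) = (fun x => - F x) := by
    funext x
    ring
  have e2 : (C (-1 : κ)) * G = -G := by simp
  rw [e1, e2] at h1
  exact h1

theorem FR.sub {F F' : K → K} {G G' : κ[X]} (h : FR p F G) (h' : FR p F' G') :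
    FR p (fun x => F x - F' x) (G - G') := by
  have h1 := h.add h'.neg
  simp only [← sub_eq_add_neg] at h1
  exact h1

theorem fr_sum {ι : Type*} (s : Finset ι) {F : ι → K → K} {G : ι → κ[X]}
    (h : ∀ i ∈ s, FR p (F i) (G i)) : FR p (fun x => ∑ i ∈ s, F i x) (∑ i ∈ s, G i) := by
  classical
  induction s using Finset.induction_on with
  | empty =>
    have h1 := fr_const (p := p) Pl.red_zero
    simpa using h1
  | insert a s ha ih =>
    simp only [Finset.sum_insert ha]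
    exact (h a (Finset.mem_insert_self a s)).add
      (ih (fun i hi => h i (Finset.mem_insert_of_mem hi)))

theorem FR.inv {F : K → K} {g : κ} (hg : g ≠ 0) (h : FR p F (C g)) :
    FR p (fun x => (F x)⁻¹) (C g⁻¹) := by
  obtain ⟨P, Q, hP, hQ, hF⟩ := h
  have h0 : p.Red (P.coeff 0) g := by simpa using hP 0
  have h1 : p.Red (P.coeff 0)⁻¹ g⁻¹ := h0.inv hg
  have hne : (P.coeff 0)⁻¹ ≠ 0 := inv_ne_zero (h0.ne_zero hg)
  refine ⟨C (P.coeff 0)⁻¹ * Q, C (P.coeff 0)⁻¹ * P, ?_, ?_, ?_⟩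
  · have := (Pl.redP_C h1).mul hQ
    rwa [mul_one] at this
  · have := (Pl.redP_C h1).mul hP
    rwa [← map_mul, inv_mul_cancel₀ hg, map_one] at this
  · intro x hx
    simp only []
    rw [hF x hx, eval_mul, eval_mul, eval_C, inv_div, mul_div_mul_left _ _ hne]

theorem FR.congr {F F' : K → K} {G G' : κ[X]} (h : FR p F G) (hF : ∀ x, F x = F' x)
    (hG : G = G') : FR p F' G' := by
  have : F = F' := funext hF
  rw [← this, ← hG]
  exact h

theorem exists_root [IsAlgClosed K] (n1 : N1S) {F : K → K} {e : κ} (h : FR p F (C e - X)) :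
    ∃ x, p.Red x e ∧ F x = 0 := by
  obtain ⟨P, Q, hP, hQ, hF⟩ := h
  have hV : (C e - X : κ[X]) = - (X - C e) := by ring
  have hV0 : (C e - X : κ[X]) ≠ 0 := by
    rw [hV, neg_ne_zero]
    exact X_sub_C_ne_zero e
  obtain ⟨S, R, hW, hS, -, hVr, -⟩ := n1 K κ p P (C e - X) hP hV0
  rw [hV, roots_neg, roots_X_sub_C] at hVr
  obtain ⟨x, hx, hxe⟩ := Multiset.map_eq_singleton.1 hVr.symm
  have hxS : x ∈ S := by
    rw [hx]
    exact Multiset.mem_singleton_self x
  have hxO := hS x hxS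
  have hroot : P.eval x = 0 := by
    have : x ∈ P.roots := by
      rw [hW]
      exact Multiset.mem_add.2 (Or.inl hxS)
    exact (mem_roots'.1 this).2
  refine ⟨x, ?_, ?_⟩
  · rw [← hxe]
    exact Pl.red_rs hxO
  · rw [hF x hxO, hroot, zero_div]

section cfg

variable {d : ℕ} {c w : Fin d → K} {δ : K} {V : Finset (Fin d)}

/-- the sum of the `c j / (z - w j)` without the term `s` -/
theorem fr_S (hC : Cfg p δ c w V) {s : Fin d} (hs : s ∈ V) {α : K → K} {G : κ[X]}
    (hα : FR p α G) : ∃ σ : κ,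
    FR p (fun x => ∑ j ∈ Finset.univ.erase s, c j * (w s + δ * α x - w j)⁻¹) (C σ) := by
  classical
  have hz : FR p (fun x => w s + δ * α x) (C (p.rs (w s))) := by
    have h1 := (fr_const (Pl.red_rs (hC.w_mem s hs))).add ((fr_const hC.δ_red).mul hα)
    refine h1.congr (fun x => rfl) ?_
    rw [map_zero, zero_mul, add_zero]
  have hj : ∀ j ∈ Finset.univ.erase s, FR p (fun x => c j * (w s + δ * α x - w j)⁻¹)
      (C (if j ∈ V then p.rs (c j) * (p.rs (w s) - p.rs (w j))⁻¹ else 0)) := by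
    intro j hj
    have hjs : j ≠ s := (Finset.mem_erase.1 hj).1
    have hcj := fr_const (Pl.red_rs (hC.c_mem j))
    split_ifs with hjV
    · have h1 := hz.sub (fr_const (Pl.red_rs (hC.w_mem j hjV)))
      rw [← map_sub] at h1
      have hne : p.rs (w s) - p.rs (w j) ≠ 0 := by
        rw [sub_ne_zero]
        exact hC.w_ne s hs j hjV hjs.symm
      have h2 := hcj.mul (h1.inv hne)
      rw [← map_mul] at h2
      exact h2
    · have hw := hC.w_inf j hjV
      have hw0 : w j ≠ 0 := by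
        intro h0
        apply hw
        rw [h0]
        exact p.O.zero_mem
      have hwi : p.Red (w j)⁻¹ 0 := Pl.not_mem_inv hw
      have h1 : FR p (fun x => 1 - (w j)⁻¹ * (w s + δ * α x)) (C 1) := by
        refine ((fr_const Pl.red_one).sub ((fr_const hwi).mul hz)).congr (fun x => rfl) ?_
        simp
      have h2 := hcj.mul ((fr_const hwi.neg).mul (h1.inv one_ne_zero))
      refine h2.congr ?_ ?_
      · intro x
        have h3 : w s + δ * α x - w j = (-(w j)) * (1 - (w j)⁻¹ * (w s + δ * α x)) := by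
          field_simp
          ring
        rw [h3, mul_inv, ← neg_inv]
      · simp
  refine ⟨_, (fr_sum _ hj).congr (fun x => rfl) (map_sum C _ _).symm⟩

theorem nN_eq (s : Fin d) {α : K} (hδ : δ ≠ 0) (hα : α ≠ 0) :
    nN (fun j => δ * c j) w (w s + δ * α) =
      (c s + δ * α * ∑ j ∈ Finset.univ.erase s, c j * (w s + δ * α - w j)⁻¹) / α := by
  classical
  have h1 : nN (fun j => δ * c j) w (w s + δ * α) =
      δ * c s / (w s + δ * α - w s) +
        ∑ j ∈ Finset.univ.erase s, δ * c j / (w s + δ * α - w j) :=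
    (Finset.add_sum_erase Finset.univ _ (Finset.mem_univ s)).symm
  have h2 : ∑ j ∈ Finset.univ.erase s, δ * c j / (w s + δ * α - w j) =
      δ * ∑ j ∈ Finset.univ.erase s, c j * (w s + δ * α - w j)⁻¹ := by
    rw [Finset.mul_sum]
    exact Finset.sum_congr rfl (fun j _ => by rw [div_eq_mul_inv, mul_assoc])
  rw [h1, h2, add_sub_cancel_left]
  field_simp

theorem ne_w (hC : Cfg p δ c w V) {s : Fin d} (hs : s ∈ V) {α : K} {y : κ}
    (hα : p.Red α y) (hy : y ≠ 0) (j : Fin d) : w s + δ * α ≠ w j := by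
  have hz : p.Red (w s + δ * α) (p.rs (w s)) := by
    have := (Pl.red_rs (hC.w_mem s hs)).add (hC.δ_red.mul hα)
    rwa [zero_mul, add_zero] at this
  intro h
  by_cases hjs : j = s
  · rw [hjs] at h
    have h1 : δ * α = 0 := by linear_combination h
    rcases mul_eq_zero.1 h1 with h2 | h2
    · exact hC.δ_ne h2
    · exact hα.ne_zero hy h2
  · rw [h] at hz
    by_cases hjV : j ∈ V
    · exact hC.w_ne j hjV s hs hjs hz.rs_eq
    · exact hC.w_inf j hjV hz.mem

end cfg

end TC1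

open TC1 in
theorem TC1_holds (n1 : N1S) : TC1S := by
  classical
  intro K κ _ _ _ p d c w δ V hC s hs l hl hsl
  have hcs := Pl.red_rs (hC.c_mem s)
  have hcl := Pl.red_rs (hC.c_mem l)
  have hws := Pl.red_rs (hC.w_mem s hs)
  have hwl := Pl.red_rs (hC.w_mem l hl)
  have hane : p.rs (w s) - p.rs (w l) ≠ 0 := by
    rw [sub_ne_zero]
    exact hC.w_ne s hs l hl hsl
  have ha : p.Red (w s - w l) (p.rs (w s) - p.rs (w l)) := hws.sub hwl
  -- the function `α`
  obtain ⟨α, hα⟩ : ∃ α : K → K, α = fun x => c s * (w s - w l) + δ * x := ⟨_, rfl⟩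
  have hαF : FR p α (C (p.rs (c s) * (p.rs (w s) - p.rs (w l)))) := by
    refine ((fr_const (hcs.mul ha)).add ((fr_const hC.δ_red).mul fr_id)).congr
      (fun x => by rw [hα]) ?_
    simp
  obtain ⟨σ, hσ⟩ := fr_S hC hs hαF
  obtain ⟨S, hS⟩ : ∃ S : K → K,
    S = fun x => ∑ j ∈ Finset.univ.erase s, c j * (w s + δ * α x - w j)⁻¹ := ⟨_, rfl⟩
  rw [← hS] at hσ
  obtain ⟨μ, hμ⟩ : ∃ μ : K → K, μ = fun x => c s + δ * α x * S x := ⟨_, rfl⟩
  have hμF : FR p μ (C (p.rs (c s))) := by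
    refine ((fr_const hcs).add (((fr_const hC.δ_red).mul hαF).mul hσ)).congr
      (fun x => by rw [hμ]) ?_
    simp
  obtain ⟨b, hb⟩ : ∃ b : K → K, b = fun x =>
    (w s - w l) * α x * S x + α x * c s + δ * α x * α x * S x - x := ⟨_, rfl⟩
  obtain ⟨e₀, hbF⟩ : ∃ e₀ : κ, FR p b (C e₀ - X) := by
    refine ⟨(p.rs (w s) - p.rs (w l)) * (p.rs (c s) * (p.rs (w s) - p.rs (w l))) * σ +
      (p.rs (c s) * (p.rs (w s) - p.rs (w l))) * p.rs (c s), ?_⟩
    refine ((((((fr_const ha).mul hαF).mul hσ).add (hαF.mul (fr_const hcs))).add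
      ((((fr_const hC.δ_red).mul hαF).mul hαF).mul hσ)).sub fr_id).congr
      (fun x => by rw [hb]) ?_
    simp only [map_add, map_mul, map_zero, zero_mul, add_zero]
  obtain ⟨β, hβ⟩ : ∃ β : K → K, β = fun x => b x * (μ x)⁻¹ := ⟨_, rfl⟩
  have hβF : FR p β ((C e₀ - X) * C (p.rs (c s))⁻¹) := by
    refine (hbF.mul (hμF.inv (hC.c_ne s))).congr (fun x => by rw [hβ]) rfl
  obtain ⟨σ', hσ'⟩ := fr_S hC hl hβF
  obtain ⟨S', hS'⟩ : ∃ S' : K → K,
    S' = fun x => ∑ j ∈ Finset.univ.erase l, c j * (w l + δ * β x - w j)⁻¹ := ⟨_, rfl⟩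
  rw [← hS'] at hσ'
  obtain ⟨H, hH⟩ : ∃ H : K → K, H = fun x => c l * α x + b x + δ * S' x * α x * β x := ⟨_, rfl⟩
  obtain ⟨e, hHF⟩ : ∃ e : κ, FR p H (C e - X) := by
    refine ⟨p.rs (c l) * (p.rs (c s) * (p.rs (w s) - p.rs (w l))) + e₀, ?_⟩
    refine ((((fr_const hcl).mul hαF).add hbF).add
      ((((fr_const hC.δ_red).mul hσ').mul hαF).mul hβF)).congr (fun x => by rw [hH]) ?_
    simp only [map_add, map_mul, map_zero, zero_mul, add_zero]
    ring
  obtain ⟨x, hx, hHx⟩ := exists_root n1 hHF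
  -- reductions at `x`
  have rα : p.Red (α x) (p.rs (c s) * (p.rs (w s) - p.rs (w l))) := by
    have := hαF.red hx
    rwa [eval_C] at this
  have rμ : p.Red (μ x) (p.rs (c s)) := by
    have := hμF.red hx
    rwa [eval_C] at this
  have rS' : p.Red (S' x) σ' := by
    have := hσ'.red hx
    rwa [eval_C] at this
  have rβ' := hβF.red hx
  have eH : b x = -(c l * α x) - δ * (S' x * α x * β x) := by
    have h1 : c l * α x + b x + δ * S' x * α x * β x = 0 := by
      rw [hH] at hHx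
      exact hHx
    linear_combination h1
  have rb : p.Red (b x) (-(p.rs (c l) * (p.rs (c s) * (p.rs (w s) - p.rs (w l))))) := by
    rw [eH]
    have h1 := ((hcl.mul rα).neg).sub (hC.δ_red.mul ((rS'.mul rα).mul rβ'))
    rwa [zero_mul, sub_zero] at h1
  have rβ : p.Red (β x) (p.rs (c l) * (p.rs (w l) - p.rs (w s))) := by
    have h1 := rb.mul (rμ.inv (hC.c_ne s))
    rw [hβ]
    refine h1.eq rfl ?_
    have := hC.c_ne s
    field_simp
    ring
  have nα : α x ≠ 0 := rα.ne_zero (mul_ne_zero (hC.c_ne s) hane)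
  have hane' : p.rs (w l) - p.rs (w s) ≠ 0 := by
    rw [sub_ne_zero]
    exact hC.w_ne l hl s hs hsl.symm
  have nβ : β x ≠ 0 := rβ.ne_zero (mul_ne_zero (hC.c_ne l) hane')
  have nμ : μ x ≠ 0 := rμ.ne_zero (hC.c_ne s)
  have hδ := hC.δ_ne
  have eα : α x = c s * (w s - w l) + δ * x := by rw [hα]
  have eμ : μ x = c s + δ * α x * S x := by rw [hμ]
  have eb : b x = (w s - w l) * α x * S x + α x * c s + δ * α x * α x * S x - x := by rw [hb]
  have eβ : β x * μ x = b x := by
    rw [hβ]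
    simp only []
    rw [mul_assoc, inv_mul_cancel₀ nμ, mul_one]
  have eD : (w s + δ * α x - (w l + δ * β x)) * μ x = α x := by
    have h1 : (w s + δ * α x - (w l + δ * β x)) * μ x =
        (w s - w l + δ * α x) * μ x - δ * (β x * μ x) := by ring
    rw [h1, eβ, eb, eμ]
    linear_combination -eα
  refine ⟨w s + δ * α x, w l + δ * β x, ⟨?_, ?_, ?_, ?_⟩, ?_, ?_⟩
  · exact ne_w hC hs rα (mul_ne_zero (hC.c_ne s) hane)
  · exact ne_w hC hl rβ (mul_ne_zero (hC.c_ne l) hane')
  · rw [nN_eq s hδ nα]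
    have eS : ∑ j ∈ Finset.univ.erase s, c j * (w s + δ * α x - w j)⁻¹ = S x := by rw [hS]
    rw [eS, ← eμ]
    rw [div_mul_eq_mul_div, mul_comm (μ x), eD, div_self nα]
  · rw [nN_eq l hδ nβ]
    have eS : ∑ j ∈ Finset.univ.erase l, c j * (w l + δ * β x - w j)⁻¹ = S' x := by rw [hS']
    rw [eS]
    have hD : w l + δ * β x - (w s + δ * α x) = - (α x / μ x) := by
      rw [eq_neg_iff_add_eq_zero, ← sub_eq_zero_of_eq (rfl : (0 : K) = 0)]
      field_simp
      linear_combination -eD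
    rw [hD]
    have h2 : b x = -(c l + δ * β x * S' x) * α x := by
      rw [eH]
      ring
    have h3 : (c l + δ * β x * S' x) / β x * -(α x / μ x) =
        (-(c l + δ * β x * S' x) * α x) / (β x * μ x) := by
      field_simp
    rw [h3, ← h2, eβ, div_self]
    exact rb.ne_zero (neg_ne_zero.2 (mul_ne_zero (hC.c_ne l) (mul_ne_zero (hC.c_ne s) hane)))
  · rw [add_sub_cancel_left, mul_div_cancel_left₀ _ hδ]
    exact rα
  · rw [add_sub_cancel_left, mul_div_cancel_left₀ _ hδ]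
    exact rβ

end Pool.Agent.LenSpec
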