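import Pool.Agent.LenSpec.GIDefs
import Pool.Agent.LenSpec.PlBasic

/-!
TC2: expansion of the multiplier of a cycle of length two.
-/

namespace Pool.Agent.LenSpec

open Polynomial

section tc2

variable {K κ : Type} [Field K] [Field κ] {p : Pl K κ} {d : ℕ}

private lemma tc2_one {c w : Fin d → K} {δ : K} {V : Finset (Fin d)} (hC : Cfg p δ c w V)
    {s : Fin d} (hs : s ∈ V) {z D : K} {a : κ} (hz : ∀ j, z ≠ w j)
    (hred : p.Red ((z - w s) / δ) a) (heq : nN (fun j => δ * c j) w z * D = 1) :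
    ∃ S T : K, p.Red S (eE V (fun j => p.rs (c j)) (fun j => p.rs (w j)) s) ∧ T ∈ p.O ∧
      1 - nD (fun j => δ * c j) w z * D ^ 2 =
        (1 - (δ * c s)⁻¹) + 2 * S * D / c s - δ * D ^ 2 * T := by
  classical
  have hδ := hC.δ_ne
  have hcs : c s ≠ 0 := by
    intro h
    apply hC.c_ne s
    rw [h]
    exact (Pl.red_zero (p := p)).rs_eq
  have hx : z - w s ≠ 0 := sub_ne_zero.2 (hz s)
  have hzr : p.Red z (p.rs (w s)) := by
    have h1 : z = w s + δ * ((z - w s) / δ) := by
      rw [mul_div_cancel₀ _ hδ]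
      ring
    have h2 := (Pl.red_rs (hC.w_mem s hs)).add (hC.δ_red.mul hred)
    exact h2.eq h1.symm (by rw [zero_mul, add_zero])
  have hinv : ∀ j, j ≠ s → p.Red (z - w j)⁻¹
      (if j ∈ V then (p.rs (w s) - p.rs (w j))⁻¹ else 0) := by
    intro j hj
    by_cases hjV : j ∈ V
    · rw [if_pos hjV]
      refine (hzr.sub (Pl.red_rs (hC.w_mem j hjV))).inv ?_
      rw [sub_ne_zero]
      exact hC.w_ne s hs j hjV (Ne.symm hj)
    · rw [if_neg hjV]
      apply Pl.not_mem_inv
      intro hmem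
      apply hC.w_inf j hjV
      have : w j = z - (z - w j) := by ring
      rw [this]
      exact p.O.sub_mem hzr.mem hmem
  have hSred : p.Red (∑ j ∈ Finset.univ.erase s, c j / (z - w j))
      (eE V (fun j => p.rs (c j)) (fun j => p.rs (w j)) s) := by
    have h1 := Pl.red_sum (p := p) (Finset.univ.erase s) (x := fun j => c j / (z - w j))
      (y := fun j => p.rs (c j) * (if j ∈ V then (p.rs (w s) - p.rs (w j))⁻¹ else 0))
      (fun j hj => by
        have := (Pl.red_rs (hC.c_mem j)).mul (hinv j (Finset.ne_of_mem_erase hj))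
        rwa [← div_eq_mul_inv] at this)
    refine h1.eq rfl ?_
    unfold eE
    have h2 : V.erase s = (Finset.univ.erase s).filter (fun j => j ∈ V) := by
      ext j
      simp [and_comm]
    rw [h2, Finset.sum_filter]
    refine Finset.sum_congr rfl fun j _ => ?_
    split_ifs
    · rw [div_eq_mul_inv]
    · rw [mul_zero]
  have hQ : (∑ j ∈ Finset.univ.erase s, c j / (z - w j) ^ 2) ∈ p.O := by
    refine sum_mem fun j hj => ?_
    have h1 := (Pl.red_rs (hC.c_mem j)).mul ((hinv j (Finset.ne_of_mem_erase hj)).pow 2)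
    have h2 := h1.mem
    rwa [inv_pow, ← div_eq_mul_inv] at h2
  refine ⟨∑ j ∈ Finset.univ.erase s, c j / (z - w j),
    (∑ j ∈ Finset.univ.erase s, c j / (z - w j)) ^ 2 / c s +
      ∑ j ∈ Finset.univ.erase s, c j / (z - w j) ^ 2, hSred, ?_, ?_⟩
  · refine p.O.add_mem ?_ hQ
    exact ((hSred.pow 2).div (Pl.red_rs (hC.c_mem s)) (hC.c_ne s)).mem
  · have h1 : nN (fun j => δ * c j) w z =
        δ * c s / (z - w s) + δ * ∑ j ∈ Finset.univ.erase s, c j / (z - w j) := by
      unfold nN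
      rw [← Finset.add_sum_erase _ _ (Finset.mem_univ s), Finset.mul_sum]
      congr 1
      refine Finset.sum_congr rfl fun j _ => ?_
      rw [mul_div_assoc]
    have h2 : nD (fun j => δ * c j) w z =
        δ * c s / (z - w s) ^ 2 + δ * ∑ j ∈ Finset.univ.erase s, c j / (z - w j) ^ 2 := by
      unfold nD
      rw [← Finset.add_sum_erase _ _ (Finset.mem_univ s), Finset.mul_sum]
      congr 1
      refine Finset.sum_congr rfl fun j _ => ?_
      rw [mul_div_assoc]
    rw [h1] at heq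
    rw [h2]
    set S := ∑ j ∈ Finset.univ.erase s, c j / (z - w j) with hS
    set Q := ∑ j ∈ Finset.univ.erase s, c j / (z - w j) ^ 2 with hQd
    set x := z - w s with hxd
    have h3 : δ * c s * D / x = 1 - δ * S * D := by
      have h4 : (δ * c s / x + δ * S) * D = δ * c s * D / x + δ * S * D := by ring
      rw [h4] at heq
      linear_combination heq
    have h5 : δ * c s / x ^ 2 * D ^ 2 = (1 - δ * S * D) ^ 2 / (δ * c s) := by
      rw [← h3]
      field_simp
    have h6 : 1 - (δ * c s / x ^ 2 + δ * Q) * D ^ 2 =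
        1 - δ * c s / x ^ 2 * D ^ 2 - δ * Q * D ^ 2 := by ring
    rw [h6, h5]
    field_simp
    ring

end tc2

theorem tc2_holds : TC2S := by
  intro K κ _ _ p d c w δ V hC s hs l hl hsl z z' hN
  have hδ := hC.δ_ne
  have hc0 : ∀ j, c j ≠ 0 := by
    intro j h
    apply hC.c_ne j
    rw [h]
    exact (Pl.red_zero (p := p)).rs_eq
  have hcr : ∀ j, p.Red (c j) (p.rs (c j)) := fun j => Pl.red_rs (hC.c_mem j)
  obtain ⟨Ss, Ts, hSs, hTs, hAs⟩ := tc2_one hC hs hN.two.hz hN.red hN.two.eq1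
  obtain ⟨Sl, Tl, hSl, hTl, hAl⟩ := tc2_one hC hl hN.two.hz' hN.red' hN.two.eq2
  have hz : p.Red z (p.rs (w s)) := by
    have h1 : z = w s + δ * ((z - w s) / δ) := by
      rw [mul_div_cancel₀ _ hδ]
      ring
    have h2 := (Pl.red_rs (hC.w_mem s hs)).add (hC.δ_red.mul hN.red)
    exact h2.eq h1.symm (by rw [zero_mul, add_zero])
  have hz' : p.Red z' (p.rs (w l)) := by
    have h1 : z' = w l + δ * ((z' - w l) / δ) := by
      rw [mul_div_cancel₀ _ hδ]
      ring
    have h2 := (Pl.red_rs (hC.w_mem l hl)).add (hC.δ_red.mul hN.red')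
    exact h2.eq h1.symm (by rw [zero_mul, add_zero])
  have hD : p.Red (z - z') (p.rs (w s) - p.rs (w l)) := hz.sub hz'
  set D := z - z' with hDd
  have hD' : z' - z = -D := by rw [hDd]; ring
  rw [hD'] at hAl
  have hneg : (-D) ^ 2 = D ^ 2 := by ring
  rw [hneg] at hAl
  have hmm : mm (fun j => δ * c j) w z z' =
      ((1 - (δ * c s)⁻¹) + 2 * Ss * D / c s - δ * D ^ 2 * Ts) *
      ((1 - (δ * c l)⁻¹) + 2 * Sl * (-D) / c l - δ * D ^ 2 * Tl) := by
    unfold mm
    rw [← hDd, hAs, hAl]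
  have h2r : p.Red (2 : K) (2 : κ) := by
    have := Pl.red_natCast (p := p) 2
    push_cast at this
    exact this
  have hTsr := Pl.red_rs hTs
  have hTlr := Pl.red_rs hTl
  constructor
  · have hA : p.Red (δ * ((1 - (δ * c s)⁻¹) + 2 * Ss * D / c s - δ * D ^ 2 * Ts))
        (-(p.rs (c s))⁻¹) := by
      have h1 : p.Red (δ - (c s)⁻¹ + δ * (2 * Ss * D / c s) - δ * (δ * D ^ 2 * Ts)) _ :=
        ((hC.δ_red.sub ((hcr s).inv (hC.c_ne s))).add
          (hC.δ_red.mul (((h2r.mul hSs).mul hD).div (hcr s) (hC.c_ne s)))).sub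
          (hC.δ_red.mul ((hC.δ_red.mul (hD.pow 2)).mul hTsr))
      refine h1.eq ?_ (by ring)
      have := hc0 s
      field_simp
    have hB : p.Red (δ * ((1 - (δ * c l)⁻¹) + 2 * Sl * (-D) / c l - δ * D ^ 2 * Tl))
        (-(p.rs (c l))⁻¹) := by
      have h1 : p.Red (δ - (c l)⁻¹ + δ * (2 * Sl * (-D) / c l) - δ * (δ * D ^ 2 * Tl)) _ :=
        ((hC.δ_red.sub ((hcr l).inv (hC.c_ne l))).add
          (hC.δ_red.mul (((h2r.mul hSl).mul hD.neg).div (hcr l) (hC.c_ne l)))).sub
          (hC.δ_red.mul ((hC.δ_red.mul (hD.pow 2)).mul hTlr))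
      refine h1.eq ?_ (by ring)
      have := hc0 l
      field_simp
    refine (hA.mul hB).eq ?_ ?_
    · rw [hmm]
      ring
    · rw [neg_mul_neg, mul_inv]
  · have hu : ∀ j, p.Red (1 - δ * c j) 1 := by
      intro j
      refine (Pl.red_one.sub (hC.δ_red.mul (hcr j))).eq rfl ?_
      rw [zero_mul, sub_zero]
    have hu0 : ∀ j, 1 - δ * c j ≠ 0 := fun j => (hu j).ne_zero one_ne_zero
    have hBs : p.Red (-(2 * Ss * D - δ * c s * D ^ 2 * Ts) / (1 - δ * c s)) _ :=
      ((((h2r.mul hSs).mul hD).sub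
        (((hC.δ_red.mul (hcr s)).mul (hD.pow 2)).mul hTsr)).neg).div (hu s) one_ne_zero
    have hBl : p.Red (-(2 * Sl * (-D) - δ * c l * D ^ 2 * Tl) / (1 - δ * c l)) _ :=
      ((((h2r.mul hSl).mul hD.neg).sub
        (((hC.δ_red.mul (hcr l)).mul (hD.pow 2)).mul hTlr)).neg).div (hu l) one_ne_zero
    refine ((hBs.add hBl).add (hC.δ_red.mul (hBs.mul hBl))).eq ?_ ?_
    · rw [hmm]
      have h1 := hc0 s
      have h2 := hc0 l
      have h3 := hu0 s
      have h4 := hu0 l
      have key : ∀ j (S D T : K), (1 - (δ * c j)⁻¹) + 2 * S * D / c j - δ * D ^ 2 * T =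
          (1 - (δ * c j)⁻¹) * (1 + δ * (-(2 * S * D - δ * c j * D ^ 2 * T) / (1 - δ * c j))) := by
        intro j S D T
        have h5 := hc0 j
        have h6 := hu0 j
        field_simp
        ring
      have hus : ∀ j, 1 - (δ * c j)⁻¹ ≠ 0 := by
        intro j h
        have h7 : (δ * c j)⁻¹ = 1 := by linear_combination -h
        have h8 : δ * c j = 1 := inv_eq_one.1 h7
        apply hu0 j
        rw [h8, sub_self]
      have k1 := key s Ss D Ts
      have k2 := key l Sl (-D) Tl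
      rw [hneg] at k2
      rw [k1, k2]
      have h9 := hus s
      have h10 := hus l
      set A := -(2 * Ss * D - δ * c s * D ^ 2 * Ts) / (1 - δ * c s)
      set B := -(2 * Sl * -D - δ * c l * D ^ 2 * Tl) / (1 - δ * c l)
      have h11 : (1 - (δ * c s)⁻¹) * (1 + δ * A) * ((1 - (δ * c l)⁻¹) * (1 + δ * B)) /
          ((1 - (δ * c s)⁻¹) * (1 - (δ * c l)⁻¹)) = (1 + δ * A) * (1 + δ * B) := by
        rw [div_eq_iff (mul_ne_zero h9 h10)]
        ring
      rw [h11]
      field_simp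
      ring
    · unfold gG
      ring

end Pool.Agent.LenSpec
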