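import Pool.Agent.LenSpec.GIDefs
import Pool.Agent.LenSpec.Stmt

/-!
TC3: the multiplier of a cycle of length two is in `multSpec 2`. Values and derivatives of a map in
normal form.
-/

namespace Pool.Agent.LenSpec

open Polynomial

namespace TC3

section nf

variable {K : Type} [Field K] {d : ℕ} {w ι : Fin d → K}

theorem eval_nfR (w : Fin d → K) (z : K) : (nfR w).eval z = ∏ j, (z - w j) := by
  simp [nfR, eval_prod]

theorem eval_nfM (w ι : Fin d → K) (z : K) :
    (nfM w ι).eval z = ∑ j, ι j * ∏ l ∈ Finset.univ.erase j, (z - w l) := by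
  simp [nfM, eval_finsetSum, eval_prod]

theorem prod_erase {z : K} (hz : ∀ j, z ≠ w j) (j : Fin d) :
    ∏ l ∈ Finset.univ.erase j, (z - w l) = (∏ l, (z - w l)) / (z - w j) := by
  rw [eq_div_iff (sub_ne_zero.2 (hz j)), mul_comm]
  exact Finset.mul_prod_erase Finset.univ (fun l => z - w l) (Finset.mem_univ j)

theorem eval_nfM_eq {z : K} (hz : ∀ j, z ≠ w j) :
    (nfM w ι).eval z = nN ι w z * (nfR w).eval z := by
  rw [eval_nfM, eval_nfR, nN, Finset.sum_mul]
  refine Finset.sum_congr rfl (fun j _ => ?_)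
  rw [prod_erase hz j]
  ring

theorem eval_nfR_ne {z : K} (hz : ∀ j, z ≠ w j) : (nfR w).eval z ≠ 0 := by
  rw [eval_nfR]
  exact Finset.prod_ne_zero_iff.2 (fun j _ => sub_ne_zero.2 (hz j))

theorem deriv_prod (s : Finset (Fin d)) {z : K} (hz : ∀ l ∈ s, z ≠ w l) :
    (derivative (∏ l ∈ s, (X - C (w l)))).eval z =
      (∏ l ∈ s, (z - w l)) * ∑ l ∈ s, (z - w l)⁻¹ := by
  classical
  induction s using Finset.induction_on with
  | empty => simp
  | insert a s ha ih =>
    have h1 := ih (fun l hl => hz l (Finset.mem_insert_of_mem hl))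
    have h2 : z - w a ≠ 0 := sub_ne_zero.2 (hz a (Finset.mem_insert_self a s))
    rw [Finset.prod_insert ha, Finset.prod_insert ha, Finset.sum_insert ha, derivative_mul,
      eval_add, eval_mul, eval_mul, h1]
    simp only [derivative_sub, derivative_X, derivative_C, sub_zero, eval_one, one_mul,
      eval_prod, eval_sub, eval_X, eval_C]
    field_simp

theorem derivAt_nf (M R : K[X]) {z : K} (hM : M.eval z ≠ 0) :
    derivAt (X * M - R) M z = 1 - ((derivative R).eval z * M.eval z -
      R.eval z * (derivative M).eval z) / (M.eval z) ^ 2 := by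
  rw [derivAt]
  simp only [derivative_sub, derivative_mul, derivative_X, one_mul, eval_sub, eval_add, eval_mul,
    eval_X]
  field_simp
  ring

/-- the derivative at a point that is not fixed -/
theorem derivAt_cyc {z z' : K} (hz : ∀ j, z ≠ w j) (h : nN ι w z * (z - z') = 1) :
    derivAt (X * nfM w ι - nfR w) (nfM w ι) z = 1 - nD ι w z * (z - z') ^ 2 := by
  have hR := eval_nfR_ne hz
  have hN : nN ι w z ≠ 0 := left_ne_zero_of_mul_eq_one h
  have hM : (nfM w ι).eval z ≠ 0 := by
    rw [eval_nfM_eq hz]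
    exact mul_ne_zero hN hR
  have hR' : (derivative (nfR w)).eval z = (nfR w).eval z * ∑ l, (z - w l)⁻¹ := by
    rw [nfR, deriv_prod _ (fun l _ => hz l), ← eval_nfR, nfR]
  have hM' : (derivative (nfM w ι)).eval z =
      (nfR w).eval z * ((∑ l, (z - w l)⁻¹) * nN ι w z - nD ι w z) := by
    rw [nfM, derivative_sum, eval_finsetSum, nN, nD, Finset.mul_sum, ← Finset.sum_sub_distrib,
      Finset.mul_sum]
    refine Finset.sum_congr rfl (fun j _ => ?_)
    rw [derivative_C_mul, eval_mul, eval_C, deriv_prod _ (fun l _ => hz l), prod_erase hz j,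
      ← eval_nfR, Finset.sum_erase_eq_sub (Finset.mem_univ j)]
    have := sub_ne_zero.2 (hz j)
    field_simp
  rw [derivAt_nf _ _ hM, hR', hM', eval_nfM_eq hz]
  have hzz : z - z' = (nN ι w z)⁻¹ := eq_inv_of_mul_eq_one_right h
  rw [hzz]
  field_simp
  ring

theorem eval_nfM_self (j : Fin d) :
    (nfM w ι).eval (w j) = ι j * ∏ l ∈ Finset.univ.erase j, (w j - w l) := by
  rw [eval_nfM]
  refine Finset.sum_eq_single j (fun i _ hij => ?_) (fun h => absurd (Finset.mem_univ j) h)
  rw [Finset.prod_eq_zero (Finset.mem_erase.2 ⟨hij.symm, Finset.mem_univ j⟩) (sub_self _),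
    mul_zero]

theorem eval_nfR_self (j : Fin d) : (nfR w).eval (w j) = 0 := by
  rw [eval_nfR]
  exact Finset.prod_eq_zero (Finset.mem_univ j) (sub_self _)

theorem prod_self_ne (hw : Function.Injective w) (j : Fin d) :
    ∏ l ∈ Finset.univ.erase j, (w j - w l) ≠ 0 := by
  refine Finset.prod_ne_zero_iff.2 (fun l hl => ?_)
  rw [sub_ne_zero]
  intro h
  exact (Finset.mem_erase.1 hl).1 (hw h).symm

theorem eval_nfM_self_ne (hw : Function.Injective w) (hι : ∀ j, ι j ≠ 0) (j : Fin d) :
    (nfM w ι).eval (w j) ≠ 0 := by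
  rw [eval_nfM_self]
  exact mul_ne_zero (hι j) (prod_self_ne hw j)

/-- the derivative at a fixed point -/
theorem derivAt_fix (hw : Function.Injective w) (hι : ∀ j, ι j ≠ 0) (j : Fin d) :
    derivAt (X * nfM w ι - nfR w) (nfM w ι) (w j) = 1 - (ι j)⁻¹ := by
  rw [derivAt_nf _ _ (eval_nfM_self_ne hw hι j), eval_nfR_self, zero_mul, sub_zero]
  have hR' : (derivative (nfR w)).eval (w j) = ∏ l ∈ Finset.univ.erase j, (w j - w l) := by
    rw [nfR, ← Finset.mul_prod_erase _ _ (Finset.mem_univ j), derivative_mul]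
    simp [eval_prod]
  have h1 := prod_self_ne hw j
  have h2 := hι j
  rw [hR', eval_nfM_self]
  field_simp

theorem ev_fix (hw : Function.Injective w) (hι : ∀ j, ι j ≠ 0) (j : Fin d) :
    ev (X * nfM w ι - nfR w) (nfM w ι) (w j) = w j := by
  rw [ev, eval_sub, eval_mul, eval_X, eval_nfR_self, sub_zero,
    mul_div_cancel_right₀ _ (eval_nfM_self_ne hw hι j)]

theorem ev_cyc {z z' : K} (hz : ∀ j, z ≠ w j) (h : nN ι w z * (z - z') = 1) :
    (nfM w ι).eval z ≠ 0 ∧ ev (X * nfM w ι - nfR w) (nfM w ι) z = z' := by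
  have hR := eval_nfR_ne hz
  have hN : nN ι w z ≠ 0 := left_ne_zero_of_mul_eq_one h
  have hM : (nfM w ι).eval z ≠ 0 := by
    rw [eval_nfM_eq hz]
    exact mul_ne_zero hN hR
  refine ⟨hM, ?_⟩
  rw [ev, eval_sub, eval_mul, eval_X, div_eq_iff hM, eval_nfM_eq hz]
  linear_combination (nfR w).eval z * h

end nf

section two

variable {K : Type} [Field K] {d : ℕ} {w ι : Fin d → K} {f : RatMap K d}

/-- a fixed point is a root of `fixPoly 2`; the multiplier of the second iterate -/
theorem fix_two (a1 : A1S) (hw : Function.Injective w) (hι : ∀ j, ι j ≠ 0)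
    (hf : IsNf f w ι) (j : Fin d) :
    ((iter d f.num f.den 2).1 - X * (iter d f.num f.den 2).2).eval (w j) = 0 ∧
    derivAt (iter d f.num f.den 2).1 (iter d f.num f.den 2).2 (w j) = (1 - (ι j)⁻¹) ^ 2 := by
  have he := ev_fix hw hι j
  have hm := derivAt_fix hw hι j
  have hd := eval_nfM_self_ne hw hι j
  rw [← hf.1, ← hf.2] at he hm
  rw [← hf.2] at hd
  have hk : ∀ k, (ev f.num f.den)^[k] (w j) = w j := fun k => Function.iterate_fixed he k
  obtain ⟨-, h2, h3⟩ := a1 K d 2 f.num f.den (w j) f.num_le f.den_le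
    (fun k _ => by rw [hk]; exact hd)
  rw [hk] at h2
  refine ⟨?_, ?_⟩
  · rw [eval_sub, eval_mul, eval_X, h2, sub_self]
  · rw [h3, mult, Finset.prod_range_succ, Finset.prod_range_succ, Finset.prod_range_zero, hk, hk,
      hm]
    ring

/-- a point of period two is a root of `fixPoly 2`; the multiplier of the second iterate -/
theorem cyc_two (a1 : A1S) (hf : IsNf f w ι) {z z' : K} (h : TwoC ι w z z') :
    ((iter d f.num f.den 2).1 - X * (iter d f.num f.den 2).2).eval z = 0 ∧
    derivAt (iter d f.num f.den 2).1 (iter d f.num f.den 2).2 z = mm ι w z z' := by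
  obtain ⟨hz, he⟩ := ev_cyc h.hz h.eq1
  obtain ⟨hz', he'⟩ := ev_cyc h.hz' h.eq2
  have hm := derivAt_cyc h.hz h.eq1
  have hm' := derivAt_cyc h.hz' h.eq2
  rw [← hf.1, ← hf.2] at he hm he' hm'
  rw [← hf.2] at hz hz'
  obtain ⟨-, h2, h3⟩ := a1 K d 2 f.num f.den z f.num_le f.den_le
    (fun k hk => by
      interval_cases k
      · exact hz
      · rw [Function.iterate_one, he]
        exact hz')
  have h4 : (ev f.num f.den)^[2] z = z := by
    rw [Function.iterate_succ_apply, Function.iterate_one, he, he']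
  rw [h4] at h2
  refine ⟨?_, ?_⟩
  · rw [eval_sub, eval_mul, eval_X, h2, sub_self]
  · rw [h3, mult, Finset.prod_range_succ, Finset.prod_range_succ, Finset.prod_range_zero,
      Function.iterate_one, he, one_mul, Function.iterate_zero, id, hm, hm', mm]
    ring

end two

theorem homComp_map {K L : Type} [Field K] [Field L] (φ : K →+* L) (d : ℕ) (P A B : K[X]) :
    (homComp d P A B).map φ = homComp d (P.map φ) (A.map φ) (B.map φ) := by
  simp [homComp, Polynomial.map_sum]

theorem iter_map {K L : Type} [Field K] [Field L] (φ : K →+* L) (d : ℕ) (P Q : K[X]) (n : ℕ) :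
    (iter d (P.map φ) (Q.map φ) n).1 = (iter d P Q n).1.map φ ∧
    (iter d (P.map φ) (Q.map φ) n).2 = (iter d P Q n).2.map φ := by
  induction n with
  | zero => simp [iter]
  | succ n ih =>
    obtain ⟨h1, h2⟩ := ih
    rw [iter, iter, h1, h2]
    exact ⟨(homComp_map φ d P _ _).symm, (homComp_map φ d Q _ _).symm⟩

/-- the second iterate is not the identity -/
theorem fixPoly_ne (a2 : A2S) {K : Type} [Field K] {d : ℕ} (hd : 2 ≤ d) (f : RatMap K d) :
    (iter d f.num f.den 2).1 - X * (iter d f.num f.den 2).2 ≠ 0 := by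
  intro h0
  obtain ⟨h1, h2⟩ := iter_map (algebraMap K (AlgebraicClosure K)) d f.num f.den 2
  obtain ⟨-, -, h3, h4⟩ := a2 (AlgebraicClosure K) d 2
    (f.mapHom (algebraMap K (AlgebraicClosure K))).num
    (f.mapHom (algebraMap K (AlgebraicClosure K))).den (by omega)
    (f.mapHom (algebraMap K (AlgebraicClosure K))).num_le
    (f.mapHom (algebraMap K (AlgebraicClosure K))).den_le
    (f.mapHom (algebraMap K (AlgebraicClosure K))).deg_eq
    (f.mapHom (algebraMap K (AlgebraicClosure K))).coprime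
  have h5 : (f.mapHom (algebraMap K (AlgebraicClosure K))).num =
    f.num.map (algebraMap K (AlgebraicClosure K)) := rfl
  have h6 : (f.mapHom (algebraMap K (AlgebraicClosure K))).den =
    f.den.map (algebraMap K (AlgebraicClosure K)) := rfl
  rw [h5, h6, h1, h2] at h3 h4
  have h7 := congrArg (Polynomial.map (algebraMap K (AlgebraicClosure K))) h0
  rw [Polynomial.map_sub, Polynomial.map_mul, Polynomial.map_X, Polynomial.map_zero,
    sub_eq_zero] at h7
  rw [h7] at h3 h4
  generalize (iter d f.num f.den 2).2.map (algebraMap K (AlgebraicClosure K)) = B at *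
  have h8 : IsUnit B := by
    refine isCoprime_self.1 ?_
    exact h4.of_mul_left_right
  have h9 : B.natDegree = 0 := natDegree_eq_zero_of_isUnit h8
  have h10 : B ≠ 0 := h8.ne_zero
  rw [natDegree_X_mul h10, h9] at h3
  have h11 : 2 ^ 2 ≤ d ^ 2 := Nat.pow_le_pow_left hd 2
  omega

end TC3

open TC3 in
theorem TC3_holds (a1 : A1S) (a2 : A2S) : TC3S := by
  intro K _ d f w ι z z' hd hw hι hf h
  obtain ⟨h1, h2⟩ := cyc_two a1 hf h
  rw [RatMap.multSpec, fixMult, ← h2]
  refine Multiset.mem_add.2 (Or.inl ?_)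
  refine Multiset.mem_map_of_mem _ ?_
  rw [mem_roots (fixPoly_ne a2 hd f)]
  exact h1

end Pool.Agent.LenSpec
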