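import Pool.Agent.LenSpec.GIDefs
import Pool.Agent.LenSpec.Stmt
import Pool.Agent.LenSpec.PlBasic
import Pool.Agent.LenSpec.TC3

/-!
TC4: there are no other points of period two.
-/

namespace Pool.Agent.LenSpec

open Polynomial

namespace TC4

section deg

variable {K : Type} [Field K] {d : ℕ}

theorem iter_one {P Q : K[X]} (hP : P.natDegree ≤ d) (hQ : Q.natDegree ≤ d) :
    iter d P Q 1 = (P, Q) := by
  have h : ∀ R : K[X], R.natDegree ≤ d → homComp d R X 1 = R := by
    intro R hR
    rw [homComp]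
    simp only [one_pow, mul_one]
    exact (as_sum_range_C_mul_X_pow' R (Nat.lt_succ_of_le hR)).symm
  rw [iter, iter, h P hP, h Q hQ]

theorem natDegree_term {R A B : K[X]} {a b i j : ℕ} (hA : A.natDegree ≤ a)
    (hB : B.natDegree ≤ b) :
    (C (R.coeff i) * A ^ i * B ^ j).natDegree ≤ i * a + j * b := by
  refine (natDegree_mul_le).trans (Nat.add_le_add ?_ ?_)
  · exact (natDegree_C_mul_le _ _).trans (natDegree_pow_le_of_le i hA)
  · exact natDegree_pow_le_of_le j hB

/-- leading coefficients of the second iterate if infinity is fixed -/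
theorem homComp_coeff {P Q R : K[X]} (hd : 1 ≤ d) (hP : P.natDegree ≤ d)
    (hQ : Q.natDegree ≤ d - 1) :
    (homComp d R P Q).coeff (d ^ 2) = R.coeff d * P.coeff d ^ d ∧
    (R.coeff d = 0 → (homComp d R P Q).natDegree ≤ d ^ 2 - 1 ∧
      (homComp d R P Q).coeff (d ^ 2 - 1) =
        R.coeff (d - 1) * P.coeff d ^ (d - 1) * Q.coeff (d - 1)) := by
  obtain ⟨e, rfl⟩ := Nat.exists_eq_add_of_le' hd
  rw [Nat.add_sub_cancel] at hQ ⊢
  have hterm : ∀ i ≤ e + 1, (C (R.coeff i) * P ^ i * Q ^ (e + 1 - i)).natDegree ≤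
      i * (e + 1) + (e + 1 - i) * e := fun i _ => natDegree_term hP hQ
  have hlt : ∀ i, i < e + 1 → i * (e + 1) + (e + 1 - i) * e + (e + 1 - i) = (e + 1) ^ 2 := by
    intro i hi
    obtain ⟨j, hj⟩ := Nat.exists_eq_add_of_lt hi
    have h1 : e + 1 - i = j + 1 := by omega
    rw [h1]
    have h2 : e = i + j := by omega
    subst h2
    ring
  refine ⟨?_, ?_⟩
  · rw [homComp, finsetSum_coeff, Finset.sum_range_succ, Finset.sum_eq_zero, zero_add,
      Nat.sub_self, pow_zero, mul_one, coeff_C_mul, sq]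
    · rw [mul_comm (e + 1) (e + 1), coeff_pow_of_natDegree_le hP]
    · intro i hi
      have hi' := Finset.mem_range.1 hi
      refine coeff_eq_zero_of_natDegree_lt ((hterm i hi'.le).trans_lt ?_)
      have := hlt i hi'
      omega
  · intro hR
    refine ⟨?_, ?_⟩
    · rw [homComp]
      refine natDegree_sum_le_of_forall_le _ _ (fun i hi => ?_)
      have hi' : i < e + 1 + 1 := Finset.mem_range.1 hi
      by_cases h : i = e + 1
      · rw [h, hR]
        simp
      · refine (hterm i (by omega)).trans ?_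
        have := hlt i (by omega)
        omega
    · rw [homComp, finsetSum_coeff, Finset.sum_range_succ, hR, Finset.sum_range_succ,
        Finset.sum_eq_zero]
      · simp only [map_zero, zero_mul, coeff_zero, add_zero, zero_add]
        have h1 : e + 1 - e = 1 := by omega
        have h2 : (e + 1) ^ 2 - 1 = e * (e + 1) + e := by
          have : (e + 1) ^ 2 = e * (e + 1) + e + 1 := by ring
          omega
        rw [h1, pow_one, h2, coeff_mul_add_eq_of_natDegree_le _ hQ, coeff_C_mul,
          coeff_pow_of_natDegree_le hP]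
        · exact (natDegree_C_mul_le _ _).trans (natDegree_pow_le_of_le e hP)
      · intro i hi
        have hi' := Finset.mem_range.1 hi
        refine coeff_eq_zero_of_natDegree_lt ((hterm i (by omega)).trans_lt ?_)
        have := hlt i (by omega)
        omega

theorem natDegree_prod_erase (w : Fin d → K) (j : Fin d) :
    (∏ l ∈ Finset.univ.erase j, (X - C (w l))).natDegree = d - 1 := by
  rw [natDegree_prod_of_monic _ _ (fun l _ => monic_X_sub_C (w l))]
  simp

theorem nfM_natDegree (w ι : Fin d → K) : (nfM w ι).natDegree ≤ d - 1 := by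
  rw [nfM]
  refine natDegree_sum_le_of_forall_le _ _ (fun j _ => ?_)
  exact (natDegree_C_mul_le _ _).trans (natDegree_prod_erase w j).le

theorem nfM_coeff (w ι : Fin d → K) : (nfM w ι).coeff (d - 1) = ∑ j, ι j := by
  rw [nfM, finsetSum_coeff]
  refine Finset.sum_congr rfl (fun j _ => ?_)
  rw [coeff_C_mul, ← natDegree_prod_erase w j]
  have h : (∏ l ∈ Finset.univ.erase j, (X - C (w l))).Monic :=
    monic_prod_of_monic _ _ (fun l _ => monic_X_sub_C (w l))
  rw [h.coeff_natDegree, mul_one]

theorem nfR_coeff (w : Fin d → K) : (nfR w).coeff d = 1 := by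
  have h : (nfR w).Monic := monic_prod_of_monic _ _ (fun l _ => monic_X_sub_C (w l))
  have h1 : (nfR w).natDegree = d := by
    rw [nfR, natDegree_prod_of_monic _ _ (fun l _ => monic_X_sub_C (w l))]
    simp
  have h2 := h.coeff_natDegree
  rwa [h1] at h2

theorem num_coeff (hd : 1 ≤ d) (w ι : Fin d → K) :
    (X * nfM w ι - nfR w).coeff d = (∑ j, ι j) - 1 := by
  obtain ⟨e, rfl⟩ := Nat.exists_eq_add_of_le' hd
  have h := nfM_coeff w ι
  rw [Nat.add_sub_cancel] at h
  rw [coeff_sub, coeff_X_mul, h, nfR_coeff]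

theorem sum_ne_one (hd : 1 ≤ d) {f : RatMap K d} {w ι : Fin d → K} (hf : IsNf f w ι) :
    (∑ j, ι j) - 1 ≠ 0 := by
  have h1 := nfM_natDegree w ι
  have h2 := num_coeff hd w ι
  have h3 := f.deg_eq
  rw [← hf.1] at h2
  rw [← hf.2] at h1
  rcases h3 with h | h
  · intro h0
    rw [h0] at h2
    have h4 : f.num = 0 := by
      refine leadingCoeff_eq_zero.1 ?_
      rw [leadingCoeff, h, h2]
    rw [h4, natDegree_zero] at h
    omega
  · omega

/-- the second iterate at infinity -/
theorem iter_two_inf (hd : 1 ≤ d) {f : RatMap K d} {w ι : Fin d → K} (hf : IsNf f w ι) :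
    (iter d f.num f.den 2).1.coeff (d ^ 2) = ((∑ j, ι j) - 1) ^ (d + 1) ∧
    (iter d f.num f.den 2).2.natDegree ≤ d ^ 2 - 1 ∧
    (iter d f.num f.den 2).2.coeff (d ^ 2 - 1) =
      (∑ j, ι j) * ((∑ j, ι j) - 1) ^ (d - 1) * (∑ j, ι j) := by
  have h1 : f.den.natDegree ≤ d - 1 := by
    rw [hf.2]
    exact nfM_natDegree w ι
  have h2 : f.num.coeff d = (∑ j, ι j) - 1 := by
    rw [hf.1]
    exact num_coeff hd w ι
  have h3 : f.den.coeff (d - 1) = ∑ j, ι j := by
    rw [hf.2]
    exact nfM_coeff w ι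
  have h4 : f.den.coeff d = 0 := coeff_eq_zero_of_natDegree_lt (by omega)
  rw [iter, iter_one f.num_le f.den_le]
  obtain ⟨h5, -⟩ := homComp_coeff (R := f.num) hd f.num_le h1
  obtain ⟨-, h6⟩ := homComp_coeff (R := f.den) hd f.num_le h1
  obtain ⟨h7, h8⟩ := h6 h4
  refine ⟨?_, h7, ?_⟩
  · rw [h5, h2, pow_succ, mul_comm]
  · rw [h8, h2, h3]

/-- the multiplier of the second iterate at infinity -/
theorem multInf_two [IsAlgClosed K] (a2 : A2S) (hd : 1 ≤ d) {f : RatMap K d} {w ι : Fin d → K}
    (hf : IsNf f w ι) :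
    multInf (iter d f.num f.den 2).1 (iter d f.num f.den 2).2 =
      (1 - (1 - ∑ j, ι j)⁻¹) ^ 2 := by
  obtain ⟨h1, h2, h3⟩ := iter_two_inf hd hf
  have hS := sum_ne_one hd hf
  obtain ⟨h4, -, -, -⟩ := a2 K d 2 f.num f.den hd f.num_le f.den_le f.deg_eq f.coprime
  have hpos : 1 ≤ d ^ 2 := Nat.one_le_pow _ _ hd
  have h5 : (iter d f.num f.den 2).1.natDegree = d ^ 2 := by
    refine le_antisymm h4 (le_natDegree_of_ne_zero ?_)
    rw [h1]
    exact pow_ne_zero _ hS
  generalize (iter d f.num f.den 2).1 = A at *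
  generalize (iter d f.num f.den 2).2 = B at *
  generalize ∑ j, ι j = S at *
  have hS' : 1 - S ≠ 0 := by
    intro h
    apply hS
    linear_combination -h
  rw [multInf]
  split_ifs with h
  · have h6 : B.natDegree = d ^ 2 - 1 := by omega
    have h7 : B.leadingCoeff = S * (S - 1) ^ (d - 1) * S := by
      rw [leadingCoeff, h6, h3]
    have h8 : A.leadingCoeff = (S - 1) ^ (d - 1) * (S - 1) ^ 2 := by
      rw [leadingCoeff, h5, h1, ← pow_add]
      congr 1
      omega
    rw [h7, h8]
    have h9 := pow_ne_zero (d - 1) hS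
    have h10 : (1 - (1 - S)⁻¹) ^ 2 = S ^ 2 / (S - 1) ^ 2 := by
      field_simp
      ring
    rw [h10]
    generalize (S - 1) ^ (d - 1) = q at *
    field_simp
  · have h6 : B.coeff (d ^ 2 - 1) = 0 := coeff_eq_zero_of_natDegree_lt (by omega)
    rw [h3] at h6
    have h7 : S = 0 := by
      by_contra h0
      exact mul_ne_zero (mul_ne_zero h0 (pow_ne_zero _ hS)) h0 h6
    rw [h7]
    simp

end deg

end TC4

open TC3 TC4 in
theorem TC4_holds (a1 : A1S) (a2 : A2S) : TC4S := by
  classical
  intro K κ _ _ _ p d f c w δ y y' hd hC hf hy x hx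
  have hw : Function.Injective w := by
    intro a b hab
    by_contra h
    exact hC.w_ne a (Finset.mem_univ a) b (Finset.mem_univ b) h (by rw [hab])
  have hι : ∀ j, δ * c j ≠ 0 := fun j =>
    mul_ne_zero hC.δ_ne ((Pl.red_rs (hC.c_mem j)).ne_zero (hC.c_ne j))
  have hF0 := fixPoly_ne a2 hd f
  obtain ⟨-, hBd, -⟩ := iter_two_inf (by omega : 1 ≤ d) hf
  obtain ⟨hAd, -, -, -⟩ := a2 K d 2 f.num f.den (by omega) f.num_le f.den_le f.deg_eq f.coprime
  have hpos : 1 ≤ d ^ 2 := Nat.one_le_pow _ _ (by omega)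
  -- reduction of `y s l`
  have hred : ∀ s l, s ≠ l → p.rs (y s l) = p.rs (w s) := by
    intro s l hsl
    have h1 := (Pl.red_rs (hC.w_mem s (Finset.mem_univ s))).add (hC.δ_red.mul (hy s l hsl).red)
    rw [zero_mul, add_zero] at h1
    have h2 : w s + δ * ((y s l - w s) / δ) = y s l := by
      rw [mul_div_cancel₀ _ hC.δ_ne]
      ring
    rw [h2] at h1
    exact h1.rs_eq
  have hyinj : ∀ s l s' l', s ≠ l → s' ≠ l' → y s l = y s' l' → s = s' ∧ l = l' := by
    intro s l s' l' hsl hsl' h
    have h1 : s = s' := by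
      by_contra hne
      apply hC.w_ne s (Finset.mem_univ s) s' (Finset.mem_univ s') hne
      rw [← hred s l hsl, ← hred s' l' hsl', h]
    subst h1
    refine ⟨rfl, ?_⟩
    by_contra hne
    apply hC.w_ne l (Finset.mem_univ l) l' (Finset.mem_univ l') hne
    have h2 := (hy s l hsl).red
    rw [h] at h2
    have h3 := h2.unique (hy s l' hsl').red
    have h4 := mul_left_cancel₀ (hC.c_ne s) h3
    linear_combination -h4
  -- the roots
  have hT : Finset.univ.image w ∪ (Finset.univ.offDiag).image (fun q : Fin d × Fin d => y q.1 q.2) =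
      ((iter d f.num f.den 2).1 - X * (iter d f.num f.den 2).2).roots.toFinset := by
    refine Finset.eq_of_subset_of_card_le ?_ ?_
    · intro z hz
      rw [Multiset.mem_toFinset, mem_roots hF0]
      rcases Finset.mem_union.1 hz with h | h
      · obtain ⟨j, -, rfl⟩ := Finset.mem_image.1 h
        exact (fix_two a1 hw hι hf j).1
      · obtain ⟨⟨a, b⟩, hab, rfl⟩ := Finset.mem_image.1 h
        have hne : a ≠ b := (Finset.mem_offDiag.1 hab).2.2
        exact (cyc_two a1 hf (hy a b hne).two).1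
    · rw [Finset.card_union_of_disjoint, Finset.card_image_of_injective _ hw,
        Finset.card_image_of_injOn, Finset.offDiag_card, Finset.card_univ, Fintype.card_fin]
      · have h1 : ((iter d f.num f.den 2).1 - X * (iter d f.num f.den 2).2).natDegree ≤ d ^ 2 := by
          refine (natDegree_sub_le_of_le hAd (n := d ^ 2) ?_).trans (max_le le_rfl le_rfl)
          refine (natDegree_mul_le).trans ?_
          rw [natDegree_X]
          omega
        have h2 := (Multiset.toFinset_card_le
          ((iter d f.num f.den 2).1 - X * (iter d f.num f.den 2).2).roots).trans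
          ((card_roots' _).trans h1)
        have h3 : d ^ 2 = d * d := sq d
        have h4 : d ≤ d * d := Nat.le_mul_self d
        omega
      · rintro ⟨a, b⟩ hab ⟨a', b'⟩ hab' h
        have h1 : a ≠ b := (Finset.mem_offDiag.1 (Finset.mem_coe.1 hab)).2.2
        have h2 : a' ≠ b' := (Finset.mem_offDiag.1 (Finset.mem_coe.1 hab')).2.2
        obtain ⟨h3, h4⟩ := hyinj a b a' b' h1 h2 h
        rw [h3, h4]
      · rw [Finset.disjoint_left]
        intro z hz hz'
        obtain ⟨j, -, rfl⟩ := Finset.mem_image.1 hz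
        obtain ⟨⟨a, b⟩, hab, hab'⟩ := Finset.mem_image.1 hz'
        have hne : a ≠ b := (Finset.mem_offDiag.1 hab).2.2
        exact (hy a b hne).two.hz j hab'
  rw [RatMap.multSpec, fixMult] at hx
  rcases Multiset.mem_add.1 hx with hx | hx
  · obtain ⟨z, hz, rfl⟩ := Multiset.mem_map.1 hx
    have hz' := Multiset.mem_toFinset.2 hz
    rw [← hT] at hz'
    rcases Finset.mem_union.1 hz' with h | h
    · obtain ⟨j, -, rfl⟩ := Finset.mem_image.1 h
      exact Or.inr (Or.inl ⟨j, (fix_two a1 hw hι hf j).2⟩)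
    · obtain ⟨⟨a, b⟩, hab, rfl⟩ := Finset.mem_image.1 h
      have hne : a ≠ b := (Finset.mem_offDiag.1 hab).2.2
      exact Or.inr (Or.inr ⟨a, b, hne, (cyc_two a1 hf (hy a b hne).two).2⟩)
  · left
    rw [Multiset.eq_of_mem_replicate hx]
    exact multInf_two a2 (by omega) hf

end Pool.Agent.LenSpec
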