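import Pool.Agent.LenSpec.Stmt

/-!
The zero set of a nonzero polynomial in complex variables and their conjugates is a null set.
-/

namespace Pool.Agent.LenSpec

open MeasureTheory

namespace TMAux

/-- A closed set which meets every line through the origin in a null set is a null set. -/
theorem null_of_lines {E : Type*} [NormedAddCommGroup E] [NormedSpace ℝ E]
    [FiniteDimensional ℝ E] [MeasurableSpace E] [BorelSpace E] (μ : Measure E)
    [μ.IsAddHaarMeasure] (S : Set E) (hS : IsClosed S)
    (h : ∀ v : E, volume {t : ℝ | t • v ∈ S} = 0) : μ S = 0 := by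
  have hT : IsClosed {p : E × ℝ | p.2 • p.1 ∈ S} :=
    hS.preimage (by fun_prop : Continuous fun p : E × ℝ => p.2 • p.1)
  have h1 : (μ.prod (volume : Measure ℝ)) {p : E × ℝ | p.2 • p.1 ∈ S} = 0 := by
    rw [Measure.measure_prod_null hT.measurableSet]
    exact Filter.Eventually.of_forall fun v => h v
  have h2 : ((volume : Measure ℝ).prod μ) {p : ℝ × E | p.1 • p.2 ∈ S} = 0 := by
    rw [← Measure.prod_swap, Measure.map_apply measurable_swap]
    · exact h1
    · exact (hS.preimage (by fun_prop : Continuous fun p : ℝ × E => p.1 • p.2)).measurableSet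
  have h3 := Measure.ae_ae_of_ae_prod (measure_eq_zero_iff_ae_notMem.1 h2)
  have h4 : ∀ᵐ t : ℝ, t ≠ 0 := by
    rw [ae_iff]
    simp
  obtain ⟨t, ht, ht0⟩ := (h3.and h4).exists
  have h5 : μ ((fun v : E => t • v) ⁻¹' S) = 0 := by
    rw [measure_eq_zero_iff_ae_notMem]
    exact ht
  rw [Measure.addHaar_preimage_smul μ ht0] at h5
  rcases mul_eq_zero.1 h5 with h6 | h6
  · exfalso
    rw [ENNReal.ofReal_eq_zero] at h6
    have : 0 < |(t ^ Module.finrank ℝ E)⁻¹| := abs_pos.2 (inv_ne_zero (pow_ne_zero _ ht0))
    linarith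
  · exact h6


open MvPolynomial in
/-- A nonzero polynomial does not vanish at all points `(x, conj x)`. -/
theorem exists_ne {ι : Type} (W : MvPolynomial (ι ⊕ ι) ℂ) (hW : W ≠ 0) :
    ∃ x : ι → ℂ, eval (Sum.elim x (fun i => starRingEnd ℂ (x i))) W ≠ 0 := by
  by_contra hcon
  push Not at hcon
  obtain ⟨W', hW'⟩ : ∃ W' : MvPolynomial (ι ⊕ ι) ℂ, W' = bind₁ (Sum.elim
    (fun i => X (Sum.inl i) + C Complex.I * X (Sum.inr i))
    (fun i => X (Sum.inl i) - C Complex.I * X (Sum.inr i))) W := ⟨_, rfl⟩
  have h1 : ∀ p : ι ⊕ ι → ℂ, eval p W' = eval (Sum.elim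
      (fun i => p (Sum.inl i) + Complex.I * p (Sum.inr i))
      (fun i => p (Sum.inl i) - Complex.I * p (Sum.inr i))) W := by
    intro p
    rw [hW']
    have h2 := eval₂Hom_bind₁ (RingHom.id ℂ) p (Sum.elim
      (fun i => X (Sum.inl i) + C Complex.I * X (Sum.inr i))
      (fun i => X (Sum.inl i) - C Complex.I * X (Sum.inr i))) W
    refine h2.trans ?_
    congr 2
    funext i
    rcases i with i | i <;> simp
  have h2 : W' = 0 := by
    refine funext_set (fun _ => Set.range ((↑) : ℝ → ℂ))
      (fun _ => Set.infinite_range_of_injective Complex.ofReal_injective) ?_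
    intro p hp
    choose r hr using fun i => hp i (Set.mem_univ i)
    rw [map_zero, h1, ← hcon (fun i => (r (Sum.inl i) : ℂ) + Complex.I * r (Sum.inr i))]
    congr 2
    funext i
    rcases i with i | i
    · simp [← hr]
    · simp [← hr, sub_eq_add_neg]
  apply hW
  refine MvPolynomial.funext fun q => ?_
  have h3 := h1 (Sum.elim (fun i => (q (Sum.inl i) + q (Sum.inr i)) / 2)
    (fun i => (q (Sum.inl i) - q (Sum.inr i)) / (2 * Complex.I)))
  rw [h2, map_zero] at h3
  rw [map_zero, h3]
  congr 2
  funext i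
  have hI : Complex.I ≠ 0 := Complex.I_ne_zero
  rcases i with i | i
  · simp only [Sum.elim_inl, Sum.elim_inr]
    field_simp
    ring
  · simp only [Sum.elim_inl, Sum.elim_inr]
    field_simp
    ring

end TMAux

open MvPolynomial in
theorem TM_holds : TMS := by
  intro ι _ W0 hW0
  classical
  obtain ⟨W, hW⟩ : ∃ W : MvPolynomial (ι ⊕ ι) ℂ, W = map (algebraMap ℚ ℂ) W0 := ⟨_, rfl⟩
  have hWne : W ≠ 0 := by
    rw [hW]
    intro h
    exact hW0 (map_injective _ (algebraMap ℚ ℂ).injective (by rw [h, map_zero]))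
  obtain ⟨x0, hx0⟩ := TMAux.exists_ne W hWne
  have hev : ∀ x : ι → ℂ, aeval (Sum.elim x (fun i => starRingEnd ℂ (x i))) W0 =
      eval (Sum.elim x (fun i => starRingEnd ℂ (x i))) W := by
    intro x
    rw [hW, eval_map, aeval_def]
  simp only [hev]
  obtain ⟨f, hf⟩ : ∃ f : (ι → ℂ) → ℂ, f = fun x =>
    eval (Sum.elim x (fun i => starRingEnd ℂ (x i))) W := ⟨_, rfl⟩
  have hfc : Continuous f := by
    rw [hf]
    refine (continuous_eval W).comp (continuous_pi fun i => ?_)
    rcases i with i | i
    · exact continuous_apply i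
    · exact Complex.continuous_conj.comp (continuous_apply i)
  have hS : IsClosed {y : ι → ℂ | f (x0 + y) = 0} :=
    isClosed_eq (hfc.comp (continuous_const.add continuous_id)) continuous_const
  have h0 : (volume : Measure (ι → ℂ)) {y : ι → ℂ | f (x0 + y) = 0} = 0 := by
    refine TMAux.null_of_lines volume _ hS fun v => ?_
    obtain ⟨p, hp⟩ : ∃ p : Polynomial ℂ, p = aeval (Sum.elim
      (fun i => Polynomial.C (x0 i) + Polynomial.C (v i) * Polynomial.X)
      (fun i => Polynomial.C (starRingEnd ℂ (x0 i)) +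
        Polynomial.C (starRingEnd ℂ (v i)) * Polynomial.X)) W := ⟨_, rfl⟩
    have h1 : ∀ t : ℝ, p.eval (t : ℂ) = f (x0 + t • v) := by
      intro t
      rw [hp, hf]
      have h2 : Polynomial.eval (t : ℂ) (aeval (Sum.elim
          (fun i => Polynomial.C (x0 i) + Polynomial.C (v i) * Polynomial.X)
          (fun i => Polynomial.C (starRingEnd ℂ (x0 i)) +
            Polynomial.C (starRingEnd ℂ (v i)) * Polynomial.X)) W) =
          eval₂Hom ((Polynomial.evalRingHom (t : ℂ)).comp (algebraMap ℂ (Polynomial ℂ)))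
            (fun i => (Polynomial.evalRingHom (t : ℂ)) (Sum.elim
          (fun i => Polynomial.C (x0 i) + Polynomial.C (v i) * Polynomial.X)
          (fun i => Polynomial.C (starRingEnd ℂ (x0 i)) +
            Polynomial.C (starRingEnd ℂ (v i)) * Polynomial.X) i)) W :=
        map_aeval _ (Polynomial.evalRingHom (t : ℂ)) W
      rw [h2]
      have h3 : (Polynomial.evalRingHom (t : ℂ)).comp (algebraMap ℂ (Polynomial ℂ)) =
          RingHom.id ℂ := by
        ext a
        simp
      rw [h3]
      change eval _ W = _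
      congr 2
      funext i
      rcases i with i | i
      · simp only [Sum.elim_inl, Polynomial.coe_evalRingHom, Polynomial.eval_add,
          Polynomial.eval_C, Polynomial.eval_mul, Polynomial.eval_X, Pi.add_apply, Pi.smul_apply,
          Complex.real_smul]
        ring
      · simp only [Sum.elim_inr, Polynomial.coe_evalRingHom, Polynomial.eval_add,
          Polynomial.eval_C, Polynomial.eval_mul, Polynomial.eval_X, Pi.add_apply, Pi.smul_apply,
          Complex.real_smul, map_add, map_mul, Complex.conj_ofReal]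
        ring
    have hp0 : p ≠ 0 := by
      intro h
      apply hx0
      have h2 := h1 0
      rw [h, Polynomial.eval_zero, zero_smul, add_zero, hf] at h2
      exact h2.symm
    have h2 : {t : ℝ | t • v ∈ {y : ι → ℂ | f (x0 + y) = 0}}.Finite := by
      refine Set.Finite.subset (Set.Finite.preimage Complex.ofReal_injective.injOn
        p.roots.toFinset.finite_toSet) ?_
      intro t ht
      simp only [Set.mem_preimage, Finset.mem_coe, Multiset.mem_toFinset]
      rw [Polynomial.mem_roots hp0, Polynomial.IsRoot.def, h1]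
      exact ht
    exact h2.measure_zero _
  have h2 : (volume : Measure (ι → ℂ)) {y : ι → ℂ | f y = 0} = 0 := by
    have h3 := measure_preimage_add (volume : Measure (ι → ℂ)) x0 {y : ι → ℂ | f y = 0}
    rw [← h3]
    exact h0
  rw [ae_iff]
  simpa [hf] using h2

end Pool.Agent.LenSpec
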