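import Pool.Agent.LenSpec.Asm
import Pool.Agent.LenSpec.CLO
import Pool.Agent.LenSpec.GG
import Pool.Agent.LenSpec.GM
import Pool.Agent.LenSpec.GR
import Pool.Agent.LenSpec.LOC
import Pool.Agent.LenSpec.MC1
import Pool.Agent.LenSpec.MC2
import Pool.Agent.LenSpec.NF1
import Pool.Agent.LenSpec.NF2
import Pool.Agent.LenSpec.NF3
import Pool.Agent.LenSpec.RIG
import Pool.Agent.LenSpec.TC1
import Pool.Agent.LenSpec.TC2
import Pool.Agent.LenSpec.TC3
import Pool.Agent.LenSpec.TC4
import Pool.Agent.LenSpec.VU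
import Pool.Agent.LenSpec.GC
import Pool.Agent.LenSpec.GI
import Pool.Agent.LenSpec.U4
import Pool.Agent.LenSpec.RZ2
import Pool.Agent.LenSpec.TM

/-!
The modules put together: the final theorem.
-/

namespace Pool.Agent.LenSpec

open Polynomial

namespace Asm

theorem mc1 : MC1S := mc1_holds b1 b2 b3_holds
theorem nf1 : NF1S := NF1_holds b1 b2 b3_holds
theorem tc1 : TC1S := TC1_holds N1_holds
theorem tc3 : TC3S := TC3_holds a1_holds a2_holds
theorem tc4 : TC4S := TC4_holds a1_holds a2_holds
theorem gm : GMS := GM_holds tc2_holds tc3 tc4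
theorem gg : GGS := GG_holds v1_holds
theorem gr : GRS := GR_holds v1_holds
theorem gc : GCS := GC_holds gg gr CLO_holds tc1 tc2_holds gm VU_holds RIG_holds LOC_holds
  NF2_holds mc1
theorem gi : GIS := GI_holds nf1 NF2_holds NF3_holds mc1 MC2_holds gc
theorem rz2 : RZ2S := RZ2_holds main fg gi U1 U2 u3 U4_holds E3_holds E4_holds

end Asm

namespace Final

theorem homComp_map {K L : Type} [Field K] [Field L] (φ : K →+* L) (d : ℕ) (P A B : K[X]) :
    (homComp d P A B).map φ = homComp d (P.map φ) (A.map φ) (B.map φ) := by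
  unfold homComp
  rw [Polynomial.map_sum]
  apply Finset.sum_congr rfl
  intro i _
  rw [Polynomial.map_mul, Polynomial.map_mul, Polynomial.map_pow, Polynomial.map_pow, map_C,
    coeff_map]

theorem mobConj_map {K L : Type} [Field K] [Field L] {d : ℕ} (φ : K →+* L) {f g : RatMap K d}
    (h : MobConj f g) : MobConj (f.mapHom φ) (g.mapHom φ) := by
  obtain ⟨a, b, c, e, k, h0, hk, h1, h2⟩ := h
  refine ⟨φ a, φ b, φ c, φ e, φ k, ?_, ?_, ?_, ?_⟩
  · rw [← map_mul, ← map_mul, ← map_sub]
    exact (map_ne_zero φ).2 h0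
  · exact (map_ne_zero φ).2 hk
  · have := congrArg (Polynomial.map φ) h1
    rw [homComp_map] at this
    simp only [Polynomial.map_mul, Polynomial.map_add, map_C, map_X] at this
    exact this
  · have := congrArg (Polynomial.map φ) h2
    rw [homComp_map] at this
    simp only [Polynomial.map_mul, Polynomial.map_add, map_C, map_X] at this
    exact this

theorem conj_conj {d : ℕ} (f : RatMap ℂ d) : f.conj.conj = f := by
  have h1 : f.conj.conj.num = f.num := by
    change (f.num.map (starRingEnd ℂ)).map (starRingEnd ℂ) = f.num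
    ext i
    rw [coeff_map, coeff_map]
    exact Complex.conj_conj _
  have h2 : f.conj.conj.den = f.den := by
    change (f.den.map (starRingEnd ℂ)).map (starRingEnd ℂ) = f.den
    ext i
    rw [coeff_map, coeff_map]
    exact Complex.conj_conj _
  exact GI.eq_of_num_den h1 h2

theorem mobConj_conj {d : ℕ} {f g : RatMap ℂ d} (h : MobConj f.conj g) : MobConj f g.conj := by
  have := mobConj_map (starRingEnd ℂ) h
  have h2 : MobConj f.conj.conj g.conj := this
  rwa [conj_conj] at h2

end Final

/-- generic maps are determined by their length spectrum, up to conjugacy and complex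
conjugation -/
theorem main_theorem (d : ℕ) (hd : 2 ≤ d) :
    ∃ W : MvPolynomial (CI d ⊕ CI d) ℚ, W ≠ 0 ∧
      (∀ᵐ x : CI d → ℂ,
        MvPolynomial.aeval (Sum.elim x (fun i => starRingEnd ℂ (x i))) W ≠ 0) ∧
      ∀ f : RatMap ℂ d, MvPolynomial.aeval f.coefs W ≠ 0 → ∀ g : RatMap ℂ d,
        (∀ n, 1 ≤ n → f.lenSpec n = g.lenSpec n) → MobConj f g ∨ MobConj f g.conj := by
  obtain ⟨W, hW, h⟩ := Asm.rz2 d hd
  refine ⟨W, hW, TM_holds (CI d) W hW, ?_⟩
  intro f hf g hg
  rcases h f hf g hg with h1 | h1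
  · exact Or.inl h1
  · exact Or.inr (Final.mobConj_conj h1)

end Pool.Agent.LenSpec
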