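import Pool.Agent.LenSpec.Stmt

/-!
FA1: normalisation of a map in general position: two finite fixed points are moved to `0` and to
infinity, and the coordinate is scaled.
-/

namespace Pool.Agent.LenSpec

open Polynomial

namespace FA1aux

variable {K : Type} [Field K]

/-! ### Values of forms -/

theorem hom_smul (d : ℕ) (P : K[X]) (l x y : K) : hom d P (l * x) (l * y) = l ^ d * hom d P x y := by
  simp only [hom, Finset.mul_sum]
  refine Finset.sum_congr rfl ?_
  intro i hi
  have hi' : i ≤ d := by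
    have := Finset.mem_range.mp hi
    omega
  obtain ⟨j, rfl⟩ := Nat.exists_eq_add_of_le hi'
  rw [Nat.add_sub_cancel_left]
  ring

theorem hom_one (d : ℕ) (P : K[X]) (hP : P.natDegree ≤ d) (x : K) : hom d P x 1 = P.eval x := by
  rw [eval_eq_sum_range' (n := d + 1) (by omega)]
  simp [hom]

theorem hom_eq (d : ℕ) (P : K[X]) (hP : P.natDegree ≤ d) (x y : K) (hy : y ≠ 0) :
    hom d P x y = y ^ d * P.eval (x / y) := by
  rw [← hom_one d P hP, ← hom_smul, mul_one, mul_div_cancel₀ _ hy]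

theorem hom_zero (d : ℕ) (P : K[X]) (x : K) : hom d P x 0 = P.coeff d * x ^ d := by
  rw [hom, Finset.sum_eq_single d]
  · simp
  · intro i hi hne
    have hi' : i < d := by
      have := Finset.mem_range.mp hi
      omega
    rw [zero_pow (by omega)]
    simp
  · intro h
    simp at h

theorem eval_homComp (d : ℕ) (P A B : K[X]) (z : K) :
    (homComp d P A B).eval z = hom d P (A.eval z) (B.eval z) := by
  simp [homComp, hom, eval_finsetSum]

theorem homComp_X_one (d : ℕ) (P : K[X]) (hP : P.natDegree ≤ d) : homComp d P X 1 = P := by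
  rw [homComp]
  simp only [one_pow, mul_one]
  exact (P.as_sum_range_C_mul_X_pow' (by omega)).symm

theorem term_id (v v' u' z : K) (i j : ℕ) :
    v ^ 2 * ((i : K) * (z * v) ^ (i - 1) * u' * v ^ j + (z * v) ^ i * ((j : K) * v ^ (j - 1) * v')) =
      ((i + j : ℕ) : K) * v * v' * (v ^ (i + j) * z ^ i) +
        (u' * v - z * v * v') * (v ^ (i + j) * ((i : K) * z ^ (i - 1))) := by
  rcases i with _ | i <;> rcases j with _ | j
  · simp
  · simp
    ring
  · simp
    ring
  · simp
    ring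

theorem deriv_homComp (d : ℕ) (P A B : K[X]) (hP : P.natDegree ≤ d) (y : K) (hB : B.eval y ≠ 0) :
    (B.eval y) ^ 2 * (derivative (homComp d P A B)).eval y =
      (d : K) * B.eval y * (derivative B).eval y *
        ((B.eval y) ^ d * P.eval (A.eval y / B.eval y)) +
      ((derivative A).eval y * B.eval y - A.eval y * (derivative B).eval y) *
        ((B.eval y) ^ d * (derivative P).eval (A.eval y / B.eval y)) := by
  obtain ⟨z, hz⟩ : ∃ z, z = A.eval y / B.eval y := ⟨_, rfl⟩
  have hA : A.eval y = z * B.eval y := by rw [hz, div_mul_cancel₀ _ hB]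
  rw [← hz]
  have h1 : P.eval z = ∑ i ∈ Finset.range (d + 1), P.coeff i * z ^ i :=
    eval_eq_sum_range' (by omega) _
  have h2 : (derivative P).eval z =
      ∑ i ∈ Finset.range (d + 1), P.coeff i * ((i : K) * z ^ (i - 1)) := by
    conv_lhs => rw [P.as_sum_range_C_mul_X_pow' (n := d + 1) (by omega)]
    rw [derivative_sum, eval_finsetSum]
    refine Finset.sum_congr rfl ?_
    intro i _
    rw [derivative_C_mul_X_pow]
    simp
    ring
  rw [h1, h2, homComp, derivative_sum, eval_finsetSum, Finset.mul_sum, Finset.mul_sum,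
    Finset.mul_sum, Finset.mul_sum, Finset.mul_sum, ← Finset.sum_add_distrib]
  refine Finset.sum_congr rfl ?_
  intro i hi
  have hi' : i ≤ d := by
    have := Finset.mem_range.mp hi
    omega
  obtain ⟨j, rfl⟩ := Nat.exists_eq_add_of_le hi'
  rw [Nat.add_sub_cancel_left]
  have h3 : eval y (derivative (C (P.coeff i) * A ^ i * B ^ j)) = P.coeff i *
      ((i : K) * (A.eval y) ^ (i - 1) * (derivative A).eval y * (B.eval y) ^ j +
        (A.eval y) ^ i * ((j : K) * (B.eval y) ^ (j - 1) * (derivative B).eval y)) := by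
    simp [derivative_mul, derivative_pow]
    ring
  rw [h3, hA]
  have := term_id (B.eval y) ((derivative B).eval y) ((derivative A).eval y) z i j
  linear_combination (P.coeff i) * this

/-! ### The change of coordinate -/

/-- numerator of the inverse of the change of coordinate -/
noncomputable def U (w0 w1 nu : K) : K[X] := C w1 * X + C (nu * w0)

/-- denominator of the inverse of the change of coordinate -/
noncomputable def V (nu : K) : K[X] := X + C nu

theorem U_deg (w0 w1 nu : K) : (U w0 w1 nu).natDegree ≤ 1 := by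
  rw [U]
  exact natDegree_linear_le

theorem V_deg (nu : K) : (V nu).natDegree ≤ 1 := by
  rw [V]
  exact (natDegree_X_add_C nu).le

theorem U_eval (w0 w1 nu y : K) : (U w0 w1 nu).eval y = w1 * y + nu * w0 := by simp [U]

theorem V_eval (nu y : K) : (V nu).eval y = y + nu := by simp [V]

theorem U_coeff (w0 w1 nu : K) : (U w0 w1 nu).coeff 1 = w1 := by simp [U, coeff_C]

theorem V_coeff (nu : K) : (V nu).coeff 1 = 1 := by simp [V]

theorem U_der (w0 w1 nu y : K) : (derivative (U w0 w1 nu)).eval y = w1 := by simp [U]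

theorem V_der (nu y : K) : (derivative (V nu)).eval y = 1 := by simp [V]

/-- the transformed polynomial -/
noncomputable def tr (d : ℕ) (w0 w1 nu : K) (P : K[X]) : K[X] :=
  homComp d P (U w0 w1 nu) (V nu)

theorem tr_deg (d : ℕ) (w0 w1 nu : K) (P : K[X]) : (tr d w0 w1 nu P).natDegree ≤ d := by
  rw [tr, homComp]
  refine natDegree_sum_le_of_forall_le _ _ ?_
  intro i hi
  have hi' : i ≤ d := by
    have := Finset.mem_range.mp hi
    omega
  refine natDegree_mul_le.trans ?_
  have h1 : (C (P.coeff i) * U w0 w1 nu ^ i).natDegree ≤ i := by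
    refine (natDegree_C_mul_le _ _).trans ?_
    refine (natDegree_pow_le_of_le i (U_deg w0 w1 nu)).trans ?_
    omega
  have h2 : ((V nu) ^ (d - i)).natDegree ≤ d - i := by
    refine (natDegree_pow_le_of_le (d - i) (V_deg nu)).trans ?_
    omega
  omega

theorem tr_coeff (d : ℕ) (w0 w1 nu : K) (P : K[X]) (hP : P.natDegree ≤ d) :
    (tr d w0 w1 nu P).coeff d = P.eval w1 := by
  rw [tr, homComp, finsetSum_coeff, eval_eq_sum_range' (n := d + 1) (by omega)]
  refine Finset.sum_congr rfl ?_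
  intro i hi
  have hi' : i ≤ d := by
    have := Finset.mem_range.mp hi
    omega
  obtain ⟨j, rfl⟩ := Nat.exists_eq_add_of_le hi'
  rw [Nat.add_sub_cancel_left]
  have h1 : (U w0 w1 nu ^ i).natDegree ≤ i := by
    refine (natDegree_pow_le_of_le i (U_deg w0 w1 nu)).trans ?_
    omega
  have h2 : ((V nu) ^ j).natDegree ≤ j := by
    refine (natDegree_pow_le_of_le j (V_deg nu)).trans ?_
    omega
  have h3 : (U w0 w1 nu ^ i).coeff i = w1 ^ i := by
    have := coeff_pow_of_natDegree_le (m := i) (U_deg w0 w1 nu)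
    rw [mul_one] at this
    rw [this, U_coeff]
  have h4 : ((V nu) ^ j).coeff j = 1 := by
    have := coeff_pow_of_natDegree_le (m := j) (V_deg nu)
    rw [mul_one] at this
    rw [this, V_coeff, one_pow]
  rw [mul_assoc, coeff_C_mul, coeff_mul_add_eq_of_natDegree_le h1 h2, h3, h4, mul_one]

theorem tr_eval (d : ℕ) (w0 w1 nu : K) (P : K[X]) (y : K) :
    (tr d w0 w1 nu P).eval y = hom d P (w1 * y + nu * w0) (y + nu) := by
  rw [tr, eval_homComp, U_eval, V_eval]

theorem tr_der (d : ℕ) (w0 w1 nu : K) (P : K[X]) (hP : P.natDegree ≤ d) (y : K)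
    (hy : y + nu ≠ 0) :
    (y + nu) ^ 2 * (derivative (tr d w0 w1 nu P)).eval y =
      (d : K) * (y + nu) * ((y + nu) ^ d * P.eval ((w1 * y + nu * w0) / (y + nu))) +
      (nu * (w1 - w0)) *
        ((y + nu) ^ d * (derivative P).eval ((w1 * y + nu * w0) / (y + nu))) := by
  have h := deriv_homComp d P (U w0 w1 nu) (V nu) hP y (by rw [V_eval]; exact hy)
  rw [U_eval, V_eval, U_der, V_der] at h
  rw [tr, h]
  ring

/-- numerator of the new map -/
noncomputable def nN (d : ℕ) (P Q : K[X]) (w0 w1 nu c : K) : K[X] :=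
  C (-nu * c) * (tr d w0 w1 nu P - C w0 * tr d w0 w1 nu Q)

/-- denominator of the new map -/
noncomputable def nM (d : ℕ) (P Q : K[X]) (w0 w1 nu c : K) : K[X] :=
  C c * (tr d w0 w1 nu P - C w1 * tr d w0 w1 nu Q)

theorem nN_deg (d : ℕ) (P Q : K[X]) (w0 w1 nu c : K) : (nN d P Q w0 w1 nu c).natDegree ≤ d := by
  refine (natDegree_C_mul_le _ _).trans ((natDegree_sub_le _ _).trans (max_le (tr_deg _ _ _ _ _) ?_))
  exact (natDegree_C_mul_le _ _).trans (tr_deg _ _ _ _ _)

theorem nM_deg (d : ℕ) (P Q : K[X]) (w0 w1 nu c : K) : (nM d P Q w0 w1 nu c).natDegree ≤ d := by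
  refine (natDegree_C_mul_le _ _).trans ((natDegree_sub_le _ _).trans (max_le (tr_deg _ _ _ _ _) ?_))
  exact (natDegree_C_mul_le _ _).trans (tr_deg _ _ _ _ _)

theorem nN_eval (d : ℕ) (P Q : K[X]) (w0 w1 nu c y : K) : (nN d P Q w0 w1 nu c).eval y =
    -nu * c * (hom d P (w1 * y + nu * w0) (y + nu) - w0 * hom d Q (w1 * y + nu * w0) (y + nu)) := by
  simp [nN, tr_eval]

theorem nM_eval (d : ℕ) (P Q : K[X]) (w0 w1 nu c y : K) : (nM d P Q w0 w1 nu c).eval y =
    c * (hom d P (w1 * y + nu * w0) (y + nu) - w1 * hom d Q (w1 * y + nu * w0) (y + nu)) := by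
  simp [nM, tr_eval]

/-- the hypotheses on the data -/
structure Dat (d : ℕ) (f : RatMap K d) (w0 w1 nu c : K) : Prop where
  hd : 2 ≤ d
  hne : w0 ≠ w1
  hnu : nu ≠ 0
  q0 : f.den.eval w0 ≠ 0
  q1 : f.den.eval w1 ≠ 0
  p0 : f.num.eval w0 = w0 * f.den.eval w0
  p1 : f.num.eval w1 = w1 * f.den.eval w1
  hpow : nu ^ (d - 1) * f.den.eval w0 = f.den.eval w1
  hc : c * (nu ^ d * (w0 - w1) * f.den.eval w0) = 1

namespace Dat

variable {d : ℕ} {f : RatMap K d} {w0 w1 nu c : K}

theorem c_ne (h : Dat d f w0 w1 nu c) : c ≠ 0 := by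
  intro h0
  have := h.hc
  rw [h0, zero_mul] at this
  exact zero_ne_one this

theorem num_d (h : Dat d f w0 w1 nu c) : (nN d f.num f.den w0 w1 nu c).coeff d = 1 := by
  have h1 : (nN d f.num f.den w0 w1 nu c).coeff d =
      -nu * c * (f.num.eval w1 - w0 * f.den.eval w1) := by
    rw [nN, coeff_C_mul, coeff_sub, coeff_C_mul, tr_coeff _ _ _ _ _ f.num_le,
      tr_coeff _ _ _ _ _ f.den_le]
  have h2 : nu ^ d = nu ^ (d - 1) * nu := by
    rw [← pow_succ]
    congr 1
    have := h.hd
    omega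
  have h3 := h.hc
  rw [h2] at h3
  rw [h1, h.p1, ← h.hpow, ← h3]
  ring

theorem num_0 (h : Dat d f w0 w1 nu c) : (nN d f.num f.den w0 w1 nu c).coeff 0 = 0 := by
  rw [coeff_zero_eq_eval_zero, nN_eval, mul_zero, zero_add, zero_add,
    hom_eq _ _ f.num_le _ _ h.hnu, hom_eq _ _ f.den_le _ _ h.hnu, mul_div_cancel_left₀ _ h.hnu,
    h.p0]
  ring

theorem den_0 (h : Dat d f w0 w1 nu c) : (nM d f.num f.den w0 w1 nu c).coeff 0 = 1 := by
  rw [coeff_zero_eq_eval_zero, nM_eval, mul_zero, zero_add, zero_add,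
    hom_eq _ _ f.num_le _ _ h.hnu, hom_eq _ _ f.den_le _ _ h.hnu, mul_div_cancel_left₀ _ h.hnu,
    h.p0, ← h.hc]
  ring

theorem den_d (h : Dat d f w0 w1 nu c) : (nM d f.num f.den w0 w1 nu c).coeff d = 0 := by
  rw [nM, coeff_C_mul, coeff_sub, coeff_C_mul, tr_coeff _ _ _ _ _ f.num_le,
      tr_coeff _ _ _ _ _ f.den_le, h.p1]
  ring

/-- the form of `f` has no zero except the origin -/
theorem hom_ne (f : RatMap K d) (x y : K) (hxy : x ≠ 0 ∨ y ≠ 0)
    (h1 : hom d f.num x y = 0) (h2 : hom d f.den x y = 0) : False := by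
  by_cases hy : y = 0
  · subst hy
    have hx : x ≠ 0 := by
      rcases hxy with h | h
      · exact h
      · exact absurd rfl h
    rw [hom_zero] at h1 h2
    have h1' := (mul_eq_zero.mp h1).resolve_right (pow_ne_zero d hx)
    have h2' := (mul_eq_zero.mp h2).resolve_right (pow_ne_zero d hx)
    have hz : ∀ R : K[X], R.natDegree = d → R.coeff d = 0 → R = 0 := by
      intro R hR h0
      rw [← hR, coeff_natDegree, leadingCoeff_eq_zero] at h0
      exact h0
    have hcop := f.coprime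
    rcases f.deg_eq with h | h
    · have hn0 := hz _ h h1'
      have hd0 : d = 0 := by rw [← h, hn0, natDegree_zero]
      rw [hn0, isCoprime_zero_left] at hcop
      have hu := Polynomial.isUnit_iff.mp hcop
      obtain ⟨r, hr, hr'⟩ := hu
      rw [← hr', hd0, coeff_C_zero] at h2'
      rw [h2'] at hr
      exact not_isUnit_zero hr
    · have hn0 := hz _ h h2'
      have hd0 : d = 0 := by rw [← h, hn0, natDegree_zero]
      rw [hn0, isCoprime_zero_right] at hcop
      have hu := Polynomial.isUnit_iff.mp hcop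
      obtain ⟨r, hr, hr'⟩ := hu
      rw [← hr', hd0, coeff_C_zero] at h1'
      rw [h1'] at hr
      exact not_isUnit_zero hr
  · rw [hom_eq _ _ f.num_le _ _ hy] at h1
    rw [hom_eq _ _ f.den_le _ _ hy] at h2
    have h1' := (mul_eq_zero.mp h1).resolve_left (pow_ne_zero d hy)
    have h2' := (mul_eq_zero.mp h2).resolve_left (pow_ne_zero d hy)
    obtain ⟨a, b, hab⟩ := f.coprime
    have := congrArg (eval (x / y)) hab
    simp [h1', h2'] at this

theorem uv_ne (h : Dat d f w0 w1 nu c) (y : K) : w1 * y + nu * w0 ≠ 0 ∨ y + nu ≠ 0 := by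
  by_contra hcon
  push Not at hcon
  obtain ⟨h1, h2⟩ := hcon
  have h3 : nu * (w0 - w1) = 0 := by linear_combination h1 - w1 * h2
  rcases mul_eq_zero.mp h3 with h4 | h4
  · exact h.hnu h4
  · exact h.hne (sub_eq_zero.mp h4)

/-- the new map -/
noncomputable def map [IsAlgClosed K] (h : Dat d f w0 w1 nu c) : RatMap K d where
  num := nN d f.num f.den w0 w1 nu c
  den := nM d f.num f.den w0 w1 nu c
  num_le := nN_deg _ _ _ _ _ _ _
  den_le := nM_deg _ _ _ _ _ _ _
  deg_eq := Or.inl (natDegree_eq_of_le_of_coeff_ne_zero (nN_deg _ _ _ _ _ _ _)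
    (by rw [h.num_d]; exact one_ne_zero))
  coprime := by
    rw [isCoprime_iff_aeval_ne_zero_of_isAlgClosed K K]
    intro y
    simp only [coe_aeval_eq_eval]
    by_contra hcon
    push Not at hcon
    obtain ⟨h1, h2⟩ := hcon
    rw [nN_eval] at h1
    rw [nM_eval] at h2
    have h1' := (mul_eq_zero.mp h1).resolve_left
      (mul_ne_zero (neg_ne_zero.mpr h.hnu) h.c_ne)
    have h2' := (mul_eq_zero.mp h2).resolve_left h.c_ne
    have h3 : (w0 - w1) * hom d f.den (w1 * y + nu * w0) (y + nu) = 0 := by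
      linear_combination h2' - h1'
    have h4 := (mul_eq_zero.mp h3).resolve_left (sub_ne_zero.mpr h.hne)
    rw [h4, mul_zero, sub_zero] at h1'
    exact hom_ne f _ _ (h.uv_ne y) h1' h4

theorem nf [IsAlgClosed K] (h : Dat d f w0 w1 nu c) : NF h.map where
  two_le := h.hd
  num_d := h.num_d
  num_0 := h.num_0
  den_0 := h.den_0
  den_d := h.den_d

end Dat

/-! ### Fields of definition -/

/-- polynomials with coefficients in a subfield -/
noncomputable def LR (L : Subfield K) : Subring K[X] := liftsRing L.subtype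

theorem mem_LR (L : Subfield K) (p : K[X]) : p ∈ LR L ↔ ∀ i, p.coeff i ∈ L := by
  rw [LR, ← lifts_iff_liftsRing, lifts_iff_coeff_lifts]
  simp

theorem C_mem (L : Subfield K) (a : K) (ha : a ∈ L) : C a ∈ LR L := by
  rw [mem_LR]
  intro i
  rw [coeff_C]
  split_ifs
  · exact ha
  · exact L.zero_mem

theorem X_mem (L : Subfield K) : (X : K[X]) ∈ LR L := by
  rw [mem_LR]
  intro i
  rw [coeff_X]
  split_ifs
  · exact L.one_mem
  · exact L.zero_mem

theorem eval_mem (L : Subfield K) (p : K[X]) (hp : p ∈ LR L) (a : K) (ha : a ∈ L) :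
    p.eval a ∈ L := by
  rw [eval_eq_sum_range]
  exact L.sum_mem (fun i _ => L.mul_mem ((mem_LR L p).mp hp i) (L.pow_mem ha i))

theorem homComp_mem (L : Subfield K) (d : ℕ) (P A B : K[X]) (hP : P ∈ LR L) (hA : A ∈ LR L)
    (hB : B ∈ LR L) : homComp d P A B ∈ LR L := by
  rw [homComp]
  refine Subring.sum_mem _ ?_
  intro i _
  exact Subring.mul_mem _ (Subring.mul_mem _ (C_mem L _ ((mem_LR L P).mp hP i))
    (Subring.pow_mem _ hA i)) (Subring.pow_mem _ hB _)

theorem tr_mem (L : Subfield K) (d : ℕ) (w0 w1 nu : K) (P : K[X]) (hP : P ∈ LR L) (h0 : w0 ∈ L)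
    (h1 : w1 ∈ L) (hnu : nu ∈ L) : tr d w0 w1 nu P ∈ LR L := by
  refine homComp_mem L d P _ _ hP ?_ ?_
  · exact Subring.add_mem _ (Subring.mul_mem _ (C_mem L _ h1) (X_mem L))
      (C_mem L _ (L.mul_mem hnu h0))
  · exact Subring.add_mem _ (X_mem L) (C_mem L _ hnu)

theorem tr_back [CharZero K] (d : ℕ) (w0 w1 nu : K) (P : K[X]) (hP : P.natDegree ≤ d) :
    homComp d (tr d w0 w1 nu P) (C (-nu) * (X - C w0)) (X - C w1) =
      C ((nu * (w0 - w1)) ^ d) * P := by
  apply Polynomial.funext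
  intro z
  rw [eval_homComp]
  simp only [eval_mul, eval_C, eval_sub, eval_X]
  by_cases hz : z - w1 = 0
  · have hz' : z = w1 := sub_eq_zero.mp hz
    rw [hz, hom_zero, tr_coeff _ _ _ _ _ hP, hz']
    ring
  · rw [hom_eq _ _ (tr_deg _ _ _ _ _) _ _ hz, tr_eval, ← hom_smul]
    have e1 : (z - w1) * (w1 * (-nu * (z - w0) / (z - w1)) + nu * w0) =
        nu * (w0 - w1) * z := by
      field_simp
      ring
    have e2 : (z - w1) * (-nu * (z - w0) / (z - w1) + nu) = nu * (w0 - w1) * 1 := by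
      field_simp
      ring
    rw [e1, e2, hom_smul, hom_one _ _ hP]

namespace Dat

variable {d : ℕ} {f : RatMap K d} {w0 w1 nu c : K}

theorem coef_mem [CharZero K] (h : Dat d f w0 w1 nu c) (L : Subfield K) (h0 : w0 ∈ L)
    (h1 : w1 ∈ L) (hnu : nu ∈ L) (hcL : c ∈ L) (hN : nN d f.num f.den w0 w1 nu c ∈ LR L)
    (hM : nM d f.num f.den w0 w1 nu c ∈ LR L) : f.num ∈ LR L ∧ f.den ∈ LR L := by
  have hne : w1 - w0 ≠ 0 := sub_ne_zero.mpr (Ne.symm h.hne)
  have hc := h.c_ne
  have hnc : -nu * c ≠ 0 := mul_ne_zero (neg_ne_zero.mpr h.hnu) hc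
  have eN : C (-nu * c)⁻¹ * nN d f.num f.den w0 w1 nu c =
      tr d w0 w1 nu f.num - C w0 * tr d w0 w1 nu f.den := by
    rw [nN, ← mul_assoc, ← C_mul, inv_mul_cancel₀ hnc, C_1, one_mul]
  have eM : C c⁻¹ * nM d f.num f.den w0 w1 nu c =
      tr d w0 w1 nu f.num - C w1 * tr d w0 w1 nu f.den := by
    rw [nM, ← mul_assoc, ← C_mul, inv_mul_cancel₀ hc, C_1, one_mul]
  have hN' : C (-nu * c)⁻¹ * nN d f.num f.den w0 w1 nu c ∈ LR L :=
    Subring.mul_mem _ (C_mem L _ (L.inv_mem (L.mul_mem (L.neg_mem hnu) hcL))) hN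
  have hM' : C c⁻¹ * nM d f.num f.den w0 w1 nu c ∈ LR L :=
    Subring.mul_mem _ (C_mem L _ (L.inv_mem hcL)) hM
  rw [eN] at hN'
  rw [eM] at hM'
  have eQ : tr d w0 w1 nu f.den = C (w1 - w0)⁻¹ *
      ((tr d w0 w1 nu f.num - C w0 * tr d w0 w1 nu f.den) -
        (tr d w0 w1 nu f.num - C w1 * tr d w0 w1 nu f.den)) := by
    have e1 : (tr d w0 w1 nu f.num - C w0 * tr d w0 w1 nu f.den) -
        (tr d w0 w1 nu f.num - C w1 * tr d w0 w1 nu f.den) =
        C (w1 - w0) * tr d w0 w1 nu f.den := by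
      rw [C_sub]
      ring
    rw [e1, ← mul_assoc, ← C_mul, inv_mul_cancel₀ hne, C_1, one_mul]
  have hQ : tr d w0 w1 nu f.den ∈ LR L := by
    rw [eQ]
    exact Subring.mul_mem _ (C_mem L _ (L.inv_mem (L.sub_mem h1 h0))) (Subring.sub_mem _ hN' hM')
  have hP : tr d w0 w1 nu f.num ∈ LR L := by
    have e2 : tr d w0 w1 nu f.num = (tr d w0 w1 nu f.num - C w1 * tr d w0 w1 nu f.den) +
        C w1 * tr d w0 w1 nu f.den := by ring
    rw [e2]
    exact Subring.add_mem _ hM' (Subring.mul_mem _ (C_mem L _ h1) hQ)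
  have hk : (nu * (w0 - w1)) ^ d ≠ 0 :=
    pow_ne_zero d (mul_ne_zero h.hnu (sub_ne_zero.mpr h.hne))
  have hkL : (nu * (w0 - w1)) ^ d ∈ L := L.pow_mem (L.mul_mem hnu (L.sub_mem h0 h1)) d
  have hA : C (-nu) * (X - C w0) ∈ LR L :=
    Subring.mul_mem _ (C_mem L _ (L.neg_mem hnu)) (Subring.sub_mem _ (X_mem L) (C_mem L _ h0))
  have hB : X - C w1 ∈ LR L := Subring.sub_mem _ (X_mem L) (C_mem L _ h1)
  have key : ∀ R : K[X], R.natDegree ≤ d → tr d w0 w1 nu R ∈ LR L → R ∈ LR L := by
    intro R hR hR'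
    have e3 := tr_back d w0 w1 nu R hR
    have e4 : R = C ((nu * (w0 - w1)) ^ d)⁻¹ *
        homComp d (tr d w0 w1 nu R) (C (-nu) * (X - C w0)) (X - C w1) := by
      rw [e3, ← mul_assoc, ← C_mul, inv_mul_cancel₀ hk, C_1, one_mul]
    rw [e4]
    exact Subring.mul_mem _ (C_mem L _ (L.inv_mem hkL)) (homComp_mem L d _ _ _ hR' hA hB)
  exact ⟨key _ f.num_le hP, key _ f.den_le hQ⟩

theorem mem_of_nfc [IsAlgClosed K] (h : Dat d f w0 w1 nu c) (L : Subfield K)
    (hL : ∀ i, nfc h.map i ∈ L) : nN d f.num f.den w0 w1 nu c ∈ LR L ∧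
    nM d f.num f.den w0 w1 nu c ∈ LR L := by
  have hd := h.hd
  constructor
  · rw [mem_LR]
    intro i
    rcases lt_trichotomy i d with hi | hi | hi
    · rcases Nat.eq_zero_or_pos i with h0 | h0
      · rw [h0, h.num_0]
        exact L.zero_mem
      · have := hL (Sum.inl ⟨i - 1, by omega⟩)
        have e : nfc h.map (Sum.inl ⟨i - 1, by omega⟩) =
            (nN d f.num f.den w0 w1 nu c).coeff (i - 1 + 1) := rfl
        rw [e, Nat.sub_add_cancel h0] at this
        exact this
    · rw [hi, h.num_d]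
      exact L.one_mem
    · rw [coeff_eq_zero_of_natDegree_lt ((nN_deg _ _ _ _ _ _ _).trans_lt hi)]
      exact L.zero_mem
  · rw [mem_LR]
    intro i
    rcases lt_trichotomy i d with hi | hi | hi
    · rcases Nat.eq_zero_or_pos i with h0 | h0
      · rw [h0, h.den_0]
        exact L.one_mem
      · have := hL (Sum.inr ⟨i - 1, by omega⟩)
        have e : nfc h.map (Sum.inr ⟨i - 1, by omega⟩) =
            (nM d f.num f.den w0 w1 nu c).coeff (i - 1 + 1) := rfl
        rw [e, Nat.sub_add_cancel h0] at this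
        exact this
    · rw [hi, h.den_d]
      exact L.zero_mem
    · rw [coeff_eq_zero_of_natDegree_lt ((nM_deg _ _ _ _ _ _ _).trans_lt hi)]
      exact L.zero_mem

theorem nfc_mem [IsAlgClosed K] (h : Dat d f w0 w1 nu c) (L : Subfield K) (h0 : w0 ∈ L)
    (h1 : w1 ∈ L) (hnu : nu ∈ L) (hL : ∀ i, f.coef i ∈ L) : ∀ i, nfc h.map i ∈ L := by
  have hP : f.num ∈ LR L := by
    rw [mem_LR]
    intro i
    rcases le_or_gt i d with hi | hi
    · exact hL (Sum.inl ⟨i, by omega⟩)
    · rw [coeff_eq_zero_of_natDegree_lt (f.num_le.trans_lt hi)]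
      exact L.zero_mem
  have hQ : f.den ∈ LR L := by
    rw [mem_LR]
    intro i
    rcases le_or_gt i d with hi | hi
    · exact hL (Sum.inr ⟨i, by omega⟩)
    · rw [coeff_eq_zero_of_natDegree_lt (f.den_le.trans_lt hi)]
      exact L.zero_mem
  have hcL : c ∈ L := by
    have e : c = (nu ^ d * (w0 - w1) * f.den.eval w0)⁻¹ := eq_inv_of_mul_eq_one_left h.hc
    rw [e]
    exact L.inv_mem (L.mul_mem (L.mul_mem (L.pow_mem hnu d) (L.sub_mem h0 h1))
      (eval_mem L _ hQ _ h0))
  have hN : nN d f.num f.den w0 w1 nu c ∈ LR L :=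
    Subring.mul_mem _ (C_mem L _ (L.mul_mem (L.neg_mem hnu) hcL))
      (Subring.sub_mem _ (tr_mem L d w0 w1 nu _ hP h0 h1 hnu)
        (Subring.mul_mem _ (C_mem L _ h0) (tr_mem L d w0 w1 nu _ hQ h0 h1 hnu)))
  have hM : nM d f.num f.den w0 w1 nu c ∈ LR L :=
    Subring.mul_mem _ (C_mem L _ hcL)
      (Subring.sub_mem _ (tr_mem L d w0 w1 nu _ hP h0 h1 hnu)
        (Subring.mul_mem _ (C_mem L _ h1) (tr_mem L d w0 w1 nu _ hQ h0 h1 hnu)))
  rintro (i | i)
  · exact (mem_LR L _).mp hN _
  · exact (mem_LR L _).mp hM _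

/-! ### Dynamics -/

/-- lift of a point -/
def vv (w0 w1 nu y : K) : K × K := (w1 * y + nu * w0, y + nu)

theorem step [IsAlgClosed K] (h : Dat d f w0 w1 nu c) (y : K) (hy : h.map.den.eval y ≠ 0) :
    vv w0 w1 nu (ev h.map.num h.map.den y) =
      (c * (nu * (w0 - w1)) / h.map.den.eval y) • lift2 d f.num f.den (vv w0 w1 nu y) := by
  have hy' : (nM d f.num f.den w0 w1 nu c).eval y ≠ 0 := hy
  have e1 : ev h.map.num h.map.den y = (nN d f.num f.den w0 w1 nu c).eval y /
      (nM d f.num f.den w0 w1 nu c).eval y := rfl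
  have e2 : h.map.den.eval y = (nM d f.num f.den w0 w1 nu c).eval y := rfl
  have e3 := nN_eval d f.num f.den w0 w1 nu c y
  have e4 := nM_eval d f.num f.den w0 w1 nu c y
  rw [e1, e2]
  ext
  · simp only [vv, lift2, Prod.smul_fst, smul_eq_mul]
    field_simp
    rw [e3, e4]
    ring
  · simp only [vv, lift2, Prod.smul_snd, smul_eq_mul]
    field_simp
    rw [e3, e4]
    ring

theorem lift2_smul (d : ℕ) (P Q : K[X]) (l : K) (v : K × K) :
    lift2 d P Q (l • v) = l ^ d • lift2 d P Q v := by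
  ext <;> simp [lift2, hom_smul]

theorem steps [IsAlgClosed K] (h : Dat d f w0 w1 nu c) (y : K)
    (hy : ∀ k, h.map.den.eval ((ev h.map.num h.map.den)^[k] y) ≠ 0) (k : ℕ) :
    ∃ l : K, l ≠ 0 ∧ vv w0 w1 nu ((ev h.map.num h.map.den)^[k] y) =
      l • (lift2 d f.num f.den)^[k] (vv w0 w1 nu y) := by
  induction k with
  | zero => exact ⟨1, one_ne_zero, by simp⟩
  | succ k ih =>
    obtain ⟨l, hl, e⟩ := ih
    refine ⟨c * (nu * (w0 - w1)) / h.map.den.eval ((ev h.map.num h.map.den)^[k] y) * l ^ d,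
      ?_, ?_⟩
    · exact mul_ne_zero (div_ne_zero (mul_ne_zero h.c_ne (mul_ne_zero h.hnu
        (sub_ne_zero.mpr h.hne))) (hy k)) (pow_ne_zero d hl)
    · rw [Function.iterate_succ_apply', step h _ (hy k), e, lift2_smul, smul_smul,
        Function.iterate_succ_apply']

theorem v_ne [IsAlgClosed K] (hA3 : A3S) (h : Dat d f w0 w1 nu c) (hinf : NoInf d f.num f.den)
    (n : ℕ) (hn : 1 ≤ n) (y : K)
    (hy : ∀ k, h.map.den.eval ((ev h.map.num h.map.den)^[k] y) ≠ 0)
    (hper : (ev h.map.num h.map.den)^[n] y = y) : y + nu ≠ 0 := by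
  intro h0
  obtain ⟨l, hl, e⟩ := steps h y hy n
  rw [hper, hA3 K d n f.num f.den _ (by have := h.hd; omega)] at e
  have e2 := congrArg Prod.snd e
  simp only [vv, Prod.smul_snd, smul_eq_mul] at e2
  rw [h0, hom_zero] at e2
  have hu : w1 * y + nu * w0 ≠ 0 := by
    rcases h.uv_ne y with h1 | h1
    · exact h1
    · exact absurd h0 h1
  exact mul_ne_zero hl (mul_ne_zero (hinf n hn) (pow_ne_zero _ hu)) e2.symm

/-- the inverse change of coordinate -/
def zt (w0 w1 nu y : K) : K := (w1 * y + nu * w0) / (y + nu)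

theorem step_z [IsAlgClosed K] (h : Dat d f w0 w1 nu c) (y : K) (hy : h.map.den.eval y ≠ 0)
    (h1 : y + nu ≠ 0) (h2 : ev h.map.num h.map.den y + nu ≠ 0) :
    f.den.eval (zt w0 w1 nu y) ≠ 0 ∧
    ev f.num f.den (zt w0 w1 nu y) = zt w0 w1 nu (ev h.map.num h.map.den y) ∧
    derivAt h.map.num h.map.den y * (y + nu) ^ 2 =
      derivAt f.num f.den (zt w0 w1 nu y) * (ev h.map.num h.map.den y + nu) ^ 2 := by
  have e := step h y hy
  have ea := congrArg Prod.fst e
  have eb := congrArg Prod.snd e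
  simp only [vv, lift2, Prod.smul_fst, Prod.smul_snd, smul_eq_mul] at ea eb
  rw [hom_eq _ _ f.num_le _ _ h1] at ea
  rw [hom_eq _ _ f.den_le _ _ h1] at eb
  have hq : f.den.eval (zt w0 w1 nu y) ≠ 0 := by
    intro h0
    apply h2
    rw [eb]
    change _ * (_ * f.den.eval (zt w0 w1 nu y)) = 0
    rw [h0]
    ring
  have hk : c * (nu * (w0 - w1)) / h.map.den.eval y ≠ 0 :=
    div_ne_zero (mul_ne_zero h.c_ne (mul_ne_zero h.hnu (sub_ne_zero.mpr h.hne))) hy
  refine ⟨hq, ?_, ?_⟩
  · rw [ev, zt.eq_1 w0 w1 nu (ev h.map.num h.map.den y), ea, eb, mul_div_mul_left _ _ hk,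
      mul_div_mul_left _ _ (pow_ne_zero d h1)]
    rfl
  · have hN' : (derivative h.map.num).eval y = -nu * c *
        ((derivative (tr d w0 w1 nu f.num)).eval y -
          w0 * (derivative (tr d w0 w1 nu f.den)).eval y) := by
      change (derivative (nN d f.num f.den w0 w1 nu c)).eval y = _
      simp [nN]
    have hM' : (derivative h.map.den).eval y = c *
        ((derivative (tr d w0 w1 nu f.num)).eval y -
          w1 * (derivative (tr d w0 w1 nu f.den)).eval y) := by
      change (derivative (nM d f.num f.den w0 w1 nu c)).eval y = _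
      simp [nM]
    have hN0 : h.map.num.eval y = -nu * c * ((y + nu) ^ d * f.num.eval (zt w0 w1 nu y) -
        w0 * ((y + nu) ^ d * f.den.eval (zt w0 w1 nu y))) := by
      change (nN d f.num f.den w0 w1 nu c).eval y = _
      rw [nN_eval, hom_eq _ _ f.num_le _ _ h1, hom_eq _ _ f.den_le _ _ h1]
      rfl
    have hM0 : h.map.den.eval y = c * ((y + nu) ^ d * f.num.eval (zt w0 w1 nu y) -
        w1 * ((y + nu) ^ d * f.den.eval (zt w0 w1 nu y))) := by
      change (nM d f.num f.den w0 w1 nu c).eval y = _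
      rw [nM_eval, hom_eq _ _ f.num_le _ _ h1, hom_eq _ _ f.den_le _ _ h1]
      rfl
    have hP' := tr_der d w0 w1 nu f.num f.num_le y h1
    have hQ' := tr_der d w0 w1 nu f.den f.den_le y h1
    change _ = _ * ((y + nu) ^ d * f.num.eval (zt w0 w1 nu y)) +
      _ * (_ * (derivative f.num).eval (zt w0 w1 nu y)) at hP'
    change _ = _ * ((y + nu) ^ d * f.den.eval (zt w0 w1 nu y)) +
      _ * (_ * (derivative f.den).eval (zt w0 w1 nu y)) at hQ'
    change _ = _ * ((y + nu) ^ d * f.den.eval (zt w0 w1 nu y)) at eb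
    have hW : ((derivative h.map.num).eval y * h.map.den.eval y -
        h.map.num.eval y * (derivative h.map.den).eval y) * (y + nu) ^ 2 =
        (c * (nu * (w0 - w1))) ^ 2 * ((y + nu) ^ d) ^ 2 *
        ((derivative f.num).eval (zt w0 w1 nu y) * f.den.eval (zt w0 w1 nu y) -
          f.num.eval (zt w0 w1 nu y) * (derivative f.den).eval (zt w0 w1 nu y)) := by
      rw [hN', hM', hN0, hM0]
      linear_combination (-c ^ 2 * (nu * (w0 - w1)) * ((y + nu) ^ d * f.den.eval (zt w0 w1 nu y))) *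
        hP' + (c ^ 2 * (nu * (w0 - w1)) * ((y + nu) ^ d * f.num.eval (zt w0 w1 nu y))) * hQ'
    rw [derivAt, derivAt, eb, div_mul_eq_mul_div, hW]
    field_simp

theorem xs_sub [IsAlgClosed K] (hA3 : A3S) (h : Dat d f w0 w1 nu c)
    (hinf : NoInf d f.num f.den) (n : ℕ) (hn : 1 ≤ n) :
    XS h.map.num h.map.den n ⊆ XS f.num f.den n := by
  rintro x ⟨y, ⟨⟨hy, hper⟩, hmin⟩, hx⟩
  obtain ⟨F, hF⟩ : ∃ F, F = ev h.map.num h.map.den := ⟨_, rfl⟩
  have hv : ∀ k, (ev h.map.num h.map.den)^[k] y + nu ≠ 0 := by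
    intro k
    refine v_ne hA3 h hinf n hn _ ?_ ?_
    · intro j
      rw [← Function.iterate_add_apply]
      exact hy (j + k)
    · rw [← Function.iterate_add_apply, add_comm, Function.iterate_add_apply, hper]
  have hs : ∀ k, _ := fun k => step_z h ((ev h.map.num h.map.den)^[k] y) (hy k) (hv k)
    (by rw [← Function.iterate_succ_apply' (ev h.map.num h.map.den)]; exact hv (k + 1))
  have hz : ∀ k, (ev f.num f.den)^[k] (zt w0 w1 nu y) =
      zt w0 w1 nu ((ev h.map.num h.map.den)^[k] y) := by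
    intro k
    induction k with
    | zero => rfl
    | succ k ih =>
      rw [Function.iterate_succ_apply', ih, (hs k).2.1,
        ← Function.iterate_succ_apply' (ev h.map.num h.map.den)]
  refine ⟨zt w0 w1 nu y, ⟨⟨?_, ?_⟩, ?_⟩, ?_⟩
  · intro k
    rw [hz]
    exact (hs k).1
  · rw [hz, hper]
  · intro m hm0 hmn hm
    apply hmin m hm0 hmn
    rw [hz] at hm
    have h1 := hv m
    have h2 := hv 0
    simp only [Function.iterate_zero, id_eq] at h2
    rw [zt, zt, div_eq_div_iff h1 h2] at hm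
    have h3 : nu * (w1 - w0) * ((ev h.map.num h.map.den)^[m] y - y) = 0 := by
      linear_combination hm
    have h4 := (mul_eq_zero.mp h3).resolve_left (mul_ne_zero h.hnu
      (sub_ne_zero.mpr (Ne.symm h.hne)))
    exact sub_eq_zero.mp h4
  · have hprod : ∀ m, mult h.map.num h.map.den m y * (y + nu) ^ 2 =
        mult f.num f.den m (zt w0 w1 nu y) * ((ev h.map.num h.map.den)^[m] y + nu) ^ 2 := by
      intro m
      induction m with
      | zero => simp [mult]
      | succ m ih =>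
        have e1 := (hs m).2.2
        rw [← Function.iterate_succ_apply' (ev h.map.num h.map.den)] at e1
        have h2 := hv m
        have h3 : (mult h.map.num h.map.den (m + 1) y * (y + nu) ^ 2) *
            ((ev h.map.num h.map.den)^[m] y + nu) ^ 2 =
            (mult f.num f.den (m + 1) (zt w0 w1 nu y) *
              ((ev h.map.num h.map.den)^[m + 1] y + nu) ^ 2) *
            ((ev h.map.num h.map.den)^[m] y + nu) ^ 2 := by
          rw [mult, mult, Finset.prod_range_succ, Finset.prod_range_succ, hz m]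
          change (mult h.map.num h.map.den m y * _ * _) * _ =
            (mult f.num f.den m (zt w0 w1 nu y) * _ * _) * _
          linear_combination (derivAt h.map.num h.map.den ((ev h.map.num h.map.den)^[m] y) *
            ((ev h.map.num h.map.den)^[m] y + nu) ^ 2) * ih +
            (mult f.num f.den m (zt w0 w1 nu y) *
              ((ev h.map.num h.map.den)^[m] y + nu) ^ 2) * e1
        exact mul_right_cancel₀ (pow_ne_zero 2 h2) h3
    have h5 := hprod n
    rw [hper] at h5
    have h6 := hv 0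
    simp only [Function.iterate_zero, id_eq] at h6
    rw [← hx]
    exact (mul_right_cancel₀ (pow_ne_zero 2 h6) h5).symm

end Dat

end FA1aux

open FA1aux in
/-- normalisation of a map in general position (uses A3 instead of A1) -/
theorem FA1_holds (hA3 : A3S) (hG1 : G1S) : FA1S := by
  intro K _ _ _ d f hf
  have hd := hf.two_le
  obtain ⟨-, hnod, hcard, hroot, -⟩ := hG1 K d 1 f hf le_rfl
  have hfix : fixPoly d f.num f.den 1 = f.num - X * f.den := by
    rw [fixPoly, iter, iter]
    simp only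
    rw [homComp_X_one d _ f.num_le, homComp_X_one d _ f.den_le]
  obtain ⟨w0, h0, w1, h1, hne⟩ : ∃ w0 ∈ (fixPoly d f.num f.den 1).roots,
      ∃ w1 ∈ (fixPoly d f.num f.den 1).roots, w0 ≠ w1 := by
    classical
    have hc : 1 < ((fixPoly d f.num f.den 1).roots.toFinset).card := by
      rw [Multiset.toFinset_card_of_nodup hnod, hcard, pow_one]
      omega
    obtain ⟨a, ha, b, hb, hab⟩ := Finset.one_lt_card.mp hc
    exact ⟨a, Multiset.mem_toFinset.mp ha, b, Multiset.mem_toFinset.mp hb, hab⟩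
  have hfp : ∀ w ∈ (fixPoly d f.num f.den 1).roots, f.den.eval w ≠ 0 ∧
      f.num.eval w = w * f.den.eval w := by
    intro w hw
    obtain ⟨hw1, hw2⟩ := (hroot w).mp hw
    have hq := hw1 0
    simp only [Function.iterate_zero, id_eq] at hq
    refine ⟨hq, ?_⟩
    simp only [Function.iterate_one, ev] at hw2
    rw [div_eq_iff hq] at hw2
    exact hw2
  obtain ⟨q0, p0⟩ := hfp w0 h0
  obtain ⟨q1, p1⟩ := hfp w1 h1
  obtain ⟨nu, hnu⟩ := IsAlgClosed.exists_pow_nat_eq (f.den.eval w1 / f.den.eval w0)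
    (n := d - 1) (by omega)
  have hnu0 : nu ≠ 0 := by
    intro h
    rw [h, zero_pow (by omega)] at hnu
    exact div_ne_zero q1 q0 hnu.symm
  have hcne : nu ^ d * (w0 - w1) * f.den.eval w0 ≠ 0 :=
    mul_ne_zero (mul_ne_zero (pow_ne_zero d hnu0) (sub_ne_zero.mpr hne)) q0
  have h : Dat d f w0 w1 nu (nu ^ d * (w0 - w1) * f.den.eval w0)⁻¹ :=
    { hd := hd
      hne := hne
      hnu := hnu0
      q0 := q0
      q1 := q1
      p0 := p0
      p1 := p1
      hpow := by rw [hnu, div_mul_cancel₀ _ q0]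
      hc := inv_mul_cancel₀ hcne }
  classical
  refine ⟨h.map, {w0, w1, nu, (nu ^ d * (w0 - w1) * f.den.eval w0)⁻¹}, h.nf, Finset.card_le_four,
    ?_, ?_, ?_⟩
  · have hE0 : ∀ i, f.coef i ∈ IntermediateField.adjoin ℚ (Set.range f.coef) :=
      fun i => IntermediateField.subset_adjoin _ _ ⟨i, rfl⟩
    obtain ⟨E, hE⟩ : ∃ E, E = IntermediateField.adjoin ℚ (Set.range f.coef) := ⟨_, rfl⟩
    rw [← hE] at hE0 ⊢
    have hcE : ∀ i, f.coef i ∈ (algebraicClosure E K).toSubfield := by
      intro i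
      exact mem_algebraicClosure_iff.mpr (isAlgebraic_algebraMap (⟨f.coef i, hE0 i⟩ : E))
    have hPE : f.num ∈ LR E.toSubfield := by
      rw [mem_LR]
      intro i
      rcases le_or_gt i d with hi | hi
      · exact hE0 (Sum.inl ⟨i, by omega⟩)
      · rw [coeff_eq_zero_of_natDegree_lt (f.num_le.trans_lt hi)]
        exact E.toSubfield.zero_mem
    have hQE : f.den ∈ LR E.toSubfield := by
      rw [mem_LR]
      intro i
      rcases le_or_gt i d with hi | hi
      · exact hE0 (Sum.inr ⟨i, by omega⟩)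
      · rw [coeff_eq_zero_of_natDegree_lt (f.den_le.trans_lt hi)]
        exact E.toSubfield.zero_mem
    have hW : ∀ w ∈ (fixPoly d f.num f.den 1).roots, w ∈ (algebraicClosure E K).toSubfield := by
      intro w hw
      rw [hfix] at hw
      have hm : f.num - X * f.den ∈ LR E.toSubfield :=
        Subring.sub_mem _ hPE (Subring.mul_mem _ (X_mem _) hQE)
      rw [LR, ← lifts_iff_liftsRing, mem_lifts] at hm
      obtain ⟨q, hq⟩ := hm
      obtain ⟨hne0, hr⟩ := mem_roots'.mp hw
      refine mem_algebraicClosure_iff.mpr ⟨q, ?_, ?_⟩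
      · intro h00
        rw [h00, Polynomial.map_zero] at hq
        exact hne0 hq.symm
      · rw [aeval_def, ← eval_map]
        have : Polynomial.map (algebraMap E K) q = f.num - X * f.den := hq
        rw [this]
        exact hr
    have hw0 := hW w0 h0
    have hw1 := hW w1 h1
    have hQL : f.den ∈ LR (algebraicClosure E K).toSubfield := by
      rw [mem_LR]
      intro i
      rcases le_or_gt i d with hi | hi
      · exact hcE (Sum.inr ⟨i, by omega⟩)
      · rw [coeff_eq_zero_of_natDegree_lt (f.den_le.trans_lt hi)]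
        exact Subfield.zero_mem _
    have hnuL : nu ∈ (algebraicClosure E K).toSubfield := by
      have hdp : 0 < d - 1 := by omega
      refine mem_algebraicClosure_iff.mpr (IsAlgebraic.of_pow hdp ?_)
      rw [hnu]
      exact mem_algebraicClosure_iff.mp (Subfield.div_mem _ (eval_mem _ _ hQL _ hw1)
        (eval_mem _ _ hQL _ hw0))
    intro i
    exact mem_algebraicClosure_iff.mp (h.nfc_mem _ hw0 hw1 hnuL hcE i)
  · obtain ⟨S, hS⟩ : ∃ S : Finset K, S = {w0, w1, nu, (nu ^ d * (w0 - w1) * f.den.eval w0)⁻¹} :=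
      ⟨_, rfl⟩
    rw [← hS]
    have hsub : ∀ x, x ∈ (Set.range (nfc h.map) ∪ (S : Set K)) →
        x ∈ (IntermediateField.adjoin ℚ (Set.range (nfc h.map) ∪ (S : Set K))).toSubfield :=
      fun x hx => IntermediateField.subset_adjoin _ _ hx
    have hmS : ∀ x, x ∈ S → x ∈ (IntermediateField.adjoin ℚ
        (Set.range (nfc h.map) ∪ (S : Set K))).toSubfield :=
      fun x hx => hsub x (Or.inr hx)
    obtain ⟨hN, hM⟩ := h.mem_of_nfc (IntermediateField.adjoin ℚ
        (Set.range (nfc h.map) ∪ (S : Set K))).toSubfield (fun i => hsub _ (Or.inl ⟨i, rfl⟩))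
    obtain ⟨hP, hQ⟩ := h.coef_mem _ (hmS _ (by simp [hS])) (hmS _ (by simp [hS]))
      (hmS _ (by simp [hS])) (hmS _ (by simp [hS])) hN hM
    rintro (i | i)
    · exact (mem_LR _ _).mp hP _
    · exact (mem_LR _ _).mp hQ _
  · intro n hn
    exact h.xs_sub hA3 hf.noInf n hn

end Pool.Agent.LenSpec
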