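import Mathlib

/-!
Definitions for the length spectrum of rational maps: iterates as pairs numerator, denominator,
multipliers, the multiplier spectrum and the length spectrum, periodic points, places.
-/

namespace Pool.Agent.LenSpec

open Polynomial

/-! ### Rational maps as pairs of polynomials -/

section alg

variable {K : Type} [Field K]

/-- the polynomial `P`, regarded as a form of degree `d`, evaluated at the pair `(A, B)` -/
noncomputable def homComp (d : ℕ) (P A B : K[X]) : K[X] :=
  ∑ i ∈ Finset.range (d + 1), C (P.coeff i) * A ^ i * B ^ (d - i)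

/-- the `n`-th iterate of the map `P / Q` of degree `d`, as a pair numerator, denominator -/
noncomputable def iter (d : ℕ) (P Q : K[X]) : ℕ → K[X] × K[X]
  | 0 => (X, 1)
  | n + 1 => (homComp d P (iter d P Q n).1 (iter d P Q n).2,
      homComp d Q (iter d P Q n).1 (iter d P Q n).2)

/-- the derivative of `A / B` at `z` -/
noncomputable def derivAt (A B : K[X]) (z : K) : K :=
  ((derivative A).eval z * B.eval z - A.eval z * (derivative B).eval z) / (B.eval z) ^ 2

/-- the multiplier of `A / B` at infinity, if infinity is a fixed point (that is, if the degree of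
`B` is smaller than the degree of `A`) -/
noncomputable def multInf (A B : K[X]) : K :=
  if A.natDegree = B.natDegree + 1 then B.leadingCoeff / A.leadingCoeff else 0

/-- the multipliers of `A / B`, a map of degree `D` in lowest terms, at its `D + 1` fixed points,
counted with multiplicity; `D + 1 - deg (A - X B)` is the multiplicity of infinity -/
noncomputable def fixMult (D : ℕ) (A B : K[X]) : Multiset K :=
  (A - X * B).roots.map (derivAt A B) +
    Multiset.replicate (D + 1 - (A - X * B).natDegree) (multInf A B)

end alg

/-- a rational map of degree `d` with coefficients in `K`, in lowest terms -/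
structure RatMap (K : Type) [Field K] (d : ℕ) where
  /-- numerator -/
  num : K[X]
  /-- denominator -/
  den : K[X]
  num_le : num.natDegree ≤ d
  den_le : den.natDegree ≤ d
  deg_eq : num.natDegree = d ∨ den.natDegree = d
  coprime : IsCoprime num den

/-- index set of the coefficients of numerator and denominator -/
abbrev CI (d : ℕ) : Type := Fin (d + 1) ⊕ Fin (d + 1)

namespace RatMap

variable {K L : Type} [Field K] [Field L] {d : ℕ}

/-- the multiset of the multipliers of the `n`-th iterate at its `d ^ n + 1` fixed points -/
noncomputable def multSpec (f : RatMap K d) (n : ℕ) : Multiset K :=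
  fixMult (d ^ n) (iter d f.num f.den n).1 (iter d f.num f.den n).2

/-- the map whose coefficients are the images of the coefficients under a homomorphism -/
noncomputable def mapHom (φ : K →+* L) (f : RatMap K d) : RatMap L d where
  num := f.num.map φ
  den := f.den.map φ
  num_le := by
    rw [natDegree_map_eq_of_injective φ.injective]
    exact f.num_le
  den_le := by
    rw [natDegree_map_eq_of_injective φ.injective]
    exact f.den_le
  deg_eq := by
    rw [natDegree_map_eq_of_injective φ.injective, natDegree_map_eq_of_injective φ.injective]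
    exact f.deg_eq
  coprime := f.coprime.map (mapRingHom φ)

/-- the coefficients -/
noncomputable def coef (f : RatMap K d) : CI d → K
  | Sum.inl i => f.num.coeff i
  | Sum.inr i => f.den.coeff i

/-- the multiset of the absolute values of the multipliers -/
noncomputable def lenSpec (f : RatMap ℂ d) (n : ℕ) : Multiset ℝ :=
  (f.multSpec n).map (fun x => ‖x‖)

/-- complex conjugation of the coefficients -/
noncomputable def conj (f : RatMap ℂ d) : RatMap ℂ d := f.mapHom (starRingEnd ℂ)

/-- the coefficients and their complex conjugates -/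
noncomputable def coefs (f : RatMap ℂ d) : CI d ⊕ CI d → ℂ
  | Sum.inl i => f.coef i
  | Sum.inr i => starRingEnd ℂ (f.coef i)

end RatMap

/-! ### Fields with a conjugation -/

/-- an involution `σ` of `K` such that a sum of norms `x σ(x)` vanishes only if all `x` vanish -/
structure Cj (K : Type) [Field K] where
  /-- the involution -/
  σ : K →+* K
  invol : ∀ x, σ (σ x) = x
  pos : ∀ s : Multiset K, (s.map (fun y => y * σ y)).sum = 0 → ∀ y ∈ s, y = 0

namespace Cj

variable {K : Type} [Field K] {d : ℕ}

/-- the norm -/
def nrm (c : Cj K) (x : K) : K := x * c.σ x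

/-- the norms of the multipliers -/
noncomputable def spec (c : Cj K) (f : RatMap K d) (n : ℕ) : Multiset K :=
  (f.multSpec n).map c.nrm

/-- the conjugate map -/
noncomputable def conj (c : Cj K) (f : RatMap K d) : RatMap K d := f.mapHom c.σ

/-- the coefficients and their conjugates -/
noncomputable def coefs (c : Cj K) (f : RatMap K d) : CI d ⊕ CI d → K
  | Sum.inl i => f.coef i
  | Sum.inr i => c.σ (f.coef i)

end Cj

/-- sequences of complex numbers modulo an ultrafilter -/
abbrev HC : Type := Filter.Germ (Filter.hyperfilter ℕ : Filter ℕ) ℂ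

/-! ### Periodic points -/

section per

variable {K : Type} [Field K]

/-- the form `P` of degree `d` at `(x, y)` -/
noncomputable def hom (d : ℕ) (P : K[X]) (x y : K) : K :=
  ∑ i ∈ Finset.range (d + 1), P.coeff i * x ^ i * y ^ (d - i)

/-- the map on `K × K` -/
noncomputable def lift2 (d : ℕ) (P Q : K[X]) (v : K × K) : K × K :=
  (hom d P v.1 v.2, hom d Q v.1 v.2)

/-- the value of `P / Q` -/
noncomputable def ev (P Q : K[X]) (z : K) : K := P.eval z / Q.eval z

/-- `z` is fixed by the `n`-th iterate of `P / Q`, and its orbit does not meet infinity -/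
def Per (P Q : K[X]) (n : ℕ) (z : K) : Prop :=
  (∀ k, Q.eval ((ev P Q)^[k] z) ≠ 0) ∧ (ev P Q)^[n] z = z

/-- `z` has exact period `n` -/
def PerX (P Q : K[X]) (n : ℕ) (z : K) : Prop :=
  Per P Q n z ∧ ∀ m, 0 < m → m < n → (ev P Q)^[m] z ≠ z

/-- the multiplier of the `n`-th iterate at `z` -/
noncomputable def mult (P Q : K[X]) (n : ℕ) (z : K) : K :=
  ∏ k ∈ Finset.range n, derivAt P Q ((ev P Q)^[k] z)

/-- numerator minus `X` times denominator of the `n`-th iterate -/
noncomputable def fixPoly (d : ℕ) (P Q : K[X]) (n : ℕ) : K[X] :=
  (iter d P Q n).1 - X * (iter d P Q n).2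

/-- infinity is not periodic -/
def NoInf (d : ℕ) (P Q : K[X]) : Prop := ∀ n, 1 ≤ n → (iter d P Q n).2.coeff (d ^ n) ≠ 0

open Classical in
/-- the points of exact period `n` -/
noncomputable def perF (d : ℕ) (P Q : K[X]) (n : ℕ) : Finset K :=
  (fixPoly d P Q n).roots.toFinset.filter (fun z => PerX P Q n z)

/-- the multipliers of the points of exact period `n` -/
noncomputable def MX (d : ℕ) (P Q : K[X]) (n : ℕ) : Multiset K :=
  (perF d P Q n).val.map (mult P Q n)

end per

/-- `f` is in general position: infinity is not periodic and no multiplier is `1` -/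
structure Good {K : Type} [Field K] {d : ℕ} (f : RatMap K d) : Prop where
  two_le : 2 ≤ d
  noInf : NoInf d f.num f.den
  mult_ne : ∀ n z, 1 ≤ n → Per f.num f.den n z → mult f.num f.den n z ≠ 1

/-- the coefficients and their conjugates are algebraically independent -/
structure Gen {K : Type} [Field K] [CharZero K] {d : ℕ} (c : Cj K) (f : RatMap K d) : Prop where
  two_le : 2 ≤ d
  indep : AlgebraicIndependent ℚ (c.coefs f)

/-! ### The family z ^ d + t -/

/-- the map `z ^ d + t` -/
def T {K : Type} [Field K] (d : ℕ) (t : K) (z : K) : K := z ^ d + t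

/-- the multiplier of the `n`-th iterate of `z ^ d + t` -/
def Tm {K : Type} [Field K] (d : ℕ) (t : K) (n : ℕ) (z : K) : K :=
  ∏ k ∈ Finset.range n, ((d : K) * ((T d t)^[k] z) ^ (d - 1))

/-- the derivative of the `n`-th iterate of `z ^ d + t` with respect to `t` -/
def Dt {K : Type} [Field K] (d : ℕ) (t z : K) : ℕ → K
  | 0 => 0
  | k + 1 => (d : K) * ((T d t)^[k] z) ^ (d - 1) * Dt d t z k + 1

/-- length of the common initial segment -/
def pre {n d : ℕ} (a b : Fin n → Fin d) : ℕ :=
  (Finset.univ.filter (fun i => ∀ j, j ≤ i → a j = b j)).card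

/-! ### Places -/

/-- a place of `K` with values in `κ` -/
structure Pl (K κ : Type) [Field K] [Field κ] where
  /-- the ring of the place -/
  O : Subring K
  /-- the residue map -/
  res : O →+* κ
  dich : ∀ x : K, x ∈ O ∨ ∃ h : x⁻¹ ∈ O, res ⟨x⁻¹, h⟩ = 0

namespace Pl

variable {K κ : Type} [Field K] [Field κ]

/-- `x` reduces to `y` -/
def Red (p : Pl K κ) (x : K) (y : κ) : Prop := ∃ h : x ∈ p.O, p.res ⟨x, h⟩ = y

/-- the coefficients of `W` reduce to those of `V` -/
def RedP (p : Pl K κ) (W : K[X]) (V : κ[X]) : Prop := ∀ i, p.Red (W.coeff i) (V.coeff i)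

open Classical in
/-- the residue map, extended by zero -/
noncomputable def rs (p : Pl K κ) (x : K) : κ := if h : x ∈ p.O then p.res ⟨x, h⟩ else 0

end Pl

/-! ### Specialisations of `t` -/

section spec

variable (F : Type) {Ω : Type} [Field F] [Field Ω] [Algebra F Ω]

/-- `x` is integral over `F[t]` -/
def IntT (t x : Ω) : Prop := IsIntegral (Algebra.adjoin F ({t} : Set Ω)) x

variable {F}

/-- the place `p` is the identity on `F` and finite on the elements that are integral over
`F[t]` -/
structure SpPl (t : Ω) (p : Pl Ω F) : Prop where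
  const : ∀ a : F, p.Red (algebraMap F Ω a) a
  int : ∀ x, IntT F t x → x ∈ p.O

/-- `x` is algebraic over `F(t)` for all `x` -/
def AlgT (F : Type) {Ω : Type} [Field F] [Field Ω] [Algebra F Ω] (t : Ω) : Prop :=
  ∀ x : Ω, IsAlgebraic (IntermediateField.adjoin F ({t} : Set Ω)) x

end spec

/-- the map `P / Q` is `z ^ d + t` modulo `s`, with `(t, s)` a transcendence basis of `K` over the
algebraically closed field `F` -/
structure Sit {K : Type} [Field K] (F : Type) [Field F] [Algebra F K] (d : ℕ) (P Q : K[X])
    (t s : K) : Prop where
  two_le : 2 ≤ d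
  indep : AlgebraicIndependent F ![t, s]
  alg : ∀ x : K, IsAlgebraic (IntermediateField.adjoin F ({t, s} : Set K)) x
  num : ∃ R : F[X], R.natDegree ≤ d ∧ P = X ^ d + C t + C s * R.map (algebraMap F K)
  den : ∃ R : F[X], R.natDegree ≤ d ∧ Q = 1 + C s * R.map (algebraMap F K)
  coprime : IsCoprime P Q
  noInf : NoInf d P Q

end Pool.Agent.LenSpec
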