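import Pool.Agent.LenSpec.L5

/-!
L6: no collision at an unramified specialisation, fixed points.
-/

namespace Pool.Agent.LenSpec

open Polynomial

section

variable {F Ω : Type} [Field F] [Field Ω]

theorem l6_dvd (d : ℕ) (t : Ω) (n : ℕ) : (l4W d t 1 - X) ∣ (l4W d t n - X) := by
  induction n with
  | zero => simp [l4W]
  | succ n ih =>
    have h1 : l4W d t (n + 1) - X = ((l4W d t n) ^ d - X ^ d) + (l4W d t 1 - X) := by
      simp only [l4W]
      ring
    rw [h1]
    exact dvd_add (ih.trans (sub_dvd_pow_sub_pow _ _ d)) dvd_rfl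

theorem l6_deriv (d : ℕ) (t ξ : Ω) (hξ : T d t ξ = ξ) (n : ℕ) :
    (derivative (l4W d t n)).eval ξ = ((d : Ω) * ξ ^ (d - 1)) ^ n := by
  induction n with
  | zero => simp [l4W]
  | succ n ih =>
    have h1 : (l4W d t n).eval ξ = ξ := by
      have h := l5_eval d t ξ n
      rw [Function.iterate_fixed hξ n, sub_self, eval_sub, eval_X] at h
      exact sub_eq_zero.mp h
    rw [l4W, derivative_add, derivative_C, add_zero, derivative_pow, eval_mul, eval_mul, ih,
      eval_C, eval_pow, h1, pow_succ]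
    ring

end

theorem l6_holds (h4 : L4S) : L6S := by
  intro F Ω _ _ _ _ _ _ t p t₀ d n S A₁ A₂ B htr hp ht hd hnp hdis hA hc1 hc2 hS hB hBr hBp
    x hx y hy hrs hfix
  classical
  have hn : 1 ≤ n := hnp.one_lt.le
  obtain ⟨h4a, h4b, h4c⟩ := h4 F Ω t p t₀ d n htr hp ht hd
  have hx1 := (hA x).mp (Or.inl hx)
  have hy1 := (hA y).mp (Or.inr hy)
  obtain ⟨z₀, hz₀⟩ : ∃ z₀, z₀ = p.rs x := ⟨_, rfl⟩
  obtain ⟨hl1, hl2⟩ := h4c x hnp hx1.1 hx1.2 hfix
  rw [← hz₀] at hl1 hl2 hfix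
  have hz0red : p.Red (algebraMap F Ω z₀) z₀ := hp.const z₀
  have hfix2 : z₀ ^ d + t₀ = z₀ := hfix
  have hz0ne : z₀ ≠ 0 := by
    rintro h0
    rw [h0, zero_pow (by omega), mul_zero, zero_pow (by omega)] at hl1
    exact zero_ne_one hl1
  -- a fixed point above z₀
  have hVm := l5_monic d t hd 1 le_rfl
  have hredt : p.Red (t - algebraMap F Ω t₀) 0 := by
    have := ht.sub (hp.const t₀)
    rwa [sub_self] at this
  have hVval : (l4W d t 1 - X).eval (algebraMap F Ω z₀) = t - algebraMap F Ω t₀ := by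
    rw [l5_eval, Function.iterate_one, T]
    have := congrArg (algebraMap F Ω) hfix2
    rw [map_add, map_pow] at this
    linear_combination this
  have hVO : ∀ z, (l4W d t 1 - X).eval z = 0 → z ∈ p.O := by
    intro z hz
    rw [l5_eval] at hz
    exact hp.int z (l4_int t z d 1 hd le_rfl (sub_eq_zero.mp hz))
  obtain ⟨ξ, hξr, hξ0⟩ : ∃ ξ ∈ (l4W d t 1 - X).roots, p.rs ξ = z₀ := by
    by_contra hcon
    push Not at hcon
    have h1 := (IsAlgClosed.splits (l4W d t 1 - X)).eq_prod_roots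
    rw [hVm.leadingCoeff, map_one, one_mul] at h1
    have h2 : p.Red (t - algebraMap F Ω t₀)
        (((l4W d t 1 - X).roots.map (fun z => z₀ - p.rs z)).prod) := by
      rw [← hVval]
      conv => arg 2; rw [h1]
      rw [eval_multiset_prod, Multiset.map_map]
      have hgen : ∀ s : Multiset Ω, (∀ z ∈ s, z ∈ p.O) →
          p.Red ((s.map (eval ((algebraMap F Ω) z₀) ∘ fun a => X - C a)).prod)
            ((s.map (fun z => z₀ - p.rs z)).prod) := by
        intro s
        induction s using Multiset.induction_on with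
        | empty => intro _; simpa using Pl.red_one
        | cons a s ih =>
          intro hs
          rw [Multiset.map_cons, Multiset.map_cons, Multiset.prod_cons, Multiset.prod_cons]
          refine Pl.Red.mul ?_ (ih fun z hz => hs z (Multiset.mem_cons_of_mem hz))
          simp only [Function.comp_apply, eval_sub, eval_X, eval_C]
          exact hz0red.sub (Pl.red_rs (hs a (Multiset.mem_cons_self a s)))
      apply hgen
      intro z hz
      exact hVO z ((mem_roots hVm.ne_zero).mp hz)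
    have h3 := h2.unique hredt
    rw [Multiset.prod_eq_zero_iff, Multiset.mem_map] at h3
    obtain ⟨z, hz, hz'⟩ := h3
    exact hcon z hz (sub_eq_zero.mp hz').symm
  have hξfix : T d t ξ = ξ := by
    have h1 := (mem_roots hVm.ne_zero).mp hξr
    rw [IsRoot, l5_eval, Function.iterate_one] at h1
    exact sub_eq_zero.mp h1
  have hξint : IntT F t ξ := l4_int t ξ d 1 hd le_rfl (by rw [Function.iterate_one, hξfix])
  have hξO : ξ ∈ p.O := hp.int ξ hξint
  have hξred : p.Red ξ z₀ := by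
    have := Pl.red_rs hξO
    rwa [hξ0] at this
  have hξE : ξ ∈ IntermediateField.adjoin F (insert t S) :=
    IntermediateField.subset_adjoin F _ (Set.mem_insert_of_mem _ (hS ξ hξfix))
  -- the factorisation of W
  have hWm := l5_monic d t hd n hn
  have hWO : ∀ z, (l4W d t n - X).eval z = 0 → z ∈ p.O := by
    intro z hz
    rw [l5_eval] at hz
    exact hp.int z (l4_int t z d n hd hn (sub_eq_zero.mp hz))
  have hle : (l4W d t 1 - X).roots + (A₁ ∪ A₂).val ≤ (l4W d t n - X).roots := by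
    rw [Multiset.le_iff_count]
    intro a
    rw [Multiset.count_add]
    by_cases ha : a ∈ (A₁ ∪ A₂)
    · have h1 : Multiset.count a (l4W d t 1 - X).roots = 0 := by
        rw [Multiset.count_eq_zero]
        intro h2
        have h3 := (mem_roots hVm.ne_zero).mp h2
        rw [IsRoot, l5_eval, Function.iterate_one] at h3
        exact ((hA a).mp (Finset.mem_union.mp ha)).2 (sub_eq_zero.mp h3)
      have h2 : Multiset.count a (A₁ ∪ A₂).val ≤ 1 :=
        Multiset.nodup_iff_count_le_one.mp (A₁ ∪ A₂).nodup a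
      have h3 : 1 ≤ Multiset.count a (l4W d t n - X).roots := by
        rw [Multiset.one_le_count_iff_mem, mem_roots hWm.ne_zero, IsRoot, l5_eval,
          ((hA a).mp (Finset.mem_union.mp ha)).1, sub_self]
      omega
    · have h1 : Multiset.count a (A₁ ∪ A₂).val = 0 := Multiset.count_eq_zero_of_notMem ha
      rw [h1, add_zero]
      exact Multiset.count_le_of_le a (roots.le_of_dvd hWm.ne_zero (l6_dvd d t n))
  obtain ⟨H, hH, hHO⟩ := l5_split p _ hWm hWO _ hle
  obtain ⟨P12, hP12⟩ : ∃ P12, P12 = (Multiset.map (fun z : Ω => X - C z) (A₁ ∪ A₂).val).prod :=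
    ⟨_, rfl⟩
  have hP12v : P12.eval ξ = (∏ z ∈ A₁, (ξ - z)) * ∏ z ∈ A₂, (ξ - z) := by
    have h1 : (Multiset.map (fun z : Ω => X - C z) (A₁ ∪ A₂).val).prod =
        ∏ z ∈ A₁ ∪ A₂, (X - C z) := rfl
    rw [hP12, h1, Finset.prod_union hdis, eval_mul, eval_prod, eval_prod]
    simp
  have hVprod : (Multiset.map (fun z : Ω => X - C z) (l4W d t 1 - X).roots).prod =
      l4W d t 1 - X := by
    have h1 := (IsAlgClosed.splits (l4W d t 1 - X)).eq_prod_roots
    rw [hVm.leadingCoeff, map_one, one_mul] at h1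
    exact h1.symm
  have hfac : l4W d t n - X = (l4W d t 1 - X) * (P12 * H) := by
    conv_lhs => rw [hH]
    rw [Multiset.map_add, Multiset.prod_add, hVprod, ← hP12, mul_assoc]
  obtain ⟨lam, hlam⟩ : ∃ lam, lam = (d : Ω) * ξ ^ (d - 1) := ⟨_, rfl⟩
  obtain ⟨h, hh⟩ : ∃ h, h = H.eval ξ := ⟨_, rfl⟩
  have hhO : h ∈ p.O := by rw [hh]; exact hHO _ hξO
  obtain ⟨P1, hP1⟩ : ∃ P1, P1 = ∏ z ∈ A₁, (ξ - z) := ⟨_, rfl⟩
  obtain ⟨P2, hP2⟩ : ∃ P2, P2 = ∏ z ∈ A₂, (ξ - z) := ⟨_, rfl⟩
  have hVξ : (l4W d t 1 - X).eval ξ = 0 := by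
    rw [l5_eval, Function.iterate_one, hξfix, sub_self]
  have hderfac : lam ^ n - 1 = (lam - 1) * (P1 * P2 * h) := by
    have h1 : (derivative (l4W d t n - X)).eval ξ =
        (derivative ((l4W d t 1 - X) * (P12 * H))).eval ξ := by rw [← hfac]
    have h2 : (derivative ((l4W d t 1 - X) * (P12 * H))).eval ξ =
        (derivative (l4W d t 1 - X)).eval ξ * (P12.eval ξ * H.eval ξ) := by
      rw [derivative_mul, eval_add, eval_mul, eval_mul (p := l4W d t 1 - X), hVξ, zero_mul,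
        add_zero, eval_mul]
    rw [h2, derivative_sub, derivative_sub, derivative_X, eval_sub, eval_sub,
      l6_deriv d t ξ hξfix, l6_deriv d t ξ hξfix, eval_one, ← hlam, pow_one, hP12v, ← hh, ← hP1,
      ← hP2] at h1
    exact h1
  -- local parameters
  obtain ⟨z', hz'⟩ : ∃ z', z' = algebraMap F Ω z₀ := ⟨_, rfl⟩
  rw [← hz'] at hz0red hVval
  obtain ⟨w, hw⟩ : ∃ w, w = 1 - l4D d ξ z' := ⟨_, rfl⟩
  have htw : t - algebraMap F Ω t₀ = (ξ - z') * w := by
    have h1 := l4D_mul d t ξ z'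
    rw [hξfix] at h1
    have h2 : T d t z' - z' = t - algebraMap F Ω t₀ := by
      rw [← hVval, l5_eval, Function.iterate_one]
    rw [hw]
    linear_combination -h2 - h1
  have hwO : w ∈ p.O := by
    rw [hw]
    exact p.O.sub_mem p.O.one_mem (l4D_red p d hξred hz0red).mem
  have htt : t - algebraMap F Ω t₀ ≠ 0 := by
    intro h0
    apply htr
    have : t = algebraMap F Ω t₀ := sub_eq_zero.mp h0
    rw [this]
    exact isAlgebraic_algebraMap t₀
  have hξz : ξ - z' ≠ 0 := by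
    intro h0
    rw [h0, zero_mul] at htw
    exact htt htw
  have hξzred : p.Red (ξ - z') 0 := by
    have := hξred.sub hz0red
    rwa [sub_self] at this
  -- λ - λ₀
  obtain ⟨l0, hl0⟩ : ∃ l0 : F, l0 = (d : F) * z₀ ^ (d - 1) := ⟨_, rfl⟩
  rw [← hl0] at hl1 hl2
  obtain ⟨l0', hl0'⟩ : ∃ l0', l0' = algebraMap F Ω l0 := ⟨_, rfl⟩
  have hl0'eq : l0' = (d : Ω) * z' ^ (d - 1) := by
    rw [hl0', hl0, map_mul, map_natCast, map_pow, hz']
  obtain ⟨w', hw'⟩ : ∃ w', w' = (d : Ω) * l4D (d - 1) ξ z' := ⟨_, rfl⟩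
  have hlamw : lam - l0' = (ξ - z') * w' := by
    have h1 := l4D_mul (d - 1) 0 ξ z'
    rw [T, T] at h1
    rw [hlam, hl0'eq, hw']
    linear_combination (d : Ω) * h1
  have hw'red : p.Red w' ((d : F) * (((d - 1 : ℕ) : F) * z₀ ^ (d - 1 - 1))) := by
    rw [hw', ← l4D_self]
    exact (Pl.red_natCast d).mul (l4D_red p (d - 1) hξred hz0red)
  have hlamred : p.Red lam l0 := by
    rw [hlam, hl0]
    exact (Pl.red_natCast d).mul (hξred.pow _)
  have hl0'red : p.Red l0' l0 := by rw [hl0']; exact hp.const l0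
  have hpow : lam ^ n - 1 = (lam - l0') * l4D n lam l0' := by
    have h1 := l4D_mul n 0 lam l0'
    rw [T, T] at h1
    have h2 : l0' ^ n = 1 := by rw [hl0', ← map_pow, hl1, map_one]
    rw [h2] at h1
    linear_combination h1
  have hDred : p.Red (l4D n lam l0') ((n : F) * l0 ^ (n - 1)) := by
    rw [← l4D_self]
    exact l4D_red p n hlamred hl0'red
  -- the divisibilities
  have hA1int : ∀ z ∈ A₁, IntT F t z := fun z hz =>
    l4_int t z d n hd hn ((hA z).mp (Or.inl hz)).1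
  have hA2int : ∀ z ∈ A₂, IntT F t z := fun z hz =>
    l4_int t z d n hd hn ((hA z).mp (Or.inr hz)).1
  obtain ⟨e1, i1, r1⟩ := l5_prod hp _ A₁ hc1 hA1int ξ hξE hξint x hx (by rw [hξ0, hz₀])
  obtain ⟨e2, i2, r2⟩ := l5_prod hp _ A₂ hc2 hA2int ξ hξE hξint y hy (by rw [hξ0, hz₀, hrs])
  obtain ⟨s1, hs1, hs1'⟩ := hBp _ e1 i1 r1
  obtain ⟨s2, hs2, hs2'⟩ := hBp _ e2 i2 r2
  rw [← hP1] at hs1'
  rw [← hP2] at hs2'
  have hkey : B ^ 2 * (w' * l4D n lam l0') =
      (ξ - z') * ((lam - 1) * w ^ 2 * (s1 * s2 * h)) := by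
    apply mul_left_cancel₀ hξz
    calc (ξ - z') * (B ^ 2 * (w' * l4D n lam l0'))
        = B ^ 2 * (((ξ - z') * w') * l4D n lam l0') := by ring
      _ = B ^ 2 * (lam ^ n - 1) := by rw [← hlamw, ← hpow]
      _ = (lam - 1) * ((B * P1) * (B * P2) * h) := by rw [hderfac]; ring
      _ = _ := by rw [hs1', hs2', htw]; ring
  have hBO : B ∈ p.O := hp.int B hB
  have hlamO : lam ∈ p.O := hlamred.mem
  have hredL := ((Pl.red_rs hBO).pow 2).mul (hw'red.mul hDred)
  have hO3 : (lam - 1) * w ^ 2 * (s1 * s2 * h) ∈ p.O :=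
    p.O.mul_mem (p.O.mul_mem (p.O.sub_mem hlamO p.O.one_mem) (p.O.pow_mem hwO 2))
      (p.O.mul_mem (p.O.mul_mem (hp.int s1 hs1) (hp.int s2 hs2)) hhO)
  have hredR : p.Red ((ξ - z') * ((lam - 1) * w ^ 2 * (s1 * s2 * h))) 0 := by
    have := hξzred.mul (Pl.red_rs hO3)
    rwa [zero_mul] at this
  rw [hkey] at hredL
  have h0 := hredL.unique hredR
  have hd0 : (d : F) ≠ 0 := by exact_mod_cast (by omega : d ≠ 0)
  have hd1 : ((d - 1 : ℕ) : F) ≠ 0 := by exact_mod_cast (by omega : d - 1 ≠ 0)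
  have hn0 : (n : F) ≠ 0 := by exact_mod_cast (by omega : n ≠ 0)
  have hl0ne : l0 ≠ 0 := by
    intro h1
    rw [h1, zero_pow (by omega)] at hl1
    exact zero_ne_one hl1
  have hBne : p.rs B ≠ 0 := by
    intro h1
    apply hBr
    have := Pl.red_rs hBO
    rwa [h1] at this
  exact (mul_ne_zero (pow_ne_zero 2 hBne) (mul_ne_zero
    (mul_ne_zero hd0 (mul_ne_zero hd1 (pow_ne_zero _ hz0ne)))
    (mul_ne_zero hn0 (pow_ne_zero _ hl0ne)))) h0

end Pool.Agent.LenSpec
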