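import Pool.Agent.LenSpec.Stmt

/-!
Conjugate maps and the statement for quadratic maps.
-/

namespace Pool.Agent.LenSpec

open Polynomial

/-- `g` is conjugate to `f` by a Moebius map `M(z) = (a z + b) / (c z + e)`: `g ∘ M = M ∘ f`,
written with numerators and denominators -/
def MobConj {K : Type} [Field K] {d : ℕ} (f g : RatMap K d) : Prop :=
  ∃ a b c e k : K, a * e - b * c ≠ 0 ∧ k ≠ 0 ∧
    homComp d g.num (C a * X + C b) (C c * X + C e) = C k * (C a * f.num + C b * f.den) ∧
    homComp d g.den (C a * X + C b) (C c * X + C e) = C k * (C c * f.num + C e * f.den)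

/-- D2: a quadratic rational map is determined up to conjugation by the multipliers of its fixed
points -/
def D2S : Prop := ∀ (K : Type) [Field K] [IsAlgClosed K] (f g : RatMap K 2),
  (∀ x ∈ f.multSpec 1, x ≠ 1) → f.multSpec 1 = g.multSpec 1 → MobConj f g

end Pool.Agent.LenSpec
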