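import Pool.Agent.LenSpec.Stmt

namespace Pool.Agent.LenSpec

section

variable {κ : Type} [Field κ]

theorem r2_delta (N : ℕ) (ζ : κ) (hζ : IsPrimitiveRoot ζ N) (s : ℕ) :
    ∑ a ∈ Finset.range N, (ζ ^ a) ^ s = if N ∣ s then (N : κ) else 0 := by
  split_ifs with h
  · have h1 : ζ ^ s = 1 := (hζ.pow_eq_one_iff_dvd s).2 h
    have : ∀ a ∈ Finset.range N, (ζ ^ a) ^ s = 1 := by
      intro a _
      rw [← pow_mul, mul_comm, pow_mul, h1, one_pow]
    rw [Finset.sum_congr rfl this]
    simp
  · have h1 : ζ ^ s ≠ 1 := fun h2 => h ((hζ.pow_eq_one_iff_dvd s).1 h2)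
    have h2 : ∀ a ∈ Finset.range N, (ζ ^ a) ^ s = (ζ ^ s) ^ a := by
      intro a _
      rw [← pow_mul, mul_comm, pow_mul]
    rw [Finset.sum_congr rfl h2]
    have h3 := mul_geom_sum (ζ ^ s) N
    have h4 : (ζ ^ s) ^ N = 1 := by
      rw [← pow_mul, mul_comm, pow_mul, hζ.pow_eq_one, one_pow]
    rw [h4, sub_self] at h3
    rcases mul_eq_zero.1 h3 with h5 | h5
    · exact absurd (sub_eq_zero.1 h5) h1
    · exact h5

/-- the value of the sum for a root of unity -/
theorem r2_gF (d n N : ℕ) (hN : N + 1 = d ^ n) (hd : 2 ≤ d) (α β : ℕ → κ) (y : κ)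
    (hy : y ^ N = 1) (k : ℕ) (hk : k < n) :
    gF d α β (y ^ (d ^ k)) = ∑ j ∈ Finset.Ico 1 d, (α j * ((j : κ) - d) * y ^ (N - (d - j) * d ^ k) -
      β j * j * y ^ (j * d ^ k)) := by
  unfold gF
  have hy0 : y ≠ 0 := by
    rintro rfl
    have hN0 : N ≠ 0 := by
      rintro rfl
      have : d ^ n ≤ 1 := by omega
      have h2 : d ^ 1 ≤ d ^ n := Nat.pow_le_pow_right (by omega) (by omega)
      rw [pow_one] at h2
      omega
    rw [zero_pow hN0] at hy
    exact zero_ne_one hy
  refine Finset.sum_congr rfl fun j hj => ?_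
  rw [Finset.mem_Ico] at hj
  have h1 : (d - j) * d ^ k ≤ N := by
    have h2 : (d - j) * d ^ k + d ^ k ≤ d ^ (k + 1) := by
      have : (d - j) * d ^ k + d ^ k = (d - j + 1) * d ^ k := by ring
      rw [this, pow_succ, mul_comm (d ^ k) d]
      exact Nat.mul_le_mul_right _ (by omega)
    have h3 : d ^ (k + 1) ≤ d ^ n := Nat.pow_le_pow_right (by omega) (by omega)
    have h4 : 1 ≤ d ^ k := Nat.one_le_pow _ _ (by omega)
    omega
  have e1 : (y ^ d ^ k) ^ j * ((y ^ d ^ k) ^ d)⁻¹ = y ^ (N - (d - j) * d ^ k) := by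
    have hne : (y ^ d ^ k) ^ d ≠ 0 := pow_ne_zero _ (pow_ne_zero _ hy0)
    rw [← div_eq_mul_inv, div_eq_iff hne, ← pow_mul, ← pow_mul, ← pow_add]
    have e2 : N - (d - j) * d ^ k + d ^ k * d = N + d ^ k * j := by
      obtain ⟨i, hi⟩ : ∃ i, d = j + i := ⟨d - j, by omega⟩
      have e3 : d - j = i := by omega
      rw [e3] at h1 ⊢
      have e4 : d ^ k * d = d ^ k * j + i * d ^ k := by
        have e6 : d ^ k * d = d ^ k * (j + i) := by rw [← hi]
        rw [e6]
        ring
      omega
    rw [e2, pow_add, hy, one_mul]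
  have e5 : (y ^ d ^ k) ^ j = y ^ (j * d ^ k) := by
    rw [← pow_mul, mul_comm]
  rw [e1, e5]

end

theorem R2_holds : R2S := by
  classical
  intro κ _ _ _ d n α β e hd hn hyp
  obtain ⟨N, hN⟩ : ∃ N, N + 1 = d ^ n := ⟨d ^ n - 1, Nat.sub_add_cancel (Nat.one_le_pow _ _ (by omega))⟩
  have hN' : d ^ n - 1 = N := by omega
  rw [hN'] at hyp
  have hbig : d ^ 4 ≤ d ^ (n - 1) := Nat.pow_le_pow_right (by omega) (by omega)
  have h34 : d ^ 4 = d * d ^ 3 := by ring
  have h3 : d ^ 3 = d * d ^ 2 := by ring
  have h2 : d ^ 2 = d * d := by ring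
  have hdn : d ^ n = d * d ^ (n - 1) := by
    rw [← pow_succ', Nat.sub_add_cancel (by omega)]
  obtain ⟨M, hM⟩ : ∃ M, M = d ^ (n - 1) := ⟨_, rfl⟩
  obtain ⟨q, hq⟩ : ∃ q, q + d ^ 2 = d ^ 3 := ⟨d ^ 3 - d ^ 2, Nat.sub_add_cancel
    (Nat.pow_le_pow_right (by omega) (by omega))⟩
  obtain ⟨c, hc⟩ : ∃ c, c + 1 = d := ⟨d - 1, by omega⟩
  have hqc : q = (d - 1) * d ^ 2 := by
    have e1 : d - 1 = c := by omega
    rw [e1]
    have : c * d ^ 2 + d ^ 2 = d ^ 3 := by
      have : c * d ^ 2 + d ^ 2 = (c + 1) * d ^ 2 := by ring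
      rw [this, hc, h3]
    omega
  -- bounds
  have dd : 2 * d ≤ d ^ 2 := by rw [h2]; exact Nat.mul_le_mul_right _ hd
  have d3 : 2 * d ^ 2 ≤ d ^ 3 := by rw [h3]; exact Nat.mul_le_mul_right _ hd
  have d4 : 2 * d ^ 3 ≤ M := by
    rw [hM]
    refine le_trans ?_ hbig
    rw [h34]
    exact Nat.mul_le_mul_right _ hd
  have dN : 2 * M ≤ d ^ n := by
    rw [hdn, hM]
    exact Nat.mul_le_mul_right _ hd
  have hx : ∀ i k, 1 ≤ i → i < d → k < n → 1 ≤ i * d ^ k ∧ i * d ^ k + M ≤ d ^ n := by
    intro i k hi hid hk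
    refine ⟨Nat.mul_pos hi (Nat.pow_pos (by omega)), ?_⟩
    have h5 : d ^ k ≤ M := by
      rw [hM]
      exact Nat.pow_le_pow_right (by omega) (by omega)
    calc i * d ^ k + M ≤ i * M + M := by
          have := Nat.mul_le_mul_left i h5
          omega
      _ = (i + 1) * M := by ring
      _ ≤ d * M := Nat.mul_le_mul_right _ (by omega)
      _ = d ^ n := by rw [hdn, hM]
  -- a small number is a digit times a power only if the power is `1`
  have hone : ∀ i k j, 1 ≤ i → j < d → (i * d ^ k = j ↔ k = 0 ∧ i = j) := by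
    intro i k j hi hj
    constructor
    · intro h
      have hk : k = 0 := by
        by_contra hk
        have : d ^ 1 ≤ d ^ k := Nat.pow_le_pow_right (by omega) (by omega)
        have h6 : 1 * d ^ 1 ≤ i * d ^ k := Nat.mul_le_mul hi this
        rw [pow_one, one_mul] at h6
        omega
      subst hk
      exact ⟨rfl, by simpa using h⟩
    · rintro ⟨rfl, rfl⟩
      simp
  have hnone : ∀ i k j, i < d → 1 ≤ j → j < d → i * d ^ k ≠ j + q := by
    intro i k j hi hj1 hj h
    rcases Nat.eq_zero_or_pos k with hk | hk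
    · subst hk
      rw [pow_zero, mul_one] at h
      omega
    · have h5 : d ∣ i * d ^ k := Dvd.dvd.mul_left (dvd_pow_self d (by omega)) i
      have h6 : d ∣ q := by
        rw [hqc]
        exact Dvd.dvd.mul_left (dvd_pow_self d (by omega)) _
      rw [h] at h5
      have h7 := (Nat.dvd_add_left h6).1 h5
      exact absurd (Nat.le_of_dvd (by omega) h7) (by omega)
  have hNpos : 0 < N := by omega
  have : NeZero ((N : ℕ) : κ) := ⟨by exact_mod_cast hNpos.ne'⟩
  obtain ⟨ζ, hζ⟩ := HasEnoughRootsOfUnity.exists_primitiveRoot κ N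
  have hNκ : (N : κ) ≠ 0 := by exact_mod_cast hNpos.ne'
  set G : κ → κ := fun y => ∑ k ∈ Finset.range n, gF d α β (y ^ (d ^ k)) with hG
  set cc : ℕ → κ := fun r => ∑ a ∈ Finset.range N, (G (ζ ^ a) - e) * (ζ ^ a) ^ r with hcc
  have hζa : ∀ a, (ζ ^ a) ^ N = 1 := by
    intro a
    rw [← pow_mul, mul_comm, pow_mul, hζ.pow_eq_one, one_pow]
  have hper : ∀ r, cc (r + q) = cc r := by
    intro r
    rw [hcc]
    refine Finset.sum_congr rfl fun a _ => ?_
    by_cases h : (ζ ^ a) ^ (d - 1) = 1
    · rw [pow_add, hqc, pow_mul, h, one_pow, mul_one]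
    · have h5 := hyp (ζ ^ a) (hζa a) h
      have h6 : G (ζ ^ a) = e := h5
      rw [h6, sub_self, zero_mul, zero_mul]
  have hval : ∀ r, cc r = ∑ k ∈ Finset.range n, ∑ j ∈ Finset.Ico 1 d,
      (α j * ((j : κ) - d) * (if N ∣ N - (d - j) * d ^ k + r then (N : κ) else 0) -
        β j * j * (if N ∣ j * d ^ k + r then (N : κ) else 0)) -
        e * (if N ∣ r then (N : κ) else 0) := by
    intro r
    have e1 : cc r = ∑ a ∈ Finset.range N, ((∑ k ∈ Finset.range n, ∑ j ∈ Finset.Ico 1 d,
        (α j * ((j : κ) - d) * (ζ ^ a) ^ (N - (d - j) * d ^ k + r) -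
          β j * j * (ζ ^ a) ^ (j * d ^ k + r))) - e * (ζ ^ a) ^ r) := by
      rw [hcc]
      refine Finset.sum_congr rfl fun a _ => ?_
      rw [hG]
      simp only
      rw [Finset.sum_congr rfl fun k hk => r2_gF d n N hN hd α β (ζ ^ a) (hζa a) k
        (Finset.mem_range.1 hk)]
      rw [sub_mul, Finset.sum_mul]
      congr 1
      refine Finset.sum_congr rfl fun k _ => ?_
      rw [Finset.sum_mul]
      refine Finset.sum_congr rfl fun j _ => ?_
      rw [pow_add, pow_add]
      ring
    rw [e1, Finset.sum_sub_distrib, ← Finset.mul_sum, r2_delta N ζ hζ]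
    congr 1
    rw [Finset.sum_comm]
    refine Finset.sum_congr rfl fun k _ => ?_
    rw [Finset.sum_comm]
    refine Finset.sum_congr rfl fun j _ => ?_
    rw [Finset.sum_sub_distrib, ← Finset.mul_sum, ← Finset.mul_sum, r2_delta N ζ hζ,
      r2_delta N ζ hζ]
  have nd : ∀ x, 0 < x → x < N → ¬ N ∣ x := fun x h1 h2 h3 =>
    absurd (Nat.le_of_dvd h1 h3) (by omega)
  have nd2 : ∀ x, 0 < x → x < 2 * N → N ∣ x → x = N := by
    intro x h1 h2 h3
    obtain ⟨t, ht⟩ := h3
    have : t = 1 := by
      rcases Nat.lt_or_ge t 1 with h | h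
      · have : t = 0 := by omega
        subst this
        omega
      · rcases Nat.lt_or_ge t 2 with h' | h'
        · omega
        · have := Nat.mul_le_mul_left N h'
          omega
    rw [ht, this, mul_one]
  intro j0 hj1 hj2
  constructor
  · -- alpha
    have c2 : cc (d - j0 + q) = 0 := by
      rw [hval]
      have e3 : ¬ N ∣ d - j0 + q := nd _ (by omega) (by omega)
      rw [if_neg e3, mul_zero, sub_zero]
      refine Finset.sum_eq_zero fun k hk => Finset.sum_eq_zero fun j hj => ?_
      rw [Finset.mem_range] at hk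
      rw [Finset.mem_Ico] at hj
      obtain ⟨x1, x2⟩ := hx (d - j) k (by omega) (by omega) hk
      obtain ⟨x3, x4⟩ := hx j k (by omega) (by omega) hk
      have e4 : ¬ N ∣ N - (d - j) * d ^ k + (d - j0 + q) := by
        intro h
        have h5 := nd2 _ (by omega) (by omega) h
        exact hnone (d - j) k (d - j0) (by omega) (by omega) (by omega) (by omega)
      have e5 : ¬ N ∣ j * d ^ k + (d - j0 + q) := nd _ (by omega) (by omega)
      rw [if_neg e4, if_neg e5]
      ring
    rw [hper, hval] at c2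
    have e3 : ¬ N ∣ d - j0 := nd _ (by omega) (by omega)
    rw [if_neg e3, mul_zero, sub_zero] at c2
    rw [Finset.sum_eq_single 0, Finset.sum_eq_single j0] at c2
    · rw [pow_zero, mul_one, mul_one] at c2
      have e4 : N - (d - j0) + (d - j0) = N := by omega
      have e5 : ¬ N ∣ j0 + (d - j0) := nd _ (by omega) (by omega)
      rw [e4, if_pos dvd_rfl, if_neg e5, mul_zero, sub_zero] at c2
      rcases mul_eq_zero.1 c2 with h | h
      · rcases mul_eq_zero.1 h with h' | h'
        · exact h'
        · exfalso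
          rw [sub_eq_zero] at h'
          have : j0 = d := by exact_mod_cast h'
          omega
      · exact absurd h hNκ
    · intro j hj hne
      rw [Finset.mem_Ico] at hj
      rw [pow_zero, mul_one, mul_one]
      have e4 : ¬ N ∣ N - (d - j) + (d - j0) := by
        intro h
        have h5 := nd2 _ (by omega) (by omega) h
        omega
      have e5 : ¬ N ∣ j + (d - j0) := nd _ (by omega) (by omega)
      rw [if_neg e4, if_neg e5]
      ring
    · intro h
      exact absurd (Finset.mem_Ico.2 ⟨hj1, hj2⟩) h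
    · intro k hk hk0
      rw [Finset.mem_range] at hk
      refine Finset.sum_eq_zero fun j hj => ?_
      rw [Finset.mem_Ico] at hj
      obtain ⟨x1, x2⟩ := hx (d - j) k (by omega) (by omega) hk
      obtain ⟨x3, x4⟩ := hx j k (by omega) (by omega) hk
      have e4 : ¬ N ∣ N - (d - j) * d ^ k + (d - j0) := by
        intro h
        have h5 := nd2 _ (by omega) (by omega) h
        have h6 : (d - j) * d ^ k = d - j0 := by omega
        exact hk0 ((hone (d - j) k (d - j0) (by omega) (by omega)).1 h6).1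
      have e5 : ¬ N ∣ j * d ^ k + (d - j0) := nd _ (by omega) (by omega)
      rw [if_neg e4, if_neg e5]
      ring
    · intro h
      exact absurd (Finset.mem_range.2 (by omega)) h
  · -- beta
    have c2 : cc (N - j0 - q) = 0 := by
      rw [hval]
      have e3 : ¬ N ∣ N - j0 - q := nd _ (by omega) (by omega)
      rw [if_neg e3, mul_zero, sub_zero]
      refine Finset.sum_eq_zero fun k hk => Finset.sum_eq_zero fun j hj => ?_
      rw [Finset.mem_range] at hk
      rw [Finset.mem_Ico] at hj
      obtain ⟨x1, x2⟩ := hx (d - j) k (by omega) (by omega) hk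
      obtain ⟨x3, x4⟩ := hx j k (by omega) (by omega) hk
      have e4 : ¬ N ∣ N - (d - j) * d ^ k + (N - j0 - q) := by
        intro h
        have h5 := nd2 _ (by omega) (by omega) h
        omega
      have e5 : ¬ N ∣ j * d ^ k + (N - j0 - q) := by
        intro h
        have h5 := nd2 _ (by omega) (by omega) h
        exact hnone j k j0 (by omega) (by omega) (by omega) (by omega)
      rw [if_neg e4, if_neg e5]
      ring
    have e0 : N - j0 - q + q = N - j0 := by omega
    rw [← hper, e0, hval] at c2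
    have e3 : ¬ N ∣ N - j0 := nd _ (by omega) (by omega)
    rw [if_neg e3, mul_zero, sub_zero] at c2
    rw [Finset.sum_eq_single 0, Finset.sum_eq_single j0] at c2
    · rw [pow_zero, mul_one, mul_one] at c2
      have e4 : j0 + (N - j0) = N := by omega
      have e5 : ¬ N ∣ N - (d - j0) + (N - j0) := by
        intro h
        have h5 := nd2 _ (by omega) (by omega) h
        omega
      rw [e4, if_pos dvd_rfl, if_neg e5, mul_zero, zero_sub, neg_eq_zero] at c2
      rcases mul_eq_zero.1 c2 with h | h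
      · rcases mul_eq_zero.1 h with h' | h'
        · exact h'
        · exfalso
          have : j0 = 0 := by exact_mod_cast h'
          omega
      · exact absurd h hNκ
    · intro j hj hne
      rw [Finset.mem_Ico] at hj
      rw [pow_zero, mul_one, mul_one]
      have e4 : ¬ N ∣ j + (N - j0) := by
        intro h
        have h5 := nd2 _ (by omega) (by omega) h
        omega
      have e5 : ¬ N ∣ N - (d - j) + (N - j0) := by
        intro h
        have h5 := nd2 _ (by omega) (by omega) h
        omega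
      rw [if_neg e4, if_neg e5]
      ring
    · intro h
      exact absurd (Finset.mem_Ico.2 ⟨hj1, hj2⟩) h
    · intro k hk hk0
      rw [Finset.mem_range] at hk
      refine Finset.sum_eq_zero fun j hj => ?_
      rw [Finset.mem_Ico] at hj
      obtain ⟨x1, x2⟩ := hx (d - j) k (by omega) (by omega) hk
      obtain ⟨x3, x4⟩ := hx j k (by omega) (by omega) hk
      have e4 : ¬ N ∣ j * d ^ k + (N - j0) := by
        intro h
        have h5 := nd2 _ (by omega) (by omega) h
        have h6 : j * d ^ k = j0 := by omega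
        exact hk0 ((hone j k j0 (by omega) (by omega)).1 h6).1
      have e5 : ¬ N ∣ N - (d - j) * d ^ k + (N - j0) := by
        intro h
        have h5 := nd2 _ (by omega) (by omega) h
        omega
      rw [if_neg e4, if_neg e5]
      ring
    · intro h
      exact absurd (Finset.mem_range.2 (by omega)) h

end Pool.Agent.LenSpec
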