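import Pool.Agent.LenSpec.GIDefs

/-!
VU: the sum of the invariants over a configuration is a constant.
-/

namespace Pool.Agent.LenSpec

section vu

variable {κ : Type} [Field κ] [CharZero κ] {d : ℕ}

omit [CharZero κ] in
theorem vu_eE (V : Finset (Fin d)) (c w : Fin d → κ) (s : Fin d) (hs : s ∈ V) :
    eE V c w s = ∑ j ∈ V, c j / (w s - w j) := by
  unfold eE
  rw [← Finset.add_sum_erase V _ hs]
  simp

theorem vu_D (V : Finset (Fin d)) (c y : Fin d → κ) :
    ∑ s ∈ V, c s * eE V c y s = 0 := by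
  have h : ∑ s ∈ V, c s * eE V c y s = ∑ s ∈ V, ∑ j ∈ V, c s * c j / (y s - y j) := by
    apply Finset.sum_congr rfl
    intro s hs
    rw [vu_eE V c y s hs, Finset.mul_sum]
    apply Finset.sum_congr rfl
    intro j _
    rw [mul_div_assoc]
  have h2 : ∑ s ∈ V, ∑ j ∈ V, c s * c j / (y s - y j) =
      - ∑ s ∈ V, ∑ j ∈ V, c s * c j / (y s - y j) := by
    conv_lhs => rw [Finset.sum_comm]
    rw [← Finset.sum_neg_distrib]
    apply Finset.sum_congr rfl
    intro s _
    rw [← Finset.sum_neg_distrib]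
    apply Finset.sum_congr rfl
    intro j _
    rw [← neg_sub (y s) (y j), div_neg, mul_comm (c j)]
  rw [h]
  have h3 : (2 : κ) * ∑ s ∈ V, ∑ j ∈ V, c s * c j / (y s - y j) = 0 := by
    linear_combination h2
  rcases mul_eq_zero.mp h3 with h4 | h4
  · norm_num at h4
  · exact h4

theorem vu_A (V : Finset (Fin d)) (c y : Fin d → κ)
    (hy : ∀ s ∈ V, ∀ l ∈ V, s ≠ l → y s ≠ y l) :
    2 * ∑ s ∈ V, c s * y s * eE V c y s = ∑ s ∈ V, ∑ j ∈ V, if s = j then 0 else c s * c j := by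
  have h : ∑ s ∈ V, c s * y s * eE V c y s =
      ∑ s ∈ V, ∑ j ∈ V, c s * c j * y s / (y s - y j) := by
    apply Finset.sum_congr rfl
    intro s hs
    rw [vu_eE V c y s hs, Finset.mul_sum]
    apply Finset.sum_congr rfl
    intro j _
    ring
  have h2 : ∑ s ∈ V, c s * y s * eE V c y s =
      ∑ s ∈ V, ∑ j ∈ V, c j * c s * y j / (y j - y s) := by
    rw [h, Finset.sum_comm]
  rw [two_mul]
  conv_lhs => arg 1; rw [h]
  rw [h2, ← Finset.sum_add_distrib]
  apply Finset.sum_congr rfl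
  intro s hs
  rw [← Finset.sum_add_distrib]
  apply Finset.sum_congr rfl
  intro j hj
  by_cases hsj : s = j
  · subst hsj; simp
  · have h1 : y s - y j ≠ 0 := sub_ne_zero.mpr (hy s hs j hj hsj)
    rw [if_neg hsj, ← neg_sub (y s) (y j), div_neg]
    field_simp
    ring

theorem vu_sum (V : Finset (Fin d)) (c y : Fin d → κ)
    (hy : ∀ s ∈ V, ∀ l ∈ V, s ≠ l → y s ≠ y l) :
    ∑ s ∈ V, ∑ l ∈ V, c s * c l * gG V c y s l =
      (∑ s ∈ V, c s) * ∑ s ∈ V, ∑ j ∈ V, if s = j then 0 else c s * c j := by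
  have h : ∑ s ∈ V, ∑ l ∈ V, c s * c l * gG V c y s l =
      (∑ s ∈ V, c s) * (2 * ∑ s ∈ V, c s * y s * eE V c y s) -
      2 * (∑ s ∈ V, c s * y s) * (∑ s ∈ V, c s * eE V c y s) := by
    have e1 : ∀ s ∈ V, ∑ l ∈ V, c s * c l * gG V c y s l =
        (c s * y s * eE V c y s) * (∑ l ∈ V, c l) + c s * (∑ l ∈ V, c l * y l * eE V c y l)
        - (c s * y s) * (∑ l ∈ V, c l * eE V c y l) -
        (c s * eE V c y s) * (∑ l ∈ V, c l * y l) := by
      intro s _
      rw [Finset.mul_sum, Finset.mul_sum, Finset.mul_sum, Finset.mul_sum,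
        ← Finset.sum_add_distrib, ← Finset.sum_sub_distrib, ← Finset.sum_sub_distrib]
      apply Finset.sum_congr rfl
      intro l _
      unfold gG
      ring
    rw [Finset.sum_congr rfl e1, Finset.sum_sub_distrib, Finset.sum_sub_distrib,
      Finset.sum_add_distrib, ← Finset.sum_mul, ← Finset.sum_mul, ← Finset.sum_mul,
      ← Finset.sum_mul]
    ring
  rw [h, vu_D, vu_A V c y hy]
  ring

theorem VU_holds : VUS := by
  intro κ _ _ d c w y V hG hV hy hg
  by_contra hne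
  have hw : ∀ s ∈ V, ∀ l ∈ V, s ≠ l → w s ≠ w l := fun s _ l _ h h' => h (hG.inj h')
  have h1 := vu_sum V c y hy
  have h2 := vu_sum V c w hw
  have h3 : ∑ s ∈ V, ∑ l ∈ V, c s * c l * gG V c y s l =
      ∑ s ∈ V, ∑ l ∈ V, c s * c l * gG Finset.univ c w s l := by
    apply Finset.sum_congr rfl
    intro s hs
    apply Finset.sum_congr rfl
    intro l hl
    by_cases hsl : s = l
    · subst hsl; simp [gG]
    · rw [hg s hs l hl hsl]
  have hE : ∀ s ∈ V, eE Finset.univ c w s = eE V c w s + ∑ m ∈ Vᶜ, c m / (w s - w m) := by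
    intro s hs
    rw [vu_eE V c w s hs, vu_eE Finset.univ c w s (Finset.mem_univ s),
      Finset.sum_add_sum_compl]
  have h4 : ∀ s ∈ V, ∀ l ∈ V, c s * c l * gG Finset.univ c w s l =
      c s * c l * gG V c w s l -
        ∑ m ∈ Vᶜ, c m * c s * c l * (w s - w l) ^ 2 / ((w s - w m) * (w l - w m)) := by
    intro s hs l hl
    unfold gG
    rw [hE s hs, hE l hl]
    have h5 : ∑ m ∈ Vᶜ, c m * c s * c l * (w s - w l) ^ 2 / ((w s - w m) * (w l - w m)) =
        c s * c l * (w s - w l) * (∑ m ∈ Vᶜ, c m / (w l - w m) - ∑ m ∈ Vᶜ, c m / (w s - w m)) := by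
      rw [← Finset.sum_sub_distrib, Finset.mul_sum]
      apply Finset.sum_congr rfl
      intro m hm
      rw [Finset.mem_compl] at hm
      have a1 : w s - w m ≠ 0 := sub_ne_zero.mpr (fun h => hm (hG.inj h ▸ hs))
      have a2 : w l - w m ≠ 0 := sub_ne_zero.mpr (fun h => hm (hG.inj h ▸ hl))
      field_simp
      ring
    rw [h5]
    ring
  have h6 : ∑ s ∈ V, ∑ l ∈ V, c s * c l * gG Finset.univ c w s l =
      ∑ s ∈ V, ∑ l ∈ V, c s * c l * gG V c w s l -
        ∑ s ∈ V, ∑ l ∈ V, ∑ m ∈ Vᶜ,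
          c m * c s * c l * (w s - w l) ^ 2 / ((w s - w m) * (w l - w m)) := by
    rw [← Finset.sum_sub_distrib]
    apply Finset.sum_congr rfl
    intro s hs
    rw [← Finset.sum_sub_distrib]
    apply Finset.sum_congr rfl
    intro l hl
    exact h4 s hs l hl
  have h7 : ∑ s ∈ V, ∑ l ∈ V, ∑ m ∈ Vᶜ,
      c m * c s * c l * (w s - w l) ^ 2 / ((w s - w m) * (w l - w m)) = 0 := by
    linear_combination h6 + h2 - h1 + h3
  apply hG.e3 V hne hV
  rw [← h7, Finset.sum_comm]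
  apply Finset.sum_congr rfl
  intro s _
  rw [Finset.sum_comm]

end vu

end Pool.Agent.LenSpec
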